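import Pool.Agent.Lib.MP_d61fbb_ag.MT.BAl3
import Pool.Agent.Lib.MP_d61fbb_ag.MN.T1

/-! The graded theta system of a Frobenius system. -/

set_option autoImplicit false

noncomputable section

namespace Pool.Agent.MT

variable [Dim]

open Matrix Polynomial
open scoped Classical

/-- invariants in a span of eigenvectors -/
theorem bal_eig {k M ι : Type*} [Field k] [AddCommGroup M] [Module k M] (X : Submodule k M)
    (U : ι → M →ₗ[k] M) (hX : ∀ i, ∀ v ∈ X, U i v = v) {s : Set M}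
    (eig : ∀ g ∈ s, ∀ i, ∃ c : k, U i g = c • g)
    (hs : ∀ g ∈ s, g ∈ X ∨ ∃ i, ∃ c : k, c ≠ 1 ∧ U i g = c • g) {f : M}
    (hf : f ∈ Submodule.span k s) (inv : ∀ i, U i f = f) : f ∈ X := by
  obtain ⟨t, ht, hf⟩ := Submodule.mem_span_finite_of_mem_span hf
  replace hf : f ∈ X ⊔ Submodule.span k t := Submodule.mem_sup_right hf
  induction t using Finset.induction_on with
  | empty => simpa using hf
  | insert g t _ ih =>
    rw [Finset.coe_insert, Set.insert_subset_iff] at ht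
    refine ih ht.2 ?_
    rw [Finset.coe_insert, Submodule.span_insert, ← sup_assoc] at hf
    rcases hs g ht.1 with h | ⟨i, c, c1, h⟩
    · rwa [sup_eq_left.2 ((Submodule.span_singleton_le_iff_mem _ _).2 h)] at hf
    · rw [← Submodule.smul_mem_iff _ (sub_ne_zero.2 c1.symm), sub_smul, one_smul,
        ← show (U i - c • LinearMap.id : M →ₗ[k] M) f = f - c • f by simp [inv i]]
      refine (sup_le (sup_le ?_ ?_) (Submodule.span_le.2 ?_) :
        _ ≤ (X ⊔ Submodule.span k t).comap (U i - c • LinearMap.id)) hf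
      · exact fun v hv => Submodule.mem_sup_left (sub_mem ((hX i v hv).symm ▸ hv) (X.smul_mem c hv))
      · exact (Submodule.span_singleton_le_iff_mem _ _).2 (by simp [h])
      · intro v hv
        obtain ⟨d, e⟩ := eig v (ht.2 hv) i
        exact Submodule.mem_sup_right (sub_mem (e ▸ Submodule.smul_mem _ _ (Submodule.subset_span hv))
          (Submodule.smul_mem _ _ (Submodule.subset_span hv)))

theorem bal_four {k V A : Type*} [Field k] [AddCommGroup V] [Module ℚ V] [AddCommGroup A]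
    [Module ℚ A] (φ : V →ₗ[ℚ] A) (e : AddChar A k) (a b c d : V) :
    e (2 • φ a) = e (φ ((1 / 2 : ℚ) • (a + b + c + d))) * e (φ ((1 / 2 : ℚ) • (a + b - c - d))) *
      e (φ ((1 / 2 : ℚ) • (a - b + c - d))) * e (φ ((1 / 2 : ℚ) • (a - b - c + d))) := by
  simp only [← AddChar.map_add_eq_mul, ← map_add, ← map_nsmul]
  congr 2
  module

theorem bal_ring {k : Type*} [Field k] {u : k} (h : u ≠ 0) (n s a b c d x y z w : k) :
    n * (s * (a * x * (b * y) * (c * z) * (d * w))) =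
      u * (n * s / u * (a * b * c * d) * (x * y * z * w)) := by
  field_simp

/-- matrices as rational endomorphisms -/
def balE : M8 AF →+* Module.End ℚ W where
  toFun M := (mulVecLin M).restrictScalars ℚ
  map_one' := LinearMap.ext fun x => one_mulVec x
  map_mul' M N := LinearMap.ext fun x => (mulVec_mulVec x M N).symm
  map_zero' := LinearMap.ext fun x => zero_mulVec x
  map_add' M N := LinearMap.ext fun x => add_mulVec M N x


/-- half of the symplectic form -/
def balF : W →ₗ[ℚ] W →ₗ[ℚ] AF := LinearMap.mk₂ ℚ (fun x y => (1 / 2 : ℚ) • Ef x y)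
  (fun _ _ _ => by rw [Ef_add_left, smul_add]) (fun _ _ _ => by rw [Ef_q_left, smul_comm])
  (fun _ _ _ => by rw [Ef_add_right, smul_add]) fun _ _ _ => by rw [Ef_q_right, smul_comm]

lemma balF_nsmul (m : ℕ) (x y : W) : m • balF x y = ((m : ℚ) / 2) • Ef x y := by
  change m • (1 / 2 : ℚ) • Ef x y = _
  rw [← Nat.cast_smul_eq_nsmul ℚ, smul_smul, mul_one_div]

lemma Uo_Rt {k : Type} [Field k] (e : AddChar AF k) (m : ℕ) (t : W) (f : W → k) :
    Uo balF e m t f = Rt e m t f := funext fun x => congrArg (fun a => e a * f (x + t))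
  (balF_nsmul m t x)

lemma mv_z (M : M8 AF) (c : ℤ) (x : W) : c • M *ᵥ x = M *ᵥ (c • x) :=
  (map_zsmul (balE M) c x).symm

lemma mv_cl (M : M8 AF) (L : Multiset (ℤ × W)) :
    cl (L.map fun c => (c.1, M *ᵥ c.2)) = M *ᵥ cl L := by
  induction L using Multiset.induction_on with
  | empty => simp [cl]
  | cons c L ih =>
    simp only [cl, Multiset.map_cons, Multiset.sum_cons] at ih ⊢
    rw [ih, mulVec_add, mv_z]

lemma sc_cl (m : ℤ) (L : Multiset (ℤ × W)) : cl (L.map fun c => (c.1 * m, c.2)) = m • cl L := by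
  induction L using Multiset.induction_on with
  | empty => simp [cl]
  | cons c L ih =>
    simp only [cl, Multiset.map_cons, Multiset.sum_cons] at ih ⊢
    rw [ih]
    module

lemma bal_mA_mul (g h : ∀ l : Pr, GL (I2 gg) ℤ_[l]) : mA (g * h) = mA g * mA h := by
  refine Matrix.ext fun i j => ?_
  rw [mul_apply]
  simp only [mA, of_apply, ← map_mul, ← map_sum]
  congr 1
  funext l
  rw [Finset.sum_apply]
  exact mul_apply

lemma bal_mA_one : mA 1 = 1 := by
  refine Matrix.ext fun i j => ?_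
  by_cases h : i = j
  · subst h
    rw [one_apply_eq, ← map_one zA]
    exact congrArg zA (funext fun l => one_apply_eq i)
  · rw [one_apply_ne h, ← map_zero zA]
    exact congrArg zA (funext fun l => one_apply_ne h)

lemma mA_int (g : ∀ l : Pr, GL (I2 gg) ℤ_[l]) (l : Pr) {x : W} (h : ∀ i, ‖cp l (x i)‖ ≤ 1) (i) :
    ‖cp l ((mA g *ᵥ x) i)‖ ≤ 1 := by
  simp only [mulVec, dotProduct, map_sum, map_mul]
  exact IsUltrametricDist.norm_sum_le_of_forall_le_of_nonneg zero_le_one fun j _ =>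
    padic_mul_le ((g l).val i j).2 (h j)

/-- vectors that are integral at `p` up to the image of `δ` -/
def balD (p : Pr) (δ : M8 AF) : AddSubgroup W where
  carrier := {x | ∃ w, ∀ i, ‖cp p ((x - δ *ᵥ w) i)‖ ≤ 1}
  zero_mem' := ⟨0, by simp⟩
  add_mem' := by
    rintro x y ⟨w, h⟩ ⟨w', h'⟩
    refine ⟨w + w', fun i => ?_⟩
    rw [mulVec_add, add_sub_add_comm, Pi.add_apply, map_add]
    exact padic_add_le (h i) (h' i)
  neg_mem' := by
    rintro x ⟨w, h⟩
    refine ⟨-w, fun i => ?_⟩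
    rw [mulVec_neg, ← neg_sub', Pi.neg_apply, map_neg, norm_neg]
    exact h i

lemma balD_int {p : Pr} {δ : M8 AF} {x : W} (h : ∀ i, ‖cp p (x i)‖ ≤ 1) : x ∈ balD p δ :=
  ⟨0, by simpa using h⟩

/-- twice the standard lattice -/
def balL : AddSubgroup W := L0.map (zsmulAddGroupHom 2)

lemma bal_q {k : Type} [Field k] {p : Pr} (S : TSys k p) {m : ℕ} (hm : (m : k) ≠ 0)
    (a : I2 gg → ℕ) (i : I2 gg) : ‖cp p (qv' (fun i => (a i : ℚ) / m) i)‖ ≤ 1 := by
  rw [AlgHom.commutes, map_div₀, map_natCast, map_natCast, norm_div, S.norm_cast hm p rfl, div_one]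
  exact padic_nat_le _ _

variable {k : Type} [Field k] {p : Pr} (S : FSys k p)

lemma bal_frob (x : W) : S.Θ (mA S.π *ᵥ x) = S.Θ x ^ (p : ℕ) := by
  have e : hw 0 = 0 := funext fun i => by simp [hw, hq]
  simpa only [TSys.th, e, Rt_zero] using S.frob 0 x

/-- the matrix `δ` moves nothing -/
structure Null (δ : M8 AF) : Prop where
  off : ∀ l ≠ p, ∀ w i, cp l ((δ *ᵥ w) i) = 0
  fix : ∀ w x, S.Θ (x + δ *ᵥ w) = S.Θ x
  comm : δ * mA S.π⁻¹ = mA S.π⁻¹ * δ

/-- products of given weight and class -/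
def balH (δ : M8 AF) (r : ℕ) (b : W ⧸ balD p δ) : Submodule k (W → k) :=
  Submodule.span k {f | ∃ L, wt L = r ∧ (cl L : W ⧸ balD p δ) = b ∧ f = gen S.e S.Θ L}

variable {S} {δ : M8 AF} (h : Null S δ)
include h

lemma Null.e_eq (c : ℚ) (y w x : W) : S.e (c • Ef (y + δ *ᵥ w) x) = S.e (c • Ef y x) := by
  rw [Ef_add_left, smul_add, AddChar.map_add_eq_mul, S.e_one (x := c • Ef (δ *ᵥ w) x), mul_one]
  intro l hl
  rw [map_smul, Ef_map, show (fun i => cp l ((δ *ᵥ w) i)) = 0 from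
    funext (h.off l (fun e => hl (congrArg _ e)) w), Ef_zero_left, smul_zero, norm_zero]
  exact zero_le_one

lemma Null.H_le {r : ℕ} (hr : r ≠ 0) : balH S δ r 0 ≤ S.G r := by
  refine Submodule.span_le.2 ?_
  rintro _ ⟨L, a, b, rfl⟩
  obtain ⟨w, hw⟩ := (QuotientAddGroup.eq_zero_iff _).1 b
  refine Submodule.subset_span ⟨shf (δ *ᵥ (-(r : ℚ)⁻¹ • w)) L, (wt_shf _ _).trans a,
    fun i l e => ?_, funext fun x => ?_⟩
  · obtain rfl : l = p := Subtype.ext e
    rw [cl_shf, a, natCast_zsmul, ← Nat.cast_smul_eq_nsmul ℚ, ← mulVec_smul, smul_smul, mul_neg,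
      mul_inv_cancel₀ (Nat.cast_ne_zero.2 hr), neg_one_smul ℚ w, mulVec_neg, ← sub_eq_add_neg]
    exact hw i
  · simp only [gen, shf, Multiset.map_map, Function.comp_def, Rt, mv_z, h.e_eq,
      ← add_assoc, h.fix]

/-- the graded system -/
def Null.sys : BSys k W AF (W ⧸ balD p δ) where
  E := balF
  ψ := S.e
  pr := QuotientAddGroup.mk' _
  Θ := S.Θ
  L := balL
  Eta := Finset.univ.image hw
  cf w := (Finset.univ.filter fun η => hw η = w).card * S.e ((2 : ℚ) • Qf w) / 2 ^ gg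
  H := balH S δ
  c := 4
  g := gg
  q := p
  fr := balE (mA S.π)
  fr' := (QuotientAddGroup.map _ _ (balE ((p : ℕ) • mA S.π⁻¹)).toAddMonoidHom (by
    rintro x ⟨w, hw⟩
    change ((p : ℕ) • mA S.π⁻¹) *ᵥ x ∈ balD p δ
    rw [smul_mulVec]
    refine (balD p δ).nsmul_mem ⟨mA S.π⁻¹ *ᵥ w, fun i => ?_⟩ _
    rw [mulVec_mulVec, h.comm, ← mulVec_mulVec, ← mulVec_sub]
    exact mA_int _ _ hw i)).toIntLinearMap
  alt x := by simp [balF]
  even := S.ev
  nv x := let ⟨η, e⟩ := S.bpf x; ⟨_, Finset.mem_image_of_mem _ (Finset.mem_univ η), e⟩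
  eta_pr η hη := by
    obtain ⟨η, -, rfl⟩ := Finset.mem_image.1 hη
    exact (QuotientAddGroup.eq_zero_iff _).2 (balD_int (bal_q S.toTSys (m := 2)
      (by exact_mod_cast S.two) fun i => (η i).val))
  eta_inv η hη := by
    obtain ⟨η, -, rfl⟩ := Finset.mem_image.1 hη
    rintro _ ⟨t, ht, rfl⟩
    rw [Uo_Rt, Uo_Rt]
    exact S.Sp_per ht (S.th_Sp η)
  riem a b c d := by
    have h16 : (2 ^ gg : k) ≠ 0 := pow_ne_zero _ S.two
    refine mul_left_cancel₀ h16 ((S.ri a b c d).trans ?_)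
    rw [Finset.sum_comp (fun w => S.e ((2 : ℚ) • Qf w) *
      (Rt S.e 1 w S.Θ ((1 / 2 : ℚ) • (a + b + c + d)) * Rt S.e 1 w S.Θ ((1 / 2 : ℚ) • (a + b - c - d)) *
      Rt S.e 1 w S.Θ ((1 / 2 : ℚ) • (a - b + c - d)) * Rt S.e 1 w S.Θ ((1 / 2 : ℚ) • (a - b - c + d))))
      hw, Finset.mul_sum]
    refine Finset.sum_congr rfl fun w _ => ?_
    have r : ∀ x, Rt S.e 1 w S.Θ x = S.e (balF w x) * S.Θ (x + w) := fun x => by
      rw [← one_nsmul (balF w x), balF_nsmul]; rfl
    rw [r, r, r, r, bal_four (balF w) S.e a b c d, nsmul_eq_mul]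
    exact bal_ring h16 _ _ _ _ _ _ _ _ _ _
  c_pos := by norm_num
  H_one := Submodule.subset_span ⟨0, rfl, rfl, by funext x; simp [gen]⟩
  H_th := Submodule.subset_span ⟨{(1, 0)}, by simp [wt], by simp [cl], by rw [gen_single, Rt_zero]⟩
  H_mul hf hg := by
    refine span_mul_mem ?_ hf hg
    rintro _ ⟨L, a, rfl, rfl⟩ _ ⟨L', a', rfl, rfl⟩
    exact Submodule.subset_span ⟨L + L', by rw [wt_add, a, a', Nat.cast_add],
      by rw [cl_add]; rfl, (gen_add _ _).symm⟩
  H_U y hf := by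
    rw [Uo_Rt]
    refine span_Rt_mem ?_ hf
    rintro _ ⟨L, a, rfl, rfl⟩
    rw [Rt_gen a]
    exact Submodule.smul_mem _ _ (Submodule.subset_span ⟨_, (wt_shf _ _).trans a,
      by rw [cl_shf, a, natCast_zsmul]; rfl, rfl⟩)
  H_sc {r b f} m hf := by
    refine (Submodule.span_le (p := (balH S δ _ _).comap (LinearMap.funLeft k k (m • ·)))).2 ?_ hf
    rintro _ ⟨L, a, rfl, rfl⟩
    refine Submodule.subset_span ⟨L.map fun c => (c.1 * m, c.2), ?_, ?_, funext fun x => ?_⟩
    · rw [Nat.cast_mul, ← a, Nat.cast_pow, Int.natAbs_sq]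
      simp [wt, mul_pow, mul_comm, Multiset.sum_map_mul_left]
    · rw [sc_cl, QuotientAddGroup.mk_zsmul]
    · simp only [gen, Multiset.map_map, Function.comp_def, mul_smul, LinearMap.funLeft_apply]
  H_fr {r b f} hf := by
    refine (Submodule.span_le (p := (balH S δ _ _).comap
      (LinearMap.funLeft k k (mA S.π *ᵥ ·)))).2 ?_ hf
    rintro _ ⟨L, a, rfl, rfl⟩
    refine Submodule.subset_span ⟨(p : ℕ) • L.map fun c => (c.1, mA S.π⁻¹ *ᵥ c.2), ?_, ?_,
      funext fun x => ?_⟩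
    · simp [wt, Multiset.map_nsmul, Multiset.sum_nsmul, ← a]
    · change _ = ((((p : ℕ) • mA S.π⁻¹) *ᵥ cl L : W) : W ⧸ balD p δ)
      rw [smul_mulVec, ← mv_cl]
      simp only [cl, Multiset.map_nsmul, Multiset.sum_nsmul]
    · simp only [gen, Multiset.map_nsmul, Multiset.prod_nsmul, Multiset.map_map, Function.comp_def,
        LinearMap.funLeft_apply, ← Multiset.prod_map_pow]
      refine congrArg _ (Multiset.map_congr rfl fun c _ => ?_)
      have e : mA S.π *ᵥ mA S.π⁻¹ *ᵥ c.2 = c.2 := by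
        rw [mulVec_mulVec, ← bal_mA_mul, mul_inv_cancel, bal_mA_one, one_mulVec]
      rw [Rt, Rt, mul_pow, ← bal_frob, ← Ef_q_left, ← Ef_q_left, ← S.frobe, mulVec_add, mulVec_smul,
        e, mv_z]
  fr_L := by
    rintro _ ⟨t, ht, rfl⟩
    exact ⟨mA S.π *ᵥ t, mem_L0.2 fun i l => mA_int _ l (fun j => mem_L0.1 ht j l) i,
      mv_z _ 2 t⟩
  fr_E x y := by
    have := S.frobe ((1 / 2 : ℚ) • x) y
    rw [mulVec_smul, Ef_q_left, Ef_q_left, ← AddChar.map_nsmul_eq_pow] at this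
    exact this
  dim r hr := by
    refine (Submodule.rank_mono fun f hf => ?_).trans (S.rank_Sp hr.ne')
    refine bal_eig _ (fun t : L0 => RtL S.e r ((2 : ℤ) • (t : W))) (fun t v hv => S.Sp_per t.2 hv)
      ?_ ?_ (h.H_le hr.ne' hf.1) fun t => (Uo_Rt _ _ _ _).symm.trans (hf.2 _ ⟨t, t.2, rfl⟩)
    · rintro _ ⟨L, a, -, rfl⟩ t
      exact ⟨_, (Rt_gen a _).trans (by rw [S.gen_per t.2, smul_smul])⟩
    · rintro _ ⟨L, a, b, rfl⟩
      by_cases e : ∀ t ∈ L0, S.e (Ef t ((2 : ℤ) • cl L)) = 1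
      · refine .inl (Submodule.subset_span ⟨L, a, mem_L0.2 fun i l => ?_, rfl⟩)
        by_cases hl : (l : ℕ) = p
        · rw [two_zsmul, Pi.add_apply, map_add]
          exact padic_add_le (b i l hl) (b i l hl)
        · exact mem_of_Ef (fun t ht _ => (S.ker _).1 (e t ht)) i l hl
      · push Not at e
        obtain ⟨t, ht, e⟩ := e
        refine .inr ⟨⟨-t, neg_mem ht⟩, _, e, (Rt_gen a _).trans ?_⟩
        rw [S.gen_per (neg_mem ht), smul_smul, ← AddChar.map_add_eq_mul]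
        congr 2
        simp only [Ef_z_right, Ef_neg_right]
        rw [Ef_swap t]
        push_cast
        module

end Pool.Agent.MT
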