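import Pool.Agent.Lib.MP_d61fbb_ag.MN.BAl4
import Pool.Agent.Lib.MP_d61fbb_ag.MN.Top

/-! Similitudes that are polynomials in Frobenius preserve the theta functions. -/

set_option autoImplicit false

noncomputable section

namespace Pool.Agent.MT

variable [Dim]

open Matrix Polynomial
open scoped Classical

theorem bal_aeval {R S : Type*} [Ring R] [Ring S] [Algebra ℤ R] [Algebra ℤ S] (φ : R →+* S) (x : R)
    (f : ℤ[X]) : aeval (φ x) f = φ (aeval x f) := by
  induction f using Polynomial.induction_on' with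
  | add f g hf hg => simp only [map_add, hf, hg]
  | monomial n c => simp only [aeval_monomial, eq_intCast, map_mul, map_intCast, map_pow]

/-- the reciprocal polynomial -/
theorem bal_recip (q : ℕ) (f : ℤ[X]) : ∃ (d : ℕ) (g : ℤ[X]), ∀ (R : Type) [Ring R] [Algebra ℤ R]
    (u v : R), u * v = 1 → aeval u g = u ^ d * aeval (q • v) f := by
  induction f using Polynomial.induction_on with
  | C m => exact ⟨0, C m, fun R _ _ u v _ => by simp⟩
  | add f f' h h' =>
    obtain ⟨d, g, h⟩ := h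
    obtain ⟨d', g', h'⟩ := h'
    refine ⟨d + d', X ^ d' * g + X ^ d * g', fun R _ _ u v e => ?_⟩
    simp only [map_add, map_mul, map_pow, aeval_X, h R u v e, h' R u v e, ← mul_assoc, ← pow_add,
      mul_add, add_comm d']
  | monomial n m h =>
    obtain ⟨d, g, h⟩ := h
    refine ⟨d + 1, q • g, fun R _ _ u v e => ?_⟩
    rw [pow_succ X, ← mul_assoc, mul_comm _ X, map_mul, aeval_X, map_nsmul, h R u v e, pow_succ,
      ← mul_assoc, mul_assoc (u ^ d), mul_smul_comm, e, mul_smul_comm, mul_one, smul_mul_assoc]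

theorem bal_comm {R : Type*} [Ring R] [Algebra ℤ R] {u x : R} (h : Commute u x) (f : ℤ[X]) :
    Commute u (aeval x f) := by
  induction f using Polynomial.induction_on' with
  | add f g hf hg => exact map_add (aeval x) f g ▸ hf.add_right hg
  | monomial n c =>
    rw [aeval_monomial, eq_intCast]
    exact (Int.commute_cast _ _).mul_right (h.pow_right n)

theorem BSys.alpha_rep {k W A B R : Type*} [Field k] [Infinite k] [AddCommGroup W] [Module ℚ W]
    [AddCommGroup A] [Module ℚ A] [AddCommGroup B] (T : BSys k W A B) [Ring R] [Algebra ℤ R]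
    (ρ : R →+* Module.End ℚ W) (M M' : R) (h1 : T.fr = ρ M)
    (h2 : ∀ w, T.fr' (T.pr w) = T.pr (ρ M' w)) (f : ℤ[X]) {N : ℕ}
    (h : ∀ a', (∀ w, a' (T.pr w) = T.pr (ρ (aeval M' f) w)) → T.Sim (ρ (aeval M f)) a' N) :
    (fun x => T.Θ (ρ (aeval M f) x)) ∈ T.H N 0 := by
  have e : ∀ f : ℤ[X], ∀ w, aeval T.fr' f (T.pr w) = T.pr (ρ (aeval M' f) w) := fun f => by
    induction f using Polynomial.induction_on with
    | C m => intro w; simp
    | add f g hf hg => intro w; simp only [map_add, LinearMap.add_apply, hf, hg]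
    | monomial n m h =>
      intro w
      rw [pow_succ, ← mul_assoc, map_mul, map_mul (aeval M'), aeval_X, aeval_X, map_mul ρ,
        Module.End.mul_apply, Module.End.mul_apply, h2, h]
  have := BSys.Sim.alpha f (T := T) (N := N) (by rw [h1, bal_aeval]; exact h _ (e f)) 0
  rw [h1, bal_aeval, map_zero, map_zero] at this
  convert this using 1
  funext x
  simp [BSys.th]

lemma bal_cp (π : ∀ l : Pr, GL (I2 gg) ℤ_[l]) (l : Pr) (f : ℤ[X]) :
    (aeval (mA π) f).map (cp l) = (aeval (π l).val f).map (↑) :=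
  (bal_aeval ((cp l).toRingHom.mapMatrix (m := I2 gg)) (mA π) f).symm.trans
    (bal_aeval ((PadicInt.Coe.ringHom (p := l)).mapMatrix (m := I2 gg)) (π l).val f)

lemma bal_cpv (l : Pr) (M : M8 AF) (x : W) : cpv l (M *ᵥ x) = M.map (cp l) *ᵥ cpv l x :=
  funext fun i => RingHom.map_mulVec (cp l).toRingHom M x i

variable {k : Type} [Field k] {p : Pr}

lemma bal_congr (S : TSys k p) {a b : AF} (h : ∀ l ≠ p, cp l a = cp l b) : S.e a = S.e b := by
  rw [← sub_add_cancel a b, AddChar.map_add_eq_mul, S.e_one, one_mul]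
  intro l hl
  rw [map_sub, h l fun e => hl (congrArg _ e), sub_self, norm_zero]
  exact zero_le_one

lemma bal_zero (S : TSys k p) {a b : AF} (h : ∀ c : ℚ, S.e (c • a) = S.e (c • b)) {l : Pr}
    (hl : l ≠ p) : cp l a = cp l b := by
  by_contra hn
  have h0 := norm_pos_iff.2 (sub_ne_zero.2 hn)
  obtain ⟨n, hn⟩ := pow_unbounded_of_one_lt ‖cp l a - cp l b‖⁻¹
    (show (1 : ℝ) < (l : ℕ) by exact_mod_cast l.2.one_lt)
  have := (S.ker ((((l : ℕ) : ℚ) ^ n)⁻¹ • (a - b))).1 (by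
    rw [smul_sub, AddChar.map_sub_eq_div, h, div_self (e_ne _ _)]) l fun e => hl (Subtype.ext e)
  rw [map_smul, map_sub, Algebra.smul_def, norm_mul, map_inv₀, map_pow, map_natCast, norm_inv,
    norm_pow, Padic.norm_p, inv_pow, inv_inv] at this
  rw [inv_lt_iff_one_lt_mul₀ h0] at hn
  linarith

lemma bal_fam (S : TSys k p) {M c : ℕ} (hM : (M : k) ≠ 0) (hc : c ≠ 0) (Y Z : AddSubgroup W)
    (χ : W → W → k) (mem : ∀ a : I2 gg → ℕ, qv' (fun i => (a i : ℚ) / c) ∈ Y)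
    (test : ∀ t ∈ L0, t ∈ Wp p → ∃ z ∈ Z, ∀ y, χ y z = S.e (((c : ℚ) / M) • Ef y t)) :
    ∃ s : Finset W, M ^ (2 * gg) ≤ s.card ∧ (∀ y ∈ s, y ∈ Y) ∧
      ∀ y ∈ s, ∀ y' ∈ s, (∀ z ∈ Z, χ y z = χ y' z) → y = y' := by
  have M0 : (M : ℚ) ≠ 0 := Nat.cast_ne_zero.2 fun e => hM (by simp [e])
  have sc : ∀ a : I2 gg → ℕ, ((c : ℚ) / M) • qv' (fun i => (a i : ℚ) / c) =
      qv' fun i => (a i : ℚ) / M := fun a => funext fun i => by
    rw [Pi.smul_apply, Algebra.smul_def, ← map_mul]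
    congr 1
    field_simp
  have sep : ∀ a a' : I2 gg → Fin M, (∀ z ∈ Z, χ (qv' fun i => ((a i : ℕ) : ℚ) / c) z =
      χ (qv' fun i => ((a' i : ℕ) : ℚ) / c) z) → a = a' := fun a a' h => funext fun i => by
    have h1 := mem_of_Ef (q := p) (x := qv' (fun i => ((a i : ℕ) : ℚ) / M) -
      qv' fun i => ((a' i : ℕ) : ℚ) / M) (fun t ht ht' => (S.ker _).1 (by
        obtain ⟨z, hz, e⟩ := test t ht ht'
        have := h z hz
        rw [e, e, ← Ef_q_left, ← Ef_q_left, sc, sc] at this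
        rw [Ef_swap, Ef_sub_left, neg_sub, AddChar.map_sub_eq_div, this, div_self (e_ne _ _)])) i
    obtain ⟨n, hn⟩ := (qa_mem_Zh (q := ((a i : ℕ) : ℚ) / M - ((a' i : ℕ) : ℚ) / M)).1 fun l => by
      by_cases hl : (l : ℕ) = p
      · obtain rfl : l = p := Subtype.ext hl
        rw [qa, map_sub, sub_eq_add_neg]
        exact padic_add_le (bal_q S hM (fun i => a i) i)
          ((norm_neg _).trans_le (bal_q S hM (fun i => a' i) i))
      · rw [qa, map_sub]
        exact h1 l hl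
    rw [← sub_div, div_eq_iff M0] at hn
    have h2 : ((a i : ℕ) : ℤ) - (a' i : ℕ) = n * M := by exact_mod_cast hn
    have h3 := (a i).2
    have h4 := (a' i).2
    have : n = 0 := by
      by_contra h0
      rcases lt_or_gt_of_ne h0 with h0 | h0 <;> nlinarith
    exact Fin.ext (by subst this; omega)
  refine ⟨Finset.univ.image fun a : I2 gg → Fin M => qv' fun i => ((a i : ℕ) : ℚ) / c, ?_, ?_, ?_⟩
  · rw [Finset.card_image_of_injective _ fun a a' e => sep a a' fun z _ => congrArg (χ · z) e]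
    simp [two_mul]
  · simp only [Finset.forall_mem_image]
    exact fun a _ => mem _
  · simp only [Finset.forall_mem_image]
    exact fun a _ a' _ h => by rw [sep a a' h]

lemma bal_int (S : TSys k p) {c : ℕ} (hc : c ≠ 0) (a : I2 gg → ℕ) {t : W} (ht : t ∈ L0) :
    S.e ((c : ℚ) • Ef (qv' fun i => (a i : ℚ) / c) t) = 1 := by
  rw [← Ef_q_left]
  refine S.e_one (Zq_zero (Ef_memR (fun i => ?_) (mem_L0q.1 ht)))
  rw [Pi.smul_apply, Algebra.smul_def, ← map_mul, mul_div_cancel₀ _ (Nat.cast_ne_zero.2 hc),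
    map_natCast]
  exact natCast_mem _ _

variable (S : FSys k p)

lemma bal_inv : mA S.π * mA S.π⁻¹ = 1 ∧ mA S.π⁻¹ * mA S.π = 1 := by
  rw [← bal_mA_mul, ← bal_mA_mul, mul_inv_cancel, inv_mul_cancel, bal_mA_one]
  exact ⟨rfl, rfl⟩

lemma bal_adj {l : Pr} (hl : l ≠ p) (f : ℤ[X]) : ∀ x y : W, cp l (Ef (aeval (mA S.π) f *ᵥ x) y) =
    cp l (Ef x (aeval ((p : ℕ) • mA S.π⁻¹) f *ᵥ y)) := by
  induction f using Polynomial.induction_on with
  | C m =>
    intro x y
    rw [aeval_C, aeval_C, eq_intCast, intCast_mulVec, intCast_mulVec, Ef_smul_left, Ef_smul_right]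
  | add f g hf hg =>
    intro x y
    simp only [map_add, add_mulVec, Ef_add_left, Ef_add_right, hf, hg]
  | monomial n m h =>
    intro x y
    rw [pow_succ, ← mul_assoc, map_mul, aeval_X, ← mulVec_mulVec, h, mul_comm _ X, map_mul _ X,
      aeval_X, ← mulVec_mulVec]
    generalize aeval ((p : ℕ) • mA S.π⁻¹) (C m * X ^ n) *ᵥ y = z
    refine bal_zero S.toTSys (fun c => ?_) hl
    have := S.frobe (c • x) (mA S.π⁻¹ *ᵥ z)
    rw [mulVec_mulVec, (bal_inv S).1, one_mulVec, mulVec_smul, Ef_q_left, Ef_q_left,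
      ← AddChar.map_nsmul_eq_pow] at this
    rw [this, smul_mulVec, Ef_n_right, smul_comm c, Nat.cast_smul_eq_nsmul]

lemma bal_sim {f : ℤ[X]} {m : ℕ} {l : Pr} (h : ∀ x y : I2 gg → ℤ_[l],
      Ef (aeval (S.π l).val f *ᵥ x) (aeval (S.π l).val f *ᵥ y) = m * Ef x y) (x y : W) :
    cp l (Ef (aeval (mA S.π) f *ᵥ x) (aeval (mA S.π) f *ᵥ y)) = m * cp l (Ef x y) := by
  have key : ∀ x ∈ L0, ∀ y ∈ L0, cp l (Ef (aeval (mA S.π) f *ᵥ x) (aeval (mA S.π) f *ᵥ y)) =
      m * cp l (Ef x y) := fun x hx y hy => by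
    have := congrArg (PadicInt.Coe.ringHom (p := l)) (h
      (fun i => ⟨cp l (x i), mem_L0.1 hx i l⟩) fun i => ⟨cp l (y i), mem_L0.1 hy i l⟩)
    rw [map_mul, map_natCast, Ef_map, Ef_map] at this
    simp only [RingHom.map_mulVec] at this
    rw [Ef_map, Ef_map]
    refine (congrArg₂ Ef (bal_cpv l _ x) (bal_cpv l _ y)).trans ?_
    rw [bal_cp]
    exact this
  obtain ⟨a, a0, ha⟩ := exists_den_W x
  obtain ⟨b, b0, hb⟩ := exists_den_W y
  have := key _ ha _ hb
  rw [mulVec_smul, mulVec_smul, Ef_n_left, Ef_n_right, Ef_n_left, Ef_n_right] at this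
  simp only [Nat.cast_smul_eq_nsmul, nsmul_eq_mul, map_mul, map_natCast] at this
  refine mul_left_cancel₀ (mul_ne_zero (Nat.cast_ne_zero.2 a0) (Nat.cast_ne_zero.2 b0)) ?_
  linear_combination this

lemma bal_dv (α β : M8 AF) (m : ℕ) (w : W) :
    (β * α - (m : M8 AF)) *ᵥ w = β *ᵥ α *ᵥ w - m • w := by
  rw [sub_mulVec, mulVec_mulVec, natCast_mulVec, Nat.cast_smul_eq_nsmul]

lemma bal_null (van : VAN) {f : ℤ[X]} {m : ℕ} (h : ∀ l ≠ p, ∀ x y : I2 gg → ℤ_[l],
      Ef (aeval (S.π l).val f *ᵥ x) (aeval (S.π l).val f *ᵥ y) = m * Ef x y) :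
    Null S (aeval ((p : ℕ) • mA S.π⁻¹) f * aeval (mA S.π) f - (m : M8 AF)) := by
  obtain ⟨i1, i2⟩ := bal_inv S
  have adj := fun l hl => bal_adj S (l := l) hl f
  have sim := fun l hl => bal_sim S (h l hl)
  obtain ⟨d, g, hg⟩ := bal_recip p f
  replace hg := hg _ _ _ i1
  have c0 : Commute (mA S.π) (mA S.π⁻¹) := i1.trans i2.symm
  have c1 := bal_comm (Commute.refl (mA S.π)) f
  have c2 := bal_comm (c0.smul_right (p : ℕ)) f
  have c3 := bal_comm c0.symm f
  have c4 := bal_comm ((Commute.refl (mA S.π⁻¹)).smul_right (p : ℕ)) f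
  have hA : aeval (mA S.π) (g * f - (m : ℤ[X]) * X ^ d) = mA S.π ^ d *
      (aeval ((p : ℕ) • mA S.π⁻¹) f * aeval (mA S.π) f - m) := by
    rw [map_sub, map_mul, map_mul, map_natCast, map_pow, aeval_X, hg, mul_sub, mul_assoc,
      Nat.cast_comm]
  generalize aeval (mA S.π) f = α at *
  generalize aeval ((p : ℕ) • mA S.π⁻¹) f = β at *
  have cd : Commute (mA S.π) (β * α - (m : M8 AF)) := (c2.mul_right c1).sub_right (Nat.commute_cast _ _)
  have off : ∀ l ≠ p, ∀ w i, cp l (((β * α - (m : M8 AF)) *ᵥ w) i) = 0 := fun l hl w i => by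
    have z : ∀ x, cp l (Ef x ((β * α - (m : M8 AF)) *ᵥ w)) = 0 := fun x => by
      rw [bal_dv, Ef_sub_right, map_sub, ← adj l hl, sim l hl, Ef_n_right, map_smul, Algebra.smul_def,
        map_natCast, sub_self]
    rcases i with i | i
    · simpa [Ef, dotProduct, Pi.single_apply] using z (Pi.single (.inr i) 1)
    · simpa [Ef, dotProduct, Pi.single_apply] using z (Pi.single (.inl i) 1)
  have p2 : (⟨2, Nat.prime_two⟩ : Pr) ≠ p := fun e => S.two (by
    have := S.char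
    exact_mod_cast (congrArg Subtype.val e).symm ▸ CharP.cast_eq_zero k p)
  have hv := (van k p S (g * f - (m : ℤ[X]) * X ^ d) _ p2 (Matrix.ext fun i j => Subtype.ext (by
    have := off _ p2 (mA S.π ^ d *ᵥ Pi.single j 1) i
    rw [mulVec_mulVec, ← cd.pow_left d, ← hA, mulVec_single_one] at this
    exact (congrFun (congrFun (bal_cp S.π _ _) i) j).symm.trans this))).2
  exact ⟨off, fun w x => by
    have := hv (cpv p (mA S.π⁻¹ ^ d *ᵥ w)) x
    rw [← bal_cp, ← bal_cpv, hA, cd.pow_left d, mulVec_mulVec, mul_assoc, ← c0.mul_pow, i1, one_pow,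
      mul_one] at this
    rw [← this]
    refine congrArg (fun z => S.Θ (x + z)) (funext fun i => ad_ext fun l => ?_)
    by_cases hl : l = p
    · subst hl
      exact (cp_sg _ _).symm
    · exact (off l hl w i).trans (cp_sg_ne hl _).symm,
    ((c4.mul_right c3).sub_right (Nat.commute_cast _ _)).symm⟩

variable {S} {δ : M8 AF} (hN : Null S δ) {m : ℕ} (hm : (m : k) ≠ 0)
include hm

lemma Null.nd1 : ∃ s : Finset W, ((4 * m) ^ gg) ^ 2 ≤ s.card ∧ (∀ y ∈ s, y ∈ hN.sys.Y m 1) ∧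
    ∀ y ∈ s, ∀ y' ∈ s, (∀ z ∈ hN.sys.Y m 1, S.e ((2 * m) • balF y z) = S.e ((2 * m) • balF y' z)) →
      y = y' := by
  have m0 : m ≠ 0 := fun e => hm (by simp [e])
  have mq : (m : ℚ) ≠ 0 := Nat.cast_ne_zero.2 m0
  have two : ∀ j, ((2 ^ j : ℕ) : k) ≠ 0 := fun j => by exact_mod_cast pow_ne_zero j S.two
  have m2 : ((2 * m : ℕ) : k) ≠ 0 := by exact_mod_cast mul_ne_zero S.two hm
  obtain ⟨s, h1, h2⟩ := bal_fam S.toTSys (M := 2 ^ 2 * m) (c := 2 * m)
    (by exact_mod_cast mul_ne_zero (two 2) hm) (by omega) (hN.sys.Y m 1) (hN.sys.Y m 1)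
    (fun y z => S.e ((2 * m) • balF y z))
    (fun a => ⟨(QuotientAddGroup.eq_zero_iff _).2 (balD_int (bal_q S.toTSys m2 a)), by
      rintro _ ⟨t, ht, rfl⟩
      refine Eq.trans (congrArg S.e ?_) (bal_int S.toTSys (c := 2 * m) (by omega) a ht)
      change (2 * m) • balF _ (1 • (2 : ℤ) • t) = _
      rw [balF_nsmul, one_nsmul, Ef_z_right, smul_smul]
      congr 1
      push_cast
      ring⟩) fun t ht ht' => ⟨((2 * m : ℕ) : ℚ)⁻¹ • t, ⟨(QuotientAddGroup.eq_zero_iff _).2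
        (balD_int fun i => by simp [ht' i p rfl]), by
      rintro _ ⟨t', ht', rfl⟩
      refine Eq.trans (congrArg S.e ?_) (S.e_one (Zq_zero (Ef_memR (mem_L0q.1 ht) (mem_L0q.1 ht'))))
      change (2 * m) • balF _ (1 • (2 : ℤ) • t') = _
      rw [balF_nsmul, one_nsmul, Ef_z_right, Ef_q_left, smul_smul, smul_smul]
      refine (congrArg (· • _) ?_).trans (one_smul ℚ _)
      push_cast
      field_simp⟩, fun y => by
      rw [balF_nsmul, Ef_q_right, smul_smul]
      congr 2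
      push_cast
      field_simp
      norm_num⟩
  exact ⟨s, (by rw [← pow_mul, mul_comm gg]; rfl : _ = _).trans_le h1, h2⟩

lemma Null.nd2 (j : ℕ) : ∃ s : Finset W, (4 ^ j) ^ gg ≤ s.card ∧ (∀ y ∈ s, y ∈ hN.sys.Y m (2 ^ j)) ∧
    ∀ y ∈ s, ∀ y' ∈ s, (∀ l ∈ balL, S.e ((2 * m) • balF y l) = S.e ((2 * m) • balF y' l)) →
      y = y' := by
  have m0 : m ≠ 0 := fun e => hm (by simp [e])
  have mq : (m : ℚ) ≠ 0 := Nat.cast_ne_zero.2 m0
  have two : ∀ j, ((2 ^ j : ℕ) : k) ≠ 0 := fun j => by exact_mod_cast pow_ne_zero j S.two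
  have m2 : ((2 * m : ℕ) : k) ≠ 0 := by exact_mod_cast mul_ne_zero S.two hm
  obtain ⟨s, h1, h2⟩ := bal_fam S.toTSys (M := 2 ^ j) (c := 2 * m * 2 ^ j) (two j) (by positivity)
    (hN.sys.Y m (2 ^ j)) balL (fun y z => S.e ((2 * m) • balF y z))
    (fun a => ⟨(QuotientAddGroup.eq_zero_iff _).2 (balD_int (bal_q S.toTSys
      (by rw [Nat.cast_mul]; exact mul_ne_zero m2 (two j)) a)), by
      rintro _ ⟨t, ht, rfl⟩
      refine Eq.trans (congrArg S.e ?_) (bal_int S.toTSys (c := 2 * m * 2 ^ j) (by positivity) a ht)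
      change (2 * m) • balF _ (2 ^ j • (2 : ℤ) • t) = _
      rw [balF_nsmul, Ef_n_right, Ef_z_right, smul_smul, smul_smul]
      congr 1
      push_cast
      ring⟩) fun t ht _ => ⟨(2 : ℤ) • t, ⟨t, ht, rfl⟩, fun y => by
      rw [balF_nsmul, Ef_z_right, smul_smul]
      congr 2
      push_cast
      field_simp⟩
  refine ⟨s, (?_ : _ = _).trans_le h1, h2⟩
  rw [show 4 ^ j = (2 ^ j) ^ 2 by rw [← pow_mul, mul_comm, pow_mul]; rfl, ← pow_mul]


omit hN hm in
lemma Null.sim {α β : M8 AF} (hN : Null S (β * α - (m : M8 AF))) (hm : (m : k) ≠ 0)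
    (c5 : Commute α β) (sim : ∀ l ≠ p, ∀ x y : W, cp l (Ef (α *ᵥ x) (α *ᵥ y)) = m * cp l (Ef x y))
    (a' : Module.End ℤ (W ⧸ balD p (β * α - (m : M8 AF))))
    (ha : ∀ w, a' (hN.sys.pr w) = hN.sys.pr (balE β w)) : hN.sys.Sim (balE α) a' m := by
  have m0 : m ≠ 0 := fun e => hm (by simp [e])
  have mq : (m : ℚ) ≠ 0 := Nat.cast_ne_zero.2 m0
  have z : ∀ w, hN.sys.pr ((β * α - (m : M8 AF)) *ᵥ w) = 0 := fun w =>
    (QuotientAddGroup.eq_zero_iff _).2 ⟨w, by simp⟩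
  refine ⟨Nat.pos_of_ne_zero m0, fun x y => ?_, fun w => ?_, fun y => ?_, hN.nd1 hm, hN.nd2 hm⟩
  · refine bal_congr S.toTSys fun l hl => ?_
    change cp l ((1 / 2 : ℚ) • Ef (α *ᵥ x) (α *ᵥ y)) = cp l (m • (1 / 2 : ℚ) • Ef x y)
    rw [map_nsmul, map_smul, map_smul, sim l hl, nsmul_eq_mul, mul_smul_comm]
  · rw [ha, ← map_nsmul, ← sub_eq_zero, ← map_sub]
    exact bal_dv α β m w ▸ z w
  · have e : y = α *ᵥ (m : ℚ)⁻¹ • β *ᵥ y + (β * α - (m : M8 AF)) *ᵥ (-(m : ℚ)⁻¹ • y) := by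
      rw [bal_dv]
      simp only [mulVec_smul, mulVec_mulVec, c5.eq]
      rw [← Nat.cast_smul_eq_nsmul ℚ, smul_smul, mul_neg, mul_inv_cancel₀ mq]
      module
    refine ⟨(m : ℚ)⁻¹ • β *ᵥ y, ?_, fun x => ?_, fun x => ?_⟩
    · conv_lhs => rw [e, map_add, z, add_zero]
      rfl
    · conv_lhs => rw [e]
      exact hN.e_eq _ _ _ _
    · conv_lhs => rw [e, ← add_assoc]
      exact hN.fix _ _

omit hN hm in
theorem alpha_gen (S : FSys k p) (van : VAN) (f : ℤ[X]) (m : ℕ) (hm : (m : k) ≠ 0)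
    (h : ∀ l ≠ p, ∀ x y : I2 gg → ℤ_[l],
      Ef (aeval (S.π l).val f *ᵥ x) (aeval (S.π l).val f *ᵥ y) = m * Ef x y) :
    (fun x => S.Θ (aeval (mA S.π) f *ᵥ x)) ∈ S.G m := by
  have hN := bal_null S van h
  have := S.closed
  have c0 : Commute (mA S.π⁻¹) (mA S.π) := (bal_inv S).2.trans (bal_inv S).1.symm
  exact hN.H_le (fun e => hm (by simp [e])) (BSys.alpha_rep hN.sys balE (mA S.π)
    ((p : ℕ) • mA S.π⁻¹) rfl (fun w => rfl) f (hN.sim hm
      (bal_comm ((bal_comm c0 f).symm.smul_right (p : ℕ)) f) fun l hl => bal_sim S (h l hl)))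

omit hN hm in
theorem t_alpha : T_ALPHA := fun _ _ _ _ van _ _ _ S _ _ _ =>
  ⟨0, fun _ _ m hm h => alpha_gen S van _ m hm h⟩

end Pool.Agent.MT
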