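import Pool.Agent.Lib.MP_d61fbb_ag.MN.BV2
import Pool.Agent.Lib.MP_d61fbb_ag.MN.T1
import Pool.Agent.Lib.MP_d61fbb_ag.MN.Top

/-! A polynomial in the Frobenius operator that vanishes at one prime vanishes everywhere. -/

set_option autoImplicit false

noncomputable section

namespace Pool.Agent.MT

variable [Dim]

open Matrix Polynomial

/-- a fixed vector in the span of eigenvectors lies in the span of the fixed ones -/
lemma van_fix {k V I Y : Type*} [Field k] [AddCommGroup V] [Module k V] (T : I → V →ₗ[k] V)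
    (φ : Y → V) (χ : Y → I → k) (hφ : ∀ y t, T t (φ y) = χ y t • φ y) (s : Set Y) {h : V}
    (hs : h ∈ Submodule.span k (φ '' s)) (hh : ∀ t, T t h = h) :
    h ∈ Submodule.span k (φ '' {y | y ∈ s ∧ ∀ t, χ y t = 1}) := by
  classical
  obtain ⟨u, hu, hs'⟩ := Submodule.mem_span_finite_of_mem_span hs
  obtain ⟨v, hv, rfl⟩ := Finset.subset_set_image_iff.1 hu
  rw [Finset.coe_image] at hs'
  clear hu hs
  rename' hs' => hs
  induction v using Finset.induction_on generalizing h with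
  | empty => simp at hs; simp [hs]
  | insert y v _ ih =>
    rw [Finset.coe_insert, Set.insert_subset_iff] at hv
    rw [Finset.coe_insert, Set.image_insert_eq, Submodule.mem_span_insert] at hs
    obtain ⟨c, h', hs, e⟩ := hs
    by_cases hy : ∀ t, χ y t = 1
    · have : h' ∈ _ := ih (h := h') (fun t => by
        have := hh t
        rw [e, map_add, map_smul, hφ, hy, one_smul] at this
        exact add_left_cancel this) hv.2 hs
      rw [e]
      exact add_mem (Submodule.smul_mem _ _ (Submodule.subset_span ⟨y, ⟨hv.1, hy⟩, rfl⟩)) this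
    · obtain ⟨t, ht⟩ := not_forall.1 hy
      refine ih hh hv.2 ?_
      have h1 : T t h' ∈ Submodule.span k (φ '' v) := by
        refine (Submodule.span_le (p := (Submodule.span k (φ '' v)).comap (T t))).2 ?_ hs
        rintro _ ⟨z, hz, rfl⟩
        rw [SetLike.mem_coe, Submodule.mem_comap, hφ]
        exact Submodule.smul_mem _ _ (Submodule.subset_span ⟨z, hz, rfl⟩)
      have h2 : (1 - χ y t) • h = T t h' - χ y t • h' := by
        have := hh t
        rw [e, map_add, map_smul, hφ] at this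
        rw [e, eq_sub_of_add_eq' this]
        module
      have h3 := Submodule.smul_mem _ (1 - χ y t)⁻¹ (sub_mem h1 (Submodule.smul_mem _ (χ y t) hs))
      rwa [← h2, inv_smul_smul₀ (sub_ne_zero.2 (Ne.symm ht))] at h3

lemma van_cpv (l : Pr) (a : M8 AF) (x : W) : cpv l (a *ᵥ x) = a.map (cp l) *ᵥ cpv l x := by
  funext i
  simp [cpv, mulVec, dotProduct, map_sum]

lemma van_sgv (l : Pr) (x : Vl l) : cpv l (sgv l x) = x := funext fun _ => cp_sg l _

namespace TSys
variable {k : Type} [Field k] {q : ℕ} (S : TSys k q)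

/-- theta functions of square weight are pullbacks under the multiplication -/
lemma G_sq (hI : IRR) {n : ℕ} (hn : (n : k) ≠ 0) : S.G (n ^ 2) =
    Submodule.span k ((fun y => gen S.e S.Θ {((n : ℤ), y)}) '' (Wp q : Set W)) := by
  have hwt : ∀ y : W, wt {((n : ℤ), y)} = (n ^ 2 : ℕ) := fun y => by simp [wt]
  refine (hI k q S _ (by simpa using hn) _ ?_ ?_ ?_).symm
  · refine Submodule.span_mono ?_
    rintro _ ⟨y, hy, rfl⟩
    refine ⟨_, hwt y, fun i l h => ?_, rfl⟩
    simp [cl, hy i l h]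
  · obtain ⟨η, h⟩ := S.bpf 0
    have hn' : (n : ℚ) ≠ 0 := by rintro h; simp [Nat.cast_eq_zero.1 h] at hn
    intro h0
    have := congrFun ((Submodule.span_eq_bot.1 h0) _ ⟨0, zero_mem _, rfl⟩) ((n : ℚ)⁻¹ • (0 + hw η))
    simp only [gen, Multiset.map_singleton, Multiset.prod_singleton, Rt_zero] at this
    rw [natCast_zsmul, ← Nat.cast_smul_eq_nsmul ℚ, smul_inv_smul₀ hn'] at this
    exact h this
  · intro t ht f hf
    refine span_Rt_mem ?_ hf
    rintro _ ⟨y, hy, rfl⟩
    rw [Rt_gen (hwt y)]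
    exact Submodule.smul_mem _ _ (Submodule.subset_span
      ⟨y + (n : ℤ) • t, add_mem hy (zsmul_mem ht _), by simp [shf]⟩)

/-- functions of level two and square weight -/
lemma Sp_sq (hI : IRR) {n : ℕ} (hn : (n : k) ≠ 0) {f : W → k} (hf : f ∈ Sp S.e S.Θ (n ^ 2)) :
    f ∈ Submodule.span k ((fun y => gen S.e S.Θ {((n : ℤ), y)}) ''
      {y | y ∈ (Wp q : Set W) ∧ ∀ t : L0, S.e ((2 : ℚ) • Ef y ((n : ℚ) • (t : W))) = 1}) := by
  refine van_fix (fun t : L0 => RtL S.e (n ^ 2) ((2 : ℤ) • (t : W))) _ _ (fun y t => ?_) _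
    (S.G_sq hI hn ▸ S.Sp_le _ hf) fun t => S.Sp_per t.2 hf
  change Rt S.e _ _ _ = _
  rw [Rt_gen (by simp [wt]), S.gen_per t.2, smul_smul, ← AddChar.map_add_eq_mul]
  congr 2
  simp only [cl, Multiset.map_singleton, Multiset.sum_singleton, Ef_z_left, Ef_z_right, Ef_q_right]
  push_cast; module

variable {S} {a : M8 AF} {N : ℕ}

lemma th_br (hI : IRR) (a : M8 AF) (η : I2 gg → ZMod 2) : (fun x => S.th η (a *ᵥ x)) ∈
    Submodule.span k {φ | ∃ y ∈ Wp q, φ = S.br a y} := by
  have h := S.th_mem η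
  rw [← one_pow 2, S.G_sq hI (by simp)] at h
  refine (Submodule.span_le (p := (Submodule.span k _).comap
    (LinearMap.funLeft k k fun x => a *ᵥ x))).2 ?_ h
  rintro _ ⟨y, hy, rfl⟩
  refine Submodule.subset_span ⟨y, hy, funext fun x => ?_⟩
  simp [gen, br, LinearMap.funLeft]

/-- a matrix with a complement that vanishes at one prime is constant on the theta coordinates -/
theorem Cmp.const (hI : IRR) (hG : GENP) (h : S.Cmp a N) (hN : N ≠ 0)
    (hint : ∀ i j (l : Pr), (l : ℕ) ≠ q → ‖cp l (a i j)‖ ≤ 1) {l : Pr} (hl : (l : ℕ) ≠ q)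
    (h0 : a.map (cp l) = 0) {η₀ : I2 gg → ZMod 2} (hη : S.th η₀ 0 ≠ 0) (η : I2 gg → ZMod 2) :
    ∃ r : k, ∀ x, S.th η (a *ᵥ x) = r * S.th η₀ (a *ᵥ x) := by
  classical
  have := S.char
  obtain ⟨n, j, hj, hn⟩ : ∃ n j : ℕ, n = (l : ℕ) ^ j ∧ (4 * N) ^ gg < n :=
    ⟨_, _, rfl, Nat.lt_pow_self l.2.one_lt⟩
  have hn0 : (n : ℚ) ≠ 0 := Nat.cast_ne_zero.2 (by omega)
  have hnk : (n : k) ≠ 0 := by
    rw [hj, Nat.cast_pow]
    refine pow_ne_zero _ fun h => ?_
    rw [CharP.cast_eq_zero_iff k q] at h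
    rcases (Nat.dvd_prime l.2).1 h with h | h
    · exact CharP.char_ne_one k q h
    · exact hl h.symm
  let F : Fin (n ^ 2 + 1) → W → k := fun i x =>
    (S.th η ^ (i : ℕ) * S.th η₀ ^ (n ^ 2 - i)) (a *ᵥ ((n : ℚ)⁻¹ • x))
  have hF : ¬ LinearIndependent k F := fun hi => by
    have := h.dim hG hN hint F (fun i => ?_) hi
    · rw [Fintype.card_fin] at this
      nlinarith
    have h1 := Sp_mul (S.th_pow η i) (S.th_pow η₀ (n ^ 2 - i))
    rw [Nat.add_sub_cancel' (Nat.lt_succ_iff.1 i.2)] at h1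
    refine (Submodule.span_le (p := (Submodule.span k _).comap
      (LinearMap.funLeft k k fun x => a *ᵥ ((n : ℚ)⁻¹ • x)))).2 ?_ (S.Sp_sq hI hnk h1)
    rintro _ ⟨y, ⟨hy, hy'⟩, rfl⟩
    refine Submodule.subset_span ⟨y, hy, funext fun x => ?_, fun t ht ht' => ?_⟩
    · simp only [gen, br, LinearMap.funLeft_apply, Multiset.map_singleton, Multiset.prod_singleton]
      rw [mulVec_smul, natCast_zsmul, ← Nat.cast_smul_eq_nsmul ℚ, smul_inv_smul₀ hn0]
    · have := hy' ⟨(n : ℚ)⁻¹ • (a *ᵥ t), mem_L0.2 fun i l' => ?_⟩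
      · rwa [smul_inv_smul₀ hn0] at this
      have e := congrFun (van_cpv l' a t) i
      rw [Pi.smul_apply, map_smul, show cp l' ((a *ᵥ t) i) = _ from e]
      by_cases h1 : l' = l
      · subst h1; simp [h0]
      by_cases h2 : (l' : ℕ) = q
      · rw [show cpv l' t = 0 from funext fun i => ht' i l' h2]; simp
      rw [Rat.smul_def, norm_mul, Rat.cast_inv, Rat.cast_natCast, hj, Nat.cast_pow, norm_inv,
        norm_pow, padic_norm_prime_ne h1, one_pow, inv_one, one_mul]
      exact IsUltrametricDist.norm_sum_le_of_forall_le_of_nonneg (s := Finset.univ) zero_le_one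
        fun j _ =>
        padic_mul_le (hint i j l' h2) (mem_L0.1 ht j l')
  obtain ⟨c, hc, i₀, hi₀⟩ := Fintype.not_linearIndependent_iff.1 hF
  let Q : k[X] := ∑ i : Fin (n ^ 2 + 1), monomial i (c i)
  have hQ : Q ≠ 0 := fun h => hi₀ (by
    have := congrArg (coeff · i₀) h
    simpa [Q, coeff_monomial, Fin.val_inj] using this)
  by_contra hr
  push Not at hr
  obtain ⟨x, -, hx⟩ := h.dom hG (ι := Option Q.roots.toFinset)
    (fun o => o.elim (fun x => S.th η₀ (a *ᵥ x))
      fun r => (fun x => S.th η (a *ᵥ x)) - (r : k) • fun x => S.th η₀ (a *ᵥ x))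
    (by
      rintro (_ | r)
      · exact th_br hI a η₀
      · exact sub_mem (th_br hI a η) (Submodule.smul_mem _ _ (th_br hI a η₀)))
    (by
      rintro (_ | r) h
      · exact hη (by simpa using congrFun h 0)
      · obtain ⟨x, hx⟩ := hr r
        exact hx (sub_eq_zero.1 (congrFun h x)))
  have h1 : S.th η₀ (a *ᵥ x) ≠ 0 := hx none
  refine hx (some ⟨S.th η (a *ᵥ x) / S.th η₀ (a *ᵥ x), ?_⟩) ?_
  · rw [Multiset.mem_toFinset, mem_roots hQ, IsRoot.def]
    have h2 := congrFun hc ((n : ℚ) • x)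
    simp only [F, Finset.sum_apply, Pi.smul_apply, inv_smul_smul₀ hn0, Pi.mul_apply, Pi.pow_apply,
      smul_eq_mul, Pi.zero_apply] at h2
    refine mul_right_cancel₀ (pow_ne_zero (n ^ 2) h1) ?_
    rw [zero_mul, ← h2, eval_finsetSum, Finset.sum_mul]
    refine Finset.sum_congr rfl fun i _ => ?_
    rw [eval_monomial, pow_sub₀ _ h1 (Nat.lt_succ_iff.1 i.2), div_pow]
    ring
  · simp [h1]

end TSys

theorem van_of : T_VAN := by
  intro hI _ hG hJ k _ p S A l hl hA
  obtain ⟨N, hN, h⟩ := S.cmp_ex hG A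
  obtain ⟨η₀, hη⟩ := S.exists_th 0
  choose r hr using h.const hI hG hN (l := l) (fun i j l' _ => by
    rw [show cp l' (aeval (mA S.π) A i j) = _ from congrFun₂ (S.cp_aeval l' A) i j]
    exact PadicInt.norm_le_one _) (fun e => hl (Subtype.ext e))
    (by rw [S.cp_aeval, hA]; simp) hη
  have key := fun x => hJ k p S.toTSys (aeval (mA S.π) A *ᵥ x) 0
    (S.th η₀ (aeval (mA S.π) A *ᵥ x) / S.th η₀ 0) fun η => by
      have := hr η 0
      rw [mulVec_zero] at this
      rw [hr, this]; field_simp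
  refine ⟨fun l' hl' => ?_, fun x => ?_⟩
  · ext i j
    by_contra hne
    have hne' : ((aeval (S.π l').val A i j : ℤ_[l']) : ℚ_[l']) ≠ 0 := by simpa using hne
    have h1 := (key (sgv l' (Pi.single j
      (2 * ((l' : ℕ) : ℚ_[l'])⁻¹ / (aeval (S.π l').val A i j : ℤ_[l']))))).1 i l'
      fun e => hl' (Subtype.ext e)
    have e := congrFun (van_cpv l' (aeval (mA S.π) A) (sgv l' (Pi.single j
      (2 * ((l' : ℕ) : ℚ_[l'])⁻¹ / (aeval (S.π l').val A i j : ℤ_[l']))))) i
    rw [van_sgv, S.cp_aeval, mulVec_single] at e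
    rw [sub_zero, map_smul, show cp l' _ = _ from e, Rat.smul_def] at h1
    simp only [Pi.smul_apply, col_apply, map_apply, MulOpposite.smul_eq_mul_unop,
      MulOpposite.unop_op] at h1
    rw [mul_div_cancel₀ _ hne', ← mul_assoc, show (((1 / 2 : ℚ)) : ℚ_[l']) * 2 = 1 by norm_num,
      one_mul, norm_inv, Padic.norm_p, inv_inv] at h1
    exact absurd h1 (not_le.2 (by exact_mod_cast l'.2.one_lt))
  · have := (key (sgv p x)).2 p rfl
    rwa [sub_zero, van_cpv, van_sgv, S.cp_aeval] at this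

end Pool.Agent.MT
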