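import Pool.Agent.Lib.MP_d61fbb_ag.MN.T1
import Pool.Agent.Lib.MP_d61fbb_ag.MN.BReds
import Pool.Agent.Lib.MP_d61fbb_ag.MN.Top

/-! Block B of the MT project: integral theta functions and their reductions. -/

set_option autoImplicit false

noncomputable section

namespace Pool.Agent.MT

variable [Dim]

open Matrix Sum
open Pool.Agent.Lib.MP_696deb_nt.B2 (Qbar Plc)
open scoped NNReal

/-- vectors that are integral at `q` -/
def Wi (q : ℕ) : AddSubgroup W where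
  carrier := {x | ∀ i (l : Pr), (l : ℕ) = q → ‖cp l (x i)‖ ≤ 1}
  zero_mem' := fun i l _ => by simp
  add_mem' := fun {x y} hx hy i l h => by
    rw [Pi.add_apply, map_add]
    exact (Padic.nonarchimedean _ _).trans (max_le (hx i l h) (hy i l h))
  neg_mem' := fun {x} hx i l h => by simpa using hx i l h

lemma L0_Wi {q : ℕ} {x : W} (h : x ∈ L0) : x ∈ Wi q := fun i l _ => mem_L0.1 h i l

lemma Wp_Wi {q : ℕ} {x : W} (h : x ∈ Wp q) : x ∈ Wi q := fun i l e => by simp [h i l e]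

lemma mem_Wi_zero (x : W) : x ∈ Wi 0 := fun _ l h => absurd h l.2.ne_zero

lemma inv_smul_Wi {p : Pr} {n : ℕ} (hn : ¬ (p : ℕ) ∣ n) {x : W} (h : x ∈ Wi p) :
    (n : ℚ)⁻¹ • x ∈ Wi p := fun i l e => by
  have h1 : ‖(n : ℚ_[l])‖ = 1 :=
    Padic.norm_natCast_eq_one_iff.2 ((Nat.Prime.coprime_iff_not_dvd l.2).2 (e ▸ hn))
  rw [Pi.smul_apply, map_smul, Rat.smul_def, norm_mul, Rat.cast_inv, Rat.cast_natCast, norm_inv, h1,
    inv_one, one_mul]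
  exact h i l e

lemma sgv_L0 {p : Pr} {t : Vl p} (h : ∀ i, ‖t i‖ ≤ 1) : sgv p t ∈ L0 :=
  mem_L0q.2 fun i => sg_mem (h i)

lemma split_p (p : Pr) (x : W) : x = iq p • x + sgv p (cpv p x) := funext fun i => ad_ext fun l => by
  by_cases h : l = p
  · subst h; simp [cp_iq, sgv, cpv, cp_sg]
  · have : (l : ℕ) ≠ p := fun e => h (Subtype.ext e)
    simp [cp_iq, sgv, cp_sg_ne h, this]

lemma Ef_sgv {p : Pr} {x : W} (hx : x ∈ Wp p) (t : Vl p) : Ef (sgv p t) x = 0 := ad_ext fun l => by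
  rw [Ef_map, map_zero]
  by_cases h : l = p
  · subst h
    rw [show (fun i => cp l (x i)) = 0 from funext fun i => hx i l rfl, Ef_zero_right]
  · rw [show (fun i => cp l (sgv p t i)) = 0 from funext fun i => cp_sg_ne h _, Ef_zero_left]

section
variable {k : Type} [Field k] {e : AddChar AF k} {Θ : W → k} {q m : ℕ} {f : W → k}

lemma Gs_Rt_int {t : W} (ht : t ∈ Wi q) (hf : f ∈ Gs q e Θ m) : Rt e m t f ∈ Gs q e Θ m := by
  refine span_Rt_mem ?_ hf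
  rintro _ ⟨L, a, b, rfl⟩
  rw [Rt_gen a]
  refine Submodule.smul_mem _ _ (Submodule.subset_span ⟨_, (wt_shf _ _).trans a, ?_, rfl⟩)
  rw [cl_shf]
  exact add_mem (show cl L ∈ Wi q from b) (zsmul_mem ht _)

lemma Gs_nsmul (n : ℕ) (hf : f ∈ Gs q e Θ m) : (fun x => f (n • x)) ∈ Gs q e Θ (n ^ 2 * m) := by
  refine (Submodule.span_le (p := (Gs q e Θ (n ^ 2 * m)).comap
    (LinearMap.funLeft k k fun x : W => n • x))).2 ?_ hf
  rintro _ ⟨L, a, b, rfl⟩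
  have h1 : ∀ L : Multiset (ℤ × W), wt (L.map fun c => (c.1 * n, c.2)) = n ^ 2 * wt L ∧
      cl (L.map fun c => (c.1 * n, c.2)) = n • cl L := fun L => by
    induction L using Multiset.induction_on with
    | empty => simp [wt, cl]
    | cons c L ih =>
      simp only [wt, cl, Multiset.map_cons, Multiset.sum_cons] at ih ⊢
      rw [ih.1, ih.2]
      exact ⟨by ring, by module⟩
  refine Submodule.subset_span ⟨L.map fun c => (c.1 * n, c.2), by rw [(h1 L).1, a]; push_cast; rfl,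
    by rw [(h1 L).2]; exact nsmul_mem (show cl L ∈ Wi q from b) n, funext fun x => ?_⟩
  simp only [LinearMap.funLeft_apply, gen, Multiset.map_map, Function.comp_def, mul_smul,
    natCast_zsmul]

lemma TSys.smooth (S : TSys k q) (hf : f ∈ S.G m) :
    ∃ N : ℕ, N ≠ 0 ∧ ∀ t ∈ L0, Rt S.e m (N • t) f = f := by
  induction hf using Submodule.span_induction with
  | mem f hf =>
    obtain ⟨L, a, -, rfl⟩ := hf
    obtain ⟨N, hN, h⟩ := exists_den_W (cl L)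
    refine ⟨2 * N, by omega, fun t ht => ?_⟩
    rw [show (2 * N) • t = (2 : ℤ) • N • t by module, Rt_gen a, S.gen_per (nsmul_mem ht N),
      smul_smul, ← AddChar.map_add_eq_mul, S.e_one, one_smul]
    rw [show (1 / 2 : ℚ) • Ef (cl L) ((2 : ℤ) • N • t) + Ef (cl L) (N • t) =
      Ef (N • cl L) t + Ef (N • cl L) t by
        simp only [Ef_z_right, Ef_n_left, Ef_n_right]; push_cast; module]
    have := Zq_zero (q := q) (Ef_memR (mem_L0q.1 h) (mem_L0q.1 ht))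
    exact add_mem this this
  | zero => exact ⟨1, one_ne_zero, fun t _ => map_zero (RtL S.e m _)⟩
  | add f g _ _ hf hg =>
    obtain ⟨M, hM, a⟩ := hf
    obtain ⟨N, hN, b⟩ := hg
    refine ⟨M * N, mul_ne_zero hM hN, fun t ht => (map_add (RtL S.e m _) f g).trans ?_⟩
    have h1 := a _ (nsmul_mem ht N)
    have h2 := b _ (nsmul_mem ht M)
    rw [smul_smul] at h1 h2
    rw [mul_comm N] at h2
    exact congrArg₂ _ h1 h2
  | smul c f _ hf =>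
    obtain ⟨M, hM, a⟩ := hf
    exact ⟨M, hM, fun t ht => by rw [Rt_smul, a t ht]⟩

/-- a function that is invariant at `p` has level prime to `p` -/
lemma TSys.smooth' (S : TSys k q) (p : Pr) (hf : f ∈ S.G m)
    (hp : ∀ t : Vl p, (∀ i, ‖t i‖ ≤ 1) → Rt S.e m (sgv p t) f = f) :
    ∃ N : ℕ, ¬ (p : ℕ) ∣ N ∧ ∀ t ∈ L0, Rt S.e m (N • t) f = f := by
  obtain ⟨N, hN, h⟩ := S.smooth hf
  obtain ⟨a, n, hn, rfl⟩ := Nat.exists_eq_pow_mul_and_not_dvd hN p p.2.ne_one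
  refine ⟨n, hn, fun t ht => ?_⟩
  have h0 : (((p : ℕ) ^ a : ℕ) : ℚ) ≠ 0 := Nat.cast_ne_zero.2 (pow_ne_zero _ p.2.ne_zero)
  have h1 : (((p : ℕ) ^ a : ℕ) : ℚ)⁻¹ • iq p • t ∈ L0 := mem_L0.2 fun i l => by
    by_cases e : (l : ℕ) = p
    · rw [Wp_qsmul _ (iq_mem p t) i l e, norm_zero]; exact zero_le_one
    · exact inv_smul_Wi (p := l) (fun h => e ((Nat.prime_dvd_prime_iff_eq l.2 p.2).1
        (l.2.dvd_of_dvd_pow h))) (L0_Wi (iq_L0 p ht)) i l rfl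
  have h2 := h _ h1
  rw [mul_comm, mul_smul, ← Nat.cast_smul_eq_nsmul ℚ (_ ^ a), smul_inv_smul₀ h0] at h2
  have h4 := Rt_Rt (e := S.e) m (iq p • n • t) (sgv p (cpv p (n • t))) f
  rw [← split_p, Ef_sgv (iq_mem p _), smul_zero, AddChar.map_zero_eq_one, one_smul,
    hp (cpv p (n • t)) fun i => mem_L0.1 (nsmul_mem ht n) i p, smul_comm, h2] at h4
  exact h4.symm

end

/-- rescaling of the second half of the coordinates -/
def Dm (c : ℚ) : W →+ W where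
  toFun x := Sum.elim (fun i => x (inl i)) fun i => c • x (inr i)
  map_zero' := funext fun i => by cases i <;> simp
  map_add' x y := funext fun i => by cases i <;> simp

lemma Ef_Dm (c : ℚ) (x y : W) : Ef (Dm c x) (Dm c y) = c • Ef x y := by
  simp [Ef, Dm, dotProduct, Finset.smul_sum, smul_sub]

lemma Dm_Dm (c d : ℚ) (x : W) : Dm c (Dm d x) = Dm (c * d) x :=
  funext fun i => by cases i <;> simp [Dm, mul_smul]

lemma Dm_one (x : W) : Dm 1 x = x := funext fun i => by cases i <;> simp [Dm]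

lemma Dm_Wi {p : Pr} {n : ℕ} (hn : ¬ (p : ℕ) ∣ n) {x : W} (h : x ∈ Wi p) :
    Dm (n : ℚ)⁻¹ x ∈ Wi p := fun i => by
  rcases i with i | i
  · exact h _
  · exact inv_smul_Wi hn h (inr i)

lemma Dm_L0 {n : ℕ} (hn : n ≠ 0) {x : W} (h : x ∈ L0) : n • Dm (n : ℚ)⁻¹ x ∈ L0 :=
  mem_L0q.2 fun i => by
    rcases i with i | i
    · exact nsmul_mem (mem_L0q.1 h _) n
    · have : (n • Dm (n : ℚ)⁻¹ x) (inr i) = x (inr i) := by
        change n • (n : ℚ)⁻¹ • x (inr i) = _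
        rw [← Nat.cast_smul_eq_nsmul ℚ, smul_inv_smul₀ (Nat.cast_ne_zero.2 hn)]
      rw [this]; exact mem_L0q.1 h _

/-- the multiples of `N` in the lattice -/
def KN (N : ℕ) : AddSubgroup L0 := (nsmulAddMonoidHom N : L0 →+ L0).range

lemma KN_fin {N : ℕ} (hN : N ≠ 0) : (KN N).FiniteIndex := by
  have := NeZero.mk hN
  let s : (I2 gg → ZMod N) → L0 := fun a => ⟨fun i => ((a i).val : AF), fun i _ => natCast_mem Zh _⟩
  have : Finite (L0 ⧸ KN N) := Finite.of_surjective (fun a => (s a : L0 ⧸ KN N)) fun x => by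
    obtain ⟨g, rfl⟩ := QuotientAddGroup.mk_surjective x
    choose n z hz h using fun i => Zh_div (g.2 i trivial) N hN
    refine ⟨fun i => n i, QuotientAddGroup.eq.2 ⟨⟨fun i => z i + (n i / N : ℤ), fun i _ =>
      add_mem (hz i) (intCast_mem Zh _)⟩, Subtype.ext (funext fun i => ?_)⟩⟩
    have h1 : (((n i : ZMod N).val : ℤ) : AF) = (n i % N : ℤ) := by rw [ZMod.val_intCast]
    have h2 := congrArg (Int.cast : ℤ → AF) (Int.emod_add_mul_ediv (n i) N)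
    change N • (z i + (n i / N : ℤ)) = -((n i : ZMod N).val : AF) + g.1 i
    rw [h i, nsmul_eq_mul]
    push_cast at h1 h2
    linear_combination h1 + h2
  exact AddSubgroup.finiteIndex_of_finite_quotient

section
variable {k : Type} [Field k] (S : TSys k 0)

lemma TSys.dual {x : W} (h : ∀ t ∈ L0, S.e (Ef t x) = 1) : x ∈ L0 :=
  mem_L0q.2 (mem_of_Ef fun t ht _ => (S.ker _).1 (h t ht))

/-- the action of a self dual lattice -/
def TSys.Tm (m : ℕ) (g : L0) : (W → k) →ₗ[k] W → k :=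
  S.e ((1 / 2 : ℚ) • Qf g.1) • RtL S.e m (Dm (m : ℚ)⁻¹ g)

lemma TSys.Tm_apply (m : ℕ) (g : L0) (f : W → k) :
    S.Tm m g f = S.e ((1 / 2 : ℚ) • Qf g.1) • Rt S.e m (Dm (m : ℚ)⁻¹ g) f := rfl

lemma TSys.Tm_add {m : ℕ} (hm : m ≠ 0) (a b : L0) (f : W → k) :
    S.Tm m (a + b) f = S.Tm m a (S.Tm m b f) := by
  have h0 : (m : ℚ) ≠ 0 := Nat.cast_ne_zero.2 hm
  simp only [TSys.Tm_apply, Rt_smul, Rt_Rt, smul_smul, ← AddChar.map_add_eq_mul, Ef_Dm,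
    AddSubgroup.coe_add, map_add]
  congr 1
  rw [← mul_one (S.e ((1 / 2 : ℚ) • Qf a.1 + _)), ← S.e_one (x := Ef a.1 b.1 +
    (a.1 ∘ inr) ⬝ᵥ (b.1 ∘ inl)) (add_mem (Ef_memR (mem_L0q.1 a.2) (mem_L0q.1 b.2))
      (sum_mem fun i _ => mul_mem (mem_L0q.1 a.2 _) (mem_L0q.1 b.2 _))), ← AddChar.map_add_eq_mul,
    Qf_add, Ef_swap b.1, show (m : ℚ) / 2 * (m : ℚ)⁻¹ = 1 / 2 by field_simp, two_mul]
  congr 1
  module

lemma TSys.Tm_Rt {m : ℕ} (hm : m ≠ 0) (g : L0) (c : ℚ) (y : W) (f : W → k) :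
    S.Tm m g (Rt S.e m (c • Dm (m : ℚ)⁻¹ y) f) =
      S.e (c • Ef y g.1) • Rt S.e m (c • Dm (m : ℚ)⁻¹ y) (S.Tm m g f) := by
  have h0 : (m : ℚ) ≠ 0 := Nat.cast_ne_zero.2 hm
  rw [TSys.Tm_apply, TSys.Tm_apply, Rt_comm, Rt_smul, smul_comm, Ef_q_left, Ef_Dm,
    smul_smul (m : ℚ), smul_smul (m * c : ℚ), show (m : ℚ) * c * (m : ℚ)⁻¹ = c by field_simp]

lemma TSys.Tm_K {m N : ℕ} (hm : m ≠ 0) {f : W → k} (h : ∀ t ∈ L0, Rt S.e m (N • t) f = f) :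
    ∀ a ∈ KN (2 * m * N), S.Tm m a f = f := by
  rintro _ ⟨g, rfl⟩
  change S.e ((1 / 2 : ℚ) • Qf ((2 * m * N) • g.1)) • Rt S.e m (Dm _ ((2 * m * N) • g.1)) f = f
  rw [map_nsmul, show (2 * m * N) • Dm (m : ℚ)⁻¹ g.1 = N • 2 • m • Dm (m : ℚ)⁻¹ g.1 by module,
    h _ (nsmul_mem (Dm_L0 hm g.2) 2), S.e_one, one_smul]
  rw [← Nat.cast_smul_eq_nsmul ℚ, Qf_q, smul_smul, show (1 / 2 : ℚ) * ((2 * m * N : ℕ) *
    (2 * m * N : ℕ)) = (2 * (m * N) ^ 2 : ℕ) by push_cast; ring, Nat.cast_smul_eq_nsmul]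
  exact nsmul_mem (Qf_memR (mem_L0q.1 g.2)) _

lemma TSys.Tm_uniq (hU : UNIQ) {m : ℕ} (hm : m ≠ 0) {f g : W → k} (hf : f ∈ S.G m)
    (hg : g ∈ S.G m) (h0 : f ≠ 0) (c : ℚ) (y : W)
    (ef : ∀ t : L0, S.e (c • Ef y t.1) • S.Tm m t f = f)
    (eg : ∀ t : L0, S.e (c • Ef y t.1) • S.Tm m t g = g) : ∃ a : k, g = a • f := by
  have := S.char
  have := CharP.charP_to_charZero k
  have h1 : (m : ℚ) ≠ 0 := Nat.cast_ne_zero.2 hm
  have key : ∀ f : W → k, (∀ t : L0, S.e (c • Ef y t.1) • S.Tm m t f = f) →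
      ∀ t ∈ L0.map (Dm (m : ℚ)⁻¹), Rt S.e m t f =
        (S.e (c • Ef y (Dm m t)) * S.e ((1 / 2 : ℚ) • Qf (Dm m t)))⁻¹ • f := by
    rintro f ef _ ⟨t, ht, rfl⟩
    have := ef ⟨t, ht⟩
    rw [TSys.Tm_apply, smul_smul] at this
    rw [Dm_Dm, mul_inv_cancel₀ h1, Dm_one, eq_inv_smul_iff₀ (mul_ne_zero (e_ne _ _) (e_ne _ _))]
    exact this
  refine hU k 0 S m (Nat.cast_ne_zero.2 hm) (L0.map (Dm (m : ℚ)⁻¹))
    (fun t _ _ l h => absurd h l.2.ne_zero) (fun x _ hx => ⟨Dm m x, S.dual fun t ht => ?_, by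
      rw [Dm_Dm, inv_mul_cancel₀ h1, Dm_one]⟩) _ f g hf hg h0 (key f ef) (key g eg)
  rw [← hx _ ⟨t, ht, rfl⟩, ← Ef_Dm, Dm_Dm, mul_inv_cancel₀ h1, Dm_one]

/-- decomposition into eigenvectors of the self dual lattice -/
lemma TSys.Tm_dec {O : ValuationSubring k} {m N : ℕ} (hm : m ≠ 0)
    (hN : (N : IsLocalRing.ResidueField O) ≠ 0) (H : Submodule O (W → k))
    (hH : ∀ g : L0, ∀ f ∈ H, Rt S.e m (Dm (m : ℚ)⁻¹ g) f ∈ H) {f : W → k} (hf : f ∈ H)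
    (hK : ∀ a ∈ KN N, S.Tm m a f = f) :
    ∃ (s : Finset (L0 ⧸ KN N)) (Φ : L0 ⧸ KN N → W → k), ∑ y ∈ s, Φ y = f ∧ ∀ y, Φ y ∈ H ∧
      ∀ g : L0, S.e ((N : ℚ)⁻¹ • Ef y.out.1 g.1) • S.Tm m g (Φ y) = Φ y := by
  have hN0 : N ≠ 0 := fun h => hN (by rw [h, Nat.cast_zero])
  have h0 : (N : ℚ) ≠ 0 := Nat.cast_ne_zero.2 hN0
  have := KN_fin hN0
  have := Fintype.ofFinite (L0 ⧸ KN N)
  have he : ∀ x, S.e x ∈ O := fun x => let ⟨_, hn, h⟩ := S.e_pow x; MTB.mem_of_pow hn h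
  obtain ⟨Φ, h1, h2⟩ := MTB.exists_dec (S.Tm m) H (S.Tm_add hm)
    (fun g f hf => H.smul_mem (⟨_, he _⟩ : O) (hH g f hf)) (KN N)
    (MTB.index_ne _ hN fun g => ⟨g, rfl⟩) hf hK (fun y g => S.e ((N : ℚ)⁻¹ • Ef y.1 g.1))
    (fun _ _ => he _)
    (fun y z g => by rw [AddSubgroup.coe_add, Ef_add_left, smul_add, AddChar.map_add_eq_mul])
    (fun y z g => by rw [AddSubgroup.coe_add, Ef_add_right, smul_add, AddChar.map_add_eq_mul])
    (by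
      rintro y _ ⟨a, rfl⟩
      change S.e (_ • Ef _ (N • a.1)) = 1
      rw [Ef_n_right, inv_smul_smul₀ h0]
      exact S.e_one (Ef_memR (mem_L0q.1 y.2) (mem_L0q.1 a.2)))
    (by
      rintro _ ⟨a, rfl⟩ y
      change S.e (_ • Ef (N • a.1) _) = 1
      rw [Ef_n_left, inv_smul_smul₀ h0]
      exact S.e_one (Ef_memR (mem_L0q.1 a.2) (mem_L0q.1 y.2)))
    (fun g hg => ⟨⟨(N : ℚ)⁻¹ • g.1, S.dual fun t ht => by rw [Ef_q_right]; exact hg ⟨t, ht⟩⟩,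
      Subtype.ext (by
        change N • (N : ℚ)⁻¹ • g.1 = g.1
        rw [← Nat.cast_smul_eq_nsmul ℚ, smul_inv_smul₀ h0])⟩)
  exact ⟨_, Φ, h2, h1⟩

end

variable {τ : Matrix (Fin gg) (Fin gg) ℂ} {K : IntermediateField ℚ ℂ} {M : MumfordType τ K}
  {A : AR M} (v : Frb A)

/-- integral theta functions whose reduction is a theta function -/
def Frb.H0 (m : ℕ) : Submodule v.w.V.valuationSubring (W → Qbar) where
  carrier := {f | f ∈ A.S.G m ∧ (∀ x, v.w.V (f x) ≤ 1) ∧ (fun x => rd v.w (f x)) ∈ v.red.G m}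
  zero_mem' := ⟨zero_mem _, fun _ => by simp, by
    rw [show (fun x => rd v.w ((0 : W → Qbar) x)) = 0 from funext fun _ => MTB.rd_zero]
    exact zero_mem _⟩
  add_mem' := fun {f g} hf hg => ⟨add_mem hf.1 hg.1,
    fun x => v.w.V.map_add_le (hf.2.1 x) (hg.2.1 x), by
      rw [show (fun x => rd v.w ((f + g) x)) = _ + _ from
        funext fun x => MTB.rd_add (hf.2.1 x) (hg.2.1 x)]
      exact add_mem hf.2.2 hg.2.2⟩
  smul_mem' := fun c f hf => ⟨Submodule.smul_mem _ (c : Qbar) hf.1,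
    fun x => mul_mem c.2 (hf.2.1 x), by
      rw [show (fun x => rd v.w ((c • f) x)) = rd v.w c • fun x => rd v.w (f x) from
        funext fun x => MTB.rd_mul c.2 (hf.2.1 x)]
      exact Submodule.smul_mem _ _ hf.2.2⟩

lemma Frb.H0_Rt {m : ℕ} {t : W} (ht : t ∈ Wi v.p) {f : W → Qbar} (hf : f ∈ v.H0 m) :
    Rt A.S.e m t f ∈ v.H0 m :=
  ⟨Gs_Rt_int (mem_Wi_zero t) hf.1, v.rt_int m t hf.2.1, by
    rw [funext (v.rd_rt m t hf.2.1)]; exact Gs_Rt_int ht hf.2.2⟩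

lemma Frb.th_red (η : I2 gg → ZMod 2) (x : W) :
    v.w.V (A.S.th η x) ≤ 1 ∧ rd v.w (A.S.th η x) = v.red.th η x :=
  ⟨v.rt_int 1 _ (fun x => (v.nv x).1) x, v.rd_rt 1 _ (fun x => (v.nv x).1) x⟩

lemma Frb.th_pow (η : I2 gg → ZMod 2) (m : ℕ) : A.S.th η ^ m ∈ v.H0 m :=
  ⟨A.S.Sp_le m (A.S.th_pow η m),
    fun x => pow_mem (show _ ∈ v.w.V.valuationSubring from (v.th_red η x).1) m, by
    rw [show (fun x => rd v.w ((A.S.th η ^ m) x)) = v.red.th η ^ m from funext fun x =>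
      (MTB.rd_pow (v.th_red η x).1 m).trans (congrArg (· ^ m) (v.th_red η x).2)]
    exact v.red.Sp_le m (v.red.th_pow η m)⟩

/-- A theta function of weight and level prime to `p` is a sum of multiples of integral theta
functions with a unit value. -/
theorem Frb.core (hU : UNIQ) {m : ℕ} (hm : ¬ (v.p : ℕ) ∣ m)
    (H : Submodule v.w.V.valuationSubring (W → Qbar)) (hG : ∀ f ∈ H, f ∈ A.S.G m)
    (hH : ∀ t ∈ Wi v.p, ∀ f ∈ H, Rt A.S.e m t f ∈ H) {f : W → Qbar} (hf : f ∈ H)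
    (hp : ∀ t : Vl v.p, (∀ i, ‖t i‖ ≤ 1) → Rt A.S.e m (sgv v.p t) f = f) :
    ∃ (ι : Type) (s : Finset ι) (Φ : ι → W → Qbar), ∑ y ∈ s, Φ y = f ∧ ∀ y, Φ y ∈ H ∧
      ∃ (c : Qbar) (g : W → Qbar) (x : W), Φ y = c • g ∧ g ∈ v.H0 m ∧ x ∈ Wi v.p ∧
        v.w.V (g x) = 1 := by
  have hm0 : m ≠ 0 := fun h => hm (h ▸ dvd_zero _)
  obtain ⟨N, hN, h1⟩ := A.S.smooth' v.p (hG f hf) hp
  obtain ⟨η, hη⟩ := v.red.exists_th 0
  have hn : ¬ (v.p : ℕ) ∣ 2 * m * (2 * N) := by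
    simp only [v.p.2.dvd_mul, v.not_dvd_two, hm, hN, or_self, not_false_eq_true]
  have hD : ∀ g : L0, Dm (m : ℚ)⁻¹ g.1 ∈ Wi v.p := fun g => Dm_Wi hm (L0_Wi g.2)
  obtain ⟨s, Φ, h2, h3⟩ := A.S.Tm_dec hm0 (v.nat_ne hn) H (fun g => hH _ (hD g)) hf
    (A.S.Tm_K hm0 fun t ht => by rw [mul_comm, mul_smul]; exact h1 _ (nsmul_mem ht 2))
  obtain ⟨s0, Ψ, h4, h5⟩ := A.S.Tm_dec hm0 (v.nat_ne hn) (v.H0 m)
    (fun g _ => v.H0_Rt (hD g)) (v.th_pow η m) (A.S.Tm_K hm0 fun t ht => by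
      rw [show (2 * N) • t = (2 : ℤ) • N • t by module]
      exact A.S.Sp_per (nsmul_mem ht N) (A.S.th_pow η m))
  obtain ⟨y0, hy0⟩ : ∃ y, v.w.V (Ψ y 0) = 1 := by
    by_contra hc
    have h6 := congrFun h4 0
    rw [Finset.sum_apply] at h6
    have h7 := v.w.V.map_sum_lt one_ne_zero fun y (_ : y ∈ s0) =>
      lt_of_le_of_ne ((h5 y).1.2.1 0) fun h => hc ⟨y, h⟩
    rw [h6, Pi.pow_apply, map_pow, (rd_ne_iff _ (v.th_red η 0).1).1
      ((v.th_red η 0).2 ▸ hη), one_pow] at h7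
    exact lt_irrefl _ h7
  refine ⟨_, s, Φ, h2, fun y => ⟨(h3 y).1, ?_⟩⟩
  let z := ((2 * m * (2 * N) : ℕ) : ℚ)⁻¹ • Dm (m : ℚ)⁻¹ (y0.out - y.out).1
  have hz : z ∈ Wi v.p := inv_smul_Wi hn (hD _)
  have h8 : v.w.V (Rt A.S.e m z (Ψ y0) (-z)) = 1 := by
    rw [Rt, map_mul, v.e_val, one_mul, neg_add_cancel, hy0]
  have h9 := v.H0_Rt hz (h5 y0).1
  obtain ⟨c, hc⟩ := A.S.Tm_uniq hU hm0 h9.1 (hG _ (h3 y).1) (fun h => by simp [h] at h8) _ _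
    (fun t => by
      rw [A.S.Tm_Rt hm0, smul_smul, ← AddChar.map_add_eq_mul, ← smul_add, ← Ef_add_left,
        AddSubgroup.coe_sub, add_sub_cancel, ← Rt_smul, (h5 y0).2]
      rfl) (h3 y).2
  exact ⟨c, _, -z, hc, h9, neg_mem hz, h8⟩

theorem Frb.redg (hU : UNIQ) {m : ℕ} (hm : ¬ (v.p : ℕ) ∣ m) {f : W → Qbar} (hf : f ∈ A.S.G m)
    (hp : ∀ t : Vl v.p, (∀ i, ‖t i‖ ≤ 1) → Rt A.S.e m (sgv v.p t) f = f)
    (hi : ∀ x, v.w.V (f x) ≤ 1) : f ∈ v.H0 m := by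
  let H : Submodule v.w.V.valuationSubring (W → Qbar) :=
    { carrier := {f | f ∈ A.S.G m ∧ ∀ x, v.w.V (f x) ≤ 1}
      zero_mem' := ⟨zero_mem _, fun _ => by simp⟩
      add_mem' := fun hf hg => ⟨add_mem hf.1 hg.1, fun x => v.w.V.map_add_le (hf.2 x) (hg.2 x)⟩
      smul_mem' := fun c f hf =>
        ⟨Submodule.smul_mem _ (c : Qbar) hf.1, fun x => mul_mem c.2 (hf.2 x)⟩ }
  obtain ⟨ι, s, Φ, h1, h2⟩ := v.core hU hm H (fun _ h => h.1)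
    (fun t _ f hf => ⟨Gs_Rt_int (mem_Wi_zero t) hf.1, v.rt_int m t hf.2⟩) ⟨hf, hi⟩ hp
  rw [← h1]
  refine sum_mem fun y _ => ?_
  obtain ⟨h3, c, g, x, h4, h5, -, h6⟩ := h2 y
  have h7 := h3.2 x
  rw [h4, Pi.smul_apply, smul_eq_mul, map_mul, h6, mul_one] at h7
  rw [h4]
  exact (v.H0 m).smul_mem (⟨c, h7⟩ : v.w.V.valuationSubring) h5

theorem Frb.lat0 (hU : UNIQ) {m : ℕ} (hm : ¬ (v.p : ℕ) ∣ m) {f : W → Qbar} (hf : f ∈ A.S.G m)
    (hp : ∀ t : Vl v.p, (∀ i, ‖t i‖ ≤ 1) → Rt A.S.e m (sgv v.p t) f = f) :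
    ∃ x₀ ∈ Wp v.p, ∀ x, v.w.V (f x) ≤ v.w.V (f x₀) := by
  let H : Submodule v.w.V.valuationSubring (W → Qbar) :=
    { carrier := {g | g ∈ A.S.G m ∧ ∀ x ∈ Wi v.p, ∃ x' ∈ Wi v.p, v.w.V (g x) ≤ v.w.V (f x')}
      zero_mem' := ⟨zero_mem _, fun x hx => ⟨x, hx, by simp⟩⟩
      add_mem' := fun hf hg => ⟨add_mem hf.1 hg.1, fun x hx => by
        obtain ⟨a, ha, h1⟩ := hf.2 x hx
        obtain ⟨b, hb, h2⟩ := hg.2 x hx
        rcases le_total (v.w.V (f a)) (v.w.V (f b)) with h | h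
        · exact ⟨b, hb, v.w.V.map_add_le (h1.trans h) h2⟩
        · exact ⟨a, ha, v.w.V.map_add_le h1 (h2.trans h)⟩⟩
      smul_mem' := fun c g hg => ⟨Submodule.smul_mem _ (c : Qbar) hg.1, fun x hx => by
        obtain ⟨a, ha, h1⟩ := hg.2 x hx
        exact ⟨a, ha, (map_mul v.w.V (c : Qbar) (g x)).trans_le
          ((mul_le_of_le_one_left' (show v.w.V c ≤ 1 from c.2)).trans h1)⟩⟩ }
  obtain ⟨ι, s, Φ, h1, h2⟩ := v.core hU hm H (fun _ h => h.1)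
    (fun t ht g hg => ⟨Gs_Rt_int (mem_Wi_zero t) hg.1, fun x hx => by
      rw [Rt, map_mul, v.e_val, one_mul]; exact hg.2 _ (add_mem hx ht)⟩)
    ⟨hf, fun x hx => ⟨x, hx, le_rfl⟩⟩ hp
  have h3 : ∀ y, ∃ a ∈ Wp v.p, ∀ x, v.w.V (Φ y x) ≤ v.w.V (f a) := fun y => by
    obtain ⟨h3, c, g, x, h4, h5, hx, h6⟩ := h2 y
    obtain ⟨a, ha, h7⟩ := h3.2 x hx
    rw [h4, Pi.smul_apply, smul_eq_mul, map_mul, h6, mul_one] at h7
    refine ⟨_, iq_mem v.p a, fun x => ?_⟩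
    have h8 := congrArg v.w.V (congrFun (hp (cpv v.p a) fun i => ha i v.p rfl) (iq v.p • a))
    rw [Rt, map_mul, v.e_val, one_mul, ← split_p] at h8
    rw [← h8, h4, Pi.smul_apply, smul_eq_mul, map_mul]
    exact (mul_le_of_le_one_right' (h5.2.1 x)).trans h7
  choose a ha h4 using h3
  rcases s.eq_empty_or_nonempty with rfl | hs
  · exact ⟨0, zero_mem _, fun x => by simp [← h1]⟩
  obtain ⟨y, -, hy⟩ := s.exists_max_image (fun y => v.w.V (f (a y))) hs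
  refine ⟨a y, ha y, fun x => ?_⟩
  rw [← congrFun h1 x, Finset.sum_apply]
  exact v.w.V.map_sum_le fun z hz => (h4 z x).trans (hy z hz)

lemma TSys.th_sgv {k : Type} [Field k] {q : ℕ} (S : TSys k q) {p : Pr} (hp : (p : ℕ) ≠ 2)
    (η : I2 gg → ZMod 2) {t : Vl p} (ht : ∀ i, ‖t i‖ ≤ 1) : Rt S.e 1 (sgv p t) (S.th η) = S.th η := by
  have h2 : ‖(2 : ℚ_[p])‖ = 1 := by
    exact_mod_cast Padic.norm_natCast_eq_one_iff.2 ((Nat.coprime_primes p.2 Nat.prime_two).2 hp)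
  have h := S.Sp_per (sgv_L0 (p := p) (t := (2 : ℚ_[p])⁻¹ • t) fun i => by
    rw [Pi.smul_apply, smul_eq_mul, norm_mul, norm_inv, h2, inv_one, one_mul]; exact ht i)
    (S.th_Sp η)
  rwa [show (2 : ℤ) • sgv p ((2 : ℚ_[p])⁻¹ • t) = sgv p t from funext fun i => by
    change (2 : ℤ) • sg p _ = sg p _
    rw [← map_zsmul]; simp] at h

theorem Frb.lat (hU : UNIQ) {m : ℕ} {f : W → Qbar} (hf : f ∈ A.S.G m) :
    ∃ x₀ ∈ Wp v.p, ∀ x, v.w.V (f x) ≤ v.w.V (f x₀) := by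
  obtain ⟨N, hN, h⟩ := A.S.smooth hf
  have hn : ((v.p * N : ℕ) : ℚ) ≠ 0 := Nat.cast_ne_zero.2 (mul_ne_zero v.p.2.ne_zero hN)
  have h1 : ∀ t ∈ L0, Rt A.S.e ((v.p * N) ^ 2 * m) t (fun x => f ((v.p * N : ℕ) • x)) =
      fun x => f ((v.p * N : ℕ) • x) := fun t ht => funext fun x => by
    have := congrFun (h _ (nsmul_mem ht v.p)) ((v.p * N : ℕ) • x)
    rw [smul_smul, mul_comm N] at this
    rw [← this, Rt, Rt, Ef_n_left, Ef_n_right, smul_smul, smul_smul, nsmul_add]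
    congr 3
    push_cast; ring
  have h2 := fun η => v.lat0 hU (m := (v.p * N) ^ 2 * m + 1) (fun h => v.p.2.one_lt.ne'
    (Nat.dvd_one.1 ((Nat.dvd_add_right (by
      rw [mul_pow, mul_assoc, sq, mul_assoc]; exact dvd_mul_right _ _)).1 h)))
    (Gs_mul (Gs_nsmul _ hf) (A.S.th_mem η)) fun t ht => by
      rw [Rt_mul, h1 _ (sgv_L0 ht), A.S.th_sgv (fun e => v.not_dvd_two (e ▸ dvd_rfl)) η ht]
  choose a ha h3 using h2
  obtain ⟨η, hη⟩ := Finite.exists_max fun η => v.w.V (f ((v.p * N : ℕ) • a η))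
  refine ⟨_, nsmul_mem (ha η) (v.p * N), fun x => ?_⟩
  obtain ⟨η', h4⟩ := v.red.exists_th (((v.p * N : ℕ) : ℚ)⁻¹ • x)
  have h5 := h3 η' (((v.p * N : ℕ) : ℚ)⁻¹ • x)
  rw [Pi.mul_apply, Pi.mul_apply, map_mul, map_mul, (rd_ne_iff _ (v.th_red η' _).1).1
    ((v.th_red η' _).2 ▸ h4), mul_one, ← Nat.cast_smul_eq_nsmul ℚ, smul_inv_smul₀ hn] at h5
  exact h5.trans ((mul_le_of_le_one_right' (v.th_red η' _).1).trans (hη η'))

theorem lat_of (hU : UNIQ) : LAT := fun _ _ _ _ _ v _ _ hf => v.lat hU hf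

theorem RedOf.G_eq {v : Frb A} {R : FSys (kk v.w) v.p} (h : RedOf v R) (m : ℕ) :
    R.G m = v.red.G m := by
  have h1 : R.e = v.red.e := AddChar.ext _ _ h.e
  have h2 : R.Θ = v.red.Θ := funext h.Θ
  rw [TSys.G, h1, h2]

theorem redg_of (hU : UNIQ) : REDG := fun _ _ _ _ _ v _ hR m hm _ hf hp hi =>
  hR.G_eq m ▸ (v.redg hU hm hf hp hi).2.2

theorem t_red : T_RED := fun _ hU _ _ _ => ⟨reds, lat_of hU, redg_of hU⟩

end Pool.Agent.MT
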