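import Pool.Agent.Lib.MP_d61fbb_ag.MN.I1

/-! Ordinarity: the intermediate statements. -/

set_option autoImplicit false

noncomputable section

namespace Pool.Agent.MT

variable [Dim]

open Matrix Polynomial

/-- A polynomial in the Frobenius operator that maps the space at `p` into the translations that
fix the reduced theta function vanishes at the unit roots. -/
def KEY : Prop := ∀ τ K (M : MumfordType τ K) (A : AR M), Sieg τ → ∀ (v : Frb A) (R), RedOf v R →
  ∀ P, IsCh v.p R.π P → ∀ Q : ℚ_[v.p][X],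
    (∀ x : Vl v.p, aeval ((R.π v.p).val.map ((↑) : ℤ_[v.p] → ℚ_[v.p])) Q *ᵥ x ∈ R.K0 v.p) →
      ∀ u : PadicAlgCl v.p, aeval u P = 0 → ‖u‖ = 1 → aeval u Q = 0

def T_KEY : Prop := IRR → UNIQ → GENP → INJ → GH → LAT → REDG → KEY

end Pool.Agent.MT
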