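import Pool.Agent.Lib.MP_d61fbb_ag.MN.BV1
import Pool.Agent.Lib.MP_d61fbb_ag.MN.BReds
import Pool.Agent.Lib.MP_d61fbb_ag.MN.T1

/-! Division by powers of `p`: the norm over the torsion points of order `p ^ n`. -/

set_option autoImplicit false

noncomputable section

namespace Pool.Agent.MT

variable [Dim]

open Matrix Polynomial
open Pool.Agent.Lib.MP_696deb_nt.B2 (Qbar)

section gen
variable {k : Type} [Field k] {e : AddChar AF k} {Θ : W → k}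

lemma o2_gen (c : ℕ) (L : Multiset (ℤ × W)) (x : W) :
    gen e Θ L ((c : ℚ) • x) = gen e Θ (L.map fun d => (d.1 * c, d.2)) x := by
  simp only [gen, Multiset.map_map, Function.comp_def]
  congr 1
  refine Multiset.map_congr rfl fun d _ => ?_
  congr 1
  module

lemma o2_wt (c : ℕ) (L : Multiset (ℤ × W)) :
    wt (L.map fun d => (d.1 * c, d.2)) = (c : ℤ) ^ 2 * wt L := by
  simp only [wt, Multiset.map_map, Function.comp_def, ← Multiset.sum_map_mul_left]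
  congr 1
  exact Multiset.map_congr rfl fun d _ => by ring

lemma o2_Rt (c m : ℕ) (t : W) (f : W → k) (x : W) :
    Rt e (c ^ 2 * m) t (fun x => f ((c : ℚ) • x)) x = Rt e m ((c : ℚ) • t) f ((c : ℚ) • x) := by
  simp only [Rt, Ef_q_left, Ef_q_right, smul_add, smul_smul]
  congr 3
  push_cast
  ring

lemma o2_Rt_prod {ι : Type} (s : Finset ι) (m : ℕ) (t : W) (f : ι → W → k) :
    Rt e (s.card * m) t (∏ i ∈ s, f i) = ∏ i ∈ s, Rt e m t (f i) := by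
  classical
  induction s using Finset.induction_on with
  | empty => funext x; simp [Rt]
  | insert i s hi ih =>
    rw [Finset.prod_insert hi, Finset.prod_insert hi, Finset.card_insert_of_notMem hi, add_mul,
      one_mul, add_comm, Rt_mul, ih]

lemma o2_G_prod {q : ℕ} {ι : Type} (s : Finset ι) {m : ℕ} {f : ι → W → k}
    (hf : ∀ i, f i ∈ Gs q e Θ m) : ∏ i ∈ s, f i ∈ Gs q e Θ (s.card * m) := by
  classical
  induction s using Finset.induction_on with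
  | empty =>
    exact Submodule.subset_span ⟨0, by simp [wt], by simp [cl], by funext x; simp [gen]⟩
  | insert i s hi ih =>
    rw [Finset.prod_insert hi, Finset.card_insert_of_notMem hi, add_mul, one_mul, add_comm]
    exact Gs_mul (hf i) ih

/-- in characteristic zero the argument of a theta function may be divided by an integer -/
theorem o2_descale (hI : IRR) (S : TSys k 0) {c m : ℕ} (hc : c ≠ 0) (hm : m ≠ 0) {f : W → k}
    (hf : f ∈ S.G (c ^ 2 * m)) : (fun x => f ((c : ℚ)⁻¹ • x)) ∈ S.G m := by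
  have := S.char
  have := CharP.charP_to_charZero k
  have hc' : (c : ℚ) ≠ 0 := Nat.cast_ne_zero.2 hc
  have w0 : ∀ t : W, t ∈ Wp 0 := fun t _ l h => (l.2.ne_zero h).elim
  have key := hI k 0 S (c ^ 2 * m) (Nat.cast_ne_zero.2 (mul_ne_zero (pow_ne_zero _ hc) hm))
    ((S.G m).map (LinearMap.funLeft k k fun x : W => (c : ℚ) • x)) ?_ ?_ ?_
  · rw [← key] at hf
    obtain ⟨g, hg, rfl⟩ := hf
    convert hg using 2 with x
    simp [smul_smul, hc']
  · rw [Submodule.map_le_iff_le_comap]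
    refine Submodule.span_le.2 ?_
    rintro _ ⟨L, a, -, rfl⟩
    exact Submodule.subset_span ⟨_, by rw [o2_wt c L, a]; push_cast; rfl,
      fun _ l h => (l.2.ne_zero h).elim, funext (o2_gen c L)⟩
  · obtain ⟨η, h⟩ := S.exists_th 0
    refine (Submodule.ne_bot_iff _).2 ⟨_, ⟨_, S.Sp_le m (S.th_pow η m), rfl⟩, fun h0 => ?_⟩
    have := congrFun h0 0
    simp [h] at this
  · rintro t - _ ⟨g, hg, rfl⟩
    exact ⟨Rt S.e m ((c : ℚ) • t) g, Gs_Rt (w0 _) hg, funext fun x => (o2_Rt c m t g x).symm⟩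

end gen

lemma o2_sgv_add (l : Pr) (x y : Vl l) : sgv l (x + y) = sgv l x + sgv l y :=
  funext fun _ => map_add (sg l) _ _

lemma o2_smul_sg (l : Pr) (c : ℚ) (a : ℚ_[l]) : c • sg l a = sg l (c * a) := ad_ext fun l' => by
  rw [map_smul]
  by_cases h : l' = l
  · subst h; simp [cp_sg, Rat.smul_def]
  · simp [cp_sg_ne h]

lemma o2_Ef (l : Pr) (x : W) (y : Vl l) : Ef (sgv l y) x = sg l (Ef y (cpv l x)) :=
  ad_ext fun l' => by
    rw [Ef_map]
    by_cases h : l' = l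
    · subst h
      rw [cp_sg]
      congr 1
      exact funext fun i => cp_sg _ _
    · rw [cp_sg_ne h, show (fun i => cp l' (sgv l y i)) = 0 from funext fun i => cp_sg_ne h _,
        Ef_zero_left]

lemma o2_Ef_le {l : Pr} {x y : Vl l} {a b : ℝ} (ha : 0 ≤ a) (hb : 0 ≤ b) (hx : ∀ i, ‖x i‖ ≤ a)
    (hy : ∀ i, ‖y i‖ ≤ b) : ‖Ef x y‖ ≤ a * b := by
  have : ∀ u w : Fin gg → I2 gg, ‖(x ∘ u) ⬝ᵥ (y ∘ w)‖ ≤ a * b := fun u w =>
    IsUltrametricDist.norm_sum_le_of_forall_le_of_nonneg (mul_nonneg ha hb) fun i _ => by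
      rw [norm_mul]; exact mul_le_mul (hx _) (hy _) (norm_nonneg _) ha
  rw [Ef, sub_eq_add_neg]
  exact (Padic.nonarchimedean _ _).trans (max_le (this _ _) (by rw [norm_neg]; exact this _ _))

lemma o2_mulVec (l : Pr) (a : M8 AF) (y : Vl l) :
    a *ᵥ sgv l y = sgv l (a.map (cp l) *ᵥ y) := funext fun i => ad_ext fun l' => by
  simp only [mulVec, dotProduct, map_sum, map_mul, sgv, map_apply]
  by_cases h : l' = l
  · subst h; simp only [cp_sg]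
  · simp [cp_sg_ne h]

/-- the points of order `p ^ n` -/
def o2u (p : Pr) (n : ℕ) (z : I2 gg → ℤ_[p]) : Vl p := fun i => (((p : ℕ) : ℚ_[p]) ^ n)⁻¹ * z i

/-- representatives -/
def o2s (p : Pr) (n : ℕ) (c : I2 gg → ZMod (p ^ n)) : W := sgv p (o2u p n fun i => (c i).val)

lemma o2u_le (p : Pr) (n : ℕ) (z : I2 gg → ℤ_[p]) (i : I2 gg) : ‖o2u p n z i‖ ≤ ((p : ℕ) : ℝ) ^ n := by
  rw [o2u, norm_mul, norm_inv, norm_pow, Padic.norm_p, inv_pow, inv_inv]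
  exact mul_le_of_le_one_right (by positivity) (z i).2

lemma o2u_add (p : Pr) (n : ℕ) (z z' : I2 gg → ℤ_[p]) :
    o2u p n (z + z') = o2u p n z + o2u p n z' := funext fun i => by simp [o2u, mul_add]

lemma o2_two {p : Pr} (hp : ¬ (p : ℕ) ∣ 2) : ‖(2 : ℚ_[p])‖ = 1 := by
  exact_mod_cast Padic.norm_natCast_eq_one_iff.2 ((Nat.Prime.coprime_iff_not_dvd p.2).2 hp)

lemma o2_half {p : Pr} (hp : ¬ (p : ℕ) ∣ 2) {t : Vl p} (ht : ∀ i, ‖t i‖ ≤ 1) :
    ∃ t' : Vl p, (∀ i, ‖t' i‖ ≤ 1) ∧ sgv p t = (2 : ℤ) • sgv p t' :=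
  ⟨fun i => t i / 2, fun i => by simpa [o2_two hp] using ht i, by
    rw [two_zsmul, ← o2_sgv_add]; congr 1; funext i; simp⟩

section sys
variable {k : Type} [Field k] {q : ℕ} (S : TSys k q) {p : Pr} (hp : ¬ (p : ℕ) ∣ 2)
include hp

lemma o2_per {m : ℕ} {F : W → k} (hF : F ∈ Gs p S.e S.Θ m) {t : Vl p} (ht : ∀ i, ‖t i‖ ≤ 1) :
    Rt S.e m (sgv p t) F = F := by
  obtain ⟨t', h', e⟩ := o2_half hp ht
  refine (Submodule.span_le (p := LinearMap.eqLocus (RtL S.e m (sgv p t)) LinearMap.id)).2 ?_ hF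
  rintro _ ⟨L, a, b, rfl⟩
  change Rt S.e m _ _ = gen S.e S.Θ L
  rw [e, Rt_gen a, S.gen_per (t := sgv p t') (mem_L0q.2 fun i => sg_mem (h' i)),
    smul_smul, ← AddChar.map_add_eq_mul, S.e_one, one_smul]
  have h1 : Ef (cl L) (sgv p t') ∈ Zq q := by
    rw [Ef_swap, o2_Ef]
    exact neg_mem (Zq_zero (sg_mem (by
      simpa using o2_Ef_le zero_le_one zero_le_one h' (y := cpv p (cl L)) fun i => b i p rfl)))
  rw [Ef_z_right, smul_smul]
  norm_num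
  exact add_mem h1 h1

lemma o2_per' {m : ℕ} {F : W → k} (hF : F ∈ Sp S.e S.Θ m) {t : Vl p} (ht : ∀ i, ‖t i‖ ≤ 1) :
    Rt S.e m (sgv p t) F = F := by
  obtain ⟨t', h', e⟩ := o2_half hp ht
  rw [e, S.Sp_per (t := sgv p t') (mem_L0q.2 fun i => sg_mem (h' i)) hF]

lemma o2_act (n N : ℕ) (z z' : I2 gg → ℤ_[p]) (f : W → k) :
    Rt S.e (p ^ (2 * n) * N) (sgv p (o2u p n z)) (Rt S.e (p ^ (2 * n) * N) (sgv p (o2u p n z')) f) =
      Rt S.e (p ^ (2 * n) * N) (sgv p (o2u p n (z + z'))) f := by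
  have h0 : (0 : ℝ) < ((p : ℕ) : ℝ) ^ n := by have := p.2.pos; positivity
  rw [Rt_Rt, o2u_add, o2_sgv_add, S.e_one, one_smul]
  rw [o2_Ef, o2_smul_sg]
  refine Zq_zero (sg_mem ?_)
  have h1 := o2_Ef_le h0.le h0.le (o2u_le p n z') (y := cpv p (sgv p (o2u p n z))) fun i => by
    rw [cpv, sgv, cp_sg]; exact o2u_le p n z i
  rw [norm_mul]
  push_cast
  rw [norm_div, o2_two hp, div_one, norm_mul, norm_pow, Padic.norm_p, inv_pow, two_mul, pow_add,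
    mul_right_comm]
  exact mul_le_one₀ ((inv_mul_le_one₀ (mul_pos h0 h0)).2 h1) (norm_nonneg _)
    (IsUltrametricDist.norm_natCast_le_one _ _)

/-- the norm is invariant -/
lemma o2_inv (n N : ℕ) {F : W → k} (hF : F ∈ Gs p S.e S.Θ (p ^ (2 * n) * N)) (z : I2 gg → ℤ_[p]) :
    ∏ c, Rt S.e (p ^ (2 * n) * N) (sgv p (o2u p n z)) (Rt S.e (p ^ (2 * n) * N) (o2s p n c) F) =
      ∏ c, Rt S.e (p ^ (2 * n) * N) (o2s p n c) F := by
  have : NeZero ((p : ℕ) ^ n) := ⟨pow_ne_zero _ p.2.ne_zero⟩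
  rw [← Equiv.prod_comp (Equiv.addLeft fun i => PadicInt.toZModPow n (z i))
    fun c => Rt S.e _ (o2s p n c) F]
  refine Finset.prod_congr rfl fun c _ => ?_
  obtain ⟨s, hs⟩ : ∃ s : I2 gg → ℤ_[p], s = fun i =>
    (((Equiv.addLeft fun i => PadicInt.toZModPow n (z i)) c i).val : ℤ_[p]) := ⟨_, rfl⟩
  rw [o2s, o2s, o2_act S hp, ← hs, ← add_sub_cancel s (z + _), ← o2_act S hp, o2_per S hp hF]
  intro i
  have h1 : (z + (fun i => ((c i).val : ℤ_[p])) - s) i ∈ Ideal.span {((p : ℕ) : ℤ_[p]) ^ n} := by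
    rw [← PadicInt.ker_toZModPow, RingHom.mem_ker]
    simp [hs]
  obtain ⟨d, hd⟩ := Ideal.mem_span_singleton'.1 h1
  rw [o2u, ← hd]
  push_cast
  rw [mul_comm (d : ℚ_[p]), inv_mul_cancel_left₀ (pow_ne_zero _ (Nat.cast_ne_zero.2 p.2.ne_zero))]
  exact d.2

end sys

variable {τ : Matrix (Fin gg) (Fin gg) ℂ} {K : IntermediateField ℚ ℂ} {M : MumfordType τ K}
  {A : AR M} {v : Frb A} {R : FSys (kk v.w) v.p}

theorem norm_mem (hI : IRR) (hG : REDG) (hτ : Sieg τ) (hR : RedOf v R) {N : ℕ} (hN : N ≠ 0)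
    {h : W → kk v.w} (hh : h ∈ R.G N) (n j : ℕ) (hj : ¬ (v.p : ℕ) ∣ v.p ^ (2 * gg * n) * N + j)
    (η : I2 gg → ZMod 2) :
    (fun x => (∏ c, h ((((v.p : ℕ) : ℚ) ^ n)⁻¹ • x + o2s v.p n c)) ^ (v.p : ℕ) ^ (2 * n) *
      R.th η x ^ j) ∈ R.G (v.p ^ (2 * gg * n) * N + j) := by
  have hp := v.not_dvd_two
  have hp0 : (v.p : ℕ) ^ n ≠ 0 := pow_ne_zero _ v.p.2.ne_zero
  have : NeZero ((v.p : ℕ) ^ n) := ⟨hp0⟩
  have he : R.e = v.eb := AddChar.ext _ _ hR.e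
  have hΘ : R.Θ = fun x => rd v.w (A.S.Θ x) := funext hR.Θ
  obtain ⟨H, hH, i1, r1⟩ := v.lift (fun L => wt L = N ∧
    ∀ i (l : Pr), (l : ℕ) = v.p → ‖cp l (cl L i)‖ ≤ 1) (f := h)
    (by simpa only [and_assoc, TSys.G, Gs, he, hΘ] using hh)
  replace hH : H ∈ Gs v.p A.S.e A.S.Θ N := by simpa only [and_assoc, Gs] using hH
  have h0 : H ^ (v.p : ℕ) ^ (2 * n) ∈ Gs v.p A.S.e A.S.Θ (v.p ^ (2 * n) * N) := by
    simpa using o2_G_prod (Finset.range (v.p ^ (2 * n))) fun _ => hH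
  obtain ⟨F, hF⟩ : ∃ F, F = ∏ c, Rt A.S.e (v.p ^ (2 * n) * N) (o2s v.p n c)
    (H ^ (v.p : ℕ) ^ (2 * n)) := ⟨_, rfl⟩
  have hw : ((v.p : ℕ) ^ n) ^ 2 * (v.p ^ (2 * gg * n) * N) =
      (Finset.univ : Finset (I2 gg → ZMod (v.p ^ n))).card * (v.p ^ (2 * n) * N) := by
    simp only [Finset.card_univ, Fintype.card_fun, ZMod.card, Fintype.card_sum, Fintype.card_fin]
    ring
  have h1 : F ∈ A.S.G (((v.p : ℕ) ^ n) ^ 2 * (v.p ^ (2 * gg * n) * N)) := by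
    rw [hw, hF]
    refine o2_G_prod _ fun c => Gs_Rt (fun _ l h => (l.2.ne_zero h).elim)
      (Submodule.span_mono ?_ h0)
    rintro _ ⟨L, a, -, rfl⟩
    exact ⟨L, a, fun _ l h => (l.2.ne_zero h).elim, rfl⟩
  have h2 := o2_descale hI A.S hp0 (mul_ne_zero (pow_ne_zero _ v.p.2.ne_zero) hN) h1
  have hq : (((v.p : ℕ) ^ n : ℕ) : ℚ) ≠ 0 := Nat.cast_ne_zero.2 hp0
  have i0 : ∀ x, v.w.V ((H ^ (v.p : ℕ) ^ (2 * n)) x) ≤ 1 := fun x => by
    rw [Pi.pow_apply, map_pow]; exact pow_le_one' (i1 x) _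
  have i2 : ∀ x, F x ∈ v.w.V.valuationSubring := fun x => by
    rw [hF, Finset.prod_apply]; exact prod_mem fun c _ => v.rt_int _ _ i0 x
  have i3 : ∀ x, A.S.th η x ∈ v.w.V.valuationSubring := v.rt_int 1 _ hR.int
  have key := hG τ K M A hτ v R hR _ hj _ (Gs_mul h2 (A.S.Sp_le j (A.S.th_pow η j))) ?_
    fun x => mul_mem (i2 _) (pow_mem (i3 x) j)
  · convert key using 2 with x
    rw [rd_eq, Pi.mul_apply, Pi.pow_apply, MTB.rd_mul (i2 _) (pow_mem (i3 x) j), MTB.rd_pow (i3 x),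
      hF, Finset.prod_apply, MTB.rd_prod _ fun c _ => v.rt_int _ _ i0 _, ← rd_eq,
      ← Finset.prod_pow, Nat.cast_pow]
    congr 1
    · refine Finset.prod_congr rfl fun c _ => ?_
      rw [v.rd_rt _ _ i0, Rt, ← he, R.e_one, one_mul, Pi.pow_apply, rd_eq, MTB.rd_pow (i1 _),
        ← rd_eq, r1]
      rw [o2s, o2_Ef, o2_smul_sg]
      exact fun l hl => by rw [cp_sg_ne fun h => hl (congrArg _ h), norm_zero]; exact zero_le_one
    · rw [TSys.th, TSys.th, v.rd_rt _ _ hR.int, he, hΘ]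
  · intro t ht
    rw [Rt_mul, o2_per' A.S hp (A.S.th_pow η j) ht]
    congr 1
    funext x
    have h3 := o2_Rt (e := A.S.e) (v.p ^ n) (v.p ^ (2 * gg * n) * N)
      (sgv v.p (o2u v.p n fun i => ⟨t i, ht i⟩)) (fun x => F ((((v.p : ℕ) ^ n : ℕ) : ℚ)⁻¹ • x))
      ((((v.p : ℕ) ^ n : ℕ) : ℚ)⁻¹ • x)
    simp only [smul_inv_smul₀ hq, inv_smul_smul₀ hq] at h3
    have h4 : (((v.p : ℕ) ^ n : ℕ) : ℚ) • sgv v.p (o2u v.p n fun i => ⟨t i, ht i⟩) = sgv v.p t :=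
      funext fun i => by
        have : ((v.p : ℕ) : ℚ_[v.p]) ≠ 0 := Nat.cast_ne_zero.2 v.p.2.ne_zero
        simp [sgv, o2_smul_sg, o2u, this]
    rw [← h4, ← h3, hw]
    change Rt _ _ _ F _ = _
    rw [hF, o2_Rt_prod, o2_inv A.S hp n N h0]

lemma o2_br {k : Type} [Field k] {p : Pr} (S : FSys k p) (c : ℕ) (a : M8 AF) (y x : W) :
    S.br (mA S.π ^ c * a) ((mA S.π ^ c) *ᵥ y) x = S.br a y x ^ (p : ℕ) ^ c := by
  induction c with
  | zero => simp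
  | succ c ih =>
    have h := S.frob 0
    simp only [TSys.th, hw_at_zero, Rt_zero] at h
    rw [pow_succ (p : ℕ), pow_mul, ← ih, pow_succ', mul_assoc]
    simp only [TSys.br, Rt, ← mulVec_mulVec, ← mulVec_add, h, ← Ef_q_right, mul_pow, ← S.frobe,
      mulVec_smul]

lemma o2_surj (p : Pr) (π : ∀ l : Pr, GL (I2 gg) ℤ_[l]) (c : ℕ) :
    ∀ y ∈ Wp p, ∃ y' ∈ Wp p, (mA π ^ c) *ᵥ y' = y := by
  induction c with
  | zero => exact fun y hy => ⟨y, hy, by simp⟩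
  | succ c ih =>
    intro y hy
    obtain ⟨z, hz, rfl⟩ := ih y hy
    have h1 : mA π * mA π⁻¹ = 1 := by
      ext i j : 1
      refine ad_ext fun l => ?_
      have := congrArg (fun x : ℤ_[l] => (x : ℚ_[l])) (congrFun₂ (π l).mul_inv i j)
      simp only [mul_apply, one_apply, PadicInt.coe_sum, PadicInt.coe_mul] at this
      simp only [mul_apply, map_sum, map_mul, one_apply]
      refine this.trans ?_
      split_ifs <;> simp
    refine ⟨mA π⁻¹ *ᵥ z, fun i l h => ?_, by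
      rw [pow_succ, ← mulVec_mulVec, mulVec_mulVec z, h1, one_mulVec]⟩
    simp [mulVec, dotProduct, hz _ l h]

theorem aap (hI : IRR) (hP : GENP) (hG : REDG) (hτ : Sieg τ) (hR : RedOf v R) {a : M8 AF} {N : ℕ}
    (hN : N ≠ 0) (h : R.Cmp a N) (n : ℕ)
    (ha : ∀ x : Vl v.p, (∀ i, ‖x i‖ ≤ ((v.p : ℕ) : ℝ) ^ n) → a.map (cp v.p) *ᵥ x ∈ R.K0 v.p) :
    ∃ N', N' ≠ 0 ∧ R.Cmp ((((v.p : ℕ) : ℚ) ^ n)⁻¹ • (mA R.π ^ ((2 * gg + 2) * n) * a)) N' := by
  have : NeZero ((v.p : ℕ) ^ n) := ⟨pow_ne_zero _ v.p.2.ne_zero⟩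
  obtain ⟨g, hg, g0⟩ := h.nz hP (o2s v.p n)
  obtain ⟨η, hη⟩ := R.exists_th 0
  obtain ⟨j, hj⟩ : ∃ j, ¬ (v.p : ℕ) ∣ v.p ^ (2 * gg * n) * N + j := by
    by_contra! h
    exact v.p.2.not_dvd_one ((Nat.dvd_add_right (h 0)).1 (h 1))
  refine ⟨v.p ^ (2 * gg * n) * N + j, fun h => hj (h ▸ dvd_zero _),
    fun x => (∏ c, g ((((v.p : ℕ) : ℚ) ^ n)⁻¹ • x + o2s v.p n c)) ^ (v.p : ℕ) ^ (2 * n) *
      R.th η x ^ j, fun y hy => ?_, fun h => ?_⟩
  · obtain ⟨y, hy', rfl⟩ := o2_surj v.p R.π ((2 * gg + 2) * n) y hy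
    convert norm_mem hI hG hτ hR hN (hg y hy') n j hj η using 2 with x
    have h1 : ∀ z c, R.br a y (z + o2s v.p n c) = R.br a y z := fun z c => by
      simp only [TSys.br, Rt, mulVec_add, o2s, o2_mulVec, Ef_add_right, smul_add,
        AddChar.map_add_eq_mul]
      rw [add_right_comm, ha _ (o2u_le _ _ _), R.e_one (x := _ • Ef y (sgv _ _)), mul_one]
      rw [Ef_swap, o2_Ef, smul_neg, o2_smul_sg]
      exact neg_mem fun l hl => by
        rw [cp_sg_ne fun h => hl (congrArg _ h), norm_zero]; exact zero_le_one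
    have h2 := o2_br R ((2 * gg + 2) * n) a y ((((v.p : ℕ) : ℚ) ^ n)⁻¹ • x)
    simp only [Pi.mul_apply, h1, Finset.prod_mul_distrib, mul_pow, Finset.prod_const,
      Finset.card_univ, Fintype.card_fun, ZMod.card, Fintype.card_sum, Fintype.card_fin, ← pow_mul,
      ← pow_add, mul_assoc]
    rw [show n * (gg + gg) + 2 * n = (2 * gg + 2) * n by ring, ← h2]
    simp only [TSys.br, smul_mulVec, mulVec_smul]
  · have := congrFun h 0
    simp [g0, hη, Finset.prod_eq_zero_iff] at this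

end Pool.Agent.MT
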