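import Pool.Agent.Lib.MP_d61fbb_ag.MN.CCore

/-! Block C of the MT project: from functions on a symplectic space to theta systems. -/

noncomputable section

namespace MTC

open Matrix

variable {Ω : Type*} [Field Ω] {v : AbsoluteValue Ω ℝ} {p : ℕ} [Fact p.Prime]
  {I : Type*} [Group I] {ι : Type*} [Fintype ι] [DecidableEq ι]
  {A V : Type*} [AddCommGroup A] [Module ℚ A] [AddCommGroup V] [Module ℚ V]

/-- Coordinates at `p` on a space `V = A ⊕ ex ⊕ ey`; `ε n` is the commutator character of the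
form multiplied by `n`. -/
structure Coord (D : Inert v p I) (ι : Type*) [Fintype ι] (A V : Type*) [AddCommGroup A]
    [Module ℚ A] [AddCommGroup V] [Module ℚ V] where
  inc : A →ₗ[ℚ] V
  ex : (ι → ℚ_[p]) →ₗ[ℚ] V
  ey : (ι → ℚ_[p]) →ₗ[ℚ] V
  ε : ℕ → V → V → Ω
  span : ∀ z, ∃ a x y, z = inc a + ex x + ey y
  εx : ∀ (n : ℕ) t a x y, ε n (ex t) (inc a + ex x + ey y) = D.psi (n * (t ⬝ᵥ y) / 2)
  εy : ∀ (n : ℕ) t a x y, ε n (ey t) (inc a + ex x + ey y) = D.psi (-(n * (x ⬝ᵥ t) / 2))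

namespace Coord

variable {D : Inert v p I} (C : Coord D ι A V)

/-- translations -/
def U (n : ℕ) (t : V) (f : V → Ω) : V → Ω := fun z => C.ε n t z * f (z + t)

/-- a function in coordinates -/
def co (n : ℕ) : (V → Ω) →ₗ[Ω] A → (ι → ℚ_[p]) → (ι → ℚ_[p]) → Ω where
  toFun f a x y := D.psi (n * (x ⬝ᵥ y) / 2) * f (C.inc a + C.ex x + C.ey y)
  map_add' _ _ := by funext a x y; exact mul_add _ _ _
  map_smul' _ _ := by funext a x y; exact mul_left_comm _ _ _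

omit [DecidableEq ι]

theorem co_apply (n : ℕ) (f : V → Ω) (a : A) (x y : ι → ℚ_[p]) :
    C.co n f a x y = D.psi (n * (x ⬝ᵥ y) / 2) * f (C.inc a + C.ex x + C.ey y) := rfl

theorem co_zero (n : ℕ) (f : V → Ω) (a : A) (x : ι → ℚ_[p]) :
    C.co n f a x 0 = f (C.inc a + C.ex x) := by simp [co_apply]

theorem co_inj (n : ℕ) {f g : V → Ω} (h : C.co n f = C.co n g) : f = g := by
  funext z
  obtain ⟨a, x, y, rfl⟩ := C.span z
  exact mul_left_cancel₀ (D.psi_ne_zero _) (congrFun (congrFun (congrFun h a) x) y)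

theorem co_ex (n : ℕ) (f : V → Ω) (t : ι → ℚ_[p]) (a : A) (x y : ι → ℚ_[p]) :
    C.co n (C.U n (C.ex t) f) a x y = C.co n f a (x + t) y := by
  rw [co_apply, co_apply, U, C.εx n t a, ← mul_assoc, ← AddChar.map_add_eq_mul, map_add C.ex,
    add_dotProduct]
  congr 2
  · ring
  · abel

theorem co_ey (n : ℕ) (f : V → Ω) (t : ι → ℚ_[p]) (a : A) (x y : ι → ℚ_[p]) :
    C.co n (C.U n (C.ey t) f) a x y = D.psi (-(n * (x ⬝ᵥ t))) * C.co n f a x (y + t) := by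
  rw [co_apply, co_apply, U, C.εy n t a, ← mul_assoc, ← mul_assoc, ← AddChar.map_add_eq_mul,
    ← AddChar.map_add_eq_mul, map_add C.ey, dotProduct_add]
  congr 2
  · ring
  · abel

theorem ey_iff (n : ℕ) (f : V → Ω) (t : ι → ℚ_[p]) : C.U n (C.ey t) f = f ↔
    ∀ a x y, C.co n f a x (y + t) = D.psi (n * (x ⬝ᵥ t)) * C.co n f a x y := by
  constructor
  · intro h a x y
    conv_rhs => rw [← h, co_ey, ← mul_assoc, ← AddChar.map_add_eq_mul, add_neg_cancel]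
    simp
  · intro h
    refine C.co_inj n (funext fun a => funext fun x => funext fun y => ?_)
    rw [co_ey, h, ← mul_assoc, ← AddChar.map_add_eq_mul, neg_add_cancel]
    simp

theorem ex_iff (n : ℕ) (f : V → Ω) (t : ι → ℚ_[p]) : C.U n (C.ex t) f = f ↔
    ∀ a x y, C.co n f a (x + t) y = C.co n f a x y :=
  ⟨fun h a x y => by rw [← co_ex, h], fun h =>
    C.co_inj n (funext fun a => funext fun x => funext fun y => by rw [co_ex, h])⟩

/-- multiplication by `p` on the part prime to `p` -/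
def fr (p : ℕ) (a : A) : A := (p : ℚ) • a

theorem fr_surj : Function.Surjective (fr p : A → A) := fun a => ⟨(p : ℚ)⁻¹ • a, by
  rw [fr, smul_smul, mul_inv_cancel₀ (Nat.cast_ne_zero.2 (Fact.out : p.Prime).ne_zero), one_smul]⟩

/-- Spaces of functions of degree one and `p ^ 2` with the uniqueness property. -/
structure Sp (H1 H2 : Submodule Ω (V → Ω)) : Prop where
  t1 : ∀ f ∈ H1, ∀ c, C.U 1 (C.ey c) f ∈ H1
  t2 : ∀ f ∈ H2, ∀ c, C.U (p ^ 2) (C.ey c) f ∈ H2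
  pw : ∀ f ∈ H1, f ^ p ^ 2 ∈ H2
  sc : ∀ f ∈ H1, (fun z => f ((p : ℚ) • z)) ∈ H2
  uq : ∀ k : ℕ, ∀ f ∈ H2, ∀ g ∈ H2, g ≠ 0 →
    (∀ t, In k t → C.U (p ^ 2) (C.ex t) f = f ∧ C.U (p ^ 2) (C.ex t) g = g) →
    (∀ t, In (-(k + 2 : ℕ)) t → C.U (p ^ 2) (C.ey t) f = f ∧ C.U (p ^ 2) (C.ey t) g = g) →
    ∃ c : Ω, f = c • g

theorem Sp.uq' {H1 H2 : Submodule Ω (V → Ω)} (h : C.Sp H1 H2) :
    Uq D (fr p) (H1.map (C.co 1)) (H2.map (C.co (p ^ 2))) where
  t1 := by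
    rintro _ ⟨f, hf, rfl⟩ c
    exact ⟨_, h.t1 f hf c, by funext a x y; rw [co_ey]; simp⟩
  t2 := by
    rintro _ ⟨f, hf, rfl⟩ c
    exact ⟨_, h.t2 f hf c, by funext a x y; rw [co_ey]; simp⟩
  pw := by
    rintro _ ⟨f, hf, rfl⟩
    refine ⟨_, h.pw f hf, ?_⟩
    funext a x y
    rw [co_apply, co_apply, mul_pow, ← AddChar.map_nsmul_eq_pow, Pi.pow_apply]
    congr 2
    simp only [nsmul_eq_mul, Nat.cast_one]
    ring
  sc := by
    rintro _ ⟨f, hf, rfl⟩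
    refine ⟨_, h.sc f hf, ?_⟩
    funext a x y
    have e : ∀ x : ι → ℚ_[p], (p : ℚ_[p]) • x = (p : ℚ) • x := fun x => by
      rw [Nat.cast_smul_eq_nsmul, Nat.cast_smul_eq_nsmul]
    rw [co_apply, co_apply]
    congr 2
    · simp only [smul_dotProduct, dotProduct_smul, smul_eq_mul]
      push_cast
      ring
    · simp [e, fr]
  uq := by
    rintro k _ ⟨f, hf, rfl⟩ _ ⟨g, hg, rfl⟩ h0 i1 i2
    obtain ⟨c, rfl⟩ := h.uq k f hf g hg (fun e => h0 (by rw [e, map_zero]))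
      (fun t ht => ⟨(C.ex_iff _ _ _).2 fun a x y => i1.perx a x y t ht,
        (C.ex_iff _ _ _).2 fun a x y => i2.perx a x y t ht⟩)
      (fun t ht => ⟨(C.ey_iff _ _ _).2 fun a x y => by simpa using i1.pery a x y t ht,
        (C.ey_iff _ _ _).2 fun a x y => by simpa using i2.pery a x y t ht⟩)
    exact ⟨c, map_smul _ _ _⟩

/-- A normalised theta function with its Galois action and its Riemann relation. -/
structure Th (β : I → Matrix ι ι ℚ_[p]) (f : V → Ω) : Prop where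
  int : ∀ s i j, ‖β s i j‖ ≤ 1
  px : ∀ t, In 0 t → C.U 1 (C.ex t) f = f
  py : ∀ t, In 0 t → C.U 1 (C.ey t) f = f
  gal : ∀ s a x y, D.act s (f (C.inc a + C.ex x + C.ey y)) =
    f (C.inc a + C.ex x + C.ey (D.chi s • y + β s *ᵥ x))
  riem : ∀ a : Fin 4 → A, ∃ (n : ℕ) (c : Fin n → Ω) (η : Fin n → Fin 4 → A),
    (∀ e, v (c e) ≤ 1) ∧ ∀ x y : Fin 4 → ι → ℚ_[p], ∏ i, f (C.inc (a i) + C.ex (x i) + C.ey (y i)) =
      ∑ e, c e * ∏ i, f (had (2⁻¹ : ℚ) (fun i => C.inc (a i) + C.ex (x i) + C.ey (y i)) i +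
        C.inc (η e i))
  le_one : ∀ z, v (f z) ≤ 1
  unit0 : ∃ a, v (f (C.inc a)) = 1
  nv : ∀ z, ∃ a, f (C.inc a + z) ≠ 0

theorem had_add (a : Fin 4 → A) (x y : Fin 4 → ι → ℚ_[p]) (i : Fin 4) :
    had (2⁻¹ : ℚ) (fun i => C.inc (a i) + C.ex (x i) + C.ey (y i)) i =
      C.inc (had (2⁻¹ : ℚ) a i) + C.ex (had (2⁻¹ : ℚ_[p]) x i) + C.ey (had (2⁻¹ : ℚ_[p]) y i) := by
  have e : ∀ x : ι → ℚ_[p], (2⁻¹ : ℚ_[p]) • x = (2⁻¹ : ℚ) • x := fun x => by
    rw [← algebraMap_smul ℚ_[p] (2⁻¹ : ℚ)]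
    simp
  fin_cases i <;> simp [had, e] <;> module

theorem had_dot (x y : Fin 4 → ι → ℚ_[p]) :
    ∑ i, had (2⁻¹ : ℚ_[p]) x i ⬝ᵥ had (2⁻¹ : ℚ_[p]) y i = ∑ i, x i ⬝ᵥ y i := by
  simp [had, Fin.sum_univ_four]
  ring

theorem psi_prod (z : Fin 4 → ℚ_[p]) : ∏ i, D.psi (z i) = D.psi (∑ i, z i) := by
  simp only [Fin.prod_univ_four, Fin.sum_univ_four, AddChar.map_add_eq_mul]

theorem Th.sys [DecidableEq ι] {β : I → Matrix ι ι ℚ_[p]} {f : V → Ω} (h : C.Th β f) :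
    Sys D β 0 (C.co 1 f) where
  int := h.int
  perx a x y t ht := (C.ex_iff _ _ _).1 (h.px t fun j => by simpa using ht j) a x y
  pery a x y t ht := by
    simpa using (C.ey_iff _ _ _).1 (h.py t fun j => by simpa using ht j) a x y
  gal s a x y := by
    rw [co_apply, co_apply, map_mul, D.psi_act, h.gal s a, ← mul_assoc,
      ← AddChar.map_add_eq_mul, dotProduct_add, dotProduct_smul, smul_eq_mul]
    congr 2
    push_cast
    ring
  riem a := by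
    obtain ⟨n, c, η, h1, h2⟩ := h.riem a
    refine ⟨n, c, fun e i => had (2⁻¹ : ℚ) a i + η e i, h1, fun x y => ?_⟩
    simp only [co_apply, Finset.prod_mul_distrib, psi_prod, Nat.cast_one, one_mul,
      ← Finset.sum_div, had_dot, h2, Finset.mul_sum, had_add, map_add C.inc]
    refine Finset.sum_congr rfl fun e _ => ?_
    rw [mul_left_comm]
    congr 2
    exact Finset.prod_congr rfl fun i _ => by congr 1; abel
  le_one a x y := by
    rw [co_apply, map_mul, D.v_psi, one_mul]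
    exact h.le_one _
  unit0 := let ⟨a, e⟩ := h.unit0; ⟨a, by simpa [co_apply] using e⟩
  nv x y := let ⟨a, e⟩ := h.nv (C.ex x + C.ey y)
    ⟨a, mul_ne_zero (D.psi_ne_zero _) (by rwa [add_assoc])⟩

theorem Th.sysU [DecidableEq ι] {β : I → Matrix ι ι ℚ_[p]} {f : V → Ω} (h : C.Th β f)
    {H1 H2 : Submodule Ω (V → Ω)} (hs : C.Sp H1 H2) (hf : f ∈ H1) :
    SysU D (fr p) β (C.co 1 f) :=
  ⟨h.sys, _, _, hs.uq', Submodule.mem_map_of_mem hf⟩

end Coord

end MTC
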