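import Pool.Agent.Lib.MP_d61fbb_ag.MN.DOrd

/-! The type norm on the unit root part of an ordinary Weil polynomial. -/

set_option autoImplicit false

open Matrix Polynomial Finset

namespace Pool.Agent.MT

section Lin

variable {K : Type*} [Field K] {ι : Type*} [Fintype ι] [DecidableEq ι]

theorem d3_aeval {A H S : Matrix ι ι K} (h : Aᵀ * S = S * H) (q : K[X]) :
    (aeval A q)ᵀ * S = S * aeval H q := by
  induction q using Polynomial.induction_on with
  | C c => simp [Algebra.algebraMap_eq_smul_one]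
  | add p q hp hq => simp [add_mul, mul_add, hp, hq]
  | monomial n c ih =>
    rw [pow_succ, ← mul_assoc, map_mul (aeval A), map_mul (aeval H), aeval_X, aeval_X,
      ← mul_assoc, ← ih, mul_assoc, ← h, ← mul_assoc, ← transpose_mul]
    congr 2
    have e := congrArg (aeval A) (mul_comm (C c * X ^ n) X)
    rwa [map_mul, map_mul (aeval A) X, aeval_X] at e

/-- A polynomial identity on the roots gives an identity of bilinear forms. -/
theorem d3_form {κ : Type*} {T : Finset κ} {y : κ → K} (hy : Function.Injective y)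
    {A S : Matrix ι ι K} (hA : A.charpoly = ∏ d ∈ T, (X - C (y d))) (h0 : ∀ d, y d ≠ 0) {μ ν : K}
    (hμ : μ ≠ 0) (hS : Aᵀ * S * A = μ • S) (q : K[X])
    (hq : ∀ d ∈ T, q.eval (μ / y d) * q.eval (y d) = ν) :
    (aeval A q)ᵀ * S * aeval A q = ν • S := by
  have c0 : A.charpoly.coeff 0 ≠ 0 := by
    rw [coeff_zero_eq_eval_zero, hA, eval_prod]
    exact prod_ne_zero_iff.2 fun d _ => by simpa using h0 d
  obtain ⟨h, hh⟩ : ∃ h : K[X], A.charpoly ∣ X * h - C μ := by
    refine ⟨C (-μ / A.charpoly.coeff 0) * divX A.charpoly, C (-μ / A.charpoly.coeff 0), ?_⟩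
    have e : C μ = -(C (-μ / A.charpoly.coeff 0) * C (A.charpoly.coeff 0)) := by
      rw [← C_mul, div_mul_cancel₀ _ c0, C_neg, neg_neg]
    rw [e]
    linear_combination C (-μ / A.charpoly.coeff 0) * X_mul_divX_add A.charpoly
  have k1 : A * aeval A h = μ • 1 := by
    have := aeval_eq_zero_of_dvd_aeval_eq_zero hh (Matrix.aeval_self_charpoly A)
    rwa [map_sub, map_mul, aeval_X, aeval_C, Algebra.algebraMap_eq_smul_one, sub_eq_zero] at this
  have k2 : Aᵀ * S = S * aeval A h := by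
    refine smul_right_injective _ hμ ?_
    beta_reduce
    rw [← smul_mul_assoc, ← smul_mul_assoc μ S, ← hS, mul_assoc _ A, k1]
    simp
  have k3 : A.charpoly ∣ q.comp h * q - C ν := by
    rw [hA]
    refine prod_dvd_of_coprime ((pairwise_coprime_X_sub_C hy).set_pairwise _) fun d hd => ?_
    have e : h.eval (y d) = μ / y d := by
      have := dvd_iff_isRoot.1 ((hA ▸ dvd_prod_of_mem _ hd).trans hh)
      simp only [IsRoot, eval_sub, eval_mul, eval_X, eval_C] at this
      rw [eq_div_iff (h0 d)]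
      linear_combination this
    simp [dvd_iff_isRoot, e, hq d hd]
  have k4 := aeval_eq_zero_of_dvd_aeval_eq_zero k3 (Matrix.aeval_self_charpoly A)
  rw [map_sub, map_mul, aeval_comp, aeval_C, Algebra.algebraMap_eq_smul_one, sub_eq_zero] at k4
  rw [d3_aeval k2, mul_assoc, k4]
  simp

theorem d3_sum {κ : Type*} {T : Finset κ} {y : κ → K} (hy : Function.Injective y) {μ : K}
    (hμ : μ ≠ 0) (h : ∀ d ∈ T, ∃ e ∈ T, y e = μ / y d) :
    ∑ d ∈ T, y d = μ * ∑ d ∈ T, (y d)⁻¹ := by
  classical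
  choose! r h1 h2 using h
  have h3 : Set.InjOn r T := fun a ha b hb e => hy (by
    have := h2 a ha
    rw [e, h2 b hb, div_eq_mul_inv, div_eq_mul_inv] at this
    exact (inv_injective (mul_left_cancel₀ hμ this)).symm)
  have h4 : T.image r = T := eq_of_subset_of_card_le
    (fun x hx => by obtain ⟨a, ha, rfl⟩ := mem_image.1 hx; exact h1 a ha)
    (card_image_of_injOn h3).ge
  rw [mul_sum]
  nth_rw 1 [← h4]
  rw [sum_image h3]
  exact sum_congr rfl fun d hd => by rw [h2 d hd, div_eq_mul_inv]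

theorem d3_mult {κ : Type*} {T : Finset κ} {y : κ → K} {A S : Matrix ι ι K}
    (hA : A.charpoly = ∏ d ∈ T, (X - C (y d))) (h0 : ∀ d, y d ≠ 0) {μ : K} (hd : S.det ≠ 0)
    (hS : Aᵀ * S * A = μ • S) : ∀ d ∈ T, ∃ e ∈ T, y e = μ / y d := by
  intro d hT
  have k1 : A.charpoly.eval (y d) = 0 := by
    rw [hA, eval_prod]
    exact prod_eq_zero hT (by simp)
  have k2 : (scalar ι (y d) - A)ᵀ * S * A = S * ((-y d) • (scalar ι (μ / y d) - A)) := by
    rw [transpose_sub, sub_mul, sub_mul, hS]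
    simp only [scalar_apply, ← smul_one_eq_diagonal, transpose_smul, transpose_one, smul_sub, smul_smul,
      mul_sub, smul_mul_assoc, mul_smul_comm, one_mul, mul_one]
    rw [neg_mul, mul_div_cancel₀ _ (h0 d), neg_smul, neg_smul]
    abel
  have k3 := congrArg det k2
  rw [det_mul, det_mul, det_transpose, ← Matrix.eval_charpoly, k1, zero_mul, zero_mul, det_mul,
    det_smul, ← Matrix.eval_charpoly, eq_comm, mul_eq_zero, mul_eq_zero, hA, eval_prod,
    prod_eq_zero_iff] at k3
  obtain ⟨e, he, k4⟩ := (k3.resolve_left hd).resolve_left (pow_ne_zero _ (neg_ne_zero.2 (h0 d)))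
  exact ⟨e, he, by simpa [sub_eq_zero, eq_comm] using k4⟩

theorem d3_inv {κ : Type*} [DecidableEq κ] {T : Finset κ} {y : κ → K} (h0 : ∀ d, y d ≠ 0) :
    (derivative (∏ d ∈ T, (X - C (y d)))).eval 0 =
      -((∏ d ∈ T, (X - C (y d))).eval 0 * ∑ d ∈ T, (y d)⁻¹) := by
  rw [derivative_prod_finset, eval_finsetSum, mul_sum, ← sum_neg_distrib]
  refine sum_congr rfl fun d hd => ?_
  have := h0 d
  rw [← mul_prod_erase _ _ hd]
  simp only [derivative_sub, derivative_X, derivative_C, sub_zero, mul_one, eval_mul, eval_sub,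
    eval_X, eval_C]
  field_simp
  ring

end Lin

variable [Dim]

theorem card_face (i : Fin nn) (δ : Fin 2) :
    (univ.filter fun d : Fin nn → Fin 2 => d i = δ).card = gg := by
  simpa [gg_eq] using Fintype.card_filter_piFinset_const_eq_of_mem univ i (mem_univ δ)

theorem card_face' (i : Fin nn) (δ : Fin 2) :
    (univ.filter fun d : Fin nn → Fin 2 => ¬ d i = δ).card = gg := by
  rw [← card_face i δ.rev]
  refine congrArg _ (filter_congr fun d _ => ?_)
  generalize d i = a
  revert a δ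
  decide

variable {P : ℤ[X]} {p : ℕ} [Fact p.Prime]

theorem Good.face' (G : Good P p) {w : PadicAlgCl p} {u : Fin nn → PadicAlgCl p}
    (h : Pres P p w u) : ∃ (i : Fin nn) (δ : Fin 2), ‖if δ = 1 then u i else (u i)⁻¹‖ = p ∧
      ∀ d, ‖lam w u d‖ = if d i = δ then 1 else (p : ℝ)⁻¹ := by
  obtain ⟨i, h1, h2⟩ := d_ord P p G.e1 G.uq w u h
  have hp : (0 : ℝ) < p := by exact_mod_cast G.prime.pos
  have hn : ‖(p : PadicAlgCl p)‖ = (p : ℝ)⁻¹ := by
    rw [← map_natCast (algebraMap ℚ_[p] _), PadicAlgCl.norm_extends, Padic.norm_p]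
  have k1 : ∀ d, ‖lam w u d‖ = ‖w‖ * ‖u i‖ ^ (d i : ℕ) := fun d => by
    rw [lam, norm_mul, norm_prod, prod_eq_single i (fun j _ hj => by simp [h2 j hj]) (by simp),
      norm_pow]
  have k2 : ‖w‖ ^ 2 * ‖u i‖ = (p : ℝ)⁻¹ := by
    rw [← hn, ← h.mul, norm_mul, norm_pow, norm_prod, prod_eq_single i (fun j _ => h2 j) (by simp)]
  rcases h1 with h1 | h1
  · refine ⟨i, 1, by simpa using h1, fun d => ?_⟩
    have k3 : ‖w‖ = (p : ℝ)⁻¹ := by
      rw [← pow_left_inj₀ (norm_nonneg _) (by positivity) two_ne_zero]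
      rw [h1] at k2
      field_simp at k2 ⊢
      exact k2
    rw [k1, k3, h1]
    generalize d i = a
    fin_cases a <;> simp [hp.ne']
  · refine ⟨i, 0, by simp [h1], fun d => ?_⟩
    have k3 : ‖w‖ = 1 := by
      rw [← pow_eq_one_iff_of_nonneg (norm_nonneg _) two_ne_zero]
      rw [h1] at k2
      field_simp at k2
      exact k2
    rw [k1, k3, h1]
    generalize d i = a
    fin_cases a <;> simp

theorem Good.face (G : Good P p) {w : PadicAlgCl p} {u : Fin nn → PadicAlgCl p} (h : Pres P p w u) :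
    ∃ (i : Fin nn) (δ : Fin 2), ‖if δ = 1 then u i else (u i)⁻¹‖ = p ∧
      ∀ d, ‖lam w u d‖ = 1 → d i = δ := by
  obtain ⟨i, δ, h1, h2⟩ := G.face' h
  refine ⟨i, δ, h1, fun d e => by_contra fun k => ?_⟩
  rw [h2, if_neg k, inv_eq_one] at e
  exact G.prime.ne_one (by exact_mod_cast e)

/-- The characteristic polynomial of the Frobenius element on the unramified quotient. -/
theorem Good.unit_part {w : PadicAlgCl p} {u : Fin nn → PadicAlgCl p} (h : Pres P p w u)
    {i : Fin nn} {δ : Fin 2} (hδ : ∀ d, ‖lam w u d‖ = 1 → d i = δ) {ι : Type} [Fintype ι]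
    [DecidableEq ι] (hc : Fintype.card ι = gg) {A : Matrix ι ι (PadicAlgCl p)} (hA : ‖A.det‖ = 1)
    (hP : A.charpoly ∣ P.map (Int.castRingHom _)) :
    A.charpoly = ∏ d with d i = δ, (X - C (lam w u d)) := by
  have k0 := A.charpoly_monic
  have k1 : ∀ y ∈ A.charpoly.roots, ‖y‖ ≤ 1 := fun y hy => by
    refine d_norm_le ⟨P, h.monic, ?_⟩
    rw [eval₂_eq_eval_map, algebraMap_int_eq]
    exact eval_eq_zero_of_dvd_of_eval_eq_zero hP (isRoot_of_mem_roots hy)
  have k2 : ∀ y, A.charpoly.IsRoot y → ‖y‖ = 1 := fun y hy => by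
    have hm := (mem_roots k0.ne_zero).2 hy
    obtain ⟨t, ht⟩ := Multiset.exists_cons_of_mem hm
    rw [det_eq_prod_roots_charpoly, ht, Multiset.prod_cons, norm_mul] at hA
    have k3 : ‖t.prod‖ ≤ 1 := Multiset.prod_induction (fun x => ‖x‖ ≤ 1) t
      (fun a b ha hb => (norm_mul a b).trans_le (mul_le_one₀ ha (norm_nonneg _) hb)) norm_one.le
      fun a ha => k1 a (ht ▸ Multiset.mem_cons_of_mem ha)
    exact le_antisymm (k1 y hm) (hA.ge.trans (mul_le_of_le_one_right (norm_nonneg _) k3))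
  rw [h.fac, ← prod_filter_mul_prod_filter_not univ fun d => d i = δ] at hP
  have k3 : IsCoprime A.charpoly (∏ d with ¬ d i = δ, (X - C (lam w u d))) :=
    IsCoprime.prod_right fun d hd => ((irreducible_X_sub_C _).coprime_iff_not_dvd.2 fun e =>
      (mem_filter.1 hd).2 (hδ d (k2 _ (dvd_iff_isRoot.1 e)))).symm
  refine (eq_of_monic_of_dvd_of_natDegree_le k0 (monic_prod_of_monic _ _ fun _ _ => monic_X_sub_C _)
    (k3.dvd_of_dvd_mul_right hP) ?_).symm
  rw [natDegree_finsetProd_X_sub_C_eq_card, charpoly_natDegree_eq_dim, hc, card_face]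

variable {E : Type} [Field E] [NumberField E]

theorem DF.d3 (D : DF P p E) (G : Good P p) {ι : Type} [Fintype ι] [DecidableEq ι]
    (hc : Fintype.card ι = gg) (A : Matrix ι ι ℚ_[p]) (hA : ‖A.det‖ = 1)
    (hP : A.charpoly ∣ P.map (Int.castRingHom _)) :
    ∃ j : E →+* ℚ_[p], ‖j D.U‖ = p ∧ ∀ (S : Matrix ι ι (PadicAlgCl p)) (μ : PadicAlgCl p),
      S.det ≠ 0 → (A.map (algebraMap _ _))ᵀ * S * A.map (algebraMap _ _) = μ • S → ∀ x, x ≠ 0 →
      ((aeval A (D.f x)).map (algebraMap _ _))ᵀ * S * (aeval A (D.f x)).map (algebraMap _ _) =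
        algebraMap ℚ_[p] (PadicAlgCl p) ((Algebra.norm ℚ x : ℚ) * (j x / j (D.c x))) • S := by
  obtain ⟨w0, u0, h0⟩ := G.pres
  have hp0 := G.prime.ne_zero
  obtain ⟨w, u, h⟩ := h0.transfer hp0 (PadicAlgCl p)
  obtain ⟨i, δ, k1, k2⟩ := G.face h
  obtain ⟨hy, φ, f1, f2, f3⟩ := D.emb _ w u h
  set a := algebraMap ℚ_[p] (PadicAlgCl p) with ha
  have k3 : (A.map a).charpoly = A.charpoly.map a := charpoly_map A a
  have k4 : (A.map a).det = a A.det := (a.map_det A).symm
  have k5 := Good.unit_part h k2 hc (A := A.map a) (by rw [k4, PadicAlgCl.norm_extends, hA]) (by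
    rw [k3, ← RingHom.eq_intCast' (a.comp (Int.castRingHom _)), ← Polynomial.map_map]
    exact Polynomial.map_dvd a hP)
  set T := univ.filter fun d : Fin nn → Fin 2 => d i = δ with hT
  have y0 : ∀ d, lam w u d ≠ 0 := fun d =>
    left_ne_zero_of_mul (h.rev d ▸ Nat.cast_ne_zero.2 hp0)
  have u0 := (h.ne hp0).2
  obtain ⟨ψ, ψ1, ψ2, ψ3⟩ : ∃ ψ : E →+* PadicAlgCl p, ψ D.U = (if δ = 1 then u i else (u i)⁻¹) ∧
      (∀ x, φ i (if δ = 1 then x else D.c x) = ψ x) ∧ ∀ x, φ i (x * D.c x) = ψ x * ψ (D.c x) := by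
    split_ifs
    · exact ⟨φ i, f1 i, fun _ => rfl, fun x => map_mul _ _ _⟩
    · refine ⟨(φ i).comp D.c.toRingEquiv.toRingHom, ?_, fun _ => rfl, fun x => ?_⟩
      · refine eq_inv_of_mul_eq_one_left ?_
        rw [← f1, ← map_one (φ i), ← D.cU, map_mul]
        rfl
      · change _ = φ i (D.c x) * φ i (D.c (D.c x))
        rw [D.cc, map_mul, mul_comm]
  let r : (Fin nn → Fin 2) → Fin nn → Fin 2 := fun d j => if j = i then d j else (d j).rev
  have r1 : ∀ d ∈ T, r d ∈ T := fun d hd => by simpa [hT, r] using hd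
  have r2 : ∀ d ∈ T, lam w u (r d) = p * ψ D.U / lam w u d := fun d hd => by
    have e1 : u i ^ (r d i : ℕ) * u i ^ (d i : ℕ) = u i * ψ D.U := by
      have := u0 i
      rw [ψ1, show r d i = δ by simpa [hT, r] using hd, (mem_filter.1 hd).2]
      fin_cases δ <;> simp [this]
    have e2 : ∏ j ∈ univ.erase i, u j ^ (r d j : ℕ) * u j ^ (d j : ℕ) = ∏ j ∈ univ.erase i, u j := by
      refine prod_congr rfl fun j hj => ?_
      rw [show r d j = (d j).rev from if_neg (mem_erase.1 hj).1]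
      generalize d j = e
      fin_cases e <;> simp
    rw [eq_div_iff (y0 d), ← h.mul, lam, lam, mul_mul_mul_comm, ← prod_mul_distrib,
      ← mul_prod_erase _ _ (mem_univ i), ← mul_prod_erase _ u (mem_univ i), e1, e2]
    ring
  have r3 : ∀ d ∈ T, ∀ x, aeval (lam w u (r d)) (D.f x) * aeval (lam w u d) (D.f x) *
      ψ (D.c x) = (Algebra.norm ℚ x : ℚ) * ψ x := fun d hd x => by
    rw [f2, f2, f3, ← prod_mul_distrib, ← mul_prod_erase _ _ (mem_univ i),
      ← mul_prod_erase _ _ (mem_univ i), show r d i = δ by simpa [hT, r] using hd,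
      (mem_filter.1 hd).2, ψ2, ψ3, prod_congr rfl (g := fun j => φ j (x * D.c x)) fun j hj => by
        rw [show r d j = (d j).rev from if_neg (mem_erase.1 hj).1]
        generalize d j = e
        fin_cases e <;> simp [mul_comm]]
    ring
  have m0 : (p : PadicAlgCl p) * ψ D.U ≠ 0 := mul_ne_zero (Nat.cast_ne_zero.2 hp0)
    ((_root_.map_ne_zero ψ).2 (right_ne_zero_of_mul (D.cU ▸ one_ne_zero)))
  have s1 := d3_sum hy m0 fun d hd => ⟨r d, r1 d hd, r2 d hd⟩
  have s0 : ∑ d ∈ T, lam w u d ≠ 0 := by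
    have e := sum_prod_fin fun j (e : Fin 2) => if j = i ∧ e ≠ δ then 0 else u j ^ (e : ℕ)
    have e' : ∑ d ∈ T, lam w u d = w * ∑ d : Fin nn → Fin 2,
        ∏ j, if j = i ∧ d j ≠ δ then 0 else u j ^ (d j : ℕ) := by
      rw [hT, sum_filter, mul_sum]
      refine sum_congr rfl fun d _ => ?_
      split_ifs with hd
      · exact congrArg _ (prod_congr rfl fun j _ => (if_neg fun k => k.2 (k.1 ▸ hd)).symm)
      · rw [Finset.prod_eq_zero (mem_univ i) (by simp [hd]), mul_zero]
    rw [e', e]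
    refine mul_ne_zero (h.ne hp0).1 (prod_ne_zero_iff.2 fun j _ => ?_)
    by_cases hj : j = i
    · subst hj
      fin_cases δ <;> simp [u0]
    · intro e
      refine G.tt_ne h j 0 ?_
      have e1 : u j = -1 := by
        simp only [hj, false_and, if_false] at e
        simpa [add_comm, add_eq_zero_iff_eq_neg] using e
      rw [tt, e1]
      norm_num
  have s2 : ∑ d ∈ T, (lam w u d)⁻¹ ≠ 0 := right_ne_zero_of_mul (s1 ▸ s0)
  have hU : ψ D.U ∈ a.fieldRange := by
    have e1 : ∑ d ∈ T, lam w u d = -a A.charpoly.nextCoeff := by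
      rw [← nextCoeff_map a.injective, ← k3, k5, prod_X_sub_C_nextCoeff, neg_neg]
    have e2 := d3_inv (T := T) y0
    have e3 : (A.charpoly.map a).eval 0 ≠ 0 := by
      rw [← k3, k5, eval_prod]
      exact prod_ne_zero_iff.2 fun d _ => by simpa using y0 d
    rw [← k5, k3, derivative_map, eval_zero_map, eval_zero_map] at e2
    rw [eval_zero_map] at e3
    have e4 : a ((derivative A.charpoly).eval 0) ≠ 0 := e2 ▸ neg_ne_zero.2 (mul_ne_zero e3 s2)
    refine ⟨A.charpoly.nextCoeff * A.charpoly.eval 0 / (p * (derivative A.charpoly).eval 0), ?_⟩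
    have e5 : (p : PadicAlgCl p) ≠ 0 := Nat.cast_ne_zero.2 hp0
    rw [map_div₀, map_mul, map_mul, map_natCast, div_eq_iff (mul_ne_zero e5 e4), e2]
    linear_combination a (A.charpoly.eval 0) * (e1 - s1)
  have hψ : ∀ x, ψ x ∈ a.fieldRange := fun x => by
    have hx : x ∈ Algebra.adjoin ℚ {D.U} := D.gen ▸ Algebra.mem_top
    induction hx using Algebra.adjoin_induction with
    | mem x hx => exact hx ▸ hU
    | algebraMap q => rw [eq_ratCast, map_ratCast]; exact SubfieldClass.ratCast_mem _ q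
    | add x y _ _ hx hy => rw [map_add]; exact add_mem hx hy
    | mul x y _ _ hx hy => rw [map_mul]; exact mul_mem hx hy
  choose j hj using hψ
  let j' : E →+* ℚ_[p] :=
    { toFun := j
      map_one' := a.injective (by rw [hj, map_one, map_one])
      map_mul' := fun x y => a.injective (by rw [map_mul, hj, hj, hj, map_mul])
      map_zero' := a.injective (by rw [hj, map_zero, map_zero])
      map_add' := fun x y => a.injective (by rw [map_add, hj, hj, hj, map_add]) }
  have hj' : ∀ x, a (j' x) = ψ x := hj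
  refine ⟨j', by rw [← PadicAlgCl.norm_extends, hj', ψ1, k1], fun S μ hS hμ x hx => ?_⟩
  have m1 : μ ≠ 0 := by
    rintro rfl
    have : Nonempty ι := Fintype.card_pos_iff.1 (by have := gg_four; omega)
    have := congrArg det hμ
    rw [zero_smul, det_mul, det_mul, det_transpose, k4, det_zero] at this
    have e : a A.det ≠ 0 := (_root_.map_ne_zero a).2 (norm_ne_zero_iff.1 (hA ▸ one_ne_zero))
    exact mul_ne_zero (mul_ne_zero e hS) e this
  have m2 : μ = p * ψ D.U := mul_right_cancel₀ s2 ((d3_sum hy m1 (d3_mult k5 y0 hS hμ)).symm.trans s1)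
  have m3 : (aeval A (D.f x)).map a =
      aeval (A.map a) ((D.f x).map (algebraMap ℚ (PadicAlgCl p))) := by
    rw [aeval_map_algebraMap]
    exact (aeval_algHom_apply (a.mapMatrix (m := ι)).toRatAlgHom A (D.f x)).symm
  rw [m3]
  refine d3_form hy k5 y0 m1 hμ _ fun d hd => ?_
  have m4 : ψ (D.c x) ≠ 0 := (_root_.map_ne_zero ψ).2 ((_root_.map_ne_zero D.c).2 hx)
  rw [m2, ← r2 d hd, eval_map_algebraMap, eval_map_algebraMap, map_mul, map_div₀, hj', hj',
    map_ratCast, ← mul_div_assoc, eq_div_iff m4, r3 d hd]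

end Pool.Agent.MT
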