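import Pool.Agent.Lib.MP_d61fbb_ag.MN.I1
import Pool.Agent.Lib.MP_d61fbb_ag.MN.T1
import Pool.Agent.Lib.MP_d61fbb_ag.MN.GX1

/-! The bridge to block C: local components, signs, powers and the Galois action. -/

set_option autoImplicit false

noncomputable section

namespace Pool.Agent.MT

variable [Dim]

open Matrix Sum
open Pool.Agent.Lib.MP_696deb_nt.B2 (Qbar Gam)

/-- the inclusion of a local space -/
def c2s (l : Pr) : Vl l →+ W :=
  AddMonoidHom.mk' (sgv l) fun a b => funext fun i => map_add (sg l) (a i) (b i)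

/-- the projection to a local space -/
def c2c (l : Pr) : W →+ Vl l :=
  AddMonoidHom.mk' (cpv l) fun a b => funext fun i => map_add (cp l) (a i) (b i)

lemma c2_ext {x y : W} (h : ∀ l, cpv l x = cpv l y) : x = y :=
  funext fun i => ad_ext fun l => congrFun (h l) i

lemma c2_cs (l : Pr) (x : Vl l) : cpv l (sgv l x) = x := funext fun i => cp_sg l (x i)

lemma c2_cs_ne {l l' : Pr} (h : l' ≠ l) (x : Vl l) : cpv l' (sgv l x) = 0 :=
  funext fun i => cp_sg_ne h (x i)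

lemma c2_cadd (l : Pr) (x y : W) : cpv l (x + y) = cpv l x + cpv l y := map_add (c2c l) x y

lemma c2_sadd (l : Pr) (x y : Vl l) : sgv l (x + y) = sgv l x + sgv l y := map_add (c2s l) x y

lemma c2_cmul (l : Pr) (h : M8 AF) (x : W) : cpv l (h *ᵥ x) = h.map (cp l) *ᵥ cpv l x :=
  funext fun i => RingHom.map_mulVec (cp l).toRingHom h x i

lemma c2_Wp {p : Pr} {x : W} : x ∈ Wp p ↔ cpv p x = 0 :=
  ⟨fun h => funext fun i => h i p rfl, fun h i l e => by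
    obtain rfl : l = p := Subtype.ext e
    exact congrFun h i⟩

lemma c2_W0 (x : W) : x ∈ Wp 0 := fun _ l h => absurd h l.2.ne_zero

lemma c2_split (p : Pr) (z : W) : z = iq p • z + sgv p (cpv p z) := c2_ext fun l => by
  rw [c2_cadd]
  by_cases e : l = p
  · subst e
    rw [c2_cs, c2_Wp.1 (iq_mem _ _), zero_add]
  · rw [c2_cs_ne e, add_zero]
    funext i
    simp [cpv, cp_iq, show (l : ℕ) ≠ p from fun h => e (Subtype.ext h)]

lemma c2_cEf (l : Pr) (x y : W) : cp l (Ef x y) = Ef (cpv l x) (cpv l y) := Ef_map x y (cp l)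

lemma c2_Ef (l : Pr) (t : Vl l) (z : W) : Ef (sgv l t) z = sg l (Ef t (cpv l z)) :=
  ad_ext fun l' => by
    rw [c2_cEf]
    by_cases e : l' = l
    · subst e; rw [c2_cs, cp_sg]
    · rw [c2_cs_ne e, cp_sg_ne e, Ef_zero_left]

lemma c2_sg (l : Pr) (c : ℚ) (a : ℚ_[l]) : c • sg l a = sg l (c * a) := by
  rw [← map_rat_smul, Rat.smul_def]

lemma c2_mul_sg (l : Pr) (a : AF) : sg l 1 * a = sg l (cp l a) := ad_ext fun l' => by
  by_cases e : l' = l
  · subst e; simp [cp_sg]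
  · simp [cp_sg_ne e]

section
variable {k : Type} [Field k] {e : AddChar AF k} {Θ : W → k}

lemma c2_sgn (t : W) : sgn e t = e (sg p2 (Qf (cpv p2 t) / 2)) := by
  refine (congrArg e (c2_mul_sg p2 _)).trans ?_
  rw [map_smul, Qf_map, Rat.smul_def]
  congr 2
  push_cast
  rw [one_div_mul_eq_div]
  rfl

lemma c2_sgn_congr {s t : W} (h : cpv p2 s = cpv p2 t) : sgn e s = sgn e t := by
  rw [c2_sgn, c2_sgn, h]

lemma c2_sgn_one {s : W} (h : cpv p2 s = 0) : sgn e s = 1 := by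
  rw [c2_sgn, h]; simp [Qf]

lemma c2_Rt_pow (n m : ℕ) (t : W) (f : W → k) : Rt e (n * m) t (f ^ n) = Rt e m t f ^ n := by
  funext x
  simp only [Rt, Pi.pow_apply, mul_pow, ← AddChar.map_nsmul_eq_pow]
  rw [← Nat.cast_smul_eq_nsmul ℚ, smul_smul, Nat.cast_mul, mul_div_assoc]

lemma c2_Rt_scale (n m : ℕ) (t : W) (f : W → k) :
    Rt e (n ^ 2 * m) t (fun x => f ((n : ℚ) • x)) = fun x => Rt e m ((n : ℚ) • t) f ((n : ℚ) • x) := by
  funext x
  simp only [Rt, smul_add, Ef_q_left, Ef_q_right, smul_smul]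
  congr 3
  push_cast
  ring

lemma c2_pow {q m : ℕ} {f : W → k} (hf : f ∈ Gs q e Θ m) (n : ℕ) : f ^ n ∈ Gs q e Θ (n * m) := by
  induction n with
  | zero => exact Submodule.subset_span ⟨0, by simp [wt], by simp [cl], by funext x; simp [gen]⟩
  | succ n ih => rw [pow_succ, add_mul, one_mul]; exact Gs_mul ih hf

lemma c2_scale {q m : ℕ} {f : W → k} (hf : f ∈ Gs q e Θ m) (n : ℕ) :
    (fun x => f ((n : ℚ) • x)) ∈ Gs q e Θ (n ^ 2 * m) := by
  refine (Submodule.span_le (p := (Gs q e Θ (n ^ 2 * m)).comap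
    (LinearMap.funLeft k k fun x : W => (n : ℚ) • x))).2 ?_ hf
  rintro _ ⟨L, a, b, rfl⟩
  refine Submodule.subset_span ⟨L.map fun c => (c.1 * n, c.2), ?_, fun i l h => ?_, ?_⟩
  · rw [Nat.cast_mul, ← a]
    simp [wt, mul_pow, Multiset.sum_map_mul_right, mul_comm]
  · have : cl (L.map fun c => (c.1 * n, c.2)) = n • cl L := by
      simp only [cl, Multiset.map_map, Function.comp_def, Multiset.smul_sum]
      congr 2
      funext c
      module
    rw [this, Pi.smul_apply, map_nsmul, nsmul_eq_mul, norm_mul]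
    exact mul_le_one₀ (IsUltrametricDist.norm_natCast_le_one _ _) (norm_nonneg _) (b i l h)
  · funext x
    simp only [gen, Multiset.map_map, Function.comp_def, LinearMap.funLeft_apply]
    congr 2
    funext c
    congr 1
    module

end

namespace TSys
variable {k : Type} [Field k] {q : ℕ} (S : TSys k q)

lemma c2_sgn_odd {t : W} (ht : ∀ i, ‖cpv p2 t i‖ ≤ 1) {n : ℕ} (hn : Odd n) :
    sgn S.e t ^ n = sgn S.e t := by
  obtain ⟨j, rfl⟩ := hn
  have : sgn S.e t ^ 2 = 1 := by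
    rw [c2_sgn, ← AddChar.map_nsmul_eq_pow, ← map_nsmul, nsmul_eq_mul, Nat.cast_ofNat,
      mul_div_cancel₀ _ two_ne_zero]
    refine S.e_one (Zq_zero (sg_mem ?_))
    exact IsUltrametricDist.norm_sum_le_of_forall_le_of_nonneg (s := Finset.univ) zero_le_one
      fun i _ => padic_mul_le (ht (inl i)) (ht (inr i))
  rw [pow_succ, pow_mul, this, one_pow, one_mul]

lemma c2_sgn_smul {t : W} (ht : ∀ i, ‖cpv p2 t i‖ ≤ 1) {n : ℕ} (hn : Odd n) :
    sgn S.e ((n : ℚ) • t) = sgn S.e t := by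
  rw [← S.c2_sgn_odd ht (hn.mul hn), sgn, sgn, Qf_q, ← AddChar.map_nsmul_eq_pow,
    ← Nat.cast_smul_eq_nsmul ℚ, smul_comm, mul_smul_comm, Nat.cast_mul]

end TSys

section
variable {N : ℕ} {h : M8 AF}

lemma Pt.c2_two (H : Pt N h) {t : W} (ht : t ∈ L0) (i : I2 gg) : ‖cpv p2 (h *ᵥ t) i‖ ≤ 1 := by
  rw [c2_cmul]
  exact (H.two _).2 (fun i => mem_L0.1 ht i p2) i

lemma Pt.c2_inv (H : Pt N h) (x : W) : ∃ y, h *ᵥ y = x :=
  ⟨(H.unit.unit⁻¹).val *ᵥ x, by rw [mulVec_mulVec, H.unit.mul_val_inv, one_mulVec]⟩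

lemma Pt.c2_loc (H : Pt N h) (l : Pr) {y : Vl l} (hy : h.map (cp l) *ᵥ y = 0) : y = 0 := by
  have : (H.unit.unit⁻¹).val.map (cp l) * h.map (cp l) = 1 := by
    rw [← Matrix.map_mul, H.unit.val_inv_mul]
    simp
  rw [← one_mulVec y, ← this, ← mulVec_mulVec, hy, mulVec_zero]

lemma Pt.c2_dual (H : Pt N h) {q : ℕ} {y : W}
    (hy : ∀ t ∈ L0, t ∈ Wp q → (N : ℚ) • Ef (h *ᵥ t) (h *ᵥ y) ∈ Zq q) (i : I2 gg) : y i ∈ Zq q := by
  obtain ⟨u, hu⟩ := H.sim
  refine mem_of_Ef (fun t ht ht' => ?_) i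
  have := mul_mem (Zq_zero (zA_mem (u⁻¹).val)) (hy t ht ht')
  rwa [Nat.cast_smul_eq_nsmul, nsmul_eq_mul, hu, ← mul_assoc, ← map_mul, Units.inv_mul, map_one,
    one_mul] at this

lemma Pt.c2_ne (H : Pt N h) : N ≠ 0 := H.odd.pos.ne'

lemma Pt.c2_norm (H : Pt N h) {p : Pr} (hs : StdAt p h) : ‖(N : ℚ_[p])‖ = 1 := by
  obtain ⟨u, hu⟩ := H.sim
  have h1 := congrArg (fun a => ‖cp p a‖) (hu (Pi.single (inl 0) 1) (Pi.single (inr 0) 1))
  have h2 : ∀ j : I2 gg, ∀ i, ‖cpv p (h *ᵥ Pi.single j 1) i‖ ≤ 1 := fun j => by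
    rw [c2_cmul]
    refine (hs _).2 fun i => ?_
    by_cases e : i = j
    · subst e; simp [cpv]
    · simp [cpv, e]
  have h3 : Ef (Pi.single (inl 0) 1 : W) (Pi.single (inr 0) 1) = 1 := by
    simp [Ef, dotProduct, Pi.single_apply]
  have h4 : ‖cp p (zA u.val)‖ = 1 := PadicInt.norm_units (Units.map (Pi.evalMonoidHom _ p) u)
  simp only [h3, map_mul, mul_one, norm_mul, h4, map_natCast, c2_cEf] at h1
  refine le_antisymm (padic_nat_le _ _) (h1 ▸ mul_le_of_le_one_right (norm_nonneg _) ?_)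
  have k : ∀ x y : Fin gg → ℚ_[p], (∀ i, ‖x i‖ ≤ 1) → (∀ i, ‖y i‖ ≤ 1) → ‖x ⬝ᵥ y‖ ≤ 1 :=
    fun x y hx hy => IsUltrametricDist.norm_sum_le_of_forall_le_of_nonneg zero_le_one fun i _ =>
      padic_mul_le (hx _) (hy _)
  rw [Ef, sub_eq_add_neg]
  exact padic_add_le (k _ _ (fun _ => h2 _ _) fun _ => h2 _ _)
    (by rw [norm_neg]; exact k _ _ (fun _ => h2 _ _) fun _ => h2 _ _)

/-- integral vectors at `p` lie in a lattice that is standard at `p` -/
lemma Pt.c2_mem (H : Pt N h) {p : Pr} (hs : StdAt p h) {s : Vl p} (h1 : ∀ i, ‖s i‖ ≤ 1) :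
    ∃ t ∈ L0, h *ᵥ t = sgv p s := by
  obtain ⟨t, ht⟩ := H.c2_inv (sgv p s)
  refine ⟨t, mem_L0.2 fun i l => ?_, ht⟩
  have := congrArg (cpv l) ht
  rw [c2_cmul] at this
  by_cases e : l = p
  · subst e
    rw [c2_cs] at this
    exact (hs _).1 (this ▸ h1) i
  · rw [c2_cs_ne e] at this
    have : cp l (t i) = 0 := congrFun (H.c2_loc l this) i
    simp [this]

end

variable {τ : Matrix (Fin gg) (Fin gg) ℂ} {K : IntermediateField ℚ ℂ} {M : MumfordType τ K}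
  (A : AR M) (σ : ℂ ≃ₐ[K] ℂ)

lemma AR.c2_e (c : ℚ) (t x : W) : A.res σ (A.S.e (c • Ef t x)) =
    A.S.e (c • Ef (mA (M.ρ σ) *ᵥ t) (mA (M.ρ σ) *ᵥ x)) := by
  rw [← Ef_q_left, A.gale, mulVec_smul, Ef_q_left]

lemma AR.c2_Θ (x : W) : A.res σ (A.S.Θ x) = A.S.Θ (mA (M.ρ σ) *ᵥ x) := by
  have h0 : hw 0 = 0 := by funext i; simp [hw, hq]
  simpa [TSys.th, h0] using A.gal σ 0 x

lemma AR.c2_Rt {f f' : W → Qbar} (h : ∀ x, A.res σ (f x) = f' (mA (M.ρ σ) *ᵥ x)) (m : ℕ)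
    (t x : W) : A.res σ (Rt A.S.e m t f x) =
      Rt A.S.e m (mA (M.ρ σ) *ᵥ t) f' (mA (M.ρ σ) *ᵥ x) := by
  rw [Rt, Rt, map_mul, A.c2_e, h, mulVec_add]

lemma AR.c2_G {m : ℕ} {f : W → Qbar} (hf : f ∈ A.S.G m) :
    ∃ f' ∈ A.S.G m, ∀ x, A.res σ (f x) = f' (mA (M.ρ σ) *ᵥ x) := by
  induction hf using Submodule.span_induction with
  | mem f hf =>
    obtain ⟨L, a, -, rfl⟩ := hf
    refine ⟨gen A.S.e A.S.Θ (L.map fun c => (c.1, mA (M.ρ σ) *ᵥ c.2)), Submodule.subset_span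
      ⟨_, by rw [← a]; simp [wt], fun _ l h => absurd h l.2.ne_zero, rfl⟩, fun x => ?_⟩
    simp only [gen, map_multiset_prod, Multiset.map_map, Function.comp_def,
      A.c2_Rt σ (A.c2_Θ σ)]
    congr 2
    funext c
    congr 1
    exact map_zsmul (mA (M.ρ σ)).mulVecLin _ _
  | zero => exact ⟨0, zero_mem _, fun _ => map_zero _⟩
  | add f g _ _ hf hg =>
    obtain ⟨f', a, b⟩ := hf
    obtain ⟨g', c, d⟩ := hg
    exact ⟨f' + g', add_mem a c, fun x => by rw [Pi.add_apply, map_add, b, d, Pi.add_apply]⟩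
  | smul c f _ hf =>
    obtain ⟨f', a, b⟩ := hf
    exact ⟨A.res σ c • f', Submodule.smul_mem _ _ a, fun x => by
      rw [Pi.smul_apply, smul_eq_mul, map_mul, b, Pi.smul_apply, smul_eq_mul]⟩

end Pool.Agent.MT
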