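import Pool.Agent.Lib.MP_d61fbb_ag.MN.CM3a
import Pool.Agent.Lib.MP_d61fbb_ag.MN.CM3b

/-! The bridge to block C: partners have the same reduction. -/

set_option autoImplicit false

noncomputable section

namespace Pool.Agent.MT

variable [Dim]

open Matrix Polynomial Sum NumberField
open Pool.Agent.Lib.MP_696deb_nt.B2 (Qbar Gam Plc jC)

lemma cm3_ext {x y : W} (h : ∀ l, cpv l x = cpv l y) : x = y :=
  funext fun i => ad_ext fun l => congrFun (h l) i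

lemma cm3_cs (l : Pr) (x : Vl l) : cpv l (sgv l x) = x := funext fun i => cp_sg l (x i)

lemma cm3_cs_ne {l l' : Pr} (h : l' ≠ l) (x : Vl l) : cpv l' (sgv l x) = 0 :=
  funext fun i => cp_sg_ne h (x i)

lemma cm3_add (l : Pr) (x y : W) : cpv l (x + y) = cpv l x + cpv l y :=
  funext fun _ => map_add (cp l) _ _

lemma cm3_q (l : Pr) (c : ℚ) (x : W) : cpv l (c • x) = c • cpv l x :=
  funext fun _ => map_smul (cp l) _ _

lemma cm3_z (l : Pr) (c : ℤ) (x : W) : cpv l (c • x) = c • cpv l x :=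
  funext fun _ => map_zsmul (cp l) _ _

lemma cm3_mz (g : M8 AF) (c : ℤ) (x : W) : g *ᵥ c • x = c • g *ᵥ x := map_zsmul g.mulVecLin c x

lemma cm3_mul_sg (g : M8 AF) (l : Pr) (x : Vl l) : g *ᵥ sgv l x = sgv l (g.map (cp l) *ᵥ x) :=
  cm3_ext fun l' => by
    rw [cm_cp_mulVec]
    by_cases e : l' = l
    · subst e; rw [cm3_cs, cm3_cs]
    · rw [cm3_cs_ne e, cm3_cs_ne e, mulVec_zero]

lemma cm3_odd {z : ℤ} (h : ‖(z : ℚ_[p2])‖ = 1) : Odd z :=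
  Int.not_even_iff_odd.1 fun e => (Padic.norm_intCast_lt_one_iff.2 (even_iff_two_dvd.1 e)).ne h

section
variable {k : Type} [Field k] {q : ℕ} (S : TSys k q)

lemma cm3_e {a b : AF} (h : ∀ l : Pr, (l : ℕ) ≠ q → cp l a = cp l b) : S.e a = S.e b := by
  rw [← sub_add_cancel a b, AddChar.map_add_eq_mul, S.e_one fun l hl => by simp [h l hl], one_mul]

lemma cm3_sgn0 {s t : W} (h : cpv p2 s = cpv p2 t) : sgn S.e s = sgn S.e t := by
  refine congrArg S.e ((mul_comm _ _).trans (.trans ?_ (mul_comm _ _)))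
  rw [gn_mul_sg, gn_mul_sg, map_smul, map_smul, Qf_map, Qf_map]
  exact congrArg (fun x => sg p2 ((1 / 2 : ℚ) • Qf x * 1)) h

lemma cm3_sgn {s t : W} {w : Vl p2} (hs : ∀ i, s i ∈ Z2) (hw : ∀ i, ‖w i‖ ≤ 1)
    (h : cpv p2 t = cpv p2 s + (w + w)) : sgn S.e t = sgn S.e s := by
  have h1 : ∀ i, sgv p2 w i ∈ Z2 := fun i => mem_L0.1 (sgv_L0 hw) i p2
  rw [cm3_sgn0 S (t := s + (sgv p2 w + sgv p2 w)) (by rw [h, cm3_add, cm3_add, cm3_cs]),
    S.gx_sgn_add (t := sgv p2 w + sgv p2 w) hs fun i => add_mem (h1 i) (h1 i), S.gx_sgn_two h1,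
    Ef_add_right, ← two_smul ℚ,
    smul_smul, one_div_mul_cancel two_ne_zero, one_smul,
    S.gx_one (gx_sg_mul (gx_Ef_mem Z2 hs h1)), mul_one, mul_one]

end

section
variable {p : Pr} {π : ∀ l : Pr, GL (I2 gg) ℤ_[l]} {P : ℤ[X]} {E : Type} [Field E] [NumberField E]

lemma cm3_cj (H : FrD p π P) (d : DF P p E) (a : 𝓞 E) {z : W} (hz : z ∈ Wp p) :
    nuA d π a *ᵥ nuA d π (d.cO a) *ᵥ z = Algebra.norm ℤ a • z ∧
      nuA d π (d.cO a) *ᵥ nuA d π a *ᵥ z = Algebra.norm ℤ a • z := by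
  refine (and_iff_left_of_imp fun h => ?_).2 (cm3_ext fun l => ?_)
  · rw [← h, mulVec_mulVec, mulVec_mulVec, nuA_eq, nuA_eq, d.nu_comm]
  · rw [mulVec_mulVec, cm_cp_mulVec, cm3_z]
    by_cases e : l = p
    · subst e
      rw [show cpv l z = 0 from funext fun i => hz i l rfl, mulVec_zero, smul_zero]
    · rw [Matrix.map_mul, nuA_eq, nuA_eq, cp_nu, cp_nu, d.cO_coe, d.nu_cj (H.root e),
        ← Algebra.coe_norm_int, map_intCast, ← zsmul_one, smul_mulVec, one_mulVec]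

variable {V0 : Submodule ℚ_[p] (Vl p)} {x : M8 ℚ_[p]}

lemma cm3_stab (h : ∀ y ∈ V0, x *ᵥ y ∈ V0) (g : ℚ[X]) {y : Vl p} (hy : y ∈ V0) :
    aeval x g *ᵥ y ∈ V0 := by
  induction g using Polynomial.induction_on with
  | C a =>
    rw [aeval_C, Algebra.algebraMap_eq_smul_one, smul_mulVec, one_mulVec]
    exact V0.smul_of_tower_mem a hy
  | add f g hf hg => rw [map_add, add_mulVec]; exact add_mem hf hg
  | monomial n a ih =>
    rw [pow_succ', mul_left_comm, map_mul, aeval_X, ← mulVec_mulVec]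
    exact h _ ih

lemma cm3_V0 (d : DF P p E) (h : ∀ y ∈ V0, x *ᵥ y ∈ V0)
    (hP : ∀ y, aeval x (P.map (Int.castRingHom ℚ)) *ᵥ y ∈ V0) {a β : E} (ha : a ≠ 0) {g : ℚ[X]}
    (hg : P.map (Int.castRingHom ℚ) ∣ d.f β * d.f (d.c a) - g) {r : ℚ} {y y' : Vl p}
    (H : aeval x (d.f a) *ᵥ y' - r • aeval x (d.f β) *ᵥ y ∈ V0) :
    y' - (r / Algebra.norm ℚ a) • aeval x g *ᵥ y ∈ V0 := by
  have k : ∀ {f g : ℚ[X]}, P.map (Int.castRingHom ℚ) ∣ f - g → ∀ y,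
      aeval x f *ᵥ y - aeval x g *ᵥ y ∈ V0 := fun ⟨s, hs⟩ y => by
    rw [← sub_mulVec, ← map_sub, hs, map_mul, ← mulVec_mulVec]
    exact hP _
  have h0 : Algebra.norm ℚ a ≠ 0 := Algebra.norm_ne_zero_iff.2 ha
  have h1 := k (d.f_cj a) y'
  have h2 := k hg y
  have h3 := cm3_stab h (d.f (d.c a)) H
  rw [aeval_C, Algebra.algebraMap_eq_smul_one, smul_mulVec, one_mulVec, mul_comm] at h1
  rw [mulVec_sub, mulVec_smul, mulVec_mulVec, mulVec_mulVec, ← map_mul, ← map_mul,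
    mul_comm _ (d.f β)] at h3
  convert V0.smul_of_tower_mem (Algebra.norm ℚ a)⁻¹
    (add_mem (sub_mem h3 h1) (V0.smul_of_tower_mem r h2)) using 1
  match_scalars <;> field_simp <;> ring

end

variable {τ : Matrix (Fin gg) (Fin gg) ℂ} {K : IntermediateField ℚ ℂ} {M : MumfordType τ K}
  {A : AR M} {v : Frb A} {R : FSys (kk v.w) v.p}

lemma cm3_two (v : Frb A) : p2 ≠ v.p := fun e => v.not_dvd_two (e ▸ dvd_rfl)

lemma cm3_nat {n : ℕ} (h : ‖(n : ℚ_[v.p])‖ = 1) : ¬ (v.p : ℕ) ∣ n :=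
  fun e => (Padic.norm_natCast_lt_one_iff.2 e).ne h

lemma NPt.red (hG : REDG) (hτ : Sieg τ) (hR : RedOf v R) {N : ℕ} {h : M8 AF} {F : W → Qbar}
    (H : NPt v N h F) :
    R.IsVec N h (fun x => rd v.w (F x)) ∧ (fun x => rd v.w (F x)) ≠ 0 := by
  have hi := fun t ht => H.vec.inv t ht fun _ l e => absurd e l.2.ne_zero
  refine ⟨⟨hG τ K M A hτ v R hR N (cm3_nat (H.pt.norm_N H.std)) F H.vec.mem (fun t ht => ?_) H.le,
    fun t ht _ => funext fun x => ?_⟩, fun e => ?_⟩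
  · obtain ⟨s, e⟩ := cm_surj H.pt.unit (sgv v.p t)
    have hs : s ∈ L0 := mem_L0.2 fun i l => by
      by_cases el : l = v.p
      · subst el
        exact (H.std (cpv _ s)).1 (by rwa [← cm_cp_mulVec, e, cm3_cs]) i
      · rw [cm_Wp_of (q := l) H.pt.unit (fun j l' e' => ?_) i l rfl, norm_zero]
        · exact zero_le_one
        · rw [e]
          exact cp_sg_ne (fun e2 => el (Subtype.ext (e'.symm.trans (congrArg _ e2)))) _
    rw [← e, hi s hs, e, cm3_sgn0 A.S (t := 0) (cm3_cs_ne (cm3_two v) t)]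
    simp [sgn, Qf]
  · rw [show R.e = v.eb from AddChar.ext _ _ hR.e, ← v.rd_rt N _ H.le, hi t ht]
    exact MTB.rd_mul (v.e_val _).le (H.le _)
  · obtain ⟨x, -, hx⟩ := H.one
    have := congrFun e x
    simp [hx, rd_eq] at this

lemma Fil.cm3_P (hV : VAN) (hR : RedOf v R) {P : ℤ[X]} (hP : IsCh v.p (M.ρ v.φ) P)
    {V0 : Submodule ℚ_[v.p] (Vl v.p)} (hF : Fil v R V0) (y : Vl v.p) :
    aeval (v.rp v.φ) (P.map (Int.castRingHom ℚ)) *ᵥ y ∈ V0 := by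
  have h := (hV _ v.p R P p2 (cm3_two v) (by
    rw [← aeval_map_algebraMap ℤ_[p2], algebraMap_int_eq, hR.π, ← hP _ (cm3_two v),
      aeval_self_charpoly])).2
  refine hF.max (LinearMap.range (mulVecLin _)) ?_ ⟨y, rfl⟩
  rintro _ ⟨y, rfl⟩
  rw [hR.π] at h
  exact (aeval_int_map PadicInt.Coe.ringHom (M.ρ v.φ v.p).val P).symm ▸ h y

theorem t_cm3 : T_CM3 := by
  intro hU hV hA hG τ K M A hτ v R hR P hP G V0 hF E _ _ d
  obtain ⟨k0, hk⟩ := hA _ v.p R P (hR.π ▸ hP) (cm_sep G d)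
  rw [hR.π] at hk
  obtain ⟨f, hf⟩ : ∃ f : ℕ, f = d.D.natAbs ^ 2 * (2 * v.p ^ (k0 + 1)) := ⟨_, rfl⟩
  have hfz : (f : ℤ) = d.D ^ 2 * (2 * ((v.p : ℕ) : ℤ) ^ (k0 + 1)) := by rw [hf]; simp
  have h2p : 2 * (v.p : ℕ) ∣ f :=
    hf ▸ (mul_dvd_mul_left 2 (dvd_pow_self _ k0.succ_ne_zero)).mul_left _
  refine ⟨f, hf ▸ mul_ne_zero (pow_ne_zero _ (Int.natAbs_ne_zero.2 d.D0))
    (mul_ne_zero two_ne_zero (pow_ne_zero _ v.p.2.ne_zero)), (dvd_mul_left _ _).trans h2p,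
    hfz ▸ dvd_mul_right _ _, fun N N' h h' F F' a β r HF HF' hc hb hn hL => ?_⟩
  have H := v.frD hP
  have un : ∀ l : Pr, l = p2 ∨ l = v.p → ‖((Algebra.norm ℤ a : ℤ) : ℚ_[l])‖ = 1 ∧
      ‖((Algebra.norm ℤ β : ℤ) : ℚ_[l])‖ = 1 ∧ ‖(r.num : ℚ_[l])‖ = 1 ∧ ‖(r.den : ℚ_[l])‖ = 1 := by
    intro l hl
    have h1 : (l : ℕ) ∣ f := by
      rcases hl with rfl | rfl
      exacts [(dvd_mul_right _ _).trans h2p, (dvd_mul_left _ _).trans h2p]
    refine ⟨cm_int_unit (cm_norm_cop hc) h1, cm_int_unit (cm_norm_cop (cm_cop hc hb)) h1,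
      cm_rat_unit (cm_r_unit hc hb h1 ?_ ?_ hn)⟩ <;> rcases hl with rfl | rfl
    exacts [HF.pt.norm_two, HF.pt.norm_N HF.std, HF'.pt.norm_two, HF'.pt.norm_N HF'.std]
  obtain ⟨a2, -, r2, s2⟩ := un p2 (.inl rfl)
  obtain ⟨ap, bp, rp, sp⟩ := un v.p (.inr rfl)
  have ne : ∀ {z : ℤ}, ‖(z : ℚ_[v.p])‖ = 1 → z ≠ 0 := fun h e => by simp [e] at h
  have lp : ∀ {z : ℤ}, ‖(z : ℚ_[v.p])‖ = 1 → ∀ l : Pr, (l : ℕ) = v.p → ‖(z : ℚ_[l])‖ = 1 :=
    fun h l e => by obtain rfl : l = v.p := Subtype.ext e; exact h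
  have ha0 : (a : E) ≠ 0 := fun e => ne ap (by
    have := Algebra.coe_norm_int a
    rw [e, Algebra.norm_zero] at this
    exact_mod_cast this)
  rw [← Algebra.coe_norm_int, ← Algebra.coe_norm_int] at hn
  have hpos : 0 < Algebra.norm ℤ a * Algebra.norm ℤ β := by
    refine (mul_ne_zero (ne ap) (ne bp)).lt_of_le' ?_
    have h1 : (0 : ℚ) < N := Nat.cast_pos.2 HF.pt.odd.pos
    have : (0 : ℚ) ≤ N * (Algebra.norm ℤ a * Algebra.norm ℤ β) := by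
      rw [← mul_assoc, ← hn, mul_assoc, ← sq]; positivity
    exact_mod_cast (mul_nonneg_iff_of_pos_left h1).1 this
  obtain ⟨B, m, q, g, rfl, rfl, hm, g1, g2, g3, g4, g5, g6, g7⟩ := cm3b H d k0
    (by rwa [← hfz, Int.cast_natCast]) (hc.of_isCoprime_of_dvd_right (Nat.cast_dvd_cast h2p)) hpos
  have cj := fun z hz => cm3_cj H d a (z := z) hz
  have hV0 := fun y y' => cm3_V0 d hF.frob (hF.cm3_P hV hR hP) ha0 g5 (r := r) (y := y) (y' := y')
  have e0 := (cm3b_cp (M.ρ v.φ) v.p (C (Algebra.norm ℤ a) + C (((v.p : ℕ) : ℤ) ^ k0) * B)).trans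
    (aeval_int_map PadicInt.Coe.ringHom _ _).symm
  erw [← e0, ← Algebra.coe_norm_int] at hV0
  clear e0
  have mp : ‖(m : ℚ_[v.p])‖ = 1 := by
    rw [← Int.cast_natCast, hm, Int.cast_mul, norm_mul, ap, bp, mul_one]
  have hth := hk _ B m (v.nat_ne (cm3_nat mp)) g1
  generalize aeval (mA (M.ρ v.φ)) (C (Algebra.norm ℤ a) + C (((v.p : ℕ) : ℤ) ^ k0) * B) = g at *
  generalize Algebra.norm ℤ a = n at *
  have sg : CmSim R.toTSys m (g.mulVecLin.restrictScalars ℚ) :=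
    ⟨hth, fun x y => cm3_e _ fun l hl => by
      change cp l (Ef (g *ᵥ x) (g *ᵥ y)) = _
      rw [cm_cp_Ef, cm_cp_mulVec, cm_cp_mulVec, g2 l fun e => hl (congrArg _ e), map_smul,
        cm_cp_Ef, Rat.smul_def, Rat.cast_natCast], g6, fun s hs i l e => by
      obtain rfl : l = v.p := Subtype.ext e
      exact g7 s (fun i => hs i _ rfl) i⟩
  have sT := (cmSim_smul R.toTSys (ne rp) (lp rp)).trans sg
  have n0 : (n : ℚ) ≠ 0 := Int.cast_ne_zero.2 (ne ap)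
  have d0 : (r.den : ℚ) ≠ 0 := Nat.cast_ne_zero.2 r.den_nz
  have cp' : ‖((n * r.den : ℤ) : ℚ_[v.p])‖ = 1 := by push_cast; rw [norm_mul, ap, sp, mul_one]
  obtain ⟨V1, n1⟩ := HF.red hG hτ hR
  obtain ⟨V2, n2⟩ := HF'.red hG hτ hR
  obtain ⟨c, hc⟩ := cm_uniq hU sT (ne cp') (lp cp') (N := N) (N' := N') (by
      have h1 : (m : ℚ) = n * Algebra.norm ℤ β := by exact_mod_cast hm
      zify
      rw [sq_abs, sq_abs]
      qify
      rw [← Rat.mul_den_eq_num, h1]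
      linear_combination (-n * r.den ^ 2 : ℚ) * hn)
    (v.nat_ne (cm3_nat (by
      rw [Nat.cast_mul, Nat.cast_mul, norm_mul, norm_mul, mp, HF'.pt.norm_N HF'.std,
        ← Int.cast_natCast, Nat.cast_pow, Int.natAbs_pow_two, Int.cast_pow, norm_pow, rp]
      simp))) HF.pt V1 n1 V2.mem fun t ht s hs e => by
    obtain ⟨s', e'⟩ := cm_surj HF'.pt.unit (r.num • g *ᵥ t)
    have w' : h' *ᵥ s' ∈ Wp v.p := e' ▸ zsmul_mem (cm_Wp g ht) _
    have hs' := (hL s (cm_Wp_of HF.pt.unit (e ▸ zsmul_mem ht _)) s' (cm_Wp_of HF'.pt.unit w') (by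
      rw [e, e', g3 t ht, cm3_mz, cm3_mz, (cj _ (cm_Wp _ ht)).1,
        ← Int.cast_smul_eq_zsmul ℚ r.num, ← Rat.mul_den_eq_num]
      module)).1 hs
    have h1 := V2.inv s' hs' w'
    rw [e'] at h1
    refine h1.trans (congrArg (· • _) ?_)
    obtain ⟨X, hX⟩ := g4 p2 (dvd_mul_right _ _)
    obtain ⟨j, hj⟩ := (cm3_odd r2).sub_odd (cm3_odd (z := r.den) (by exact_mod_cast s2))
    have h2 : ∀ i, ((n * r.den : ℤ) • t) i ∈ Z2 := e ▸ HF.pt.z2 hs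
    have h3 : ∀ i, ‖cpv p2 t i‖ ≤ 1 := fun i => cm_Wi_of (q := p2) (c := n * r.den) (fun l e => by
      obtain rfl : l = p2 := Subtype.ext e
      push_cast; rw [norm_mul, a2, s2, mul_one]) (fun i l e => by
      obtain rfl : l = p2 := Subtype.ext e
      exact h2 i) i p2 rfl
    refine cm3_sgn _ (w := (j * n) • cpv p2 t + r.num • X.map (↑) *ᵥ cpv p2 t) h2
      (fun i => add_mem (s := PadicInt.subring p2) (zsmul_mem (h3 i) _)
        (zsmul_mem (cm3b_int X h3 i) _)) ?_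
    rw [cm3_z, cm3_z, cm_cp_mulVec, hX, add_mulVec, smul_mulVec, smul_mulVec, one_mulVec,
      eq_add_of_sub_eq hj, show ((p2 : ℕ) : ℚ_[p2]) = 2 from rfl]
    module
  have c0 : c ≠ 0 := fun e => n2 (funext fun y => by
    obtain ⟨x, rfl⟩ := sT.surj y
    exact (hc x).trans (by rw [e, zero_mul]; rfl))
  obtain ⟨u, hu, rfl⟩ := MTB.exists_rd c
  refine ⟨u, (rd_ne_iff v.w hu).1 c0, fun z hz z' hz' y y' e ey => ?_⟩
  refine (rd_eq_rd v.w (HF'.le _) (by rw [map_mul]; exact mul_le_one' hu (HF.le _))).1 ?_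
  have h1 := hc (((n * r.den : ℤ) : ℚ)⁻¹ • (z + sgv v.p y))
  have h2 := R.G_K0 rfl (hF.le _ (hV0 y y' ey)) V2.mem
  have h3 : n • z' = r • g *ᵥ z := by rw [← (cj _ hz').2, e, mulVec_smul, g3 z hz]
  rw [cm_unsmul (ne cp')] at h1
  refine .trans ?_ (h1.trans (MTB.rd_mul hu (HF.le _)).symm)
  refine (congrArg (fun x => rd v.w (F' x)) ?_).trans (h2 _)
  change _ = r.num • g *ᵥ _ + _
  rw [mulVec_smul, mulVec_add, cm3_mul_sg, ← inv_smul_smul₀ n0 z',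
    Int.cast_smul_eq_zsmul ℚ n z', h3]
  refine cm3_ext fun l => ?_
  simp only [cm3_add, cm3_q, cm3_z]
  rw [← Int.cast_smul_eq_zsmul ℚ r.num, ← Rat.mul_den_eq_num]
  by_cases el : l = v.p
  · subst el
    simp only [cm3_cs]
    match_scalars <;> field_simp <;> ring
  · simp only [cm3_cs_ne el]
    match_scalars <;> field_simp

end Pool.Agent.MT
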