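import Pool.Agent.Lib.MP_d61fbb_ag.MN.CMu
import Pool.Agent.Lib.MP_d61fbb_ag.MN.BLat

/-! The bridge to block C: similitudes of abstract theta systems. -/

set_option autoImplicit false

noncomputable section

namespace Pool.Agent.MT

variable [Dim]

open Matrix Sum

variable {k : Type} [Field k] {q : ℕ}

section
variable {e : AddChar AF k} {Θ : W → k} {f g : W → k} {b b' : W}

/-- theta functions of weight `n` whose class is `b` up to vectors that are integral at `q` -/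
def cmG (q : ℕ) (e : AddChar AF k) (Θ : W → k) (b : W) (n : ℤ) : Submodule k (W → k) :=
  Submodule.span k {f | ∃ L, wt L = n ∧ cl L - b ∈ Wi q ∧ f = gen e Θ L}

lemma cmG_eq (hb : b ∈ Wi q) (n : ℕ) : cmG q e Θ b n = Gs q e Θ n := by
  unfold cmG Gs
  congr 1
  ext f
  exact exists_congr fun L => and_congr_right fun _ => and_congr_left fun _ =>
    ⟨fun h => show cl L ∈ Wi q by simpa using add_mem h hb,
      fun h => sub_mem (show cl L ∈ Wi q from h) hb⟩

lemma cmG_mul {n n' : ℤ} (hf : f ∈ cmG q e Θ b n) (hg : g ∈ cmG q e Θ b' n') :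
    f * g ∈ cmG q e Θ (b + b') (n + n') := by
  refine span_mul_mem ?_ hf hg
  rintro _ ⟨L, a, c, rfl⟩ _ ⟨L', a', c', rfl⟩
  exact Submodule.subset_span ⟨L + L', by rw [wt_add, a, a'],
    by rw [cl_add, add_sub_add_comm]; exact add_mem c c', (gen_add _ _).symm⟩

lemma cmG_Rt {n : ℕ} (s : W) (hf : f ∈ cmG q e Θ b n) : Rt e n s f ∈ cmG q e Θ (b + n • s) n := by
  refine span_Rt_mem ?_ hf
  rintro _ ⟨L, a, c, rfl⟩
  rw [Rt_gen a]
  refine Submodule.smul_mem _ _ (Submodule.subset_span ⟨_, (wt_shf _ _).trans a, ?_, rfl⟩)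
  rwa [cl_shf, a, natCast_zsmul, add_sub_add_right_eq_sub]

lemma cmG_dil {n : ℤ} (c : ℤ) (hf : f ∈ cmG q e Θ b n) :
    (fun x => f (c • x)) ∈ cmG q e Θ (c • b) (c ^ 2 * n) := by
  refine (Submodule.span_le (p := (cmG q e Θ (c • b) (c ^ 2 * n)).comap
    (LinearMap.funLeft k k fun x : W => c • x))).2 ?_ hf
  rintro _ ⟨L, a, h, rfl⟩
  have h1 : ∀ L : Multiset (ℤ × W), wt (L.map fun z => (z.1 * c, z.2)) = c ^ 2 * wt L ∧
      cl (L.map fun z => (z.1 * c, z.2)) = c • cl L := fun L => by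
    induction L using Multiset.induction_on with
    | empty => simp [wt, cl]
    | cons c L ih =>
      simp only [wt, cl, Multiset.map_cons, Multiset.sum_cons] at ih ⊢
      rw [ih.1, ih.2]
      exact ⟨by ring, by module⟩
  refine Submodule.subset_span ⟨L.map fun z => (z.1 * c, z.2), by rw [(h1 L).1, a], ?_,
    funext fun x => ?_⟩
  · rw [(h1 L).2, show c • cl L - c • b = c • (cl L - b) by module]
    exact zsmul_mem h c
  · simp only [LinearMap.funLeft_apply, gen, Multiset.map_map, Function.comp_def, mul_smul]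

end

lemma cm_Wp (g : M8 AF) {x : W} (hx : x ∈ Wp q) : g *ᵥ x ∈ Wp q := fun i l h => by
  simp [mulVec, dotProduct, hx _ l h]

lemma cm_Wp_of {g : M8 AF} (hg : IsUnit g) {x : W} (hx : g *ᵥ x ∈ Wp q) : x ∈ Wp q := by
  obtain ⟨g, rfl⟩ := hg
  have := cm_Wp (g⁻¹).val hx
  rwa [mulVec_mulVec, Units.inv_mul, one_mulVec] at this

lemma cm_surj {g : M8 AF} (hg : IsUnit g) (y : W) : ∃ x, g *ᵥ x = y := by
  obtain ⟨g, rfl⟩ := hg
  exact ⟨(g⁻¹).val *ᵥ y, by rw [mulVec_mulVec, Units.mul_inv, one_mulVec]⟩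

/-- A similitude that preserves the theta functions. -/
structure CmSim (S : TSys k q) (m : ℕ) (T : W →ₗ[ℚ] W) : Prop where
  th : (fun x => S.Θ (T x)) ∈ S.G m
  e : ∀ x y, S.e (Ef (T x) (T y)) = S.e ((m : ℚ) • Ef x y)
  surj : Function.Surjective T
  int : ∀ s, T s ∈ Wi q → s ∈ Wi q

variable {S : TSys k q} {m : ℕ} {T : W →ₗ[ℚ] W}

lemma CmSim.rt (h : CmSim S m T) (n : ℕ) (t : W) (f : W → k) :
    Rt S.e (m * n) t (fun x => f (T x)) = fun x => Rt S.e n (T t) f (T x) := by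
  funext x
  rw [Rt, Rt, map_add, ← Ef_q_left _ (T x), ← map_smul, h.e, Ef_q_left, smul_smul, Nat.cast_mul,
    mul_div_assoc]

lemma CmSim.gen (h : CmSim S m T) (L : Multiset (ℤ × W)) : ∃ b, T b = cl L ∧
    (fun x => gen S.e S.Θ L (T x)) ∈ cmG q S.e S.Θ (m • b) (wt L * m) := by
  induction L using Multiset.induction_on with
  | empty => exact ⟨0, by simp [cl], Submodule.subset_span ⟨0, by simp [wt], by simp [cl],
      funext fun x => by simp [MT.gen]⟩⟩
  | cons c L ih =>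
    obtain ⟨b, e, hb⟩ := ih
    obtain ⟨s, hs⟩ := h.surj c.2
    have h1 := cmG_mul (cmG_dil c.1 (cmG_Rt s ((cmG_eq (zero_mem _) m).ge h.th))) hb
    refine ⟨c.1 • s + b, by rw [map_add, map_zsmul, hs, e, cl, cl, Multiset.map_cons,
      Multiset.sum_cons], ?_⟩
    convert h1 using 2
    · module
    · simp only [wt, Multiset.map_cons, Multiset.sum_cons]; ring
    · have := congrFun (h.rt 1 s S.Θ)
      simp only [mul_one] at this
      simp only [MT.gen, Multiset.map_cons, Multiset.prod_cons, Pi.mul_apply, this, hs, map_zsmul]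

lemma CmSim.comp (h : CmSim S m T) {n : ℕ} {f : W → k} (hf : f ∈ S.G n) :
    (fun x => f (T x)) ∈ S.G (m * n) := by
  refine (Submodule.span_le (p := (S.G (m * n)).comap (LinearMap.funLeft k k T))).2 ?_ hf
  rintro _ ⟨L, a, c, rfl⟩
  obtain ⟨b, e, hb⟩ := h.gen L
  rwa [a, mul_comm, ← Nat.cast_mul, cmG_eq (nsmul_mem (h.int b (e ▸ c)) m)] at hb

lemma CmSim.trans (h : CmSim S m T) {m' : ℕ} {T' : W →ₗ[ℚ] W} (h' : CmSim S m' T') :
    CmSim S (m' * m) (T ∘ₗ T') where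
  th := h'.comp h.th
  e x y := by
    rw [LinearMap.comp_apply, LinearMap.comp_apply, h.e, ← Ef_q_left, ← map_smul, h'.e, Ef_q_left,
      smul_smul, Nat.cast_mul]
  surj := h.surj.comp h'.surj
  int s hs := h'.int _ (h.int _ hs)

lemma cm_Wi_of {c : ℤ} (hc : ∀ l : Pr, (l : ℕ) = q → ‖(c : ℚ_[l])‖ = 1) {s : W}
    (hs : c • s ∈ Wi q) : s ∈ Wi q := fun i l h => by
  have := hs i l h
  rwa [Pi.smul_apply, map_zsmul, zsmul_eq_mul, norm_mul, hc l h, one_mul] at this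

lemma cm_unsmul {c : ℤ} (h0 : c ≠ 0) (y : W) : c • (c : ℚ)⁻¹ • y = y := by
  rw [← Int.cast_smul_eq_zsmul ℚ, smul_inv_smul₀ (Int.cast_ne_zero.2 h0)]

lemma cmSim_smul (S : TSys k q) {c : ℤ} (h0 : c ≠ 0)
    (hc : ∀ l : Pr, (l : ℕ) = q → ‖(c : ℚ_[l])‖ = 1) :
    CmSim S (c.natAbs ^ 2) (c • LinearMap.id) where
  th := by
    have := cmG_dil c ((cmG_eq (zero_mem _) 1).ge S.Θ_mem)
    rwa [smul_zero, Nat.cast_one, mul_one, ← Int.natAbs_pow_two, ← Nat.cast_pow,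
      cmG_eq (zero_mem _)] at this
  e x y := by
    change S.e (Ef (c • x) (c • y)) = _
    rw [Ef_z_left, Ef_z_right, smul_smul, ← Int.cast_mul, ← sq, ← Int.natAbs_pow_two]
    norm_cast
  surj y := ⟨_, cm_unsmul h0 y⟩
  int _ := cm_Wi_of hc

lemma TSys.G_K0 (S : TSys k q) {l : Pr} (hl : (l : ℕ) = q) {d : Vl l} (hd : d ∈ S.K0 l) {n : ℕ}
    {f : W → k} (hf : f ∈ S.G n) (x : W) : f (x + sgv l d) = f x := by
  refine congrFun ((Submodule.span_le (p := LinearMap.eqLocus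
    (LinearMap.funLeft k k fun x : W => x + sgv l d) LinearMap.id)).2 ?_ hf) x
  rintro _ ⟨L, -, -, rfl⟩
  funext x
  refine congrArg Multiset.prod (Multiset.map_congr rfl fun c _ => ?_)
  have e : c.1 • sgv l d = sgv l (c.1 • d) := funext fun i => (map_zsmul (sg l) c.1 (d i)).symm
  rw [Rt, Rt, zs_add, e, add_right_comm, zsmul_mem hd c.1, Ef_add_right, smul_add,
    AddChar.map_add_eq_mul, S.e_one (x := _ • Ef c.2 (sgv _ _)), mul_one]
  intro l' h
  have : cpv l' (sgv l (c.1 • d)) = 0 :=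
    funext fun i => cp_sg_ne (fun e => h (by rw [e, hl])) _
  rw [map_smul, cm_cp_Ef, this, Ef_zero_right, smul_zero, norm_zero]
  exact zero_le_one

/-- two theta vectors that correspond under a similitude are proportional -/
theorem cm_uniq (hU : UNIQ) (s : CmSim S m T) {c : ℤ} (h0 : c ≠ 0)
    (hc : ∀ l : Pr, (l : ℕ) = q → ‖(c : ℚ_[l])‖ = 1) {N N' : ℕ} (hw : c.natAbs ^ 2 * N = m * N')
    (hk : ((m * N' : ℕ) : k) ≠ 0) {h : M8 AF} (P : Pt N h) {F F' : W → k} (hF : S.IsVec N h F)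
    (F0 : F ≠ 0) (hF' : F' ∈ S.G N')
    (iF : ∀ t ∈ Wp q, ∀ s ∈ L0, h *ᵥ s = c • t → Rt S.e N' (T t) F' = sgn S.e (c • t) • F') :
    ∃ a : k, ∀ x, F' (T x) = a * F (c • x) := by
  have s0 := cmSim_smul S h0 hc
  refine (hU k q S (m * N') hk ((Wp q).toAddSubgroup ⊓
    (L0.map h.mulVecLin.toAddMonoidHom).comap (c • LinearMap.id : W →ₗ[ℚ] W).toAddMonoidHom)
    (fun t ht => ht.1) (fun x hx H => ?_) (fun t => sgn S.e (c • t)) _ _ (hw ▸ s0.comp hF.mem)
    (s.comp hF') (fun e => F0 (funext fun y => ?_)) ?_ ?_).imp fun a ha => congrFun ha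
  · obtain ⟨x', e⟩ := cm_surj P.unit (c • x)
    obtain ⟨u, hu⟩ := P.sim
    refine ⟨hx, x', Wp_L0 (cm_Wp_of P.unit (e ▸ zsmul_mem hx c))
      (mem_of_Ef fun t ht ht' l hl => ?_), e⟩
    have h1 := (S.ker _).1 (H ((c : ℚ)⁻¹ • h *ᵥ t)
      ⟨Wp_qsmul _ (cm_Wp h ht'), t, ht, (cm_unsmul h0 _).symm⟩) l hl
    have h2 : ((m * N' : ℕ) : ℚ) • Ef ((c : ℚ)⁻¹ • h *ᵥ t) x = zA u * Ef t x' := by
      rw [← hu, e, ← hw, Ef_q_left, Ef_z_right, ← nsmul_eq_mul, ← Nat.cast_smul_eq_nsmul ℚ,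
        smul_smul, smul_smul]
      have : (c : ℚ) ≠ 0 := Int.cast_ne_zero.2 h0
      congr 1
      rw [Nat.cast_mul, ← Int.cast_natCast, Nat.cast_pow, Int.natAbs_pow_two]
      push_cast
      field_simp
    have h3 : ‖cp l (zA u)‖ = 1 := PadicInt.isUnit_iff.1 (u.isUnit.map (Pi.evalRingHom _ l))
    rwa [h2, map_mul, norm_mul, h3, one_mul] at h1
  · obtain ⟨x, rfl⟩ := s0.surj y
    exact congrFun e x
  · rintro t ⟨ht, s, hs, e⟩
    have e' : h *ᵥ s = c • t := e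
    have := hF.inv s hs (e' ▸ zsmul_mem (show t ∈ Wp q from ht) c)
    rw [← hw]
    exact (s0.rt N t F).trans (funext fun x => congrFun (e' ▸ this) _)
  · rintro t ⟨ht, s', hs, e⟩
    rw [s.rt, iF t ht s' hs e]
    rfl

end Pool.Agent.MT
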