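import Pool.Agent.Lib.MP_d61fbb_ag.MN.CM1
import Pool.Agent.Lib.MP_d61fbb_ag.MN.CM3
import Pool.Agent.Lib.MP_d61fbb_ag.MN.CM4
import Pool.Agent.Lib.MP_d61fbb_ag.MN.Top

/-! The bridge to block C: the four parts together. -/

set_option autoImplicit false

namespace Pool.Agent.MT

variable [Dim]

theorem t_cm_of (h2 : T_CM2) : T_CM := fun _ hU _ _ gh hV hA r1 r2 r3 hO =>
  t_cm4 (t_cm1 hV) (h2 hU gh) (t_cm3 hU hV hA r3) r1 r2 hO

end Pool.Agent.MT
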