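import Pool.Agent.Lib.MP_d61fbb_ag.MT.A6
import Pool.Agent.Lib.MP_d61fbb_ag.MT.DKp

/-! A symplectic basis that diagonalises the tensor powers of the diagonal matrices. -/

set_option autoImplicit false

noncomputable section

open Matrix Module

namespace Pool.Agent.MN

open Pool.Agent.MT

theorem car_idem {R n : Type*} [CommRing R] [IsDomain R] [IsPrincipalIdealRing R] [Fintype n]
    [DecidableEq n] {p : Matrix n n R} (hp : p * p = p) :
    ∃ (r : ℕ) (B : Matrix n (Fin r) R) (C : Matrix (Fin r) n R),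
      B * C = p ∧ C * B = 1 ∧ p.trace = r := by
  let b := Module.finBasis R (LinearMap.range p.mulVecLin)
  let e := Pi.basisFun R n
  have h1 : LinearMap.toMatrix b e (Submodule.subtype _) *
      LinearMap.toMatrix e b p.mulVecLin.rangeRestrict = p := by
    rw [← LinearMap.toMatrix_comp, LinearMap.subtype_comp_codRestrict]
    exact LinearMap.toMatrix'_toLin' p
  have h2 : LinearMap.toMatrix e b p.mulVecLin.rangeRestrict *
      LinearMap.toMatrix b e (Submodule.subtype _) = 1 := by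
    rw [← LinearMap.toMatrix_comp, ← LinearMap.toMatrix_id b]
    congr 1
    ext1 ⟨_, x, rfl⟩
    exact Subtype.ext (by simp [hp])
  exact ⟨_, _, _, h1, h2, (congrArg trace h1).symm.trans (by
    rw [trace_mul_comm, h2, trace_one, Fintype.card_fin])⟩

/-- A Lagrangian projector `B * C` gives a symplectic basis. -/
theorem car_lagr {R : Type*} [CommRing R] {g : ℕ} {B : Matrix (I2 g) (Fin g) R}
    {C : Matrix (Fin g) (I2 g) R} (h1 : C * B = 1)
    (h2 : (B * C)ᵀ * J (Fin g) R = J (Fin g) R * (1 - B * C)) :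
    GS 1 (fromCols B (J (Fin g) R * Cᵀ)) ∧ ∀ (A A' : Matrix (I2 g) (I2 g) R) (d : Fin g → R),
      Aᵀ * J (Fin g) R = J (Fin g) R * A' → C * A = diagonal d * C →
      A' * (J (Fin g) R * Cᵀ) = J (Fin g) R * Cᵀ * diagonal d := by
  have sw : ∀ {A A' : Matrix (I2 g) (I2 g) R}, Aᵀ * J (Fin g) R = J (Fin g) R * A' →
      A' * J (Fin g) R = J (Fin g) R * Aᵀ := fun {A A'} h => by
    have := congrArg (fun X => J (Fin g) R * X * J (Fin g) R) h
    simpa only [Matrix.mul_assoc, J_squared, ← Matrix.mul_assoc (J _ _) (J _ _), mul_neg, neg_mul,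
      Matrix.mul_one, Matrix.one_mul, neg_inj, eq_comm] using this
  have h3 : Bᵀ * Cᵀ = 1 := by rw [← transpose_mul, h1, transpose_one]
  refine ⟨?_, fun A A' d e e' => by
    rw [← Matrix.mul_assoc, sw e, Matrix.mul_assoc, ← transpose_mul, e', transpose_mul,
      diagonal_transpose, Matrix.mul_assoc]⟩
  have a1 : Bᵀ * J (Fin g) R * B = 0 := by
    have := congrArg (fun X => Bᵀ * X * B) h2
    simpa only [transpose_mul, ← Matrix.mul_assoc, h3, Matrix.one_mul, Matrix.mul_sub,
      Matrix.sub_mul, Matrix.mul_one, Matrix.mul_assoc _ C B, h1, sub_self] using this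
  have a2 : C * J (Fin g) R * Cᵀ = 0 := by
    have := congrArg (fun X => C * X * Cᵀ) (sw h2).symm
    simpa only [transpose_mul, ← Matrix.mul_assoc, h1, Matrix.one_mul, Matrix.mul_sub,
      Matrix.sub_mul, Matrix.mul_one, Matrix.mul_assoc _ Bᵀ Cᵀ, h3, sub_self, Matrix.zero_mul] using this
  have a3 : ∀ {m : Type} (X : Matrix m (I2 g) R), X * J (Fin g) R * J (Fin g) R = -X := fun X => by
    rw [Matrix.mul_assoc, J_squared, Matrix.mul_neg, Matrix.mul_one]
  rw [gs_iff, transpose_fromCols, fromRows_mul, fromRows_mul_fromCols, a1, transpose_mul,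
    transpose_transpose, J_transpose]
  simp only [← Matrix.mul_assoc, a3, Matrix.mul_neg, Matrix.neg_mul, neg_neg, h1, h3, a2, one_smul]
  rfl

theorem car_inj (l : ℕ) [Fact l.Prime] :
    Function.Injective (algebraMap ℤ_[l] (PadicAlgCl l)) := by
  rw [IsScalarTower.algebraMap_eq ℤ_[l] ℚ_[l] (PadicAlgCl l)]
  exact (algebraMap ℚ_[l] (PadicAlgCl l)).injective.comp Subtype.val_injective

theorem car_norm {l : ℕ} [Fact l.Prime] (x : ℤ_[l]) :
    ‖algebraMap ℤ_[l] (PadicAlgCl l) x‖ = ‖x‖ := by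
  rw [IsScalarTower.algebraMap_apply ℤ_[l] ℚ_[l] (PadicAlgCl l)]
  exact PadicAlgCl.norm_extends l (x : ℚ_[l])

/-- the number of ones -/
def cwt {n : ℕ} (d : Fin n → Fin 2) : ℕ := ∑ i, (d i : ℕ)

/-- the opposite vertex -/
def cfl {n : ℕ} (d : Fin n → Fin 2) : Fin n → Fin 2 := fun i => (d i).rev

theorem cwt_cfl {n : ℕ} (d : Fin n → Fin 2) : cwt (cfl d) + cwt d = n := by
  have h : ∀ x : Fin 2, (x.rev : ℕ) + x = 1 := by decide
  simp only [cwt, cfl, ← Finset.sum_add_distrib, h]
  simp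

theorem car_prod {R : Type*} [CommRing R] {n : ℕ} (a b : R) (d : Fin n → Fin 2) :
    ∏ i, ![a, b] (d i) = a ^ (n - cwt d) * b ^ cwt d := by
  have h : ∀ x : Fin 2, ![a, b] x = a ^ (x.rev : ℕ) * b ^ (x : ℕ) := by
    simp [Fin.forall_fin_two]
  have e : n - cwt d = cwt (cfl d) := by have := cwt_cfl d; omega
  simp only [h, e, Finset.prod_mul_distrib, Finset.prod_pow_eq_pow_sum]
  rfl

/-- An integral symplectic identification with a tensor power. -/
structure CarF (l : ℕ) [Fact l.Prime] (g n : ℕ) where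
  U : Matrix (I2 g) (Fin n → Fin 2) (PadicAlgCl l)
  U' : Matrix (Fin n → Fin 2) (I2 g) (PadicAlgCl l)
  mul_inv : U * U' = 1
  inv_mul : U' * U = 1
  int : ∀ i j, ‖U i j‖ ≤ 1
  int' : ∀ i j, ‖U' i j‖ ≤ 1
  symp : ∃ u : PadicAlgCl l, Uᵀ * J (Fin g) (PadicAlgCl l) * U = u • kp fun _ : Fin n => J2 _

namespace CarF

variable {l : ℕ} [Fact l.Prime] {g n : ℕ} (D : CarF l g n)

/-- `X` is diagonal in the tensor basis -/
def Rp (X : Matrix (I2 g) (I2 g) ℤ_[l]) (f : (Fin n → Fin 2) → ℤ_[l]) : Prop :=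
  X.map (algebraMap _ (PadicAlgCl l)) = D.U * (diagonal f).map (algebraMap _ (PadicAlgCl l)) * D.U'

variable {D} {X Y : Matrix (I2 g) (I2 g) ℤ_[l]} {f h : (Fin n → Fin 2) → ℤ_[l]}

theorem Rp.mul (a : D.Rp X f) (b : D.Rp Y h) : D.Rp (X * Y) (f * h) := by
  rw [Rp, Matrix.map_mul, a, b, Pi.mul_def, ← diagonal_mul_diagonal, Matrix.map_mul]
  simp only [Matrix.mul_assoc, ← Matrix.mul_assoc D.U', D.inv_mul, Matrix.one_mul]

theorem Rp.add (a : D.Rp X f) (b : D.Rp Y h) : D.Rp (X + Y) (f + h) := by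
  rw [Rp, Matrix.map_add _ (map_add _), a, b, Pi.add_def, ← diagonal_add,
    Matrix.map_add _ (map_add _), Matrix.mul_add, Matrix.add_mul]

theorem Rp.smul (a : D.Rp X f) (c : ℤ_[l]) : D.Rp (c • X) (c • f) := by
  rw [Rp, diagonal_smul, Matrix.map_smul' _ _ _ (map_mul _), Matrix.map_smul' _ _ _ (map_mul _), a,
    Matrix.mul_smul, Matrix.smul_mul]

theorem Rp.ext (a : D.Rp X f) (b : D.Rp Y h) (e : f = h) : X = Y :=
  Matrix.map_injective (car_inj l) (a.trans (e ▸ b.symm))

theorem rp_one : D.Rp 1 1 := by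
  rw [Rp, Pi.one_def, diagonal_one, Matrix.map_one _ (map_zero _) (map_one _),
    Matrix.map_one _ (map_zero _) (map_one _), Matrix.mul_one, D.mul_inv]

theorem rp_zero : D.Rp 0 0 := by simpa using (rp_one (D := D)).smul 0

theorem rp_sum {ι : Type*} (s : Finset ι) {X : ι → Matrix (I2 g) (I2 g) ℤ_[l]}
    {f : ι → (Fin n → Fin 2) → ℤ_[l]} (H : ∀ i, D.Rp (X i) (f i)) :
    D.Rp (∑ i ∈ s, X i) (∑ i ∈ s, f i) := by
  classical
  induction s using Finset.induction_on with
  | empty => simpa using rp_zero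
  | insert a s ha ih => rw [Finset.sum_insert ha, Finset.sum_insert ha]; exact (H a).add ih

theorem Rp.adj (a : D.Rp X f) (b : D.Rp Y fun d => f (cfl d)) :
    Xᵀ * J (Fin g) ℤ_[l] = J (Fin g) ℤ_[l] * Y := by
  obtain ⟨u, hu⟩ := D.symp
  have k : ((diagonal f).map (algebraMap _ (PadicAlgCl l)))ᵀ * (kp fun _ : Fin n => J2 _) =
      (kp fun _ : Fin n => J2 _) *
        (diagonal fun d => f (cfl d)).map (algebraMap _ (PadicAlgCl l)) := by
    rw [diagonal_map (map_zero _), diagonal_map (map_zero _), diagonal_transpose]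
    ext x y
    rw [diagonal_mul, mul_diagonal, mul_comm]
    by_cases e : cfl y = x
    · rw [e]
    · obtain ⟨i, hi⟩ := Function.ne_iff.1 e
      have : ∀ a b : Fin 2, b.rev ≠ a → J2 (PadicAlgCl l) a b = 0 := by
        simp [Fin.forall_fin_two, J2]
      rw [kp_apply, Finset.prod_eq_zero (Finset.mem_univ i) (this _ _ hi), zero_mul, zero_mul]
  refine Matrix.map_injective (car_inj l) ?_
  beta_reduce
  rw [Matrix.map_mul, Matrix.map_mul, transpose_map, a, b, map_J, transpose_mul, transpose_mul]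
  calc _ = D.U'ᵀ * (((diagonal f).map (algebraMap _ (PadicAlgCl l)))ᵀ *
          (D.Uᵀ * J (Fin g) (PadicAlgCl l) * D.U)) * D.U' := by
        simp only [Matrix.mul_assoc, D.mul_inv, Matrix.mul_one]
    _ = D.U'ᵀ * ((D.Uᵀ * J (Fin g) (PadicAlgCl l) * D.U) *
          (diagonal fun d => f (cfl d)).map (algebraMap _ (PadicAlgCl l))) * D.U' := by
        rw [hu, Matrix.mul_smul, Matrix.smul_mul, k]
    _ = _ := by
        simp only [← Matrix.mul_assoc, ← transpose_mul, D.mul_inv, transpose_one, Matrix.one_mul]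

theorem Rp.div {c : ℤ_[l]} (a : D.Rp X (c • f)) (hc : c ≠ 0) : ∃ Y, D.Rp Y f := by
  have e : X.map (algebraMap _ (PadicAlgCl l)) = algebraMap _ (PadicAlgCl l) c •
      (D.U * (diagonal f).map (algebraMap _ (PadicAlgCl l)) * D.U') := by
    rw [a, diagonal_smul, Matrix.map_smul' _ _ _ (map_mul _), Matrix.mul_smul, Matrix.smul_mul]
  have h1 : ∀ i j, ‖(D.U * (diagonal f).map (algebraMap _ (PadicAlgCl l)) * D.U') i j‖ ≤ 1 :=
    fun i j => by
      rw [diagonal_map (map_zero _), mul_apply]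
      refine IsUltrametricDist.norm_sum_le_of_forall_le_of_nonneg zero_le_one fun x _ => ?_
      rw [mul_diagonal, norm_mul, norm_mul, car_norm]
      exact mul_le_one₀ (mul_le_one₀ (D.int _ _) (norm_nonneg _) (PadicInt.norm_le_one _))
        (norm_nonneg _) (D.int' _ _)
  have h2 : ∀ i j, ∃ y, X i j = c * y := fun i j => by
    have h3 : ‖X i j‖ ≤ ‖c‖ := by
      rw [← car_norm, ← car_norm c, show algebraMap _ (PadicAlgCl l) (X i j) = _ from
        congrFun (congrFun e i) j, Matrix.smul_apply, smul_eq_mul, norm_mul]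
      exact mul_le_of_le_one_right (norm_nonneg _) (h1 i j)
    have h4 : (c : ℚ_[l]) ≠ 0 := fun h => hc (Subtype.ext h)
    refine ⟨⟨(X i j : ℚ_[l]) / c, ?_⟩, Subtype.ext ?_⟩
    · rw [norm_div]
      exact div_le_one_of_le₀ h3 (norm_nonneg _)
    · exact (mul_div_cancel₀ _ h4).symm
  choose y hy using h2
  refine ⟨of y, ?_⟩
  have h5 : algebraMap _ (PadicAlgCl l) c ≠ 0 := (map_ne_zero_iff _ (car_inj l)).2 hc
  refine smul_right_injective _ h5 ?_
  beta_reduce
  rw [← e]
  ext i j
  simp [hy]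

/-- the weight projectors are integral -/
theorem exists_proj {A : Matrix (I2 g) (I2 g) ℤ_[l]} (hA : D.Rp A fun d => (l : ℤ_[l]) ^ cwt d)
    (w : ℕ) : ∃ P, D.Rp P fun d => if cwt d = w then 1 else 0 := by
  have h1 : ∀ s : Finset ℕ, ∃ X, D.Rp X fun d => ∏ v ∈ s, ((l : ℤ_[l]) ^ cwt d - l ^ v) := fun s => by
    induction s using Finset.induction_on with
    | empty => exact ⟨1, by simpa [Pi.one_def] using rp_one (D := D)⟩
    | insert v s hv ih =>
      obtain ⟨X, hX⟩ := ih
      refine ⟨_, by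
        convert (hA.add (rp_one.smul (-(l : ℤ_[l]) ^ v))).mul hX using 1
        funext d
        simp [Finset.prod_insert hv, sub_eq_add_neg]⟩
  obtain ⟨X, hX⟩ := h1 ((Finset.range (n + 1)).erase w)
  refine Rp.div (X := X) (c := ∏ v ∈ (Finset.range (n + 1)).erase w, ((l : ℤ_[l]) ^ w - l ^ v)) ?_ ?_
  · convert hX using 1
    funext d
    by_cases e : cwt d = w
    · simp [e]
    · have := cwt_cfl d
      simp only [Pi.smul_apply, if_neg e, smul_zero]
      exact (Finset.prod_eq_zero (Finset.mem_erase.2 ⟨e, Finset.mem_range.2 (by omega)⟩)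
        (sub_self _)).symm
  · refine Finset.prod_ne_zero_iff.2 fun v hv e => (Finset.mem_erase.1 hv).1 ?_
    have h2 : l ^ w = l ^ v := by exact_mod_cast sub_eq_zero.1 e
    exact (Nat.pow_right_injective (Fact.out : l.Prime).two_le h2).symm

variable (D)

/-- the Cartan decomposition of the tensor powers of the diagonal matrices -/
theorem sp_diag (hn : Odd n) (N : ℤ_[l] → ℤ_[l] → Matrix (I2 g) (I2 g) ℤ_[l])
    (hN : ∀ a b, D.Rp (N a b) fun d => ∏ i, ![a, b] (d i)) :
    ∃ (k : Matrix (I2 g) (I2 g) ℤ_[l]) (m : Fin g → ℕ), GS 1 k ∧ (∀ i, n < 2 * m i ∧ m i ≤ n) ∧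
      ∀ a b, N a b * k = k * diagonal (Sum.elim (fun i => a ^ m i * b ^ (n - m i))
        fun i => b ^ m i * a ^ (n - m i)) := by
  obtain ⟨s, hs⟩ := hn
  choose P hP using exists_proj (D := D) (A := N 1 l) (by simpa [car_prod] using hN 1 l)
  have pp : ∀ v w, P v * P w = if v = w then P w else 0 := fun v w => by
    split_ifs with e
    · subst e
      exact ((hP v).mul (hP v)).ext (hP v) (by funext d; simp)
    · refine ((hP v).mul (hP w)).ext rp_zero (funext fun d => ?_)
      by_cases h : cwt d = v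
      · simp [h, e]
      · simp [h]
  choose r B C b1 b2 b3 using fun w : Fin (s + 1) => car_idem ((pp w w).trans (if_pos rfl))
  have pB : ∀ w, P w.1 * B w = B w := fun w => by
    rw [← b1, Matrix.mul_assoc, b2, Matrix.mul_one]
  have Cp : ∀ w, C w * P w.1 = C w := fun w => by
    rw [← b1, ← Matrix.mul_assoc, b2, Matrix.one_mul]
  let BB : Matrix (I2 g) (Σ w, Fin (r w)) ℤ_[l] := of fun i x => B x.1 i x.2
  let CC : Matrix (Σ w, Fin (r w)) (I2 g) ℤ_[l] := of fun x j => C x.1 x.2 j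
  have cb : CC * BB = 1 := by
    ext ⟨w, a⟩ ⟨v, b⟩
    change (C w * B v) a b = _
    by_cases e : w = v
    · subst e
      rw [b2]
      simp [one_apply]
    · rw [← Cp, ← pB, Matrix.mul_assoc, ← Matrix.mul_assoc (P _), pp, if_neg (fun h => e (Fin.ext h)),
        one_apply_ne fun h => e (congrArg Sigma.fst h)]
      simp
  have bc : BB * CC = ∑ w : Fin (s + 1), P w := by
    ext i j
    rw [mul_apply, Fintype.sum_sigma, Matrix.sum_apply]
    exact Finset.sum_congr rfl fun w _ => congrFun (congrFun (b1 w) i) j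
  have hp : D.Rp (BB * CC) fun d => if cwt d ≤ s then 1 else 0 := by
    rw [bc]
    convert rp_sum Finset.univ fun w : Fin (s + 1) => hP w using 1
    funext d
    rw [Finset.sum_apply]
    split_ifs with e
    · rw [Finset.sum_eq_single (⟨cwt d, by omega⟩ : Fin (s + 1)) (fun b _ hb => if_neg fun h =>
        hb (Fin.ext h.symm)) (by simp), if_pos rfl]
    · exact (Finset.sum_eq_zero fun b _ => if_neg (by have := b.2; omega)).symm
  have adj : (BB * CC)ᵀ * J (Fin g) ℤ_[l] = J (Fin g) ℤ_[l] * (1 - BB * CC) := hp.adj (by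
    convert rp_one.add (hp.smul (-1)) using 1
    · simp [sub_eq_add_neg]
    · funext d
      have := cwt_cfl d
      by_cases e : cwt d ≤ s
      · simp [e]; omega
      · simp [e]; omega)
  have hr : Fintype.card (Σ w, Fin (r w)) = g := by
    have h1 := congrArg (fun X => trace (X * J (Fin g) ℤ_[l])) adj
    simp only [Matrix.mul_assoc, J_squared] at h1
    rw [trace_mul_comm (J _ _), Matrix.mul_assoc, J_squared, Matrix.mul_neg, Matrix.mul_neg,
      Matrix.mul_one, Matrix.mul_one, trace_neg, trace_neg, neg_inj, trace_transpose, trace_sub,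
      trace_mul_comm, cb, trace_one, trace_one, Fintype.card_sum, Fintype.card_fin, eq_sub_iff_add_eq,
      ← Nat.cast_add, Nat.cast_inj] at h1
    omega
  let ε : Fin g ≃ Σ w, Fin (r w) := (Fintype.equivFinOfCardEq hr).symm
  obtain ⟨g1, g2⟩ := car_lagr (B := BB.submatrix id ε) (C := CC.submatrix ε id) (by
      rw [← submatrix_mul _ _ _ _ _ Function.bijective_id, cb, submatrix_one_equiv])
    (by rw [submatrix_mul_equiv]; exact adj)
  have e1 : ∀ a b (w : ℕ), N a b * P w = (a ^ (n - w) * b ^ w) • P w ∧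
      P w * N a b = (a ^ (n - w) * b ^ w) • P w := fun a b w =>
    ⟨((hN a b).mul (hP w)).ext ((hP w).smul _) (funext fun d => by
      by_cases e : cwt d = w <;> simp [e, car_prod]),
    ((hP w).mul (hN a b)).ext ((hP w).smul _) (funext fun d => by
      by_cases e : cwt d = w <;> simp [e, car_prod])⟩
  have e2 : ∀ i, n - (n - (ε i).1) = (ε i).1 := fun i => by have := (ε i).1.2; omega
  refine ⟨_, fun i => n - (ε i).1, g1, fun i => by have := (ε i).1.2; beta_reduce; omega, fun a b => ?_⟩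
  rw [mul_fromCols, ← fromBlocks_diagonal, fromCols_mul_fromBlocks]
  simp only [Matrix.mul_zero, add_zero, zero_add, e2]
  congr 1
  · ext i j
    change (N a b * B (ε j).1) i (ε j).2 = _
    rw [← pB, ← Matrix.mul_assoc, (e1 a b _).1, Matrix.smul_mul, pB, mul_diagonal]
    exact mul_comm _ _
  · refine g2 (N b a) _ _ ((hN b a).adj ?_) ?_
    · convert hN a b using 3 with d i
      have : ∀ x : Fin 2, ![b, a] x.rev = ![a, b] x := by simp [Fin.forall_fin_two]
      exact this _
    · ext i j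
      change (C (ε i).1 * N b a) (ε i).2 j = _
      rw [← Cp, Matrix.mul_assoc, (e1 b a _).2, Matrix.mul_smul, Cp, diagonal_mul]
      rfl

end CarF

end Pool.Agent.MN
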