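import Pool.Agent.Lib.MP_d61fbb_ag.MN.Dim
import Pool.Agent.Lib.MP_d61fbb_ag.MT.DKp

/-! Choice of the place, local part: traces and multipliers. -/

set_option autoImplicit false

open Matrix

namespace Pool.Agent.MT

theorem d0_two {l : ℕ} [Fact l.Prime] (hl : l ≠ 2) : IsUnit (2 : ℤ_[l]) := by
  rw [PadicInt.isUnit_iff]
  exact_mod_cast PadicInt.norm_natCast_eq_one_iff.2
    ((Nat.coprime_primes Fact.out Nat.prime_two).2 hl)

variable [Dim]

variable {l : ℕ} [Fact l.Prime] {R Ω ι : Type*} [CommRing R] [Algebra ℤ_[l] R] [Field Ω]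
  [Algebra ℤ_[l] Ω] [Fintype ι] [DecidableEq ι]

/-- What is used of the tensor induction at one prime: traces and multipliers. -/
structure TrNm (σ : Fin nn → R →ₐ[ℤ_[l]] Ω)
    (Nm : Matrix (Fin 2) (Fin 2) R →* Matrix ι ι ℤ_[l]) (J : Matrix ι ι ℤ_[l]) : Prop where
  inj : Function.Injective (algebraMap ℤ_[l] Ω)
  tr : ∀ g, algebraMap ℤ_[l] Ω (Nm g).trace = ∏ i, σ i g.trace
  sim : ∀ g c, algebraMap ℤ_[l] Ω c = ∏ i, σ i g.det → (Nm g)ᵀ * J * Nm g = c • J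
  un : ∃ i j, IsUnit (J i j)

variable {σ : Fin nn → R →ₐ[ℤ_[l]] Ω} {Nm : Matrix (Fin 2) (Fin 2) R →* Matrix ι ι ℤ_[l]}
  {J : Matrix ι ι ℤ_[l]}

theorem TrNm.of_conj (inj : Function.Injective (algebraMap ℤ_[l] Ω))
    (C : Matrix ι (Fin nn → Fin 2) Ω) (C' : Matrix (Fin nn → Fin 2) ι Ω) (h1 : C * C' = 1)
    (h2 : C' * C = 1)
    (h3 : ∀ g, (Nm g).map (algebraMap ℤ_[l] Ω) * C = C * kp fun i : Fin nn => g.map (σ i))
    (κ : Ω) (h4 : Cᵀ * J.map (algebraMap ℤ_[l] Ω) * C = κ • kp fun _ : Fin nn => J2 Ω)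
    (un : ∃ i j, IsUnit (J i j)) : TrNm σ Nm J := by
  have e : ∀ g, (Nm g).map (algebraMap ℤ_[l] Ω) = C * (kp fun i : Fin nn => g.map (σ i)) * C' := fun g => by
    rw [← h3, Matrix.mul_assoc, h1, Matrix.mul_one]
  refine ⟨inj, fun g => ?_, fun g c hc => ?_, un⟩
  · rw [AddMonoidHom.map_trace, e, trace_mul_comm, ← Matrix.mul_assoc, h2, Matrix.one_mul,
      kp_trace]
    exact Finset.prod_congr rfl fun i _ => (AddMonoidHom.map_trace (σ i) g).symm
  · refine Matrix.map_injective inj ?_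
    have k : J.map (algebraMap ℤ_[l] Ω) = κ • (C'ᵀ * (kp fun _ : Fin nn => J2 Ω) * C') := by
      rw [← Matrix.smul_mul, ← Matrix.mul_smul, ← h4, ← Matrix.mul_assoc, ← Matrix.mul_assoc,
        ← transpose_mul, h1, transpose_one, Matrix.one_mul, Matrix.mul_assoc, h1, Matrix.mul_one]
    have k2 : ∏ i, σ i g.det = ∏ i, (g.map (σ i)).det :=
      Finset.prod_congr rfl fun i _ => (σ i).toRingHom.map_det g
    have k3 : (c • J).map (algebraMap ℤ_[l] Ω) =
        algebraMap ℤ_[l] Ω c • J.map (algebraMap ℤ_[l] Ω) := by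
      ext i j
      simp
    beta_reduce
    rw [k3, Matrix.map_mul, Matrix.map_mul, transpose_map, e, hc, k2, transpose_mul,
      transpose_mul]
    calc _ = C'ᵀ * ((kp fun i : Fin nn => g.map (σ i))ᵀ * (Cᵀ * J.map (algebraMap ℤ_[l] Ω) * C) *
          kp fun i : Fin nn => g.map (σ i)) * C' := by simp only [Matrix.mul_assoc]
      _ = _ := by
        rw [h4, Matrix.mul_smul, Matrix.smul_mul, kp_sim, k, smul_comm, Matrix.mul_smul,
          Matrix.smul_mul, Matrix.mul_smul, Matrix.smul_mul]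

theorem TrNm.nrm (H : TrNm σ Nm J) (x : R) : ∃ c, algebraMap ℤ_[l] Ω c = ∏ i, σ i x :=
  ⟨_, by rw [H.tr !![x, 0; 0, 0]]; simp⟩

end Pool.Agent.MT
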