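import Pool.Agent.Lib.MP_d61fbb_ag.MT.DCheb

/-! Choice of the place: first order approximations at an auxiliary prime. -/

set_option autoImplicit false

open Matrix Finset

namespace Pool.Agent.MT

open Pool.Agent.Lib.MP_696deb_nt.B2

section Ap

variable {Ω : Type} [NormedField Ω] [IsUltrametricDist Ω] {r : ℝ} {x x' e e' : Ω}

theorem ap_add {a b : Ω} (ha : ‖a‖ ≤ r) (hb : ‖b‖ ≤ r) : ‖a + b‖ ≤ r :=
  (IsUltrametricDist.norm_add_le_max _ _).trans (max_le ha hb)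

theorem ap_sub {a b : Ω} (ha : ‖a‖ ≤ r) (hb : ‖b‖ ≤ r) : ‖a - b‖ ≤ r := by
  rw [sub_eq_add_neg]
  exact ap_add ha (by rwa [norm_neg])

omit [IsUltrametricDist Ω] in
theorem ap_mul {a b : Ω} {s : ℝ} (ha : ‖a‖ ≤ r) (hb : ‖b‖ ≤ s) : ‖a * b‖ ≤ r * s :=
  (norm_mul a b).trans_le (mul_le_mul ha hb (norm_nonneg _) ((norm_nonneg _).trans ha))

/-- `x = 1 + e` up to second order. -/
def Ap (r : ℝ) (x e : Ω) : Prop := ‖x - 1 - e‖ ≤ r * r ∧ ‖e‖ ≤ r ∧ r < 1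

theorem Ap.sub_one (h : Ap r x e) : ‖x - 1‖ ≤ r := by
  have h0 := (norm_nonneg _).trans h.2.1
  simpa using ap_add (h.1.trans (mul_le_of_le_one_left h0 h.2.2.le)) h.2.1

theorem Ap.norm (h : Ap r x e) : ‖x‖ = 1 := by
  have h1 : ‖x - 1‖ < ‖(1 : Ω)‖ := norm_one (α := Ω) ▸ h.sub_one.trans_lt h.2.2
  rw [← sub_add_cancel x 1, IsUltrametricDist.norm_add_eq_max_of_norm_ne_norm h1.ne,
    max_eq_right h1.le, norm_one]

theorem Ap.near (h : Ap r x e) (k : ‖x' - x‖ ≤ r * r) : Ap r x' e :=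
  ⟨by convert ap_add k h.1 using 2; ring, h.2⟩

theorem Ap.mul (h : Ap r x e) (k : Ap r x' e') : Ap r (x * x') (e + e') :=
  ⟨by convert ap_add (ap_mul h.sub_one k.sub_one) (ap_add h.1 k.1) using 2; ring,
    ap_add h.2.1 k.2.1, h.2.2⟩

theorem Ap.inv (h : Ap r x e) : Ap r x⁻¹ (-e) := by
  refine ⟨?_, by rw [norm_neg]; exact h.2.1, h.2.2⟩
  have h0 : x ≠ 0 := norm_ne_zero_iff.1 (h.norm ▸ one_ne_zero)
  rw [show x⁻¹ - 1 - -e = x⁻¹ * (e * (x - 1) - (x - 1 - e)) by field_simp; ring, norm_mul,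
    norm_inv, h.norm, inv_one, one_mul]
  exact ap_sub (ap_mul h.2.1 h.sub_one) h.1

omit [IsUltrametricDist Ω] in
theorem ap_one (h0 : 0 ≤ r) (h1 : r < 1) : Ap r (1 : Ω) 0 :=
  ⟨by simpa using mul_nonneg h0 h0, by simpa using h0, h1⟩

theorem Ap.pow (h : Ap r x e) (k : ℕ) : Ap r (x ^ k) (k * e) := by
  induction k with
  | zero => simpa using ap_one ((norm_nonneg _).trans h.2.1) h.2.2
  | succ k ih => simpa [pow_succ, add_mul] using ih.mul h

theorem Ap.zpow (h : Ap r x e) (k : ℤ) : Ap r (x ^ k) (k * e) := by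
  obtain ⟨k, rfl | rfl⟩ := k.eq_nat_or_neg
  · simpa using h.pow k
  · simpa using (h.pow k).inv

theorem ap_prod {ι : Type} (h0 : 0 ≤ r) (h1 : r < 1) (s : Finset ι) {x e : ι → Ω}
    (h : ∀ i, Ap r (x i) (e i)) : Ap r (∏ i ∈ s, x i) (∑ i ∈ s, e i) := by
  classical
  induction s using Finset.induction_on with
  | empty => simpa using ap_one h0 h1
  | insert i s hi ih => rw [prod_insert hi, sum_insert hi]; exact (h i).mul ih

/-- The eigenvalues of a matrix that is close to a diagonal matrix. -/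
theorem Ap.eig {z : Ω} (h : Ap r z e) {A : Matrix (Fin 2) (Fin 2) Ω}
    (hA : ∀ s t, ‖A s t - diagonal ![z, z⁻¹] s t‖ ≤ r ^ 4) (h1 : A.trace = x + x')
    (h2 : A.det = x * x') : Ap r (x / x') (2 * e) ∨ Ap r (x / x') (-(2 * e)) := by
  have r0 := (norm_nonneg _).trans h.2.1
  have r1 := h.2.2.le
  have r2 : r ^ 4 ≤ r * r := by rw [← sq]; exact pow_le_pow_of_le_one r0 r1 (by norm_num)
  have r3 : r ^ 4 ≤ 1 := pow_le_one₀ r0 r1
  have a0 : ‖A 0 0 - z‖ ≤ r ^ 4 := by simpa using hA 0 0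
  have a1 : ‖A 1 1 - z⁻¹‖ ≤ r ^ 4 := by simpa using hA 1 1
  have a2 : ‖A 0 1‖ ≤ r ^ 4 := by simpa using hA 0 1
  have a3 : ‖A 1 0‖ ≤ r ^ 4 := by simpa using hA 1 0
  rw [trace_fin_two] at h1
  rw [det_fin_two] at h2
  have key : ∀ {y y' : Ω}, A 0 0 + A 1 1 = y + y' → ‖y - z‖ ≤ r * r → Ap r (y / y') (2 * e) :=
    fun {y y'} k1 k2 => by
      have k3 : Ap r y' (-e) := h.inv.near (by
        convert ap_sub (ap_add (a0.trans r2) (a1.trans r2)) k2 using 2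
        linear_combination -k1)
      simpa [div_eq_mul_inv, two_mul] using (h.near k2).mul k3.inv
  have k1 : ‖x - z‖ * ‖x' - z‖ ≤ r * r * (r * r) := by
    rw [← norm_mul, show (x - z) * (x' - z) = (A 0 0 - z) * (A 1 1 - z⁻¹ + (z⁻¹ - z)) -
      A 0 1 * A 1 0 by linear_combination z * h1 - h2, show r * r * (r * r) = r ^ 4 * 1 by ring]
    exact ap_sub (ap_mul a0 (ap_add (a1.trans r3) (ap_sub h.inv.norm.le h.norm.le)))
      (ap_mul a2 (a3.trans r3))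
  rcases le_or_gt ‖x - z‖ (r * r) with k | k
  · exact .inl (key h1 k)
  · refine .inr ?_
    rw [← inv_div]
    refine (key (h1.trans (add_comm _ _)) (not_lt.1 fun k' => ?_)).inv
    exact absurd k1 (not_le.2 (mul_lt_mul'' k k' (by positivity) (by positivity)))

end Ap

variable {l : ℕ} [Fact l.Prime]

theorem dn1_norm (x : ℤ_[l]) : ‖algebraMap ℤ_[l] (PadicAlgCl l) x‖ = ‖x‖ :=
  PadicAlgCl.norm_extends l x

theorem dn1_l : ‖(l : PadicAlgCl l)‖ = (l : ℝ)⁻¹ := by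
  rw [← map_natCast (algebraMap ℤ_[l] _), dn1_norm, PadicInt.norm_p]

theorem dn1_lt : (l : ℝ)⁻¹ < 1 :=
  inv_lt_one_of_one_lt₀ (by exact_mod_cast (Fact.out : l.Prime).one_lt)

theorem dn1_pos : 0 < (l : ℝ)⁻¹ := inv_pos.2 (by exact_mod_cast (Fact.out : l.Prime).pos)

theorem dn1_int {z : PadicAlgCl l} (h : IsIntegral ℤ_[l] z) : ‖z‖ ≤ 1 := by
  obtain ⟨f, hf, h⟩ := h
  refine (Valuation.integer.integers (NormedField.valuation (K := PadicAlgCl l))).mem_of_integral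
    ⟨f.map ((algebraMap ℤ_[l] (PadicAlgCl l)).codRestrict _ fun x =>
      (dn1_norm x).trans_le x.2), hf.map _, ?_⟩
  rw [Polynomial.eval₂_map]
  exact h

theorem dn1_dvd {k : ℕ} {x : ℤ_[l]} (h : (l : ℤ_[l]) ^ k ∣ x) :
    ‖algebraMap ℤ_[l] (PadicAlgCl l) x‖ ≤ (l : ℝ)⁻¹ ^ k := by
  rwa [dn1_norm, inv_pow, ← zpow_natCast, ← _root_.zpow_neg,
    PadicInt.norm_le_pow_iff_mem_span_pow, Ideal.mem_span_singleton]

theorem d0_unit {R : Type*} [CommRing R] [Algebra ℤ_[l] R] [Module.Finite ℤ_[l] R] (y : R) :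
    IsUnit (1 + l * y) := by
  by_contra h
  obtain ⟨M, hM, hz'⟩ := exists_max_ideal_of_mem_nonunits h
  have h1 : (M.comap (algebraMap ℤ_[l] R)).IsMaximal :=
    Ideal.isMaximal_comap_of_isIntegral_of_isMaximal M
  have h2 : (l : R) ∈ M := by
    have : (l : ℤ_[l]) ∈ M.comap (algebraMap ℤ_[l] R) := by
      rw [IsLocalRing.eq_maximalIdeal h1, PadicInt.maximalIdeal_eq_span_p]
      exact Ideal.mem_span_singleton_self _
    simpa using this
  exact hM.ne_top ((Ideal.eq_top_iff_one _).2 (by simpa using M.sub_mem hz' (M.mul_mem_right y h2)))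

/-- The density theorem for a homomorphism to a finite group. -/
theorem d_cheb_fin {H : Subgroup Gam} {G : Type*} [Group G] [Finite G] (r : H →* G)
    (hr : Op (r.ker.map H.subtype)) (s : H) (hl : l ≠ 2) (B : Finset ℕ) :
    ∃ (w : Plc) (φ : H) (a : ℕ), w.p ∉ B ∧ IsFrob w w.p φ ∧ ¬ l ∣ a ∧ r φ = r s ^ a := by
  have hp : l.Prime := Fact.out
  obtain ⟨k, m, hm, e⟩ := Nat.exists_eq_pow_mul_and_not_dvd (orderOf_pos (r s)).ne' l hp.ne_one
  obtain ⟨w, φ, a, h1, h2, h3, h4⟩ := d_cheb r hr (s ^ m) (k := k) hp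
    (by have := hp.two_le; omega)
    (by rw [map_pow, ← pow_mul, mul_comm, ← e, pow_orderOf_eq_one]) B
  exact ⟨w, φ, m * a, h1, h2, fun h => (hp.dvd_mul.1 h).elim hm h3, by rw [h4, map_pow, pow_mul]⟩

end Pool.Agent.MT
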