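import Pool.Agent.Lib.MP_d61fbb_ag.MT.DKp
import Pool.Agent.Lib.MP_d61fbb_ag.MN.DAlgS

/-! Presentations that come from tensor products. -/

set_option autoImplicit false

open Matrix Polynomial

namespace Pool.Agent.MT

theorem charpoly_of_conj {Ω m n : Type*} [Field Ω] [Fintype m] [Fintype n] [DecidableEq m]
    [DecidableEq n] (hc : Fintype.card n = Fintype.card m) {A : Matrix n n Ω} {B : Matrix m m Ω}
    {C : Matrix n m Ω} {C' : Matrix m n Ω} (h1 : C * C' = 1) (h2 : C' * C = 1)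
    (h3 : A * C = C * B) : A.charpoly = B.charpoly := by
  have e : A = C * (B * C') := by
    rw [← Matrix.mul_assoc, ← h3, Matrix.mul_assoc, h1, Matrix.mul_one]
  have := charpoly_mul_comm' C (B * C')
  rw [← e, Matrix.mul_assoc, h2, Matrix.mul_one, hc] at this
  exact mul_left_cancel₀ (pow_ne_zero _ X_ne_zero) this

variable [Dim]

theorem kp_lam {Ω : Type} [Field Ω] (z : Ω) {g : Fin nn → Matrix (Fin 2) (Fin 2) Ω}
    {a b : Fin nn → Ω} (hb : ∀ i, b i ≠ 0) (h1 : ∀ i, (g i).trace = a i + b i)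
    (h2 : ∀ i, (g i).det = a i * b i) :
    (z • kp g).charpoly = ∏ d, (X - C (lam (z * ∏ i, b i) (fun i => a i / b i) d)) := by
  rw [kp_charpoly z g (fun i => ![b i, a i]) (fun i => by simp [h1, add_comm])
    (fun i => by simp [h2, mul_comm])]
  refine Finset.prod_congr rfl fun d _ => ?_
  rw [lam, mul_assoc, ← Finset.prod_mul_distrib]
  congr 3
  refine Finset.prod_congr rfl fun i _ => ?_
  generalize d i = e
  fin_cases e
  · simp
  · simp [mul_div_cancel₀ _ (hb i)]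

/-- A tensor product gives a presentation of its characteristic polynomial. -/
theorem pres_of_eig {Ω : Type} [Field Ω] {P : ℤ[X]} {p : ℕ} {z : Ω}
    {g : Fin nn → Matrix (Fin 2) (Fin 2) Ω} (hP : (z • kp g).charpoly = P.map (Int.castRingHom Ω))
    (hq : z ^ 2 * ∏ i, (g i).det = p) (a b : Fin nn → Ω) (hb : ∀ i, b i ≠ 0)
    (h1 : ∀ i, (g i).trace = a i + b i) (h2 : ∀ i, (g i).det = a i * b i) :
    Pres P p (z * ∏ i, b i) fun i => a i / b i := by
  refine ⟨hP ▸ kp_lam z hb h1 h2, ?_⟩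
  rw [← hq, mul_pow, mul_assoc, ← Finset.prod_pow, ← Finset.prod_mul_distrib]
  congr 1
  refine Finset.prod_congr rfl fun i _ => ?_
  have := hb i
  rw [h2]
  field_simp

theorem pres_of_kp {Ω : Type} [Field Ω] [CharZero Ω] [IsAlgClosed Ω] {P : ℤ[X]} {p : ℕ}
    (hp : p ≠ 0) {z : Ω} {g : Fin nn → Matrix (Fin 2) (Fin 2) Ω}
    (hP : (z • kp g).charpoly = P.map (Int.castRingHom Ω)) (hq : z ^ 2 * ∏ i, (g i).det = p) :
    ∃ a b : Fin nn → Ω, (∀ i, a i ≠ 0) ∧ (∀ i, b i ≠ 0) ∧ (∀ i, (g i).trace = a i + b i) ∧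
      (∀ i, (g i).det = a i * b i) ∧ Pres P p (z * ∏ i, b i) fun i => a i / b i := by
  choose a b h1 h2 using fun i => eig_two (g i).trace (g i).det
  have h0 : ∀ i, a i * b i ≠ 0 := fun i e => by
    rw [Finset.prod_eq_zero (Finset.mem_univ i) ((h2 i).trans e), mul_zero] at hq
    exact hp (Nat.cast_eq_zero.1 hq.symm)
  exact ⟨a, b, fun i => left_ne_zero_of_mul (h0 i), fun i => right_ne_zero_of_mul (h0 i), h1, h2,
    pres_of_eig hP hq a b (fun i => right_ne_zero_of_mul (h0 i)) h1 h2⟩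

end Pool.Agent.MT
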