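import Pool.Agent.Lib.MP_d61fbb_ag.MN.DAlg2

/-! The type norm as a polynomial in the Frobenius element. -/

set_option autoImplicit false

open Polynomial Finset Matrix

namespace Pool.Agent.MT

theorem prod_diff {ι : Type} (s : Finset ι) {a b : ι → ℂ} (ha : ∀ i, IsIntegral ℤ (a i))
    (hb : ∀ i, IsIntegral ℤ (b i)) (M : ℤ) :
    ∃ z : ℂ, IsIntegral ℤ z ∧ ∏ i ∈ s, (a i + M * b i) - ∏ i ∈ s, a i = M * z := by
  classical
  induction s using Finset.induction_on with
  | empty => exact ⟨0, isIntegral_zero, by simp⟩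
  | insert i s hi ih =>
    obtain ⟨z, h1, h2⟩ := ih
    refine ⟨_, ((ha i).mul h1).add ((hb i).mul (IsIntegral.prod (s := s) _ fun j _ =>
      (ha j).add ((isIntegral_intCast M).mul (hb j)))), ?_⟩
    rw [prod_insert hi, prod_insert hi]
    linear_combination a i * h2

variable [Dim] {P : ℤ[X]} {p : ℕ}

theorem Good.dual (h : Good P p) : ∃ (D : ℤ) (q : Fin (2 * gg) → ℤ[X]), D ≠ 0 ∧
    (∀ j, (q j).degree < (2 * gg : ℕ)) ∧ ∀ (Ω : Type) [Field Ω] [CharZero Ω] (w : Ω) (u : Fin nn → Ω),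
      Pres P p w u → ∀ (m : (Fin nn → Fin 2) → Ω) (d : Fin nn → Fin 2),
        ∑ j : Fin (2 * gg), (∑ x, lam w u x ^ (j : ℕ) * m x) * aeval (lam w u d) (q j) = D * m d := by
  let G : Matrix (Fin (2 * gg)) (Fin (2 * gg)) ℤ := of fun j k => psm P (j + k)
  let e : (Fin nn → Fin 2) ≃ Fin (2 * gg) := Fintype.equivFinOfCardEq card_cube
  have h1 : ∀ (Ω : Type) [Field Ω] [CharZero Ω] (w : Ω) (u : Fin nn → Ω), Pres P p w u →
      (vandermonde (lam w u ∘ e.symm)).det ≠ 0 ∧ (Int.castRingHom Ω).mapMatrix G =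
        (vandermonde (lam w u ∘ e.symm))ᵀ * vandermonde (lam w u ∘ e.symm) := fun Ω _ _ w u k => by
    refine ⟨det_vandermonde_ne_zero_iff.2 ((h.lam_inj k).comp e.symm.injective), ?_⟩
    ext i j
    rw [vandermonde_transpose_mul_vandermonde]
    exact ((e.symm.sum_comp fun d => lam w u d ^ (i + j : ℕ)).trans (k.psum' _)).symm
  refine ⟨G.det, fun j => ∑ k : Fin (2 * gg), C (G.adjugate k j) * X ^ (k : ℕ), fun e0 => ?_,
    fun j => degree_sum_fin_lt _, fun Ω _ _ w u k m d => ?_⟩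
  · obtain ⟨w, u, k⟩ := h.pres
    obtain ⟨h2, h3⟩ := h1 ℂ w u k
    have := (Int.castRingHom ℂ).map_det G
    rw [e0, h3, det_mul, det_transpose, map_zero] at this
    exact mul_ne_zero h2 h2 this.symm
  · obtain ⟨h2, h3⟩ := h1 Ω w u k
    set V := vandermonde (lam w u ∘ e.symm) with hV
    have h4 := congrArg (Int.castRingHom Ω).mapMatrix G.adjugate_mul
    rw [map_mul, h3] at h4
    have h5 : V * (Int.castRingHom Ω).mapMatrix G.adjugate * Vᵀ = (G.det : Ω) • 1 := by
      refine ((isUnit_iff_isUnit_det V).2 h2.isUnit).mul_right_cancel ?_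
      rw [mul_assoc, mul_assoc, h4]
      simp [Int.cast_smul_eq_zsmul, Int.cast_comm]
    have h6 : ∀ x, ∑ j : Fin (2 * gg), lam w u x ^ (j : ℕ) * aeval (lam w u d)
        (∑ k : Fin (2 * gg), C (G.adjugate k j) * X ^ (k : ℕ)) = if d = x then (G.det : Ω) else 0 := by
      intro x
      have := congrFun (congrFun h5 (e d)) (e x)
      simpa [mul_apply, hV, one_apply, mul_comm] using this
    simp only [sum_mul]
    rw [sum_comm]
    simp only [mul_right_comm _ (m _), ← sum_mul, h6]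
    simp

theorem Good.dvd (h : Good P p) {w : ℂ} {u : Fin nn → ℂ} (k : Pres P p w u) {g : ℚ[X]}
    (hg : ∀ d, aeval (lam w u d) g = 0) : P.map (Int.castRingHom ℚ) ∣ g := by
  rw [← map_dvd_map' (algebraMap ℚ ℂ), Polynomial.map_map,
    RingHom.eq_intCast' ((algebraMap ℚ ℂ).comp _), k.fac]
  exact Fintype.prod_dvd_of_coprime (pairwise_coprime_X_sub_C (h.lam_inj k)) fun d =>
    dvd_iff_isRoot.2 (by rw [IsRoot, eval_map_algebraMap, hg])

theorem d_alg : DAlgStmt := by
  intro P p h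
  obtain ⟨E, _, _, c, U, ν, h6, cc, cU, gen, hr, he⟩ := h.fld
  obtain ⟨D, q, D0, hq, hd⟩ := h.dual
  have hp := h.prime.ne_zero
  let κ : ℚ := p / psm P 1
  let r : E → Fin (2 * gg) → ℚ := fun a j => κ ^ (j : ℕ) * ν ((1 + U) ^ (j : ℕ) * a)
  let f : E → ℚ[X] := fun a => C (D : ℚ)⁻¹ * ∑ j, C (r a j) * (q j).map (Int.castRingHom ℚ)
  have hU : c U = U⁻¹ := eq_inv_of_mul_eq_one_left cU
  have key : ∀ (Ω : Type) [Field Ω] [CharZero Ω] (w : Ω) (u : Fin nn → Ω), Pres P p w u →
      ∃ φ : Fin nn → E →+* Ω, (∀ i, φ i U = u i) ∧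
      (∀ a d, aeval (lam w u d) (f a) = ∏ i, φ i (if d i = 1 then a else c a)) ∧
      (∀ a, ((Algebra.norm ℚ a : ℚ) : Ω) = ∏ i, φ i (a * c a)) ∧
      (∀ d, lam w u d = κ * ∏ i, φ i (if d i = 1 then 1 + U else c (1 + U))) ∧
      ∀ a j, (r a j : Ω) = ∑ d, lam w u d ^ (j : ℕ) * ∏ i, φ i (if d i = 1 then a else c a) := by
    intro Ω _ _ w u k
    obtain ⟨φ, h1, h2, h3⟩ := he Ω w u k
    obtain ⟨hw, hu⟩ := k.ne hp
    have h4 : ∀ d, lam w u d = κ * ∏ i, φ i (if d i = 1 then 1 + U else c (1 + U)) := fun d => by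
      have e : ∀ i, φ i (if d i = 1 then 1 + U else c (1 + U)) =
          (1 + u i) * u i ^ (d i : ℕ) / u i := fun i => by
        have := hu i
        generalize d i = j
        fin_cases j <;> simp [hU, h1, this, add_div, add_comm]
      have e1 := k.psum 1
      have e2 : (psm P 1 : Ω) ≠ 0 := Int.cast_ne_zero.2 h.s1
      have e3 := prod_ne_zero_iff.2 fun i (_ : i ∈ univ) => hu i
      simp only [pow_one] at e1
      simp only [e, prod_div_distrib, prod_mul_distrib, κ, Rat.cast_div, Rat.cast_natCast,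
        Rat.cast_intCast, lam, ← k.mul]
      field_simp
      rw [← e1]
      ring
    have h5 : ∀ a j, (r a j : Ω) =
        ∑ d, lam w u d ^ (j : ℕ) * ∏ i, φ i (if d i = 1 then a else c a) := fun a j => by
      have e := sum_prod_fin fun i (x : Fin 2) => φ i (if x = 1 then (1 + U) ^ (j : ℕ) * a else
        c ((1 + U) ^ (j : ℕ) * a))
      simp only [zero_ne_one, if_false, if_true, ← map_add] at e
      simp only [r, Rat.cast_mul, Rat.cast_pow, h2, ← e, mul_sum, h4, mul_pow, mul_assoc,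
        ← prod_pow, ← prod_mul_distrib, ← map_pow, ← map_mul, ite_pow, ite_mul_ite]
    refine ⟨φ, h1, fun a d => ?_, h3, h4, h5⟩
    simp only [f, map_mul, map_sum, aeval_C, eq_ratCast, h5, ← algebraMap_int_eq,
      aeval_map_algebraMap, hd Ω w u k, Rat.cast_inv, Rat.cast_intCast]
    exact inv_mul_cancel_left₀ (Int.cast_ne_zero.2 D0) _
  obtain ⟨w, u, k⟩ := h.pres
  obtain ⟨φ, h1, h2, h3, h4, h5⟩ := key ℂ w u k
  have n1 : (1 : WithBot ℕ) < (2 * gg : ℕ) := by
    exact_mod_cast (by have := gg_four; omega : 1 < 2 * gg)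
  have deg : ∀ a, (f a).degree < (2 * gg : ℕ) := fun a => by
    rw [degree_C_mul (inv_ne_zero (Int.cast_ne_zero.2 D0))]
    refine (degree_sum_le _ _).trans_lt ((Finset.sup_lt_iff (WithBot.bot_lt_coe _)).2 fun j _ => ?_)
    rw [← smul_eq_C_mul]
    exact (degree_smul_le _ _).trans_lt (degree_map_le.trans_lt (hq j))
  have uq : ∀ a (g : ℚ[X]), g.degree < (2 * gg : ℕ) → (∀ d, aeval (lam w u d) g =
      ∏ i, φ i (if d i = 1 then a else c a)) → f a = g := fun a g hg e => by
    refine sub_eq_zero.1 (eq_zero_of_dvd_of_degree_lt (h.dvd k fun d => ?_) ?_)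
    · rw [map_sub, h2, e, sub_self]
    · rw [k.monic.degree_map, degree_eq_natDegree k.monic.ne_zero, k.deg]
      exact (degree_sub_le _ _).trans_lt (max_lt (deg a) hg)
  have U0 : U ≠ 0 := right_ne_zero_of_mul_eq_one cU
  refine ⟨E, inferInstance, inferInstance, ⟨{
    c := c, U := U, f := f, D := D, rank := h6, cc := cc, cU := cU, gen := gen, deg := deg
    D0 := D0
    cj := fun ψ => d_ext gen (φ := ψ.comp c) (ψ := (starRingEnd ℂ).comp ψ) ?_
    cne := fun e => ?_
    intU := ?_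
    emb := fun Ω _ _ w u k => ⟨h.lam_inj k, (key Ω w u k).imp fun φ e => ⟨e.1, e.2.1, e.2.2.1⟩⟩
    int := fun a b M ha hb => ?_
    dvd := fun g hg => h.dvd k fun d => hg _ (k.root d)
    f_rat := fun x => uq _ _ (degree_C_le.trans_lt (zero_lt_one.trans n1)) fun d => by simp
    f_mul := fun a b => h.dvd k fun d => ?_
    f_cj := fun a => h.dvd k fun d => ?_
    f_adj := fun a Ω _ _ z hz => ?_
    f_one := uq _ _ ((degree_C_mul_X_le _).trans_lt n1) fun d => ?_ }⟩⟩
  · have := (h.norm_root ((map_ne_zero ψ).2 U0)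
      (by rw [← map_tt, d_root_map, hr, map_zero])).1
    simp [hU, this]
  · have e1 : u 0 * u 0 = 1 := by rw [← h1, ← map_mul, ← map_one (φ 0), ← cU, e]
    rcases mul_self_eq_one_iff.1 e1 with e2 | e2
    · exact h.tt_ne k 0 4 (by rw [e2, tt]; norm_num)
    · exact h.tt_ne k 0 0 (by rw [e2, tt]; norm_num)
  · refine (isIntegral_algHom_iff (φ 0).toIntAlgHom (φ 0).injective).1 ?_
    simpa [h1] using (k.int_u hp 0).1
  · have h7 : ∀ j, ∃ m : ℤ, r (a + M * b) j - r a j = M * m := fun j => by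
      rcases eq_or_ne M 0 with rfl | hM
      · exact ⟨0, by simp⟩
      have h8 : ∀ d : Fin nn → Fin 2, ∃ z : ℂ, IsIntegral ℤ z ∧
          ∏ i, φ i (if d i = 1 then a + M * b else c (a + M * b)) -
            ∏ i, φ i (if d i = 1 then a else c a) = M * z := fun d => by
        have hi : ∀ {x : E}, IsIntegral ℤ x → ∀ i,
            IsIntegral ℤ (φ i (if d i = 1 then x else c x)) := fun hx i => by
          refine IsIntegral.map (φ i).toIntAlgHom ?_
          split_ifs
          exacts [hx, hx.map (c : E →+* E).toIntAlgHom]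
        have e : ∀ i, φ i (if d i = 1 then a + M * b else c (a + M * b)) = φ i (if d i = 1 then a
            else c a) + M * φ i (if d i = 1 then b else c b) := fun i => by
          split_ifs <;> simp
        simp only [e]
        exact prod_diff _ (hi ha) (hi hb) M
      choose z hz h8 using h8
      have h9 : (((r (a + M * b) j - r a j) / M : ℚ) : ℂ) = ∑ d, lam w u d ^ (j : ℕ) * z d := by
        push_cast
        rw [div_eq_iff (Int.cast_ne_zero.2 hM), h5, h5, ← sum_sub_distrib, sum_mul]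
        exact sum_congr rfl fun d _ => by rw [← mul_sub, h8]; ring
      obtain ⟨m, hn⟩ := IsIntegrallyClosed.isIntegral_iff.1
        ((isIntegral_algHom_iff (algebraMap ℚ ℂ).toIntAlgHom (algebraMap ℚ ℂ).injective).1
          (h9 ▸ IsIntegral.sum _ fun d _ => ((k.isInt d).pow _).mul (hz d)))
      exact ⟨m, by
        rw [← eq_intCast (algebraMap ℤ ℚ) m, hn, mul_div_cancel₀ _ (Int.cast_ne_zero.2 hM)]⟩
    choose m hn using h7
    refine ⟨∑ j, C (m j) * q j, ?_⟩
    simp only [f, ← mul_sub, ← mul_assoc, ← C_mul, ← sum_sub_distrib, ← sub_mul, ← C_sub, hn,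
      mul_inv_cancel₀ (Int.cast_ne_zero.2 D0 : (D : ℚ) ≠ 0), Polynomial.map_sum,
      Polynomial.map_mul, mul_sum, one_mul]
    simp
  · rw [map_sub, h2, map_mul _ (f a), h2, h2, ← prod_mul_distrib, sub_eq_zero]
    refine prod_congr rfl fun i _ => ?_
    split_ifs <;> simp
  · rw [map_sub, map_mul _ (f a), h2, h2, aeval_C, eq_ratCast, h3, ← prod_mul_distrib, sub_eq_zero]
    refine prod_congr rfl fun i _ => ?_
    split_ifs <;> simp [cc, mul_comm]
  · let j := algebraMap Ω (AlgebraicClosure Ω)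
    obtain ⟨w', u', k'⟩ := k.transfer hp (AlgebraicClosure Ω)
    obtain ⟨ψ, -, e, -⟩ := key _ w' u' k'
    obtain ⟨d, e1⟩ := k'.of_root (z := j z) (by rw [aeval_algebraMap_apply, hz, map_zero])
    have e2 := k'.rev d
    refine j.injective ?_
    rw [← d_root_map, ← d_root_map, map_div₀, map_natCast, e1, ← e2, mul_div_cancel_left₀ _
      (left_ne_zero_of_mul (e2 ▸ Nat.cast_ne_zero.2 hp)), e, e]
    refine prod_congr rfl fun i _ => ?_
    generalize d i = x
    fin_cases x <;> simp [cc]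
  · have e2 : (psm P 1 : ℂ) ≠ 0 := Int.cast_ne_zero.2 h.s1
    have e3 : (p : ℂ) ≠ 0 := Nat.cast_ne_zero.2 hp
    rw [map_mul, aeval_X, h4, aeval_C, eq_ratCast]
    simp only [κ]
    push_cast
    field_simp

end Pool.Agent.MT
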