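import Pool.Agent.Lib.MP_d61fbb_ag.MN.Dim
import Mathlib

/-! Weil polynomials of tensor cube type: presentations of the roots and the resolvent. -/

set_option autoImplicit false

open Polynomial Finset

namespace Pool.Agent.MT

variable [Dim]

/-- Power sums of the roots of an integer polynomial are integers that do not depend on the
field. -/
theorem d_psum (ι : Type) [Fintype ι] (P : ℤ[X]) (k : ℕ) : ∃ s : ℤ, ∀ (Ω : Type) [CommRing Ω]
    (z : ι → Ω), P.map (Int.castRingHom Ω) = ∏ d, (X - C (z d)) → ∑ d, z d ^ k = s := by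
  obtain ⟨Q, hQ⟩ := MvPolynomial.esymmAlgHom_surjective (σ := ι) ℤ (n := Fintype.card ι) le_rfl
    ⟨MvPolynomial.psum ι ℤ k, MvPolynomial.psum_isSymmetric ι ℤ k⟩
  refine ⟨MvPolynomial.aeval (fun i : Fin (Fintype.card ι) =>
    (-1) ^ ((i : ℕ) + 1) * P.coeff (Fintype.card ι - (i + 1))) Q, fun Ω _ z h => ?_⟩
  have h1 := congrArg (fun q => MvPolynomial.aeval z q.1) hQ
  simp only [MvPolynomial.esymmAlgHom_apply, MvPolynomial.psum, map_sum, map_pow,
    MvPolynomial.aeval_X] at h1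
  rw [← h1, ← AlgHom.comp_apply, MvPolynomial.comp_aeval, ← eq_intCast (algebraMap ℤ Ω),
    ← MvPolynomial.aeval_algebraMap_apply]
  congr 2
  funext i
  have h2 := congrArg (coeff · (Fintype.card ι - (i + 1))) h
  have h3 := Multiset.prod_X_sub_C_coeff (univ.val.map z) (k := Fintype.card ι - (i + 1))
    (by simp)
  rw [Multiset.map_map] at h3
  simp only [coeff_map, Finset.prod, eq_intCast] at h2
  have h4 : Fintype.card ι - (Fintype.card ι - (i + 1)) = i + 1 := by omega
  simp only [Multiset.card_map, card_val, card_univ, h4, Function.comp_def] at h3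
  rw [MvPolynomial.aeval_esymm_eq_multiset_esymm]
  change _ = algebraMap ℤ Ω _
  simp only [eq_intCast, Int.cast_mul, Int.cast_pow, Int.cast_neg, Int.cast_one, h2, h3,
    ← mul_assoc, ← mul_pow, neg_mul_neg, one_mul, one_pow]

/-- The power sums. -/
noncomputable def psm (P : ℤ[X]) (k : ℕ) : ℤ := (d_psum (Fin nn → Fin 2) P k).choose

/-- The roots. -/
def lam {Ω : Type} [CommRing Ω] (w : Ω) (u : Fin nn → Ω) (d : Fin nn → Fin 2) : Ω :=
  w * ∏ i, u i ^ (d i : ℕ)

/-- A presentation of the roots of `P`. -/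
structure Pres {Ω : Type} [CommRing Ω] (P : ℤ[X]) (p : ℕ) (w : Ω) (u : Fin nn → Ω) : Prop where
  fac : P.map (Int.castRingHom Ω) = ∏ d, (X - C (lam w u d))
  mul : w ^ 2 * ∏ i, u i = p

/-- The invariant `tr ^ 2 / det`. -/
def tt {Ω : Type} [Field Ω] (u : Ω) : Ω := u + u⁻¹ + 2

/-- The invariants do not depend on the presentation. -/
def Uq (P : ℤ[X]) (p : ℕ) : Prop := ∃ Q : ℚ[X], ∀ (Ω : Type) [Field Ω] [CharZero Ω] (w : Ω)
  (u : Fin nn → Ω), Pres P p w u → Q.map (algebraMap ℚ Ω) = ∏ i, (X - C (tt (u i)))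

open Classical in
/-- The polynomial whose roots are the invariants. -/
noncomputable def cub (P : ℤ[X]) (p : ℕ) : ℚ[X] := if h : Uq P p then h.choose else 0

/-- The sum of the invariants. -/
noncomputable def ce1 (P : ℤ[X]) (p : ℕ) : ℚ := -(cub P p).nextCoeff

/-- No small multiplicative relation. -/
def Ind {Ω : Type} [Field Ω] (u : Fin nn → Ω) : Prop :=
  ∀ a : Fin nn → ℤ, (∀ i, |a i| ≤ 2) → ∏ i, u i ^ a i = 1 → a = 0

variable {P : ℤ[X]} {p : ℕ}

section Ring

variable {Ω Ω' : Type} [CommRing Ω] [CommRing Ω'] {w : Ω} {u : Fin nn → Ω}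

theorem map_lam (φ : Ω →+* Ω') (d : Fin nn → Fin 2) :
    φ (lam w u d) = lam (φ w) (fun i => φ (u i)) d := by
  simp [lam]

theorem Pres.map (h : Pres P p w u) (φ : Ω →+* Ω') : Pres P p (φ w) fun i => φ (u i) := by
  refine ⟨?_, by simpa using congrArg φ h.mul⟩
  have := congrArg (Polynomial.map φ) h.fac
  rw [Polynomial.map_map, RingHom.eq_intCast' (φ.comp _)] at this
  simpa only [Polynomial.map_prod, Polynomial.map_sub, map_X, map_C, map_lam φ] using this

theorem Pres.of_map {φ : Ω →+* Ω'} (hφ : Function.Injective φ)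
    (h : Pres P p (φ w) fun i => φ (u i)) : Pres P p w u := by
  refine ⟨map_injective φ hφ ?_, hφ (by simpa using h.mul)⟩
  rw [Polynomial.map_map, RingHom.eq_intCast' (φ.comp _), h.fac]
  simp only [Polynomial.map_prod, Polynomial.map_sub, map_X, map_C, map_lam φ]

theorem sum_prod_fin (g : Fin nn → Fin 2 → Ω) :
    ∑ d : Fin nn → Fin 2, ∏ i, g i (d i) = ∏ i, (g i 0 + g i 1) := by
  rw [← Fintype.piFinset_univ, ← prod_univ_sum]
  simp

theorem Pres.psum (h : Pres P p w u) (k : ℕ) : w ^ k * ∏ i, (1 + u i ^ k) = psm P k := by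
  rw [psm, ← (d_psum (Fin nn → Fin 2) P k).choose_spec Ω _ h.fac]
  simp only [lam, mul_pow, ← mul_sum, ← prod_pow]
  rw [sum_prod_fin fun i j => (u i ^ (j : ℕ)) ^ k]
  simp

theorem Pres.root (h : Pres P p w u) (d : Fin nn → Fin 2) : aeval (lam w u d) P = 0 := by
  rw [aeval_def, eval₂_eq_eval_map, algebraMap_int_eq, h.fac, eval_prod]
  exact prod_eq_zero (mem_univ d) (by simp)

end Ring

variable {Ω : Type} [Field Ω] [CharZero Ω] {w : Ω} {u : Fin nn → Ω}

theorem Pres.monic (h : Pres P p w u) : P.Monic :=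
  monic_of_injective (RingHom.injective_int (Int.castRingHom Ω))
    (h.fac ▸ monic_prod_of_monic _ _ fun _ _ => monic_X_sub_C _)

theorem Pres.deg (h : Pres P p w u) : P.natDegree = 2 * gg := by
  rw [← natDegree_map_eq_of_injective (RingHom.injective_int (Int.castRingHom Ω)), h.fac,
    natDegree_finsetProd_X_sub_C_eq_card, card_univ, card_cube]

theorem Pres.ne (h : Pres P p w u) (hp : p ≠ 0) : w ≠ 0 ∧ ∀ i, u i ≠ 0 := by
  have := h.mul ▸ (Nat.cast_ne_zero (R := Ω)).2 hp
  rw [mul_ne_zero_iff, prod_ne_zero_iff] at this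
  exact ⟨ne_zero_pow two_ne_zero this.1, fun i => this.2 i (mem_univ i)⟩

theorem Pres.tt0 (h : Pres P p w u) (hp : p ≠ 0) :
    ∏ i, tt (u i) = (psm P 1 : Ω) ^ 2 / p := by
  obtain ⟨h0, h1⟩ := h.ne hp
  have e : ∀ i, tt (u i) = (1 + u i ^ 1) ^ 2 / u i := fun i => by
    have := h1 i
    rw [tt]; field_simp; ring
  have := prod_ne_zero_iff.2 fun i (_ : i ∈ univ) => h1 i
  rw [← h.psum, ← h.mul]
  simp only [e, prod_div_distrib, prod_pow]
  field_simp

theorem Pres.cubic (h : Pres P p w u) (hq : Uq P p) :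
    (cub P p).map (algebraMap ℚ Ω) = ∏ i, (X - C (tt (u i))) ∧
      (ce1 P p : Ω) = ∑ i, tt (u i) := by
  have h1 : (cub P p).map (algebraMap ℚ Ω) = ∏ i, (X - C (tt (u i))) := by
    rw [cub, dif_pos hq]; exact hq.choose_spec Ω w u h
  refine ⟨h1, ?_⟩
  have h2 := congrArg nextCoeff h1
  rw [nextCoeff_map (algebraMap ℚ Ω).injective, prod_X_sub_C_nextCoeff] at h2
  rw [ce1, Rat.cast_neg, ← eq_ratCast (algebraMap ℚ Ω), h2, neg_neg]

/-- A presentation exists over every algebraically closed field. -/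
theorem Pres.transfer (h : Pres P p w u) (hp : p ≠ 0) (Ω' : Type) [Field Ω'] [CharZero Ω']
    [IsAlgClosed Ω'] : ∃ (w' : Ω') (u' : Fin nn → Ω'), Pres P p w' u' := by
  have ha : ∀ d, lam w u d ∈ algebraicClosure ℚ Ω := fun d =>
    (mem_algebraicClosure_iff'.2 (IsIntegral.tower_top (R := ℤ) ⟨P, h.monic, h.root d⟩))
  have h0 : w ∈ algebraicClosure ℚ Ω := by simpa [lam] using ha 0
  have h1 : ∀ i, u i ∈ algebraicClosure ℚ Ω := fun i => by
    have h2 : lam w u (Pi.single i 1) = w * u i := by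
      rw [lam, prod_eq_single i (fun j _ hj => by simp [hj]) (by simp)]
      simp
    have := div_mem (ha (Pi.single i 1)) h0
    rwa [h2, mul_div_cancel_left₀ _ (h.ne hp).1] at this
  have h2 : Pres P p (⟨w, h0⟩ : algebraicClosure ℚ Ω) fun i => ⟨u i, h1 i⟩ :=
    Pres.of_map (φ := algebraMap _ Ω) (RingHom.injective _) h
  have : Algebra.IsAlgebraic ℚ (algebraicClosure ℚ Ω) := by
    convert algebraicClosure.isAlgebraic ℚ Ω
    exacts [rfl, Subsingleton.elim _ _]
  exact ⟨_, _, h2.map (IsAlgClosed.lift (R := ℚ) (S := algebraicClosure ℚ Ω) (M := Ω')).toRingHom⟩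

end Pool.Agent.MT
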