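import Pool.Agent.Lib.MP_d61fbb_ag.MN.DOrd
import Pool.Agent.Lib.MP_d61fbb_ag.MT.DKp

/-! The local embedding of the integers of the CM field in matrices of size two. -/

set_option autoImplicit false

open Matrix Module Polynomial NumberField

namespace Pool.Agent.MT

/-- A common denominator for the integers of a number field in terms of a generator. -/
theorem exists_den_gen {E : Type} [Field E] [NumberField E] {U : E}
    (hU : Algebra.adjoin ℚ {U} = ⊤) :
    ∃ D : ℕ, D ≠ 0 ∧ ∀ a : 𝓞 E, ∃ q : ℤ[X], (D : E) * a = aeval U q := by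
  have h1 : ∀ x : E, ∃ D : ℕ, D ≠ 0 ∧ ∃ q : ℤ[X], (D : E) * x = aeval U q := fun x => by
    have hx : x ∈ Algebra.adjoin ℚ {U} := hU ▸ Algebra.mem_top
    induction hx using Algebra.adjoin_induction with
    | mem x hx => exact ⟨1, one_ne_zero, X, by simpa using hx⟩
    | algebraMap r => exact ⟨r.den, r.den_ne_zero, C r.num, by
        rw [← map_natCast (algebraMap ℚ E), ← map_mul, Rat.den_mul_eq_num]; simp⟩
    | add x y _ _ hx hy =>
      obtain ⟨a, a0, q, e⟩ := hx
      obtain ⟨b, b0, r, e'⟩ := hy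
      refine ⟨a * b, mul_ne_zero a0 b0, b * q + a * r, ?_⟩
      simp only [map_add, map_mul, map_natCast, ← e, ← e', Nat.cast_mul]
      ring
    | mul x y _ _ hx hy =>
      obtain ⟨a, a0, q, e⟩ := hx
      obtain ⟨b, b0, r, e'⟩ := hy
      refine ⟨a * b, mul_ne_zero a0 b0, q * r, ?_⟩
      simp only [map_mul, ← e, ← e', Nat.cast_mul]
      ring
  classical
  choose D h0 q hq using fun i => h1 (RingOfIntegers.basis E i)
  refine ⟨∏ i, D i, Finset.prod_ne_zero_iff.2 fun i _ => h0 i, fun a => ?_⟩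
  refine ⟨∑ i, C ((RingOfIntegers.basis E).repr a i) *
    ((∏ k ∈ Finset.univ.erase i, D k : ℕ) * q i), ?_⟩
  conv_lhs => rw [← (RingOfIntegers.basis E).sum_repr a]
  simp only [map_sum, map_mul, map_natCast, ← hq, Finset.mul_sum, zsmul_eq_mul, map_intCast,
    eq_intCast]
  refine Finset.sum_congr rfl fun i _ => ?_
  rw [← Finset.mul_prod_erase _ _ (Finset.mem_univ i)]
  push_cast
  ring

section sig

variable {A R Ω ι : Type*} [CommRing A] [CommRing R] [Algebra A R] [Field Ω] [Algebra A Ω]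
  [Fintype ι] [DecidableEq ι] (b : Basis ι A R) {σ : ι → R →ₐ[A] Ω} (hσ : Function.Injective σ)

include hσ

theorem sig_det : (Matrix.of fun i j => σ i (b j)).det ≠ 0 := by
  intro h
  obtain ⟨v, hv, e⟩ := Matrix.exists_vecMul_eq_zero_iff.2 h
  have h1 := (linearIndependent_monoidHom R Ω).comp (fun i => (σ i : R →* Ω))
    fun _ _ hfg => hσ (AlgHom.coe_monoidHom_injective hfg)
  refine hv (funext (Fintype.linearIndependent_iff.1 h1 v (funext fun x => ?_)))
  have h2 : ∀ j, ∑ i, v i * σ i (b j) = 0 := fun j => congrFun e j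
  rw [← b.sum_repr x]
  simp only [Function.comp_apply, Finset.sum_apply, Pi.smul_apply, smul_eq_mul, Pi.zero_apply,
    MonoidHom.coe_coe, map_sum, map_smul, Finset.mul_sum, mul_smul_comm]
  rw [Finset.sum_comm]
  simp only [← Finset.smul_sum, h2, smul_zero, Finset.sum_const_zero]

include b in
theorem sig_inj (hA : Function.Injective (algebraMap A Ω)) {x : R} (hx : ∀ i, σ i x = 0) :
    x = 0 := by
  have h1 := Matrix.eq_zero_of_mulVec_eq_zero (sig_det b hσ)
    (v := fun j => algebraMap A Ω (b.repr x j)) (funext fun i => by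
      rw [Pi.zero_apply, ← hx i]
      conv_rhs => rw [← b.sum_repr x]
      simp [mulVec, dotProduct, Algebra.smul_def, mul_comm])
  refine b.ext_elem fun j => hA ?_
  simpa using congrFun h1 j

include b in
theorem sig_norm (x : R) : algebraMap A Ω (Algebra.norm A x) = ∏ i, σ i x := by
  have h1 : (Matrix.of fun i j => σ i (b j)) * (Algebra.leftMulMatrix b x).map (algebraMap A Ω) =
      diagonal (fun i => σ i x) * Matrix.of fun i j => σ i (b j) := by
    ext i j
    rw [diagonal_mul, of_apply, ← map_mul, ← b.sum_repr (x * b j)]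
    simp [mul_apply, Algebra.leftMulMatrix_eq_repr_mul, Algebra.smul_def, mul_comm]
  have h2 := congrArg det h1
  rw [det_mul, det_mul, det_diagonal, mul_comm] at h2
  rw [Algebra.norm_eq_matrix_det b, RingHom.map_det, ← mul_right_cancel₀ (sig_det b hσ) h2]
  rfl

end sig

/-- Conjugation by an invertible rectangular matrix. -/
def cjHom {m n K : Type*} [Fintype m] [DecidableEq m] [Fintype n] [DecidableEq n] [CommRing K]
    {Q : Matrix n m K} {Q' : Matrix m n K} (h : Q * Q' = 1) (h' : Q' * Q = 1) :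
    Matrix m m K →ₐ[K] Matrix n n K where
  toFun x := Q * x * Q'
  map_one' := by rw [Matrix.mul_one, h]
  map_mul' x y := by
    simp only [Matrix.mul_assoc]
    rw [← Matrix.mul_assoc Q', h', Matrix.one_mul]
  map_zero' := by simp
  map_add' x y := by rw [Matrix.mul_add, Matrix.add_mul]
  commutes' r := by simp [Algebra.algebraMap_eq_smul_one, h]

theorem cj_charpoly {m n K : Type*} [Fintype m] [DecidableEq m] [Fintype n] [DecidableEq n]
    [Field K] {Q : Matrix n m K} {Q' : Matrix m n K} (h : Q * Q' = 1) (h' : Q' * Q = 1)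
    (x : Matrix m m K) : (Q * x * Q').charpoly = x.charpoly := by
  have h1 := charpoly_mul_comm' (Q * x) Q'
  rw [← Matrix.mul_assoc, h', Matrix.one_mul, Fintype.card_congr (indexEquivOfInv h h')] at h1
  exact mul_left_cancel₀ (pow_ne_zero _ X_ne_zero) h1

/-- Matrices of size two with distinct eigenvalues are diagonalisable. -/
theorem diag_two {K : Type*} [Field K] (g : Matrix (Fin 2) (Fin 2) K) {a b : K}
    (ht : g.trace = a + b) (hd : g.det = a * b) (h : a ≠ b) :
    ∃ Q Q' : Matrix (Fin 2) (Fin 2) K, Q * Q' = 1 ∧ g = Q * diagonal ![a, b] * Q' := by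
  obtain ⟨Q, Q', T, k1, k2, k3, k4, k5⟩ := tri_two g (a := a) (by rw [ht, hd]; ring)
  have h1 := sub_ne_zero.2 h.symm
  have h2 : T = !![1, T 0 1 / (b - a); 0, 1] * diagonal ![a, b] *
      !![1, -(T 0 1 / (b - a)); 0, 1] := by
    ext i j
    fin_cases i <;> fin_cases j <;>
      simp [mul_apply, Fin.sum_univ_two, k3, k4, k5, ht, vecMul_diagonal]
    field_simp
    ring
  refine ⟨Q * !![1, T 0 1 / (b - a); 0, 1], !![1, -(T 0 1 / (b - a)); 0, 1] * Q', ?_, ?_⟩
  · rw [mul_assoc, ← mul_assoc _ _ Q', mul_fin_two]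
    simpa [← one_fin_two] using k1
  · rw [k2]
    conv_lhs => rw [h2]
    simp only [mul_assoc]

theorem hom_aeval {S A B : Type*} [CommRing S] [Ring A] [Ring B] [Algebra S A] [Algebra S B]
    [Subsingleton (S →+* B)] (f : A →+* B) (x : A) (q : S[X]) :
    f (aeval x q) = aeval (f x) q := by
  rw [aeval_def, aeval_def, hom_eval₂, Subsingleton.elim (f.comp _) (algebraMap S B)]

theorem aeval_diag {n K : Type*} [Fintype n] [DecidableEq n] [Field K] [CharZero K] (d : n → K)
    (f : ℚ[X]) : aeval (diagonal d) f = diagonal fun i => aeval (d i) f := by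
  have := aeval_algHom_apply ((diagonalAlgHom K (n := n)).restrictScalars ℚ) d f
  simp only [AlgHom.restrictScalars_apply, diagonalAlgHom_apply] at this
  rw [this]
  congr 1
  funext i
  exact (aeval_algHom_apply (Pi.evalAlgHom ℚ (fun _ : n => K) i) d f).symm

/-- Clearing the denominators of a polynomial identity. -/
theorem aeval_clear {l : ℕ} [Fact l.Prime] {n : Type*} [Fintype n] [DecidableEq n]
    {x y : Matrix n n ℤ_[l]} {f : ℚ[X]} {q : ℤ[X]} {D : ℤ}
    (h : y.map (algebraMap ℤ_[l] ℚ_[l]) = aeval (x.map (algebraMap ℤ_[l] ℚ_[l])) f)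
    (hq : C (D : ℚ) * f = q.map (Int.castRingHom ℚ)) : D • y = aeval x q := by
  refine Matrix.map_injective (f := algebraMap ℤ_[l] ℚ_[l]) Subtype.val_injective ?_
  have e1 := hom_aeval (algebraMap ℤ_[l] ℚ_[l]).mapMatrix x q
  change Matrix.map _ _ = aeval (Matrix.map _ _) q at e1
  change Matrix.map _ _ = Matrix.map _ _
  rw [e1, ← aeval_map_algebraMap ℚ, algebraMap_int_eq, ← hq, map_mul, ← h, aeval_C,
    Matrix.map_smul _ _ (map_zsmul _ _), map_intCast, zsmul_eq_mul]

variable [Dim]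

/-- A common denominator for the integers of the CM field. -/
noncomputable def DF.den {P : ℤ[X]} {p : ℕ} {E : Type} [Field E] [NumberField E] (F : DF P p E) :
    ℕ := (exists_den_gen F.gen).choose

theorem DF.den_ne {P : ℤ[X]} {p : ℕ} {E : Type} [Field E] [NumberField E] (F : DF P p E) :
    F.den ≠ 0 := (exists_den_gen F.gen).choose_spec.1

/-- The conjugation on the ring of integers. -/
noncomputable def DF.cO {P : ℤ[X]} {p : ℕ} {E : Type} [Field E] [NumberField E] (F : DF P p E) :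
    𝓞 E ≃+* 𝓞 E := RingOfIntegers.mapRingEquiv F.c.toRingEquiv

/-- Block D2: the type norm is induced by an embedding in matrices of size two. -/
theorem d_loc {P : ℤ[X]} {p : ℕ} {E : Type} [Field E] [NumberField E] (F : DF P p E)
    {l : ℕ} [Fact l.Prime] (hl : ¬ l ∣ F.den) {R : Type*} [CommRing R] [Algebra ℤ_[l] R]
    {Ω : Type} [Field Ω] [CharZero Ω] [IsAlgClosed Ω] [Algebra ℤ_[l] Ω] [Algebra ℚ_[l] Ω]
    [IsScalarTower ℤ_[l] ℚ_[l] Ω] {ι : Type*} [Fintype ι] [DecidableEq ι]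
    (b : Basis (Fin nn) ℤ_[l] R) (σ : Fin nn → R →ₐ[ℤ_[l]] Ω)
    (Nm : Matrix (Fin 2) (Fin 2) R →* Matrix ι ι ℤ_[l])
    {Q : Matrix ι (Fin nn → Fin 2) Ω} {Q' : Matrix (Fin nn → Fin 2) ι Ω} (h1 : Q * Q' = 1)
    (h2 : Q' * Q = 1)
    (hN : ∀ g, (Nm g).map (algebraMap ℤ_[l] Ω) * Q = Q * kp fun i => g.map (σ i))
    {c : ℤ_[l]} {g : Matrix (Fin 2) (Fin 2) R} (hg : IsUnit g.det)
    (hP : (c • Nm g).charpoly = P.map (Int.castRingHom ℤ_[l]))
    (hm : algebraMap ℤ_[l] Ω c ^ 2 * ∏ i, σ i g.det = p) :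
    ∃ j : 𝓞 E →+* Matrix (Fin 2) (Fin 2) R,
      (∀ a : 𝓞 E, (Nm (j a)).map (algebraMap ℤ_[l] ℚ_[l]) =
        aeval ((c • Nm g).map (algebraMap ℤ_[l] ℚ_[l])) (F.f a)) ∧
      (∀ a, Algebra.norm ℤ_[l] (j a).det = (Algebra.norm ℤ a : ℤ)) ∧
      ∀ a, j (a * F.cO a) = (j a).det • 1 := by
  have hA : Function.Injective (algebraMap ℤ_[l] Ω) := by
    rw [IsScalarTower.algebraMap_eq ℤ_[l] ℚ_[l] Ω]
    exact (algebraMap ℚ_[l] Ω).injective.comp Subtype.val_injective
  have hN' : ∀ g, (Nm g).map (algebraMap ℤ_[l] Ω) = Q * (kp fun i => g.map (σ i)) * Q' :=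
    fun g => by rw [← hN, Matrix.mul_assoc, h1, Matrix.mul_one]
  have hd : ∀ (m : Matrix (Fin 2) (Fin 2) R) i, (m.map (σ i)).det = σ i m.det := fun m i =>
    ((σ i).map_det m).symm
  choose x y ht hx using fun i => eig_two (g.map (σ i)).trace (g.map (σ i)).det
  have h0 : ∀ i, x i ≠ 0 ∧ y i ≠ 0 := fun i => by
    rw [← mul_ne_zero_iff, ← hx, hd]
    exact (hg.map (σ i)).ne_zero
  have hl0 : ∀ d, lam (algebraMap ℤ_[l] Ω c * ∏ i, x i) (fun i => y i / x i) d =
      algebraMap ℤ_[l] Ω c * ∏ i, ![x i, y i] (d i) := fun d => by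
    rw [lam, mul_assoc, ← Finset.prod_mul_distrib]
    refine congrArg _ (Finset.prod_congr rfl fun i _ => ?_)
    generalize d i = k
    fin_cases k <;> simp [mul_div_cancel₀ _ (h0 i).1]
  have hρ : (c • Nm g).map (algebraMap ℤ_[l] Ω) =
      Q * (algebraMap ℤ_[l] Ω c • kp fun i => g.map (σ i)) * Q' := by
    rw [Matrix.mul_smul, Matrix.smul_mul, ← hN']
    ext i k
    simp
  have hpr : Pres P p (algebraMap ℤ_[l] Ω c * ∏ i, x i) fun i => y i / x i := by
    refine ⟨?_, ?_⟩
    · simp only [hl0]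
      rw [← kp_charpoly _ (fun i => g.map (σ i)) (fun i => ![x i, y i]) ht hx,
        ← cj_charpoly h1 h2, ← hρ, charpoly_map, hP, Polynomial.map_map,
        RingHom.eq_intCast' (RingHom.comp _ _)]
    · rw [← hm, mul_pow, mul_assoc, ← Finset.prod_pow, ← Finset.prod_mul_distrib]
      refine congrArg _ (Finset.prod_congr rfl fun i _ => ?_)
      have := (h0 i).1
      rw [← hd, hx]
      field_simp
  obtain ⟨hi, φ, k1, k2, k3⟩ := F.emb Ω _ _ hpr
  have hxy : ∀ i, x i ≠ y i := fun i e => F.cne (by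
    have : F.U = 1 := (φ i).injective (by rw [k1, map_one, ← e, div_self (h0 i).1])
    rw [this, map_one])
  have hσ : Function.Injective σ := fun i k e => by
    by_contra hik
    obtain ⟨n1, n2⟩ := lam_ne hi hik
    have e1 : x i + y i = x k + y k := by rw [← ht, ← ht, e]
    have e2 : x i * y i = x k * y k := by rw [← hx, ← hx, e]
    have e3 : (x i - x k) * (x i - y k) = 0 := by linear_combination x i * e1 - e2
    rcases mul_eq_zero.1 e3 with e4 | e4
    · exact n1 (by rw [sub_eq_zero.1 e4, show y i = y k by linear_combination e1 - e4])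
    · refine n2 ?_
      have := (h0 k).1
      have := (h0 k).2
      rw [sub_eq_zero.1 e4, show y i = x k by linear_combination e1 - e4]
      field_simp
  have hI : ∀ m m' : Matrix (Fin 2) (Fin 2) R, (∀ i, m.map (σ i) = m'.map (σ i)) → m = m' :=
    fun m m' h => Matrix.ext fun r s => sub_eq_zero.1 (sig_inj b hσ hA fun i => by
      rw [map_sub, sub_eq_zero]
      exact congrFun (congrFun (h i) r) s)
  choose T T' t1 t2 using fun i => diag_two (g.map (σ i)) (ht i) (hx i) (hxy i)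
  have t1' : ∀ i, T' i * T i = 1 := fun i => mul_eq_one_comm.1 (t1 i)
  obtain ⟨ψ, hψ⟩ : ∃ ψ : Fin nn → E →+* Matrix (Fin 2) (Fin 2) Ω, ∀ i a,
      ψ i a = T i * diagonal (fun k => φ i (if k = 1 then a else F.c a)) * T' i := by
    refine ⟨fun i => (cjHom (t1 i) (t1' i)).toRingHom.comp ((diagonalRingHom (Fin 2) Ω).comp
      (RingHom.pi fun k => (φ i).comp (if k = 1 then RingHom.id E else F.c))), fun i a => ?_⟩
    change T i * diagonal (fun k => φ i ((if k = 1 then RingHom.id E else (F.c : E →+* E)) a)) *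
      T' i = _
    congr 3
    funext k
    split_ifs <;> rfl
  have hU : ∀ i, ((↑hg.unit⁻¹ : R) • (g * g)).map (σ i) = ψ i F.U := fun i => by
    have a1 := (h0 i).1
    have a2 := (h0 i).2
    have e1 : σ i (↑hg.unit⁻¹ : R) = (x i * y i)⁻¹ :=
      eq_inv_of_mul_eq_one_left (by rw [← hx, hd, ← map_mul, hg.val_inv_mul, map_one])
    have e2 : φ i (F.c F.U) = x i / y i := by
      rw [eq_inv_of_mul_eq_one_left F.cU, map_inv₀, k1, inv_div]
    have e3 : ((↑hg.unit⁻¹ : R) • (g * g)).map (σ i) =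
        σ i (↑hg.unit⁻¹ : R) • (g.map (σ i) * g.map (σ i)) := by
      ext r s
      simp [mul_apply]
    rw [e3, e1, hψ, t2 i]
    simp only [Matrix.mul_assoc]
    rw [← Matrix.mul_assoc (T' i), t1', Matrix.one_mul, ← Matrix.mul_assoc (diagonal _),
      diagonal_mul_diagonal, ← Matrix.mul_smul, ← Matrix.smul_mul, ← diagonal_smul]
    congr 3
    funext k
    fin_cases k <;> simp [e2, k1] <;> field_simp
  have hD : IsUnit (F.den : ℤ_[l]) := by
    rw [PadicInt.isUnit_iff, PadicInt.norm_natCast_eq_one_iff]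
    exact (Nat.Prime.coprime_iff_not_dvd Fact.out).2 hl
  have hj : ∀ a : 𝓞 E, ∃ m : Matrix (Fin 2) (Fin 2) R, ∀ i, m.map (σ i) = ψ i a := fun a => by
    obtain ⟨q, hq⟩ := (exists_den_gen F.gen).choose_spec.2 a
    refine ⟨(↑hD.unit⁻¹ : ℤ_[l]) • aeval ((↑hg.unit⁻¹ : R) • (g * g)) q, fun i => ?_⟩
    have e1 := hom_aeval (σ i).toRingHom.mapMatrix ((↑hg.unit⁻¹ : R) • (g * g)) q
    change Matrix.map _ (σ i) = aeval (Matrix.map _ (σ i)) q at e1
    rw [hU, ← hom_aeval, ← hq, map_mul, map_natCast] at e1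
    rw [Matrix.map_smul _ _ (map_smul (σ i) _), e1, ← nsmul_eq_mul,
      ← Nat.cast_smul_eq_nsmul ℤ_[l], smul_smul]
    change ((↑hD.unit⁻¹ : ℤ_[l]) * F.den) • _ = _
    rw [hD.val_inv_mul, one_smul]
  choose j hj using hj
  have hmul : ∀ (m m' : Matrix (Fin 2) (Fin 2) R) i, (m * m').map (σ i) =
      m.map (σ i) * m'.map (σ i) := fun m m' i => Matrix.map_mul
  have hdet : ∀ (a : 𝓞 E) i, σ i (j a).det = φ i (a * F.c a) := fun a i => by
    rw [← hd, hj, hψ, det_mul_comm, ← Matrix.mul_assoc, t1', Matrix.one_mul, det_diagonal]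
    simp [mul_comm]
  refine ⟨⟨⟨⟨j, hI _ _ fun i => ?_⟩, fun a a' => hI _ _ fun i => ?_⟩, hI _ _ fun i => ?_,
    fun a a' => hI _ _ fun i => ?_⟩, fun a => ?_, fun a => hA ?_, fun a => hI _ _ fun i => ?_⟩
  · simp [hj]
  · simp [hj, hmul]
  · simp [hj]
  · rw [Matrix.map_add _ (map_add (σ i))]
    simp [hj]
  · refine Matrix.map_injective (algebraMap ℚ_[l] Ω).injective ?_
    have e1 := hom_aeval (algebraMap ℚ_[l] Ω).mapMatrix
      ((c • Nm g).map (algebraMap ℤ_[l] ℚ_[l])) (F.f a)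
    have u1 : (Q * kp T) * (kp T' * Q') = 1 := by
      rw [Matrix.mul_assoc, ← Matrix.mul_assoc (kp T), ← kp_mul]
      simp only [t1, kp_one, Matrix.one_mul, h1]
    have u2 : (kp T' * Q') * (Q * kp T) = 1 := by
      rw [Matrix.mul_assoc, ← Matrix.mul_assoc Q', h2, Matrix.one_mul, ← kp_mul]
      simp only [t1', kp_one]
    have e2 : ∀ z : Matrix (Fin nn → Fin 2) (Fin nn → Fin 2) Ω,
        Q * kp T * aeval z (F.f a) * (kp T' * Q') =
        aeval (Q * kp T * z * (kp T' * Q')) (F.f a) := fun z =>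
      hom_aeval (cjHom u1 u2).toRingHom z (F.f a)
    change Matrix.map _ (algebraMap ℚ_[l] Ω) = aeval (Matrix.map _ (algebraMap ℚ_[l] Ω)) _ at e1
    have e3 : (c • Nm g).map (algebraMap ℤ_[l] Ω) = Q * kp T *
        diagonal (lam (algebraMap ℤ_[l] Ω c * ∏ i, x i) fun i => y i / x i) * (kp T' * Q') := by
      rw [hρ, show (fun i => g.map (σ i)) = _ from funext t2, kp_mul, kp_mul, kp_diagonal,
        funext hl0, ← Matrix.smul_mul, ← Matrix.mul_smul, ← diagonal_smul]
      simp only [Matrix.mul_assoc]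
      rfl
    refine Eq.trans ?_ e1.symm
    change Matrix.map _ _ = _
    rw [Matrix.map_map, Matrix.map_map, ← RingHom.coe_comp, ← IsScalarTower.algebraMap_eq,
      e3, ← e2, aeval_diag, hN']
    simp only [k2, RingHom.coe_mk, MonoidHom.coe_mk, OneHom.coe_mk, hj, hψ, kp_mul, kp_diagonal,
      Matrix.mul_assoc]
  · rw [sig_norm b hσ, map_intCast, ← Rat.cast_intCast, Algebra.coe_norm_int, k3]
    exact Finset.prod_congr rfl fun i _ => hdet a i
  · have e1 : ((a * F.cO a : 𝓞 E) : E) = a * F.c a := rfl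
    have e2 : ((j a).det • (1 : Matrix (Fin 2) (Fin 2) R)).map (σ i) = σ i (j a).det • 1 := by
      ext r s
      by_cases h : r = s <;> simp [h, one_apply]
    simp only [RingHom.coe_mk, MonoidHom.coe_mk, OneHom.coe_mk]
    rw [hj, e1, e2, hdet, hψ, map_mul F.c, F.cc, mul_comm (F.c a)]
    simp only [ite_self]
    rw [← smul_one_eq_diagonal, Matrix.mul_smul, Matrix.smul_mul, Matrix.mul_one, t1]

end Pool.Agent.MT
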