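import Pool.Agent.Lib.MP_d61fbb_ag.MN.D0b
import Pool.Agent.Lib.MP_d61fbb_ag.MN.DAlg1
import Pool.Agent.Lib.MP_d61fbb_ag.MT.DKp

/-! Choice of the place at an arbitrary auxiliary prime. -/

set_option autoImplicit false

open Matrix Polynomial Finset

namespace Pool.Agent.MT

open Pool.Agent.Lib.MP_696deb_nt.B2

variable [Dim]

/-- What is asked of the Frobenius element at the auxiliary prime. -/
def GenU {Ω : Type} [NormedField Ω] (u : Fin nn → Ω) : Prop :=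
  Ind u ∧ (∃ r < 1, ∀ i, ‖4 - tt (u i)‖ ≤ r) ∧ ∑ i, (4 - tt (u i)) ≠ 0

theorem gen_of_ap {Ω : Type} [NormedField Ω] [IsUltrametricDist Ω] {r : ℝ} (r0 : 0 < r) {κ : Ω}
    (hκ : ‖κ‖ = r) {y u : Fin nn → Ω}
    (hL : ∀ δ : Fin nn → ℤ, (∀ i, |δ i| ≤ 2) → δ ≠ 0 → r < ‖∑ i, δ i * y i‖)
    (hQ : r < ‖∑ i, y i ^ 2‖) (hu : ∀ i, Ap r (u i) (κ * y i) ∨ Ap r (u i) (-(κ * y i))) :
    GenU u := by
  have h1 : ∀ i, ∃ s : ℤ, s * s = 1 ∧ Ap r (u i) (s * (κ * y i)) := fun i =>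
    (hu i).elim (fun h => ⟨1, rfl, by simpa using h⟩) fun h => ⟨-1, rfl, by simpa using h⟩
  choose s s1 s2 using h1
  have r1 := (s2 0).2.2
  have u0 : ∀ i, u i ≠ 0 := fun i => norm_ne_zero_iff.1 ((s2 i).norm ▸ one_ne_zero)
  refine ⟨fun δ hδ e => ?_, ⟨r * r, mul_lt_one_of_nonneg_of_lt_one_left r0.le r1 r1.le, fun i => ?_⟩,
    fun e => hQ.not_ge ?_⟩
  · have k1 := (ap_prod r0.le r1 univ fun i => (s2 i).zpow (δ i)).1
    rw [e, sub_self, zero_sub, norm_neg, show ∑ i, (δ i : Ω) * (s i * (κ * y i)) =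
      κ * ∑ i, (δ i * s i : ℤ) * y i by
        rw [mul_sum]; exact sum_congr rfl fun i _ => by push_cast; ring,
      norm_mul, hκ, mul_le_mul_iff_right₀ r0] at k1
    have k2 := of_not_not (mt (hL (fun i => δ i * s i) fun i => by
      rw [abs_mul, Int.isUnit_iff_abs_eq.1 (.of_mul_eq_one _ (s1 i)), mul_one]
      exact hδ i) k1.not_gt)
    funext i
    exact (mul_eq_zero.1 (congrFun k2 i)).resolve_right (left_ne_zero_of_mul_eq_one (s1 i))
  · have := u0 i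
    rw [show 4 - tt (u i) = -((u i)⁻¹ * ((u i - 1) * (u i - 1))) by rw [tt]; field_simp; ring,
      norm_neg, norm_mul, norm_inv, (s2 i).norm, inv_one, one_mul]
    exact ap_mul (s2 i).sub_one (s2 i).sub_one
  · have k1 : ∀ i, ‖4 - tt (u i) + κ * κ * y i ^ 2‖ ≤ r * r * r := fun i => by
      have := u0 i
      have k2 : (s i : Ω) * s i = 1 := by exact_mod_cast congrArg (Int.cast : ℤ → Ω) (s1 i)
      have k3 : κ * κ * y i ^ 2 = (s i * (κ * y i)) * (s i * (κ * y i)) := by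
        linear_combination -(κ * y i) ^ 2 * k2
      rw [k3]
      have k4 := s2 i
      generalize s i * (κ * y i) = e at k4
      rw [show 4 - tt (u i) + e * e = (u i)⁻¹ * (e * e * (u i - 1) -
        (u i - 1 - e) * (u i - 1 + e)) by rw [tt]; field_simp; ring, norm_mul, norm_inv, k4.norm,
        inv_one, one_mul]
      exact ap_sub (ap_mul (ap_mul k4.2.1 k4.2.1) k4.sub_one)
        (ap_mul k4.1 (ap_add k4.sub_one k4.2.1))
    have k2 := IsUltrametricDist.norm_sum_le_of_forall_le_of_nonneg (s := univ) (by positivity)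
      fun i _ => k1 i
    rwa [sum_add_distrib, e, zero_add, ← mul_sum, norm_mul, norm_mul, hκ,
      mul_le_mul_iff_right₀ (by positivity)] at k2

variable {l : ℕ} [Fact l.Prime] {R ι : Type*} [CommRing R] [Algebra ℤ_[l] R] [Fintype ι]
  [DecidableEq ι] {σ : Fin nn → R →ₐ[ℤ_[l]] PadicAlgCl l}

theorem exists_y {θ : R} (hθ : Function.Injective fun i => σ i θ) : ∃ (y : R) (m : ℕ),
    (∀ δ : Fin nn → ℤ, (∀ i, |δ i| ≤ 2) → δ ≠ 0 → (l : ℝ)⁻¹ ^ (m + 1) < ‖∑ i, δ i * σ i y‖) ∧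
      (l : ℝ)⁻¹ ^ (m + 1) < ‖∑ i, σ i y ^ 2‖ := by
  let f : Fin nn → (PadicAlgCl l)[X] := fun i => ∑ k : Fin nn, monomial k (σ i θ ^ (k : ℕ))
  let T := (Fintype.piFinset fun _ : Fin nn => Icc (-2 : ℤ) 2).erase 0
  have h0 : ∀ i (k : Fin nn), (f i).coeff k = σ i θ ^ (k : ℕ) := fun i k => by
    simp [f, coeff_monomial, Fin.val_inj]
  have h1 : (∏ δ ∈ T, ∑ i, C (δ i : PadicAlgCl l) * f i) * ∑ i, f i ^ 2 ≠ 0 := by
    refine mul_ne_zero (prod_ne_zero_iff.2 fun δ hδ e => (mem_erase.1 hδ).1 ?_) fun e => ?_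
    · have := eq_zero_of_forall_pow_sum_mul_pow_eq_zero (v := fun i => (δ i : PadicAlgCl l)) hθ
        fun k => by simpa [h0] using congrArg (coeff · k) e
      exact funext fun i => Int.cast_eq_zero.1 (congrFun this i)
    · have k1 := congrArg (coeff · 0) e
      have k2 : ∀ i, (f i).coeff 0 = 1 := fun i => by simpa using h0 i 0
      simp [sq, k2, NeZero.ne nn] at k1
  obtain ⟨ρ, hρ⟩ : ∃ ρ : ℕ, eval (ρ : PadicAlgCl l)
      ((∏ δ ∈ T, ∑ i, C (δ i : PadicAlgCl l) * f i) * ∑ i, f i ^ 2) ≠ 0 := by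
    by_contra! k
    exact h1 (eq_zero_of_infinite_isRoot _
      (Set.infinite_of_injective_forall_mem Nat.cast_injective k))
  have h2 : ∀ i, eval (ρ : PadicAlgCl l) (f i) = σ i (∑ k : Fin nn, θ ^ (k : ℕ) * ρ ^ (k : ℕ)) :=
    fun i => by simp [f, eval_finsetSum]
  simp only [eval_mul, eval_prod, eval_finsetSum, eval_pow, eval_C, h2, mul_ne_zero_iff,
    prod_ne_zero_iff] at hρ
  have h3 := (tendsto_pow_atTop_nhds_zero_of_lt_one (dn1_pos (l := l)).le dn1_lt).comp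
    (Filter.tendsto_add_atTop_nat 1)
  obtain ⟨m, k1, k2⟩ := ((T.eventually_all.2 fun δ hδ =>
    h3.eventually (gt_mem_nhds (norm_pos_iff.2 (hρ.1 δ hδ)))).and
    (h3.eventually (gt_mem_nhds (norm_pos_iff.2 hρ.2)))).exists
  exact ⟨_, m, fun δ a b => k1 δ (mem_erase.2 ⟨b, Fintype.mem_piFinset.2 fun i =>
    mem_Icc.2 (abs_le.1 (a i))⟩), k2⟩

/-- The choice of the place. -/
theorem d_choice [Module.Finite ℤ_[l] R] (hl : l ≠ 2) {θ : R}
    (hθ : Function.Injective fun i => σ i θ)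
    (Nm : Matrix (Fin 2) (Fin 2) R →* Matrix ι ι ℤ_[l])
    {Q : Matrix ι (Fin nn → Fin 2) (PadicAlgCl l)} {Q' : Matrix (Fin nn → Fin 2) ι (PadicAlgCl l)}
    (h2 : Q' * Q = 1) (i1 : ∀ i j, ‖Q i j‖ ≤ 1) (i2 : ∀ i j, ‖Q' i j‖ ≤ 1)
    (hN : ∀ g, (Nm g).map (algebraMap _ _) = Q * kp (fun i => g.map (σ i)) * Q')
    {G : Subgroup Gam} (ρ : G →* Matrix ι ι ℤ_[l])
    (cont : ∀ N : ℕ, ∃ U : Subgroup Gam, Op U ∧ U ≤ G ∧
      ∀ s : G, s.1 ∈ U → ∀ i j, (l : ℤ_[l]) ^ N ∣ (ρ s - 1) i j)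
    (big : ∀ h : Matrix (Fin 2) (Fin 2) R, h.det = 1 → ∃ s, ρ s = Nm h) (B : Finset ℕ) :
    ∃ (w : Plc) (φ : G), w.p ∉ B ∧ IsFrob w w.p φ ∧ ∀ (c : ℤ_[l]) (g : Matrix (Fin 2) (Fin 2) R)
      (a b : Fin nn → PadicAlgCl l), ρ φ = c • Nm g → (∀ i, (g.map (σ i)).trace = a i + b i) →
      (∀ i, (g.map (σ i)).det = a i * b i) → GenU fun i => a i / b i := by
  obtain ⟨y, m, hL, hQ⟩ := exists_y hθ
  set r := (l : ℝ)⁻¹ ^ (m + 1) with hr
  have r0 : 0 < r := pow_pos dn1_pos _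
  have r1 : r < 1 := pow_lt_one₀ dn1_pos.le dn1_lt m.succ_ne_zero
  obtain ⟨z', hz⟩ := (d0_unit (l := l) ((l : R) ^ m * y)).exists_right_inv
  rw [← mul_assoc, ← pow_succ'] at hz
  obtain ⟨s, hs⟩ := big (diagonal ![1 + l ^ (m + 1) * y, z']) (by simp [hz])
  obtain ⟨U, u1, u2, u3⟩ := cont ((m + 1) * 4)
  let f := (PadicInt.toZModPow (p := l) ((m + 1) * 4)).mapMatrix (m := ι)
  let r' := (f.toMonoidHom.comp ρ).toHomUnits
  have hr' : Op (r'.ker.map G.subtype) := by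
    refine Subgroup.isOpen_mono (fun x hx => ⟨⟨x, u2 hx⟩, Units.ext ?_, rfl⟩) u1
    change f (ρ _) = 1
    rw [← sub_eq_zero, ← map_one f, ← map_sub]
    ext i j
    have := u3 ⟨x, u2 hx⟩ hx i j
    rwa [← Ideal.mem_span_singleton, ← PadicInt.ker_toZModPow] at this
  obtain ⟨w, φ, k, k1, k2, k3, k4⟩ := d_cheb_fin (l := l) r' hr' s hl B
  refine ⟨w, φ, k1, k2, fun c g a b e ha hb => ?_⟩
  have k5 : f (ρ φ) = f (ρ s) ^ k := (congrArg Units.val k4).trans (Units.val_pow_eq_pow_val _ _)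
  rw [e, hs, ← map_pow, ← map_pow, ← sub_eq_zero, ← map_sub] at k5
  have hy : ∀ i, ‖σ i y‖ ≤ 1 := fun i => dn1_int ((Algebra.IsIntegral.isIntegral y).map (σ i))
  have hn : ∀ k : ℕ, ¬ l ∣ k → ‖(k : PadicAlgCl l)‖ = 1 := fun k hk => by
    rw [← map_natCast (algebraMap ℤ_[l] _), dn1_norm]
    exact PadicInt.norm_natCast_eq_one_iff.2 ((Fact.out : l.Prime).coprime_iff_not_dvd.2 hk)
  have hl' : ‖(l : PadicAlgCl l) ^ (m + 1)‖ = r := by rw [norm_pow, dn1_l]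
  let z : Fin nn → PadicAlgCl l := fun i => (1 + l ^ (m + 1) * σ i y) ^ k
  have z1 : ∀ i, Ap r (z i) (k * (l ^ (m + 1) * σ i y)) := fun i =>
    Ap.pow ⟨by simpa using mul_self_nonneg r, (ap_mul hl'.le (hy i)).trans_eq (mul_one _), r1⟩ k
  have z2 : ∀ i, (diagonal ![1 + (l : R) ^ (m + 1) * y, z'] ^ k).map (σ i) =
      diagonal ![z i, (z i)⁻¹] := fun i => by
    have := congrArg (σ i) hz
    simp only [map_mul, map_add, map_one, map_pow, map_natCast] at this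
    rw [diagonal_pow, diagonal_map (map_zero _)]
    congr 1
    funext j
    fin_cases j <;> simp [z, eq_inv_of_mul_eq_one_right this]
  have k6 : ∀ x x', ‖(algebraMap ℤ_[l] (PadicAlgCl l) c • kp (fun i => g.map (σ i)) -
      kp fun i => diagonal ![z i, (z i)⁻¹]) x x'‖ ≤ r ^ 4 := fun x x' => by
    have k7 : algebraMap ℤ_[l] (PadicAlgCl l) c • kp (fun i => g.map (σ i)) -
        kp (fun i => diagonal ![z i, (z i)⁻¹]) = Q' * (c • Nm g - Nm (diagonal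
          ![1 + (l : R) ^ (m + 1) * y, z'] ^ k)).map (algebraMap ℤ_[l] (PadicAlgCl l)) * Q := by
      rw [Matrix.map_sub _ (map_sub _), Matrix.map_smul' _ _ _ (map_mul _), hN, hN]
      simp only [z2, Matrix.mul_sub, Matrix.sub_mul, Matrix.mul_smul, Matrix.smul_mul,
        Matrix.mul_assoc, h2, Matrix.mul_one]
      simp only [← Matrix.mul_assoc, h2, Matrix.one_mul]
    rw [k7, mul_apply]
    refine IsUltrametricDist.norm_sum_le_of_forall_le_of_nonneg (by positivity) fun j _ =>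
      (ap_mul ?_ (i1 _ _)).trans_eq (mul_one _)
    rw [mul_apply]
    refine IsUltrametricDist.norm_sum_le_of_forall_le_of_nonneg (by positivity) fun i _ =>
      (ap_mul (i2 _ _) ?_).trans_eq (one_mul _)
    rw [hr, ← pow_mul]
    refine dn1_dvd ?_
    rw [← Ideal.mem_span_singleton, ← PadicInt.ker_toZModPow]
    exact congrFun (congrFun k5 i) j
  refine gen_of_ap r0 (κ := (2 * k * l ^ (m + 1) : PadicAlgCl l)) (by
    rw [norm_mul, hl', ← Nat.cast_two, ← Nat.cast_mul, hn, one_mul]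
    exact fun h => ((Fact.out : l.Prime).dvd_mul.1 h).elim
      (fun h => hl ((Nat.prime_dvd_prime_iff_eq Fact.out Nat.prime_two).1 h)) k3) hL hQ fun i => ?_
  have k7 : ∀ (G : Fin nn → Matrix (Fin 2) (Fin 2) (PadicAlgCl l)) s t,
      kp G (Pi.single i s) (Pi.single i t) = G i s t * ∏ j ∈ univ.erase i, G j 0 0 := fun G s t => by
    rw [kp_apply, ← mul_prod_erase _ _ (mem_univ i), Pi.single_eq_same, Pi.single_eq_same]
    exact congrArg _ (prod_congr rfl fun j hj => by simp [(mem_erase.1 hj).1])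
  have k8 : ‖∏ j ∈ univ.erase i, z j‖ = 1 := by
    rw [norm_prod]
    exact prod_eq_one fun j _ => (z1 j).norm
  have k9 : ∏ j ∈ univ.erase i, z j ≠ 0 := norm_ne_zero_iff.1 (k8 ▸ one_ne_zero)
  obtain ⟨γ, hγ⟩ : ∃ γ : PadicAlgCl l, ∀ s t,
      ‖(γ • g.map (σ i)) s t - diagonal ![z i, (z i)⁻¹] s t‖ ≤ r ^ 4 := by
    refine ⟨algebraMap ℤ_[l] _ c * (∏ j ∈ univ.erase i, g.map (σ j) 0 0) / ∏ j ∈ univ.erase i, z j,
      fun s t => ?_⟩
    have := k6 (Pi.single i s) (Pi.single i t)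
    rw [Matrix.sub_apply, Matrix.smul_apply, k7, k7] at this
    refine le_of_eq_of_le ?_ this
    rw [← mul_one ‖_ - _‖, ← k8, ← norm_mul]
    simp only [Matrix.smul_apply, smul_eq_mul, diagonal_apply_eq, cons_val_zero]
    congr 1
    field_simp
  have γ0 : γ ≠ 0 := by
    rintro rfl
    have := hγ 0 0
    simp only [zero_smul, Matrix.zero_apply, zero_sub, norm_neg, diagonal_apply_eq, cons_val_zero,
      (z1 i).norm] at this
    exact this.not_gt (pow_lt_one₀ r0.le r1 four_ne_zero)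
  have := (z1 i).eig (x := γ * a i) (x' := γ * b i) hγ (by rw [trace_smul, ha, smul_eq_mul, mul_add])
    (by rw [det_smul, hb, Fintype.card_fin]; ring)
  simpa only [mul_div_mul_left _ _ γ0, mul_assoc] using this

end Pool.Agent.MT
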