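import Pool.Agent.Lib.MP_d61fbb_ag.MN.DAlg2
import Pool.Agent.Lib.MP_d61fbb_ag.MT.HA

/-! Generic presentations are unique, and their Weil polynomials are good. -/

set_option autoImplicit false

open Polynomial Finset

namespace Pool.Agent.MT

theorem dn2_norm {l : ℕ} [Fact l.Prime] (q : ℚ) : ‖(q : PadicAlgCl l)‖ = ‖(q : ℚ_[l])‖ := by
  rw [← PadicAlgCl.norm_extends, map_ratCast]

theorem dn2_tt {Ω : Type} [NormedField Ω] [IsUltrametricDist Ω] {u : Ω} (h : ‖u‖ ≤ 1)
    (h' : ‖u⁻¹‖ ≤ 1) : ‖4 - tt u‖ ≤ 1 := by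
  have h2 : ‖(2 : Ω)‖ ≤ 1 := by exact_mod_cast IsUltrametricDist.norm_natCast_le_one Ω 2
  rw [show 4 - tt u = 2 + -(u + u⁻¹) by rw [tt]; ring]
  exact (IsUltrametricDist.norm_add_le_max _ _).trans (max_le h2 (by
    rw [norm_neg]
    exact (IsUltrametricDist.norm_add_le_max _ _).trans (max_le h h')))

theorem gen_small {l : ℕ} [Fact l.Prime] {k : ℤ} (h1 : ‖(k : PadicAlgCl l)‖ < 1)
    (h2 : ‖(k : ℂ)‖ < l) : k = 0 := by
  rw [← map_intCast (algebraMap ℚ_[l] (PadicAlgCl l)), PadicAlgCl.norm_extends,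
    Padic.norm_intCast_lt_one_iff] at h1
  rw [Complex.norm_intCast] at h2
  exact Int.eq_zero_of_abs_lt_dvd h1 (by exact_mod_cast h2)

theorem gen_eval {Ω : Type} [NormedField Ω] [CharZero Ω] [IsAlgClosed Ω] {A : ℚ[X]} (hA : A.Monic)
    {b : ℝ} (h : ∀ z : Ω, aeval z A = 0 → ‖4 - z‖ ≤ b) :
    ‖((A.eval 4 : ℚ) : Ω)‖ ≤ b ^ A.natDegree := by
  have h1 := IsAlgClosed.splits (A.map (algebraMap ℚ Ω))
  rw [← eq_ratCast (algebraMap ℚ Ω), ← aeval_algebraMap_apply_eq_algebraMap_eval, map_ofNat,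
    ← eval_map_algebraMap, h1.eval_eq_prod_roots_of_monic (hA.map _),
    ← natDegree_map (algebraMap ℚ Ω), h1.natDegree_eq_card_roots]
  have h2 : ∀ z ∈ (A.map (algebraMap ℚ Ω)).roots, ‖4 - z‖ ≤ b := fun z hz =>
    h z (by rw [← eval_map_algebraMap]; exact isRoot_of_mem_roots hz)
  generalize (A.map (algebraMap ℚ Ω)).roots = s at h2
  induction s using Multiset.induction_on with
  | empty => simp
  | cons a s ih =>
    have h3 := h2 a (Multiset.mem_cons_self _ _)
    rw [Multiset.map_cons, Multiset.prod_cons, Multiset.card_cons, norm_mul, pow_succ']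
    exact mul_le_mul h3 (ih fun z hz => h2 z (Multiset.mem_cons_of_mem hz)) (norm_nonneg _)
      ((norm_nonneg _).trans h3)

variable [Dim] {P : ℤ[X]} {p : ℕ}

section

variable {Ω Ω' : Type} [Field Ω] [Field Ω'] {w w' : Ω} {u u' : Fin nn → Ω}

theorem ind_map (φ : Ω →+* Ω') : (Ind fun i => φ (u i)) ↔ Ind u := by
  refine forall₂_congr fun δ _ => imp_congr_left ?_
  simp only [← map_zpow₀, ← map_prod, map_eq_one_iff φ φ.injective]

theorem lam_div (hw : w ≠ 0) (hu : ∀ i, u i ≠ 0) (d e : Fin nn → Fin 2) :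
    lam w u d / lam w u e = ∏ i, u i ^ ((d i : ℕ) - (e i : ℕ) : ℤ) := by
  simp only [lam, zpow_sub₀ (hu _), zpow_natCast, prod_div_distrib, mul_div_mul_left _ _ hw]

theorem lam_update (d : Fin nn → Fin 2) (i : Fin nn) :
    lam w u (Function.update d i 1) = lam w u (Function.update d i 0) * u i := by
  rw [lam, lam, ← mul_prod_erase _ _ (mem_univ i), ← mul_prod_erase _ _ (mem_univ i),
    prod_congr rfl (g := fun j => u j ^ (Function.update d i 0 j : ℕ)) fun j hj => by
      simp [(mem_erase.1 hj).1]]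
  simp only [Function.update_self, Fin.val_one, Fin.val_zero]
  ring

theorem Ind.lam_inj (h : Ind u) (hw : w ≠ 0) (hu : ∀ i, u i ≠ 0) :
    Function.Injective (lam w u) := fun d e k => by
  have := h (fun i => (d i : ℕ) - (e i : ℕ)) (fun i => by rw [abs_le]; omega) (by
    rw [← lam_div hw hu d e, k]
    exact div_self (mul_ne_zero hw (prod_ne_zero_iff.2 fun i _ => pow_ne_zero _ (hu i))))
  funext i
  have := congrFun this i
  simp only [Pi.zero_apply] at this
  omega

theorem Ind.ne_one (h : Ind u) (i : Fin nn) : u i ≠ 1 := fun e => by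
  have := h (Pi.single i 1) (fun j => by by_cases k : j = i <;> simp [k]) (by
    rw [prod_eq_single i (fun j _ hj => by simp [hj]) (by simp)]
    simp [e])
  simpa using congrFun this i

theorem Pres.uniq [CharZero Ω] (h : Pres P p w u) (h' : Pres P p w' u') (hp : p ≠ 0) (hI : Ind u) :
    ∏ i, (X - C (tt (u' i))) = ∏ i, (X - C (tt (u i))) := by
  obtain ⟨hw, hu⟩ := h.ne hp
  have h1 := h'.sep_iff.1 (h.sep_iff.2 (hI.lam_inj hw hu))
  choose π hπ using fun d => h.of_root (h'.root d)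
  have h2 : Function.Surjective π :=
    Finite.surjective_of_injective fun d e k => h1 (by rw [hπ, hπ, k])
  have h3 : ∀ i, ∃ j, u' i = u j ∨ u' i = (u j)⁻¹ := fun i => by
    let δ : (Fin nn → Fin 2) → Fin nn → ℤ := fun d j =>
      (π (Function.update d i 1) j : ℕ) - (π (Function.update d i 0) j : ℕ)
    have k1 : ∀ d, ∏ j, u j ^ δ d j = u' i := fun d => by
      rw [← lam_div hw hu, ← hπ, ← hπ, lam_update, mul_div_cancel_left₀]
      exact left_ne_zero_of_mul (h'.rev _ ▸ Nat.cast_ne_zero.2 hp)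
    have k2 : ∀ d j, δ d j - δ 0 j = 0 := fun d => congrFun (hI _
      (fun j => by simp only [δ, abs_le]; omega) (by
        simp only [zpow_sub₀ (hu _), prod_div_distrib, k1, div_self ((h'.ne hp).2 i)]))
    obtain ⟨j, hj⟩ : ∃ j, δ 0 j ≠ 0 := by
      by_contra! k
      have k3 := k1 0
      simp only [k, zpow_zero, prod_const_one] at k3
      have k4 := congrFun (h1 ((lam_update 0 i).trans (by rw [← k3, mul_one]))) i
      rw [Function.update_self, Function.update_self] at k4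
      exact one_ne_zero k4
    have k3 : ∀ k, k ≠ j → δ 0 k = 0 := fun k hk => by
      obtain ⟨d, hd⟩ := h2 (Function.update (π (Function.update 0 i 1)) j
        (π (Function.update 0 i 0) j))
      have a1 := congrFun hd j
      have a2 := congrFun hd k
      rw [Function.update_self] at a1
      rw [Function.update_of_ne hk] at a2
      have a3 := k2 d j
      have a4 := k2 d k
      simp only [δ] at a3 a4 hj ⊢
      rcases (by omega : d i = 0 ∨ d i = 1) with e | e <;> rw [← e, Function.update_eq_self, e] at a3 a4 <;>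
        omega
    have k4 := k1 0
    rw [prod_eq_single j (fun k _ hk => by rw [k3 k hk, zpow_zero]) (by simp)] at k4
    refine ⟨j, ?_⟩
    rcases (by simp only [δ] at hj ⊢; omega : δ 0 j = 1 ∨ δ 0 j = -1) with e | e <;>
      simp [← k4, e]
  choose j hj using h3
  refine Fintype.prod_bijective j (Finite.injective_iff_bijective.1 fun i k e => ?_) _ _ fun i => ?_
  · by_contra hik
    obtain ⟨n1, n2⟩ := lam_ne h1 hik
    have := hu (j k)
    rcases hj i with a | a <;> rcases hj k with b | b <;> simp_all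
  · rcases hj i with a | a <;> simp [a, tt, add_comm]

theorem Pres.uq [CharZero Ω] (h : Pres P p w u) (hp : p ≠ 0) (hI : Ind u) : Uq P p := by
  obtain ⟨L, _, _, φ, ψ, w1, u1, k, e⟩ := h.alg hp (AlgebraicClosure ℚ)
  have h1 := (ind_map ψ).2 ((ind_map φ).1 (funext e ▸ hI))
  have h2 : ∀ {L L' : Type} [Field L] [Field L'] (s : L →+* L') (v : Fin nn → L),
      (∏ i, (X - C (tt (v i)))).map s = ∏ i, (X - C (tt (s (v i)))) := fun s v => by
    simp [Polynomial.map_prod, map_tt]
  have : IsGalois ℚ (AlgebraicClosure ℚ) := by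
    have := @IsAlgClosure.isGalois ℚ (AlgebraicClosure ℚ) _ _ (AlgebraicClosure.instAlgebra ℚ)
      inferInstance inferInstance
    convert this
    all_goals exact Subsingleton.elim _ _
  obtain ⟨F, hF⟩ : ∏ i, (X - C (tt (ψ (u1 i)))) ∈ lifts (algebraMap ℚ (AlgebraicClosure ℚ)) := by
    refine (lifts_iff_coeff_lifts _).2 fun m =>
      (InfiniteGalois.mem_range_algebraMap_iff_fixed _).2 fun s => ?_
    nth_rw 2 [← (k.map ψ).uniq ((k.map ψ).map s.toRingEquiv.toRingHom) hp h1]
    rw [← h2 s.toRingEquiv.toRingHom, coeff_map]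
    rfl
  refine ⟨F, fun Ω₂ _ _ w2 u2 k2 => ?_⟩
  obtain ⟨L', _, _, φ', ψ', w3, u3, k3, e3⟩ := k2.alg hp (AlgebraicClosure ℚ)
  have h3 : F.map (algebraMap ℚ L') = ∏ i, (X - C (tt (u3 i))) := map_injective ψ' ψ'.injective (by
    rw [h2, (k.map ψ).uniq (k3.map ψ') hp h1, ← hF, Polynomial.map_map,
      Subsingleton.elim (ψ'.comp _) (algebraMap ℚ _), coe_mapRingHom])
  rw [← funext e3, ← h2, ← h3, Polynomial.map_map, Subsingleton.elim (φ'.comp _) (algebraMap ℚ _)]

end

/-- From the conditions at an auxiliary prime to the properties of the Weil polynomial. -/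
theorem good_of_gen {l : ℕ} [Fact l.Prime] (hl : 4 ^ nn < l) (hp : p.Prime)
    {w : PadicAlgCl l} {u : Fin nn → PadicAlgCl l} (h : Pres P p w u) (hI : Ind u) {r : ℝ}
    (hr : r < 1) (near : ∀ i, ‖4 - tt (u i)‖ ≤ r) (sum : ∑ i, (4 - tt (u i)) ≠ 0)
    (weil : ∀ z : ℂ, aeval z P = 0 → ‖z‖ ^ 2 = p) : Good P p := by
  have hp0 := hp.ne_zero
  obtain ⟨hw, hu⟩ := h.ne hp0
  have hF := h.uq hp0 hI
  obtain ⟨w1, u1, h1⟩ := h.transfer hp0 ℂ
  have hi := hI.lam_inj hw hu
  have r0 : 0 ≤ r := (norm_nonneg _).trans (near 0)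
  have hl' : (4 : ℝ) ^ nn < l := by exact_mod_cast hl
  have k4 : ∀ i, ‖4 - tt (u1 i)‖ ≤ 4 := fun i => by
    rw [show 4 - tt (u1 i) = 2 - u1 i - (u1 i)⁻¹ by rw [tt]; ring]
    refine (norm_sub_le _ _).trans ((add_le_add_left (norm_sub_le _ _) _).trans ?_)
    rw [norm_inv, h1.norm_u hp0 weil, Complex.norm_two]
    norm_num
  have he : ∀ m : ℤ, ce1 P p ≠ m := fun m e => by
    have a1 : ∀ {Ω : Type} [Field Ω] [CharZero Ω] {w : Ω} {u : Fin nn → Ω}, Pres P p w u →
        ((4 * nn - m : ℤ) : Ω) = ∑ i, (4 - tt (u i)) := fun k => by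
      rw [sum_sub_distrib, ← (k.cubic hF).2, e]
      simp [mul_comm]
    refine sum ?_
    rw [← a1 h, gen_small (l := l) (k := 4 * nn - m) ?_ ?_, Int.cast_zero]
    · rw [a1 h]
      exact (IsUltrametricDist.norm_sum_le_of_forall_le_of_nonneg r0 fun i _ => near i).trans_lt hr
    · rw [a1 h1]
      refine ((norm_sum_le _ _).trans (sum_le_card_nsmul _ _ _ fun i _ => k4 i)).trans_lt
        (lt_of_le_of_lt ?_ hl')
      obtain ⟨k, hk⟩ : ∃ k, nn = k + 1 := ⟨nn - 1, by have := nn_three; omega⟩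
      have : k + 1 ≤ 4 ^ k := Nat.lt_pow_self (by norm_num)
      rw [card_univ, Fintype.card_fin, nsmul_eq_mul, hk, pow_succ]
      exact mul_le_mul_of_nonneg_right (by exact_mod_cast this) (by norm_num)
  obtain ⟨m1, m2⟩ := h.cub_monic hF
  have := Fact.mk hp
  obtain ⟨w2, u2, h2⟩ := h.transfer hp0 (PadicAlgCl p)
  obtain ⟨i0, -, k3⟩ := d_ord P p he hF w2 u2 h2
  have key : ∀ A : ℚ[X], A.Monic → A ∣ cub P p → aeval (tt (u2 i0)) A ≠ 0 → A = 1 := fun A hA hd h0 => by
    by_contra hne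
    have a0 : ∀ {Ω : Type} [Field Ω] [CharZero Ω] {w : Ω} {u : Fin nn → Ω}, Pres P p w u →
        ∀ z : Ω, aeval z A = 0 → ∃ i, z = tt (u i) := fun k z hz =>
      (k.cub_root hF).1 (aeval_eq_zero_of_dvd_aeval_eq_zero hd hz)
    obtain ⟨m, hm⟩ := int_of_padic_norm (A.eval 4) fun l' => by
      rw [← dn2_norm]
      refine (gen_eval (b := 1) hA fun z hz => ?_).trans_eq (one_pow _)
      by_cases e : (l' : ℕ) = p
      · subst e
        obtain ⟨i, rfl⟩ := a0 h2 z hz
        have := k3 i fun e => h0 (e ▸ hz)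
        exact dn2_tt this.le (by rw [norm_inv, this, inv_one])
      · obtain ⟨w', u', h'⟩ := h.transfer hp0 (PadicAlgCl l')
        obtain ⟨i, rfl⟩ := a0 h' z hz
        have k0 : ‖(p : PadicAlgCl l')‖ = 1 := by
          rw [← Rat.cast_natCast, dn2_norm, Rat.cast_natCast]
          exact Padic.norm_natCast_eq_one_iff.2 ((Nat.coprime_primes l'.2 hp).2 e)
        exact dn2_tt (by simpa [k0] using d_norm_le (h'.int_u hp0 i).1)
          (by simpa [k0] using d_norm_le (h'.int_u hp0 i).2)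
    have a1 := gen_eval (Ω := PadicAlgCl l) (b := r) hA fun z hz => by
      obtain ⟨i, rfl⟩ := a0 h z hz
      exact near i
    have a2 := gen_eval (Ω := ℂ) (b := 4) hA fun z hz => by
      obtain ⟨i, rfl⟩ := a0 h1 z hz
      exact k4 i
    rw [hm, Rat.cast_intCast] at a1 a2
    rw [gen_small (a1.trans_lt (pow_lt_one₀ r0 hr (mt hA.natDegree_eq_zero.1 hne)))
      (a2.trans_lt (lt_of_le_of_lt (pow_le_pow_right₀ (by norm_num)
        (m2 ▸ natDegree_le_of_dvd hd m1.ne_zero)) hl'))] at hm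
    obtain ⟨i, e⟩ := a0 h (algebraMap ℚ _ 4) (by
      rw [aeval_algebraMap_apply_eq_algebraMap_eval, hm, Int.cast_zero, map_zero])
    refine hI.ne_one i ?_
    simpa using tt_eq (hu i) one_ne_zero (by rw [← e, tt, map_ofNat]; norm_num)
  have hs : (cub P p).Separable := by
    rw [← separable_map (algebraMap ℚ (PadicAlgCl l)), (h.cubic hF).1, separable_prod_X_sub_C_iff]
    intro i j e
    by_contra hij
    exact (tt_eq (hu i) (hu j) e).elim (lam_ne hi hij).1 (lam_ne hi hij).2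
  refine ⟨hp, ⟨w1, u1, h1⟩, weil, fun e => ?_, hF,
    (irreducible_of_monic m1 fun e => ?_).2 fun A B hA hB e => ?_, h.sep_iff.2 hi, he⟩
  · have k1 := h.psum 1
    rw [e, Int.cast_zero, mul_eq_zero, prod_eq_zero_iff] at k1
    obtain ⟨i, -, k2⟩ := k1.resolve_left (pow_ne_zero _ hw)
    rw [pow_one, add_eq_zero_iff_neg_eq] at k2
    have k5 := hI (Pi.single i 2) (fun j => by by_cases k : j = i <;> simp [k]) (by
      rw [prod_eq_single i (fun j _ hj => by simp [hj]) (by simp)]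
      simp [← k2])
    simpa using congrFun k5 i
  · rw [e, natDegree_one] at m2
    exact NeZero.ne' _ m2
  · rw [← e] at hs key
    exact (aeval_ne_zero_of_isCoprime hs.isCoprime _).imp (key A hA (dvd_mul_right _ _))
      (key B hB (dvd_mul_left _ _))

end Pool.Agent.MT
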