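import Pool.Agent.Lib.MP_d61fbb_ag.MN.DPl
import Pool.Agent.Lib.MP_d61fbb_ag.MN.DN1
import Pool.Agent.Lib.MP_d61fbb_ag.MN.DN2

/-! Block D: the choice of the place without an inert prime. -/

set_option autoImplicit false

noncomputable section

open Matrix Polynomial

namespace Pool.Agent.MT

variable [Dim]

open Pool.Agent.Lib.MP_696deb_nt.B2 (Qbar Gam Plc Dec Ine IsFrob Op jC finite_supp)

theorem t_dpl2 : T_DPL := by
  classical
  intro reds weil τ K M A _ hK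
  have h4 : 0 < 4 ^ nn := by positivity
  obtain ⟨l, hlS, h7⟩ : ∃ l ∉ M.S, 4 ^ nn + 3 ≤ (l : ℕ) := by
    obtain ⟨l, h1, h2⟩ := Nat.exists_infinite_primes ((M.S.sup fun l => (l : ℕ)) + (4 ^ nn + 3))
    refine ⟨⟨l, h2⟩, fun h => ?_, le_of_add_le_right h1⟩
    have : l ≤ M.S.sup fun l => (l : ℕ) := Finset.le_sup (f := fun l : Pr => (l : ℕ)) h
    omega
  let D := M.D l
  let r : (ℂ ≃ₐ[K] ℂ) →* GL (I2 gg) ℤ_[l] := (Pi.evalMonoidHom _ l).comp M.ρ
  have hc : ∀ N : ℕ, ∃ U : Subgroup Gam, Op U ∧ ∀ σ, A.res σ ∈ U →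
      ∀ i j, ((l : ℕ) : ℤ_[l]) ^ N ∣ ((M.ρ σ l).val - 1) i j := fun N => by
    obtain ⟨U, u1, u2⟩ := A.cont (l ^ N) (pow_ne_zero _ l.2.ne_zero)
    refine ⟨U, u1, fun σ hσ i j => ?_⟩
    rw [← Ideal.mem_span_singleton, ← PadicInt.norm_le_pow_iff_mem_span_pow]
    simpa using u2 σ hσ l i j
  have hker : A.res.rangeRestrict.ker ≤ r.ker := fun σ hσ => by
    refine Units.ext (sub_eq_zero.1 (Matrix.ext fun i j => ?_))
    refine PadicInt.ext_of_toZModPow.1 fun N => ?_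
    obtain ⟨U, -, u2⟩ := hc N
    have e : A.res σ = 1 := congrArg Subtype.val (MonoidHom.mem_ker.1 hσ)
    have := u2 σ (e ▸ one_mem U) i j
    rw [← Ideal.mem_span_singleton, ← PadicInt.ker_toZModPow, RingHom.mem_ker] at this
    exact this.trans (map_zero _).symm
  let ρ : A.res.range →* M8 ℤ_[l] := (Units.coeHom _).comp
    (A.res.rangeRestrict.liftOfSurjective A.res.rangeRestrict_surjective ⟨r, hker⟩)
  have hρ : ∀ σ, ρ (A.res.rangeRestrict σ) = (M.ρ σ l).val := fun σ =>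
    congrArg Units.val (MonoidHom.liftOfRightInverse_comp_apply _ _ _ ⟨r, hker⟩ σ)
  have := Module.Finite.of_basis D.bas
  obtain ⟨s1, hs1⟩ := dpl_ine K
  have hs2 : ∀ η, ∃ s : Finset ℕ, ∀ w : Plc, w.p ∉ s →
      A.S.Θ (hw η) = 0 ∨ w.V (A.S.Θ (hw η)) = 1 := fun η => by
    by_cases h : A.S.Θ (hw η) = 0
    · exact ⟨∅, fun _ _ => .inl h⟩
    · exact (finite_supp h).imp fun s hs w hw => .inr (hs w hw)
  choose s2 hs2 using hs2
  obtain ⟨w, φ, h1, h2, h3⟩ := d_choice (l := l) (by omega) (θ := AdjoinRoot.root D.c)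
    (fun i j e => D.inj (AdjoinRoot.algHom_ext e)) D.NmH D.inv_mul D.int D.int' D.nm ρ (fun N => by
    obtain ⟨U, u1, u2⟩ := hc N
    refine ⟨U ⊓ A.res.range, u1.inter A.res_open, inf_le_right, fun s hs => ?_⟩
    obtain ⟨σ, rfl⟩ := A.res.rangeRestrict_surjective s
    rw [hρ]
    exact u2 σ hs.1) (fun h hh => by
    obtain ⟨σ, k1⟩ := M.big {l} (Pi.mulSingle l ⟨h, hh⟩)
    exact ⟨_, (hρ σ).trans ((k1 l (Finset.mem_singleton_self l) hlS).trans
      (by rw [Pi.mulSingle_eq_same]; rfl))⟩)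
    (Finset.range 11 ∪ (M.S.image Subtype.val ∪ (s1 ∪ (Finset.univ.biUnion s2 ∪ {l.1}))))
  obtain ⟨φ, rfl⟩ := A.res.rangeRestrict_surjective φ
  simp only [Finset.mem_union, not_or, Finset.mem_range, not_lt, Finset.mem_singleton] at h1
  obtain ⟨b1, b2, b3, b4, b5⟩ := h1
  let v : Frb A := ⟨w, ⟨w.p, w.prime⟩, rfl, b1, fun h => b2 (Finset.mem_image_of_mem _ h), φ, h2,
    fun g hg => A.res_surj g (hs1 w b3 g hg),
    fun η => hs2 η w fun h => b4 (Finset.mem_biUnion.2 ⟨η, Finset.mem_univ _, h⟩)⟩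
  have hl : l ≠ v.p := fun e => b5 (congrArg Subtype.val e).symm
  obtain ⟨R, hR⟩ := reds τ K M A v
  obtain ⟨c, g, e⟩ := M.sub φ l hlS
  have hg : IsUnit g.val.det := (isUnit_iff_isUnit_det _).1 g.isUnit
  have e2 : ∀ i, D.σ i g.val.det = (g.val.map (D.σ i)).det := fun i =>
    (D.σ i).toRingHom.map_det g.val
  choose a b k1 k2 using fun i => eig_two (g.val.map (D.σ i)).trace (g.val.map (D.σ i)).det
  have h0 : ∀ i, a i ≠ 0 ∧ b i ≠ 0 := fun i => by
    rw [← mul_ne_zero_iff, ← k2, ← e2]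
    exact (hg.map _).ne_zero
  obtain ⟨g1, ⟨s, g2, g3⟩, g4⟩ := h3 c g.val a b ((hρ φ).trans e) k1 k2
  have k3 : (M.ρ φ l).val.map (algebraMap ℤ_[l] (PadicAlgCl l)) * D.U = D.U *
      (algebraMap ℤ_[l] (PadicAlgCl l) c • kp fun i : Fin nn => g.val.map (D.σ i)) := by
    rw [Matrix.mul_smul, ← D.hN, ← Matrix.smul_mul, e]
    congr 1
    ext i j
    simp [D]
  have e1 := charpoly_of_conj (card_sum.trans card_cube.symm) D.mul_inv D.inv_mul k3
  rw [charpoly_map] at e1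
  have k4 : ((M.ρ φ l).val.charpoly.map (algebraMap ℤ_[l] ℚ_[l])).Separable := by
    rw [← separable_map (algebraMap ℚ_[l] (PadicAlgCl l)), Polynomial.map_map,
      ← IsScalarTower.algebraMap_eq, e1, kp_lam _ (fun i => (h0 i).2) k1 k2,
      separable_prod_X_sub_C_iff]
    exact g1.lam_inj (mul_ne_zero (c.isUnit.map _).ne_zero
      (Finset.prod_ne_zero_iff.2 fun i _ => (h0 i).2)) fun i => div_ne_zero (h0 i).1 (h0 i).2
  obtain ⟨P, p1, p2⟩ := weil _ _ R ⟨l, hl, hR.π ▸ k4⟩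
  have k5 := R.gs hl
  rw [hR.π] at p1 k5
  rw [p1 l hl, Polynomial.map_map, RingHom.eq_intCast' (RingHom.comp _ _)] at e1
  have G : Good P v.p := good_of_gen (by omega) v.p.2 (pres_of_eig e1.symm (by
    simpa only [← e2] using (D.mult (e ▸ k5)).trans (map_natCast _ _)) a b (fun i => (h0 i).2) k1 k2)
    g1 g2 g3 g4 p2
  exact ⟨v, P, p1, G, @Good.ordi _ _ _ (factPrimes v.p) G⟩

end Pool.Agent.MT
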