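import Pool.Agent.Lib.MP_d61fbb_ag.MN.DAlgS

/-! Ordinarity and separability of good Weil polynomials. -/

set_option autoImplicit false

open Polynomial Finset

namespace Pool.Agent.MT

theorem d_norm_le {Ω : Type} [NormedField Ω] [IsUltrametricDist Ω] {z : Ω} (h : IsIntegral ℤ z) :
    ‖z‖ ≤ 1 :=
  (Valuation.integer.integers (NormedField.valuation (K := Ω))).mem_of_integral h.tower_top

theorem tt_eq {Ω : Type} [Field Ω] {x y : Ω} (hx : x ≠ 0) (hy : y ≠ 0) (h : tt x = tt y) : x = y ∨ x * y = 1 := by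
  have : (x - y) * (x * y - 1) = 0 := by
    simp only [tt] at h
    field_simp at h
    linear_combination h
  simpa only [sub_eq_zero] using mul_eq_zero.1 this

variable [Dim] {P : ℤ[X]} {p : ℕ}

section Ring

variable {Ω : Type} [CommRing Ω] {w : Ω} {u : Fin nn → Ω}

theorem lam_single (i : Fin nn) : lam w u (Pi.single i 1) = lam w u 0 * u i := by
  rw [lam, prod_eq_single i (fun j _ hj => by simp [hj]) (by simp)]
  simp [lam]

theorem Pres.psum' (h : Pres P p w u) (k : ℕ) : ∑ d, lam w u d ^ k = psm P k :=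
  (d_psum (Fin nn → Fin 2) P k).choose_spec Ω _ h.fac

theorem Pres.rev (h : Pres P p w u) (d : Fin nn → Fin 2) :
    lam w u d * lam w u (fun i => (d i).rev) = p := by
  rw [← h.mul, lam, lam, mul_mul_mul_comm, ← prod_mul_distrib, sq]
  refine congrArg _ (prod_congr rfl fun i _ => ?_)
  generalize d i = j
  fin_cases j <;> simp

end Ring

theorem Pres.of_root {Ω : Type} [Field Ω] {w : Ω} {u : Fin nn → Ω} (h : Pres P p w u) {z : Ω}
    (hz : aeval z P = 0) : ∃ d, z = lam w u d := by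
  rw [aeval_def, eval₂_eq_eval_map, algebraMap_int_eq, h.fac, eval_prod, prod_eq_zero_iff] at hz
  obtain ⟨d, -, hd⟩ := hz
  exact ⟨d, by simpa [sub_eq_zero] using hd⟩

theorem lam_ne {Ω : Type} [CommRing Ω] {w : Ω} {u : Fin nn → Ω} (h : Function.Injective (lam w u))
    {i k : Fin nn} (hik : i ≠ k) : u i ≠ u k ∧ u i * u k ≠ 1 := by
  refine ⟨fun e => ?_, fun e => ?_⟩
  · have := @h (Pi.single i 1) (Pi.single k 1) (by rw [lam_single, lam_single, e])
    simpa [hik] using congrFun this i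
  · have := @h (fun j => if j = i ∨ j = k then 1 else 0) 0 (by
      rw [lam, ← prod_subset (subset_univ {i, k}) fun j _ hj => by
        simp only [mem_insert, mem_singleton] at hj
        simp [hj], prod_pair hik]
      simp [lam, e])
    simpa using congrFun this i

section

variable {Ω : Type} [Field Ω] [CharZero Ω] {w : Ω} {u : Fin nn → Ω}

theorem Pres.isInt (h : Pres P p w u) (d : Fin nn → Fin 2) : IsIntegral ℤ (lam w u d) :=
  ⟨P, h.monic, h.root d⟩

theorem Pres.int_u (h : Pres P p w u) (hp : p ≠ 0) (i : Fin nn) :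
    IsIntegral ℤ (p * u i) ∧ IsIntegral ℤ (p * (u i)⁻¹) := by
  have h3 := (h.ne hp).2 i
  have e1 : p * u i = lam w u (Pi.single i 1) * lam w u fun j => ((0 : Fin nn → Fin 2) j).rev := by
    rw [← h.rev 0, lam_single]
    ring
  have e2 : p * (u i)⁻¹ = lam w u 0 * lam w u fun j => ((Pi.single i 1 : Fin nn → Fin 2) j).rev := by
    rw [← h.rev (Pi.single i 1), lam_single]
    field_simp
  exact ⟨e1 ▸ (h.isInt _).mul (h.isInt _), e2 ▸ (h.isInt _).mul (h.isInt _)⟩

/-- A presentation comes from an algebraic extension of the rationals. -/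
theorem Pres.alg (h : Pres P p w u) (hp : p ≠ 0) (Ω' : Type) [Field Ω'] [CharZero Ω']
    [IsAlgClosed Ω'] : ∃ (L : Type) (_ : Field L) (_ : CharZero L) (φ : L →+* Ω) (_ : L →+* Ω')
      (w' : L) (u' : Fin nn → L), Pres P p w' u' ∧ ∀ i, φ (u' i) = u i := by
  have ha : ∀ d, lam w u d ∈ algebraicClosure ℚ Ω := fun d =>
    (mem_algebraicClosure_iff'.2 (IsIntegral.tower_top (R := ℤ) (h.isInt d)))
  have h0 : w ∈ algebraicClosure ℚ Ω := by simpa [lam] using ha 0
  have h1 : ∀ i, u i ∈ algebraicClosure ℚ Ω := fun i => by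
    have := div_mem (ha (Pi.single i 1)) (ha 0)
    rwa [lam_single, mul_div_cancel_left₀ _ (by simpa [lam] using (h.ne hp).1)] at this
  have h2 : Pres P p (⟨w, h0⟩ : algebraicClosure ℚ Ω) fun i => ⟨u i, h1 i⟩ :=
    Pres.of_map (φ := algebraMap _ Ω) (RingHom.injective _) h
  have : Algebra.IsAlgebraic ℚ (algebraicClosure ℚ Ω) := by
    convert algebraicClosure.isAlgebraic ℚ Ω
    exacts [rfl, Subsingleton.elim _ _]
  exact ⟨_, inferInstance, inferInstance, algebraMap _ Ω,
    (IsAlgClosed.lift (R := ℚ) (S := algebraicClosure ℚ Ω) (M := Ω')).toRingHom, _, _, h2,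
    fun _ => rfl⟩

theorem Pres.norm_u {w : ℂ} {u : Fin nn → ℂ} (k : Pres P p w u) (hp : p ≠ 0)
    (weil : ∀ z : ℂ, aeval z P = 0 → ‖z‖ ^ 2 = p) (i : Fin nn) : ‖u i‖ = 1 := by
  have h3 := weil _ (k.root (Pi.single i 1))
  rw [lam_single, norm_mul, mul_pow, weil _ (k.root 0), mul_eq_left₀ (Nat.cast_ne_zero.2 hp)] at h3
  exact (pow_eq_one_iff_of_nonneg (norm_nonneg _) two_ne_zero).1 h3

theorem Pres.sep_iff (h : Pres P p w u) :
    (P.map (Int.castRingHom ℚ)).Separable ↔ Function.Injective (lam w u) := by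
  rw [← separable_map (algebraMap ℚ Ω), Polynomial.map_map,
    RingHom.eq_intCast' ((algebraMap ℚ Ω).comp _), h.fac, separable_prod_X_sub_C_iff]

theorem Pres.cub_monic (h : Pres P p w u) (hq : Uq P p) :
    (cub P p).Monic ∧ (cub P p).natDegree = nn := by
  refine ⟨monic_of_injective (algebraMap ℚ Ω).injective
    ((h.cubic hq).1 ▸ monic_prod_of_monic _ _ fun _ _ => monic_X_sub_C _), ?_⟩
  rw [← natDegree_map (algebraMap ℚ Ω), (h.cubic hq).1, natDegree_finsetProd_X_sub_C_eq_card]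
  simp

theorem Pres.cub_root (h : Pres P p w u) (hq : Uq P p) {x : Ω} :
    aeval x (cub P p) = 0 ↔ ∃ i, x = tt (u i) := by
  rw [aeval_def, eval₂_eq_eval_map, (h.cubic hq).1, eval_prod, prod_eq_zero_iff]
  simp [sub_eq_zero]

theorem Pres.e1_int (h : Pres P p w u) (hp : p ≠ 0) (hq : Uq P p) :
    ∃ n : ℤ, (n : ℚ) = p * ce1 P p := by
  refine IsIntegrallyClosed.isIntegral_iff.1 ((isIntegral_algHom_iff
    (Algebra.ofId ℚ Ω |>.restrictScalars ℤ) (algebraMap ℚ Ω).injective).1 ?_)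
  change IsIntegral ℤ (algebraMap ℚ Ω _)
  rw [map_mul, map_natCast, eq_ratCast, (h.cubic hq).2, mul_sum]
  refine IsIntegral.sum _ fun i _ => ?_
  rw [tt, mul_add, mul_add]
  exact ((h.int_u hp i).1.add (h.int_u hp i).2).add (by exact_mod_cast isIntegral_intCast (p * 2))

end

theorem d_ord : DOrdStmt := by
  intro P p hp he hs w u h
  have hp0 := hp.out.ne_zero
  have hp1 : (1 : ℝ) < p := by exact_mod_cast hp.out.one_lt
  have hu : ∀ i, 0 < ‖u i‖ := fun i => norm_pos_iff.2 ((h.ne hp0).2 i)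
  have hn : ‖(p : PadicAlgCl p)‖ = (p : ℝ)⁻¹ := by
    rw [← map_natCast (algebraMap ℚ_[p] _), PadicAlgCl.norm_extends, Padic.norm_p]
  let n : Fin nn → ℝ := fun i => max ‖u i‖ ‖u i‖⁻¹
  have h1 : ∀ i, 1 ≤ n i := fun i => by
    rcases le_total 1 ‖u i‖ with k | k
    · exact k.trans (le_max_left _ _)
    · exact ((one_le_inv₀ (hu i)).2 k).trans (le_max_right _ _)
  have h2 : ∏ i, n i ≤ p := by
    let d : Fin nn → Fin 2 := fun i => if 1 ≤ ‖u i‖ then 1 else 0
    have k1 : ‖lam w u d‖ = ‖lam w u fun i => (d i).rev‖ * ∏ i, n i := by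
      simp only [lam, norm_mul, norm_prod, norm_pow, mul_assoc, ← prod_mul_distrib]
      refine congrArg _ (prod_congr rfl fun i _ => ?_)
      by_cases k : 1 ≤ ‖u i‖
      · simp [d, n, k, (inv_le_one_of_one_le₀ k).trans k]
      · have := (not_le.1 k).le.trans ((one_le_inv₀ (hu i)).2 (not_le.1 k).le)
        simp [d, n, k, this, (hu i).ne']
    have k2 := congrArg norm (h.rev d)
    have k3 := d_norm_le (h.isInt d)
    rw [norm_mul, hn] at k2
    have k4 : ‖lam w u d‖ * ‖lam w u d‖ * p = ∏ i, n i := by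
      nth_rw 2 [k1]
      rw [← mul_assoc, k2]
      field_simp
    rw [← k4]
    exact mul_le_of_le_one_left (by positivity) (mul_le_one₀ k3 (norm_nonneg _) k3)
  obtain ⟨m, hm⟩ := h.e1_int hp0 hs
  have h3 : ‖∑ i, tt (u i)‖ = p := by
    have k1 : ¬ (p : ℤ) ∣ m := by
      rintro ⟨k, rfl⟩
      refine he k (mul_left_cancel₀ (Nat.cast_ne_zero.2 hp0 : (p : ℚ) ≠ 0) ?_)
      rw [← hm]
      push_cast
      rfl
    have k2 : ‖(m : PadicAlgCl p)‖ = 1 := by
      rw [← map_intCast (algebraMap ℚ_[p] (PadicAlgCl p)), PadicAlgCl.norm_extends]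
      exact le_antisymm (Padic.norm_int_le_one m)
        (not_lt.1 (mt Padic.norm_intCast_lt_one_iff.1 k1))
    have k3 := congrArg (fun q : ℚ => ‖(q : PadicAlgCl p)‖) hm
    simp only [Rat.cast_intCast, Rat.cast_mul, Rat.cast_natCast, norm_mul, k2, hn,
      (h.cubic hs).2] at k3
    field_simp at k3
    exact k3.symm
  obtain ⟨i, -, hi⟩ := IsUltrametricDist.exists_norm_finsetSum_le_of_nonempty
    (univ_nonempty (α := Fin nn)) fun i => tt (u i)
  have h4 : (p : ℝ) ≤ n i := by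
    have k1 := IsUltrametricDist.norm_add_le_max (u i + (u i)⁻¹) 2
    have k2 := IsUltrametricDist.norm_add_le_max (u i) (u i)⁻¹
    have k3 : ‖(2 : PadicAlgCl p)‖ ≤ 1 := IsUltrametricDist.norm_natCast_le_one _ 2
    rw [norm_inv] at k2
    exact (h3.ge.trans (hi.trans k1)).trans (max_le k2 (k3.trans (h1 i)))
  rw [← mul_prod_erase _ _ (mem_univ i)] at h2
  have h0 : ∀ s : Finset (Fin nn), 1 ≤ ∏ j ∈ s, n j := fun s => by
    simpa using prod_le_prod (s := s) (f := fun _ => (1 : ℝ)) (by simp) fun j _ => h1 j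
  have h5 := h0 (univ.erase i)
  have h6 : n i = p := le_antisymm (by nlinarith) h4
  refine ⟨i, ?_, fun j hj => ?_⟩
  · rcases max_choice ‖u i‖ ‖u i‖⁻¹ with k | k
    · exact .inl (k.symm.trans h6)
    · exact .inr (by rw [← h6, show n i = _ from k, inv_inv])
  · have k0 : ∏ j ∈ univ.erase i, n j ≤ 1 := by nlinarith
    rw [← mul_prod_erase _ _ (mem_erase.2 ⟨hj, mem_univ j⟩)] at k0
    have k2 : n j ≤ 1 := by nlinarith [h0 ((univ.erase i).erase j), h1 j]
    exact le_antisymm ((le_max_left _ _).trans k2)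
      ((inv_le_one₀ (hu j)).1 ((le_max_right _ _).trans k2))

theorem Good.irred (h : Good P p) : Irreducible (cub P p) ∧ (cub P p).Monic ∧
    (cub P p).natDegree = nn := by
  obtain ⟨w, u, k⟩ := h.pres
  exact ⟨h.irr, k.cub_monic h.uq⟩

theorem Good.eval_ne (h : Good P p) (q : ℚ) : (cub P p).eval q ≠ 0 := fun e => by
  have h1 : (cub P p).natDegree = 1 :=
    natDegree_eq_of_degree_eq_some (degree_eq_one_of_irreducible_of_root h.irr e)
  have := h.irred.2.2
  have := nn_three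
  omega

variable {Ω : Type} [Field Ω] [CharZero Ω] {w : Ω} {u : Fin nn → Ω}

theorem Good.tt_root (h : Good P p) (k : Pres P p w u) (i : Fin nn) :
    aeval (tt (u i)) (cub P p) = 0 :=
  (k.cub_root h.uq).2 ⟨i, rfl⟩

theorem Good.tt_ne (h : Good P p) (k : Pres P p w u) (i : Fin nn) (q : ℚ) : tt (u i) ≠ q := fun e =>
  h.eval_ne q ((algebraMap ℚ Ω).injective (by
    rw [← aeval_algebraMap_apply_eq_algebraMap_eval, eq_ratCast, ← e, h.tt_root k, map_zero]))

theorem Good.tt_inj (h : Good P p) (k : Pres P p w u) : Function.Injective fun i => tt (u i) :=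
  separable_prod_X_sub_C_iff.1 ((k.cubic h.uq).1 ▸ h.irr.separable.map)

theorem Good.lam_inj (h : Good P p) (k : Pres P p w u) : Function.Injective (lam w u) :=
  k.sep_iff.1 h.sep

end Pool.Agent.MT
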