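import Pool.Agent.Lib.MP_d61fbb_ag.MN.D3
import Pool.Agent.Lib.MP_d61fbb_ag.MN.D0c

/-! The ordinary factorisation. -/

set_option autoImplicit false

open Matrix Polynomial Finset

namespace Pool.Agent.MT

theorem coeff_prod_le {K κ : Type*} [NormedField K] [IsUltrametricDist K] (T : Finset κ)
    (y : κ → K) {r : ℝ} (hr : 0 ≤ r) (hy : ∀ d ∈ T, ‖y d‖ ≤ r) (i : ℕ) :
    ‖(∏ d ∈ T, (X - C (y d))).coeff i‖ * r ^ i ≤ r ^ T.card := by
  classical
  induction T using Finset.induction_on generalizing i with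
  | empty =>
    rw [prod_empty, coeff_one]
    split_ifs with h <;> simp [h]
  | insert a s ha ih =>
    have ih := ih fun d hd => hy d (mem_insert_of_mem hd)
    have h1 : ‖y a * (∏ d ∈ s, (X - C (y d))).coeff i‖ * r ^ i ≤ r ^ (s.card + 1) := by
      rw [norm_mul, mul_assoc, pow_succ']
      exact mul_le_mul (hy a (mem_insert_self _ _)) (ih i) (by positivity) hr
    rw [prod_insert ha, card_insert_of_notMem ha, sub_mul, coeff_sub, coeff_C_mul]
    cases i with
    | zero => simpa using h1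
    | succ i =>
      rw [coeff_X_mul, sub_eq_add_neg]
      refine (mul_le_mul_of_nonneg_right (IsUltrametricDist.norm_add_le_max _ _)
        (by positivity)).trans ?_
      rw [max_mul_of_nonneg _ _ (by positivity), norm_neg]
      refine max_le ?_ h1
      rw [pow_succ, pow_succ, ← mul_assoc]
      exact mul_le_mul_of_nonneg_right (ih i) hr

variable [Dim] {P : ℤ[X]} {p : ℕ} [Fact p.Prime]

theorem Pres.descend {w : PadicAlgCl p} {u : Fin nn → PadicAlgCl p} (h : Pres P p w u)
    (hy : Function.Injective (lam w u)) (T : Finset (Fin nn → Fin 2))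
    (hT : ∀ d ∈ T, ∀ e, ‖lam w u e‖ = ‖lam w u d‖ → e ∈ T) : ∃ Q : ℤ_[p][X],
      Q.map (algebraMap _ _) = ∏ d ∈ T, (X - C (lam w u d)) ∧ Q.natDegree = T.card ∧ Q.Monic := by
  rw [← natDegree_finsetProd_X_sub_C_eq_card T (lam w u)]
  refine lifts_and_natDegree_eq_and_monic ((lifts_iff_coeff_lifts _).2 fun m => ?_)
    (monic_prod_of_monic _ _ fun _ _ => monic_X_sub_C _)
  obtain ⟨x, hx⟩ : (∏ d ∈ T, (X - C (lam w u d))).coeff m ∈
      Set.range (algebraMap ℚ_[p] (PadicAlgCl p)) := by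
    refine (InfiniteGalois.mem_range_algebraMap_iff_fixed _).2 fun s => ?_
    have k : ∀ d ∈ T, ∃ e ∈ T, lam w u e = s (lam w u d) := fun d hd => by
      have k1 : (P.map (Int.castRingHom _)).eval (s (lam w u d)) = 0 := by
        rw [(h.map s.toRingEquiv.toRingHom).fac, eval_prod]
        exact prod_eq_zero (mem_univ d) (by rw [← map_lam]; simp)
      rw [h.fac, eval_prod, prod_eq_zero_iff] at k1
      obtain ⟨e, -, he⟩ := k1
      have he' : lam w u e = s (lam w u d) := (sub_eq_zero.1 (by simpa using he)).symm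
      exact ⟨e, hT d hd e (he' ▸ (spectralNorm_eq_of_equiv s _).symm), he'⟩
    choose! r h1 h2 using k
    have h3 : Set.InjOn r T := fun a ha b hb e => hy (s.injective (by rw [← h2 a ha, e, h2 b hb]))
    have h4 : T.image r = T := eq_of_subset_of_card_le
      (fun x hx => by obtain ⟨a, ha, rfl⟩ := mem_image.1 hx; exact h1 a ha)
      (card_image_of_injOn h3).ge
    have h5 : (∏ d ∈ T, (X - C (lam w u d))).map s.toRingEquiv.toRingHom =
        ∏ d ∈ T, (X - C (lam w u d)) := by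
      nth_rw 2 [← h4]
      rw [prod_image h3, Polynomial.map_prod]
      exact prod_congr rfl fun d hd => by simp [h2 d hd]
    nth_rw 2 [← h5]
    rw [coeff_map]
    rfl
  have h1 := coeff_prod_le T (lam w u) zero_le_one (fun d _ => d_norm_le (h.isInt d)) m
  rw [one_pow, one_pow, mul_one, ← hx, PadicAlgCl.norm_extends] at h1
  exact ⟨⟨x, h1⟩, hx⟩

/-- The ordinary factorisation over the `p`-adic integers. -/
theorem Good.ordi (G : Good P p) : ∃ Pu Pn : ℤ_[p][X], P.map (Int.castRingHom _) = Pu * Pn ∧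
    Pu.Monic ∧ Pn.Monic ∧ Pu.natDegree = gg ∧ Pn.natDegree = gg ∧
    IsUnit (Pu.coeff 0) ∧ ∀ i < gg, (p : ℤ_[p]) ^ (gg - i) ∣ Pn.coeff i := by
  obtain ⟨w0, u0, h0⟩ := G.pres
  obtain ⟨w, u, h⟩ := h0.transfer G.prime.ne_zero (PadicAlgCl p)
  obtain ⟨i, δ, -, k2⟩ := G.face' h
  have hp : (1 : ℝ) < p := by exact_mod_cast G.prime.one_lt
  have hne : (p : ℝ)⁻¹ ≠ 1 := (inv_lt_one_of_one_lt₀ hp).ne
  obtain ⟨Pu, a1, a2, a3⟩ := h.descend (G.lam_inj h) (univ.filter fun d => d i = δ)
    fun d hd e he => by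
      rw [k2, k2, if_pos (mem_filter.1 hd).2] at he
      exact mem_filter.2 ⟨mem_univ _, by_contra fun k => hne (by rwa [if_neg k] at he)⟩
  obtain ⟨Pn, b1, b2, b3⟩ := h.descend (G.lam_inj h) (univ.filter fun d => ¬ d i = δ)
    fun d hd e he => by
      rw [k2, k2, if_neg (mem_filter.1 hd).2] at he
      exact mem_filter.2 ⟨mem_univ _, fun k => hne (by rwa [if_pos k, eq_comm] at he)⟩
  have c1 := And.intro (card_face i δ) (card_face' i δ)
  have hn : ∀ x : ℤ_[p], ‖algebraMap ℤ_[p] (PadicAlgCl p) x‖ = ‖x‖ := fun x =>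
    PadicAlgCl.norm_extends p x
  have hi : Function.Injective (algebraMap ℤ_[p] (PadicAlgCl p)) :=
    (injective_iff_map_eq_zero _).2 fun x e => norm_eq_zero.1 (by rw [← hn, e, norm_zero])
  refine ⟨Pu, Pn, map_injective _ hi ?_, a3, b3, a2.trans c1.1, b2.trans c1.2, ?_, fun j hj => ?_⟩
  · rw [Polynomial.map_mul, a1, b1, prod_filter_mul_prod_filter_not, ← h.fac, Polynomial.map_map,
      RingHom.eq_intCast' (RingHom.comp _ _)]
  · rw [PadicInt.isUnit_iff, ← hn, ← coeff_map, a1, coeff_zero_eq_eval_zero, eval_prod, norm_prod]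
    exact prod_eq_one fun d hd => by simp [k2, (mem_filter.1 hd).2]
  · have k3 := coeff_prod_le (univ.filter fun d => ¬ d i = δ) (lam w u) (r := (p : ℝ)⁻¹)
      (by positivity) (fun d hd => by rw [k2, if_neg (mem_filter.1 hd).2]) j
    rw [← b1, coeff_map, hn, c1.2, ← Nat.sub_add_cancel hj.le, pow_add,
      mul_le_mul_iff_left₀ (by positivity)] at k3
    rw [← Ideal.mem_span_singleton, ← PadicInt.norm_le_pow_iff_mem_span_pow, _root_.zpow_neg,
      zpow_natCast, ← inv_pow]
    exact k3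

end Pool.Agent.MT
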