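import Pool.Agent.Lib.MP_d61fbb_ag.MN.Dim
import Pool.Agent.Lib.MP_d61fbb_ag.MT.DKp
import Pool.Agent.Lib.MP_d61fbb_ag.MT.BW0

/-! Block F: the number of level structures. -/

namespace Pool.Agent.MT

open Matrix

/-- the matrices that are one modulo `q` and scalar modulo `q ^ 2` -/
def cgS (n : Type*) {Λ : Type*} [CommRing Λ] [Fintype n] [DecidableEq n] (q : Λ) :
    Subgroup (GL n Λ) where
  carrier := {u | ∃ (c : Λ) (y : Matrix n n Λ), u.val = 1 + q • (c • 1 + q • y)}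
  mul_mem' := by
    rintro u v ⟨c, y, hy⟩ ⟨c', z, hz⟩
    refine ⟨c + c', y + z + (c • 1 + q • y) * (c' • 1 + q • z), ?_⟩
    rw [Units.val_mul, hy, hz]
    generalize hA : c • (1 : Matrix n n Λ) + q • y = A
    generalize hB : c' • (1 : Matrix n n Λ) + q • z = B
    simp only [add_mul, mul_add, one_mul, mul_one, smul_mul_assoc, mul_smul_comm]
    generalize A * B = X
    rw [← hA, ← hB]
    module
  one_mem' := ⟨0, 0, by simp⟩
  inv_mem' := by
    rintro u ⟨c, y, hy⟩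
    have h1 : u⁻¹.val = 1 - q • (u⁻¹.val * (c • 1 + q • y)) := by
      have := u.inv_mul
      rw [hy, mul_add, mul_one, mul_smul_comm] at this
      exact eq_sub_of_add_eq this
    refine ⟨-c, u⁻¹.val * (c • 1 + q • y) * (c • 1 + q • y) - y, ?_⟩
    conv_lhs => rw [h1, h1, sub_mul, one_mul, smul_mul_assoc]
    generalize u⁻¹.val * (c • 1 + q • y) * (c • 1 + q • y) = X
    module

theorem fcnt_prod {Ω ι : Type*} [NormedField Ω] [IsUltrametricDist Ω] (s : Finset ι)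
    {a b : ι → Ω} {r : ℝ} (hr : 0 ≤ r) (ha : ∀ i, ‖a i‖ ≤ 1) (hb : ∀ i, ‖b i‖ ≤ 1)
    (h : ∀ i, ‖a i - b i‖ ≤ r) : ‖∏ i ∈ s, a i - ∏ i ∈ s, b i‖ ≤ r := by
  classical
  induction s using Finset.induction_on with
  | empty => simpa using hr
  | insert i s hi ih =>
    rw [Finset.prod_insert hi, Finset.prod_insert hi, show ∀ A B, a i * A - b i * B =
      a i * (A - B) + (a i - b i) * B from fun A B => by ring]
    refine (IsUltrametricDist.norm_add_le_max _ _).trans (max_le ?_ ?_) <;> rw [norm_mul]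
    · exact (mul_le_of_le_one_left (norm_nonneg _) (ha i)).trans ih
    · refine (mul_le_of_le_one_right (norm_nonneg _) ?_).trans (h i)
      rw [norm_prod]
      exact Finset.prod_le_one (fun _ _ => norm_nonneg _) fun j _ => hb j

variable [Dim]

section model
variable {Λ R Ω n : Type*} [CommRing Λ] [CommRing R] [CommRing Ω] [Algebra Λ R] [Algebra Λ Ω]
  [Fintype n] [DecidableEq n] (σ : Fin nn → R →ₐ[Λ] Ω)
  (Nm : Matrix (Fin 2) (Fin 2) R →* Matrix n n Λ) (C : Matrix n (Fin nn → Fin 2) Ω)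
  (C' : Matrix (Fin nn → Fin 2) n Ω)

theorem fcnt_conj (hC : C * C' = 1)
    (hN : ∀ g, (Nm g).map (algebraMap Λ Ω) * C = C * kp fun i => g.map (σ i)) (g) :
    (Nm g).map (algebraMap Λ Ω) = C * (kp fun i => g.map (σ i)) * C' := by
  rw [← hN, Matrix.mul_assoc, hC, Matrix.mul_one]

/-- scalars go to scalars -/
theorem fcnt_scalar [Nonempty n] (hi : Function.Injective (algebraMap Λ Ω)) (hC : C * C' = 1)
    (hN : ∀ g, (Nm g).map (algebraMap Λ Ω) * C = C * kp fun i => g.map (σ i)) (r : R) :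
    ∃ c : Λ, Nm (r • 1) = c • 1 := by
  obtain ⟨x0⟩ := ‹Nonempty n›
  have h1 : (Nm (r • 1)).map (algebraMap Λ Ω) = (∏ i, σ i r) • 1 := by
    have e : ∀ i, (r • (1 : Matrix (Fin 2) (Fin 2) R)).map (σ i) = σ i r • 1 := fun i => by
      ext a b; by_cases h : a = b <;> simp [h, one_apply]
    rw [fcnt_conj σ Nm C C' hC hN]
    simp only [e]
    rw [kp_smul, kp_one, Matrix.mul_smul, Matrix.mul_one, Matrix.smul_mul, hC]
  refine ⟨Nm (r • 1) x0 x0, ?_⟩
  have h0 := congrFun (congrFun h1 x0) x0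
  simp only [map_apply, Matrix.smul_apply, one_apply_eq, smul_eq_mul, mul_one] at h0
  ext x y
  apply hi
  have := congrFun (congrFun h1 x) y
  rw [map_apply] at this
  rw [this, ← h0]
  by_cases h : x = y <;> simp [h, one_apply]

end model

section count
variable {l : ℕ} [Fact l.Prime] {R n : Type*} [CommRing R] [Algebra ℤ_[l] R] [Fintype n]
  [DecidableEq n]

theorem fcnt_unit (b : Module.Basis (Fin nn) ℤ_[l] R) (y : R) : IsUnit (1 + (l : ℤ_[l]) • y) := by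
  have : Module.Finite ℤ_[l] R := Module.Finite.of_basis b
  by_contra h
  obtain ⟨M, hM, hy⟩ := exists_max_ideal_of_mem_nonunits h
  have h1 : (M.comap (algebraMap ℤ_[l] R)).IsMaximal :=
    Ideal.isMaximal_comap_of_isIntegral_of_isMaximal M
  have h2 : (l : ℤ_[l]) ∈ M.comap (algebraMap ℤ_[l] R) := by
    rw [IsLocalRing.eq_maximalIdeal h1, PadicInt.maximalIdeal_eq_span_p]
    exact Ideal.mem_span_singleton_self _
  have h3 : (l : ℤ_[l]) • y ∈ M := by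
    rw [Algebra.smul_def]; exact M.mul_mem_right _ h2
  exact hM.ne_top ((Ideal.eq_top_iff_one M).2 (by simpa using M.sub_mem hy h3))

/-- coordinates modulo `l ^ j` -/
noncomputable def fred (b : Module.Basis (Fin nn) ℤ_[l] R) (j : ℕ) (x : R) : Fin nn → ZMod (l ^ j) :=
  fun i => PadicInt.toZModPow j (b.repr x i)

omit [Dim] in
theorem fcnt_zp {j : ℕ} {x y : ℤ_[l]} (h : PadicInt.toZModPow j x = PadicInt.toZModPow j y) :
    ∃ z, y = x + (l : ℤ_[l]) ^ j * z := by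
  have h1 : y - x ∈ RingHom.ker (PadicInt.toZModPow (p := l) j) := by
    rw [RingHom.mem_ker, map_sub, h, sub_self]
  rw [PadicInt.ker_toZModPow, Ideal.mem_span_singleton] at h1
  obtain ⟨z, hz⟩ := h1
  exact ⟨z, by rw [← hz]; ring⟩

theorem fred_eq (b : Module.Basis (Fin nn) ℤ_[l] R) {j : ℕ} {x y : R} (h : fred b j x = fred b j y) :
    ∃ z, y = x + (l : ℤ_[l]) ^ j • z := by
  choose z hz using fun i => fcnt_zp (congrFun h i)
  refine ⟨∑ i, z i • b i, b.ext_elem fun i => ?_⟩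
  rw [hz i]
  simp [Finsupp.single_apply]

/-- congruences are kept -/
theorem fcnt_cong (b : Module.Basis (Fin nn) ℤ_[l] R) (σ : Fin nn → R →ₐ[ℤ_[l]] PadicAlgCl l)
    (Nm : Matrix (Fin 2) (Fin 2) R →* Matrix n n ℤ_[l])
    (C : Matrix n (Fin nn → Fin 2) (PadicAlgCl l)) (C' : Matrix (Fin nn → Fin 2) n (PadicAlgCl l))
    (hC : C * C' = 1) (h1 : ∀ i j, ‖C i j‖ ≤ 1) (h2 : ∀ i j, ‖C' i j‖ ≤ 1)
    (hN : ∀ g, (Nm g).map (algebraMap ℤ_[l] _) * C = C * kp fun i => g.map (σ i)) (k : ℕ)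
    (h : Matrix (Fin 2) (Fin 2) R) :
    ∃ Y, Nm (1 + (l : ℤ_[l]) ^ k • h) = 1 + (l : ℤ_[l]) ^ k • Y := by
  have : Module.Finite ℤ_[l] R := Module.Finite.of_basis b
  have h3 : ∀ i x, ‖σ i x‖ ≤ 1 := fun i x => by
    obtain ⟨P, hP, h⟩ := (Algebra.IsIntegral.isIntegral (R := ℤ_[l]) x).map (σ i)
    exact BW.root_le hP h
  have h4 : ∀ x y, (l : ℤ_[l]) ^ k ∣ (Nm (1 + (l : ℤ_[l]) ^ k • h) - 1) x y := fun x y => by
    have e : (Nm (1 + (l : ℤ_[l]) ^ k • h) - 1).map (algebraMap ℤ_[l] (PadicAlgCl l)) =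
        C * ((kp fun i => (1 + (l : ℤ_[l]) ^ k • h).map (σ i)) -
          kp fun i => (1 : Matrix (Fin 2) (Fin 2) R).map (σ i)) * C' := by
      rw [Matrix.mul_sub, Matrix.sub_mul, ← fcnt_conj σ Nm C C' hC hN, ← fcnt_conj σ Nm C C' hC hN,
        map_one, Matrix.map_sub _ (map_sub _)]
    have e' : algebraMap ℤ_[l] (PadicAlgCl l) ((Nm (1 + (l : ℤ_[l]) ^ k • h) - 1) x y) = _ :=
      congrFun (congrFun e x) y
    rw [← Ideal.mem_span_singleton, ← PadicInt.norm_le_pow_iff_mem_span_pow, ← PadicInt.norm_p_pow,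
      ← BW.norm_alg, e', mul_apply]
    refine IsUltrametricDist.norm_sum_le_of_forall_le_of_nonneg (norm_nonneg _) fun v _ => ?_
    rw [norm_mul, mul_apply]
    refine (mul_le_of_le_one_right (norm_nonneg _) (h2 _ _)).trans
      (IsUltrametricDist.norm_sum_le_of_forall_le_of_nonneg (norm_nonneg _) fun w _ => ?_)
    rw [norm_mul, Matrix.sub_apply, kp_apply, kp_apply]
    refine (mul_le_of_le_one_left (norm_nonneg _) (h1 _ _)).trans
      (fcnt_prod _ (norm_nonneg _) (fun i => ?_) (fun i => ?_) fun i => ?_)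
    · rw [map_apply]; exact h3 _ _
    · rw [map_apply]; exact h3 _ _
    rw [map_apply, map_apply, ← map_sub, Matrix.add_apply, add_sub_cancel_left, Matrix.smul_apply,
      map_smul, Algebra.smul_def, norm_mul, BW.norm_alg]
    exact mul_le_of_le_one_right (norm_nonneg _) (h3 _ _)
  choose Y hY using h4
  exact ⟨of Y, eq_add_of_sub_eq' (Matrix.ext hY)⟩

/-- The matrices `c • Nm g` have at most `l ^ ((6 n + 1) e + 4 n)` classes. -/
theorem fcnt_card [Nonempty n] (b : Module.Basis (Fin nn) ℤ_[l] R)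
    (Nm : Matrix (Fin 2) (Fin 2) R →* Matrix n n ℤ_[l])
    (h1 : ∀ r : R, ∃ c : ℤ_[l], Nm (r • 1) = c • 1)
    (h2 : ∀ (k : ℕ) h, ∃ Y, Nm (1 + (l : ℤ_[l]) ^ k • h) = 1 + (l : ℤ_[l]) ^ k • Y) (e : ℕ) :
    ∃ (ι : Type) (_ : Finite ι) (z : ι → GL n ℤ_[l]),
      Nat.card ι ≤ l ^ ((6 * nn + 1) * e + 4 * nn) ∧
      ∀ (u : GL n ℤ_[l]) (c : ℤ_[l]) (g : Matrix (Fin 2) (Fin 2) R), IsUnit g →
        u.val = c • Nm g → ∃ i, (z i)⁻¹ * u ∈ cgS n ((l : ℤ_[l]) ^ e) := by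
  classical
  have hl : 0 < l := (Fact.out : l.Prime).pos
  have : ∀ k, NeZero (l ^ k) := fun k => ⟨(pow_pos hl k).ne'⟩
  let cl : Matrix (Fin 2) (Fin 2) R → Fin 2 → Fin 2 → Fin nn → ZMod (l ^ 1) :=
    fun g i j => fred b 1 (g i j)
  have hrep : ∀ w, ∃ g0 : Matrix (Fin 2) (Fin 2) R, (∃ g, IsUnit g ∧ cl g = w) →
      IsUnit g0 ∧ cl g0 = w := fun w => by
    by_cases h : ∃ g, IsUnit g ∧ cl g = w
    · exact ⟨h.choose, fun _ => h.choose_spec⟩
    · exact ⟨1, fun h' => absurd h' h⟩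
  choose rep hrep using hrep
  have norm : ∀ (c : ℤ_[l]) (g : Matrix (Fin 2) (Fin 2) R), IsUnit g →
      ∃ (c' : ℤ_[l]) (m : Matrix (Fin 2) (Fin 2) R), IsUnit m ∧ m 0 0 = 1 ∧
        c • Nm g = c' • (Nm (rep (cl g)) * Nm m) := by
    intro c g hg
    obtain ⟨hu, he⟩ := hrep (cl g) ⟨g, hg, rfl⟩
    choose z hz using fun i j => fred_eq b (congrFun (congrFun he i) j)
    obtain ⟨v, hv⟩ := hu
    have e1 : g = rep (cl g) + (l : ℤ_[l]) • of z := by
      ext i j; rw [hz i j]; simp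
    have e2 : g = rep (cl g) * (1 + (l : ℤ_[l]) • ((↑v⁻¹ : Matrix (Fin 2) (Fin 2) R) * of z)) := by
      rw [Matrix.mul_add, Matrix.mul_one, Matrix.mul_smul, ← Matrix.mul_assoc, ← hv,
        Units.mul_inv, Matrix.one_mul, hv]
      exact e1
    generalize (↑v⁻¹ : Matrix (Fin 2) (Fin 2) R) * of z = w at e2
    obtain ⟨r, hr⟩ := fcnt_unit b (w 0 0)
    obtain ⟨cr, hcr⟩ := h1 r
    have hm : IsUnit (1 + (l : ℤ_[l]) • w) := by
      have := hg
      rw [e2, ← hv] at this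
      exact (Units.isUnit_units_mul v _).1 this
    refine ⟨c * cr, (↑r⁻¹ : R) • (1 + (l : ℤ_[l]) • w), ?_, ?_, ?_⟩
    · rw [isUnit_iff_isUnit_det, det_smul]
      exact ((Units.isUnit r⁻¹).pow _).mul ((isUnit_iff_isUnit_det _).1 hm)
    · rw [Matrix.smul_apply, Matrix.add_apply, one_apply_eq, Matrix.smul_apply, ← hr, smul_eq_mul, Units.inv_mul]
    · have e3 : 1 + (l : ℤ_[l]) • w =
          ((r : R) • (1 : Matrix (Fin 2) (Fin 2) R)) * ((↑r⁻¹ : R) • (1 + (l : ℤ_[l]) • w)) := by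
        rw [Matrix.smul_mul, Matrix.one_mul, smul_smul, Units.mul_inv, one_smul]
      conv_lhs => rw [e2, e3, map_mul, map_mul, hcr]
      rw [Matrix.smul_mul, Matrix.one_mul, Matrix.mul_smul, smul_smul]
  let T := (Fin 2 → Fin 2 → Fin nn → ZMod (l ^ 1)) × ZMod (l ^ e) ×
    (Fin 3 → Fin nn → ZMod (l ^ (2 * e)))
  have hT : Nat.card T = l ^ ((6 * nn + 1) * e + 4 * nn) := by
    simp only [T, Nat.card_prod, Nat.card_fun, Nat.card_zmod, Nat.card_fin]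
    ring
  let Q : T → GL n ℤ_[l] → Prop := fun t u => ∃ (c : ℤ_[l]) (m : Matrix (Fin 2) (Fin 2) R),
    IsUnit m ∧ m 0 0 = 1 ∧ u.val = c • (Nm (rep t.1) * Nm m) ∧ t.2 = (PadicInt.toZModPow e c,
      ![fred b _ (m 0 1), fred b _ (m 1 0), fred b _ (m 1 1)])
  have hz : ∀ t, ∃ z, (∃ u, Q t u) → Q t z := fun t => by
    by_cases h : ∃ u, Q t u
    · exact ⟨h.choose, fun _ => h.choose_spec⟩
    · exact ⟨1, fun h' => absurd h' h⟩
  choose z hz using hz
  refine ⟨T, inferInstance, z, hT.le, fun u c g hg hu => ?_⟩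
  obtain ⟨c', m', hm', h0', e'⟩ := norm c g hg
  rw [← hu] at e'
  obtain ⟨c₀, m, ⟨v, hv⟩, h0, e0, e1⟩ := hz (cl g, _) ⟨u, c', m', hm', h0', e', rfl⟩
  refine ⟨(cl g, PadicInt.toZModPow e c', ![fred b _ (m' 0 1), fred b _ (m' 1 0),
    fred b _ (m' 1 1)]), ?_⟩
  generalize z _ = w at e0 ⊢
  obtain ⟨e2, e3⟩ := Prod.mk.inj e1
  obtain ⟨z1, hz1⟩ := fred_eq b (congrFun e3 0).symm
  obtain ⟨z2, hz2⟩ := fred_eq b (congrFun e3 1).symm
  obtain ⟨z3, hz3⟩ := fred_eq b (congrFun e3 2).symm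
  obtain ⟨s, hs⟩ := fcnt_zp e2.symm
  have e4 : m' = m * (1 + (l : ℤ_[l]) ^ (2 * e) •
      ((↑v⁻¹ : Matrix (Fin 2) (Fin 2) R) * !![0, z1; z2, z3])) := by
    rw [Matrix.mul_add, Matrix.mul_one, Matrix.mul_smul, ← Matrix.mul_assoc, ← hv,
      Units.mul_inv, Matrix.one_mul, hv]
    ext i j
    fin_cases i <;> fin_cases j
    · simp [h0, h0']
    · simpa using hz1
    · simpa using hz2
    · simpa using hz3
  obtain ⟨Y, hY⟩ := h2 (2 * e) ((↑v⁻¹ : Matrix (Fin 2) (Fin 2) R) * !![0, z1; z2, z3])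
  obtain ⟨a, ha⟩ : ∃ a, c₀ * a = 1 := by
    have := (isUnit_iff_isUnit_det _).1 w.isUnit
    rw [e0, det_smul] at this
    exact ((isUnit_pow_iff Fintype.card_ne_zero).1 (isUnit_of_mul_isUnit_left this)).exists_right_inv
  refine ⟨a * s, (1 + (l : ℤ_[l]) ^ e * (a * s)) • Y, ?_⟩
  rw [Units.val_mul, Units.inv_mul_eq_iff_eq_mul, e', e0, e4, map_mul, hY, ← Matrix.mul_assoc,
    show c' = c₀ * (1 + (l : ℤ_[l]) ^ e * (a * s)) by linear_combination hs - l ^ e * s * ha]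
  simp only [Matrix.mul_add, Matrix.mul_smul, Matrix.smul_mul, Matrix.mul_one]
  rw [two_mul, pow_add]
  module

/-- The count in the tensor model. -/
theorem fcnt_model [Nonempty n] (b : Module.Basis (Fin nn) ℤ_[l] R)
    (σ : Fin nn → R →ₐ[ℤ_[l]] PadicAlgCl l) (Nm : Matrix (Fin 2) (Fin 2) R →* Matrix n n ℤ_[l])
    (C : Matrix n (Fin nn → Fin 2) (PadicAlgCl l)) (C' : Matrix (Fin nn → Fin 2) n (PadicAlgCl l))
    (hi : Function.Injective (algebraMap ℤ_[l] (PadicAlgCl l))) (hC : C * C' = 1)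
    (h1 : ∀ i j, ‖C i j‖ ≤ 1) (h2 : ∀ i j, ‖C' i j‖ ≤ 1)
    (hN : ∀ g, (Nm g).map (algebraMap ℤ_[l] _) * C = C * kp fun i => g.map (σ i)) (e : ℕ) :
    ∃ (ι : Type) (_ : Finite ι) (z : ι → GL n ℤ_[l]),
      Nat.card ι ≤ l ^ ((6 * nn + 1) * e + 4 * nn) ∧
      ∀ (u : GL n ℤ_[l]) (c : ℤ_[l]) (g : Matrix (Fin 2) (Fin 2) R), IsUnit g →
        u.val = c • Nm g → ∃ i, (z i)⁻¹ * u ∈ cgS n ((l : ℤ_[l]) ^ e) :=
  fcnt_card b Nm (fcnt_scalar σ Nm C C' hi hC hN) (fcnt_cong b σ Nm C C' hC h1 h2 hN) e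

end count

end Pool.Agent.MT
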