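import Mathlib

/-! The number `n` of factors and the dimension `g = 2 ^ (n - 1)`. -/

set_option autoImplicit false

namespace Pool.Agent.MT

/-- the two numerical parameters -/
class Dim where
  n : ℕ
  g : ℕ
  three : 3 ≤ n
  odd : Odd n
  hg : 2 * g = 2 ^ n

/-- the dimension -/
abbrev gg [d : Dim] : ℕ := d.g

/-- the number of factors -/
abbrev nn [d : Dim] : ℕ := d.n

variable [Dim]

theorem nn_three : 3 ≤ nn := Dim.three

theorem nn_odd : Odd nn := Dim.odd

theorem two_gg : 2 * gg = 2 ^ nn := Dim.hg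

theorem gg_four : 4 ≤ gg := by
  have h := Nat.pow_le_pow_right (show 0 < 2 by norm_num) nn_three
  have := two_gg
  omega

theorem gg_eq : gg = 2 ^ (nn - 1) := by
  have h := two_gg
  obtain ⟨k, hk⟩ : ∃ k, nn = k + 1 := ⟨nn - 1, by have := nn_three; omega⟩
  rw [hk, pow_succ] at h
  rw [hk, Nat.add_sub_cancel]
  omega

theorem nn_le_gg : nn + 1 ≤ gg := by
  have h := nn_three
  rw [gg_eq]
  obtain ⟨k, hk⟩ : ∃ k, nn = k + 3 := ⟨nn - 3, by omega⟩
  have := Nat.lt_two_pow_self (n := k)
  rw [hk, show k + 3 - 1 = k + 2 from rfl, pow_add]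
  omega

instance : NeZero gg := ⟨by have := gg_four; omega⟩

instance : NeZero nn := ⟨by have := nn_three; omega⟩

instance : Nontrivial (Fin nn) := Fin.nontrivial_iff_two_le.2 (by have := nn_three; omega)

theorem card_cube : Fintype.card (Fin nn → Fin 2) = 2 * gg := by simp [two_gg]

theorem card_sum : Fintype.card (Fin gg ⊕ Fin gg) = 2 * gg := by simp [two_mul]

/-- the exponent in the count of the level structures -/
def kx : ℕ := 2 * (gg * gg - gg) - 1

theorem kx_ge : 2 * (3 * nn + 1) ≤ kx ∧ kx + 1 = 2 * (gg * gg - gg) := by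
  have h1 := nn_le_gg
  have h2 := gg_four
  have h3 : 4 * gg ≤ gg * gg := Nat.mul_le_mul_right _ h2
  unfold kx
  omega

end Pool.Agent.MT
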