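import Pool.Agent.Lib.MP_d61fbb_ag.MT.EDefs
import Pool.Agent.Lib.MP_d61fbb_ag.MT.ENorm
import Pool.Agent.Lib.MP_d61fbb_ag.MN.FDefs

/-! The glue of block E: the abstract global data and what is deduced from them. -/

open NumberField Ideal

namespace Pool.Agent.MT

variable [Dim]

/-- `a` generates `A` at the rational prime `l`. -/
def Gen {E : Type} [Field E] [NumberField E] (l : ℕ) (A : Ideal (𝓞 E)) (a : 𝓞 E) : Prop :=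
  a ≠ 0 ∧ ∃ c d : Ideal (𝓞 E), A * c = span {a} * d ∧ ¬ l ∣ absNorm c ∧ ¬ l ∣ absNorm d

/-- The local data.  `GG` is the adelic group, `K l` is the group of elements whose component at
`l` fixes the standard lattice, `N l` is the group of elements whose component at `l` is a unit
times a norm, `Kn e` is the group of elements that are one modulo `l₀ ^ (2 e)` at `l₀`; the bad
primes are the divisors of `f`. -/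
structure Loc (E : Type) [Field E] [NumberField E] (f l₀ : ℕ) (Γ GG : Type) [Group Γ]
    [Group GG] where
  ρ : Γ →* GG
  ν : 𝓞 E → GG
  K : ℕ → Subgroup GG
  N : ℕ → Subgroup GG
  Kn : ℕ → Subgroup GG
  ν_mul : ∀ a b, a ≠ 0 → b ≠ 0 → ν (a * b) = ν a * ν b
  N_le : ∀ l, l.Prime → ¬ l ∣ f → N l ≤ K l
  Kn_le : ∀ e, Kn e ≤ K l₀
  ρ_K : ∀ σ l, l.Prime → ρ σ ∈ K l
  ρ_N : ∀ σ l, l.Prime → ¬ l ∣ f → ρ σ ∈ N l
  ν_N : ∀ b l, l.Prime → ¬ l ∣ f → ¬ l ∣ absNorm (span {b}) → ν b ∈ N l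
  ν_K : ∀ a β l, l.Prime → l ∣ f → IsCoprime a (f : 𝓞 E) → (f : 𝓞 E) ∣ β - a →
    ν β * (ν a)⁻¹ ∈ K l
  sph : ∀ a l, l.Prime → ¬ l ∣ f → l ∣ absNorm (span {a}) → ¬ l ^ 2 ∣ absNorm (span {a}) →
    ∃ T : Finset (GG ⧸ K l), T.card ≤ l + 1 ∧ ∀ h ∈ N l, ((h * ν a : GG) : GG ⧸ K l) ∈ T
  align : ∀ (T : Finset ℕ) (a : ℕ → 𝓞 E) (h : ℕ → GG), (∀ l ∈ T, l.Prime ∧ ¬ l ∣ f ∧
    l ∣ absNorm (span {a l}) ∧ ¬ l ^ 2 ∣ absNorm (span {a l}) ∧ h l ∈ N l) →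
    ∃ σ, ∀ l ∈ T, (ν (a l))⁻¹ * (ρ σ * h l * ν (a l)) ∈ K l
  cnt : ∃ c : ℕ, ∀ e, 1 ≤ e → ∃ T : Finset (GG ⧸ Kn e), T.card ≤ c * (l₀ ^ e) ^ (6 * nn + 1) ∧
    ∀ h ∈ N l₀, (h : GG ⧸ Kn e) ∈ T

variable {E : Type} [Field E] [NumberField E] {f l₀ : ℕ} {Γ GG : Type} [Group Γ] [Group GG]

/-- The lattice of `g` is standard at the bad primes and lies in the sphere of `A` elsewhere. -/
def Loc.In (D : Loc E f l₀ Γ GG) (A : Ideal (𝓞 E)) (g : GG) : Prop :=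
  ∀ l, l.Prime → (l ∣ f → g ∈ D.K l) ∧
    (¬ l ∣ f → ∃ a, Gen l A a ∧ ∃ h ∈ D.N l, (h * D.ν a)⁻¹ * g ∈ D.K l)

/-- The global data.  `Th e g θ` says that `θ a` is the value at `g (a / l₀ ^ e)` (`a / l₀ ^ e`
placed at `l₀`) of a nonzero theta function of the lattice of `g` all of whose values are
algebraic integers; `w` is the size at the place `v`. -/
structure Glob (E : Type) [Field E] [NumberField E] (cj : 𝓞 E ≃+* 𝓞 E) (k : Subfield ℂ)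
    (f l₀ : ℕ) (t : ℝ) (Γ GG : Type) [Group Γ] [Group GG] extends Loc E f l₀ Γ GG where
  act : Γ →* (ℂ ≃+* ℂ)
  full : ∀ σ : ℂ ≃+* ℂ, (∀ c ∈ k, σ c = c) → ∃ g, act g = σ
  w : ℂ → ℝ
  fin : FinSize w
  Th : ℕ → GG → ((I2 gg → ℤ) → ℂ) → Prop
  ex : ∃ c : ℕ, ∀ e A g, A ≠ 0 → (absNorm A).Coprime f → toLoc.In A g →
    ∃ θ, Th e g θ ∧ ∀ (σ : ℂ ≃+* ℂ) a, ‖σ (θ a)‖ ≤ ((2 * absNorm A : ℕ) : ℝ) ^ c
  int : ∀ e g θ, Th e g θ → ∀ a, IsIntegral ℤ (θ a)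
  uniq : ∀ e g θ θ', Th e g θ → Th e g θ' → ∃ u : ℂ, ∀ a, θ a = u * θ' a
  inv : ∀ e g g' θ, (∀ l, l.Prime → g⁻¹ * g' ∈ K l) → g⁻¹ * g' ∈ Kn e → Th e g θ → Th e g' θ
  gal : ∀ e g θ σ, Th e g θ → Th e (ρ σ * g) fun a => act σ (θ a)
  interp : ∀ e (r d : ℕ) (z : Fin r → ℤ) (ch : Fin r → Fin d → I2 gg → ℤ) A g θ (n : ℕ)
    (a β : Fin n → 𝓞 E) (B : Fin n → Ideal (𝓞 E)) (θ' : Fin n → (I2 gg → ℤ) → ℂ),
    A ≠ 0 → (absNorm A).Coprime f → toLoc.In A g → Th e g θ →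
    (∀ i, IsCoprime (a i) (f : 𝓞 E) ∧ (f : 𝓞 E) ∣ β i - a i ∧ B i ≠ 0 ∧
      (absNorm (B i)).Coprime f ∧ toLoc.In (B i) (ν (β i) * (ν (a i))⁻¹ * g) ∧
      Th e (ν (β i) * (ν (a i))⁻¹ * g) (θ' i) ∧ qv z ch (θ' i) = 0) →
    (∀ i i', i ≠ i' → Dif cj (a i) (β i) (a i') (β i')) → w (qv z ch θ) ≤ t ^ n

/-- The output of the glue: a nonzero form in the family that kills (1) the points whose level
lies in the class and (2) the points aligned with the torus at `l₀`. -/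
def Glob.Out {cj : 𝓞 E ≃+* 𝓞 E} {k : Subfield ℂ} {t : ℝ} (D : Glob E cj k f l₀ t Γ GG)
    (F : Fam l₀) : Prop :=
  ∃ (m e : ℕ) (z : Fin (F.r e) → ℤ), m ≠ 0 ∧ f ∣ m ∧ m.Coprime l₀ ∧
    1 ≤ e ∧ F.e0 ≤ e ∧ z ≠ 0 ∧
    (∀ A g θ, Cls (m * l₀) (absNorm A) → D.In A g → (∃ h ∈ D.N l₀, h⁻¹ * g ∈ D.Kn e) →
      D.Th e g θ → qv z (F.ch e) θ = 0) ∧
    ∀ a g θ σ, a ≠ 0 → (∀ l, l.Prime → l ≠ l₀ → g ∈ D.K l) →
      (∃ h ∈ D.N l₀, (D.ρ σ * D.ν a * h)⁻¹ * g ∈ D.Kn e) → D.Th e g θ → qv z (F.ch e) θ = 0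

/-- The glue. -/
def GlueStmt : Prop :=
  ∀ (E : Type) [Field E] [NumberField E] (cj : 𝓞 E ≃+* 𝓞 E) (δ : 𝓞 E) (k : Subfield ℂ)
    [Module.Finite ℚ k] (f l₀ : ℕ) (t : ℝ) (Γ GG : Type) [Group Γ] [Group GG]
    (D : Glob E cj k f l₀ t Γ GG) (F : Fam l₀), 2 ≤ f → l₀.Prime → ¬ l₀ ∣ f → cj δ = -δ →
    2 * δ ∣ (f : 𝓞 E) → 0 < t → t < 1 → D.Out F

end Pool.Agent.MT
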