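import Pool.Agent.Lib.MP_d61fbb_ag.MT.EAll

/-! Block E: the extrapolation for forms of logarithmic degree. -/

open NumberField Ideal Filter

namespace Pool.Agent.MT

theorem choose_large2 (c : ℝ) : ∀ᶠ r : ℕ in atTop, c * (r : ℝ) ^ 16 ≤ ((r - 1).choose 17 : ℕ) := by
  obtain ⟨m, hm⟩ := exists_nat_ge (c * (2 ^ 17 * (17 : ℕ).factorial))
  filter_upwards [eventually_ge_atTop 34, eventually_ge_atTop m] with r h1 h2
  have h3 := Nat.pow_le_choose (α := ℝ) 17 (r - 1)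
  have h4 : (r : ℝ) / 2 ≤ ((r - 1 + 1 - 17 : ℕ) : ℝ) := by
    have : r ≤ 2 * (r - 1 + 1 - 17) := by omega
    rw [div_le_iff₀ two_pos, mul_comm]
    exact_mod_cast this
  have h5 := pow_le_pow_left₀ (by positivity) h4 17
  have h6 : (0 : ℝ) < (17 : ℕ).factorial := by positivity
  refine le_trans ?_ h3
  push_cast at h5 ⊢
  rw [le_div_iff₀ h6]
  refine le_trans ?_ h5
  have h7 : (m : ℝ) ≤ r := by exact_mod_cast h2
  rw [div_pow, le_div_iff₀ (by positivity), pow_succ (r : ℝ) 16]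
  have h8 := mul_le_mul_of_nonneg_left (hm.trans h7) (show (0 : ℝ) ≤ (r : ℝ) ^ 16 by positivity)
  linarith

/-- the final inequality -/
theorem ind_final2 {θ c : ℝ} (h0 : 0 < θ) (h1 : θ < 1) {N r o k n L : ℕ} (hN : 1 ≤ N) (hr : 1 ≤ r)
    (ho : 1 ≤ o) (hNr : N ≤ 2 ^ r ^ 4) (hL : L ≤ r ^ 4)
    (hn : 2 * (|c| + 1) / (-Real.log θ) * (r : ℝ) ^ 16 ≤ n)
    (hk : (n : ℝ) * o ≤ 2 * (r : ℝ) ^ 8 * k) (h : 1 ≤ ((N : ℝ) ^ (c * L)) ^ o * θ ^ k) : False := by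
  refine ind_final h0 h1 hN hr ho hNr (le_trans ?_ hn) hk h
  have hl : 0 < -Real.log θ := neg_pos.2 (Real.log_neg h0 h1)
  have r1 : (1 : ℝ) ≤ (r : ℝ) ^ 4 := one_le_pow₀ (by exact_mod_cast hr)
  have h2 : (L : ℝ) ≤ (r : ℝ) ^ 4 := by exact_mod_cast hL
  have h3 : |c * L| + 1 ≤ (|c| + 1) * (r : ℝ) ^ 4 := by
    rw [abs_mul, Nat.abs_cast]
    nlinarith [abs_nonneg c, mul_le_mul_of_nonneg_left h2 (abs_nonneg c)]
  calc _ ≤ 2 * ((|c| + 1) * (r : ℝ) ^ 4) / (-Real.log θ) * (r : ℝ) ^ 12 := by gcongr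
    _ = _ := by ring

/-- The extrapolation with an exponent that grows like the logarithm of the bound. -/
def EInd2 : Prop :=
  ∀ (E : Type) [Field E] [NumberField E] (cj : 𝓞 E ≃+* 𝓞 E) (δ : 𝓞 E) (f g : ℕ) (θ c : ℝ),
    f ≠ 0 → g ≠ 0 → f.Coprime g → cj δ = -δ → 2 * δ ∣ (f : 𝓞 E) → 0 < θ → θ < 1 →
    ∃ f' X₁ : ℕ, f' ≠ 0 ∧ f ∣ f' ∧ f'.Coprime g ∧ ∀ X₀, X₁ ≤ X₀ →
      ∀ S : Sys E cj f (f' * g) θ (c * (Nat.log 2 X₀ : ℕ)) X₀,
        (∀ x, Cls (f' * g) (S.lev x) → S.lev x ≤ X₀ → S.Z x) →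
        ∀ x, Cls (f' * g) (S.lev x) → S.Z x

theorem eInd2 : EInd2 := by
  classical
  intro E _ _ cj δ f g θ c hf hg hfg hδ hδf hθ0 hθ1
  obtain ⟨f', Y₀, hf'0, hff', hf'g, hcount⟩ := eCount E f g 18 hf hg hfg
  obtain ⟨r₀, hr₀⟩ := Filter.eventually_atTop.1 (choose_large2 (2 * (|c| + 1) / (-Real.log θ)))
  refine ⟨f', 2 ^ (r₀ + Y₀ + 18) ^ 4, hf'0, hff', hf'g, fun X₀ hX S hbase => ?_⟩
  suffices H : ∀ N, ∀ x, S.lev x = N → Cls (f' * g) N → S.Z x from fun x hx => H _ x rfl hx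
  intro N
  induction N using Nat.strong_induction_on with
  | _ N ih =>
  intro x hx hN
  by_cases hle : N ≤ X₀
  · exact hbase x (hx ▸ hN) (hx ▸ hle)
  by_contra hZ
  have hex : ∃ r : ℕ, N ≤ 2 ^ r ^ 4 := ⟨_, hN.2.2⟩
  obtain ⟨r, hr1, hr2, hr3⟩ : ∃ r : ℕ, N ≤ 2 ^ r ^ 4 ∧ r ≤ N.primeFactors.card ∧
      ∀ s < r, 2 ^ s ^ 4 < N :=
    ⟨Nat.find hex, Nat.find_spec hex, Nat.find_min' hex hN.2.2,
      fun s hs => not_le.1 (Nat.find_min hex hs)⟩
  have hr4 : r₀ + Y₀ + 18 < r := by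
    by_contra h'
    have : 2 ^ r ^ 4 ≤ 2 ^ (r₀ + Y₀ + 18) ^ 4 :=
      Nat.pow_le_pow_right (by norm_num) (Nat.pow_le_pow_left (by omega) 4)
    omega
  obtain ⟨G, hG, hGc, hq⟩ := exists_blocks hN.1 (by omega : 1 ≤ r) hr2
  have hGp : ∀ l ∈ G, l.Prime := fun l hl => Nat.prime_of_mem_primeFactors (hG hl)
  set q := ∏ l ∈ N.primeFactors \ G, l with hqdef
  have hq4 := ind_q_large (by omega : 4 ≤ r) (hr3 (r - 1) (by omega)) hq
  obtain ⟨A₀, hA₀, hdens⟩ := S.dens x (hx ▸ hN)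
  rw [hx] at hA₀
  have hNf : N.Coprime f := Nat.Coprime.coprime_dvd_right (hff'.mul_right g) hN.2.1
  -- the data of one block
  have hblock : ∀ J ∈ G.powersetCard 17, ∃ (A : Ideal (𝓞 E)) (T : Finset S.X)
      (B : Finset (Ideal (𝓞 E))), A ∣ A₀ ∧ absNorm A = q * ∏ l ∈ J, l ∧ T ⊆ S.orb x ∧
      (∀ y ∈ T, S.Al y A) ∧ ((S.orb x).card : ℝ) ≤ 2 * (r : ℝ) ^ 8 * (T.card * B.card) ∧
      ∀ b ∈ B, absNorm b < absNorm A ∧ Squarefree (absNorm b) ∧ (absNorm b).Coprime (f' * g) ∧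
        (∀ l ∈ G, ¬ l ∣ absNorm b) ∧ 18 ≤ (absNorm b).primeFactors.card ∧
        ∃ a β, Mv f A b a β := by
    intro J hJ
    have hJG := (Finset.mem_powersetCard.1 hJ).1
    have hs := ind_split hN.1 hG hJG
    have hd : (q * ∏ l ∈ J, l) ∣ N := Dvd.intro_left _ hs.symm
    obtain ⟨A, hA1, hA2⟩ := exists_dvd_norm (A := A₀) (hA₀ ▸ hN.1) (hA₀ ▸ hd)
    obtain ⟨T, hT1, hT2, hT3⟩ := hdens A hA1
    have hqa : q ≤ absNorm A := by
      rw [hA2]
      exact Nat.le_mul_of_pos_right _ (Finset.prod_pos fun l hl => (hGp l (hJG hl)).pos)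
    have h4 : 4 ^ (r - 1) ^ 2 ≤ absNorm A := hq4.trans hqa
    have h5 : r - 1 < 4 ^ (r - 1) ^ 2 :=
      (Nat.le_self_pow (by norm_num) (r - 1)).trans_lt (Nat.lt_pow_self (by norm_num))
    obtain ⟨B, hB1, hB2⟩ := hcount A
      (Nat.Coprime.coprime_dvd_left (hA2 ▸ hd) (Nat.Coprime.coprime_mul_right_right hN.2.1))
      (by omega) G hGp (by
        have h6 : ((4 : ℝ)) ^ (r - 1) ^ 2 ≤ absNorm A := by exact_mod_cast h4
        have h7 := Real.log_le_log (by positivity) h6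
        rw [Real.log_pow, show (4 : ℝ) = 2 ^ 2 by norm_num, Real.log_pow] at h7
        have h8 : (1 : ℝ) ≤ (2 : ℕ) * Real.log 2 := by
          push_cast; linarith [Real.log_two_gt_d9]
        rw [hGc]
        refine le_trans ?_ h7
        push_cast at h8 ⊢
        nlinarith [sq_nonneg (((r - 1 : ℕ) : ℝ))])
    exact ⟨A, T, B, hA1, hA2, hT1, hT2, ind_block (by omega) (hA2 ▸ hN.1.squarefree_of_dvd hd)
      (by omega) ((Nat.le_of_dvd (by omega) (hA2 ▸ hd)).trans hr1) hT3 hB1, hB2⟩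
  choose! A T B hA1 hA2 hT1 hT2 hTB hB using hblock
  let I : S.X → Finset (Σ _ : Finset ℕ, Ideal (𝓞 E)) := fun y =>
    ((G.powersetCard 17).filter fun J => y ∈ T J).sigma B
  -- every aligned pair gives a zero
  have hsz : ∀ y ∈ S.orb x, S.sz y ≤ θ ^ (I y).card := by
    intro y hy
    have hly : S.lev y = N := (S.lev_orb x y hy).trans hx
    have hpart : ∀ i ∈ I y, ∃ (a β : 𝓞 E) (z : S.X), Mv f (A i.1) i.2 a β ∧ S.Par a β y z ∧
        S.Z z := by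
      rintro ⟨J, b⟩ hi
      obtain ⟨hi1, hi2⟩ := Finset.mem_sigma.1 hi
      obtain ⟨hJ, hyT⟩ := Finset.mem_filter.1 hi1
      obtain ⟨hJG, hJc⟩ := Finset.mem_powersetCard.1 hJ
      obtain ⟨b1, b2, b3, b4, b5, a, β, hm⟩ := hB J hJ b hi2
      have hs := ind_split hN.1 hG hJG
      rw [← hqdef, ← hA2 J hJ] at hs
      have hpos : 0 < absNorm (A J) := by omega
      have hdiv : S.lev y / absNorm (A J) = ∏ l ∈ G \ J, l := by
        rw [hly]; exact Nat.div_eq_of_eq_mul_left hpos hs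
      obtain ⟨c1, c2⟩ := ind_cls (r := r) hN rfl (fun l hl => hGp l (Finset.sdiff_subset hl)) hs b1
        b2 b3 (fun l hl => b4 l (Finset.sdiff_subset hl))
        (by rw [Finset.card_sdiff_of_subset hJG]; omega) hr1
      obtain ⟨z, hz1, hz2⟩ := S.move y (A J) b a β (hly ▸ hN) (hT2 J hJ y hyT)
        (hly ▸ Dvd.intro_left _ hs.symm) hm (hdiv ▸ c1)
      rw [hdiv] at hz2
      exact ⟨a, β, z, hm, hz1, ih _ c2 z hz2 c1⟩
    choose! a β z hm hp hz using hpart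
    let e := (I y).equivFin.symm
    refine S.interp y (I y).card (fun i => a (e i)) (fun i => β (e i)) (fun i => z (e i) (e i).2)
      (hly ▸ hN) (fun i => ⟨hp _ (e i).2, hz _ (e i).2⟩) fun i i' hne => ?_
    by_contra hnd
    apply hne
    apply e.injective
    generalize e i = u, e i' = u' at hnd
    obtain ⟨⟨J, b⟩, hi⟩ := u
    obtain ⟨⟨J', b'⟩, hi'⟩ := u'
    obtain ⟨hi1, hi2⟩ := Finset.mem_sigma.1 hi
    obtain ⟨hi1', hi2'⟩ := Finset.mem_sigma.1 hi'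
    have hJ := (Finset.mem_filter.1 hi1).1
    have hJ' := (Finset.mem_filter.1 hi1').1
    obtain ⟨b1, b2, b3, b4, -⟩ := hB J hJ b hi2
    obtain ⟨b1', b2', b3', b4', -⟩ := hB J' hJ' b' hi2'
    have hA0 : A J ≠ 0 := fun h0 => by rw [h0] at b1; simp at b1
    have hA0' : A J' ≠ 0 := fun h0 => by rw [h0] at b1'; simp at b1'
    obtain ⟨e1, e2⟩ := eq_of_not_dif hδ hδf (hm _ hi) (hm _ hi') hnd hA0 hA0'
    obtain ⟨hJG, hJc⟩ := Finset.mem_powersetCard.1 hJ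
    obtain ⟨hJG', hJc'⟩ := Finset.mem_powersetCard.1 hJ'
    have hsub : J ⊆ J' := fun l hl => by
      have hlG := hJG hl
      have h1 := e2 A₀ (hA₀ ▸ hN.1) (hA₀ ▸ hNf) (hA1 J hJ) (hA1 J' hJ') l (hGp l hlG) (b4 l hlG)
        (b4' l hlG) (by
          rw [hA2 J hJ]; exact (Finset.dvd_prod_of_mem (fun l => l) hl).mul_left _)
      rw [hA2 J' hJ'] at h1
      rcases (Nat.Prime.dvd_mul (hGp l hlG)).1 h1 with h2 | h2
      · obtain ⟨l', hl', h3⟩ := (Prime.dvd_finsetProd_iff (hGp l hlG).prime _).1 h2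
        rw [Finset.mem_sdiff] at hl'
        rw [(Nat.prime_dvd_prime_iff_eq (hGp l hlG)
          (Nat.prime_of_mem_primeFactors hl'.1)).1 h3] at hlG
        exact absurd hlG hl'.2
      · obtain ⟨l', hl', h3⟩ := (Prime.dvd_finsetProd_iff (hGp l hlG).prime _).1 h2
        rwa [(Nat.prime_dvd_prime_iff_eq (hGp l hlG) (hGp l' (hJG' hl'))).1 h3]
    have hJJ : J = J' := Finset.eq_of_subset_of_card_le hsub (hJc'.trans hJc.symm).le
    subst hJJ
    have hbb : b = b' := e1 rfl b2 b2' (Nat.Coprime.coprime_dvd_right (hff'.mul_right g) b3)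
      (Nat.Coprime.coprime_dvd_right (hff'.mul_right g) b3')
    subst hbb
    rfl
  -- double counting
  have hsum : ∑ y ∈ S.orb x, (I y).card =
      ∑ J ∈ G.powersetCard 17, (T J).card * (B J).card := by
    simp only [I, Finset.card_sigma, Finset.sum_filter]
    rw [Finset.sum_comm]
    refine Finset.sum_congr rfl fun J hJ => ?_
    rw [← Finset.sum_filter, Finset.sum_const, smul_eq_mul, Finset.filter_mem_eq_inter,
      Finset.inter_eq_right.2 (hT1 J hJ)]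
  have hl := S.liou x (hx ▸ hN) (by omega) hZ
  rw [hx] at hl
  have hlog : Nat.log 2 X₀ ≤ r ^ 4 := by
    have := Nat.log_mono_right (b := 2) ((not_le.1 hle).le.trans hr1)
    rwa [Nat.log_pow (by norm_num)] at this
  refine ind_final2 (c := c) (k := ∑ y ∈ S.orb x, (I y).card) (n := (r - 1).choose 17)
    (o := (S.orb x).card) hθ0 hθ1 (by omega : 1 ≤ N) (by omega : 1 ≤ r)
    (S.orb_ne x).card_pos hr1 hlog (hr₀ r (by omega)) ?_ (hl.trans ?_)
  · rw [hsum, ← hGc, ← Finset.card_powersetCard, ← nsmul_eq_mul, ← Finset.sum_const]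
    push_cast
    rw [Finset.mul_sum]
    exact Finset.sum_le_sum hTB
  · rw [← Finset.prod_pow_eq_pow_sum]
    exact mul_le_mul_of_nonneg_left
      (Finset.prod_le_prod (fun y _ => S.sz_nonneg y) hsz) (by positivity)

end Pool.Agent.MT
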