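import Pool.Agent.Lib.MP_d61fbb_ag.MT.EAll

/-! Block E: the extrapolation when the auxiliary form has logarithmic degree. -/

open NumberField Ideal

namespace Pool.Agent.MT

/-- Points with levels, Galois orbits, alignment, partners, zeros and `v`-adic sizes.
`m = f' * g` is the modulus of the class, `θ` and `c` do not depend on `X₀`. -/
structure SyL (E : Type) [Field E] [NumberField E] (cj : 𝓞 E ≃+* 𝓞 E) (f m : ℕ) (θ c : ℝ)
    (X₀ : ℕ) where
  X : Type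
  lev : X → ℕ
  orb : X → Finset X
  Al : X → Ideal (𝓞 E) → Prop
  Par : 𝓞 E → 𝓞 E → X → X → Prop
  Z : X → Prop
  sz : X → ℝ
  sz_nonneg : ∀ x, 0 ≤ sz x
  orb_ne : ∀ x, (orb x).Nonempty
  lev_orb : ∀ x, ∀ y ∈ orb x, lev y = lev x
  dens : ∀ x, Cls m (lev x) → ∃ A₀ : Ideal (𝓞 E), absNorm A₀ = lev x ∧ ∀ A, A ∣ A₀ →
    ∃ T ⊆ orb x, (∀ y ∈ T, Al y A) ∧
      (orb x).card ≤ T.card * ∏ l ∈ (absNorm A).primeFactors, (l + 1)
  move : ∀ x A B a β, Cls m (lev x) → Al x A → absNorm A ∣ lev x → Mv f A B a β →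
    Cls m (lev x / absNorm A * absNorm B) →
    ∃ y, Par a β x y ∧ lev y = lev x / absNorm A * absNorm B
  interp : ∀ x (k : ℕ) (a β : Fin k → 𝓞 E) (y : Fin k → X), Cls m (lev x) →
    (∀ i, Par (a i) (β i) x (y i) ∧ Z (y i)) →
    (∀ i i', i ≠ i' → Dif cj (a i) (β i) (a i') (β i')) → sz x ≤ θ ^ k
  liou : ∀ x, Cls m (lev x) → X₀ ≤ lev x → ¬ Z x →
    1 ≤ ((lev x : ℝ) ^ (c * Real.log (lev x))) ^ (orb x).card * ∏ y ∈ orb x, sz y

/-- The extrapolation: zeros up to level `X₀` give zeros on the whole class. -/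
def EInL : Prop :=
  ∀ (E : Type) [Field E] [NumberField E] (cj : 𝓞 E ≃+* 𝓞 E) (δ : 𝓞 E) (f g : ℕ) (θ c : ℝ),
    f ≠ 0 → g ≠ 0 → f.Coprime g → cj δ = -δ → 2 * δ ∣ (f : 𝓞 E) → 0 < θ → θ < 1 →
    ∃ f' X₁ : ℕ, f' ≠ 0 ∧ f ∣ f' ∧ f'.Coprime g ∧ ∀ X₀, X₁ ≤ X₀ →
      ∀ S : SyL E cj f (f' * g) θ c X₀,
        (∀ x, Cls (f' * g) (S.lev x) → S.lev x ≤ X₀ → S.Z x) →
        ∀ x, Cls (f' * g) (S.lev x) → S.Z x

theorem choose_large' (n : ℕ) (c : ℝ) :
    ∀ᶠ r : ℕ in Filter.atTop, c * (r : ℝ) ^ n ≤ ((r - 1).choose (n + 1) : ℕ) := by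
  obtain ⟨m, hm⟩ := exists_nat_ge (c * (2 ^ (n + 1) * (n + 1).factorial))
  filter_upwards [Filter.eventually_ge_atTop (2 * (n + 1)), Filter.eventually_ge_atTop m]
    with r h1 h2
  have h3 := Nat.pow_le_choose (α := ℝ) (n + 1) (r - 1)
  have h4 : (r : ℝ) / 2 ≤ ((r - 1 + 1 - (n + 1) : ℕ) : ℝ) := by
    have : r ≤ 2 * (r - 1 + 1 - (n + 1)) := by omega
    rw [div_le_iff₀ two_pos, mul_comm]
    exact_mod_cast this
  have h5 := pow_le_pow_left₀ (by positivity) h4 (n + 1)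
  have h6 : (0 : ℝ) < (n + 1).factorial := by positivity
  refine le_trans ?_ h3
  rw [le_div_iff₀ h6]
  refine le_trans ?_ h5
  have h7 : (m : ℝ) ≤ r := by exact_mod_cast h2
  rw [div_pow, le_div_iff₀ (by positivity), pow_succ (r : ℝ) n]
  have h8 := mul_le_mul_of_nonneg_left (hm.trans h7) (show (0 : ℝ) ≤ (r : ℝ) ^ n by positivity)
  linarith

/-- the final inequality -/
theorem inl_final {θ c : ℝ} (h0 : 0 < θ) (h1 : θ < 1) {N r o k n : ℕ} (hN : 1 ≤ N) (hr : 1 ≤ r)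
    (ho : 1 ≤ o) (hNr : N ≤ 2 ^ r ^ 4)
    (hn : 2 * (|c| + 1) / (-Real.log θ) * (r : ℝ) ^ 16 ≤ n)
    (hk : (n : ℝ) * o ≤ 2 * (r : ℝ) ^ 8 * k) (h : 1 ≤ ((N : ℝ) ^ (c * Real.log N)) ^ o * θ ^ k) : False := by
  have hL : 0 < -Real.log θ := neg_pos.2 (Real.log_neg h0 h1)
  have N1 : (1 : ℝ) ≤ N := by exact_mod_cast hN
  have r0 : (0 : ℝ) < r := by exact_mod_cast hr
  have o0 : (0 : ℝ) < o := by exact_mod_cast ho
  have l0 : 0 ≤ Real.log N := Real.log_nonneg N1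
  have l1 : Real.log N ≤ (r : ℝ) ^ 4 := by
    have h5 : (N : ℝ) ≤ 2 ^ r ^ 4 := by exact_mod_cast hNr
    have h6 := Real.log_le_log (by linarith) h5
    rw [Real.log_pow] at h6
    have h7 : Real.log 2 ≤ 1 := by linarith [Real.log_two_lt_d9]
    push_cast at h6
    nlinarith [pow_pos r0 4]
  have h2 := Real.log_nonneg h
  rw [Real.log_mul (by positivity) (by positivity), Real.log_pow, Real.log_pow,
    Real.log_rpow (by linarith)] at h2
  have h3 : Real.log N * (c * Real.log N) ≤ |c| * (r : ℝ) ^ 8 :=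
    calc _ = c * Real.log N ^ 2 := by ring
      _ ≤ |c| * ((r : ℝ) ^ 4) ^ 2 := by gcongr; exact le_abs_self c
      _ = _ := by ring
  have h4 : (k : ℝ) * (-Real.log θ) ≤ o * (|c| * (r : ℝ) ^ 8) := by
    have := mul_le_mul_of_nonneg_left h3 o0.le
    linarith
  rw [div_mul_eq_mul_div, div_le_iff₀ hL] at hn
  have h5 : 2 * (|c| + 1) * (r : ℝ) ^ 16 * o ≤ 2 * (r : ℝ) ^ 8 * (o * (|c| * (r : ℝ) ^ 8)) :=
    calc _ ≤ (n : ℝ) * (-Real.log θ) * o := by gcongr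
      _ = (n * o) * (-Real.log θ) := by ring
      _ ≤ (2 * (r : ℝ) ^ 8 * k) * (-Real.log θ) := by gcongr
      _ = 2 * (r : ℝ) ^ 8 * (k * (-Real.log θ)) := by ring
      _ ≤ _ := by gcongr
  have h6 : (0 : ℝ) < (r : ℝ) ^ 16 * o := by positivity
  nlinarith

theorem eInL : EInL := by
  classical
  intro E _ _ cj δ f g θ c hf hg hfg hδ hδf hθ0 hθ1
  obtain ⟨f', Y₀, hf'0, hff', hf'g, hcount⟩ := eCount E f g 18 hf hg hfg
  obtain ⟨r₀, hr₀⟩ := Filter.eventually_atTop.1 (choose_large' 16 (2 * (|c| + 1) / (-Real.log θ)))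
  refine ⟨f', 2 ^ (r₀ + Y₀ + 18) ^ 4, hf'0, hff', hf'g, fun X₀ hX S hbase => ?_⟩
  suffices H : ∀ N, ∀ x, S.lev x = N → Cls (f' * g) N → S.Z x from fun x hx => H _ x rfl hx
  intro N
  induction N using Nat.strong_induction_on with
  | _ N ih =>
  intro x hx hN
  by_cases hle : N ≤ X₀
  · exact hbase x (hx ▸ hN) (hx ▸ hle)
  by_contra hZ
  have hex : ∃ r : ℕ, N ≤ 2 ^ r ^ 4 := ⟨_, hN.2.2⟩
  obtain ⟨r, hr1, hr2, hr3⟩ : ∃ r : ℕ, N ≤ 2 ^ r ^ 4 ∧ r ≤ N.primeFactors.card ∧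
      ∀ s < r, 2 ^ s ^ 4 < N :=
    ⟨Nat.find hex, Nat.find_spec hex, Nat.find_min' hex hN.2.2,
      fun s hs => not_le.1 (Nat.find_min hex hs)⟩
  have hr4 : r₀ + Y₀ + 18 < r := by
    by_contra h'
    have : 2 ^ r ^ 4 ≤ 2 ^ (r₀ + Y₀ + 18) ^ 4 :=
      Nat.pow_le_pow_right (by norm_num) (Nat.pow_le_pow_left (by omega) 4)
    omega
  obtain ⟨G, hG, hGc, hq⟩ := exists_blocks hN.1 (by omega : 1 ≤ r) hr2
  have hGp : ∀ l ∈ G, l.Prime := fun l hl => Nat.prime_of_mem_primeFactors (hG hl)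
  set q := ∏ l ∈ N.primeFactors \ G, l with hqdef
  have hq4 := ind_q_large (by omega : 4 ≤ r) (hr3 (r - 1) (by omega)) hq
  obtain ⟨A₀, hA₀, hdens⟩ := S.dens x (hx ▸ hN)
  rw [hx] at hA₀
  have hNf : N.Coprime f := Nat.Coprime.coprime_dvd_right (hff'.mul_right g) hN.2.1
  -- the data of one block
  have hblock : ∀ J ∈ G.powersetCard 17, ∃ (A : Ideal (𝓞 E)) (T : Finset S.X)
      (B : Finset (Ideal (𝓞 E))), A ∣ A₀ ∧ absNorm A = q * ∏ l ∈ J, l ∧ T ⊆ S.orb x ∧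
      (∀ y ∈ T, S.Al y A) ∧ ((S.orb x).card : ℝ) ≤ 2 * (r : ℝ) ^ 8 * (T.card * B.card) ∧
      ∀ b ∈ B, absNorm b < absNorm A ∧ Squarefree (absNorm b) ∧ (absNorm b).Coprime (f' * g) ∧
        (∀ l ∈ G, ¬ l ∣ absNorm b) ∧ 18 ≤ (absNorm b).primeFactors.card ∧
        ∃ a β, Mv f A b a β := by
    intro J hJ
    have hJG := (Finset.mem_powersetCard.1 hJ).1
    have hs := ind_split hN.1 hG hJG
    have hd : (q * ∏ l ∈ J, l) ∣ N := Dvd.intro_left _ hs.symm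
    obtain ⟨A, hA1, hA2⟩ := exists_dvd_norm (A := A₀) (hA₀ ▸ hN.1) (hA₀ ▸ hd)
    obtain ⟨T, hT1, hT2, hT3⟩ := hdens A hA1
    have hqa : q ≤ absNorm A := by
      rw [hA2]
      exact Nat.le_mul_of_pos_right _ (Finset.prod_pos fun l hl => (hGp l (hJG hl)).pos)
    have h4 : 4 ^ (r - 1) ^ 2 ≤ absNorm A := hq4.trans hqa
    have h5 : r - 1 < 4 ^ (r - 1) ^ 2 :=
      (Nat.le_self_pow (by norm_num) (r - 1)).trans_lt (Nat.lt_pow_self (by norm_num))
    obtain ⟨B, hB1, hB2⟩ := hcount A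
      (Nat.Coprime.coprime_dvd_left (hA2 ▸ hd) (Nat.Coprime.coprime_mul_right_right hN.2.1))
      (by omega) G hGp (by
        have h6 : ((4 : ℝ)) ^ (r - 1) ^ 2 ≤ absNorm A := by exact_mod_cast h4
        have h7 := Real.log_le_log (by positivity) h6
        rw [Real.log_pow, show (4 : ℝ) = 2 ^ 2 by norm_num, Real.log_pow] at h7
        have h8 : (1 : ℝ) ≤ (2 : ℕ) * Real.log 2 := by
          push_cast; linarith [Real.log_two_gt_d9]
        rw [hGc]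
        refine le_trans ?_ h7
        push_cast at h8 ⊢
        nlinarith [sq_nonneg (((r - 1 : ℕ) : ℝ))])
    exact ⟨A, T, B, hA1, hA2, hT1, hT2, ind_block (by omega) (hA2 ▸ hN.1.squarefree_of_dvd hd)
      (by omega) ((Nat.le_of_dvd (by omega) (hA2 ▸ hd)).trans hr1) hT3 hB1, hB2⟩
  choose! A T B hA1 hA2 hT1 hT2 hTB hB using hblock
  let I : S.X → Finset (Σ _ : Finset ℕ, Ideal (𝓞 E)) := fun y =>
    ((G.powersetCard 17).filter fun J => y ∈ T J).sigma B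
  -- every aligned pair gives a zero
  have hsz : ∀ y ∈ S.orb x, S.sz y ≤ θ ^ (I y).card := by
    intro y hy
    have hly : S.lev y = N := (S.lev_orb x y hy).trans hx
    have hpart : ∀ i ∈ I y, ∃ (a β : 𝓞 E) (z : S.X), Mv f (A i.1) i.2 a β ∧ S.Par a β y z ∧
        S.Z z := by
      rintro ⟨J, b⟩ hi
      obtain ⟨hi1, hi2⟩ := Finset.mem_sigma.1 hi
      obtain ⟨hJ, hyT⟩ := Finset.mem_filter.1 hi1
      obtain ⟨hJG, hJc⟩ := Finset.mem_powersetCard.1 hJ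
      obtain ⟨b1, b2, b3, b4, b5, a, β, hm⟩ := hB J hJ b hi2
      have hs := ind_split hN.1 hG hJG
      rw [← hqdef, ← hA2 J hJ] at hs
      have hpos : 0 < absNorm (A J) := by omega
      have hdiv : S.lev y / absNorm (A J) = ∏ l ∈ G \ J, l := by
        rw [hly]; exact Nat.div_eq_of_eq_mul_left hpos hs
      obtain ⟨c1, c2⟩ := ind_cls (r := r) hN rfl (fun l hl => hGp l (Finset.sdiff_subset hl)) hs b1
        b2 b3 (fun l hl => b4 l (Finset.sdiff_subset hl))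
        (by rw [Finset.card_sdiff_of_subset hJG]; omega) hr1
      obtain ⟨z, hz1, hz2⟩ := S.move y (A J) b a β (hly ▸ hN) (hT2 J hJ y hyT)
        (hly ▸ Dvd.intro_left _ hs.symm) hm (hdiv ▸ c1)
      rw [hdiv] at hz2
      exact ⟨a, β, z, hm, hz1, ih _ c2 z hz2 c1⟩
    choose! a β z hm hp hz using hpart
    let e := (I y).equivFin.symm
    refine S.interp y (I y).card (fun i => a (e i)) (fun i => β (e i)) (fun i => z (e i) (e i).2)
      (hly ▸ hN) (fun i => ⟨hp _ (e i).2, hz _ (e i).2⟩) fun i i' hne => ?_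
    by_contra hnd
    apply hne
    apply e.injective
    generalize e i = u, e i' = u' at hnd
    obtain ⟨⟨J, b⟩, hi⟩ := u
    obtain ⟨⟨J', b'⟩, hi'⟩ := u'
    obtain ⟨hi1, hi2⟩ := Finset.mem_sigma.1 hi
    obtain ⟨hi1', hi2'⟩ := Finset.mem_sigma.1 hi'
    have hJ := (Finset.mem_filter.1 hi1).1
    have hJ' := (Finset.mem_filter.1 hi1').1
    obtain ⟨b1, b2, b3, b4, -⟩ := hB J hJ b hi2
    obtain ⟨b1', b2', b3', b4', -⟩ := hB J' hJ' b' hi2'
    have hA0 : A J ≠ 0 := fun h0 => by rw [h0] at b1; simp at b1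
    have hA0' : A J' ≠ 0 := fun h0 => by rw [h0] at b1'; simp at b1'
    obtain ⟨e1, e2⟩ := eq_of_not_dif hδ hδf (hm _ hi) (hm _ hi') hnd hA0 hA0'
    obtain ⟨hJG, hJc⟩ := Finset.mem_powersetCard.1 hJ
    obtain ⟨hJG', hJc'⟩ := Finset.mem_powersetCard.1 hJ'
    have hsub : J ⊆ J' := fun l hl => by
      have hlG := hJG hl
      have h1 := e2 A₀ (hA₀ ▸ hN.1) (hA₀ ▸ hNf) (hA1 J hJ) (hA1 J' hJ') l (hGp l hlG) (b4 l hlG)
        (b4' l hlG) (by
          rw [hA2 J hJ]; exact (Finset.dvd_prod_of_mem (fun l => l) hl).mul_left _)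
      rw [hA2 J' hJ'] at h1
      rcases (Nat.Prime.dvd_mul (hGp l hlG)).1 h1 with h2 | h2
      · obtain ⟨l', hl', h3⟩ := (Prime.dvd_finsetProd_iff (hGp l hlG).prime _).1 h2
        rw [Finset.mem_sdiff] at hl'
        rw [(Nat.prime_dvd_prime_iff_eq (hGp l hlG)
          (Nat.prime_of_mem_primeFactors hl'.1)).1 h3] at hlG
        exact absurd hlG hl'.2
      · obtain ⟨l', hl', h3⟩ := (Prime.dvd_finsetProd_iff (hGp l hlG).prime _).1 h2
        rwa [(Nat.prime_dvd_prime_iff_eq (hGp l hlG) (hGp l' (hJG' hl'))).1 h3]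
    have hJJ : J = J' := Finset.eq_of_subset_of_card_le hsub (hJc'.trans hJc.symm).le
    subst hJJ
    have hbb : b = b' := e1 rfl b2 b2' (Nat.Coprime.coprime_dvd_right (hff'.mul_right g) b3)
      (Nat.Coprime.coprime_dvd_right (hff'.mul_right g) b3')
    subst hbb
    rfl
  -- double counting
  have hsum : ∑ y ∈ S.orb x, (I y).card =
      ∑ J ∈ G.powersetCard 17, (T J).card * (B J).card := by
    simp only [I, Finset.card_sigma, Finset.sum_filter]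
    rw [Finset.sum_comm]
    refine Finset.sum_congr rfl fun J hJ => ?_
    rw [← Finset.sum_filter, Finset.sum_const, smul_eq_mul, Finset.filter_mem_eq_inter,
      Finset.inter_eq_right.2 (hT1 J hJ)]
  have hl := S.liou x (hx ▸ hN) (by omega) hZ
  rw [hx] at hl
  refine inl_final (c := c) (k := ∑ y ∈ S.orb x, (I y).card) (n := (r - 1).choose 17)
    (o := (S.orb x).card) hθ0 hθ1 (by omega : 1 ≤ N) (by omega : 1 ≤ r)
    (S.orb_ne x).card_pos hr1 (hr₀ r (by omega)) ?_ (hl.trans ?_)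
  · rw [hsum, ← hGc, ← Finset.card_powersetCard, ← nsmul_eq_mul, ← Finset.sum_const]
    push_cast
    rw [Finset.mul_sum]
    exact Finset.sum_le_sum hTB
  · rw [← Finset.prod_pow_eq_pow_sum]
    exact mul_le_mul_of_nonneg_left
      (Finset.prod_le_prod (fun y _ => S.sz_nonneg y) hsz) (by positivity)

end Pool.Agent.MT
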