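import Pool.Agent.Lib.MP_d61fbb_ag.MN.S0
import Pool.Agent.Lib.MP_d61fbb_ag.MN.Car0

/-! A symplectic basis that diagonalises the tensor induction of the diagonal matrices. -/

set_option autoImplicit false

noncomputable section

open Matrix Module Polynomial

namespace Pool.Agent.MT

variable [Dim]

namespace Cub

variable {l : ℕ} [Fact l.Prime] (D : Cub l)

/-- the diagonal matrices with `l`-adic entries -/
def dg (a b : ℤ_[l]) : M2 (AdjoinRoot D.c) := diagonal fun i => algebraMap _ _ (![a, b] i)

theorem dg_det (a b : ℤ_[l]) : (D.dg a b).det = algebraMap _ _ (a * b) := by simp [dg]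

/-- the underlying frame -/
def carF : MN.CarF l gg nn where
  U := D.U
  U' := D.U'
  mul_inv := D.mul_inv
  inv_mul := D.inv_mul
  int := D.int
  int' := D.int'
  symp := by
    obtain ⟨u, hu⟩ := D.symp
    refine ⟨-u, Matrix.ext fun x y => ?_⟩
    have := hu (Pi.single x 1) (Pi.single y 1)
    rw [Ef_eq, mulVec_mulVec, ← vecMul_transpose, ← dotProduct_mulVec, mulVec_mulVec,
      ← Matrix.mul_assoc, neg_eq_iff_eq_neg, ← neg_mul] at this
    simpa using this

/-- the Cartan decomposition of the tensor induction of the diagonal matrices -/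
theorem sp_diag : ∃ (k : M8 ℤ_[l]) (n : Fin gg → ℕ), GS 1 k ∧ (∀ i, nn < 2 * n i ∧ n i ≤ nn) ∧
    ∀ a b, D.Nm (D.dg a b) * k = k * diagonal (Sum.elim (fun i => a ^ n i * b ^ (nn - n i))
      fun i => b ^ n i * a ^ (nn - n i)) :=
  D.carF.sp_diag nn_odd (fun a b => D.Nm (D.dg a b)) fun a b => by
    rw [MN.CarF.Rp, D.nm, diagonal_map (map_zero _)]
    simp only [dg, diagonal_map (map_zero _), AlgHom.commutes, kp_diagonal, map_prod]
    rfl

end Cub

end Pool.Agent.MT
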