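import Pool.Agent.Lib.MP_d61fbb_ag.MN.Dim
import Pool.Agent.Lib.MP_d61fbb_ag.MT.A5
import Pool.Agent.Lib.MP_d61fbb_ag.MT.HA
import Pool.Agent.Lib.MP_d61fbb_ag.MT.DKp

/-! Abelian fourfolds whose adelic Galois representation is of Mumford type. -/

set_option autoImplicit false

noncomputable section

namespace Pool.Agent.MT

variable [Dim]

open Matrix Polynomial Sum

/-- the prime numbers -/
abbrev Pr := Nat.Primes

/-- matrices of size eight -/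
abbrev M8 (R : Type) := Matrix (I2 gg) (I2 gg) R

/-- matrices of size two -/
abbrev M2 (R : Type) := Matrix (Fin 2) (Fin 2) R

/-- A cubic étale algebra `R` over the `l`-adic integers with a symplectic identification of
`ℤ_l ^ 8` with the tensor induction of `R ^ 2`. -/
structure Cub (l : ℕ) [Fact l.Prime] where
  c : ℤ_[l][X]
  monic : c.Monic
  deg : c.natDegree = nn
  sep : nn ≤ l → (c.map PadicInt.toZMod).Separable
  σ : Fin nn → AdjoinRoot c →ₐ[ℤ_[l]] PadicAlgCl l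
  inj : Function.Injective σ
  U : Matrix (I2 gg) (Fin nn → Fin 2) (PadicAlgCl l)
  U' : Matrix (Fin nn → Fin 2) (I2 gg) (PadicAlgCl l)
  mul_inv : U * U' = 1
  inv_mul : U' * U = 1
  int : ∀ i j, ‖U i j‖ ≤ 1
  int' : ∀ i j, ‖U' i j‖ ≤ 1
  symp : ∃ u, ∀ x y, Ef (U *ᵥ x) (U *ᵥ y) = u * (x ⬝ᵥ (kp fun _ => J2 (PadicAlgCl l)) *ᵥ y)
  Nm : M2 (AdjoinRoot c) → M8 ℤ_[l]
  nm : ∀ g, (Nm g).map (algebraMap _ _) = U * kp (fun i => g.map (σ i)) * U'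

/-- The Galois action on the torsion points of the abelian fourfold with period matrix `τ` is
given by `ρ`, and its image is of Mumford type. -/
structure MumfordType (τ : Matrix (Fin gg) (Fin gg) ℂ) (K : IntermediateField ℚ ℂ) where
  ρ : (ℂ ≃ₐ[K] ℂ) →* ∀ l : Pr, GL (I2 gg) ℤ_[l]
  alg : ∀ (σ : ℂ ≃ₐ[K] ℂ) (a b : I2 gg → ℚ), (∀ (l : Pr) i,
      ‖((ρ σ l).val.map (↑) *ᵥ (fun j => (a j : ℚ_[l])) - fun j => (b j : ℚ_[l])) i‖ ≤ 1) →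
    ∃ c : ℂ, ∀ η, σ (Xc τ (qc a) η) = c * Xc τ (qc b) η
  S : Finset Pr
  D : ∀ l : Pr, Cub l
  sub : ∀ σ, ∀ l ∉ S, ∃ (c : ℤ_[l]ˣ) (g : GL (Fin 2) (AdjoinRoot (D l).c)),
    (ρ σ l).val = (c : ℤ_[l]) • (D l).Nm g.val
  big : ∀ (T : Finset Pr) (g : ∀ l : Pr, SpecialLinearGroup (Fin 2) (AdjoinRoot (D l).c)), ∃ σ,
    ∀ l ∈ T, l ∉ S → (ρ σ l).val = (D l).Nm (g l).val

/-- the theta constant with characteristic `a` -/
def thc (τ : Matrix (Fin gg) (Fin gg) ℂ) (a : I2 gg → ℚ) : ℂ := T τ (qc a ∘ inl) (qc a ∘ inr)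

/-- rational symplectic matrices -/
def IsSp (γ : M8 ℚ) : Prop := ∀ x y, Ef (γ *ᵥ x) (γ *ᵥ y) = Ef x y

/-- the action on the Siegel space -/
def mob (γ : M8 ℚ) (τ : Matrix (Fin gg) (Fin gg) ℂ) : Matrix (Fin gg) (Fin gg) ℂ :=
  (γ.toBlocks₁₁.map (↑) * τ + γ.toBlocks₁₂.map (↑)) *
    (γ.toBlocks₂₁.map (↑) * τ + γ.toBlocks₂₂.map (↑))⁻¹

/-- Symplectic matrices over `ℤ[1/l]` whose transpose lies in `Nm (SL₂ (R[1/l])) GL₈ (ℤ_l)`. -/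
def Fake {l : ℕ} [Fact l.Prime] (D : Cub l) (γ : M8 ℚ) : Prop :=
  IsSp γ ∧ (∃ n : ℕ, ∀ i j, ∃ z : ℤ, (l : ℚ) ^ n * γ i j = z) ∧
    ∃ (j : ℕ) (g : M2 (AdjoinRoot D.c)) (k : GL (I2 gg) ℤ_[l]), g.det = (l : AdjoinRoot D.c) ^ (2 * j) ∧
      (l : ℚ_[l]) ^ (nn * j) • γᵀ.map (↑) = (D.Nm g * k.val).map ((↑) : ℤ_[l] → ℚ_[l])

/-- The fake Hecke orbit at some prime is not Zariski dense. -/
def NotDense {τ : Matrix (Fin gg) (Fin gg) ℂ} {K : IntermediateField ℚ ℂ} (M : MumfordType τ K) :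
    Prop :=
  ∃ l ∉ M.S, ∃ (P : MvPolynomial (I2 gg → ℚ) ℂ) (d : ℕ), P.IsHomogeneous d ∧
    (∃ τ', Sieg τ' ∧ MvPolynomial.eval (thc τ') P ≠ 0) ∧
    ∀ γ, Fake (M.D l) γ → MvPolynomial.eval (thc (mob γ τ)) P = 0

/-- `J` is the complex structure of the abelian variety on `ℝ ^ 8`. -/
def IsCx (τ : Matrix (Fin gg) (Fin gg) ℂ) (J : M8 ℝ) : Prop :=
  ∀ a : I2 gg → ℝ, τ *ᵥ (rc (J *ᵥ a) ∘ inl) + rc (J *ᵥ a) ∘ inr =
    Complex.I • (τ *ᵥ (rc a ∘ inl) + rc a ∘ inr)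

/-- The Hodge group is not the symplectic group: some subgroup of `GL₈ (ℂ)` defined by rational
polynomials contains the circle `cos t + sin t J` and misses a rational symplectic matrix. -/
def HodgeProper (J : M8 ℝ) : Prop :=
  ∃ (H : Subgroup (GL (I2 gg) ℂ)) (s : Set (MvPolynomial (I2 gg × I2 gg) ℚ)),
    (∀ g : GL (I2 gg) ℂ, g ∈ H ↔ ∀ f ∈ s, MvPolynomial.aeval (fun ij => g.val ij.1 ij.2) f = 0) ∧
    (∀ t : ℝ, ∃ g ∈ H, g.val = (Real.cos t • (1 : M8 ℝ) + Real.sin t • J).map (↑)) ∧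
    ∃ (γ : M8 ℚ) (g : GL (I2 gg) ℂ), IsSp γ ∧ g.val = γ.map (↑) ∧ g ∉ H

/-- Stage one. -/
def Stage1 : Prop := ∀ τ, Sieg τ → ∀ (K : IntermediateField ℚ ℂ), FiniteDimensional ℚ K →
  ee (1 / 8) ∈ K → ∀ M : MumfordType τ K, NotDense M

/-- Stage two. -/
def Stage2 : Prop := ∀ τ, Sieg τ → ∀ (K : IntermediateField ℚ ℂ), FiniteDimensional ℚ K →
  ee (1 / 8) ∈ K → MumfordType τ K → ∀ J, IsCx τ J → HodgeProper J

end Pool.Agent.MT
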