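import Pool.Agent.Lib.MP_d61fbb_ag.MN.Top
import Pool.Agent.Lib.MP_d61fbb_ag.MT.G0d
import Pool.Agent.Lib.MP_d61fbb_ag.MT.G7c
import Pool.Agent.Lib.MP_d61fbb_ag.MN.G8a
import Pool.Agent.Lib.MP_d61fbb_ag.MN.GCar
import Pool.Agent.Lib.MP_d61fbb_ag.MT.GDen
import Pool.Agent.Lib.MP_d61fbb_ag.MN.GT6

/-! Stage two: a relation on the whole orbit forces the Hodge group to be proper. -/

set_option autoImplicit false

noncomputable section

namespace Pool.Agent.MT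

variable [Dim]

open Matrix Sum Filter Topology

theorem g8_cx {z : G.EE gg} (hz : z ∈ G.HH gg) {J : M8 ℝ} (h : IsCx (G.mk z) J) : J = G.Jm z := by
  refine sub_eq_zero.1 (G.Om_inj hz ?_)
  rw [G.cm_sub, Matrix.mul_sub, G.Om_Jm hz, sub_eq_zero]
  refine ext_of_mulVec_single fun j => ?_
  have e : ∀ a : I2 gg → ℝ, G.Om z *ᵥ rc a = G.mk z *ᵥ (rc a ∘ inl) + rc a ∘ inr := fun a => by
    rw [G.Om, fromCols_mulVec, one_mulVec]
  have := h (Pi.single j 1)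
  have e1 : rc (Pi.single j 1 : I2 gg → ℝ) = Pi.single j 1 := by
    ext i; by_cases h : i = j <;> simp [h]
  rw [← e, ← e, e1] at this
  rw [← mulVec_mulVec, smul_mulVec, ← this]
  congr 1
  ext i; simp

/-- matrices that are congruent to one modulo two -/
def g8_two (A : Subring ℚ) : Submonoid (M8 ℚ) where
  carrier := {X | ∀ i j, (X - 1) i j / 2 ∈ A}
  one_mem' := fun i j => by simp
  mul_mem' := fun {X Y} hX hY i j => by
    rw [show X * Y - 1 = (X - 1) * (Y - 1) + (X - 1) + (Y - 1) by noncomm_ring, Matrix.add_apply,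
      Matrix.add_apply, add_div, add_div, mul_apply, Finset.sum_div]
    refine A.add_mem (A.add_mem (A.sum_mem fun k _ => ?_) (hX i j)) (hY i j)
    convert A.mul_mem (ofNat_mem A 2) (A.mul_mem (hX i k) (hY k j)) using 1
    ring

theorem g8_two_int (A : Subring ℚ) {X : M8 ℤ} (h : ∀ i j, (2 : ℤ) ∣ (X - 1) i j) :
    G.zq X ∈ g8_two A := fun i j => by
  obtain ⟨w, hw⟩ := h i j
  convert intCast_mem A w using 1
  have : (G.zq X - 1) i j = ((X - 1) i j : ℤ) := by by_cases h : i = j <;> simp [one_apply, h]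
  rw [this, hw]; simp

theorem g8_two_dgm {A : Subring ℚ} {l : ℕ} (hl : Odd l) (h : (l : ℚ)⁻¹ ∈ A) (e : Fin gg → ℕ) (j : ℤ) :
    G.dgm l e j ∈ g8_two A := by
  have h0 : (l : ℚ) ≠ 0 := by exact_mod_cast hl.pos.ne'
  have h1 : ∀ n : ℕ, ((l : ℚ) ^ n - 1) / 2 ∈ A := fun n => by
    obtain ⟨w, hw⟩ := hl.pow (n := n)
    convert natCast_mem A w using 1
    rw [show (l : ℚ) ^ n = 2 * w + 1 by exact_mod_cast hw]; ring
  have h2 : ∀ n : ℤ, ((l : ℚ) ^ n - 1) / 2 ∈ A := fun n => by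
    obtain ⟨n, rfl | rfl⟩ := n.eq_nat_or_neg
    · simpa using h1 n
    · convert A.neg_mem (A.mul_mem (A.pow_mem h n) (h1 n)) using 1
      rw [_root_.zpow_neg, _root_.zpow_natCast, inv_pow]; field_simp; ring
  rintro (a | a) (b | b) <;> by_cases hh : a = b <;> simp [G.dgm, one_apply, hh, -_root_.zpow_neg, h2]

theorem g8_seq {l : ℕ} [hl : Fact l.Prime] (h2 : l ≠ 2) {k : M8 ℤ_[l]} (hk : GS 1 k) :
    ∃ γ : ℕ → G.Sp gg ℤ, G.Cau l γ ∧ (∀ m i j, (2 : ℤ) ∣ ((γ m).1 - 1) i j) ∧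
      Tendsto (fun m => (γ m).1.map (Int.cast : ℤ → ℚ_[l])) atTop (𝓝 (k.map (↑))) := by
  have c : (32 : ℕ).Coprime l := ((Nat.coprime_primes Nat.prime_two hl.out).2 h2.symm).pow_left 5
  choose γ h1 h3 h4 using fun m => sp_dense_int c hk (m + 1)
  refine ⟨fun m => ⟨γ m, gs_one_iff.1 (h1 m)⟩, fun m => G.Gam_inf (c.pow_right _)
    (mul_mem (h3 _) (inv_mem (h3 _))) fun i j => ?_, fun m i j => Dvd.dvd.trans (by norm_num) (h3 m i j),
    tendsto_pi_nhds.2 fun i => tendsto_pi_nhds.2 fun j => ?_⟩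
  · set r : G.Sp gg ℤ := ⟨γ m, gs_one_iff.1 (h1 m)⟩
    have e1 : r.1 * (r⁻¹).1 = 1 := congrArg Subtype.val (mul_inv_cancel r)
    change _ ∣ (γ (m + 1) * (r⁻¹).1 - 1) i j
    rw [← e1, ← sub_mul, mul_apply]
    refine Finset.dvd_sum fun a _ => Dvd.dvd.mul_right ?_ _
    rw [Nat.cast_pow, ← PadicInt.pow_p_dvd_int_iff]
    simpa [r] using dvd_sub ((pow_dvd_pow _ (Nat.le_succ _)).trans (h4 (m + 1) i a)) (h4 m i a)
  · have l1 : (1 : ℝ) < l := by exact_mod_cast hl.out.one_lt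
    refine tendsto_iff_norm_sub_tendsto_zero.2 (squeeze_zero (fun _ => norm_nonneg _) (fun m => ?_)
      ((tendsto_pow_atTop_atTop_of_one_lt l1).inv_tendsto_atTop.comp (tendsto_add_atTop_nat 1)))
    have := h4 m i j
    rw [← Ideal.mem_span_singleton, ← PadicInt.norm_le_pow_iff_mem_span_pow] at this
    rw [_root_.zpow_neg, _root_.zpow_natCast] at this
    change ‖(γ m i j : ℚ_[l]) - (k i j : ℚ_[l])‖ ≤ _
    simpa [PadicInt.norm_def] using this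

theorem g8_form (m r : ℕ) {D : ℕ} (z : Fin r → ℤ) (ch : Fin r → Fin D → I2 gg → ℤ) :
    (fun w => qv z ch (Thm m (G.mk w))) ∈ G.RL gg m D := by
  have h : ∀ a : I2 gg → ℤ, (fun w => Thm m (G.mk w) a) ∈ G.RL gg m 1 := fun a => by
    convert G.th_mem (M := m) (x := fun j => (a j : ℚ) / m) fun i => ?_ using 2
    · rw [Thm, G.th]; congr 1; funext j; simp
    · by_cases h : m = 0
      · exact ⟨0, by simp [h]⟩
      · exact ⟨4 * a i, by push_cast; field_simp⟩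
  have k : ∀ (D : ℕ) (c : Fin D → I2 gg → ℤ),
      (∏ i, fun w => Thm m (G.mk w) (c i)) ∈ G.RL gg m D := fun D => by
    induction D with
    | zero => intro c; simp [G.RL, Submodule.one_le.1]
    | succ D ih => intro c; rw [Fin.prod_univ_castSucc]; exact G.RL_mul (ih _) (h _)
  convert (G.RL gg m _).sum_mem fun i (_ : i ∈ Finset.univ) => (G.RL gg m _).smul_mem (z i : ℂ)
    (k D (ch i)) using 1
  funext w
  simp [qv]

theorem g8_cartan {l : ℕ} [hl : Fact l.Prime] (D : Cub l) :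
    ∃ (k : M8 ℤ_[l]) (e : Fin gg → ℕ), GS 1 k ∧ (∀ i, 0 < e i) ∧ ∀ j : ℤ, ∃ (n : ℕ) (g : M2 (AdjoinRoot D.c)),
      g.det = (l : AdjoinRoot D.c) ^ (2 * n) ∧ (l : ℚ_[l]) ^ (nn * n) • (k.map (↑) *
        (G.dgm l e (-j)).map (Rat.cast : ℚ → ℚ_[l]) * (dl k)ᵀ.map (↑)) = (D.Nm g).map (↑) := by
  obtain ⟨k, n, hk, hn, H⟩ := D.sp_diag
  have h0 : (l : ℚ_[l]) ≠ 0 := by exact_mod_cast hl.out.ne_zero
  have key : ∀ (a b : ℤ_[l]) (m : ℕ) (X : M8 ℚ_[l]), (l : ℚ_[l]) ^ m • X = diagonal (Sum.elim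
      (fun i => (a : ℚ_[l]) ^ n i * b ^ (nn - n i)) fun i => (b : ℚ_[l]) ^ n i * a ^ (nn - n i)) →
      (l : ℚ_[l]) ^ m • (k.map (↑) * X * (dl k)ᵀ.map (↑)) = (D.Nm (D.dg a b)).map (↑) :=
    fun a b m X hX => by
      have := congrArg (fun Y => (Y * (dl k)ᵀ).map PadicInt.Coe.ringHom) (H a b)
      simp only [Matrix.mul_assoc, hk.mul_dlT, Matrix.mul_one, Matrix.map_mul] at this
      rw [← smul_mul_assoc, ← mul_smul_comm, hX, Matrix.mul_assoc]
      refine Eq.trans ?_ this.symm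
      congr 2
      ext (i | i) (j | j) <;> by_cases h : i = j <;> simp [h] <;> rfl
  have pw : ∀ (a b : ℕ) (x : ℤ), (a : ℤ) + x = b → (l : ℚ_[l]) ^ a * (l : ℚ_[l]) ^ x = l ^ b :=
    fun a b x h => by rw [← zpow_natCast, ← zpow_add₀ h0, h, zpow_natCast]
  have p1 : ∀ (j : ℕ) i, (l : ℚ_[l]) ^ (nn * j) * l ^ ((j : ℤ) * (2 * n i - nn : ℕ)) =
      (l ^ (2 * j)) ^ n i := fun j i => by
    rw [← pow_mul]
    refine pw _ _ _ ?_
    rw [Nat.cast_sub (hn i).1.le]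
    push_cast
    ring
  have p2 : ∀ (j : ℕ) i, (l : ℚ_[l]) ^ (nn * j) * ((l : ℚ_[l]) ^ ((j : ℤ) * (2 * n i - nn : ℕ)))⁻¹ =
      (l ^ (2 * j)) ^ (nn - n i) := fun j i => by
    rw [← pow_mul, ← _root_.zpow_neg]
    refine pw _ _ _ ?_
    rw [Nat.cast_sub (hn i).1.le, Nat.cast_mul _ (nn - n i), Nat.cast_sub (hn i).2]
    push_cast
    ring
  refine ⟨k, fun i => 2 * n i - nn, hk, fun i => by have := hn i; beta_reduce; omega, fun j => ?_⟩
  obtain ⟨j, rfl | rfl⟩ := j.eq_nat_or_neg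
  · refine ⟨j, D.dg (l ^ (2 * j)) 1, by simp [D.dg_det], key _ _ _ _ ?_⟩
    ext (a | a) (b | b) <;> by_cases h : a = b <;> simp [G.dgm, h] <;> simp only [p1, p2]
  · refine ⟨j, D.dg 1 (l ^ (2 * j)), by simp [D.dg_det], key _ _ _ _ ?_⟩
    ext (a | a) (b | b) <;> by_cases h : a = b <;> simp [G.dgm, h] <;> simp only [p1, p2]

omit [Dim] in
theorem g8_ring {R : Type} [Ring R] {a d x k k' d' : R} (h : k' * k = 1) (h' : d * d' = 1) :
    a * d * x * (k * d' * k') - 1 = a * d * (x - k') * (k * d' * k') + (a * k' - 1) := by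
  have : a * d * k' * (k * d' * k') = a * k' := by
    simp only [mul_assoc]; rw [← mul_assoc k', h, one_mul, ← mul_assoc d, h', one_mul]
  rw [mul_sub, sub_mul, this]; abel

theorem t_s2 : T_S2 := by
  intro zl τ hτ K hK h8 M J hJ
  obtain ⟨l, -, h2, e0, r, z, ch, ⟨τ', hτ', ne⟩, H⟩ := zl τ hτ K hK h8 M
  have m1 : G.un τ ∈ G.HH gg := by rwa [← G.mk_un hτ.symm] at hτ
  have m2 : G.un τ' ∈ G.HH gg := by rwa [← G.mk_un hτ'.symm] at hτ'
  rw [← G.mk_un hτ.symm] at hJ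
  obtain rfl := g8_cx m1 hJ
  refine NG.hodge (G.Jm_sq m1) (not_not.1 fun gen => ne ?_)
  obtain ⟨k, e, hk, he, car⟩ := g8_cartan (M.D l)
  obtain ⟨γ, c1, c2, c3⟩ := g8_seq h2 hk.dl.transpose_one
  obtain ⟨δ, -, d2, d3⟩ := g8_seq h2 hk
  have l0 : 0 < (l : ℕ) := l.2.pos
  have near : ∀ {X : ℕ → M8 ℚ_[l]}, Tendsto X atTop (𝓝 0) →
      ∀ᶠ m in atTop, ∀ i j, ‖X m i j‖ ≤ ((l : ℕ) : ℝ)⁻¹ ^ (2 * e0) := fun h =>
    eventually_all.2 fun i => eventually_all.2 fun j =>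
      (tendsto_pi_nhds.1 (tendsto_pi_nhds.1 h i) j).norm.eventually_le_const (by simp; positivity)
  set K : M8 ℚ_[l] := k.map (↑)
  set K' : M8 ℚ_[l] := (dl k)ᵀ.map (↑)
  have kk : K * K' = 1 := (Matrix.map_mul (f := PadicInt.Coe.ringHom)).symm.trans (by simp [hk.mul_dlT])
  obtain ⟨m0, hm0⟩ := (near (X := fun m => (δ m).1.map (↑) * K' - 1)
    (by simpa [kk] using (d3.mul_const K').sub_const 1)).exists
  obtain ⟨F, hF, eF⟩ := G.Fm.az ⟨e0, _, g8_form ((l : ℕ) ^ e0) r z ch⟩ (δ m0)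
  have := (eF _ (G.az_mem (δ m0)⁻¹ m2)).2 (G.dense_orbit (NeZero.pos gg) l.2 h2 m1 gen c1 he hF
    (fun j => ?_) _ (G.az_mem _ m2))
  · rwa [← G.az_mul _ _ m2, mul_inv_cancel, G.az_one, G.mk_un hτ'.symm] at this
  obtain ⟨n, g, g1, g2⟩ := car j
  let c : ℚ →+* ℚ_[l] := Rat.castHom _
  let d : G.Sp gg ℚ := ⟨_, G.dgm_mem l0 e j⟩
  have dd : (G.dgm l e j).map c * (G.dgm l e (-j)).map c = 1 := by
    rw [← Matrix.map_mul, ← G.dgm_add l0]; simp [G.dgm]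
  filter_upwards [near (X := fun m => (δ m0).1.map (↑) * (G.dgm l e j).map c *
    ((γ m).1.map (↑) - K') * (K * (G.dgm l e (-j)).map c * K'))
    (by simpa using ((c3.sub_const K').const_mul _).mul_const _)] with m hm
  let β := G.zqsp (δ m0) * d * G.zqsp (γ m)
  obtain ⟨h, F', f1, f2, f3, f4, f5⟩ := g8_transfer hτ h2 e0 (gs_one_iff.2 β.2)
    (K * (G.dgm l e (-j)).map c * K') (fun l' hl' => by
      let A := (PadicInt.subring l').comap (Rat.castHom ℚ_[l'])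
      exact (g8_two A).mul_mem ((g8_two A).mul_mem (g8_two_int A (d2 m0))
        (g8_two_dgm (l.2.odd_of_ne_two h2) (show ‖_‖ ≤ 1 by simp [padic_norm_prime_ne hl']) e j))
        (g8_two_int A (c2 m))) fun a b => by
      have e1 : ∀ x : G.Sp gg ℤ, (G.zqsp x).1.map c = x.1.map (↑) := fun x => by
        simp [G.zqsp, Matrix.map_map, Function.comp_def]
      refine le_trans (le_of_eq ?_) ((Padic.nonarchimedean _ _).trans (max_le (hm a b) (hm0 a b)))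
      rw [← Matrix.add_apply, show β.1.map Rat.cast = (((G.zqsp (δ m0)).1 * d.1) * (G.zqsp (γ m)).1).map c
        from rfl, Matrix.map_mul, Matrix.map_mul, e1, e1]
      exact congrArg (fun X : M8 ℚ_[l] => ‖X a b‖) (g8_ring (mul_eq_one_comm.1 kk) dd)
  have := H n g h F' g1 f1 (f2 ▸ g2) f3 f4
  simp only [f5] at this
  have m3 := G.az_mem (γ m) m1
  have e1 : ∀ x : G.Sp gg ℤ, G.az x = G.ac (G.qsp (G.zqsp x)).1 := fun x => by
    funext w; simp [G.az, G.qsp, G.zqsp, Matrix.map_map, Function.comp_def]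
  have e2 : ∀ x y : G.Sp gg ℚ, G.qsp (x * y) = G.qsp x * G.qsp y := fun x y =>
    Subtype.ext (Matrix.map_mul (f := Rat.castHom ℝ))
  have e3 : G.ac (G.qsp β).1 (G.un τ) = G.az (δ m0) (G.pt l e γ (G.un τ) j m) := by
    rw [e2, Submonoid.coe_mul, G.ac_mul _ _ m1, ← e1, e2, Submonoid.coe_mul, G.ac_mul _ _ m3, ← e1]
    rfl
  refine (eF _ (G.sc_mem l0 e j m3)).1 (Eq.trans ?_ this)
  congr 2
  refine (congrArg G.mk e3.symm).trans ((G.mk_ac _ _).trans ?_)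
  simp [G.qsp, Matrix.map_map, Function.comp_def, G.mk_un hτ.symm]

end Pool.Agent.MT
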