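import Pool.Agent.Lib.MP_d61fbb_ag.MN.SI0
import Pool.Agent.Lib.MP_d61fbb_ag.MN.GCub
import Pool.Agent.Lib.MP_d61fbb_ag.MT.BW0

/-! The cubic algebras have at most three maximal ideals. -/

set_option autoImplicit false

noncomputable section

namespace Pool.Agent.MT

variable [Dim]

open Matrix Polynomial

variable {l : Pr} (D : Cub l)

theorem sia_fin : Module.Finite ℤ_[l] (AdjoinRoot D.c) := Module.Finite.of_basis D.bas

theorem sia_le (i : Fin nn) (x : AdjoinRoot D.c) : ‖D.σ i x‖ ≤ 1 := by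
  have := sia_fin D
  obtain ⟨P, hP, h⟩ := (Algebra.IsIntegral.isIntegral (R := ℤ_[l]) x).map (D.σ i)
  exact BW.root_le hP h

/-- the elements of norm less than one -/
def siaP (i : Fin nn) : Ideal (AdjoinRoot D.c) where
  carrier := {x | ‖D.σ i x‖ < 1}
  zero_mem' := by simp
  add_mem' := fun {a b} ha hb => by
    simp only [Set.mem_ofPred_eq, map_add] at *
    exact (IsUltrametricDist.norm_add_le_max _ _).trans_lt (max_lt ha hb)
  smul_mem' := fun c x hx => by
    simp only [Set.mem_ofPred_eq, smul_eq_mul, map_mul, norm_mul] at *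
    exact (mul_le_of_le_one_left (norm_nonneg _) (sia_le D i c)).trans_lt hx

theorem mem_siaP {i : Fin nn} {x : AdjoinRoot D.c} : x ∈ siaP D i ↔ ‖D.σ i x‖ < 1 := Iff.rfl

theorem sia_one {i : Fin nn} {x : AdjoinRoot D.c} (h : x ∉ siaP D i) : ‖D.σ i x‖ = 1 :=
  le_antisymm (sia_le D i x) (not_lt.1 h)

theorem sia_alg (i : Fin nn) {x : ℤ_[l]} (h : ‖x‖ < 1) :
    algebraMap ℤ_[l] (AdjoinRoot D.c) x ∈ siaP D i := by
  rw [mem_siaP, AlgHom.commutes, BW.norm_alg]
  exact h

theorem sia_quot (i : Fin nn) : Finite (AdjoinRoot D.c ⧸ siaP D i) := by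
  refine Finite.of_surjective (fun n : Fin nn → ZMod l =>
    Ideal.Quotient.mk (siaP D i) (∑ j, ((n j).val : ℤ_[l]) • D.bas j)) fun y => ?_
  obtain ⟨x, rfl⟩ := Ideal.Quotient.mk_surjective y
  refine ⟨fun j => PadicInt.toZMod (D.bas.repr x j), ?_⟩
  rw [Ideal.Quotient.eq]
  suffices h : ∑ j, (((PadicInt.toZMod (D.bas.repr x j)).val : ℤ_[l]) • D.bas j -
      D.bas.repr x j • D.bas j) ∈ siaP D i by
    rwa [Finset.sum_sub_distrib, D.bas.sum_repr x] at h
  refine Ideal.sum_mem _ fun j _ => ?_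
  rw [← sub_smul, Algebra.smul_def]
  refine Ideal.mul_mem_right _ _ (sia_alg D i ?_)
  rw [← PadicInt.mem_nonunits, ← IsLocalRing.mem_maximalIdeal, ← PadicInt.ker_toZMod, RingHom.mem_ker,
    map_sub, map_natCast, ZMod.natCast_zmod_val, sub_self]

theorem si_a : SI_A := fun l D => ⟨{
  P := siaP D
  prime := fun i => ⟨fun h => by
      have : (1 : AdjoinRoot D.c) ∈ siaP D i := h ▸ Submodule.mem_top
      simp [mem_siaP] at this, fun {a b} h => by
      by_contra hn
      rw [not_or] at hn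
      rw [mem_siaP, map_mul, norm_mul, sia_one D hn.1, sia_one D hn.2] at h
      simp at h⟩
  mem := fun i => by
    have := sia_alg D i (x := ((l : ℕ) : ℤ_[l])) (by
      rw [PadicInt.norm_p]; exact inv_lt_one_of_one_lt₀ (by exact_mod_cast l.2.one_lt))
    rwa [map_natCast] at this
  fin := sia_quot D
  unit := fun x h => by
    refine D.isUnit_of_norm (PadicInt.isUnit_iff.2 ?_)
    rw [← BW.norm_alg, D.alg_norm, norm_prod]
    exact Finset.prod_eq_one fun i _ => sia_one D (h i) }⟩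

end Pool.Agent.MT
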