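import Pool.Agent.Lib.MP_d61fbb_ag.MN.SIB

/-! Special linear groups in different residue characteristics have no common quotient. -/

set_option autoImplicit false

namespace Pool.Agent.MT

variable [Dim]

open Matrix Subgroup

theorem sic_center {k : Type} [CommRing k] (W : SpecialLinearGroup (Fin 2) k) :
    W ∈ center _ ↔ W.val 1 0 = 0 ∧ W.val 0 1 = 0 ∧ W.val 0 0 - W.val 1 1 = 0 := by
  rw [Matrix.SpecialLinearGroup.mem_center_iff]
  constructor
  · rintro ⟨r, -, h⟩
    rw [← h]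
    simp
  · rintro ⟨h1, h2, h3⟩
    have := W.2
    rw [det_fin_two, h1, ← sub_eq_zero.1 h3] at this
    refine ⟨W.val 0 0, by simpa [sq] using this, ?_⟩
    ext i j
    fin_cases i <;> fin_cases j <;> simp [h1, h2, sub_eq_zero.1 h3]

theorem sic_pow {k : Type} [CommRing k] (W : SpecialLinearGroup (Fin 2) k) {t u : k}
    (h1 : t * u = 1) (h2 : t + u = W.val.trace) (n : ℕ) : ∃ a c : k,
      (W ^ n).val = a • W.val + c • 1 ∧ t ^ n = a * t + c ∧ u ^ n = a * u + c ∧
        (t = u → a * t = n * t ^ n) := by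
  induction n with
  | zero => exact ⟨0, 1, by simp⟩
  | succ n ih =>
    obtain ⟨a, c, e1, e2, e3, e4⟩ := ih
    have hd := W.2
    rw [det_fin_two] at hd
    rw [trace_fin_two] at h2
    refine ⟨a * (t + u) + c, -a, ?_, ?_, ?_, fun e => ?_⟩
    · rw [pow_succ, Matrix.SpecialLinearGroup.coe_mul, e1, h2]
      ext i j
      fin_cases i <;> fin_cases j <;> simp [mul_apply, Fin.sum_univ_two]
      · linear_combination -a * hd
      · ring
      · ring
      · linear_combination -a * hd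
    · rw [pow_succ, e2]
      linear_combination -a * h1
    · rw [pow_succ, e3]
      linear_combination -a * h1
    · have := e4 e
      subst e
      push_cast
      linear_combination t * this - t * e2

theorem sic_closed {k : Type} [Field k] [IsAlgClosed k] {l : ℕ} (hl : l.Prime) (h7 : 7 ≤ l)
    (h0 : (l : k) ≠ 0) (W A Z : SpecialLinearGroup (Fin 2) k) (h1 : W ^ l ∈ center _)
    (hZ : Z ∈ center _) (h2 : A * W * A⁻¹ = Z * W ^ 4) : W ∈ center _ := by
  obtain ⟨t, ht⟩ := IsAlgClosed.exists_root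
    (Polynomial.C 1 * .X ^ 2 + .C (-W.val.trace) * .X + .C 1 : Polynomial k)
    (by rw [Polynomial.degree_quadratic one_ne_zero]; decide)
  have e1 : t * (W.val.trace - t) = 1 := by
    simp only [Polynomial.IsRoot, Polynomial.eval_add, Polynomial.eval_mul, Polynomial.eval_C,
      Polynomial.eval_pow, Polynomial.eval_X] at ht
    linear_combination -ht
  have e2 := add_sub_cancel t W.val.trace
  generalize W.val.trace - t = u at e1 e2
  obtain ⟨a, c, f1, f2, f3, f4⟩ := sic_pow W e1 e2 l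
  obtain ⟨b, d, g1, g2, g3, -⟩ := sic_pow W e1 e2 4
  by_cases ha : a = 0
  · exfalso
    obtain ⟨r, hr, rfl'⟩ := Matrix.SpecialLinearGroup.mem_center_iff.1 hZ
    have h3 := congrArg (fun x => x.val.trace) h2
    simp only [Matrix.SpecialLinearGroup.coe_mul] at h3
    rw [trace_mul_cycle, ← Matrix.SpecialLinearGroup.coe_mul, inv_mul_cancel,
      Matrix.SpecialLinearGroup.coe_one, one_mul, ← rfl', g1, scalar_apply, ← smul_eq_diagonal_mul,
      trace_smul, trace_add, trace_smul, trace_smul, trace_one, ← e2] at h3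
    simp only [Fintype.card_fin, smul_eq_mul, Nat.cast_ofNat] at h3 hr
    have h4 : t + u = r * (t ^ 4 + u ^ 4) := by rw [h3, g2, g3]; ring
    have t0 : t ≠ 0 := left_ne_zero_of_mul_eq_one e1
    obtain rfl : u = t⁻¹ := eq_inv_of_mul_eq_one_right e1
    have h5 : (t ^ 6 - 1) * (t ^ 10 - 1) = 0 := by
      have := congrArg (· ^ 2) h4
      simp only [mul_pow, hr] at this
      field_simp at this
      linear_combination -this
    have h6 : t ^ (2 * l) = 1 := by
      rw [two_mul, pow_add]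
      nth_rw 2 [show t ^ l = t⁻¹ ^ l by rw [f2, f3, ha, zero_mul, zero_mul]]
      rw [← mul_pow, e1, one_pow]
    have h7' : ∀ m : ℕ, 0 < m → m < 7 → t ^ (2 * m) = 1 → t ^ 2 = 1 := fun m m0 m7 h => by
      have := pow_gcd_eq_one.2 ⟨h6, h⟩
      rwa [Nat.gcd_mul_left, (Nat.coprime_of_lt_prime m0.ne' (by omega) hl).gcd_eq_one] at this
    have h8 : t ^ 2 = 1 := (mul_eq_zero.1 h5).elim
      (fun h => h7' 3 (by norm_num) (by norm_num) (sub_eq_zero.1 h))
      fun h => h7' 5 (by norm_num) (by norm_num) (sub_eq_zero.1 h)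
    have := f4 (eq_inv_of_mul_eq_one_right (by rw [← sq, h8]))
    rw [ha, zero_mul] at this
    exact mul_ne_zero h0 (pow_ne_zero _ t0) this.symm
  · rw [sic_center, f1] at h1
    rw [sic_center]
    simpa [ha, ← mul_sub] using h1

theorem sic_mat {k : Type} [CommRing k] [IsDomain k] {l : ℕ} (hl : l.Prime) (h7 : 7 ≤ l)
    (h0 : (l : k) ≠ 0) (W A Z : SpecialLinearGroup (Fin 2) k) (h1 : W ^ l ∈ center _)
    (hZ : Z ∈ center _) (h2 : A * W * A⁻¹ = Z * W ^ 4) : W ∈ center _ := by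
  let π := algebraMap k (AlgebraicClosure (FractionRing k))
  have hπ : Function.Injective π := by
    rw [show π = _ from IsScalarTower.algebraMap_eq k (FractionRing k) _, RingHom.coe_comp]
    exact (RingHom.injective _).comp (IsFractionRing.injective k (FractionRing k))
  have key : ∀ x : SpecialLinearGroup (Fin 2) k,
      SpecialLinearGroup.map π x ∈ center _ ↔ x ∈ center _ := fun x => by
    rw [sic_center, sic_center]
    change π _ = 0 ∧ π _ = 0 ∧ π _ - π _ = 0 ↔ _
    simp only [← map_sub, map_eq_zero_iff π hπ]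
  refine (key W).1 (sic_closed hl h7 ?_ _ (.map π A) (.map π Z) ?_ ((key Z).2 hZ) ?_)
  · rwa [← map_natCast π, map_ne_zero_iff π hπ]
  · rwa [← map_pow, key]
  · rw [← map_pow, ← map_inv, ← map_mul, ← map_mul, ← map_mul, h2]

theorem si_c : SI_B → SI_C := fun hB l l' hl hl' h17 h17' hne R R' _ _ H H' Q _ f f' hr => by
  have n3 := nn_three
  by_contra! h
  obtain ⟨g, hg⟩ := h
  obtain ⟨i, hi⟩ := (hB l' hl' h17' R' H').2.2 f'.ker inferInstance fun e => by
    obtain ⟨g', e'⟩ : f g ∈ f'.range := hr ▸ ⟨g, rfl⟩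
    exact hg (e' ▸ (e ▸ mem_top g' : g' ∈ f'.ker))
  have := H'.prime i
  have := H'.fin i
  let k := R' ⧸ H'.P i
  let ψ' := (QuotientGroup.mk' (center (SpecialLinearGroup (Fin 2) k))).comp
    (SpecialLinearGroup.map (Ideal.Quotient.mk (H'.P i)))
  have hk : ∀ x, ψ' x = 1 ↔ x.val 1 0 ∈ H'.P i ∧ x.val 0 1 ∈ H'.P i ∧
      x.val 0 0 - x.val 1 1 ∈ H'.P i := fun x => by
    refine (QuotientGroup.eq_one_iff _).trans ((sic_center _).trans ?_)
    simp only [← Ideal.Quotient.eq_zero_iff_mem, map_sub]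
    rfl
  let θ := f'.rangeRestrict.liftOfSurjective f'.rangeRestrict_surjective
    ⟨ψ', fun x hx => (hk x).2 (hi x (congrArg Subtype.val hx))⟩
  let ψ := θ.comp (f.codRestrict f'.range fun x => hr ▸ ⟨x, rfl⟩)
  obtain ⟨x, hx⟩ : ∃ x, ψ (uu x) ≠ 1 := by
    by_contra! h
    have e := (hB l hl h17 R H).1 ψ.ker h fun x => by
      have := h (-x)
      rw [← si_w_ll, neg_neg, map_mul, map_mul, map_inv, mul_inv_eq_one, mul_eq_left] at this
      exact this
    obtain ⟨y, hy⟩ : f' (uu 1) ∈ f.range := hr ▸ ⟨_, rfl⟩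
    have h1 : θ ⟨f y, _⟩ = 1 := (e ▸ mem_top y : y ∈ ψ.ker)
    have h2 : θ (f'.rangeRestrict (uu 1)) = ψ' (uu 1) :=
      MonoidHom.liftOfRightInverse_comp_apply _ _ _ _ _
    rw [show f'.rangeRestrict (uu 1) = ⟨f y, hr ▸ ⟨y, rfl⟩⟩ from Subtype.ext hy.symm, h1] at h2
    exact (Ideal.ne_top_iff_one _).1 (H'.prime i).ne_top ((hk _).1 h2.symm).2.1
  obtain ⟨a, m, hm, e⟩ := Nat.exists_eq_pow_mul_and_not_dvd (Nat.card_pos (α :=
    SpecialLinearGroup (Fin 2) k ⧸ center (SpecialLinearGroup (Fin 2) k))).ne' l hl.ne_one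
  have h1 : ∃ a, ψ (uu x) ^ l ^ a = 1 := by
    obtain ⟨y, rfl⟩ := (H.unit m fun j => by
      exact_mod_cast H.int_not_mem hl (n := m) (by exact_mod_cast hm) j).dvd (a := x)
    exact ⟨a, by rw [si_uu_nat, map_pow, ← pow_mul, mul_comm, ← e, pow_card_eq_one']⟩
  classical
  obtain ⟨j, hj⟩ := Nat.exists_eq_succ_of_ne_zero (n := Nat.find h1) fun e => hx (by
    simpa [e] using Nat.find_spec h1)
  have h2 := Nat.find_spec h1
  have h3 := Nat.find_min h1 (hj ▸ Nat.lt_succ_self j)
  rw [hj, pow_succ, pow_mul] at h2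
  rw [← map_pow, ← si_uu_nat] at h2 h3
  generalize ((l ^ j : ℕ) : R) * x = z at h2 h3
  obtain ⟨s, hs⟩ := (H.nat_unit hl (n := 2) two_pos (by omega)).exists_right_inv
  have h4 := congrArg ψ (si_dg_uu hs z)
  rw [← Nat.cast_pow, si_uu_nat, map_mul, map_mul, map_inv, map_pow] at h4
  obtain ⟨W, hW⟩ := QuotientGroup.mk_surjective (ψ (uu z))
  obtain ⟨A, hA⟩ := QuotientGroup.mk_surjective (ψ (si_dg _ s hs))
  rw [← hW] at h2 h3 h4
  rw [← hA] at h4
  refine h3 ((QuotientGroup.eq_one_iff _).2 (sic_mat hl (by omega) ?_ W A (A * W * A⁻¹ * (W ^ 4)⁻¹)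
    ((QuotientGroup.eq_one_iff _).1 h2) ((QuotientGroup.eq_one_iff _).1 ?_) (by group)))
  · rw [← map_natCast (Ideal.Quotient.mk (H'.P i)), Ne, Ideal.Quotient.eq_zero_iff_mem]
    exact_mod_cast H'.int_not_mem hl' (n := l) (by
      exact_mod_cast fun h => hne ((Nat.prime_dvd_prime_iff_eq hl' hl).1 h).symm) i
  · exact mul_inv_eq_one.2 h4

end Pool.Agent.MT
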