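import Pool.Agent.Lib.MP_d61fbb_ag.MN.SI0

/-! The split algebra has a tensor induction. -/

set_option autoImplicit false

noncomputable section

namespace Pool.Agent.MT

variable [Dim]

open Matrix Polynomial Sum

theorem sie_ex : ∃ e : I2 gg ≃ (Fin nn → Fin 2), ∀ k i, e (inr k) i = (e (inl k) i).rev := by
  let H := {d : Fin nn → Fin 2 // d 0 = 0}
  let f : H ⊕ H → (Fin nn → Fin 2) := Sum.elim (fun d => d.1) fun d i => (d.1 i).rev
  have hf : Function.Bijective f := by
    refine ⟨?_, fun d => ?_⟩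
    · rintro (a | a) (b | b) h
      · exact congrArg _ (Subtype.ext h)
      · have : a.1 0 = (b.1 0).rev := congrFun h 0
        rw [a.2, b.2] at this
        exact absurd this (by decide)
      · have : (a.1 0).rev = b.1 0 := congrFun h 0
        rw [a.2, b.2] at this
        exact absurd this (by decide)
      · exact congrArg _ (Subtype.ext (funext fun i => Fin.rev_injective (congrFun h i)))
    · by_cases h : d 0 = 0
      · exact ⟨inl ⟨d, h⟩, rfl⟩
      · refine ⟨inr ⟨fun i => (d i).rev, ?_⟩, funext fun i => Fin.rev_rev _⟩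
        exact (by decide : ∀ x : Fin 2, ¬x = 0 → x.rev = 0) _ h
  have hc : Fintype.card H = gg := by
    have := Fintype.card_of_bijective hf
    rw [Fintype.card_sum, card_cube] at this
    omega
  let e0 := (Fintype.equivFinOfCardEq hc).symm
  exact ⟨(e0.sumCongr e0).trans (Equiv.ofBijective f hf), fun k i => rfl⟩

/-- the signs -/
def sie_D (e : I2 gg ≃ (Fin nn → Fin 2)) (R : Type) [CommRing R] : Matrix (Fin gg) (Fin gg) R :=
  diagonal fun k => ∏ i, J2 R (e (inl k) i) (e (inl k) i).rev

/-- the basis of the lattice -/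
def sie_C (e : I2 gg ≃ (Fin nn → Fin 2)) (R : Type) [CommRing R] : M8 R :=
  fromBlocks 1 0 0 (sie_D e R)

section

variable (e : I2 gg ≃ (Fin nn → Fin 2)) (R : Type) [CommRing R]

theorem sie_CC : sie_C e R * sie_C e R = 1 := by
  have h : sie_D e R * sie_D e R = 1 := by
    rw [sie_D, diagonal_mul_diagonal, ← diagonal_one]
    congr 1
    funext k
    rw [← Finset.prod_mul_distrib]
    refine Finset.prod_eq_one fun i _ => ?_
    generalize e (inl k) i = x
    fin_cases x <;> simp [J2]
  simp [sie_C, fromBlocks_multiply, h]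

theorem sie_Cmap {R' : Type} [CommRing R'] (f : R →+* R') : (sie_C e R).map f = sie_C e R' := by
  have h : ∀ x y, f (J2 R x y) = J2 R' x y := fun x y => by
    fin_cases x <;> fin_cases y <;> simp [J2]
  rw [sie_C, sie_C, fromBlocks_map, Matrix.map_one _ (map_zero _) (map_one _),
    Matrix.map_zero _ (map_zero _), sie_D, sie_D, diagonal_map (map_zero _)]
  simp only [map_prod, h]

theorem sie_zero {d d' : Fin nn → Fin 2} (h : ¬∀ i, d' i = (d i).rev) :
    (kp fun _ => J2 R) d d' = 0 := by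
  obtain ⟨i, hi⟩ := not_forall.1 h
  refine Finset.prod_eq_zero (Finset.mem_univ i) ?_
  revert hi
  generalize d i = x
  generalize d' i = y
  fin_cases x <;> fin_cases y <;> simp [J2]

theorem sie_K (he : ∀ k i, e (inr k) i = (e (inl k) i).rev) :
    (kp fun _ => J2 R).submatrix e e = fromBlocks 0 (sie_D e R) (-sie_D e R) 0 := by
  have h1 : ∀ k b, (∀ i, e b i = (e (inl k) i).rev) → b = inr k := fun k b h =>
    e.injective (funext fun i => (h i).trans (he k i).symm)
  have h2 : ∀ k b, (∀ i, e b i = (e (inr k) i).rev) → b = inl k := fun k b h =>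
    e.injective (funext fun i => (h i).trans (by rw [he, Fin.rev_rev]))
  ext (a | a) (b | b)
  · exact sie_zero R fun h => inl_ne_inr (h1 _ _ h)
  · by_cases h : a = b
    · subst h
      simp only [submatrix_apply, kp_apply, he, fromBlocks_apply₁₂, sie_D, diagonal_apply_eq]
    · refine (sie_zero R fun k => h (inr_injective (h1 _ _ k)).symm).trans ?_
      rw [fromBlocks_apply₁₂, sie_D, diagonal_apply_ne _ h]
  · by_cases h : a = b
    · subst h
      have h3 : ∀ x : Fin 2, J2 R x.rev x = -J2 R x x.rev := fun x => by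
        fin_cases x <;> simp [J2]
      simp only [submatrix_apply, kp_apply, he, fromBlocks_apply₂₁, sie_D, Matrix.neg_apply,
        diagonal_apply_eq, h3]
      rw [Finset.prod_neg, Finset.card_univ, Fintype.card_fin, nn_odd.neg_one_pow, neg_one_mul]
    · refine (sie_zero R fun k => h (inl_injective (h2 _ _ k)).symm).trans ?_
      rw [fromBlocks_apply₂₁, Matrix.neg_apply, sie_D, diagonal_apply_ne _ h, neg_zero]
  · exact sie_zero R fun h => inr_ne_inl (h2 _ _ h)

theorem sie_symp (x y : I2 gg → R) : Ef (sie_C e R *ᵥ x) (sie_C e R *ᵥ y) =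
    x ⬝ᵥ fromBlocks 0 (sie_D e R) (-sie_D e R) 0 *ᵥ y := by
  have e' : ∀ x y : Fin gg → R, sie_D e R *ᵥ x ⬝ᵥ y = x ⬝ᵥ sie_D e R *ᵥ y := fun x y => by
    rw [dotProduct_mulVec, ← mulVec_transpose, sie_D, diagonal_transpose]
  rw [fromBlocks_mulVec, ← Sum.elim_comp_inl_inr x, sumElim_dotProduct_sumElim]
  simp only [Ef, sie_C, fromBlocks_mulVec, zero_mulVec, add_zero, zero_add, Sum.elim_comp_inl,
    Sum.elim_comp_inr, one_mulVec, neg_mulVec, dotProduct_neg, e', sub_eq_add_neg]

end

theorem si_e : SI_E := fun l => by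
  obtain ⟨e, he⟩ := sie_ex
  let c : ℤ_[l][X] := ∏ i : Fin nn, (X - C ((i : ℕ) : ℤ_[l]))
  have h1 : ∀ i : Fin nn, c.eval₂ (AlgHom.id ℤ_[l] ℤ_[l] : ℤ_[l] →+* ℤ_[l]) ((i : ℕ) : ℤ_[l]) = 0 :=
    fun i => by
      change c.eval _ = 0
      rw [eval_prod]
      exact Finset.prod_eq_zero (Finset.mem_univ i) (by simp)
  let ev : Fin nn → AdjoinRoot c →ₐ[ℤ_[l]] ℤ_[l] := fun i => AdjoinRoot.liftAlgHom c _ _ (h1 i)
  have h2 : ∀ i, ev i (AdjoinRoot.root c) = ((i : ℕ) : ℤ_[l]) := fun i =>
    AdjoinRoot.liftAlgHom_root ..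
  have h3 : ∀ i j, ‖sie_C e (PadicAlgCl l) i j‖ ≤ 1 := fun i j => by
    rw [← sie_Cmap e ℤ (Int.castRingHom _)]
    exact IsUltrametricDist.norm_intCast_le_one _ _
  refine ⟨⟨c, monic_prod_of_monic _ _ fun _ _ => monic_X_sub_C _, ?_, fun h => ?_,
    fun i => (Algebra.ofId _ _).comp (ev i), fun i j h => ?_,
    (sie_C e _).submatrix id e.symm, (sie_C e _).submatrix e.symm id, ?_, ?_,
    fun _ _ => h3 _ _, fun _ _ => h3 _ _, ⟨1, fun x y => ?_⟩,
    fun g => sie_C e _ * (kp fun i => g.map (ev i)).submatrix e e * sie_C e _, fun g => ?_⟩⟩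
  · rw [natDegree_finsetProd_X_sub_C_eq_card, Finset.card_univ, Fintype.card_fin]
  · simp only [c, Polynomial.map_prod, Polynomial.map_sub, map_X, map_C, map_natCast PadicInt.toZMod]
    refine separable_prod_X_sub_C_iff.2 fun i j k => Fin.ext ?_
    exact Nat.ModEq.eq_of_lt_of_lt ((ZMod.natCast_eq_natCast_iff _ _ _).1 k) (i.2.trans_le h)
      (j.2.trans_le h)
  · have := DFunLike.congr_fun h (AdjoinRoot.root c)
    simp only [AlgHom.comp_apply, h2, map_natCast] at this
    exact Fin.ext (Nat.cast_injective this)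
  · rw [submatrix_mul_equiv, sie_CC, submatrix_id_id]
  · rw [← Equiv.coe_refl, submatrix_mul_equiv, sie_CC, submatrix_one_equiv]
  · rw [submatrix_mulVec_equiv, submatrix_mulVec_equiv, Function.comp_id, Function.comp_id,
      sie_symp, ← sie_K e _ he, submatrix_mulVec_equiv, Equiv.symm_symm,
      comp_equiv_dotProduct_comp_equiv, one_mul, Function.comp_assoc, Equiv.self_comp_symm,
      Function.comp_id]
  · rw [Matrix.map_mul, Matrix.map_mul, sie_Cmap, ← submatrix_map, kp_map,
      ← submatrix_id_id (_ * _ * _), ← submatrix_mul_equiv _ _ _ e.symm,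
      ← submatrix_mul_equiv _ _ _ e.symm, submatrix_submatrix, Equiv.self_comp_symm,
      submatrix_id_id]
    rfl

end Pool.Agent.MT
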