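import Pool.Agent.Lib.MP_d61fbb_ag.MN.SI0

/-! From the hypotheses prime by prime to the adelic hypotheses. -/

set_option autoImplicit false

noncomputable section

namespace Pool.Agent.MT

variable [Dim]

open Matrix IntermediateField

/-- restriction of the ground field -/
def sifRes {K K' : IntermediateField ℚ ℂ} (h : K ≤ K') : (ℂ ≃ₐ[K'] ℂ) →* (ℂ ≃ₐ[K] ℂ) where
  toFun σ := { σ.toRingEquiv with commutes' := fun x => σ.commutes ⟨x, h x.2⟩ }
  map_one' := rfl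
  map_mul' _ _ := rfl

theorem sif_ee8 : ee (1 / 8) ^ 8 = 1 := by
  have : ∀ n : ℕ, ee (1 / 8) ^ n = ee (n * (1 / 8)) := fun n => by
    induction n with
    | zero => simp
    | succ n ih => rw [pow_succ, ih, ← ee_add]; congr 1; push_cast; ring
  rw [this]
  simpa using ee_int 1

theorem sif_prim : IsPrimitiveRoot (ee (1 / 8)) 8 := by
  have := Complex.isPrimitiveRoot_exp 8 (by norm_num)
  convert this using 1
  rw [ee]; congr 1; push_cast; ring

/-- commutators fix the eighth root of unity -/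
theorem sif_comm {K : IntermediateField ℚ ℂ} {σ : ℂ ≃ₐ[K] ℂ} (h : σ ∈ commutator (ℂ ≃ₐ[K] ℂ)) :
    σ (ee (1 / 8)) = ee (1 / 8) := by
  have h1 : commutator (ℂ ≃ₐ[K] ℂ) ≤ (sif_prim.autToPow K).ker :=
    Abelianization.commutator_subset_ker _
  have h2 := sif_prim.autToPow_spec K σ
  rw [MonoidHom.mem_ker.1 (h1 h)] at h2
  rw [← h2]
  exact pow_one _

theorem sif_lift {K : IntermediateField ℚ ℂ} {σ : ℂ ≃ₐ[K] ℂ} {z : ℂ} (h : σ z = z) :
    ∃ s : ℂ ≃ₐ[(K ⊔ ℚ⟮z⟯ : IntermediateField ℚ ℂ)] ℂ, sifRes le_sup_left s = σ := by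
  have h1 : ∀ x ∈ (K ⊔ ℚ⟮z⟯ : IntermediateField ℚ ℂ), σ x = x := by
    let F : IntermediateField ℚ ℂ :=
      (RingHom.eqLocusField (σ : ℂ →+* ℂ) (RingHom.id ℂ)).toIntermediateField fun q => by
        simp
    have : K ⊔ ℚ⟮z⟯ ≤ F := sup_le (fun x hx => σ.commutes ⟨x, hx⟩) (adjoin_simple_le_iff.2 h)
    exact fun x hx => this hx
  exact ⟨{ σ.toRingEquiv with commutes' := fun x => h1 x x.2 }, rfl⟩

/-- the adelic data over the field with the eighth roots of unity -/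
theorem sif_type (hD : SI_D) {τ : Matrix (Fin gg) (Fin gg) ℂ}
    {K : IntermediateField ℚ ℂ} {ρ : (ℂ ≃ₐ[K] ℂ) →* ∀ l : Pr, GL (I2 gg) ℤ_[l]}
    (h : TorsionRep τ K ρ)
    (hM : ∀ᶠ l : Pr in Filter.cofinite, ∃ D : Cub l, D.Between fun σ => ρ σ l)
    (D₀ : ∀ l : Pr, Cub l) :
    ∃ M : MumfordType τ (K ⊔ ℚ⟮ee (1 / 8)⟯), M.ρ = ρ.comp (sifRes le_sup_left) ∧
      (∀ l, (D₀ l).Between (fun σ => ρ σ l) → M.D l = D₀ l) ∧ ∀ l ∉ M.S, 6 * nn ≤ (l : ℕ) := by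
  classical
  have h1 : ∀ l : Pr, ∃ D : Cub l, ((∃ D : Cub l, D.Between fun σ => ρ σ l) →
      D.Between fun σ => ρ σ l) ∧ ((D₀ l).Between (fun σ => ρ σ l) → D = D₀ l) := fun l => by
    by_cases h0 : (D₀ l).Between fun σ => ρ σ l
    · exact ⟨D₀ l, fun _ => h0, fun _ => rfl⟩
    by_cases h1 : ∃ D : Cub l, D.Between fun σ => ρ σ l
    · exact ⟨h1.choose, fun _ => h1.choose_spec, fun e => absurd e h0⟩
    · exact ⟨D₀ l, fun e => absurd e h1, fun _ => rfl⟩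
  choose D hD1 hD2 using h1
  have h2 : ∀ᶠ l : Pr in Filter.cofinite, 6 * nn ≤ (l : ℕ) ∧ (D l).Between fun σ => ρ σ l := by
    refine Filter.Eventually.and ?_ (hM.mono fun l => hD1 l)
    refine Filter.eventually_cofinite.2 (((Set.finite_lt_nat (6 * nn)).preimage
      Subtype.val_injective.injOn).subset fun l hl => not_le.1 hl)
  have h3 : ∀ l ∉ (Filter.eventually_cofinite.1 h2).toFinset,
      6 * nn ≤ (l : ℕ) ∧ (D l).Between fun σ => ρ σ l := fun l hl => by simpa using hl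
  refine ⟨⟨ρ.comp (sifRes le_sup_left), fun σ => h (sifRes le_sup_left σ), _, D,
    fun σ l hl => (h3 l hl).2.2 _, fun T g => ?_⟩, rfl, hD2, fun l hl => (h3 l hl).1⟩
  obtain ⟨σ, h4, h5⟩ := hD _ ρ D (T \ (Filter.eventually_cofinite.1 h2).toFinset)
    (fun l hl => h3 l (Finset.mem_sdiff.1 hl).2) g
  obtain ⟨s, rfl⟩ := sif_lift (sif_comm h4)
  exact ⟨s, fun l hl hl' => h5 l (Finset.mem_sdiff.2 ⟨hl, hl'⟩)⟩

theorem sif_fin {K : IntermediateField ℚ ℂ} (hK : FiniteDimensional ℚ K) :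
    FiniteDimensional ℚ (K ⊔ ℚ⟮ee (1 / 8)⟯ : IntermediateField ℚ ℂ) := by
  have : FiniteDimensional ℚ ℚ⟮ee (1 / 8)⟯ :=
    adjoin.finiteDimensional (sif_prim.isIntegral (by norm_num)).tower_top
  infer_instance

theorem stage2'_of (hD : SI_D) (hE : SI_E) (h2 : Stage2) : Stage2' := by
  intro τ hτ K hK ρ h hM
  obtain ⟨M, -⟩ := sif_type hD h hM fun l => (hE l).some
  exact h2 τ hτ _ (sif_fin hK) (le_sup_right (a := K) (mem_adjoin_simple_self ℚ _)) M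

end Pool.Agent.MT
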