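import Pool.Agent.Lib.MP_d61fbb_ag.MN.S0

/-! The hypotheses prime by prime. -/

set_option autoImplicit false

noncomputable section

namespace Pool.Agent.MT

variable [Dim]

open Matrix

/-- `ρ` describes the action of the automorphisms of `ℂ` over `K` on the torsion points of the
abelian fourfold with period matrix `τ`, read in the coordinates `Xc`. -/
def TorsionRep (τ : Matrix (Fin gg) (Fin gg) ℂ) (K : IntermediateField ℚ ℂ)
    (ρ : (ℂ ≃ₐ[K] ℂ) →* ∀ l : Pr, GL (I2 gg) ℤ_[l]) : Prop :=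
  ∀ (σ : ℂ ≃ₐ[K] ℂ) (a b : I2 gg → ℚ), (∀ (l : Pr) i,
      ‖((ρ σ l).val.map (↑) *ᵥ (fun j => (a j : ℚ_[l])) - fun j => (b j : ℚ_[l])) i‖ ≤ 1) →
    ∃ c : ℂ, ∀ η, σ (Xc τ (qc a) η) = c * Xc τ (qc b) η

/-- The image of `r` lies between `Nm (SL₂ R)` and `ℤ_l ˣ Nm (GL₂ R)`. -/
def Cub.Between {l : ℕ} [Fact l.Prime] (D : Cub l) {Γ : Type} [Group Γ]
    (r : Γ → GL (I2 gg) ℤ_[l]) : Prop :=
  (∀ g : SpecialLinearGroup (Fin 2) (AdjoinRoot D.c), ∃ σ, (r σ).val = D.Nm g.val) ∧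
    ∀ σ, ∃ (c : ℤ_[l]ˣ) (g : GL (Fin 2) (AdjoinRoot D.c)), (r σ).val = (c : ℤ_[l]) • D.Nm g.val

/-- Stage two with the hypotheses prime by prime. -/
def Stage2' : Prop := ∀ τ, Sieg τ → ∀ (K : IntermediateField ℚ ℂ), FiniteDimensional ℚ K →
  ∀ ρ, TorsionRep τ K ρ → (∀ᶠ l : Pr in Filter.cofinite, ∃ D : Cub l, D.Between fun σ => ρ σ l) →
    ∀ J, IsCx τ J → HodgeProper J

end Pool.Agent.MT
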