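import Pool.Agent.Lib.MP_d61fbb_ag.MN.Sn
import Pool.Agent.Lib.MP_d61fbb_ag.MN.S1

/-! The bridge from the definitions of the final statement to those of the proof. -/

set_option autoImplicit false

noncomputable section

namespace Pool.Agent.MT

variable [Dim]

open Matrix Sum

theorem stc_sieg {τ : Matrix (Fin gg) (Fin gg) ℂ} (h : Sn.Siegel τ) : Sieg τ :=
  ⟨h.1, fun y hy => by
    have := h.2.dotProduct_mulVec_pos hy
    refine this.trans_eq ?_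
    simp [dotProduct, mulVec, Complex.im_sum, Finset.mul_sum]⟩

theorem stc_Ef {R : Type} [CommRing R] (x y : I2 gg → R) :
    Ef x y = -(x ⬝ᵥ J (Fin gg) R *ᵥ y) := by
  simp [Ef, J, dotProduct, mulVec, Fintype.sum_sum_type, one_apply, sub_eq_add_neg, add_comm]

/-- the cubic data -/
def Sn.Etale.toCub {l : ℕ} [Fact l.Prime] (D : Sn.Etale gg nn l) : Cub l where
  c := D.c
  monic := D.monic
  deg := D.deg
  sep := fun _ => D.sep
  σ := D.s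
  inj := D.inj
  U := D.U
  U' := D.U'
  mul_inv := D.mul_inv
  inv_mul := D.inv_mul
  int := D.int
  int' := D.int'
  symp := by
    obtain ⟨u, hu⟩ := D.symp
    refine ⟨-u, fun x y => ?_⟩
    rw [stc_Ef, mulVec_mulVec, ← vecMul_transpose, ← dotProduct_mulVec, mulVec_mulVec,
      ← Matrix.mul_assoc, hu, smul_mulVec, dotProduct_smul, neg_mul]
    rfl
  Nm := D.Nm
  nm := D.nm

theorem stc_coord (τ : Matrix (Fin gg) (Fin gg) ℂ) (a : I2 gg → ℚ) (η : I2 gg → ZMod 2) :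
    Sn.coord τ (Sn.point τ fun i => a i) η = Xc τ (qc a) η := by
  have e : ∀ i, hv η i = ((Fin.val (n := 2) (η i) : ℕ) : ℂ) / 2 := fun i => by
    simp only [hv, vz, zc, Pi.smul_apply, smul_eq_mul, Int.cast_natCast]
    rw [one_div, mul_comm]
    rfl
  have e1 : hv η ∘ inl = fun i => ((Fin.val (n := 2) (η (inl i)) : ℕ) : ℂ) / 2 :=
    funext fun i => e _
  have e2 : (2 : ℂ) • (τ *ᵥ (qc a ∘ inl) + qc a ∘ inr) + hv η ∘ inr = fun i =>
      2 * Sn.point τ (fun i => a i) i + ((Fin.val (n := 2) (η (inr i)) : ℕ) : ℂ) / 2 :=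
    funext fun i => by
      rw [← e]
      simp only [Sn.point, Complex.ofReal_ratCast]
      rfl
  rw [Xc, e1, e2]
  rfl

/-- the family of representations as one homomorphism -/
def stcRho {Γ : Type} [Group Γ] (ρ : ∀ (l : ℕ) [Fact l.Prime], Γ →* GL (I2 gg) ℤ_[l]) :
    Γ →* ∀ l : Pr, GL (I2 gg) ℤ_[l] := MonoidHom.pi fun l : Pr => ρ l

theorem stc_rep {τ : Matrix (Fin gg) (Fin gg) ℂ} {K : IntermediateField ℚ ℂ}
    {ρ : ∀ (l : ℕ) [Fact l.Prime], (ℂ ≃ₐ[K] ℂ) →* GL (I2 gg) ℤ_[l]} (h : Sn.TorsionRep τ K ρ) :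
    TorsionRep τ K (stcRho ρ) := fun σ a b hab => by
  obtain ⟨c, hc⟩ := h σ a b fun l hl i => hab ⟨l, hl.out⟩ i
  exact ⟨c, fun η => by simpa only [stc_coord] using hc η⟩

theorem stc_between {Γ : Type} [Group Γ] {l : ℕ} [Fact l.Prime] {r : Γ → GL (I2 gg) ℤ_[l]}
    {D : Sn.Etale gg nn l} (h : D.Between (Set.range r)) : D.toCub.Between r :=
  ⟨fun g => by
    obtain ⟨_, ⟨σ, rfl⟩, e⟩ := h.1 g.val g.2
    exact ⟨σ, e⟩, fun σ => by
    obtain ⟨u, g, hu, hg, e⟩ := h.2 _ ⟨σ, rfl⟩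
    exact ⟨hu.unit, ((isUnit_iff_isUnit_det g).2 hg).unit, e⟩⟩

theorem stc_cofinite {Γ : Type} [Group Γ] {ρ : ∀ (l : ℕ) [Fact l.Prime], Γ →* GL (I2 gg) ℤ_[l]}
    {B : ℕ} (h : ∀ (l : ℕ) [Fact l.Prime], B < l → ∃ D : Sn.Etale gg nn l, D.Between (Set.range (ρ l))) :
    ∀ᶠ l : Pr in Filter.cofinite, ∃ D : Cub l, D.Between fun σ => stcRho ρ σ l := by
  refine Filter.eventually_cofinite.2 (((Set.finite_le_nat B).preimage
    Subtype.val_injective.injOn).subset fun l hl => (not_lt.1 fun e => hl ?_ : (l : ℕ) ≤ B))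
  obtain ⟨D, hD⟩ := h l e
  exact ⟨_, stc_between hD⟩

theorem stc_cx {τ : Matrix (Fin gg) (Fin gg) ℂ} {J : M8 ℝ} (h : Sn.IsCx τ J) : IsCx τ J := h

theorem stc_hodge {J₀ : M8 ℝ} (h : HodgeProper J₀) :
    ∃ g : GL (I2 gg) ℂ, g.val ∈ symplecticGroup (Fin gg) ℂ ∧ g ∉ Sn.Hodge J₀ := by
  obtain ⟨H, s, h1, h2, γ, g, h3, h4, h5⟩ := h
  refine ⟨g, ?_, fun e => h5 (Subgroup.mem_sInf.1 e H ⟨⟨s, h1⟩, h2⟩)⟩
  have h6 : γᵀ * J (Fin gg) ℚ * γ = J (Fin gg) ℚ := by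
    ext i j
    have := h3 (Pi.single i 1) (Pi.single j 1)
    rw [stc_Ef, stc_Ef, mulVec_mulVec, ← vecMul_transpose, ← dotProduct_mulVec, mulVec_mulVec,
      ← Matrix.mul_assoc, neg_inj] at this
    simpa using this
  rw [SymplecticGroup.mem_iff', h4]
  have := congrArg (fun x : M8 ℚ => x.map (algebraMap ℚ ℂ)) h6
  simp only [Matrix.map_mul, transpose_map] at this
  have e : (J (Fin gg) ℚ).map (algebraMap ℚ ℂ) = J (Fin gg) ℂ := by
    ext (i | i) (j | j) <;> simp [J, one_apply, apply_ite]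
  rwa [e] at this

theorem stc_final (h2 : Stage2') (τ : Matrix (Fin gg) (Fin gg) ℂ) (hτ : Sn.Siegel τ)
    (K : IntermediateField ℚ ℂ) (hK : FiniteDimensional ℚ K)
    (ρ : ∀ (l : ℕ) [Fact l.Prime], (ℂ ≃ₐ[K] ℂ) →* GL (Sn.Ix gg) ℤ_[l]) (hρ : Sn.TorsionRep τ K ρ) (B : ℕ)
    (hM : ∀ (l : ℕ) [Fact l.Prime], B < l → ∃ D : Sn.Etale gg nn l, D.Between (Set.range (ρ l)))
    (J₀ : Matrix (Sn.Ix gg) (Sn.Ix gg) ℝ) (hJ : Sn.IsCx τ J₀) :
    ∃ g : GL (Sn.Ix gg) ℂ, g.val ∈ symplecticGroup (Fin gg) ℂ ∧ g ∉ Sn.Hodge J₀ :=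
  stc_hodge (h2 τ (stc_sieg hτ) K hK _ (stc_rep hρ) (stc_cofinite hM) J₀ (stc_cx hJ))

end Pool.Agent.MT
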