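import Pool.Agent.Lib.MP_d61fbb_ag.MN.ZAll
import Pool.Agent.Lib.MP_d61fbb_ag.MN.CM2
import Pool.Agent.Lib.MP_d61fbb_ag.MN.G8
import Pool.Agent.Lib.MP_d61fbb_ag.MN.SIA
import Pool.Agent.Lib.MP_d61fbb_ag.MN.SIB
import Pool.Agent.Lib.MP_d61fbb_ag.MN.SIC
import Pool.Agent.Lib.MP_d61fbb_ag.MN.SID
import Pool.Agent.Lib.MP_d61fbb_ag.MN.SIE
import Pool.Agent.Lib.MP_d61fbb_ag.MN.SIF
import Pool.Agent.Lib.MP_d61fbb_ag.MN.StC

/-! The final assembly. -/

set_option autoImplicit false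

namespace Pool.Agent.MT

variable [Dim]

theorem zl2_final : ZL2 := zl_all t_cm2

theorem zl_final : ZL := zl_of_zl2 f_ind zl2_final

theorem stage2_final : Stage2 := t_s2 zl_final

theorem si_d_final : SI_D := si_d si_a si_b (si_c si_b)

theorem stage2'_final : Stage2' := stage2'_of si_d_final si_e stage2_final

end Pool.Agent.MT
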