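import Pool.Agent.Lib.MP_d61fbb_ag.MN.GN1
import Pool.Agent.Lib.MP_d61fbb_ag.MN.GCub
import Pool.Agent.Lib.MP_d61fbb_ag.MN.EG0

/-! The concrete adelic group, its local subgroups and the theta vectors of a point. -/

set_option autoImplicit false

noncomputable section

namespace Pool.Agent.MT

variable [Dim]

open Matrix Sum
open Pool.Agent.Lib.MP_696deb_nt.B2 (Qbar jC)

/-- the linear automorphism of an element -/
def lin (g : GG) : VV (Fin gg) ≃ₗ[AF] VV (Fin gg) :=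
  LinearEquiv.ofLinearMap (gm g).mulVecLin (gm g⁻¹).mulVecLin
    (by rw [← mulVecLin_mul, ← map_mul, mul_inv_cancel, map_one, mulVecLin_one])
    (by rw [← mulVecLin_mul, ← map_mul, inv_mul_cancel, map_one, mulVecLin_one])

theorem lin_apply (g : GG) (x : VV (Fin gg)) : lin g x = gm g *ᵥ x := rfl

theorem lin_symm_apply (g : GG) (x : VV (Fin gg)) : (lin g).symm x = gm g⁻¹ *ᵥ x := rfl

theorem cpG_apply (l : Pr) (g : GG) (i j : I2 gg) : cpG l g i j = cp l (gm g i j) := rfl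

/-- integral matrices as rational matrices -/
def upM (l : Pr) : M8 ℤ_[l] →+* M8 ℚ_[l] := (algebraMap ℤ_[l] ℚ_[l]).mapMatrix

theorem upM_apply (l : Pr) (u : M8 ℤ_[l]) : upM l u = u.map (algebraMap ℤ_[l] ℚ_[l]) := rfl

theorem upM_inj (l : Pr) : Function.Injective (upM l) :=
  Matrix.map_injective Subtype.val_injective

theorem cpG_inv {l : Pr} {g : GG} {u : GL (I2 gg) ℤ_[l]} (h : cpG l g = upM l u.val) :
    cpG l g⁻¹ = upM l u⁻¹.val := by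
  have h1 : cpG l g⁻¹ * cpG l g = 1 := by rw [← map_mul, inv_mul_cancel, map_one]
  rw [← mul_one (cpG l g⁻¹), ← map_one (upM l), ← u.mul_inv, map_mul, ← h, ← mul_assoc, h1,
    one_mul]

/-- the elements whose component at `l` lies in a given group of integral matrices -/
def locG (l : Pr) (U : Subgroup (GL (I2 gg) ℤ_[l])) : Subgroup GG where
  carrier := {g | ∃ u ∈ U, cpG l g = upM l u.val}
  mul_mem' := by
    rintro g h ⟨u, hu, e⟩ ⟨v, hv, e'⟩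
    exact ⟨u * v, U.mul_mem hu hv, by rw [map_mul, e, e', Units.val_mul, map_mul]⟩
  one_mem' := ⟨1, U.one_mem, by simp⟩
  inv_mem' := by
    rintro g ⟨u, hu, e⟩
    exact ⟨u⁻¹, U.inv_mem hu, cpG_inv e⟩

theorem locG_mono {l : Pr} {U U' : Subgroup (GL (I2 gg) ℤ_[l])} (h : U ≤ U') :
    locG l U ≤ locG l U' := fun _ ⟨u, hu, e⟩ => ⟨u, h hu, e⟩

/-- units times norms -/
def nmU {l : Pr} (D : Cub l) : Subgroup (GL (I2 gg) ℤ_[l]) where
  carrier := {u | ∃ (c : ℤ_[l]ˣ) (g : GL (Fin 2) (AdjoinRoot D.c)),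
    u.val = (c : ℤ_[l]) • D.Nm g.val}
  mul_mem' := by
    rintro u v ⟨c, g, e⟩ ⟨c', g', e'⟩
    exact ⟨c * c', g * g', by
      rw [Units.val_mul, e, e', smul_mul_smul_comm, Units.val_mul, Units.val_mul, D.Nm_mul]⟩
  one_mem' := ⟨1, 1, by simp [D.Nm_one]⟩
  inv_mem' := by
    rintro u ⟨c, g, e⟩
    refine ⟨c⁻¹, g⁻¹, Units.inv_eq_of_mul_eq_one_right ?_⟩
    rw [e, smul_mul_smul_comm, ← D.Nm_mul, Units.mul_inv, Units.mul_inv, D.Nm_one, one_smul]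

/-- a family of subgroups indexed by the primes, read on the natural numbers -/
def atN (H : Pr → Subgroup GG) (n : ℕ) : Subgroup GG where
  carrier := {g | ∀ l : Pr, (l : ℕ) = n → g ∈ H l}
  mul_mem' hx hy l h := (H l).mul_mem (hx l h) (hy l h)
  one_mem' l _ := (H l).one_mem
  inv_mem' hx l h := (H l).inv_mem (hx l h)

theorem mem_atN {H : Pr → Subgroup GG} {l : Pr} {g : GG} : g ∈ atN H l ↔ g ∈ H l :=
  ⟨fun h => h l rfl, fun h m e => by rwa [show m = l from Subtype.ext e]⟩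

/-- the field `K` of `Loc` -/
def KG : ℕ → Subgroup GG := atN fun l => locG l ⊤

/-- the field `N` of `Loc` -/
def NmG (D : ∀ l : Pr, Cub l) : ℕ → Subgroup GG := atN fun l => locG l (nmU (D l))

/-- the field `Kn` of `Loc` -/
def KnG (l₀ : Pr) (e : ℕ) : Subgroup GG := locG l₀ (cgS _ (((l₀ : ℕ) : ℤ_[l₀]) ^ e))

theorem mem_KG {l : Pr} {g : GG} :
    g ∈ KG l ↔ ∃ u : GL (I2 gg) ℤ_[l], cpG l g = upM l u.val :=
  mem_atN.trans ⟨fun ⟨u, _, e⟩ => ⟨u, e⟩, fun ⟨u, e⟩ => ⟨u, trivial, e⟩⟩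

theorem mem_NmG {D : ∀ l : Pr, Cub l} {l : Pr} {g : GG} :
    g ∈ NmG D l ↔ ∃ u ∈ nmU (D l), cpG l g = upM l u.val := mem_atN

theorem mem_KnG {l₀ : Pr} {e : ℕ} {g : GG} : g ∈ KnG l₀ e ↔ ∃ u : GL (I2 gg) ℤ_[l₀],
    u ∈ cgS _ (((l₀ : ℕ) : ℤ_[l₀]) ^ e) ∧ cpG l₀ g = upM l₀ u.val := Iff.rfl

theorem NmG_le (D : ∀ l : Pr, Cub l) (l : Pr) : NmG D l ≤ KG l := fun _ hg =>
  let ⟨u, _, e⟩ := mem_NmG.1 hg
  mem_KG.2 ⟨u, e⟩

theorem KnG_le (l₀ : Pr) (e : ℕ) : KnG l₀ e ≤ KG l₀ := fun _ ⟨u, _, e⟩ => mem_KG.2 ⟨u, e⟩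

/-- the point `a / l₀ ^ e` placed at `l₀` -/
def io (l₀ : Pr) (e : ℕ) (a : I2 gg → ℤ) : W :=
  sgv l₀ fun n => (a n : ℚ_[l₀]) / ((l₀ : ℕ) : ℚ_[l₀]) ^ e

/-- `F` is a nonzero theta vector of the lattice `h Λ` whose values are algebraic integers -/
structure IntVec (S : TSys Qbar 0) (N : ℕ) (h : M8 AF) (F : W → Qbar) : Prop where
  pt : Pt N h
  vec : S.IsVec N h F
  ne : F ≠ 0
  int : ∀ x, IsIntegral ℤ (F x)

/-- the field `Th` of `Glob` -/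
def ThG (S : TSys Qbar 0) (l₀ : Pr) (e : ℕ) (g : GG) (θ : (I2 gg → ℤ) → ℂ) : Prop :=
  ∃ (N : ℕ) (r : ℚ) (F : W → Qbar), 0 < r ∧ IntVec S N (r • gm g) F ∧
    ∀ a, θ a = ee (Qf (zc a) / 2) * jC (F ((r • gm g) *ᵥ io l₀ e a))

end Pool.Agent.MT
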