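import Pool.Agent.Lib.MP_d61fbb_ag.MN.GB0
import Pool.Agent.Lib.MP_d61fbb_ag.MT.CIn

/-! The global data of the glue in the adelic model. -/

set_option autoImplicit false

noncomputable section

namespace Pool.Agent.MT

variable [Dim]

open Matrix Polynomial Sum NumberField
open Pool.Agent.Lib.MP_696deb_nt.B2 (Qbar Gam Plc Dec Ine IsFrob Op jC)

/-- the matrix `g / N` -/
def sc (N : ℕ) (g : GG) : M8 AF := (N : ℚ)⁻¹ • gm g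

/-- the theta constants of level `l ^ e` of the point `g` -/
def ThN (S : TSys Qbar 0) (p l : Pr) (e : ℕ) (g : GG) (θ : (I2 gg → ℤ) → ℂ) : Prop :=
  ∃ (N : ℕ) (F : W → Qbar), IntVec S N (sc N g) F ∧ StdAt p (sc N g) ∧
    ∀ a, θ a = ee (Qf (zc a) / 2) * jC (F (sc N g *ᵥ io l e a))

variable {τ : Matrix (Fin gg) (Fin gg) ℂ} {K : IntermediateField ℚ ℂ} {M : MumfordType τ K}

/-- the description of the local data -/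
structure LocSpec {A : AR M} (v : Frb A) {P : ℤ[X]} {E : Type} [Field E] [NumberField E]
    (d : DF P v.p E) (H : FrD v.p (M.ρ v.φ) P) {f : ℕ} {l₀ : Pr}
    (D : Loc E f l₀ (ℂ ≃ₐ[K] ℂ) GG) : Prop where
  ρ : D.ρ = rhoG A
  ν : D.ν = nuG d H
  K : D.K = KG
  N : D.N = NmG M.D
  Kn : D.Kn = KnG l₀
  bad : ∀ l : Pr, ¬ (l : ℕ) ∣ f → l ∉ M.S ∧ l ≠ v.p ∧ 5 ≤ (l : ℕ) ∧ ¬ (l : ℕ) ∣ d.den
  good : ¬ (l₀ : ℕ) ∣ f

/-- The output of the glue in the adelic model. -/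
def OutG : Prop := ∀ τ, Sieg τ → ∀ (K : IntermediateField ℚ ℂ), FiniteDimensional ℚ K →
  ∀ (M : MumfordType τ K) (A : AR M), ∃ (v : Frb A) (P : ℤ[X]) (H : FrD v.p (M.ρ v.φ) P)
    (E : Type) (_ : Field E) (_ : NumberField E) (d : DF P v.p E) (f : ℕ), f ≠ 0 ∧
    ∀ l : Pr, ¬ (l : ℕ) ∣ f → (l ∉ M.S ∧ l ≠ v.p ∧ 5 ≤ (l : ℕ) ∧ ¬ (l : ℕ) ∣ d.den) ∧
      ∀ F : Fam l, ∃ (e : ℕ) (z : Fin (F.r e) → ℤ), F.e0 ≤ e ∧ z ≠ 0 ∧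
        ∀ (a : 𝓞 E) (g : GG) θ σ, a ≠ 0 → (∀ l' : Pr, l' ≠ l → g ∈ KG l') →
          (rhoG A σ * nuG d H a)⁻¹ * g ∈ NmG M.D l → ThN A.S v.p l e g θ → qv z (F.ch e) θ = 0

end Pool.Agent.MT
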