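import Pool.Agent.Lib.MP_d61fbb_ag.MN.GCub
import Pool.Agent.Lib.MP_d61fbb_ag.MN.EG0

/-! The local data of the glue, from the components of the adelic group. -/

set_option autoImplicit false

noncomputable section

open Matrix Module Polynomial NumberField Ideal

namespace Pool.Agent.MT

variable [Dim]

theorem zp_unit {l : ℕ} [Fact l.Prime] {n : ℤ} (h : ¬ l ∣ n.natAbs) : IsUnit (n : ℤ_[l]) := by
  rw [PadicInt.isUnit_iff]
  refine le_antisymm (PadicInt.norm_le_one _) (not_lt.1 fun e => h ?_)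
  exact Int.natCast_dvd.1 ((PadicInt.norm_int_lt_one_iff_dvd _).1 e)

theorem zp_assoc {l : ℕ} [Fact l.Prime] {n : ℤ} (h1 : l ∣ n.natAbs) (h2 : ¬ l ^ 2 ∣ n.natAbs) :
    Associated (n : ℤ_[l]) (l : ℤ_[l]) := by
  obtain ⟨m, rfl⟩ := Int.natCast_dvd.2 h1
  rw [Int.cast_mul, Int.cast_natCast]
  refine associated_mul_unit_left _ _ (zp_unit fun e => h2 ?_)
  rw [Int.natAbs_mul, Int.natAbs_natCast, sq]
  exact mul_dvd_mul_left _ e

theorem not_dvd_norm {E : Type} [Field E] [NumberField E] {a : 𝓞 E} {f l : ℕ} (hl : l.Prime)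
    (hf : l ∣ f) (h : IsCoprime a (f : 𝓞 E)) : ¬ l ∣ absNorm (span {a}) := fun e => by
  obtain ⟨P, hP, h3, h4⟩ := exists_isMaximal_dvd_of_dvd_absNorm
    (Nat.prime_iff_prime_int.1 hl) _ (Int.natCast_dvd_natCast.2 e)
  have h5 : ((l : ℤ) : 𝓞 E) ∈ P := by
    change (l : ℤ) ∈ P.under ℤ
    rw [h3]
    exact mem_span_singleton_self _
  obtain ⟨u, v, h6⟩ := h
  obtain ⟨k, rfl⟩ := hf
  refine hP.ne_top ((eq_top_iff_one _).2 (h6 ▸ add_mem (mul_mem_left _ _ (dvd_span_singleton.1 h4))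
    (mul_mem_left _ _ ?_)))
  rw [Nat.cast_mul]
  exact mul_mem_right _ _ (by simpa using h5)

/-- integral matrices as rational matrices -/
abbrev iqM (l : Pr) : M8 ℤ_[l] →+* M8 ℚ_[l] := (algebraMap ℤ_[l] ℚ_[l]).mapMatrix

theorem iqM_inj (l : Pr) : Function.Injective (iqM l) := Matrix.map_injective Subtype.val_injective

section
variable {GG : Type} [Group GG] {l : Pr} (c : GG →* M8 ℚ_[l]) {H : Subgroup (GL (I2 gg) ℤ_[l])}

/-- the elements whose component lies in a group of integral matrices -/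
def sgOf (H : Subgroup (GL (I2 gg) ℤ_[l])) : Subgroup GG :=
  (H.map (Units.map (iqM l).toMonoidHom)).comap c.toHomUnits

variable {c}

theorem mem_sgOf {g : GG} : g ∈ sgOf c H ↔ ∃ u ∈ H, c g = iqM l u.val := by
  simp only [sgOf, Subgroup.mem_comap, Subgroup.mem_map, Units.ext_iff]
  exact exists_congr fun u => and_congr_right fun _ => eq_comm

theorem inv_mul_mem_sgOf {x y : GG} {u : GL (I2 gg) ℤ_[l]} (hu : u ∈ H)
    (h : c y = c x * iqM l u.val) : x⁻¹ * y ∈ sgOf c H :=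
  mem_sgOf.2 ⟨u, hu, by rw [map_mul, h, ← mul_assoc, ← map_mul, inv_mul_cancel, map_one, one_mul]⟩

theorem mem_sgOf_top {g : GG} {x y : M8 ℤ_[l]} (h : c g = iqM l x) (h' : c g⁻¹ = iqM l y) :
    g ∈ sgOf c ⊤ :=
  mem_sgOf.2 ⟨⟨x, y, iqM_inj l (by rw [map_mul, ← h, ← h', ← map_mul, mul_inv_cancel, map_one,
    map_one]), iqM_inj l (by rw [map_mul, ← h, ← h', ← map_mul, inv_mul_cancel, map_one,
    map_one])⟩, trivial, h⟩

theorem coset_card {ι : Type} [Finite ι] (Z : ι → M8 ℚ_[l]) : ∃ T : Finset (GG ⧸ sgOf c H),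
    T.card ≤ Nat.card ι ∧ ∀ x i, ∀ u ∈ H, c x = Z i * iqM l u.val → (x : GG ⧸ sgOf c H) ∈ T := by
  classical
  have := Fintype.ofFinite ι
  refine ⟨Finset.univ.image fun i => if h : ∃ x, ∃ u ∈ H, c x = Z i * iqM l u.val then
    (h.choose : GG) else (1 : GG), Finset.card_image_le.trans (by simp), fun x i u hu e => ?_⟩
  have h : ∃ x, ∃ u ∈ H, c x = Z i * iqM l u.val := ⟨x, u, hu, e⟩
  obtain ⟨u', hu', e'⟩ := h.choose_spec
  refine Finset.mem_image.2 ⟨i, Finset.mem_univ _, ?_⟩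
  rw [dif_pos h]
  refine QuotientGroup.eq.2 (inv_mul_mem_sgOf (mul_mem (inv_mem hu') hu) ?_)
  rw [e, e', mul_assoc, ← map_mul, Units.val_mul, Units.mul_inv_cancel_left]

end

theorem exists_Pr {l : ℕ} (hl : l.Prime) : ∃ l' : Pr, (l' : ℕ) = l := ⟨⟨l, hl⟩, rfl⟩

/-- units times tensor inductions -/
def Cub.NG {l : ℕ} [Fact l.Prime] (D : Cub l) : Subgroup (GL (I2 gg) ℤ_[l]) where
  carrier := {u | ∃ (c : ℤ_[l]ˣ) (g : GL (Fin 2) (AdjoinRoot D.c)),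
    u.val = (c : ℤ_[l]) • D.Nm g.val}
  one_mem' := ⟨1, 1, by simp [D.Nm_one]⟩
  mul_mem' := by
    rintro u u' ⟨c, g, e⟩ ⟨c', g', e'⟩
    exact ⟨c * c', g * g', by
      rw [Units.val_mul, e, e', smul_mul_smul_comm, Units.val_mul, Units.val_mul, D.Nm_mul]⟩
  inv_mem' := by
    rintro u ⟨c, g, e⟩
    refine ⟨c⁻¹, g⁻¹, Units.inv_eq_of_mul_eq_one_right ?_⟩
    rw [e, smul_mul_smul_comm, ← D.Nm_mul, Units.mul_inv, Units.mul_inv, D.Nm_one, one_smul]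

theorem Cub.exists_NG {l : ℕ} [Fact l.Prime] (D : Cub l) (c : ℤ_[l]ˣ) {k : M2 (AdjoinRoot D.c)}
    (hk : IsUnit k.det) : ∃ u ∈ D.NG, u.val = (c : ℤ_[l]) • D.Nm k := by
  obtain ⟨g, rfl⟩ := (isUnit_iff_isUnit_det _).2 hk
  obtain ⟨u, hu⟩ := (g.isUnit.map D.NmH).smul c
  exact ⟨u, ⟨c, g, hu⟩, hu⟩

variable {τ : Matrix (Fin gg) (Fin gg) ℂ} {K : IntermediateField ℚ ℂ} {P : ℤ[X]}
  {E : Type} [Field E] [NumberField E]

/-- An adelic group that holds the Galois image and the type norms. -/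
structure LI (M : MumfordType τ K) (p l₀ : Pr) (φ : ℂ ≃ₐ[K] ℂ) (F : DF P p E) (GG : Type)
    [Group GG] where
  cp : ∀ l : Pr, GG →* M8 ℚ_[l]
  Kl : ℕ → Subgroup GG
  Nl : ℕ → Subgroup GG
  Kn : ℕ → Subgroup GG
  mem_K : ∀ (l : Pr) g, g ∈ Kl l ↔ ∃ u : GL (I2 gg) ℤ_[l], cp l g = iqM l u.val
  mem_N : ∀ (l : Pr) g, g ∈ Nl l ↔ ∃ u ∈ (M.D l).NG, cp l g = iqM l u.val
  mem_Kn : ∀ e g, g ∈ Kn e ↔ ∃ u : GL (I2 gg) ℤ_[l₀],
    u ∈ cgS _ (((l₀ : ℕ) : ℤ_[l₀]) ^ e) ∧ cp l₀ g = iqM l₀ u.val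
  ρ : (ℂ ≃ₐ[K] ℂ) →* GG
  ν : 𝓞 E → GG
  ext : ∀ g g', (∀ l, cp l g = cp l g') → g = g'
  cp_ρ : ∀ σ l, cp l (ρ σ) = iqM l (M.ρ σ l).val
  cp_ν : ∀ a, a ≠ 0 → ∀ l, l ≠ p → cp l (ν a) = F.nu (iqM l (M.ρ φ l).val) a
  cp_νp : ∀ a, cp p (ν a) = 1
  ch : ∀ l, l ≠ p → (M.ρ φ l).val.charpoly = P.map (Int.castRingHom _)
  gs : ∀ l, l ≠ p → GS ((p : ℕ) : ℤ_[l]) (M.ρ φ l).val

/-- The modulus contains the bad primes and the denominators. -/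
structure Bad (M : MumfordType τ K) (p : Pr) (F : DF P p E) (f : ℕ) : Prop where
  p : (p : ℕ) ∣ f
  S : ∀ l ∈ M.S, (l : ℕ) ∣ f
  den : F.den ∣ f
  D : F.D ^ 2 ∣ f

namespace LI

variable {M : MumfordType τ K} {p l₀ : Pr} {φ : ℂ ≃ₐ[K] ℂ} {F : DF P p E} {GG : Type} [Group GG]
  (L : LI M p l₀ φ F GG) {f : ℕ}

theorem Kl_eq (l : Pr) : L.Kl l = sgOf (L.cp l) ⊤ := Subgroup.ext fun g => by
  simp only [L.mem_K, mem_sgOf, Subgroup.mem_top, true_and]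

theorem Nl_eq (l : Pr) : L.Nl l = sgOf (L.cp l) (M.D l).NG := Subgroup.ext fun g => by
  simp only [L.mem_N, mem_sgOf]

theorem Kn_eq (e : ℕ) : L.Kn e = sgOf (L.cp l₀) (cgS _ (((l₀ : ℕ) : ℤ_[l₀]) ^ e)) :=
  Subgroup.ext fun g => by simp only [L.mem_Kn, mem_sgOf]

include L in
theorem root {l : Pr} (h : l ≠ p) :
    aeval (iqM l (M.ρ φ l).val) (P.map (Int.castRingHom ℚ)) = 0 := aeval_of_charpoly _ (L.ch l h)

/-- the local embedding at a good prime -/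
theorem exists_j (hf : Bad M p F f) {l : Pr} (hl : ¬ (l : ℕ) ∣ f) :
    ∃ j : 𝓞 E →+* M2 (AdjoinRoot (M.D l).c),
      (∀ a, a ≠ 0 → L.cp l (L.ν a) = iqM l ((M.D l).Nm (j a))) ∧
      (∀ a, Algebra.norm ℤ_[l] (j a).det = (Algebra.norm ℤ a : ℤ)) ∧
      ∀ a, j (a * F.cO a) = (j a).det • 1 := by
  have h1 : l ≠ p := fun e => hl (e ▸ hf.p)
  obtain ⟨c, g, e⟩ := M.sub φ l fun h => hl (hf.S l h)
  obtain ⟨j, k1, k2⟩ := (M.D l).loc F (fun h => hl (h.trans hf.den)) g.isUnit e (L.ch l h1)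
    (L.gs l h1)
  exact ⟨j, fun a ha => (L.cp_ν a ha l h1).trans (k1 a).symm, k2⟩

theorem ν_mul {a b : 𝓞 E} (ha : a ≠ 0) (hb : b ≠ 0) : L.ν (a * b) = L.ν a * L.ν b :=
  L.ext _ _ fun l => by
    rw [map_mul]
    rcases eq_or_ne l p with rfl | h
    · simp only [L.cp_νp, mul_one]
    · rw [L.cp_ν _ (mul_ne_zero ha hb) l h, L.cp_ν _ ha l h, L.cp_ν _ hb l h, ← F.nu_mul (L.root h)]
      rfl

/-- the quotient of the type norms of two congruent integers is integral -/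
theorem cp_quot {a β : 𝓞 E} {m : ℤ} (h : ((F.D ^ 2 * m : ℤ) : 𝓞 E) ∣ β - a) (hβ : β ≠ 0) {l : Pr}
    (ha : ¬ (l : ℕ) ∣ absNorm (span {a})) :
    ∃ y : M8 ℤ_[l], L.cp l (L.ν β * (L.ν a)⁻¹) = iqM l (1 + m • y) := by
  have ha0 : a ≠ 0 := by
    rintro rfl
    simp at ha
  have h0 : ∀ z, L.cp l (L.ν β) = z * L.cp l (L.ν a) → L.cp l (L.ν β * (L.ν a)⁻¹) = z :=
    fun z e => by rw [map_mul, e, mul_assoc, ← map_mul, mul_inv_cancel, map_one, mul_one]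
  rcases eq_or_ne l p with rfl | hl
  · exact ⟨0, h0 _ (by rw [smul_zero, add_zero, map_one, one_mul, L.cp_νp, L.cp_νp])⟩
  rw [absNorm_span_singleton] at ha
  obtain ⟨u, hu⟩ := zp_unit ha
  obtain ⟨G, hG⟩ := F.nu_cong h
  have h1 := hG _ _ (L.root hl)
  have h2 := F.nu_cj (L.root hl) a
  have h3 : iqM l ((↑u⁻¹ : ℤ_[l]) • 1) * ((Algebra.norm ℤ a : ℤ) : M8 ℚ_[l]) = 1 := by
    rw [← map_intCast (iqM l), ← map_mul, smul_one_mul, ← map_intCast (algebraMap ℤ_[l] (M8 ℤ_[l])),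
      ← hu, Algebra.algebraMap_eq_smul_one, smul_smul, Units.inv_mul, one_smul, map_one]
  rw [F.nu_comm, ← Algebra.coe_norm_int, map_intCast] at h2
  refine ⟨((↑u⁻¹ : ℤ_[l]) • 1) * aeval (M.ρ φ l).val G, h0 _ ?_⟩
  have h4 : aeval (iqM l (M.ρ φ l).val) (G.map (Int.castRingHom ℚ)) =
    iqM l (aeval (M.ρ φ l).val G) := aeval_int_map _ _ _
  rw [L.cp_ν _ hβ l hl, L.cp_ν _ ha0 l hl, map_add, map_one, map_zsmul, map_mul, ← mul_smul_comm,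
    ← h4, ← h3, ← mul_add, ← h1, mul_assoc, mul_assoc, h2, ← Int.cast_comm, ← mul_assoc, h3,
    one_mul]

/-- The local data. -/
def loc (hf : Bad M p F f) : Loc E f l₀ (ℂ ≃ₐ[K] ℂ) GG where
  ρ := L.ρ
  ν := L.ν
  K := L.Kl
  N := L.Nl
  Kn := L.Kn
  ν_mul _ _ := L.ν_mul
  N_le l hl _ g hg := let ⟨u, _, h⟩ := (L.mem_N ⟨l, hl⟩ g).1 hg; (L.mem_K ⟨l, hl⟩ g).2 ⟨u, h⟩
  Kn_le e g hg := let ⟨u, _, h⟩ := (L.mem_Kn e g).1 hg; (L.mem_K l₀ g).2 ⟨u, h⟩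
  ρ_K σ l hl := (L.Kl_eq ⟨l, hl⟩).ge (mem_sgOf.2 ⟨_, trivial, L.cp_ρ σ _⟩)
  ρ_N σ l hl h := (L.Nl_eq ⟨l, hl⟩).ge
    (mem_sgOf.2 ⟨_, M.sub σ _ fun e => h (hf.S _ e), L.cp_ρ σ _⟩)
  ν_N b l hl h hb := by
    obtain ⟨l, rfl⟩ := exists_Pr hl
    obtain ⟨j, k1, k2, -⟩ := L.exists_j hf h
    have hb0 : b ≠ 0 := by
      rintro rfl
      simp at hb
    rw [absNorm_span_singleton] at hb
    obtain ⟨u, hu, e⟩ := (M.D l).exists_NG 1 ((M.D l).isUnit_of_norm (k2 b ▸ zp_unit hb))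
    exact (L.Nl_eq l).ge (mem_sgOf.2 ⟨u, hu, by rw [k1 b hb0, e, Units.val_one, one_smul]⟩)
  ν_K a β l hl h ha hd := by
    obtain ⟨l, rfl⟩ := exists_Pr hl
    have hβ : IsCoprime β (f : 𝓞 E) := by
      obtain ⟨k, hk⟩ := hd
      rw [eq_add_of_sub_eq' hk]
      exact ha.add_mul_left_left k
    have h1 : ((F.D ^ 2 * 1 : ℤ) : 𝓞 E) ∣ β - a := by
      refine Dvd.dvd.trans ?_ hd
      simpa using Int.cast_dvd_cast (α := 𝓞 E) _ _ hf.D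
    have n1 := not_dvd_norm l.2 h ha
    have n2 := not_dvd_norm l.2 h hβ
    obtain ⟨y, hy⟩ := L.cp_quot h1 (by rintro rfl; simp at n2) n1
    obtain ⟨y', hy'⟩ := L.cp_quot (dvd_sub_comm.1 h1) (by rintro rfl; simp at n1) n2
    exact (L.Kl_eq l).ge (mem_sgOf_top hy (by rw [_root_.mul_inv_rev, inv_inv, hy']))
  sph a l hl h h1 h2 := by
    obtain ⟨l, rfl⟩ := exists_Pr hl
    obtain ⟨j, k1, k2, -⟩ := L.exists_j hf h
    have ha : a ≠ 0 := by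
      rintro rfl
      simp at h2
    rw [absNorm_span_singleton] at h1 h2
    obtain ⟨hw, π, hπ⟩ := res_of_norm (M.D l).bas (k2 a ▸ zp_assoc h1 h2)
    rw [Kl_eq, Nl_eq]
    obtain ⟨T, t1, t2⟩ := coset_card (c := L.cp l) (H := ⊤) fun r : Option (ZMod l) =>
      iqM l ((M.D l).Nm (hrep _ r * !![(j a).det, 0; 0, 1]))
    refine ⟨T, t1.trans (by simp), fun x hx => ?_⟩
    obtain ⟨u, ⟨c, g, e⟩, hu⟩ := mem_sgOf.1 hx
    obtain ⟨r, k, r1, r2⟩ := tree_dec hw π hπ (m := g.val * j a) (by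
      rw [det_mul]; exact associated_unit_mul_left _ _ ((isUnit_iff_isUnit_det _).1 g.isUnit))
    obtain ⟨u', -, e'⟩ := (M.D l).exists_NG c r1
    refine t2 _ r u' trivial ?_
    rw [map_mul, hu, e, k1 a ha, e', ← map_mul, ← map_mul, smul_mul_assoc, mul_smul_comm,
      ← Cub.Nm_mul, ← Cub.Nm_mul, r2]
  align T a h hT := by
    have h1 : ∀ l : Pr, ∃ s : SpecialLinearGroup (Fin 2) (AdjoinRoot (M.D l).c), (l : ℕ) ∈ T →
        ∀ x, L.cp l x = iqM l ((M.D l).Nm s.val) →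
          (L.ν (a l))⁻¹ * (x * h l * L.ν (a l)) ∈ L.Kl l := fun l => by
      by_cases hl : (l : ℕ) ∈ T
      swap
      · exact ⟨1, fun e => absurd e hl⟩
      obtain ⟨-, n0, n1, n2, n3⟩ := hT l hl
      obtain ⟨j, k1, k2, -⟩ := L.exists_j hf n0
      have ha : a l ≠ 0 := fun e => by simp [e] at n2
      rw [absNorm_span_singleton] at n1 n2
      obtain ⟨hw, π, hπ⟩ := res_of_norm (M.D l).bas (k2 _ ▸ zp_assoc n1 n2)
      obtain ⟨u, ⟨c, g, e⟩, hu⟩ := mem_sgOf.1 ((L.Nl_eq l).le n3)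
      obtain ⟨s, k, s1, r1, r2⟩ := tree_trans hw π hπ (m := j (a l)) (m' := g.val * j (a l))
        (Associated.refl _) (by
          rw [det_mul]; exact associated_unit_mul_left _ _ ((isUnit_iff_isUnit_det _).1 g.isUnit))
      obtain ⟨u', -, e'⟩ := (M.D l).exists_NG c r1
      refine ⟨⟨s⁻¹, by rw [det_nonsing_inv, s1]; simp⟩, fun _ x hx => (L.Kl_eq l).ge
        (inv_mul_mem_sgOf (u := u') trivial ?_)⟩
      rw [map_mul, map_mul, hx, hu, e, k1 _ ha, e', ← map_mul, ← map_mul, ← map_mul, mul_assoc,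
        smul_mul_assoc, mul_smul_comm, mul_smul_comm, ← Cub.Nm_mul, ← Cub.Nm_mul, ← Cub.Nm_mul, r2,
        mul_assoc, nonsing_inv_mul_cancel_left _ _ (s1 ▸ isUnit_one)]
    choose s hs using h1
    obtain ⟨σ, hσ⟩ := M.big (T.subtype Nat.Prime) s
    refine ⟨σ, fun l hl => ?_⟩
    obtain ⟨l, rfl⟩ := exists_Pr (hT l hl).1
    exact hs l hl _ ((L.cp_ρ σ l).trans (congrArg _ (hσ l (Finset.mem_subtype.2 hl)
      fun e => (hT l hl).2.1 (hf.S l e))))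
  cnt := by
    refine ⟨l₀ ^ (4 * nn), fun e _ => ?_⟩
    rw [Kn_eq]
    obtain ⟨ι, _, z, h1, hz⟩ := (M.D l₀).count e
    obtain ⟨T, t1, t2⟩ := coset_card (c := L.cp l₀) (H := cgS _ (((l₀ : ℕ) : ℤ_[l₀]) ^ e))
      fun s => iqM l₀ (z s).val
    refine ⟨T, t1.trans (h1.trans_eq (by ring)), fun x hx => ?_⟩
    obtain ⟨u, ⟨c, g, e1⟩, hu⟩ := mem_sgOf.1 ((L.Nl_eq l₀).le hx)
    obtain ⟨i, hi⟩ := hz u c g g.isUnit e1
    refine t2 x i _ hi ?_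
    rw [hu, ← map_mul, Units.val_mul, Units.mul_inv_cancel_left]

end LI

end Pool.Agent.MT
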