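import Pool.Agent.Lib.MP_d61fbb_ag.MN.GB0
import Pool.Agent.Lib.MP_d61fbb_ag.MN.GLoc

/-! The local data of the glue in the adelic group of similitudes. -/

set_option autoImplicit false

noncomputable section

open Matrix Polynomial NumberField

namespace Pool.Agent.MT

variable [Dim]

theorem GS.of_map {g : ℕ} {R S : Type*} [CommRing R] [CommRing S] {φ : R →+* S}
    (hφ : Function.Injective φ) {ν : R} {γ : Matrix (I2 g) (I2 g) R} (h : GS (φ ν) (γ.map φ)) :
    GS ν γ := by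
  rw [gs_iff] at h ⊢
  refine Matrix.map_injective hφ ?_
  beta_reduce
  rw [Matrix.map_mul, Matrix.map_mul, transpose_map, map_J, h, ← map_J _ φ]
  ext i j
  simp only [map_apply, Matrix.smul_apply, smul_eq_mul, _root_.map_mul]

variable {τ : Matrix (Fin gg) (Fin gg) ℂ} {K : IntermediateField ℚ ℂ} {P : ℤ[X]}
  {E : Type} [Field E] [NumberField E] {M : MumfordType τ K} (A : AR M) {p : Pr}
  {φ : ℂ ≃ₐ[K] ℂ} (d : DF P p E) (H : FrD p (M.ρ φ) P) (l₀ : Pr)

/-- The adelic group of similitudes with its components. -/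
def liG : LI M p l₀ φ d GG where
  cp := cpG
  Kl := KG
  Nl := NmG M.D
  Kn := KnG l₀
  mem_K _ _ := mem_KG
  mem_N _ _ := mem_NmG
  mem_Kn _ _ := mem_KnG
  ρ := rhoG A
  ν := nuG d H
  ext _ _ := GG_ext
  cp_ρ _ _ := rfl
  cp_ν _ ha _ hl := cpG_nuG d H ha hl
  cp_νp := cpG_nuG_self d H
  ch := H.ch
  gs l hl := GS.of_map (φ := algebraMap ℤ_[l] ℚ_[l]) Subtype.val_injective
    (by rw [map_natCast]; exact H.sim l hl)

variable {f : ℕ} (hf : Bad M p d f)

/-- The local data. -/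
def locGG : Loc E f l₀ (ℂ ≃ₐ[K] ℂ) GG := (liG A d H l₀).loc hf

theorem locGG_ρ : (locGG A d H l₀ hf).ρ = rhoG A := rfl
theorem locGG_ν : (locGG A d H l₀ hf).ν = nuG d H := rfl
theorem locGG_K : (locGG A d H l₀ hf).K = KG := rfl
theorem locGG_N : (locGG A d H l₀ hf).N = NmG M.D := rfl
theorem locGG_Kn : (locGG A d H l₀ hf).Kn = KnG l₀ := rfl

/-- A modulus that contains the bad primes exists below every multiple. -/
theorem exists_bad (M : MumfordType τ K) (d : DF P p E) :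
    ∃ f₀ : ℕ, f₀ ≠ 0 ∧ ∀ f, f₀ ∣ f → Bad M p d f := by
  refine ⟨p * (∏ l ∈ M.S, (l : ℕ)) * d.den * d.D.natAbs ^ 2, ?_, fun f h => ⟨?_, fun l hl => ?_,
    ?_, ?_⟩⟩
  · exact mul_ne_zero (mul_ne_zero (mul_ne_zero p.2.ne_zero
      (Finset.prod_ne_zero_iff.2 fun l _ => l.2.ne_zero)) d.den_ne)
      (pow_ne_zero _ (Int.natAbs_ne_zero.2 d.D0))
  · exact (((dvd_mul_right _ _).mul_right _).mul_right _).trans h
  · exact ((((Finset.dvd_prod_of_mem _ hl).mul_left _).mul_right _).mul_right _).trans h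
  · exact ((dvd_mul_left _ _).mul_right _).trans h
  · rw [← Int.natAbs_dvd_natAbs, Int.natAbs_pow, Int.natAbs_natCast]
    exact (dvd_mul_left _ _).trans h

end Pool.Agent.MT
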