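import Pool.Agent.Lib.MP_d61fbb_ag.MN.GN1
import Pool.Agent.Lib.MP_d61fbb_ag.MN.GX1
import Pool.Agent.Lib.MP_d61fbb_ag.MN.AGH
import Pool.Agent.Lib.MP_d61fbb_ag.MT.H3

/-! Theta vectors of polarised lattices: level, uniqueness, change of basis. -/

set_option autoImplicit false

noncomputable section

namespace Pool.Agent.MT

variable [Dim]

open Matrix Sum
open Pool.Agent.Lib.MP_696deb_nt.B2 (Qbar Gam Plc Dec Ine IsFrob Op jC)

theorem gn_Wp0 (x : W) : x ∈ Wp 0 := fun _ l h => absurd h l.2.ne_zero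

theorem gn_cpv (l : Pr) (h : M8 AF) (x : W) : cpv l (h *ᵥ x) = h.map (cp l) *ᵥ cpv l x :=
  funext fun i => RingHom.map_mulVec (cp l).toRingHom h x i

theorem gn_cpv_sgv (l : Pr) (x : Vl l) : cpv l (sgv l x) = x := funext fun _ => gn_cp_sg _ _

theorem gn_cpv_sgv_ne {l l' : Pr} (h : l' ≠ l) (x : Vl l) : cpv l' (sgv l x) = 0 :=
  funext fun _ => gn_cp_sg_ne h _

theorem gn_vec_ext {x y : W} (h : ∀ l, cpv l x = cpv l y) : x = y :=
  funext fun i => gn_ext fun l => congrFun (h l) i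

theorem gn_mulVec_sgv (l : Pr) (h : M8 AF) (x : Vl l) :
    h *ᵥ sgv l x = sgv l (h.map (cp l) *ᵥ x) := gn_vec_ext fun l' => by
  by_cases e : l' = l
  · subst e; rw [gn_cpv, gn_cpv_sgv, gn_cpv_sgv]
  · rw [gn_cpv, gn_cpv_sgv_ne e, gn_cpv_sgv_ne e, mulVec_zero]

theorem gn_sgv_add (l : Pr) (x y : Vl l) : sgv l (x + y) = sgv l x + sgv l y :=
  funext fun _ => map_add (sg l) _ _

theorem gn_sgv_mem {l : Pr} {x : Vl l} (hx : ∀ i, ‖x i‖ ≤ 1) : sgv l x ∈ L0 :=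
  mem_L0.2 fun i l' => by
    by_cases e : l' = l
    · subst e; rw [sgv, gn_cp_sg]; exact hx i
    · rw [sgv, gn_cp_sg_ne e, norm_zero]; exact zero_le_one

theorem gn_cp_Ef (l : Pr) (x y : W) : cp l (Ef x y) = Ef (cpv l x) (cpv l y) := Ef_map x y (cp l)

theorem gn_cp_Qf (l : Pr) (x : W) : cp l (Qf x) = Qf (cpv l x) := Qf_map x (cp l)

theorem gn_nat_eq {N N' : ℕ} (hN : N ≠ 0) (hN' : N' ≠ 0)
    (h : ∀ l : Pr, ‖(N : ℚ_[l])‖ = ‖(N' : ℚ_[l])‖) : N = N' := by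
  have key : ∀ {a b : ℕ}, b ≠ 0 → (∀ l : Pr, ‖(a : ℚ_[l])‖ = ‖(b : ℚ_[l])‖) → b ∣ a :=
    fun {a b} hb e => by
      obtain ⟨n, hn⟩ := int_of_padic_norm ((a : ℚ) / b) fun l => by
        have : ‖(b : ℚ_[l])‖ ≠ 0 := norm_ne_zero_iff.2 (Nat.cast_ne_zero.2 hb)
        rw [Rat.cast_div, Rat.cast_natCast, Rat.cast_natCast, norm_div, e, div_self this]
      rw [div_eq_iff (Nat.cast_ne_zero.2 hb)] at hn
      exact Int.natCast_dvd_natCast.1 ⟨n, by rw [mul_comm]; exact_mod_cast hn⟩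
  exact Nat.dvd_antisymm (key hN fun l => (h l).symm) (key hN' h)

theorem gn_unit {μ : AF} (h : ∀ l, ‖cp l μ‖ = 1) : ∃ u : (∀ l : Pr, ℤ_[l])ˣ, zA u = μ :=
  let z : ∀ l : Pr, ℤ_[l] := fun l => ⟨cp l μ, (h l).le⟩
  ⟨((Pi.isUnit_iff (x := z)).2 fun l => PadicInt.isUnit_iff.2 (h l)).unit, rfl⟩

theorem gn_norm_unit (u : (∀ l : Pr, ℤ_[l])ˣ) (l : Pr) : ‖cp l (zA u)‖ = 1 :=
  PadicInt.isUnit_iff.1 (Pi.isUnit_iff.1 u.isUnit l)

/-! ### Standard lattices -/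

theorem gn_int_mulVec {l : Pr} (u : M8 ℤ_[l]) {x : Vl l} (hx : ∀ i, ‖x i‖ ≤ 1) (i : I2 gg) :
    ‖(u.map ((↑) : ℤ_[l] → ℚ_[l]) *ᵥ x) i‖ ≤ 1 := by
  have := RingHom.map_mulVec PadicInt.Coe.ringHom u (fun j => (⟨x j, hx j⟩ : ℤ_[l])) i
  exact (congrArg norm this).symm.le.trans (PadicInt.norm_le_one _)

theorem stdAt_of_eq {l : Pr} {h : M8 AF} (u : (M8 ℤ_[l])ˣ)
    (e : h.map (cp l) = u.val.map (↑)) : StdAt l h := fun x => by
  refine ⟨fun hx i => ?_, fun hx => e ▸ gn_int_mulVec _ hx⟩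
  have := gn_int_mulVec (u⁻¹).val hx i
  have h1 : (u⁻¹).val.map ((↑) : ℤ_[l] → ℚ_[l]) * u.val.map (↑) = 1 :=
    (Matrix.map_mul (f := PadicInt.Coe.ringHom)).symm.trans
      (by rw [Units.inv_mul]; exact Matrix.map_one _ rfl rfl)
  rwa [e, mulVec_mulVec, h1, one_mulVec] at this

theorem StdAt.mul {l : Pr} {h h' : M8 AF} (a : StdAt l h) (b : StdAt l h') : StdAt l (h * h') :=
  fun x => by rw [Matrix.map_mul, ← mulVec_mulVec, a, b]

theorem StdAt.smul {l : Pr} {h : M8 AF} (a : StdAt l h) {r : ℚ} (hr : ‖(r : ℚ_[l])‖ = 1) :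
    StdAt l (r • h) := fun x => by
  rw [← a x, ← algebraMap_smul AF r h, gn_map_smul, AlgHom.commutes, smul_mulVec]
  simp only [Pi.smul_apply, smul_eq_mul, norm_mul, eq_ratCast, hr, one_mul]

theorem stdAt_mA (l : Pr) (g : ∀ l : Pr, GL (I2 gg) ℤ_[l]) : StdAt l (mA g) := stdAt_of_eq (g l) rfl

theorem gn_lat {k : M8 AF} (hk : ∀ l, StdAt l k) {t : W} : k *ᵥ t ∈ L0 ↔ t ∈ L0 := by
  rw [mem_L0, mem_L0, forall_comm, forall_comm (α := I2 gg)]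
  refine forall_congr' fun l => ?_
  have := hk l (cpv l t)
  rwa [← gn_cpv] at this

/-! ### Polarised lattices -/

section
variable {N N' : ℕ} {h : M8 AF}

theorem Pt.ne (P : Pt N h) : N ≠ 0 := P.odd.pos.ne'

theorem gs_smul (r : ℚ) (g : GG) : GS (qa r ^ 2 * mulG g) (r • gm g) := by
  rw [← algebraMap_smul AF r]
  exact (mulG_spec g).smul _

theorem pt_iff {r : ℚ} {g : GG} : Pt N (r • gm g) ↔ Odd N ∧ StdAt p2 (r • gm g) ∧
    ∀ l : Pr, ‖(N : ℚ_[l]) * (r : ℚ_[l]) ^ 2 * cp l (mulG g)‖ = 1 := by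
  have e : ∀ l : Pr, cp l ((N : AF) * (qa r ^ 2 * mulG g)) =
      (N : ℚ_[l]) * (r : ℚ_[l]) ^ 2 * cp l (mulG g) := fun l => by
    rw [map_mul, map_mul, map_pow, map_natCast, AlgHom.commutes, eq_ratCast, mul_assoc]
  refine ⟨fun P => ⟨P.odd, P.two, fun l => ?_⟩, fun ⟨h1, h2, h3⟩ => ⟨h1, ?_, ?_, h2⟩⟩
  · obtain ⟨u, hu⟩ := P.sim
    have := hu (Pi.single (inl 0) 1) (Pi.single (inr 0) 1)
    rw [gs_smul, gn_Ef_base, mul_one, mul_one] at this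
    rw [← e, this, gn_norm_unit]
  · have hr : r ≠ 0 := fun e => by simpa [e] using h3 p2
    rw [Algebra.smul_def]
    exact (hr.isUnit.map _).mul (gm_isUnit g)
  · obtain ⟨u, hu⟩ := gn_unit fun l => (congrArg norm (e l)).trans (h3 l)
    exact ⟨u, fun x y => by rw [hu, gs_smul, ← mul_assoc]⟩

theorem pt_inv_iff {g : GG} : Pt N ((N : ℚ)⁻¹ • gm g) ↔ Odd N ∧ StdAt p2 (gm g) ∧
    ∀ l : Pr, ‖cp l (mulG g)‖ = ‖(N : ℚ_[l])‖ := by
  rw [pt_iff]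
  refine and_congr_right fun hN => ?_
  have h0 : N ≠ 0 := hN.pos.ne'
  have h2 : ‖((N : ℚ) : ℚ_[p2])‖ = 1 := by
    rw [Rat.cast_natCast]
    exact Padic.norm_natCast_eq_one_iff.2 (Nat.coprime_two_left.2 hN)
  refine and_congr ⟨fun a => ?_, fun a => a.smul (by rw [Rat.cast_inv, norm_inv, h2, inv_one])⟩
    (forall_congr' fun l => ?_)
  · have := a.smul h2
    rwa [smul_smul, mul_inv_cancel₀ (Nat.cast_ne_zero.2 h0), one_smul] at this
  · have h1 : (N : ℚ_[l]) ≠ 0 := Nat.cast_ne_zero.2 h0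
    rw [Rat.cast_inv, Rat.cast_natCast, sq, mul_inv_cancel_left₀ h1, norm_mul, norm_inv,
      inv_mul_eq_one₀ (norm_ne_zero_iff.2 h1), eq_comm]

theorem Pt.level {g : GG} (P : Pt N ((N : ℚ)⁻¹ • gm g)) (P' : Pt N' ((N' : ℚ)⁻¹ • gm g)) :
    N = N' :=
  gn_nat_eq P.ne P'.ne fun l => ((pt_inv_iff.1 P).2.2 l).symm.trans ((pt_inv_iff.1 P').2.2 l)

/-- similitudes that fix the standard lattice have a unit multiplier -/
theorem norm_mulG {l : Pr} {k : GG} (hk : StdAt l (gm k)) : ‖cp l (mulG k)‖ = 1 := by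
  have key : ∀ k : GG, (∀ x : Vl l, (∀ i, ‖x i‖ ≤ 1) → ∀ i, ‖(cpG l k *ᵥ x) i‖ ≤ 1) →
      ‖cp l (mulG k)‖ ≤ 1 := fun k hk => by
    have h1 : ∀ j i : I2 gg, ‖(Pi.single j 1 : Vl l) i‖ ≤ 1 := fun j i => by
      rw [Pi.single_apply]; split_ifs <;> simp
    have := cpG_sim l k (Pi.single (inl 0) 1) (Pi.single (inr 0) 1)
    rw [gn_Ef_base, mul_one] at this
    rw [← this]
    exact gx_Ef_mem (PadicInt.subring l) (hk _ (h1 _)) (hk _ (h1 _))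
  have h1 := key k fun x hx => (hk x).2 hx
  have h2 := key k⁻¹ fun x hx => (hk _).1 (by
    rwa [← cpG_eq, mulVec_mulVec, ← map_mul, mul_inv_cancel, map_one, one_mulVec])
  have h3 : ‖cp l (mulG k)‖ * ‖cp l (mulG k⁻¹)‖ = 1 := by
    rw [← norm_mul, ← map_mul, ← Units.val_mul, ← map_mul, mul_inv_cancel, map_one,
      Units.val_one, map_one, norm_one]
  exact le_antisymm h1 (h3.ge.trans (mul_le_of_le_one_right (norm_nonneg _) h2))

theorem Pt.mul_left (P : Pt N h) {k : GG} (hk : ∀ l, StdAt l (gm k)) : Pt N (gm k * h) := by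
  obtain ⟨u, hu⟩ := P.sim
  obtain ⟨w, hw⟩ := gn_unit fun l => norm_mulG (hk l)
  refine ⟨P.odd, (gm_isUnit k).mul P.unit, ⟨w * u, fun x y => ?_⟩, (hk p2).mul P.two⟩
  rw [← mulVec_mulVec, ← mulVec_mulVec, mulG_spec, mul_left_comm, hu, Units.val_mul, map_mul, hw,
    mul_assoc]

theorem Pt.mul_right (P : Pt N h) {k : GG} (hk : ∀ l, StdAt l (gm k)) : Pt N (h * gm k) := by
  obtain ⟨u, hu⟩ := P.sim
  obtain ⟨w, hw⟩ := gn_unit fun l => norm_mulG (hk l)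
  refine ⟨P.odd, P.unit.mul (gm_isUnit k), ⟨u * w, fun x y => ?_⟩, StdAt.mul P.two (hk p2)⟩
  rw [← mulVec_mulVec, ← mulVec_mulVec, hu, mulG_spec, Units.val_mul, map_mul, hw, mul_assoc]

theorem Pt.exists_frame (P : Pt N h) : ∃ φ : Frame N (Fin gg), ∀ x, φ.γ x = h *ᵥ x := by
  obtain ⟨u, hu⟩ := P.sim
  obtain ⟨g, rfl⟩ := P.unit
  exact ⟨⟨(Matrix.GeneralLinearGroup.toLin g).toLinearEquiv,
    Units.map (zA.codRestrict Zh gx_zA_mem).toMonoidHom u, fun x y => by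
      rw [gx_qsmul, qa, map_natCast]; exact hu x y⟩, fun _ => rfl⟩

variable {k : Type} [Field k] {q : ℕ} {S : TSys k q} {F : W → k}

theorem TSys.IsVec.mul_right (hF : S.IsVec N h F) {g : M8 AF} (hg : ∀ t ∈ L0, g *ᵥ t ∈ L0) :
    S.IsVec N (h * g) F :=
  ⟨hF.mem, fun t ht => by rw [← mulVec_mulVec]; exact hF.inv _ (hg t ht)⟩

theorem gn_sgn_congr (e : AddChar AF k) {s t : W} (h : cpv p2 s = cpv p2 t) :
    sgn e s = sgn e t := by
  have key : ∀ s : W, sgn e s = e (sg p2 ((1 / 2 : ℚ) • Qf (cpv p2 s) * 1)) := fun s => by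
    rw [← gn_cp_Qf, ← map_smul, ← gn_mul_sg, mul_comm]; rfl
  rw [key, key, h]

theorem gn_sgn_zero (e : AddChar AF k) : sgn e 0 = 1 := by simp [sgn, Qf]

/-- the value at a point of odd level depends only on its class -/
theorem TSys.IsVec.shift {S : TSys k 0} (hF : S.IsVec N h F) (P : Pt N h) {l : Pr} (hl : l ≠ p2)
    {x t : Vl l} (ht : ∀ i, ‖t i‖ ≤ 1) (hx : ‖Ef t x‖ ≤ 1) :
    F (h *ᵥ sgv l (x + t)) = F (h *ᵥ sgv l x) := by
  obtain ⟨u, hu⟩ := P.sim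
  have h1 := congrFun (hF.inv _ (gn_sgv_mem ht) (gn_Wp0 _)) (h *ᵥ sgv l x)
  have h2 : sgn S.e (h *ᵥ sgv l t) = 1 := by
    rw [← gn_sgn_zero S.e]
    refine gn_sgn_congr _ ?_
    rw [gn_cpv, gn_cpv_sgv_ne hl.symm, mulVec_zero]
    exact _root_.funext fun _ => (map_zero (cp p2)).symm
  have h3 : ((N : ℚ) / 2) • Ef (h *ᵥ sgv l t) (h *ᵥ sgv l x) ∈ Zh := gx_Zh.2 fun l' => by
    rw [div_eq_inv_mul, mul_smul, Nat.cast_smul_eq_nsmul, nsmul_eq_mul, hu, map_smul, map_mul,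
      gn_cp_Ef]
    by_cases e : l' = l
    · subst e
      rw [gn_cpv_sgv, gn_cpv_sgv, Rat.smul_def, norm_mul, norm_mul, gn_norm_unit, Rat.cast_inv,
        Rat.cast_ofNat, gx_half_norm hl, one_mul, one_mul]
      exact hx
    · simp [gn_cpv_sgv_ne e]
  rw [h2, one_smul, Rt, S.gx_one h3, one_mul] at h1
  rw [gn_sgv_add, mulVec_add, h1]

end

section
variable {τ : Matrix (Fin gg) (Fin gg) ℂ} {K : IntermediateField ℚ ℂ} {M : MumfordType τ K}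
  (A : AR M) {N : ℕ} {h : M8 AF} {F F' : W → Qbar}

/-- multiplicity one -/
theorem vec_uniq (hτ : Sieg τ) (P : Pt N h) (hF : A.S.IsVec N h F) (hF' : A.S.IsVec N h F')
    (h0 : F' ≠ 0) : ∃ c : ℂ, ∀ x, jC (F x) = c * jC (F' x) := by
  obtain ⟨φ, hφ⟩ := P.exists_frame
  have key : ∀ {F}, A.S.IsVec N h F →
      Eig N φ.L (fun m => jC (sgn A.S.e m)) fun x => jC (F x) := fun {F} hF m hm => by
    obtain ⟨t, rfl⟩ := φ.γ.surjective m
    rw [← jC_Rt A.cxe, hφ, hF.inv t (φ.map_mem_L.1 hm) (gn_Wp0 _)]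
    exact funext fun x => map_mul jC _ _
  obtain ⟨c, hc⟩ := HH_uniq (siegI_iff.2 hτ) (Nat.cast_pos.2 P.odd.pos)
    ((t_gh τ hτ K M A N P.odd.pos F).1 hF.mem) ((t_gh τ hτ K M A N P.odd.pos F').1 hF'.mem)
    (fun e => h0 (funext fun x => jC.injective ((congrFun e x).trans (map_zero jC).symm)))
    (key hF) (key hF') φ.perp_eq.le
  exact ⟨c, congrFun hc⟩

end

end Pool.Agent.MT
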