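import Pool.Agent.Lib.MP_d61fbb_ag.MN.GX1

/-! Existence of theta vectors as short sums of products of four translates. -/

set_option autoImplicit false

noncomputable section

namespace Pool.Agent.MT

variable [Dim]

open Matrix Sum

variable {k : Type} [Field k]

theorem gx_orth {d : ℕ} [NeZero d] {ψ : AddChar (ZMod d) k} (hψ : ψ.IsPrimitive)
    (c : I2 gg → ZMod d) :
    ∑ κ : I2 gg → ZMod d, ψ (κ ⬝ᵥ c) = if c = 0 then (d : k) ^ (2 * gg) else 0 := by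
  have h1 : ∀ κ : I2 gg → ZMod d, ψ (κ ⬝ᵥ c) = ∏ i, ψ (κ i * c i) := fun κ => by
    have key : ∀ T : Finset (I2 gg), ψ (∑ i ∈ T, κ i * c i) = ∏ i ∈ T, ψ (κ i * c i) := fun T => by
      induction T using Finset.induction_on with
      | empty => simp
      | insert a T ha ih =>
        rw [Finset.sum_insert ha, Finset.prod_insert ha, AddChar.map_add_eq_mul, ih]
    exact key _
  simp only [h1]
  rw [← Fintype.piFinset_univ, ← Finset.prod_univ_sum (fun _ => Finset.univ)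
    fun i (x : ZMod d) => ψ (x * c i)]
  simp only [AddChar.sum_mulShift _ hψ, ZMod.card]
  split_ifs with h
  · simp [h, two_mul]
  · obtain ⟨i, hi⟩ := Function.ne_iff.1 h
    exact Finset.prod_eq_zero (Finset.mem_univ i) (by
      rw [if_neg (show c i ≠ 0 from hi), Nat.cast_zero])

/-- the standard lifts of residues -/
def lf {d : ℕ} (c : I2 gg → ZMod d) : W := fun i => ((c i).val : AF)

theorem lf_mem {d : ℕ} (c : I2 gg → ZMod d) : lf c ∈ L0 := gx_L0.2 fun _ => natCast_mem Zh _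

theorem lf_zero {d : ℕ} : lf (0 : I2 gg → ZMod d) = 0 := funext fun i => by simp [lf]

theorem gx_int_res {d : ℕ} [NeZero d] {a : ℤ} {c : ZMod d} (h : (a : ZMod d) = c) :
    ∃ b : ℤ, a = c.val + d * b := by
  have h1 : ((c.val : ℤ) : ZMod d) = a := by rw [h, Int.cast_natCast, ZMod.natCast_zmod_val]
  obtain ⟨b, hb⟩ := (ZMod.intCast_eq_intCast_iff_dvd_sub _ _ _).1 h1
  exact ⟨b, by linarith⟩

theorem gx_res {d : ℕ} [NeZero d] {t : W} (ht : t ∈ L0) :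
    ∃ n : I2 gg → ℤ, (∃ t' ∈ L0, t = (fun i => (n i : AF)) + d • t') ∧
      ∀ c : I2 gg → ZMod d, ∃ t' ∈ L0, t + lf c = lf (c + fun i => (n i : ZMod d)) + d • t' := by
  choose n z hz e using fun i => Zh_div (gx_L0.1 ht i) d (NeZero.ne d)
  refine ⟨n, ⟨z, gx_L0.2 hz, funext fun i => by simpa using e i⟩, fun c => ?_⟩
  have h1 : ∀ i, ∃ b : ℤ, n i + (c i).val = (c i + n i).val + d * b := fun i =>
    gx_int_res (by push_cast; rw [ZMod.natCast_zmod_val, add_comm])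
  choose b hb using h1
  refine ⟨fun i => z i + b i, gx_L0.2 fun i => Zh.add_mem (hz i) (intCast_mem Zh _),
    funext fun i => ?_⟩
  have h2 := congrArg (Int.cast : ℤ → AF) (hb i)
  push_cast at h2
  change t i + ((c i).val : AF) = ((c i + n i).val : AF) + d • ((z i : AF) + b i)
  rw [nsmul_eq_mul]
  linear_combination e i + h2

namespace TSys
variable (S : TSys k 0)

theorem gx_prim {d : ℕ} [NeZero d] : IsPrimitiveRoot (S.e (qa (1 / d))) d := by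
  have hd : (d : ℚ) ≠ 0 := Nat.cast_ne_zero.2 (NeZero.ne d)
  have h1 : ∀ l : ℕ, S.e (qa (1 / d)) ^ l = S.e (qa (l / d)) := fun l => by
    rw [← AddChar.map_nsmul_eq_pow, qa, qa, ← map_nsmul, nsmul_eq_mul, mul_one_div]
  refine ⟨by rw [h1, div_self hd, qa, map_one]; exact S.gx_one Zh.one_mem, fun l hl => ?_⟩
  rw [h1] at hl
  obtain ⟨n, hn⟩ := qa_mem_Zh.1 (gx_Zh.2 fun l => (S.ker _).1 hl l l.2.ne_zero)
  rw [div_eq_iff hd] at hn
  have h2 : (l : ℤ) = d * n := by exact_mod_cast hn.trans (mul_comm _ _)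
  exact Int.natCast_dvd_natCast.1 ⟨n, h2⟩

theorem gx_char (d : ℕ) [NeZero d] : ∃ ψ : AddChar (ZMod d) k, ψ.IsPrimitive ∧
    ∀ m : ℤ, ψ m = S.e (qa (1 / d) * m) := by
  have hp := S.gx_prim (d := d)
  refine ⟨_, AddChar.zmodChar_primitive_of_primitive_root d hp, fun m => ?_⟩
  obtain ⟨b, hb⟩ := gx_int_res (d := d) (a := m) rfl
  rw [AddChar.zmodChar_apply, ← AddChar.map_nsmul_eq_pow, nsmul_eq_mul]
  refine S.gx_congr ?_
  have h1 : qa (1 / d) * (d : AF) = 1 := by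
    rw [← map_natCast (algebraMap ℚ AF), qa, ← map_mul,
      one_div_mul_cancel (Nat.cast_ne_zero.2 (NeZero.ne d)), map_one]
  have h2 := congrArg (Int.cast : ℤ → AF) hb
  push_cast at h2
  have h3 : ((m : ZMod d).val : AF) * qa (1 / d) - qa (1 / d) * m = -b := by
    linear_combination (-qa (1 / d)) * h2 - b * h1
  rw [h3]
  exact Zh.neg_mem (intCast_mem Zh _)

theorem gx_F0 {N : ℕ} {n : Fin 4 → ℤ} (hn : ∑ i, n i ^ 2 = N) (η : I2 gg → ZMod 2) {s : W}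
    (hs : s ∈ L0) : TT S.e N (s + s) (g4 S.e S.Θ n fun _ => hw η) = g4 S.e S.Θ n fun _ => hw η := by
  have hz : ∀ {t : W}, t ∈ L0 → ∀ i, t i ∈ Z2 := fun ht i => gx_Zh.1 (gx_L0.1 ht i) p2
  rw [TT, S.gx_sgn_two (hz hs), one_smul]
  funext x
  unfold g4
  rw [gx_Rt_prod S.e hn]
  refine Finset.prod_congr rfl fun i _ => ?_
  have h1 : n i • s ∈ L0 := zsmul_mem hs _
  have h2 : hw η + hw η ∈ L0 := gx_L0.2 fun j => by
    rw [Pi.add_apply, hw, qv', qa, ← map_add, hq, add_halves]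
    exact qa_mem_Zh.2 ⟨(η j).val, by simp⟩
  rw [show n i • (s + s) = n i • s + n i • s from smul_add (n i) s s, gx_Rt_comm, S.per _ (L0.add_mem h1 h1), S.gx_sgn_two (hz h1), one_smul,
    Ef_add_right, ← Ef_add_left, Nat.cast_one, one_mul,
    S.gx_one (gx_Ef_mem Zh (gx_L0.1 h2) (gx_L0.1 h1)), one_smul]

/-- A theta vector for the lattice `h Λ` is a sum of `(2 d) ^ (2 g)` products of four translates when
`d h Λ ≤ Λ`. -/
theorem exists_vec {N : ℕ} {h : M8 AF} (P : Pt N h) {d : ℕ} (hd0 : d ≠ 0)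
    (hd : ∀ t ∈ L0, d • (h *ᵥ t) ∈ L0) :
    ∃ (n : Fin 4 → ℤ) (f : (I2 gg → Fin (2 * d)) → W → k), (∀ c, E4 S.e S.Θ n (f c)) ∧
      S.IsVec N h (∑ c, f c) ∧ ∑ c, f c ≠ 0 := by
  have := S.char
  have : CharZero k := CharP.charP_to_charZero k
  obtain ⟨D, hD⟩ : ∃ D, 2 * d = D + 1 := ⟨2 * d - 1, by omega⟩
  rw [hD]
  obtain ⟨n, hn⟩ : ∃ n : Fin 4 → ℤ, ∑ i, n i ^ 2 = N := by
    obtain ⟨a, b, c, e, he⟩ := Nat.sum_four_squares N
    exact ⟨![a, b, c, e], by simp [Fin.sum_univ_four, ← he]⟩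
  obtain ⟨η, hη⟩ := S.bpf 0
  rw [zero_add] at hη
  set F0 := g4 S.e S.Θ n fun _ => hw η with hF0
  have hF0ne : F0 ≠ 0 := fun h0 => by
    have h1 := congrFun h0 0
    simp [hF0, g4, Rt, hη] at h1
  have hE0 : E4 S.e S.Θ n F0 := ⟨0, _, by rw [AddChar.map_zero_eq_one, one_smul]⟩
  have hper : ∀ t ∈ L0, TT S.e N (h *ᵥ ((D + 1) • t)) F0 = F0 := fun t ht => by
    rw [← hD, mulVec_smul, two_mul, add_smul]
    exact S.gx_F0 hn η (hd t ht)
  obtain ⟨ψ, hψ, hψe⟩ := S.gx_char (D + 1)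
  let A : (I2 gg → ZMod (D + 1)) → W → k := fun c => TT S.e N (h *ᵥ lf c) F0
  have hA : ∀ t ∈ L0, ∀ c c', (∃ t' ∈ L0, t + lf c = lf c' + (D + 1) • t') →
      TT S.e N (h *ᵥ t) (A c) = A c' := by
    rintro t ht c c' ⟨t', ht', e⟩
    simp only [A]
    rw [S.gx_TT P ht (lf_mem c), e, ← S.gx_TT P (lf_mem c') (nsmul_mem ht' _), hper t' ht']
  let Pk : (I2 gg → ZMod (D + 1)) → W → k := fun κ => ∑ c, ψ (κ ⬝ᵥ c) • A c
  obtain ⟨κ, hκ⟩ : ∃ κ, Pk κ ≠ 0 := by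
    by_contra! h0
    have h1 : ∑ κ, Pk κ = 0 := Finset.sum_eq_zero fun κ _ => h0 κ
    simp only [Pk] at h1
    rw [Finset.sum_comm] at h1
    simp only [← Finset.sum_smul, gx_orth hψ, ite_smul, zero_smul, Finset.sum_ite_eq',
      Finset.mem_univ, if_true] at h1
    have h2 : A 0 = F0 := by
      have h3 := hper 0 L0.zero_mem
      rw [smul_zero] at h3
      simpa only [A, lf_zero] using h3
    rw [h2, smul_eq_zero] at h1
    exact h1.elim (pow_ne_zero _ (Nat.cast_ne_zero.2 (Nat.succ_ne_zero D))) hF0ne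
  obtain ⟨u, hu⟩ := P.sim
  let v : W := Sum.elim (fun i => lf κ (inr i)) fun i => -lf κ (inl i)
  have hv : ∀ t : W, Ef v t = lf κ ⬝ᵥ t := fun t => by
    change ∑ i, lf κ (inr i) * t (inr i) - ∑ i, -lf κ (inl i) * t (inl i) = ∑ i, lf κ i * t i
    rw [Fintype.sum_sum_type, sub_eq_add_neg, ← Finset.sum_neg_distrib, add_comm]
    congr 1
    exact Finset.sum_congr rfl fun i _ => by ring
  let y : W := h *ᵥ ((zA ↑u⁻¹ * qa (1 / (D + 1 : ℕ))) • v)
  have hy : ∀ t, (N : AF) * Ef y (h *ᵥ t) = qa (1 / (D + 1 : ℕ)) * (lf κ ⬝ᵥ t) := fun t => by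
    rw [hu, Ef_smul_left, hv, ← mul_assoc, ← mul_assoc, ← map_mul, Units.mul_inv, map_one, one_mul]
  have hψA : ∀ c, E4 S.e S.Θ n (Rt S.e N y (ψ (κ ⬝ᵥ c) • A c)) := fun c => by
    obtain ⟨m, hm⟩ := ZMod.intCast_surjective (κ ⬝ᵥ c)
    rw [← hm, hψe]
    exact (((hE0.Rt hn _).smul _).smul _).Rt hn _
  have hsum : ∑ c, Rt S.e N y (ψ (κ ⬝ᵥ c) • A c) = Rt S.e N y (Pk κ) := (gx_Rt_sum _ _ _ _ _).symm
  refine ⟨n, fun c => Rt S.e N y (ψ (κ ⬝ᵥ c) • A c), hψA, ⟨?_, fun t ht _ => ?_⟩, ?_⟩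
  · exact Submodule.sum_mem _ fun c _ => (hψA c).mem hn
  · refine (congrArg (Rt S.e N (h *ᵥ t)) hsum).trans (Eq.trans ?_ (congrArg _ hsum.symm))
    obtain ⟨m, ⟨t', ht', e1⟩, e2⟩ := gx_res (d := D + 1) ht
    have h1 : ψ (κ ⬝ᵥ fun i => (m i : ZMod (D + 1))) • TT S.e N (h *ᵥ t) (Pk κ) = Pk κ := by
      simp only [Pk]
      rw [TT, gx_Rt_sum, Finset.smul_sum, Finset.smul_sum,
        ← Equiv.sum_comp (Equiv.addRight fun i => (m i : ZMod (D + 1)))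
          fun c => ψ (κ ⬝ᵥ c) • A c]
      refine Finset.sum_congr rfl fun c _ => ?_
      rw [gx_Rt_smul, smul_comm (sgn S.e _), smul_smul, ← AddChar.map_add_eq_mul,
        Equiv.coe_addRight, dotProduct_add, add_comm (κ ⬝ᵥ c), ← hA t ht c _ (e2 c), TT]
    have h2 : S.e ((N : AF) * Ef y (h *ᵥ t)) = ψ (κ ⬝ᵥ fun i => (m i : ZMod (D + 1))) := by
      have h3 : (κ ⬝ᵥ fun i => (m i : ZMod (D + 1)))
          = ((∑ i, ((κ i).val : ℤ) * m i : ℤ) : ZMod (D + 1)) := by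
        push_cast
        simp only [dotProduct, ZMod.natCast_zmod_val]
      have h4 : qa (1 / (D + 1 : ℕ)) * ((D + 1 : ℕ) : AF) = 1 := by
        rw [← map_natCast (algebraMap ℚ AF), qa, ← map_mul,
          one_div_mul_cancel (Nat.cast_ne_zero.2 (Nat.succ_ne_zero D)), map_one]
      rw [hy, h3, hψe]
      refine S.gx_congr ?_
      have h5 : qa (1 / (D + 1 : ℕ)) * (lf κ ⬝ᵥ t)
          - qa (1 / (D + 1 : ℕ)) * ((∑ i, ((κ i).val : ℤ) * m i : ℤ) : AF) = lf κ ⬝ᵥ t' := by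
        have h6 : ((∑ i, ((κ i).val : ℤ) * m i : ℤ) : AF) = lf κ ⬝ᵥ fun i => (m i : AF) := by
          push_cast
          rfl
        rw [h6, e1, dotProduct_add, dotProduct_smul, nsmul_eq_mul]
        linear_combination (lf κ ⬝ᵥ t') * h4
      rw [h5]
      exact Zh.sum_mem fun i _ => Zh.mul_mem (gx_L0.1 (lf_mem κ) i) (gx_L0.1 ht' i)
    rw [gx_Rt_comm, h2]
    refine (gx_Rt_smul _ _ _ _ _).symm.trans (Eq.trans ?_ (gx_Rt_smul _ _ _ _ _))
    congr 1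
    conv_rhs => rw [← h1, TT, smul_comm, smul_smul (sgn S.e _), S.gx_sgn_sq (P.z2 ht), one_smul]
  · exact hsum ▸ gx_Rt_ne _ _ _ hκ

end TSys

end Pool.Agent.MT
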