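import Pool.Agent.Lib.MP_d61fbb_ag.MN.GX2
import Pool.Agent.Lib.MP_d61fbb_ag.MN.GN1

/-! Integral theta vectors with bounded conjugates and their Galois conjugates. -/

set_option autoImplicit false

noncomputable section

namespace Pool.Agent.MT

variable [Dim]

open Matrix Sum
open Pool.Agent.Lib.MP_696deb_nt.B2 (Qbar Gam jC)

namespace TSys
variable {k : Type} [Field k] {q : ℕ} (S : TSys k q)

theorem gx_e_pow (a : AF) : ∃ n : ℕ, n ≠ 0 ∧ S.e a ^ n = 1 := by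
  obtain ⟨n, hn, h⟩ := af_den a
  exact ⟨n, hn, by rw [← AddChar.map_nsmul_eq_pow, nsmul_eq_mul, S.gx_one h]⟩

theorem gx_e_int (a : AF) : IsIntegral ℤ (S.e a) := by
  obtain ⟨n, hn, h⟩ := S.gx_e_pow a
  exact IsIntegral.of_pow (Nat.pos_of_ne_zero hn) (by rw [h]; exact isIntegral_one)

theorem gx_e_norm (φ : k →+* ℂ) (a : AF) : ‖φ (S.e a)‖ = 1 := by
  obtain ⟨n, hn, h⟩ := S.gx_e_pow a
  exact Complex.norm_eq_one_of_pow_eq_one (by rw [← map_pow, h, map_one]) hn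

variable {S}

theorem IsVec.gx_smul {N : ℕ} {h : M8 AF} {F : W → k} (H : S.IsVec N h F) (c : k) :
    S.IsVec N h (c • F) :=
  ⟨Submodule.smul_mem _ _ H.mem, fun t ht h' => by rw [gx_Rt_smul, H.inv t ht h', smul_comm]⟩

end TSys

theorem gx_sgn_cut {k : Type} [Field k] (e : AddChar AF k) (s : W) :
    sgn e (sg p2 1 • s) = sgn e s := by
  have h1 : sg p2 1 * sg p2 1 = sg p2 1 := by rw [gn_mul_sg, gn_cp_sg, mul_one]
  have h2 : Qf (sg p2 1 • s) = sg p2 1 * Qf s := by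
    simp only [Qf, Pi.smul_comp, smul_dotProduct, dotProduct_smul, smul_eq_mul, ← mul_assoc, h1]
  rw [sgn, sgn, h2, ← mul_smul_comm, ← mul_assoc, h1]

theorem gx_mulVec_mem {R : Type} [CommRing R] (B : Subring R) {g : M8 R} {y : I2 gg → R}
    (hg : ∀ i j, g i j ∈ B) (hy : ∀ i, y i ∈ B) (i : I2 gg) : (g *ᵥ y) i ∈ B := by
  unfold mulVec dotProduct
  exact B.sum_mem fun j _ => B.mul_mem (hg i j) (hy j)

theorem gx_int_iff {l : Pr} (g : GL (I2 gg) ℤ_[l]) (y : Vl l) :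
    (∀ i, ‖(g.val.map ((↑) : ℤ_[l] → ℚ_[l]) *ᵥ y) i‖ ≤ 1) ↔ ∀ i, ‖y i‖ ≤ 1 := by
  have key : ∀ (g : GL (I2 gg) ℤ_[l]) (y : Vl l), (∀ i, ‖y i‖ ≤ 1) →
      ∀ i, ‖(g.val.map ((↑) : ℤ_[l] → ℚ_[l]) *ᵥ y) i‖ ≤ 1 := fun g y hy i =>
    gx_mulVec_mem (PadicInt.subring l) (fun i j => (g.val i j).2) hy i
  refine ⟨fun h => ?_, key g y⟩
  have h1 := key g⁻¹ _ h
  have h2 : (g⁻¹).val.map ((↑) : ℤ_[l] → ℚ_[l]) * g.val.map (↑) = 1 := by
    refine (Matrix.map_mul (f := PadicInt.Coe.ringHom)).symm.trans ?_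
    rw [Units.inv_mul]
    exact Matrix.map_one _ rfl rfl
  rwa [mulVec_mulVec, h2, one_mulVec] at h1

theorem StdAt.gx_mA {l : Pr} {h : M8 AF} (H : StdAt l h) (π : ∀ l : Pr, GL (I2 gg) ℤ_[l]) :
    StdAt l (mA π * h) := fun x => by
  rw [Matrix.map_mul, gn_cp_mA, ← mulVec_mulVec, gx_int_iff]
  exact H x

theorem gx_mA_L0 (π : ∀ l : Pr, GL (I2 gg) ℤ_[l]) {t : W} (ht : t ∈ L0) : mA π *ᵥ t ∈ L0 :=
  gx_L0.2 (gx_mulVec_mem Zh (fun _ _ => gx_zA_mem _) (gx_L0.1 ht))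

/-- every adelic matrix has a denominator -/
theorem gx_den (h : M8 AF) : ∃ d : ℕ, d ≠ 0 ∧ ∀ t ∈ L0, d • (h *ᵥ t) ∈ L0 := by
  choose n hn H using fun ij : I2 gg × I2 gg => af_den (h ij.1 ij.2)
  refine ⟨∏ ij, n ij, Finset.prod_ne_zero_iff.2 fun ij _ => hn ij, fun t ht => gx_L0.2 fun i => ?_⟩
  rw [← smul_mulVec]
  refine gx_mulVec_mem Zh (fun i j => ?_) (gx_L0.1 ht) i
  change (∏ ij, n ij) • h i j ∈ Zh
  rw [← Finset.prod_erase_mul _ _ (Finset.mem_univ (i, j)), nsmul_eq_mul, Nat.cast_mul, mul_assoc]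
  exact Zh.mul_mem (natCast_mem Zh _) (H (i, j))

section
variable {τ : Matrix (Fin gg) (Fin gg) ℂ} {K : IntermediateField ℚ ℂ} {M : MumfordType τ K}
  (A : AR M)

/-- integral theta vectors with bounded conjugates -/
theorem AR.ex_vec : ∃ C : ℕ, ∀ (N : ℕ) (h : M8 AF) (d : ℕ), Pt N h → d ≠ 0 →
    (∀ t ∈ L0, d • (h *ᵥ t) ∈ L0) → ∃ F : W → Qbar, A.S.IsVec N h F ∧ F ≠ 0 ∧
      (∀ x, IsIntegral ℤ (F x)) ∧ ∀ (φ : Qbar →+* ℂ) x, ‖φ (F x)‖ ≤ C * d ^ (2 * gg) := by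
  obtain ⟨C, hC⟩ := A.bdd
  obtain ⟨D, hD0, hD⟩ := A.int
  refine ⟨(D * ⌈C⌉₊) ^ 4 * 2 ^ (2 * gg), fun N h d P hd0 hd => ?_⟩
  obtain ⟨n, f, h1, h2, h3⟩ := A.S.exists_vec P hd0 hd
  have hv : ∀ x, ∃ (a : _ → AF) (z : _ → Fin 4 → W), (((D : Qbar) ^ 4) • ∑ c, f c) x
      = ∑ c : I2 gg → Fin (2 * d), A.S.e (a c) * ∏ i, ((D : Qbar) * A.S.Θ (z c i)) := fun x => by
    choose a z e using fun c => (h1 c).val x
    refine ⟨a, z, ?_⟩
    rw [Pi.smul_apply, Finset.sum_apply, Finset.smul_sum]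
    refine Finset.sum_congr rfl fun c _ => ?_
    rw [e, Finset.prod_mul_distrib, Finset.prod_const, Finset.card_univ, Fintype.card_fin,
      smul_eq_mul, mul_left_comm]
  refine ⟨_, h2.gx_smul ((D : Qbar) ^ 4),
    smul_ne_zero (pow_ne_zero _ (Nat.cast_ne_zero.2 hD0)) h3, fun x => ?_, fun φ x => ?_⟩
  · obtain ⟨a, z, e⟩ := hv x
    rw [e]
    exact IsIntegral.sum _ fun c _ => (A.S.gx_e_int _).mul (IsIntegral.prod _ fun i _ => hD _)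
  · obtain ⟨a, z, e⟩ := hv x
    rw [e, map_sum]
    refine (norm_sum_le_of_le _ (n := fun _ => ((D : ℝ) * ⌈C⌉₊) ^ 4) fun c _ => ?_).trans (le_of_eq ?_)
    · rw [map_mul, norm_mul, A.S.gx_e_norm, one_mul, map_prod, norm_prod]
      refine (Finset.prod_le_prod (g := fun _ => (D : ℝ) * ⌈C⌉₊) (fun _ _ => norm_nonneg _)
        fun i _ => ?_).trans_eq (by simp)
      rw [map_mul, norm_mul, map_natCast, Complex.norm_natCast]
      exact mul_le_mul_of_nonneg_left ((hC _ _).trans (Nat.le_ceil C)) (Nat.cast_nonneg D)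
    · simp [← two_mul, mul_pow]
      ring

/-- every polarised lattice has an integral theta vector -/
theorem AR.ex_int {N : ℕ} {h : M8 AF} (P : Pt N h) :
    ∃ F : W → Qbar, A.S.IsVec N h F ∧ F ≠ 0 ∧ ∀ x, IsIntegral ℤ (F x) := by
  obtain ⟨C, hC⟩ := A.ex_vec
  obtain ⟨d, hd0, hd⟩ := gx_den h
  obtain ⟨F, h1, h2, h3, -⟩ := hC N h d P hd0 hd
  exact ⟨F, h1, h2, h3⟩

variable (σ : ℂ ≃ₐ[K] ℂ)

theorem gx_rho_inv (x : W) : mA (M.ρ σ⁻¹) *ᵥ mA (M.ρ σ) *ᵥ x = x := by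
  rw [mulVec_mulVec]
  change (mAh (M.ρ σ⁻¹) * mAh (M.ρ σ)) *ᵥ x = x
  rw [← map_mul, ← map_mul, inv_mul_cancel, map_one, map_one, one_mulVec]

theorem gx_rho_inv' (x : W) : mA (M.ρ σ) *ᵥ mA (M.ρ σ⁻¹) *ᵥ x = x := by
  simpa using gx_rho_inv (M := M) σ⁻¹ x

/-- the conjugate of a function -/
def AR.cj (F : W → Qbar) : W → Qbar := fun x => A.res σ (F (mA (M.ρ σ⁻¹) *ᵥ x))

theorem AR.cj_apply (F : W → Qbar) (x : W) : A.cj σ F (mA (M.ρ σ) *ᵥ x) = A.res σ (F x) := by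
  rw [AR.cj, gx_rho_inv]

theorem AR.cj_Θ : A.cj σ A.S.Θ = A.S.Θ := by
  funext x
  have h0 : hw 0 = 0 := funext fun i => by simp [hw, qv', hq]
  have h1 := A.gal σ 0 (mA (M.ρ σ⁻¹) *ᵥ x)
  rwa [TSys.th, h0, gx_Rt_zero, gx_rho_inv'] at h1

theorem AR.cj_smul (c : Qbar) (F : W → Qbar) : A.cj σ (c • F) = A.res σ c • A.cj σ F :=
  funext fun _ => map_mul (A.res σ) _ _

theorem AR.cj_Rt (m : ℕ) (t : W) (F : W → Qbar) :
    A.cj σ (Rt A.S.e m t F) = Rt A.S.e m (mA (M.ρ σ) *ᵥ t) (A.cj σ F) := by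
  funext x
  simp only [AR.cj, Rt]
  rw [map_mul, mulVec_add, gx_rho_inv, gx_qsmul, gx_qsmul, ← Ef_smul_right, A.gale, mulVec_smul,
    gx_rho_inv', Ef_smul_right]

theorem AR.cj_ne {F : W → Qbar} (h : F ≠ 0) : A.cj σ F ≠ 0 := fun h0 => h (funext fun x => by
  have h1 := congrFun h0 (mA (M.ρ σ) *ᵥ x)
  rw [A.cj_apply] at h1
  exact (map_eq_zero _).1 h1)

theorem AR.cj_int {F : W → Qbar} (h : ∀ x, IsIntegral ℤ (F x)) (x : W) :
    IsIntegral ℤ (A.cj σ F x) := map_isIntegral_int (A.res σ) (h _)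

theorem AR.cj_mem {m : ℕ} {F : W → Qbar} (h : F ∈ A.S.G m) : A.cj σ F ∈ A.S.G m := by
  induction h using Submodule.span_induction with
  | mem f hf =>
    obtain ⟨L, h1, -, rfl⟩ := hf
    refine Submodule.subset_span ⟨L.map fun c => (c.1, mA (M.ρ σ) *ᵥ c.2), ?_,
      fun i l hl => absurd hl l.2.ne_zero, funext fun x => ?_⟩
    · rw [← h1, wt, wt, Multiset.map_map]
      rfl
    · rw [AR.cj, gen, gen, map_multiset_prod, Multiset.map_map, Multiset.map_map]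
      congr 1
      refine Multiset.map_congr rfl fun c _ => ?_
      have h2 := congrFun (A.cj_Rt σ 1 c.2 A.S.Θ) (c.1 • x)
      rw [A.cj_Θ, AR.cj, show mA (M.ρ σ⁻¹) *ᵥ c.1 • x = c.1 • mA (M.ρ σ⁻¹) *ᵥ x from
        map_zsmul (mulVecLin _) c.1 x] at h2
      exact h2
  | zero =>
    rw [show A.cj σ 0 = 0 from funext fun _ => map_zero (A.res σ)]
    exact zero_mem _
  | add f g _ _ hf hg =>
    exact (show A.cj σ (f + g) = A.cj σ f + A.cj σ g from funext fun _ => map_add (A.res σ) _ _) ▸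
      add_mem hf hg
  | smul c f _ hf => exact A.cj_smul σ c f ▸ Submodule.smul_mem _ _ hf

theorem AR.res_sgn {s : W} (hs : ∀ i, s i ∈ Z2) :
    A.res σ (sgn A.S.e s) = sgn A.S.e (mA (M.ρ σ) *ᵥ s) := by
  have ht : sg p2 1 • s ∈ L0 := gx_L0.2 fun i => gx_sg_mul (hs i)
  have h1 := A.cj_Rt σ 1 (sg p2 1 • s) A.S.Θ
  rw [A.S.per _ ht, A.cj_smul, A.cj_Θ, A.S.per _ (gx_mA_L0 _ ht), mulVec_smul, gx_sgn_cut,
    gx_sgn_cut] at h1
  have h2 := congrFun h1 (hw A.η0)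
  simpa only [Pi.smul_apply, A.one, smul_eq_mul, mul_one] using h2

variable {A}

/-- the conjugate of a theta vector -/
theorem TSys.IsVec.gal {N : ℕ} {h : M8 AF} {F : W → Qbar} (H : A.S.IsVec N h F) (P : Pt N h) :
    A.S.IsVec N (mA (M.ρ σ) * h) (A.cj σ F) :=
  ⟨A.cj_mem σ H.mem, fun t ht _ => by
    rw [← mulVec_mulVec, ← A.cj_Rt, H.inv t ht fun i l hl => absurd hl l.2.ne_zero, A.cj_smul,
      A.res_sgn σ (P.z2 ht)]⟩

variable (A) in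
include A in
theorem Pt.gal {N : ℕ} {h : M8 AF} (P : Pt N h) : Pt N (mA (M.ρ σ) * h) := by
  obtain ⟨u, hu⟩ := P.sim
  let μ : ∀ l : Pr, ℤ_[l] := fun l => ⟨cp l (mulG (rhoG A σ)), (norm_mulG_rhoG A σ l).le⟩
  obtain ⟨w, hw⟩ : IsUnit μ :=
    Pi.isUnit_iff.2 fun l => PadicInt.isUnit_iff.2 (norm_mulG_rhoG A σ l)
  have h1 : zA w = mulG (rhoG A σ) := gn_ext fun l => by rw [hw]; rfl
  refine ⟨P.odd, (gm_isUnit (rhoG A σ)).mul P.unit, ⟨w * u, fun x y => ?_⟩,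
    StdAt.gx_mA (l := p2) P.two _⟩
  rw [← mulVec_mulVec, ← mulVec_mulVec, ← gm_rhoG A, mulG_spec, mul_left_comm, hu, Units.val_mul,
    map_mul, h1, mul_assoc]

end

end Pool.Agent.MT
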