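import Pool.Agent.Lib.MP_d61fbb_ag.MN.S0
import Pool.Agent.Lib.MP_d61fbb_ag.MT.H0

/-! Finite adeles, abstract theta systems, theta vectors. -/

set_option autoImplicit false

noncomputable section

namespace Pool.Agent.MT

variable [Dim]

open Matrix Polynomial Sum

/-- the component of an adele -/
def cp (l : Pr) : AF →ₐ[ℚ] ℚ_[l] := (Pi.evalAlgHom ℚ (fun l : Pr => ℚ_[l]) l).comp AF.val

theorem single_mem (l : Pr) (a : ℚ_[l]) : Pi.single l a ∈ AF := by
  obtain ⟨n, hn⟩ : ∃ n : ℕ, ‖((l : ℕ) : ℚ_[l]) ^ n * a‖ ≤ 1 := by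
    obtain ⟨n, hn⟩ := pow_unbounded_of_one_lt ‖a‖
      (show (1 : ℝ) < (l : ℕ) by exact_mod_cast l.2.one_lt)
    refine ⟨n, ?_⟩
    rw [norm_mul, norm_pow, Padic.norm_p, inv_pow, inv_mul_le_iff₀ (by have := l.2.pos; positivity)]
    simpa using hn.le
  refine ⟨l ^ n, pow_ne_zero _ l.2.ne_zero, fun l' => ?_⟩
  by_cases h : l' = l
  · subst h; simpa using hn
  · simp [Pi.single_eq_of_ne h]

/-- the adele with a single nonzero component -/
def sg (l : Pr) : ℚ_[l] →+ AF where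
  toFun a := ⟨Pi.single l a, single_mem l a⟩
  map_zero' := Subtype.ext (Pi.single_zero _)
  map_add' a b := Subtype.ext (Pi.single_add (f := fun l : Pr => ℚ_[l]) l a b)

/-- integral adeles from families of `l`-adic integers -/
def zA : (∀ l : Pr, ℤ_[l]) →+* AF where
  toFun x := ⟨fun l => x l, 1, one_ne_zero, fun l => by simpa using (x l).2⟩
  map_one' := rfl
  map_mul' _ _ := rfl
  map_zero' := rfl
  map_add' _ _ := rfl

/-- the adelic space -/
abbrev W := VV (Fin gg)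

/-- the local spaces -/
abbrev Vl (l : Pr) := I2 gg → ℚ_[l]

/-- the component of a vector -/
def cpv (l : Pr) (x : W) : Vl l := fun i => cp l (x i)

/-- the vector with a single nonzero component -/
def sgv (l : Pr) (x : Vl l) : W := fun i => sg l (x i)

/-- the standard lattice -/
abbrev L0 : AddSubgroup W := Lam (I2 gg)

theorem mem_L0 {x : W} : x ∈ L0 ↔ ∀ i (l : Pr), ‖cp l (x i)‖ ≤ 1 :=
  ⟨fun h i l => h i trivial l, fun h i _ l => h i l⟩

/-- vectors with zero component at `q` -/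
def Wp (q : ℕ) : Submodule AF W where
  carrier := {x | ∀ i (l : Pr), (l : ℕ) = q → cp l (x i) = 0}
  zero_mem' := fun i l _ => by simp
  add_mem' := fun {x y} hx hy i l h => by rw [Pi.add_apply, map_add, hx i l h, hy i l h, add_zero]
  smul_mem' := fun c x hx i l h => by rw [Pi.smul_apply, smul_eq_mul, map_mul, hx i l h, mul_zero]

/-- the adelic matrix of a family of integral matrices -/
def mA (g : ∀ l : Pr, GL (I2 gg) ℤ_[l]) : M8 AF := of fun i j => zA fun l => (g l).val i j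

/-- the half periods -/
def hw (η : I2 gg → ZMod 2) : W := qv' (hq η)

section
variable {k : Type} [Field k]

/-- the Heisenberg translation of weight `m` -/
def Rt (e : AddChar AF k) (m : ℕ) (t : W) (f : W → k) : W → k :=
  fun x => e (((m : ℚ) / 2) • Ef t x) * f (x + t)

/-- the sign of a vector whose component at two is integral -/
def sgn (e : AddChar AF k) (t : W) : k := e (sg ⟨2, Nat.prime_two⟩ 1 * (1 / 2 : ℚ) • Qf t)

/-- products of translates -/
def gen (e : AddChar AF k) (Θ : W → k) (L : Multiset (ℤ × W)) : W → k :=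
  fun x => (L.map fun c => Rt e 1 c.2 Θ (c.1 • x)).prod

/-- the weight -/
def wt (L : Multiset (ℤ × W)) : ℤ := (L.map fun c => c.1 ^ 2).sum

/-- the class -/
def cl (L : Multiset (ℤ × W)) : W := (L.map fun c => c.1 • c.2).sum

/-- theta functions of weight `m` and level two -/
def Sp (e : AddChar AF k) (Θ : W → k) (m : ℕ) : Submodule k (W → k) :=
  Submodule.span k {f | ∃ L, wt L = m ∧ (2 : ℤ) • cl L ∈ L0 ∧ f = gen e Θ L}

/-- theta functions of weight `m` and level prime to `q` -/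
def Gs (q : ℕ) (e : AddChar AF k) (Θ : W → k) (m : ℕ) : Submodule k (W → k) :=
  Submodule.span k {f | ∃ L, wt L = m ∧ (∀ i (l : Pr), (l : ℕ) = q → ‖cp l (cl L i)‖ ≤ 1) ∧
    f = gen e Θ L}

end

/-- An abstract theta system over a field of characteristic `q`. -/
structure TSys (k : Type) [Field k] (q : ℕ) where
  e : AddChar AF k
  Θ : W → k
  char : CharP k q
  two : (2 : k) ≠ 0
  ker : ∀ x, e x = 1 ↔ ∀ l : Pr, (l : ℕ) ≠ q → ‖cp l x‖ ≤ 1
  per : ∀ t ∈ L0, Rt e 1 t Θ = sgn e t • Θ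
  ev : ∀ x, Θ (-x) = Θ x
  ri : ∀ a b c d : W, 2 ^ gg * (Θ a * Θ b * Θ c * Θ d) = ∑ η, e ((2 : ℚ) • Qf (hw η)) *
    (Rt e 1 (hw η) Θ ((1 / 2 : ℚ) • (a + b + c + d)) * Rt e 1 (hw η) Θ ((1 / 2 : ℚ) • (a + b - c - d)) *
      Rt e 1 (hw η) Θ ((1 / 2 : ℚ) • (a - b + c - d)) * Rt e 1 (hw η) Θ ((1 / 2 : ℚ) • (a - b - c + d)))
  bpf : ∀ a, ∃ η, Θ (a + hw η) ≠ 0
  dim : ∀ m : ℕ, 0 < m → ∀ (n : ℕ) (f : Fin n → W → k), (∀ i, f i ∈ Sp e Θ m) →
    LinearIndependent k f → n ≤ (4 * m) ^ gg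

namespace TSys
variable {k : Type} [Field k] {q : ℕ} (S : TSys k q)

/-- the theta functions with half characteristics -/
def th (η : I2 gg → ZMod 2) : W → k := Rt S.e 1 (hw η) S.Θ

/-- theta functions of weight `m` -/
abbrev G (m : ℕ) : Submodule k (W → k) := Gs q S.e S.Θ m

/-- `F` is a theta function of weight `N` for the lattice `h Λ`, away from `q`. -/
structure IsVec (N : ℕ) (h : M8 AF) (F : W → k) : Prop where
  mem : F ∈ S.G N
  inv : ∀ t ∈ L0, h *ᵥ t ∈ Wp q → Rt S.e N (h *ᵥ t) F = sgn S.e (h *ᵥ t) • F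

/-- the translations at `q` that fix the theta function -/
def K0 (l : Pr) : AddSubgroup (Vl l) where
  carrier := {d | ∀ x, S.Θ (x + sgv l d) = S.Θ x}
  zero_mem' := fun x => by
    rw [show sgv l 0 = 0 from funext fun i => map_zero (sg l), add_zero]
  add_mem' := fun {a b} ha hb x => by
    rw [show sgv l (a + b) = sgv l a + sgv l b from funext fun i => map_add (sg l) _ _,
      ← add_assoc, hb, ha]
  neg_mem' := fun {a} ha x => by
    rw [← ha, add_assoc, show sgv l (-a) + sgv l a = 0 from funext fun i => by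
      simp [sgv], add_zero]

end TSys

/-- A polarised lattice: `h Λ` is self dual for `N` times the form and standard at two. -/
structure Pt (N : ℕ) (h : M8 AF) : Prop where
  odd : Odd N
  unit : IsUnit h
  sim : ∃ u : (∀ l : Pr, ℤ_[l])ˣ, ∀ x y, (N : AF) * Ef (h *ᵥ x) (h *ᵥ y) = zA u * Ef x y
  two : ∀ x : Vl ⟨2, Nat.prime_two⟩, (∀ i, ‖(h.map (cp _) *ᵥ x) i‖ ≤ 1) ↔ ∀ i, ‖x i‖ ≤ 1

/-- A theta system with a Frobenius operator. -/
structure FSys (k : Type) [Field k] (p : Pr) extends TSys k p where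
  closed : IsAlgClosed k
  π : ∀ l : Pr, GL (I2 gg) ℤ_[l]
  frob : ∀ η x, toTSys.th η (mA π *ᵥ x) = toTSys.th η x ^ (p : ℕ)
  frobe : ∀ x y, e (Ef (mA π *ᵥ x) (mA π *ᵥ y)) = e (Ef x y) ^ (p : ℕ)

end Pool.Agent.MT
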