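import Pool.Agent.Lib.MP_d61fbb_ag.MN.I0
import Pool.Agent.Lib.MP_d61fbb_ag.MN.DAlgS
import Pool.Agent.Lib.MP_d61fbb_ag.MT.EDefs
import Pool.Agent.Lib.MP_d61fbb_ag.MN.FDefs
import Pool.Agent.Lib.MP_696deb_nt.B2.D0

/-! The interfaces between the blocks. -/

set_option autoImplicit false

noncomputable section

namespace Pool.Agent.MT

variable [Dim]

open Matrix Polynomial Sum NumberField
open Pool.Agent.Lib.MP_696deb_nt.B2 (Qbar Gam Plc Dec Ine IsFrob Op jC)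
open scoped NNReal Classical

/-! ### Abstract theta systems -/

/-- irreducibility -/
def IRR : Prop := ∀ (k : Type) [Field k] (q : ℕ) (S : TSys k q) (m : ℕ), (m : k) ≠ 0 →
  ∀ H : Submodule k (W → k), H ≤ S.G m → H ≠ ⊥ → (∀ t ∈ Wp q, ∀ f ∈ H, Rt S.e m t f ∈ H) →
    H = S.G m

/-- multiplicity one -/
def UNIQ : Prop := ∀ (k : Type) [Field k] (q : ℕ) (S : TSys k q) (m : ℕ), (m : k) ≠ 0 →
  ∀ L : AddSubgroup W, (∀ t ∈ L, t ∈ Wp q) →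
    (∀ x ∈ Wp q, (∀ t ∈ L, S.e ((m : ℚ) • Ef t x) = 1) → x ∈ L) →
    ∀ (ξ : W → k) (f g : W → k), f ∈ S.G m → g ∈ S.G m → f ≠ 0 →
      (∀ t ∈ L, Rt S.e m t f = ξ t • f) → (∀ t ∈ L, Rt S.e m t g = ξ t • g) → ∃ c : k, g = c • f

/-- generic points -/
def GENP : Prop := ∀ (k : Type) [Field k] (q : ℕ) (S : TSys k q) (n : ℕ) (m : Fin n → ℕ)
  (f : Fin n → W → k) (z : Fin n → W), (∀ i, f i ∈ S.G (m i)) → (∀ i, f i ≠ 0) →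
    ∃ x ∈ Wp q, ∀ i, f i (x + z i) ≠ 0

/-- the theta coordinates separate points -/
def INJ : Prop := ∀ (k : Type) [Field k] (q : ℕ) (S : TSys k q) (x y : W) (c : k),
  (∀ η, S.th η x = c * S.th η y) →
    (∀ i (l : Pr), (l : ℕ) ≠ q → ‖cp l ((1 / 2 : ℚ) • (x - y) i)‖ ≤ 1) ∧
      ∀ l : Pr, (l : ℕ) = q → cpv l (x - y) ∈ S.K0 l

/-! ### Frobenius systems -/

/-- a polynomial in the Frobenius operator that vanishes at one prime vanishes everywhere -/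
def VAN : Prop := ∀ (k : Type) [Field k] (p : Pr) (S : FSys k p) (A : ℤ[X]) (l : Pr), l ≠ p →
  aeval (S.π l).val A = 0 → (∀ l' ≠ p, aeval (S.π l').val A = 0) ∧
    ∀ x : Vl p, (aeval (S.π p).val A).map (↑) *ᵥ x ∈ S.K0 p

/-- `P` is the characteristic polynomial at all primes other than `p` -/
def IsCh (p : Pr) (π : ∀ l : Pr, GL (I2 gg) ℤ_[l]) (P : ℤ[X]) : Prop :=
  ∀ l ≠ p, (π l).val.charpoly = P.map (Int.castRingHom _)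

/-- the theorems of Weil -/
def WEIL : Prop := ∀ (k : Type) [Field k] (p : Pr) (S : FSys k p),
  (∃ l ≠ p, ((S.π l).val.charpoly.map (algebraMap ℤ_[l] ℚ_[l])).Separable) →
    ∃ P : ℤ[X], IsCh p S.π P ∧ ∀ z : ℂ, aeval z P = 0 → ‖z‖ ^ 2 = (p : ℕ)

/-- endomorphisms that are similitudes preserve the theta functions -/
def ALPHA : Prop := ∀ (k : Type) [Field k] (p : Pr) (S : FSys k p) (P : ℤ[X]), IsCh p S.π P →
  (P.map (Int.castRingHom ℚ)).Separable → ∃ k0 : ℕ, ∀ (n : ℤ) (B : ℤ[X]) (m : ℕ), (m : k) ≠ 0 →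
    (∀ l ≠ p, ∀ x y : I2 gg → ℤ_[l],
      Ef (aeval (S.π l).val (C n + C (((p : ℕ) : ℤ) ^ k0) * B) *ᵥ x)
        (aeval (S.π l).val (C n + C (((p : ℕ) : ℤ) ^ k0) * B) *ᵥ y) = m * Ef x y) →
    (fun x => S.Θ (aeval (mA S.π) (C n + C (((p : ℕ) : ℤ) ^ k0) * B) *ᵥ x)) ∈ S.G m

/-! ### The arithmetic package -/

section
variable {τ : Matrix (Fin gg) (Fin gg) ℂ} {K : IntermediateField ℚ ℂ}

/-- The normalised theta function with algebraic values and its Galois action. -/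
structure AR (M : MumfordType τ K) where
  S : TSys Qbar 0
  η0 : I2 gg → ZMod 2
  one : S.Θ (hw η0) = 1
  c0 : ℂ
  c0_ne : c0 ≠ 0
  cx : ∀ x, c0 * jC (S.Θ x) = Theta τ x
  cxe : ∀ a, jC (S.e a) = psi a
  res : (ℂ ≃ₐ[K] ℂ) →* Gam
  res_spec : ∀ σ x, jC (res σ x) = σ (jC x)
  res_surj : ∀ g : Gam, (∀ x, jC x ∈ K → g x = x) → g ∈ res.range
  res_open : Op res.range
  gal : ∀ σ η x, res σ (S.th η x) = S.th η (mA (M.ρ σ) *ᵥ x)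
  gale : ∀ σ x y, res σ (S.e (Ef x y)) = S.e (Ef (mA (M.ρ σ) *ᵥ x) (mA (M.ρ σ) *ᵥ y))
  cont : ∀ N : ℕ, N ≠ 0 → ∃ U : Subgroup Gam, Op U ∧ ∀ σ, res σ ∈ U →
    ∀ (l : Pr) i j, ‖((M.ρ σ l).val - 1) i j‖ ≤ ‖(N : ℤ_[l])‖
  bdd : ∃ C : ℝ, ∀ (φ : Qbar →+* ℂ) x, ‖φ (S.Θ x)‖ ≤ C
  int : ∃ D : ℕ, D ≠ 0 ∧ ∀ x, IsIntegral ℤ ((D : Qbar) * S.Θ x)

variable {M : MumfordType τ K}

/-- A good place of degree one with a Frobenius element. -/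
structure Frb (A : AR M) where
  w : Plc
  p : Pr
  hp : w.p = p
  big : 11 ≤ (p : ℕ)
  notS : p ∉ M.S
  φ : ℂ ≃ₐ[K] ℂ
  frob : IsFrob w p (A.res φ)
  ine : Ine w ≤ A.res.range
  unit : ∀ η, A.S.Θ (hw η) = 0 ∨ w.V (A.S.Θ (hw η)) = 1

/-- the residue field -/
abbrev kk (w : Plc) : Type := IsLocalRing.ResidueField w.V.valuationSubring

/-- the reduction -/
def rd (w : Plc) (x : Qbar) : kk w :=
  if h : x ∈ w.V.valuationSubring then IsLocalRing.residue _ (⟨x, h⟩ : w.V.valuationSubring) else 0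

/-- `R` is the reduction of the theta system. -/
structure RedOf {A : AR M} (v : Frb A) (R : FSys (kk v.w) v.p) : Prop where
  int : ∀ x, v.w.V (A.S.Θ x) ≤ 1
  π : R.π = M.ρ v.φ
  Θ : ∀ x, R.Θ x = rd v.w (A.S.Θ x)
  e : ∀ x, R.e x = rd v.w (A.S.e x)

/-- four unit roots and four roots divisible by `p` -/
def Ordi (p : Pr) (P : ℤ[X]) : Prop := ∃ Pu Pn : ℤ_[p][X], P.map (Int.castRingHom _) = Pu * Pn ∧
  Pu.Monic ∧ Pn.Monic ∧ Pu.natDegree = gg ∧ Pn.natDegree = gg ∧ IsUnit (Pu.coeff 0) ∧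
    ∀ i < gg, ((p : ℕ) : ℤ_[p]) ^ (gg - i) ∣ Pn.coeff i

/-- The ordinary filtration. -/
structure Fil {A : AR M} (v : Frb A) (R : FSys (kk v.w) v.p) (V0 : Submodule ℚ_[v.p] (Vl v.p)) :
    Prop where
  rank : Module.finrank ℚ_[v.p] V0 = gg
  iso : ∀ x ∈ V0, ∀ y ∈ V0, Ef x y = 0
  le : ∀ x ∈ V0, x ∈ R.K0 v.p
  max : ∀ U : Submodule ℚ_[v.p] (Vl v.p), (∀ x ∈ U, x ∈ R.K0 v.p) → U ≤ V0
  frob : ∀ x ∈ V0, (M.ρ v.φ v.p).val.map (↑) *ᵥ x ∈ V0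
  unr : ∀ σ, A.res σ ∈ Ine v.w → ∀ l ≠ v.p, M.ρ σ l = 1
  ine : ∀ σ, A.res σ ∈ Ine v.w → ∃ χ : ℤ_[v.p]ˣ,
    (∀ a : ℚ_[v.p], A.res σ (A.S.e (sg v.p a)) = A.S.e (sg v.p ((χ : ℤ_[v.p]) * a))) ∧
    (∀ x ∈ V0, (M.ρ σ v.p).val.map (↑) *ᵥ x = ((χ : ℤ_[v.p]) : ℚ_[v.p]) • x) ∧
    ∀ x : Vl v.p, (M.ρ σ v.p).val.map (↑) *ᵥ x - x ∈ V0

/-- the type norm as an adelic matrix -/
def nuA {P : ℤ[X]} {p : ℕ} {E : Type} [Field E] [NumberField E] (d : DF P p E)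
    (π : ∀ l : Pr, GL (I2 gg) ℤ_[l]) (a : 𝓞 E) : M8 AF := aeval (mA π) (d.f a)

/-- the lattice `h Λ` is standard at `p` -/
def StdAt (p : Pr) (h : M8 AF) : Prop :=
  ∀ x : Vl p, (∀ i, ‖(h.map (cp p) *ᵥ x) i‖ ≤ 1) ↔ ∀ i, ‖x i‖ ≤ 1

end

/-- Block A. -/
def AStmt : Prop := ∀ τ, Sieg τ → ∀ (K : IntermediateField ℚ ℂ), FiniteDimensional ℚ K →
  ee (1 / 8) ∈ K → ∀ M : MumfordType τ K, Nonempty (AR M)

/-- the algebraic and the analytic description of the theta functions agree -/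
def GH : Prop := ∀ τ, Sieg τ → ∀ K (M : MumfordType τ K) (A : AR M) (m : ℕ), 0 < m →
  ∀ f : W → Qbar, f ∈ A.S.G m ↔ (fun x => jC (f x)) ∈ HH τ m

/-- the reduction exists -/
def REDS : Prop := ∀ τ K (M : MumfordType τ K) (A : AR M) (v : Frb A), ∃ R, RedOf v R

/-- the supremum of a theta function is attained at a point prime to `p` -/
def LAT : Prop := ∀ τ K (M : MumfordType τ K) (A : AR M), Sieg τ → ∀ (v : Frb A) (m : ℕ), ∀ f ∈ A.S.G m,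
  ∃ x₀ ∈ Wp v.p, ∀ x, v.w.V (f x) ≤ v.w.V (f x₀)

/-- integral theta functions of weight and level prime to `p` reduce to theta functions -/
def REDG : Prop := ∀ τ K (M : MumfordType τ K) (A : AR M), Sieg τ → ∀ (v : Frb A) (R), RedOf v R →
  ∀ m : ℕ, ¬ (v.p : ℕ) ∣ m → ∀ f ∈ A.S.G m,
    (∀ t : Vl v.p, (∀ i, ‖t i‖ ≤ 1) → Rt A.S.e m (sgv v.p t) f = f) → (∀ x, v.w.V (f x) ≤ 1) →
      (fun x => rd v.w (f x)) ∈ R.G m

/-- ordinarity in Galois form -/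
def ORD : Prop := ∀ τ K (M : MumfordType τ K) (A : AR M), Sieg τ → ∀ (v : Frb A) (R), RedOf v R →
  ∀ P, IsCh v.p R.π P → Ordi v.p P → (P.map (Int.castRingHom ℚ)).Separable →
    ∃ V0, Fil v R V0 ∧ ∀ Q : ℚ_[v.p][X],
      (∀ x : Vl v.p, aeval ((M.ρ v.φ v.p).val.map ((↑) : ℤ_[v.p] → ℚ_[v.p])) Q *ᵥ x ∈ V0) →
        ∀ u : PadicAlgCl v.p, aeval u P = 0 → ‖u‖ = 1 → aeval u Q = 0

/-- Block D: the choice of the place. -/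
def DPL : Prop := ∀ τ K (M : MumfordType τ K) (A : AR M), Sieg τ → FiniteDimensional ℚ K →
  ∃ (v : Frb A) (P : ℤ[X]), IsCh v.p (M.ρ v.φ) P ∧ Good P v.p ∧ Ordi v.p P

/-- Block C with its bridge: `k` partners that are zeros give `k` digits. -/
def CM : Prop := ∀ τ K (M : MumfordType τ K) (A : AR M), Sieg τ → ∀ (v : Frb A) (P : ℤ[X]),
  IsCh v.p (M.ρ v.φ) P → Good P v.p → Ordi v.p P →
  ∀ (E : Type) [Field E] [NumberField E] (d : DF P v.p E) (cj : 𝓞 E ≃+* 𝓞 E),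
  (∀ a, (cj a : E) = d.c a) → ∃ f : ℕ, f ≠ 0 ∧
  ∀ (N : ℕ) (h : M8 AF) (F : W → Qbar), Pt N h → StdAt v.p h → A.S.IsVec N h F →
    (∀ x, v.w.V (F x) ≤ 1) →
  ∀ (k : ℕ) (a β : Fin k → 𝓞 E) (r : Fin k → ℚ) (N' : Fin k → ℕ) (h' : Fin k → M8 AF)
    (F' : Fin k → W → Qbar),
    (∀ i, IsCoprime (a i) (f : 𝓞 E) ∧ (f : 𝓞 E) ∣ β i - a i) →
    (∀ i, Pt (N' i) (h' i) ∧ StdAt v.p (h' i) ∧ A.S.IsVec (N' i) (h' i) (F' i) ∧ F' i ≠ 0) →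
    (∀ i, (N' i : ℚ) * r i ^ 2 * Algebra.norm ℚ (β i : E) = N * Algebra.norm ℚ (a i : E)) →
    (∀ i, ∀ x ∈ Wp v.p, ∀ y ∈ Wp v.p, nuA d (M.ρ v.φ) (a i) *ᵥ h' i *ᵥ y =
      r i • nuA d (M.ρ v.φ) (β i) *ᵥ h *ᵥ x → (x ∈ L0 ↔ y ∈ L0)) →
    (∀ i i', i ≠ i' → Dif cj (a i) (β i) (a i') (β i')) →
  ∀ (J : Type) (Q : MvPolynomial J ℤ) (n : ℕ) (x : J → W) (x' : Fin k → J → W),
    Q.IsHomogeneous n → (∀ j, x j ∈ Wp v.p) → (∀ i j, x' i j ∈ Wp v.p) →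
    (∀ i j, nuA d (M.ρ v.φ) (a i) *ᵥ x' i j = r i • nuA d (M.ρ v.φ) (β i) *ᵥ x j) →
    (∀ i, MvPolynomial.aeval (fun j => F' i (x' i j)) Q = 0) →
    v.w.V (MvPolynomial.aeval (fun j => F (x j)) Q) ≤ v.w.V v.w.p ^ k

/-- The form vanishes on the whole orbit at `l`. -/
def Kill {τ : Matrix (Fin gg) (Fin gg) ℂ} {K : IntermediateField ℚ ℂ} (M : MumfordType τ K) (l : Pr)
    (e : ℕ) {r D : ℕ} (z : Fin r → ℤ) (ch : Fin r → Fin D → I2 gg → ℤ) : Prop :=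
  ∀ (j : ℕ) (g : M2 (AdjoinRoot (M.D l).c)) (h : M8 AF) (F : W → ℂ),
    g.det = ((l : ℕ) : AdjoinRoot (M.D l).c) ^ (2 * j) →
    (∀ l' ≠ l, h.map (cp l') = 1) →
    ((l : ℕ) : ℚ_[l]) ^ (nn * j) • h.map (cp l) = ((M.D l).Nm g).map (↑) →
    F ∈ HH τ 1 → (∀ t ∈ L0, UU 1 (h *ᵥ t) F = chi0 t • F) →
    qv z ch (fun a => ee (Qf (zc a) / 2) *
      F (h *ᵥ sgv l fun n => (a n : ℚ_[l]) / ((l : ℕ) : ℚ_[l]) ^ e)) = 0

/-- Blocks E and F with their glue: a relation on the whole orbit in every large family. -/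
def ZL2 : Prop := ∀ τ, Sieg τ → ∀ (K : IntermediateField ℚ ℂ), FiniteDimensional ℚ K →
  ee (1 / 8) ∈ K → ∀ M : MumfordType τ K,
  ∃ l ∉ M.S, (l : ℕ) ≠ 2 ∧ ∀ F : Fam l, ∃ (e : ℕ) (z : Fin (F.r e) → ℤ), F.e0 ≤ e ∧ z ≠ 0 ∧
    Kill M l e z (F.ch e)

/-- A relation on the whole orbit that is not zero on the Siegel space. -/
def ZL : Prop := ∀ τ, Sieg τ → ∀ (K : IntermediateField ℚ ℂ), FiniteDimensional ℚ K →
  ee (1 / 8) ∈ K → ∀ M : MumfordType τ K,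
  ∃ l ∉ M.S, (l : ℕ) ≠ 2 ∧ ∃ (e r : ℕ) (z : Fin r → ℤ) (ch : Fin r → Fin gg → I2 gg → ℤ),
    (∃ τ', Sieg τ' ∧ qv z ch (Thm ((l : ℕ) ^ e) τ') ≠ 0) ∧ Kill M l e z ch

theorem zl_of_zl2 (hF : FInd) (h : ZL2) : ZL := fun τ hτ K hK h8 M => by
  obtain ⟨l, hl, h2, h⟩ := h τ hτ K hK h8 M
  have hp : ∀ e, 1 ≤ (l : ℕ) ^ e := fun e => Nat.one_le_pow _ _ l.2.pos
  choose r ch h3 h4 h5 using fun e => hF _ (hp e)
  obtain ⟨e, z, -, hz, hk⟩ := h ⟨3 ^ (gg * gg) + 2 * (gg * gg) + gg, 1, fun _ => gg, r, ch,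
    fun e he => (Nat.le_add_left _ _).trans (Nat.le_mul_of_pos_right _ he),
    fun e _ => ((Nat.pow_le_pow_right (hp e) (by have := kx_ge.1; omega)).trans (h3 e)).trans
      (Nat.mul_le_mul_right _ ((Nat.le_add_right _ _).trans (Nat.le_add_right _ _))),
    fun e _ => (h4 e).trans (Nat.pow_le_pow_right (hp e)
      ((Nat.le_add_left _ _).trans (Nat.le_add_right _ _)))⟩
  refine ⟨l, hl, h2, e, _, z, ch e, ?_, hk⟩
  by_contra! hc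
  exact hz (funext fun i => Int.cast_eq_zero.1 (congrFun (h5 e (fun i => (z i : ℂ)) hc) i))

end Pool.Agent.MT
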