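import Pool.Agent.Lib.MP_d61fbb_ag.MN.R1a
import Pool.Agent.Lib.MP_d61fbb_ag.MT.A4

/-! Many independent monomials in the theta values of one abelian variety with many level
structures. -/

set_option autoImplicit false

noncomputable section

namespace Pool.Agent.MT.R

open Finset Complex Matrix Filter Topology

variable {ι κ : Type} {m : ℕ}

/-- the reduced representative -/
def lf (u : ι → ZMod m) : ι → ℤ := fun i => (u i).val

/-- periodic functions -/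
def Per {α : Type} (m : ℕ) (F : (ι → ℤ) → α) : Prop := ∀ a t, F (a + (m : ℤ) • t) = F a

theorem Per.sum [Fintype ι] [DecidableEq ι] [NeZero m] {α : Type} [AddCommMonoid α]
    {F : (ι → ℤ) → α} (h : Per m F) (T T' : (ι → ℤ) → ι → ℤ) (h1 : ∀ a, T (T' a) = a)
    (h2 : ∀ a t, ∃ t', T (a + (m : ℤ) • t) = T a + (m : ℤ) • t') :
    ∑ u : ι → ZMod m, F (T (lf u)) = ∑ u : ι → ZMod m, F (lf u) := by
  have k : ∀ a : ι → ℤ, ∃ t, lf (fun i => (a i : ZMod m)) = a + (m : ℤ) • t := fun a =>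
    ⟨fun i => -(a i / m), funext fun i => by
      simp only [lf, ZMod.val_intCast, Pi.add_apply, Pi.smul_apply, smul_eq_mul]
      rw [Int.emod_def]; ring⟩
  let e : (ι → ZMod m) → ι → ZMod m := fun u i => (T (lf u) i : ZMod m)
  have he : Function.Surjective e := fun u => ⟨fun i => (T' (lf u) i : ZMod m), funext fun i => by
    obtain ⟨t, ht⟩ := k (T' (lf u))
    obtain ⟨t', ht'⟩ := h2 (T' (lf u)) t
    simp only [e]
    rw [ht, ht', h1]
    simp [lf]⟩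
  refine Fintype.sum_bijective e (Finite.surjective_iff_bijective.1 he) _ _ fun u => ?_
  obtain ⟨t, ht⟩ := k (T (lf u))
  rw [ht, h]

variable [Fintype κ] [DecidableEq κ]

/-- the vector of values -/
def vec (m : ℕ) : ((κ ⊕ κ → ℤ) → ℂ) →ₗ[ℂ] EuclideanSpace ℂ (κ ⊕ κ → ZMod m) where
  toFun F := WithLp.toLp 2 fun u => F (lf u)
  map_add' _ _ := rfl
  map_smul' _ _ := rfl

/-- the Heisenberg translations -/
def tr (m : ℕ) (b : κ ⊕ κ → ℤ) : ((κ ⊕ κ → ℤ) → ℂ) →ₗ[ℂ] (κ ⊕ κ → ℤ) → ℂ where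
  toFun F a := ee ((Ef a b : ℤ) / (2 * m ^ 2)) * F (a + b)
  map_add' _ _ := funext fun _ => mul_add _ _ _
  map_smul' _ _ := funext fun _ => mul_left_comm _ _ _

/-- quasi-periodic functions -/
def Wq (m : ℕ) (χ : (κ ⊕ κ → ℤ) → ℂ) : Submodule ℂ ((κ ⊕ κ → ℤ) → ℂ) where
  carrier := {F | ∀ a t, F (a + (m : ℤ) • t) = χ t * ee ((Ef a t : ℤ) / (2 * m)) * F a}
  zero_mem' _ _ := (mul_zero _).symm
  add_mem' {F G} hF hG a t := by rw [Pi.add_apply, Pi.add_apply, hF, hG, mul_add]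
  smul_mem' c F hF a t := by rw [Pi.smul_apply, Pi.smul_apply, hF, smul_eq_mul, smul_eq_mul]; ring

omit [DecidableEq κ] in
theorem tr_apply (b a : κ ⊕ κ → ℤ) (F : (κ ⊕ κ → ℤ) → ℂ) :
    tr m b F a = ee ((Ef a b : ℤ) / (2 * m ^ 2)) * F (a + b) := rfl

theorem norm_ee (n : ℤ) (d : ℝ) : ‖ee (n / d)‖ = 1 := by
  rw [← fc_norm_ee (n / d)]; push_cast; rfl

omit [DecidableEq κ] in
theorem tr_comm (b c : κ ⊕ κ → ℤ) (F : (κ ⊕ κ → ℤ) → ℂ) :
    tr m b (tr m c F) = ee ((Ef b c : ℤ) / ((m ^ 2 : ℕ) : ℂ)) • tr m c (tr m b F) := by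
  funext a
  simp only [tr_apply, Pi.smul_apply, smul_eq_mul, ← mul_assoc, ← ee_add, add_right_comm a c b,
    Ef_add_left, Ef_swap c b]
  congr 2
  push_cast
  ring

variable [NeZero m] {χ : (κ ⊕ κ → ℤ) → ℂ} {F G : (κ ⊕ κ → ℤ) → ℂ}

omit [DecidableEq κ] in
theorem tr_mem (b : κ ⊕ κ → ℤ) (h : F ∈ Wq m χ) : tr m b F ∈ Wq m χ := fun a t => by
  have hm : (m : ℂ) ≠ 0 := by exact_mod_cast NeZero.ne m
  rw [tr_apply, tr_apply, add_right_comm, h, Ef_add_left, Ef_add_left, Ef_smul_left, Ef_swap t b]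
  simp only [mul_comm (χ t), mul_assoc]
  simp only [← mul_assoc, ← ee_add]
  congr 3
  push_cast
  field_simp
  ring

theorem inner_vec (F G : (κ ⊕ κ → ℤ) → ℂ) : inner ℂ (vec m F) (vec m G) =
    ∑ u : κ ⊕ κ → ZMod m, (starRingEnd ℂ) (F (lf u)) * G (lf u) := by
  simp [vec, PiLp.inner_apply, mul_comm]

omit [DecidableEq κ] [NeZero m] in
theorem per_mul (hχ : ∀ t, ‖χ t‖ = 1) (hF : F ∈ Wq m χ) (hG : G ∈ Wq m χ) :
    Per m fun a => (starRingEnd ℂ) (F a) * G a := fun a t => by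
  have h : ‖χ t * ee ((Ef a t : ℤ) / (2 * m))‖ = 1 := by
    have := norm_ee (Ef a t) (2 * m)
    push_cast at this
    rw [norm_mul, hχ, this, mul_one]
  simp only
  rw [hF, hG, map_mul, mul_mul_mul_comm, conj_mul', h]
  simp

theorem norm_congr {x y : EuclideanSpace ℂ (κ ⊕ κ → ZMod m)} (h : inner ℂ x x = inner ℂ y y) :
    ‖x‖ = ‖y‖ := by rw [norm_eq_sqrt_re_inner (𝕜 := ℂ), h, ← norm_eq_sqrt_re_inner]

theorem norm_tr (hχ : ∀ t, ‖χ t‖ = 1) (b : κ ⊕ κ → ℤ) (h : F ∈ Wq m χ) :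
    ‖vec m (tr m b F)‖ = ‖vec m F‖ := by
  refine norm_congr ?_
  rw [inner_vec, inner_vec, ← (per_mul hχ h h).sum (· + b) (· - b) (sub_add_cancel · b)
    fun a t => ⟨t, add_right_comm _ _ _⟩]
  refine sum_congr rfl fun u _ => ?_
  have := norm_ee (Ef (lf u) b) (2 * m ^ 2)
  push_cast at this
  rw [tr_apply, map_mul, mul_mul_mul_comm, conj_mul', this]
  simp

/-- two translations that almost fix a vector almost commute -/
theorem comm_near (hχ : ∀ t, ‖χ t‖ = 1) (h : F ∈ Wq m χ) (h0 : 0 < ‖vec m F‖) {b c : κ ⊕ κ → ℤ}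
    (hb : ‖vec m (tr m b F - F)‖ ≤ 3 / 16 * ‖vec m F‖)
    (hc : ‖vec m (tr m c F - F)‖ ≤ 1 / 16 * ‖vec m F‖) :
    ‖ee ((Ef b c : ℤ) / ((m ^ 2 : ℕ) : ℂ)) - 1‖ < 1 := by
  have e : (ee ((Ef b c : ℤ) / ((m ^ 2 : ℕ) : ℂ)) - 1) • vec m (tr m c (tr m b F)) =
      (vec m (tr m b (tr m c F - F)) + vec m (tr m b F - F)) -
        (vec m (tr m c (tr m b F - F)) + vec m (tr m c F - F)) := by
    rw [sub_smul, ← map_smul, ← tr_comm, one_smul]
    simp only [map_sub]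
    abel
  have h1 := congrArg norm e
  rw [norm_smul, norm_tr hχ c (tr_mem b h), norm_tr hχ b h] at h1
  have h2 := norm_tr hχ b (sub_mem (tr_mem c h) h)
  have h3 := norm_tr hχ c (sub_mem (tr_mem b h) h)
  have h4 := (h1.le.trans (norm_sub_le _ _)).trans (add_le_add (norm_add_le _ _) (norm_add_le _ _))
  nlinarith

/-- a vector that is nearly parallel to an almost fixed vector is almost fixed -/
theorem near_fix (hχ : ∀ t, ‖χ t‖ = 1) (hF : F ∈ Wq m χ) (hG : G ∈ Wq m χ) (h0 : 0 < ‖vec m F‖)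
    (e : ‖vec m G‖ = ‖vec m F‖)
    (h : 511 / 512 * ‖vec m F‖ ^ 2 ≤ ‖inner ℂ (vec m F) (vec m G)‖) {b : κ ⊕ κ → ℤ}
    (hb : ‖vec m (tr m b F - F)‖ ≤ 1 / 16 * ‖vec m F‖) :
    ‖vec m (tr m b G - G)‖ ≤ 3 / 16 * ‖vec m F‖ := by
  set p := inner ℂ (vec m F) (vec m G) with hp
  have p0 : 0 < ‖p‖ := lt_of_lt_of_le (by positivity) h
  let u : ℂ := p / (‖p‖ : ℝ)
  have hu : ‖u‖ = 1 := by simp [u, p0.ne']
  have h1 : ‖vec m (u • F - G)‖ ≤ 1 / 16 * ‖vec m F‖ := by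
    refine abs_le_of_sq_le_sq' ?_ (by positivity) |>.2
    rw [map_sub, map_smul, norm_sub_sq (𝕜 := ℂ), norm_smul, hu, inner_smul_left, ← hp, e]
    have : (starRingEnd ℂ) u * p = (‖p‖ : ℝ) := by
      have h2 : ((‖p‖ : ℝ) : ℂ) ≠ 0 := by exact_mod_cast p0.ne'
      rw [map_div₀, conj_ofReal, div_mul_eq_mul_div, conj_mul']
      field_simp
    rw [this]
    simp only [RCLike.re_to_complex, ofReal_re]
    nlinarith
  have h2 := norm_tr hχ b (sub_mem (Submodule.smul_mem _ u hF) hG)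
  have h3 : vec m (tr m b G - G) = u • vec m (tr m b F - F) - vec m (tr m b (u • F - G)) +
      vec m (u • F - G) := by
    simp only [map_sub, map_smul, smul_sub]
    abel
  rw [h3]
  refine ((norm_add_le _ _).trans (add_le_add (norm_sub_le _ _) le_rfl)).trans ?_
  rw [norm_smul, hu, h2]
  linarith

/-- the values at the points of order `m` -/
def vm (m : ℕ) (f : (ι → ℝ) → ℂ) (a : ι → ℤ) : ℂ := f fun i => a i / m

/-- the data of a theta function on real points -/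
structure Qp (f : (κ ⊕ κ → ℝ) → ℂ) (χ : (κ ⊕ κ → ℤ) → ℂ) : Prop where
  cont : Continuous f
  ne : ∃ x, f x ≠ 0
  one : ∀ t, ‖χ t‖ = 1
  per : ∀ x (t : κ ⊕ κ → ℤ), f (x + fun i => (t i : ℝ)) = χ t * ee (Ef (rc x) (zc t) / 2) * f x

variable {f : (κ ⊕ κ → ℝ) → ℂ}

omit [DecidableEq κ] in
theorem Qp.mem (h : Qp f χ) : vm m f ∈ Wq m χ := fun a t => by
  have hm : (m : ℝ) ≠ 0 := by exact_mod_cast NeZero.ne m
  have e : (rc fun i => (a i : ℝ) / m) = (m : ℂ)⁻¹ • zc a := funext fun i => by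
    simp [div_eq_inv_mul]
  have := h.per (fun i => a i / m) t
  rw [e, Ef_smul_left, Ef_zc] at this
  rw [vm, vm, show ((Ef a t : ℤ) : ℂ) / (2 * m) = (m : ℂ)⁻¹ * (Ef a t : ℤ) / 2 by ring, ← this]
  congr 1
  funext i
  simp only [Pi.add_apply, Pi.smul_apply, smul_eq_mul]
  push_cast
  field_simp

omit [NeZero m] in
theorem Qp.lower (h : Qp f χ) : ∃ c : ℝ, 0 < c ∧ ∃ m₀ : ℕ, ∀ (m : ℕ) [NeZero m], m₀ ≤ m →
    c * m ^ Fintype.card (κ ⊕ κ) ≤ ‖vec m (vm m f)‖ ^ 2 := by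
  obtain ⟨x, hx⟩ := h.ne
  have h0 := norm_pos_iff.2 hx
  obtain ⟨δ, d0, hδ⟩ := Metric.eventually_nhds_iff_ball.1
    (h.cont.norm.continuousAt.eventually (lt_mem_nhds (half_lt_self h0)))
  obtain ⟨ε, e0, e1, e2⟩ : ∃ ε : ℝ, 0 < ε ∧ ε < δ ∧ ε ≤ 1 :=
    ⟨min (δ / 2) 1, by positivity, (min_le_left _ _).trans_lt (half_lt_self d0), min_le_right _ _⟩
  obtain ⟨m₀, hm₀⟩ := exists_nat_ge (2 / ε)
  refine ⟨(ε / 2) ^ Fintype.card (κ ⊕ κ) * (‖f x‖ / 2) ^ 2, by positivity, m₀, fun m _ hm => ?_⟩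
  have m0 : (0 : ℝ) < m := by exact_mod_cast NeZero.pos m
  have k0 : 2 ≤ ε * m := by
    rw [div_le_iff₀ e0] at hm₀
    have : (m₀ : ℝ) ≤ m := by exact_mod_cast hm
    nlinarith
  obtain ⟨K, k1, k2⟩ : ∃ K : ℕ, K ≤ ε * m ∧ ε * m < K + 1 :=
    ⟨_, Nat.floor_le (by positivity), Nat.lt_floor_add_one _⟩
  have k3 : K ≤ m := by
    have : (K : ℝ) ≤ m := by nlinarith
    exact_mod_cast this
  let a₀ : κ ⊕ κ → ℤ := fun i => ⌈m * x i⌉
  have hp : Per m fun a => ‖vm m f a‖ ^ 2 := fun a t => by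
    have := norm_ee (Ef a t) (2 * m)
    push_cast at this
    simp only
    rw [h.mem, norm_mul, norm_mul, h.one, this, one_mul, one_mul]
  have hl : ∀ (k : κ ⊕ κ → Fin K) i, lf (fun i => ((k i : ℕ) : ZMod m)) i = (k i : ℕ) := fun k i => by
    simp only [lf]
    rw [ZMod.val_natCast_of_lt ((k i).2.trans_le k3)]
  let j : (κ ⊕ κ → Fin K) ↪ κ ⊕ κ → ZMod m := ⟨fun k i => ((k i : ℕ) : ZMod m), fun k k' e =>
    funext fun i => Fin.ext (by
      have := hl k i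
      rw [show (fun i => ((k i : ℕ) : ZMod m)) = _ from e, hl] at this
      exact_mod_cast this.symm)⟩
  rw [EuclideanSpace.norm_sq_eq]
  refine le_trans ?_ (hp.sum (· + a₀) (· - a₀) (sub_add_cancel · a₀)
    fun a t => ⟨t, add_right_comm _ _ _⟩).le
  refine le_trans ?_ (sum_le_sum_of_subset_of_nonneg (subset_univ (univ.map j))
    fun _ _ _ => by positivity)
  rw [sum_map]
  refine le_trans ?_ (card_nsmul_le_sum _ _ ((‖f x‖ / 2) ^ 2) fun k _ => ?_)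
  · rw [nsmul_eq_mul, mul_right_comm, ← mul_pow, card_univ, Fintype.card_fun, Fintype.card_fin]
    push_cast
    gcongr
    linarith
  · refine pow_le_pow_left₀ (by positivity) (hδ _ ?_).le 2
    refine ((dist_pi_le_iff e0.le).2 fun i => ?_).trans_lt e1
    have c1 := Int.le_ceil (m * x i)
    have c2 := Int.ceil_lt_add_one (m * x i)
    have c3 : ((k i : ℕ) : ℝ) + 1 ≤ K := by exact_mod_cast (k i).2
    have c4 : (0 : ℝ) ≤ (k i : ℕ) := by positivity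
    rw [Pi.add_apply, show lf (j k) i = _ from hl k i, Real.dist_eq, div_sub' m0.ne', abs_div,
      abs_of_pos m0, div_le_iff₀ m0, abs_le]
    simp only [a₀]
    push_cast
    constructor <;> linarith

omit [NeZero m] in
theorem Qp.key (h : Qp f χ) : ∃ ε : ℝ, 0 < ε ∧ ∃ m₀ : ℕ, ∀ (m : ℕ) [NeZero m], m₀ ≤ m →
    0 < ‖vec m (vm m f)‖ ∧ ∀ b : κ ⊕ κ → ℤ, (∀ i, |(b i : ℝ)| ≤ ε * m) →
      ‖vec m (tr m b (vm m f) - vm m f)‖ ≤ 1 / 16 * ‖vec m (vm m f)‖ := by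
  obtain ⟨c, c0, m₀, hc⟩ := h.lower
  have hf := h.cont
  have hG : Continuous fun z : (κ ⊕ κ → ℝ) × (κ ⊕ κ → ℝ) =>
      ‖ee (Ef (rc z.2) (rc z.1) / 2) * f (z.2 + z.1) - f z.2‖ ^ 2 := by
    have := ee_diff.continuous
    simp only [Ef, dotProduct, Function.comp_def]
    fun_prop
  obtain ⟨δ, d0, hδ⟩ := Metric.eventually_nhds_iff_ball.1
    ((isCompact_closedBall (0 : κ ⊕ κ → ℝ) 1).eventually_forall_of_forall_eventually (x₀ := 0)
      (P := fun y x => ‖ee (Ef (rc x) (rc y) / 2) * f (x + y) - f x‖ ^ 2 < c / 256) fun x _ =>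
        hG.continuousAt.eventually (gt_mem_nhds (by
          simp [show rc (0 : κ ⊕ κ → ℝ) = 0 from funext fun _ => ofReal_zero, c0])))
  refine ⟨δ / 2, by positivity, m₀, fun m _ hm => ?_⟩
  have m0 : (0 : ℝ) < m := by exact_mod_cast NeZero.pos m
  have h1 := hc m hm
  refine ⟨(norm_nonneg _).lt_of_ne fun e => ?_, fun b hb => ?_⟩
  · rw [← e] at h1
    have : 0 < c * m ^ Fintype.card (κ ⊕ κ) := by positivity
    linarith
  refine abs_le_of_sq_le_sq' ?_ (by positivity) |>.2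
  rw [EuclideanSpace.norm_sq_eq]
  refine (sum_le_card_nsmul _ _ (c / 256) fun u _ => ?_).trans ?_
  · have := hδ (fun i => b i / m) (((dist_pi_le_iff (half_pos d0).le).2 fun i => by
      rw [Pi.zero_apply, dist_zero_right, Real.norm_eq_abs, abs_div, abs_of_pos m0, div_le_iff₀ m0]
      exact hb i).trans_lt (half_lt_self d0)) (fun i => lf u i / m)
      ((dist_pi_le_iff one_pos.le).2 fun i => by
        rw [Pi.zero_apply, dist_zero_right, Real.norm_eq_abs, abs_div, abs_of_pos m0,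
          div_le_one m0]
        have := (u i).val_lt.le
        simp only [lf, Int.cast_natCast, Nat.abs_cast]
        exact_mod_cast this)
    have e : ∀ a : κ ⊕ κ → ℤ, (rc fun i => (a i : ℝ) / m) = (m : ℂ)⁻¹ • zc a := fun a =>
      funext fun i => by simp [div_eq_inv_mul]
    rw [e, e, Ef_smul_left, Ef_smul_right, Ef_zc] at this
    refine le_of_eq_of_le (congrArg (fun z : ℂ => ‖z‖ ^ 2) ?_) this.le
    change ee _ * f _ - f _ = _
    congr 3
    · ring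
    · funext i
      simp [add_div]
  · rw [nsmul_eq_mul, card_univ, Fintype.card_fun, ZMod.card]
    push_cast
    nlinarith

omit [NeZero m] in
/-- The values of monomials of logarithmic degree separate the level structures. -/
theorem gram (h : Qp f χ) {Γ : Type} [Group Γ] (ρ : Γ →* Matrix (κ ⊕ κ) (κ ⊕ κ) ℤ)
    (hE : ∀ γ x y, Ef (ρ γ *ᵥ x) (ρ γ *ᵥ y) = Ef x y) (hχ : ∀ γ t, χ (ρ γ *ᵥ t) = χ t) :
    ∃ C m₀ : ℕ, ∀ m, m₀ ≤ m → ∀ (X : Type) [Fintype X] (γ : X → Γ),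
      (∀ x y, (∀ i j, (m : ℤ) ^ 2 ∣ ρ (γ x) i j - ρ (γ y) i j) → x = y) →
      ∃ (r : ℕ) (ch : Fin r → Fin (512 * (Nat.log 2 (Fintype.card X) + 1)) → κ ⊕ κ → ℤ),
        Fintype.card X ≤ C * r ∧ r ≤ Fintype.card X ∧
        ∀ c : Fin r → ℂ, (∀ x, ∑ j, c j * ∏ k, vm m f (ρ (γ x) *ᵥ ch j k) = 0) → c = 0 := by
  classical
  obtain ⟨ε, e0, m₀, hk⟩ := h.key
  obtain ⟨B, hB⟩ := exists_nat_ge (2 / ε)
  refine ⟨(2 * B ^ 2 + 1) ^ (Fintype.card (κ ⊕ κ) * Fintype.card (κ ⊕ κ)), max (max m₀ B) 1,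
    fun m hm X _ γ hγ => ?_⟩
  have : NeZero m := ⟨by omega⟩
  have m0 : (0 : ℝ) < m := by exact_mod_cast NeZero.pos m
  obtain ⟨n0, hb⟩ := hk m (by omega)
  set v := vm m f
  have hv : v ∈ Wq m χ := h.mem
  let cm (g : Γ) (F : (κ ⊕ κ → ℤ) → ℂ) (a : κ ⊕ κ → ℤ) : ℂ := F (ρ g *ᵥ a)
  have c1 : ∀ g, ∀ F ∈ Wq m χ, cm g F ∈ Wq m χ := fun g F hF a t => by
    simp only [cm]
    rw [mulVec_add, mulVec_smul, hF, hE, hχ]
  have c2 : ∀ g, ∀ F ∈ Wq m χ, ∀ G ∈ Wq m χ,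
      inner ℂ (vec m (cm g F)) (vec m (cm g G)) = inner ℂ (vec m F) (vec m G) := fun g F hF G hG => by
    rw [inner_vec, inner_vec]
    exact (per_mul h.one hF hG).sum (ρ g *ᵥ ·) (ρ g⁻¹ *ᵥ ·)
      (fun a => by rw [mulVec_mulVec, ← map_mul, mul_inv_cancel, map_one, one_mulVec])
      fun a t => ⟨ρ g *ᵥ t, by rw [mulVec_add, mulVec_smul]⟩
  have c3 : ∀ g, ∀ F ∈ Wq m χ, ‖vec m (cm g F)‖ = ‖vec m F‖ := fun g F hF =>
    norm_congr (c2 g F hF F hF)
  obtain ⟨K, k1, k2⟩ : ∃ K : ℕ, K ≤ ε * m ∧ ε * m < K + 1 :=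
    ⟨_, Nat.floor_le (by positivity), Nat.lt_floor_add_one _⟩
  have k0 : 2 ≤ ε * m := by
    rw [div_le_iff₀ e0] at hB
    have : (B : ℝ) ≤ m := by exact_mod_cast (by omega : B ≤ m)
    nlinarith
  have k3 : 0 < K := by
    have : (0 : ℝ) < K := by linarith
    exact_mod_cast this
  have k4 : m ≤ B * K := by
    rw [div_le_iff₀ e0] at hB
    have : (m : ℝ) ≤ B * K := by
      refine le_of_mul_le_mul_left ?_ e0
      nlinarith [(Nat.cast_nonneg K : (0 : ℝ) ≤ K)]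
    exact_mod_cast this
  have hs : ∀ (k : ℕ) (i : κ ⊕ κ), k ≤ K → ∀ j, |((Pi.single i k : κ ⊕ κ → ℤ) j : ℝ)| ≤ ε * m :=
    fun k i hk j => by
      have : (k : ℝ) ≤ K := by exact_mod_cast hk
      by_cases e : j = i
      · subst e; simpa using this.trans k1
      · simp [e]; positivity
  have main : ∀ g, 511 / 512 * ‖vec m v‖ ^ 2 ≤ ‖inner ℂ (vec m v) (vec m (cm g v))‖ →
      ∀ i j, ∃ y : ℤ, (m : ℤ) ^ 2 ∣ ρ g i j - y ∧ |y| ≤ B ^ 2 := fun g hg i j => by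
    have h1 : ∀ k s : ℕ, k ≤ K → s ≤ K → ∀ i', ‖ee ((Ef (ρ g *ᵥ Pi.single j (k : ℤ))
        (Pi.single i' (s : ℤ)) : ℤ) / ((m ^ 2 : ℕ) : ℂ)) - 1‖ < 1 := fun k s hk hs' i' => by
      refine comm_near h.one hv n0 ?_ (hb _ (hs s i' hs'))
      have := near_fix h.one hv (c1 g v hv) n0 (c3 g v hv) hg (hb _ (hs k j hk))
      rw [← c3 g _ (sub_mem (tr_mem _ hv) hv)]
      convert this using 3
      funext a
      simp only [cm, Pi.sub_apply, tr_apply, hE, mulVec_add]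
    have h2 : ∀ y : ℤ, (∀ k s : ℕ, k ≤ K → s ≤ K →
        ‖ee ((k * s * y : ℤ) / ((m ^ 2 : ℕ) : ℂ)) - 1‖ < 1) →
        ∃ y₀ : ℤ, (m : ℤ) ^ 2 ∣ y - y₀ ∧ |y₀| ≤ B ^ 2 := fun y hy => by
      obtain ⟨y₀, a1, a2⟩ := small_res (pow_pos (NeZero.pos m) 2) k3 y hy
      refine ⟨y₀, by exact_mod_cast a1, le_of_mul_le_mul_right (a2.trans ?_)
        (by positivity : (0 : ℤ) < (K : ℤ) ^ 2)⟩
      rw [← mul_pow]
      exact_mod_cast Nat.pow_le_pow_left k4 2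
    rcases i with i | i
    · refine h2 _ fun k s hk hs' => ?_
      convert h1 k s hk hs' (.inr i) using 5
      simp [Ef, dotProduct, Pi.single_apply]
      ring
    · obtain ⟨y, a1, a2⟩ := h2 (-ρ g (.inr i) j) fun k s hk hs' => by
        convert h1 k s hk hs' (.inl i) using 5
        simp [Ef, dotProduct, Pi.single_apply]
        ring
      exact ⟨-y, by rwa [← dvd_neg, neg_sub', neg_neg] at a1, by rwa [abs_neg]⟩
  obtain ⟨S, hS, hc⟩ := greedy (fun x y : X => 511 / 512 * ‖vec m v‖ ^ 2 ≤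
      ‖inner ℂ (vec m (cm (γ x) v)) (vec m (cm (γ y) v))‖)
    (fun x y hxy => by rwa [norm_inner_symm])
    (fun x => by
      rw [inner_self_eq_norm_sq_to_K, c3 _ _ hv, norm_pow, RCLike.norm_ofReal, abs_norm]
      nlinarith)
    ((2 * B ^ 2 + 1) ^ (Fintype.card (κ ⊕ κ) * Fintype.card (κ ⊕ κ))) fun x => by
      have h1 : ∀ y : {y // 511 / 512 * ‖vec m v‖ ^ 2 ≤
          ‖inner ℂ (vec m (cm (γ x) v)) (vec m (cm (γ y) v))‖}, ∀ i j, ∃ z : Icc (-(B : ℤ) ^ 2) (B ^ 2),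
          (m : ℤ) ^ 2 ∣ ρ (γ y * (γ x)⁻¹) i j - z := fun y i j => by
        obtain ⟨z, a1, a2⟩ := main (γ y * (γ x)⁻¹) (by
          rw [← c2 (γ x) _ hv _ (c1 _ _ hv)]
          convert y.2 using 4
          funext a
          simp only [cm, mulVec_mulVec, ← map_mul, inv_mul_cancel_right]) i j
        exact ⟨⟨z, mem_Icc.2 (abs_le.1 a2)⟩, a1⟩
      choose z hz using h1
      refine (Nat.card_le_card_of_injective z fun y y' e => Subtype.ext (hγ _ _ fun i j => ?_)).trans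
        (le_of_eq ?_)
      · rw [← inv_mul_cancel_right (γ y) (γ x), ← inv_mul_cancel_right (γ y') (γ x),
          map_mul ρ _ (γ x), map_mul ρ _ (γ x), mul_apply, mul_apply, ← sum_sub_distrib]
        refine dvd_sum fun k _ => ?_
        rw [← sub_mul]
        refine Dvd.dvd.mul_right ?_ _
        convert (hz y i k).sub (hz y' i k) using 1
        rw [e]; ring
      · rw [Nat.card_fun, Nat.card_fun, Nat.card_eq_fintype_card (α := κ ⊕ κ), ← pow_mul,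
          Nat.card_eq_fintype_card, Fintype.card_coe, Int.card_Icc]
        congr 1
        have : (B : ℤ) ^ 2 + 1 - -(B : ℤ) ^ 2 = (2 * B ^ 2 + 1 : ℕ) := by push_cast; ring
        rw [this, Int.toNat_natCast]
  have hSX : Fintype.card S ≤ Fintype.card X := by rw [Fintype.card_coe]; exact card_le_univ _
  obtain ⟨w, hw⟩ := gram_indep (fun (s : S) (u : κ ⊕ κ → ZMod m) => cm (γ s) v (lf u))
    (N := ‖vec m v‖ ^ 2) (ρ := 511 / 512) (by positivity) (by norm_num)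
    (fun s => by rw [← inner_vec, inner_self_eq_norm_sq_to_K, c3 _ _ hv]; simp)
    (fun s s' e => by
      rw [← inner_vec]
      exact (not_le.1 (hS _ s.2 _ s'.2 fun e' => e (Subtype.ext e'))).le)
    (512 * (Nat.log 2 (Fintype.card X) + 1))
    (lt_of_le_of_lt (by gcongr) (card_pow_lt (Fintype.card X)))
  exact ⟨_, fun j k => lf (w j k), by rwa [Fintype.card_coe], hSX, fun c hc => hw c fun s => hc s⟩

end Pool.Agent.MT.R
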