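import Pool.Agent.Lib.MP_d61fbb_ag.MT.FC

/-! Linear algebra and combinatorics for the independence of monomials. -/

set_option autoImplicit false

noncomputable section

namespace Pool.Agent.MT.R

open Finset Complex

/-- a large set of pairwise unrelated points -/
theorem greedy {X : Type} [Fintype X] (r : X → X → Prop) (hs : ∀ x y, r x y → r y x)
    (hr : ∀ x, r x x) (C : ℕ) (hC : ∀ x, Nat.card {y // r x y} ≤ C) :
    ∃ S : Finset X, (∀ x ∈ S, ∀ y ∈ S, x ≠ y → ¬ r x y) ∧ Fintype.card X ≤ C * S.card := by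
  classical
  obtain ⟨S, hS, hm⟩ := (univ.filter fun S : Finset X => ∀ x ∈ S, ∀ y ∈ S, x ≠ y → ¬ r x y).exists_max_image
    card ⟨∅, by simp⟩
  have hS' := (mem_filter.1 hS).2
  refine ⟨S, hS', ?_⟩
  have h1 : (univ : Finset X) ⊆ S.biUnion fun s => univ.filter (r s) := fun x _ => by
    by_contra hx
    have h2 : ∀ s ∈ S, ¬ r s x := fun s h h' => hx (mem_biUnion.2 ⟨s, h, by simpa using h'⟩)
    have h3 : x ∉ S := fun h => h2 x h (hr x)
    have := hm (insert x S) (mem_filter.2 ⟨mem_univ _, fun a ha b hb hab => by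
      rcases mem_insert.1 ha with rfl | ha' <;> rcases mem_insert.1 hb with rfl | hb'
      · exact absurd rfl hab
      · exact fun h => h2 b hb' (hs _ _ h)
      · exact h2 a ha'
      · exact hS' a ha' b hb' hab⟩)
    rw [card_insert_of_notMem h3] at this
    omega
  rw [mul_comm]
  refine (card_le_card h1).trans (card_biUnion_le_card_mul _ _ _ fun s _ => ?_)
  have := hC s
  rwa [Nat.card_eq_fintype_card, Fintype.card_subtype] at this

/-- tensor powers of nearly orthogonal vectors give independent monomials -/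
theorem gram_indep {S A : Type} [Fintype S] [Fintype A] (x : S → A → ℂ) {N ρ : ℝ} (hN : 0 < N)
    (hρ : 0 ≤ ρ) (h1 : ∀ s, ∑ a, (starRingEnd ℂ) (x s a) * x s a = N)
    (h2 : ∀ s s', s ≠ s' → ‖∑ a, (starRingEnd ℂ) (x s a) * x s' a‖ ≤ ρ * N) (D : ℕ)
    (hD : Fintype.card S * ρ ^ D < 1) : ∃ w : Fin (Fintype.card S) → Fin D → A,
      ∀ c : Fin (Fintype.card S) → ℂ, (∀ s, ∑ j, c j * ∏ k, x s (w j k) = 0) → c = 0 := by
  classical
  let M : Matrix S (Fin D → A) ℂ := Matrix.of fun s w => ∏ k, x s (w k)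
  have hM : LinearIndependent ℂ M.row := by
    refine Fintype.linearIndependent_iff.2 fun c hc s₁ => ?_
    obtain ⟨s₀, -, hm⟩ := univ.exists_max_image (fun s => ‖c s‖) ⟨s₁, mem_univ _⟩
    have e1 : ∑ s, c s * (∑ a, (starRingEnd ℂ) (x s₀ a) * x s a) ^ D = 0 := by
      have e2 : ∀ s, (∑ a, (starRingEnd ℂ) (x s₀ a) * x s a) ^ D =
          ∑ w : Fin D → A, (starRingEnd ℂ) (M s₀ w) * M s w := fun s => by
        rw [← Fin.prod_const, prod_univ_sum, Fintype.piFinset_univ]
        simp only [M, Matrix.of_apply, map_prod, prod_mul_distrib]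
      simp only [e2, mul_sum]
      rw [sum_comm]
      refine sum_eq_zero fun w _ => ?_
      have := congrFun hc w
      simp only [Finset.sum_apply, Pi.smul_apply, smul_eq_mul, Matrix.row, Pi.zero_apply] at this
      simp only [mul_left_comm (c _), ← mul_sum, this, mul_zero]
    rw [← add_sum_erase _ _ (mem_univ s₀), h1, add_eq_zero_iff_eq_neg] at e1
    have e3 := congrArg norm e1
    rw [norm_neg, norm_mul, norm_pow, norm_real, Real.norm_of_nonneg hN.le] at e3
    have e4 : ‖c s₀‖ * N ^ D ≤ Fintype.card S * (‖c s₀‖ * (ρ * N) ^ D) := by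
      rw [e3]
      refine (norm_sum_le _ _).trans ((sum_le_card_nsmul _ _ (‖c s₀‖ * (ρ * N) ^ D) fun s hs => ?_).trans ?_)
      · rw [norm_mul, norm_pow]
        exact mul_le_mul (hm s (mem_univ _))
          (pow_le_pow_left₀ (norm_nonneg _) (h2 _ _ (ne_of_mem_erase hs).symm) D) (by positivity)
          (norm_nonneg _)
      · rw [nsmul_eq_mul]
        exact mul_le_mul_of_nonneg_right (by exact_mod_cast card_le_univ _) (by positivity)
    have e5 : ‖c s₀‖ * N ^ D ≤ 0 := by
      rw [mul_pow] at e4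
      have : 0 ≤ ‖c s₀‖ * N ^ D := by positivity
      nlinarith
    have e6 : ‖c s₀‖ ≤ 0 := le_of_mul_le_mul_right (by simpa using e5) (pow_pos hN D)
    exact norm_le_zero_iff.1 ((hm s₁ (mem_univ _)).trans e6)
  have h3 : Submodule.span ℂ (Set.range M.col) = ⊤ := by
    refine Submodule.eq_top_of_finrank_eq ?_
    rw [← Matrix.rank_eq_finrank_span_cols, hM.rank_matrix]
    simp
  obtain ⟨s, h4, h5⟩ := fc_extract M.col (Pi.basisFun ℂ S) (Pi.basisFun ℂ S).linearIndependent
    fun i => h3 ▸ Submodule.mem_top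
  let e : Fin (Fintype.card S) → s := fun j => s.equivFin.symm (Fin.castLE h4 j)
  have he : Function.Injective e := s.equivFin.symm.injective.comp (Fin.castLE_injective h4)
  refine ⟨fun j => (e j).1, fun c hc => funext fun j => ?_⟩
  refine Fintype.linearIndependent_iff.1 (h5.comp e he) c (funext fun s' => ?_) j
  simpa [Finset.sum_apply, Matrix.col, M] using hc s'

theorem ee_near {x : ℝ} (h : ‖ee x - 1‖ < 1) (h' : |x| ≤ 1 / 2) : |x| < 1 / 6 := by
  by_contra! h1
  have e : ee x = exp ((2 * Real.pi * x : ℝ) * I) := by rw [ee]; congr 1; push_cast; ring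
  have h2 : Real.cos (2 * Real.pi * x) ≤ 1 / 2 := by
    rw [← Real.cos_abs, abs_mul, abs_of_pos (by positivity : 0 < 2 * Real.pi), ← Real.cos_pi_div_three]
    have := Real.pi_pos
    exact Real.cos_le_cos_of_nonneg_of_le_pi (by positivity) (by nlinarith) (by nlinarith)
  have h3 : ‖ee x - 1‖ ^ 2 = 2 - 2 * Real.cos (2 * Real.pi * x) := by
    rw [e, ← normSq_eq_norm_sq, normSq_apply]
    simp only [sub_re, sub_im, exp_ofReal_mul_I_re, exp_ofReal_mul_I_im, one_re, one_im]
    nlinarith [Real.sin_sq_add_cos_sq (2 * Real.pi * x)]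
  nlinarith [norm_nonneg (ee x - 1)]

theorem ee_chain {x : ℝ} {K : ℕ} (h0 : |x| ≤ 1 / 6) (h : ∀ k : ℕ, k ≤ K → ‖ee (k * x : ℝ) - 1‖ < 1) :
    |K * x| < 1 / 6 := by
  induction K with
  | zero => simp
  | succ k ih =>
    refine ee_near (h _ le_rfl) ?_
    have := ih fun j hj => h j (by omega)
    push_cast
    rw [add_mul, one_mul]
    linarith [abs_add_le (k * x) x]

/-- an integer whose small multiples are near `q ℤ` is congruent to a small integer -/
theorem small_res {q K : ℕ} (hq : 0 < q) (hK : 0 < K) (y : ℤ)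
    (h : ∀ k s : ℕ, k ≤ K → s ≤ K → ‖ee ((k * s * y : ℤ) / (q : ℂ)) - 1‖ < 1) :
    ∃ y₀ : ℤ, (q : ℤ) ∣ y - y₀ ∧ |y₀| * K ^ 2 ≤ q := by
  have q0 : (0 : ℝ) < q := by exact_mod_cast hq
  have q1 : (q : ℂ) ≠ 0 := by exact_mod_cast hq.ne'
  let n := round ((y : ℝ) / q)
  let x : ℝ := (y : ℝ) / q - n
  have h1 : ∀ k s : ℕ, k ≤ K → s ≤ K → ‖ee (k * (s * x) : ℝ) - 1‖ < 1 := fun k s hk hs => by
    rw [← ee_congr (k * s * n) (x := (k * s * y : ℤ) / (q : ℂ))]
    · exact h k s hk hs
    · simp only [x]; push_cast; ring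
  have h2 : |x| < 1 / 6 := ee_near (by simpa using h1 1 1 hK hK) (abs_sub_round _)
  have h3 := ee_chain h2.le fun k hk => by simpa using h1 k 1 hk hK
  have h4 := ee_chain h3.le fun k hk => h1 k K hk le_rfl
  refine ⟨y - q * n, by simp, ?_⟩
  have e : ((y - q * n : ℤ) : ℝ) = q * x := by simp only [x]; push_cast; field_simp
  have h5 : ((|y - q * n| * K ^ 2 : ℤ) : ℝ) ≤ q := by
    push_cast at e ⊢
    rw [e, abs_mul, abs_of_pos q0]
    rw [← mul_assoc, abs_mul, abs_of_nonneg (by positivity : (0 : ℝ) ≤ K * K)] at h4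
    nlinarith
  exact_mod_cast h5

theorem pow_half : ((511 : ℝ) / 512) ^ 512 ≤ 1 / 2 := by
  have h := one_add_mul_le_pow (a := (1 : ℝ) / 511) (by norm_num) 512
  rw [show (511 : ℝ) / 512 = (1 + 1 / 511)⁻¹ by norm_num, inv_pow, one_div (2 : ℝ)]
  exact inv_anti₀ two_pos (le_trans (by norm_num) h)

theorem card_pow_lt (n : ℕ) : n * ((511 : ℝ) / 512) ^ (512 * (Nat.log 2 n + 1)) < 1 := by
  rw [pow_mul]
  have h1 : (n : ℝ) < 2 ^ (Nat.log 2 n + 1) := by exact_mod_cast Nat.lt_pow_succ_log_self one_lt_two n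
  have h2 := pow_le_pow_left₀ (by positivity) pow_half (Nat.log 2 n + 1)
  refine (mul_le_mul_of_nonneg_left h2 (Nat.cast_nonneg n)).trans_lt ?_
  rwa [one_div, inv_pow, ← div_eq_mul_inv, div_lt_one (by positivity)]

end Pool.Agent.MT.R
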