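import Pool.Agent.Lib.MP_d61fbb_ag.MN.R6

/-! Powers of an operator that is congruent to the identity, and an invariant subspace. -/

set_option autoImplicit false

open Matrix Function IsUltrametricDist

namespace Pool.Agent.MT.UM

variable {K : Type*} [NormedField K] [IsUltrametricDist K] {l : ℕ}

theorem norm_nat (hl : l.Prime) (h1 : ‖(l : K)‖ < 1) {k : ℕ} (hk : k ≠ 0) :
    ∃ v, l ^ v ∣ k ∧ ‖(k : K)‖ = ‖(l : K)‖ ^ v := by
  obtain ⟨v, m, hm, rfl⟩ := Nat.exists_eq_pow_mul_and_not_dvd hk l hl.ne_one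
  refine ⟨v, dvd_mul_right _ _, ?_⟩
  have h2 : ‖(m : K)‖ = 1 := by
    refine le_antisymm (norm_natCast_le_one K m) (not_lt.1 fun h => ?_)
    obtain ⟨a, b, e⟩ := Nat.isCoprime_iff_coprime.2 (hl.coprime_iff_not_dvd.2 hm)
    have e' : (a : K) * l + b * m = 1 := by exact_mod_cast congrArg (Int.cast : ℤ → K) e
    have k : ∀ (z : ℤ) (x : K), ‖x‖ < 1 → ‖z * x‖ < 1 := fun z x hx => by
      rw [norm_mul]
      exact mul_lt_one_of_nonneg_of_lt_one_right (norm_intCast_le_one K z) (norm_nonneg _) hx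
    have := norm_add_le_max ((a : K) * l) (b * m)
    rw [e', norm_one] at this
    exact absurd (max_lt (k _ _ h1) (k _ _ h)) (not_lt.2 this)
  rw [Nat.cast_mul, norm_mul, h2, mul_one, Nat.cast_pow, norm_pow]

theorem norm_choose (hl : l.Prime) (h2 : l ≠ 2) (h1 : ‖(l : K)‖ < 1) (u k : ℕ) :
    ‖(u.choose (k + 2) : K)‖ * ‖(l : K)‖ ^ k ≤ ‖(u : K)‖ := by
  obtain ⟨v, hv, e⟩ := norm_nat hl h1 (k := k + 2) (by omega)
  have hk : v ≤ k := by
    by_contra h
    have h3 : 3 ≤ l := by have := hl.two_le; omega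
    have a1 := Nat.le_of_dvd (by omega) hv
    have a2 : 3 ^ (k + 1) ≤ l ^ v :=
      (Nat.pow_le_pow_left h3 _).trans (Nat.pow_le_pow_right hl.pos (by omega))
    have a3 : k < 3 ^ k := Nat.lt_pow_self (by norm_num)
    rw [pow_succ] at a2
    omega
  rcases u with _ | u
  · simp
  have e2 := congrArg (fun n : ℕ => ‖(n : K)‖) (Nat.add_one_mul_choose_eq u (k + 1))
  simp only [Nat.cast_mul, norm_mul] at e2
  calc _ ≤ ‖((u + 1).choose (k + 2) : K)‖ * ‖((k + 2 : ℕ) : K)‖ := by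
        rw [e]
        exact mul_le_mul_of_nonneg_left (pow_le_pow_of_le_one (norm_nonneg _) h1.le hk)
          (norm_nonneg _)
    _ = ‖((u + 1 : ℕ) : K)‖ * ‖(u.choose (k + 1) : K)‖ := e2.symm
    _ ≤ _ := mul_le_of_le_one_right (norm_nonneg _) (norm_natCast_le_one K _)

theorem le_of_max {a b t : ℝ} (ht : t < 1) (hb : 0 ≤ b) (h : a ≤ max b (t * a)) : a ≤ b := by
  rcases le_max_iff.1 h with h | h
  · exact h
  · by_contra k
    nlinarith

theorem sub_le_max {E : Type*} [NormedAddCommGroup E] [IsUltrametricDist E] (x y : E) :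
    ‖x - y‖ ≤ max ‖x‖ ‖y‖ := by
  simpa only [sub_eq_add_neg, norm_neg] using norm_add_le_max x (-y)

theorem twist_abs {E : Type*} [NormedAddCommGroup E] [NormedSpace K E] [IsUltrametricDist E]
    (hl : l.Prime) (h2 : l ≠ 2) (h1 : ‖(l : K)‖ < 1) {q S : Module.End K E}
    (hq : ∀ x, ‖q x‖ ≤ ‖x‖) (hS : ∀ x, ‖S x‖ ≤ ‖x‖) {w : E} (hw : q w = 0) (hw1 : ‖w‖ ≤ 1)
    (hd : ∀ x, ‖q (S (x - q x))‖ ≤ ‖q (S w)‖ * ‖x‖) (u : ℕ) :
    ‖(u : K)‖ * ‖(l : K)‖ * ‖q (S w)‖ ≤ ‖q (((1 + (l : K) • S) ^ u) w)‖ := by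
  have key : ∀ k, ‖(S ^ k) w‖ ≤ 1 ∧ ‖q ((S ^ k) w)‖ ≤ ‖q (S w)‖ := fun k => by
    induction k with
    | zero => simp [hw, hw1]
    | succ k ih =>
      rw [pow_succ', Module.End.mul_apply]
      refine ⟨(hS _).trans ih.1, ?_⟩
      rw [← sub_add_cancel ((S ^ k) w) (q ((S ^ k) w)), map_add, map_add]
      exact (norm_add_le_max _ _).trans (max_le ((hd _).trans
        (mul_le_of_le_one_right (norm_nonneg _) ih.1)) ((hq _).trans ((hS _).trans ih.2)))
  rcases u with _ | u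
  · simp
  have e : q (((1 + (l : K) • S) ^ (u + 1)) w) = (((u + 1 : ℕ) : K) * l) • q (S w) +
      ∑ k ∈ Finset.range u, (((u + 1).choose (k + 2) : K) * (l : K) ^ (k + 2)) •
        q ((S ^ (k + 2)) w) := by
    rw [add_comm 1, (Commute.one_right _).add_pow, Finset.sum_range_succ', Finset.sum_range_succ']
    simp only [one_pow, mul_one, smul_pow, LinearMap.add_apply, LinearMap.sum_apply, map_add,
      map_sum, Module.End.mul_apply, Module.End.natCast_apply, LinearMap.smul_apply, map_smul,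
      ← Nat.cast_smul_eq_nsmul K, smul_smul, pow_zero, Module.End.one_apply, hw, smul_zero,
      add_zero, zero_add, pow_one, Nat.choose_one_right, add_assoc, Nat.reduceAdd]
    rw [add_comm]
  refine le_of_max h1 (norm_nonneg _) ?_
  have e1 := eq_sub_of_add_eq e.symm
  have e2 := congrArg norm e1
  rw [norm_smul, norm_mul] at e2
  refine e2.le.trans ((sub_le_max _ _).trans (max_le_max le_rfl ?_))
  refine norm_sum_le_of_forall_le_of_nonneg (by positivity) fun k _ => ?_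
  rw [norm_smul, norm_mul, norm_pow, pow_add, ← mul_assoc]
  calc _ ≤ ‖((u + 1 : ℕ) : K)‖ * ‖(l : K)‖ ^ 2 * ‖q (S w)‖ := by
        gcongr
        · exact norm_choose hl h2 h1 _ _
        · exact (key _).2
    _ = _ := by ring

open scoped Matrix.Norms.Elementwise

theorem mul_le {m n p : Type*} [Fintype m] [Fintype n] [Fintype p] (X : Matrix m n K)
    (Y : Matrix n p K) : ‖X * Y‖ ≤ ‖X‖ * ‖Y‖ := by
  refine (norm_le_iff (by positivity)).2 fun a b => ?_
  rw [mul_apply]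
  refine norm_sum_le_of_forall_le_of_nonneg (by positivity) fun c _ => ?_
  rw [norm_mul]
  gcongr <;> exact norm_entry_le_entrywise_sup_norm _

theorem mul_le_l {m n p : Type*} [Fintype m] [Fintype n] [Fintype p] {X : Matrix m n K}
    (h : ‖X‖ ≤ 1) (Y : Matrix n p K) : ‖X * Y‖ ≤ ‖Y‖ :=
  (mul_le X Y).trans (mul_le_of_le_one_left (norm_nonneg _) h)

theorem mul_le_r {m n p : Type*} [Fintype m] [Fintype n] [Fintype p] (X : Matrix m n K)
    {Y : Matrix n p K} (h : ‖Y‖ ≤ 1) : ‖X * Y‖ ≤ ‖X‖ :=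
  (mul_le X Y).trans (mul_le_of_le_one_right (norm_nonneg _) h)

variable {ι : Type*} [Fintype ι] [DecidableEq ι]

omit [IsUltrametricDist K] in
theorem one_le' {m : Type*} [Fintype m] [DecidableEq m] : ‖(1 : Matrix m m K)‖ ≤ 1 :=
  (norm_le_iff zero_le_one).2 fun a b => by
    by_cases h : a = b <;> simp [one_apply, h]

omit [IsUltrametricDist K] in
theorem sl_le (i : ι) (x : N2 K) : ‖sl i x‖ ≤ ‖x‖ := by
  refine (norm_le_iff (norm_nonneg _)).2 fun a b => ?_
  rw [sl_apply, norm_mul, norm_prod]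
  exact (mul_le_of_le_one_right (norm_nonneg _) (Finset.prod_le_one (fun _ _ => norm_nonneg _)
    fun j _ => (norm_entry_le_entrywise_sup_norm _).trans one_le')).trans
    (norm_entry_le_entrywise_sup_norm _)

/-- a retraction onto a slot -/
def rt (i : ι) : TM ι K →ₗ[K] N2 K where
  toFun X := of fun s t => X (update 0 i s) (update 0 i t)
  map_add' _ _ := rfl
  map_smul' _ _ := rfl

omit [IsUltrametricDist K] in
theorem rt_sl (i : ι) (x : N2 K) : rt i (sl i x) = x := by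
  ext s t
  change sl i x _ _ = _
  rw [sl_apply, update_self, update_self, Finset.prod_eq_one, mul_one]
  intro j hj
  rw [update_of_ne (Finset.ne_of_mem_erase hj), update_of_ne (Finset.ne_of_mem_erase hj),
    one_apply_eq]

omit [IsUltrametricDist K] in
theorem rt_le (i : ι) (X : TM ι K) : ‖rt i X‖ ≤ ‖X‖ :=
  (norm_le_iff (norm_nonneg _)).2 fun _ _ => norm_entry_le_entrywise_sup_norm X

theorem twist_T (hl : l.Prime) (h2 : l ≠ 2) (h0 : (l : K) ≠ 0) (h1 : ‖(l : K)‖ < 1)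
    {B B' S : TM ι K} (hB : B' * B = 1) (hS : B = 1 + (l : K) • S) (n1 : ‖S‖ ≤ 1) (n2 : ‖B'‖ ≤ 1) :
    (∀ (i : ι) (x : N2 K), ∃ x', B * sl i x = sl i x' * B) ∨ ∃ d : ℕ, ∀ (u e : ℕ) (G Y : TM ι K),
      B ^ u = G + (l : K) ^ e • Y → ‖Y‖ ≤ 1 →
      (∀ (i : ι) (x : N2 K), ∃ x', G * sl i x = sl i x' * G) → l ^ (e - d) ∣ u := by
  have : IsUltrametricDist (TM ι K) :=
    inferInstanceAs (IsUltrametricDist ((ι → Fin 2) → (ι → Fin 2) → K))
  refine or_iff_not_imp_left.2 fun hn => ?_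
  obtain ⟨i, x, hx⟩ : ∃ (i : ι) (x : N2 K), ∀ x', B * sl i x ≠ sl i x' * B := by
    simpa only [not_forall, not_exists] using hn
  have hB' : B * B' = 1 := mul_eq_one_comm.1 hB
  have n3 : ‖B‖ ≤ 1 := by
    rw [hS]
    refine (norm_add_le_max _ _).trans (max_le one_le' ?_)
    rw [norm_smul]
    exact mul_le_one₀ h1.le (norm_nonneg _) n1
  let q : Module.End K (TM ι K) := 1 - slL i ∘ₗ rt i
  let Sg : Module.End K (TM ι K) :=
    LinearMap.mulRight K B' ∘ₗ (LinearMap.mulLeft K S - LinearMap.mulRight K S)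
  have qa : ∀ X, q X = X - sl i (rt i X) := fun _ => rfl
  have Sa : ∀ X, Sg X = (S * X - X * S) * B' := fun _ => rfl
  have q0 : ∀ y, q (sl i y) = 0 := fun y => by rw [qa, rt_sl, sub_self]
  have hq : ∀ X, ‖q X‖ ≤ ‖X‖ := fun X =>
    (sub_le_max _ _).trans (max_le le_rfl ((sl_le _ _).trans (rt_le _ _)))
  have hSg : ∀ X, ‖Sg X‖ ≤ ‖X‖ := fun X => (mul_le_r _ n2).trans
    ((sub_le_max _ _).trans (max_le (mul_le_l n1 _) (mul_le_r _ n1)))
  have T1 : ∀ X, (1 + (l : K) • Sg) X = B * X * B' := fun X => by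
    have : B * X = X * B + (l : K) • (S * X - X * S) := by
      rw [hS, mul_add, add_mul, smul_sub, mul_smul_comm, smul_mul_assoc, mul_one, one_mul]
      abel
    rw [this, add_mul, mul_assoc, hB', mul_one, smul_mul_assoc]
    rfl
  have Tu : ∀ (u : ℕ) X, ((1 + (l : K) • Sg) ^ u) X = B ^ u * X * B' ^ u := fun u X => by
    induction u with
    | zero => simp
    | succ u ih => rw [pow_succ', Module.End.mul_apply, ih, T1, pow_succ', pow_succ]; noncomm_ring
  obtain ⟨p, -, hp⟩ := Finset.exists_max_image Finset.univ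
    (fun p : Fin 2 × Fin 2 => ‖q (Sg (sl i (single p.1 p.2 1)))‖) Finset.univ_nonempty
  set w := sl i (single p.1 p.2 (1 : K)) with hw
  have hd : ∀ y : N2 K, ‖q (Sg (sl i y))‖ ≤ ‖q (Sg w)‖ * ‖y‖ := fun y => by
    have e : y = ∑ r : Fin 2 × Fin 2, y r.1 r.2 • single r.1 r.2 1 := by
      rw [Fintype.sum_prod_type]
      simpa using matrix_eq_sum_single y
    have e' : q (Sg (sl i y)) = ∑ r : Fin 2 × Fin 2, y r.1 r.2 • q (Sg (sl i (single r.1 r.2 1))) := by
      conv_lhs => rw [e]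
      change q (Sg (slL i _)) = _
      simp only [map_sum, map_smul]
      rfl
    rw [e']
    refine norm_sum_le_of_forall_le_of_nonneg (by positivity) fun r _ => ?_
    rw [norm_smul, mul_comm]
    exact mul_le_mul (hp r (Finset.mem_univ _)) (norm_entry_le_entrywise_sup_norm _)
      (norm_nonneg _) (norm_nonneg _)
  have d0 : 0 < ‖q (Sg w)‖ := by
    refine (norm_nonneg _).lt_of_ne fun k => hx (rt i (B * sl i x * B')) ?_
    have a := hd x
    rw [← k, zero_mul, norm_le_zero_iff] at a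
    have b : q (B * sl i x * B') = 0 := by
      rw [← T1, LinearMap.add_apply, LinearMap.smul_apply, map_add, map_smul, a, smul_zero,
        Module.End.one_apply, q0, add_zero]
    rw [← sub_eq_zero.1 ((qa _).symm.trans b), mul_assoc, hB, mul_one]
  have w1 : ‖w‖ ≤ 1 := (sl_le _ _).trans ((norm_le_iff zero_le_one).2 fun a b => by
    rw [single_apply]
    split_ifs <;> simp)
  have l0 : 0 < ‖(l : K)‖ := norm_pos_iff.2 h0
  obtain ⟨d, hd'⟩ := exists_pow_lt_of_lt_one (mul_pos l0 d0) h1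
  refine ⟨d, fun u e G Y hG nY hN => ?_⟩
  rcases Nat.eq_zero_or_pos e with rfl | e0
  · simp
  rcases eq_or_ne u 0 with rfl | u0
  · simp
  have pw : ∀ {X : TM ι K}, ‖X‖ ≤ 1 → ‖X ^ u‖ ≤ 1 := fun {X} h => by
    clear * - h
    induction u with
    | zero => rw [pow_zero]; exact one_le'
    | succ k ih => rw [pow_succ]; exact (mul_le_r _ h).trans ih
  have main := twist_abs hl h2 h1 hq hSg (q0 _) w1 (fun X => by
    rw [qa X, sub_sub_cancel]
    exact (hd _).trans (mul_le_mul_of_nonneg_left (rt_le _ _) (norm_nonneg _))) u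
  obtain ⟨z, hz⟩ := hN i (single p.1 p.2 1)
  have e1 : B ^ u * w * B' ^ u = sl i z + (l : K) ^ e • ((Y * w - sl i z * Y) * B' ^ u) := by
    have a : B ^ u * B' ^ u = 1 := by
      rw [← (show Commute B B' from hB'.trans hB.symm).mul_pow, hB', one_pow]
    have b : B ^ u * w = sl i z * B ^ u + (l : K) ^ e • (Y * w - sl i z * Y) := by
      rw [hG, add_mul, hz, mul_add, smul_sub, mul_smul_comm, smul_mul_assoc]
      abel
    rw [b, add_mul, mul_assoc, a, mul_one, smul_mul_assoc]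
  have le1 : ‖(l : K)‖ ^ e < 1 := pow_lt_one₀ l0.le h1 e0.ne'
  have n4 : ‖(Y * w - sl i z * Y) * B' ^ u‖ ≤ max 1 ‖sl i z‖ := (mul_le_r _ (pw n2)).trans
    ((sub_le_max _ _).trans (max_le_max ((mul_le_l nY _).trans w1) (mul_le_r _ nY)))
  have z1 : ‖sl i z‖ ≤ 1 := by
    refine le_of_max le1 zero_le_one ?_
    have a := (congrArg norm (eq_sub_of_add_eq e1.symm)).le.trans (sub_le_max _ _)
    refine a.trans (max_le (le_max_of_le_left ((mul_le_r _ (pw n2)).trans
      ((mul_le_l (pw n3) _).trans w1))) ?_)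
    rw [norm_smul, norm_pow]
    refine (mul_le_mul_of_nonneg_left n4 (by positivity)).trans ?_
    rw [mul_max_of_nonneg _ _ (by positivity), mul_one]
    exact max_le_max le1.le le_rfl
  rw [Tu, e1, map_add, q0, zero_add, map_smul, norm_smul, norm_pow] at main
  obtain ⟨v, hv, ev⟩ := norm_nat hl h1 u0
  have fin : ‖(l : K)‖ ^ (v + d) ≤ ‖(l : K)‖ ^ e := by
    rw [pow_add, ← ev]
    refine (mul_le_mul_of_nonneg_left hd'.le (norm_nonneg _)).trans ?_
    rw [← mul_assoc]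
    exact main.trans (mul_le_of_le_one_right (by positivity)
      ((hq _).trans (n4.trans (max_le le_rfl z1))))
  rw [pow_le_pow_iff_right_of_lt_one₀ l0 h1] at fin
  exact (pow_dvd_pow l (by omega)).trans hv

end Pool.Agent.MT.UM
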