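import Pool.Agent.Lib.MP_d61fbb_ag.MN.S0
import Pool.Agent.Lib.MP_d61fbb_ag.MN.R2a

/-! A matrix congruent to the identity normalises the slots or its powers leave the slot group. -/

set_option autoImplicit false

namespace Pool.Agent.MT

open Matrix UM
open scoped Matrix.Norms.Elementwise

variable [Dim] {l : ℕ} [Fact l.Prime]

theorem Cub.twist (D : Cub l) (h2 : l ≠ 2) {A : M8 ℤ_[l]} (hA : ∀ i j, (l : ℤ_[l]) ∣ (A - 1) i j) :
    (∀ (i : Fin nn) (x : M2 (PadicAlgCl l)), ∃ x' : M2 (PadicAlgCl l),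
      A.map (algebraMap _ _) * (D.U * sl i x * D.U') =
        (D.U * sl i x' * D.U') * A.map (algebraMap _ _)) ∨
    ∃ d : ℕ, ∀ (u e : ℕ) (g : SpecialLinearGroup (Fin 2) (AdjoinRoot D.c)),
      (∀ i j, (l : ℤ_[l]) ^ e ∣ (A ^ u - D.Nm g.1) i j) → l ^ (e - d) ∣ u := by
  have na : ∀ x : ℤ_[l], ‖algebraMap ℤ_[l] (PadicAlgCl l) x‖ = ‖x‖ := fun x =>
    PadicAlgCl.norm_extends l x
  let φ := trA D.mul_inv D.inv_mul
  let ψ : M8 ℤ_[l] →ₐ[ℤ_[l]] TM (Fin nn) (PadicAlgCl l) :=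
    (φ.symm.toAlgHom.restrictScalars ℤ_[l]).comp (Algebra.ofId ℤ_[l] (PadicAlgCl l)).mapMatrix
  have ψa : ∀ X, ψ X = φ.symm (X.map (algebraMap _ _)) := fun _ => rfl
  have ψn : ∀ X, ‖ψ X‖ ≤ 1 := fun X => by
    change ‖D.U' * X.map (algebraMap ℤ_[l] (PadicAlgCl l)) * D.U‖ ≤ 1
    refine (mul_le_r _ ((norm_le_iff zero_le_one).2 D.int)).trans
      ((mul_le_l ((norm_le_iff zero_le_one).2 D.int') _).trans
        ((norm_le_iff zero_le_one).2 fun a b => ?_))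
    rw [map_apply, na]
    exact PadicInt.norm_le_one _
  have ψs : ∀ (e : ℕ) X, ψ ((l : ℤ_[l]) ^ e • X) = (l : PadicAlgCl l) ^ e • ψ X := fun e X => by
    rw [map_smul, ← algebraMap_smul (PadicAlgCl l), map_pow, map_natCast]
  have dv : ∀ (e : ℕ) (X Y : M8 ℤ_[l]), (∀ i j, (l : ℤ_[l]) ^ e ∣ (X - Y) i j) →
      ∃ Z, X = Y + (l : ℤ_[l]) ^ e • Z := fun e X Y h => by
    choose Z hZ using h
    exact ⟨of Z, eq_add_of_sub_eq' (Matrix.ext hZ)⟩
  obtain ⟨S, hS⟩ := dv 1 A 1 (by simpa using hA)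
  have hu : IsUnit A := by
    rw [isUnit_iff_isUnit_det, ← IsLocalRing.notMem_maximalIdeal, ← PadicInt.ker_toZMod,
      RingHom.mem_ker, RingHom.map_det, hS, map_add, map_one]
    have : (PadicInt.toZMod (p := l)).mapMatrix ((l : ℤ_[l]) ^ 1 • S) = 0 := by
      ext a b
      simp
    rw [this, add_zero, det_one]
    exact one_ne_zero
  obtain ⟨A', hA'⟩ := hu.exists_left_inv
  have nl : ‖(l : PadicAlgCl l)‖ < 1 := by
    rw [← map_natCast (algebraMap ℤ_[l] _), na, PadicInt.norm_p]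
    exact inv_lt_one_of_one_lt₀ (by exact_mod_cast (Fact.out : l.Prime).one_lt)
  refine (twist_T (K := PadicAlgCl l) Fact.out h2 (Nat.cast_ne_zero.2 (Fact.out : l.Prime).ne_zero)
    nl (B := ψ A) (B' := ψ A') (S := ψ S) (by rw [← map_mul, hA', map_one])
    (by rw [hS, map_add, map_one, ψs, pow_one]) (ψn _) (ψn _)).imp (fun h i x => ?_) ?_
  · obtain ⟨x', e⟩ := h i x
    have := congrArg φ e
    rw [map_mul, map_mul, ψa, AlgEquiv.apply_symm_apply] at this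
    exact ⟨x', this⟩
  rintro ⟨d, hd⟩
  refine ⟨d, fun u e g h => ?_⟩
  obtain ⟨Y, hY⟩ := dv e _ _ h
  refine hd u e (ψ (D.Nm g.1)) (ψ Y) (by rw [← map_pow, hY, map_add, ψs]) (ψn _) fun i x => ?_
  have e1 : ψ (D.Nm g.1) = kp fun i => g.1.map (D.σ i) := by
    rw [ψa, D.nm]
    exact φ.symm_apply_apply _
  have e2 : (g⁻¹).1.map (D.σ i) * g.1.map (D.σ i) = 1 := by
    rw [← Matrix.map_mul (f := D.σ i), show (g⁻¹).1 * g.1 = 1 from
      congrArg Subtype.val (inv_mul_cancel g), Matrix.map_one _ (map_zero _) (map_one _)]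
  refine ⟨g.1.map (D.σ i) * x * (g⁻¹).1.map (D.σ i), ?_⟩
  rw [e1, kp_mul_sl, sl_mul_kp, Matrix.mul_assoc, e2, Matrix.mul_one]

end Pool.Agent.MT
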