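import Pool.Agent.Lib.MP_d61fbb_ag.MN.S0
import Pool.Agent.Lib.MP_d61fbb_ag.MT.BW0

/-! Many points of the tensor induction modulo a power of `l`. -/

set_option autoImplicit false

noncomputable section

namespace Pool.Agent.MT

open Matrix Polynomial

section
variable {l : ℕ} [Fact l.Prime]

/-- the multiples of `l ^ e` in the integers of the algebraic closure -/
def r3B (l : ℕ) [Fact l.Prime] (e : ℕ) : AddSubgroup (PadicAlgCl l) where
  carrier := {x | ‖x‖ ≤ ‖(l : ℤ_[l])‖ ^ e}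
  add_mem' ha hb := (IsUltrametricDist.norm_add_le_max _ _).trans (max_le ha hb)
  zero_mem' := norm_zero.le.trans (pow_nonneg (norm_nonneg _) e)
  neg_mem' ha := (norm_neg _).le.trans ha

theorem r3_mul {e : ℕ} {u x : PadicAlgCl l} (hu : ‖u‖ ≤ 1) (hx : x ∈ r3B l e) : u * x ∈ r3B l e :=
  (norm_mul_le _ _).trans ((mul_le_of_le_one_left (norm_nonneg _) hu).trans hx)

theorem r3_can {e : ℕ} {u x : PadicAlgCl l} (hu : ‖u‖ = 1) (hx : u * x ∈ r3B l e) :
    x ∈ r3B l e := by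
  change ‖_‖ ≤ _ at hx
  rwa [norm_mul, hu, one_mul] at hx

theorem r3_l : ‖(l : PadicAlgCl l)‖ = ‖(l : ℤ_[l])‖ := by
  rw [← BW.norm_alg, map_natCast]

theorem r3_lt : ‖(l : ℤ_[l])‖ < 1 := (PadicInt.norm_lt_one_iff_dvd _).2 dvd_rfl

theorem r3_m {a b : PadicAlgCl l} (ha : ‖a‖ ≤ 1) (hb : ‖b‖ ≤ 1) : ‖a * b‖ ≤ 1 :=
  (norm_mul_le _ _).trans (mul_le_one₀ ha (norm_nonneg _) hb)

theorem r3_a {a b : PadicAlgCl l} (ha : ‖a‖ ≤ 1) (hb : ‖b‖ ≤ 1) : ‖a + b‖ ≤ 1 :=
  (IsUltrametricDist.norm_add_le_max _ _).trans (max_le ha hb)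

theorem r3_unit {u x : PadicAlgCl l} (hu : ‖u‖ = 1) (hx : ‖x - u‖ < 1) : ‖x‖ = 1 := by
  rw [← sub_add_cancel x u, IsUltrametricDist.norm_add_eq_max_of_norm_ne_norm (hu ▸ hx.ne), hu,
    max_eq_right hx.le]

theorem r3_prod {ι : Type} (s : Finset ι) {f : ι → PadicAlgCl l} (h : ∀ i, ‖f i - 1‖ < 1) :
    ‖∏ i ∈ s, f i - 1‖ < 1 := by
  classical
  induction s using Finset.induction_on with
  | empty => simp
  | insert i s hi ih =>
    rw [Finset.prod_insert hi, show ∀ a b : PadicAlgCl l, a * b - 1 = a * (b - 1) + (a - 1) from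
      fun a b => by ring]
    refine (IsUltrametricDist.norm_add_le_max _ _).trans_lt (max_lt ?_ (h i))
    rwa [norm_mul, r3_unit norm_one (h i), one_mul]

/-- a matrix of determinant one is determined by its multiple by a principal unit -/
theorem r3_alg (h2 : l ≠ 2) {e : ℕ} {g g' : Matrix (Fin 2) (Fin 2) (PadicAlgCl l)}
    {P P' : PadicAlgCl l} (hg : ∀ s t, ‖g s t‖ ≤ 1) (hg' : ∀ s t, ‖g' s t‖ ≤ 1) (hd : g.det = 1)
    (hd' : g'.det = 1) (hP : ‖P - 1‖ < 1) (hP' : ‖P' - 1‖ < 1)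
    (h : ∀ s t, g s t * P - g' s t * P' ∈ r3B l e) (s t : Fin 2) : g s t - g' s t ∈ r3B l e := by
  have p1 := r3_unit norm_one hP
  have p2 := r3_unit norm_one hP'
  have two : ‖(2 : PadicAlgCl l)‖ = 1 := by
    rw [← map_ofNat (algebraMap ℤ_[l] _) 2, BW.norm_alg, ← Nat.cast_ofNat,
      PadicInt.norm_natCast_eq_one_iff]
    exact (Nat.coprime_primes Fact.out Nat.prime_two).2 h2
  have p3 : ‖P + P'‖ = 1 := r3_unit two (by
    rw [show P + P' - 2 = (P - 1) + (P' - 1) by ring]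
    exact (IsUltrametricDist.norm_add_le_max _ _).trans_lt (max_lt hP hP'))
  rw [det_fin_two] at hd hd'
  have p4 : P - P' ∈ r3B l e := r3_can p3 (by
    rw [show (P + P') * (P - P') = g 1 1 * P * (g 0 0 * P - g' 0 0 * P') +
      g' 0 0 * P' * (g 1 1 * P - g' 1 1 * P') - g 1 0 * P * (g 0 1 * P - g' 0 1 * P') -
      g' 0 1 * P' * (g 1 0 * P - g' 1 0 * P') by linear_combination P' ^ 2 * hd' - P ^ 2 * hd]
    exact sub_mem (sub_mem (add_mem (r3_mul (r3_m (hg _ _) p1.le) (h _ _))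
      (r3_mul (r3_m (hg' _ _) p2.le) (h _ _))) (r3_mul (r3_m (hg _ _) p1.le) (h _ _)))
      (r3_mul (r3_m (hg' _ _) p2.le) (h _ _)))
  refine r3_can p1 ?_
  rw [show P * (g s t - g' s t) = g s t * P - g' s t * P' - g' s t * (P - P') by ring]
  exact sub_mem (h s t) (r3_mul (hg' s t) p4)

/-- small integral vectors are determined by their values at distinct points -/
theorem r3_van {n : ℕ} {r : Fin n → PadicAlgCl l} (hr : ∀ i, ‖r i‖ ≤ 1)
    (hi : Function.Injective r) : ∃ d : ℕ, ∀ (m : ℕ) (v w : Fin n → Fin (l ^ m)),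
      (∀ i, ∑ j, ((v j : ℕ) : PadicAlgCl l) * r i ^ (j : ℕ) -
        ∑ j, ((w j : ℕ) : PadicAlgCl l) * r i ^ (j : ℕ) ∈ r3B l (d + m)) → v = w := by
  have h0 : 0 < ‖(l : ℤ_[l])‖ := norm_pos_iff.2 (Nat.cast_ne_zero.2 (Fact.out : l.Prime).ne_zero)
  obtain ⟨d, hd⟩ := exists_pow_lt_of_lt_one
    (norm_pos_iff.2 (det_vandermonde_ne_zero_iff.2 hi)) (r3_lt (l := l))
  refine ⟨d, fun m v w h => funext fun j => Fin.ext ?_⟩
  let z : Fin n → PadicAlgCl l := fun j => (((v j : ℕ) - (w j : ℕ) : ℤ) : PadicAlgCl l)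
  have h1 : ∀ i, (vandermonde r *ᵥ z) i ∈ r3B l (d + m) := fun i => by
    convert h i using 1
    simp only [mulVec, dotProduct, vandermonde_apply, z, ← Finset.sum_sub_distrib]
    exact Finset.sum_congr rfl fun j _ => by push_cast; ring
  have h2 : ((vandermonde r).adjugate *ᵥ vandermonde r *ᵥ z) j ∈ r3B l (d + m) := by
    generalize vandermonde r *ᵥ z = y at h1
    rw [mulVec, dotProduct]
    refine sum_mem fun i _ => r3_mul ?_ (h1 i)
    rw [adjugate_apply, det_apply']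
    refine BW.norm_sum_le _ _ zero_le_one fun s _ => r3_m
      (IsUltrametricDist.norm_intCast_le_one _ _) ?_
    rw [norm_prod]
    refine Finset.prod_le_one (fun _ _ => norm_nonneg _) fun k _ => ?_
    rw [updateRow_apply, Pi.single_apply]
    split_ifs
    · exact norm_one.le
    · exact norm_zero.le.trans zero_le_one
    · rw [vandermonde_apply, norm_pow]; exact pow_le_one₀ (norm_nonneg _) (hr _)
  rw [mulVec_mulVec, adjugate_mul, smul_mulVec, one_mulVec, Pi.smul_apply, smul_eq_mul] at h2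
  change ‖_‖ ≤ _ at h2
  rw [norm_mul, pow_add] at h2
  have h3 : ‖z j‖ ≤ ‖(l : ℤ_[l])‖ ^ m := le_of_mul_le_mul_left
    ((mul_le_mul_of_nonneg_right hd.le (norm_nonneg _)).trans h2) (pow_pos h0 d)
  simp only [z] at h3
  rw [← map_intCast (algebraMap ℤ_[l] (PadicAlgCl l)), BW.norm_alg, PadicInt.norm_p, inv_pow, ← zpow_natCast,
    ← _root_.zpow_neg, PadicInt.norm_int_le_pow_iff_dvd] at h3
  refine Nat.ModEq.eq_of_lt_of_lt ?_ (v j).2 (w j).2
  exact (Nat.modEq_iff_dvd.2 (by exact_mod_cast h3)).symm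

end

variable [Dim] {l : ℕ} [Fact l.Prime]

theorem r3_kp {R : Type} [CommRing R] (g : Fin nn → M2 R) (i : Fin nn) (s t : Fin 2) :
    kp g (Function.update (fun _ => 1) i s) (Function.update (fun _ => 0) i t) =
      g i s t * ∏ j ∈ Finset.univ.erase i, g j 1 0 := by
  rw [kp_apply, ← Finset.mul_prod_erase _ _ (Finset.mem_univ i), Function.update_self,
    Function.update_self]
  congr 1
  exact Finset.prod_congr rfl fun j hj => by
    rw [Function.update_of_ne (Finset.ne_of_mem_erase hj),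
      Function.update_of_ne (Finset.ne_of_mem_erase hj)]

theorem Cub.r3_cong (D : Cub l) {e : ℕ} {g g' : M2 (AdjoinRoot D.c)}
    (h : ∀ i j, (l : ℤ_[l]) ^ e ∣ (D.Nm g - D.Nm g') i j) (a b : Fin nn → Fin 2) :
    kp (fun i => g.map (D.σ i)) a b - kp (fun i => g'.map (D.σ i)) a b ∈ r3B l e := by
  have h1 : ∀ g : M2 (AdjoinRoot D.c), kp (fun i => g.map (D.σ i)) =
      D.U' * ((D.Nm g).map (algebraMap ℤ_[l] (PadicAlgCl l)) : Matrix _ _ _) * D.U := fun g => by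
      rw [D.nm, ← Matrix.mul_assoc, ← Matrix.mul_assoc, D.inv_mul, Matrix.one_mul, Matrix.mul_assoc,
        D.inv_mul, Matrix.mul_one]
  rw [h1, h1, ← Matrix.sub_apply, ← Matrix.sub_mul, ← Matrix.mul_sub,
    ← Matrix.map_sub _ (map_sub _), mul_apply]
  refine sum_mem fun j _ => ?_
  rw [mul_comm, mul_apply]
  refine r3_mul (D.int _ _) (sum_mem fun i _ => r3_mul (D.int' _ _) ?_)
  obtain ⟨y, hy⟩ := h i j
  change ‖_‖ ≤ _
  rw [map_apply, BW.norm_alg, hy, norm_mul, norm_pow]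
  exact mul_le_of_le_one_right (by positivity) y.norm_le_one

theorem Cub.many (D : Cub l) (h2 : l ≠ 2) : ∃ c : ℕ, ∀ e : ℕ,
    ∃ (X : Type) (_ : Fintype X) (k : X → SpecialLinearGroup (Fin 2) (AdjoinRoot D.c)),
      (l ^ e) ^ (3 * nn) ≤ c * Fintype.card X ∧
      ∀ x y, (∀ i j, (l : ℤ_[l]) ^ e ∣ (D.Nm (k x).1 - D.Nm (k y).1) i j) → x = y := by
  have hr : ∀ i, ‖D.σ i (AdjoinRoot.root D.c)‖ ≤ 1 := fun i => BW.root_le D.monic (by
    rw [aeval_algHom_apply, AdjoinRoot.aeval_eq, AdjoinRoot.mk_self, map_zero])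
  obtain ⟨d, hd⟩ := r3_van hr fun i j h => D.inj (AdjoinRoot.algHom_ext h)
  have l0 : 0 < l := (Fact.out : l.Prime).pos
  refine ⟨(l ^ (d + 1)) ^ (3 * nn), fun e => ?_⟩
  rcases le_or_gt e (d + 1) with he | he
  · refine ⟨Unit, inferInstance, fun _ => 1, ?_, fun _ _ _ => rfl⟩
    rw [Fintype.card_unit, mul_one]
    exact Nat.pow_le_pow_left (Nat.pow_le_pow_right l0 he) _
  obtain ⟨m, rfl⟩ : ∃ m, e = d + m + 1 := ⟨e - (d + 1), by omega⟩
  let p : (Fin nn → Fin (l ^ m)) → AdjoinRoot D.c := fun v =>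
    ∑ j, ((v j : ℕ) : AdjoinRoot D.c) * AdjoinRoot.root D.c ^ (j : ℕ)
  have p1 : ∀ i v, D.σ i (p v) =
      ∑ j, ((v j : ℕ) : PadicAlgCl l) * D.σ i (AdjoinRoot.root D.c) ^ (j : ℕ) := fun i v => by
    simp only [p, map_sum, map_mul, map_natCast, map_pow]
  have p2 : ∀ i v, ‖D.σ i (p v)‖ ≤ 1 := fun i v => by
    rw [p1]
    refine BW.norm_sum_le _ _ zero_le_one fun j _ => r3_m
      (IsUltrametricDist.norm_natCast_le_one _ _) ?_
    rw [norm_pow]; exact pow_le_one₀ (norm_nonneg _) (hr i)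
  have p3 : ∀ i v, ‖1 + l * D.σ i (p v) - 1‖ < 1 := fun i v => by
    rw [add_sub_cancel_left, norm_mul, r3_l]
    exact mul_lt_one_of_nonneg_of_lt_one_left (norm_nonneg _) r3_lt (p2 i v)
  have p4 := fun i v => r3_unit norm_one (p3 i v)
  have p5 : ∀ {x}, x ∈ r3B l (d + m + 1) → x ∈ r3B l (d + m) := fun h =>
    le_trans h (pow_le_pow_of_le_one (norm_nonneg _) r3_lt.le (Nat.le_succ _))
  let k : (Fin 3 → Fin nn → Fin (l ^ m)) → SpecialLinearGroup (Fin 2) (AdjoinRoot D.c) := fun v =>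
    ⟨!![1 + p (v 0) * (1 + l * p (v 1)), p (v 0) + (1 + p (v 0) * (1 + l * p (v 1))) * p (v 2);
      1 + l * p (v 1), 1 + (1 + l * p (v 1)) * p (v 2)], by rw [det_fin_two_of]; ring⟩
  have k0 : ∀ v i, ((k v).1.map (D.σ i)) 0 0 = 1 + D.σ i (p (v 0)) * (1 + l * D.σ i (p (v 1))) :=
    fun v i => by simp [k]
  have k1 : ∀ v i, ((k v).1.map (D.σ i)) 1 0 = 1 + l * D.σ i (p (v 1)) := fun v i => by simp [k]
  have k2 : ∀ v i, ((k v).1.map (D.σ i)) 1 1 = 1 + (1 + l * D.σ i (p (v 1))) * D.σ i (p (v 2)) :=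
    fun v i => by simp [k]
  have k3 : ∀ v i s t, ‖((k v).1.map (D.σ i)) s t‖ ≤ 1 := fun v i => by
    have a := r3_a norm_one.le (r3_m (p2 i (v 0)) (p4 i (v 1)).le)
    refine Fin.forall_fin_two.2 ⟨Fin.forall_fin_two.2 ⟨k0 v i ▸ a, ?_⟩, Fin.forall_fin_two.2
      ⟨k1 v i ▸ (p4 _ _).le, k2 v i ▸ r3_a norm_one.le (r3_m (p4 _ _).le (p2 _ _))⟩⟩
    simpa [k] using r3_a (p2 i (v 0)) (r3_m a (p2 i (v 2)))
  have k4 : ∀ v i, ((k v).1.map (D.σ i)).det = 1 := fun v i =>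
    ((D.σ i).map_det _).symm.trans (by rw [(k v).2, map_one])
  refine ⟨_, inferInstance, k, le_of_eq ?_, fun x y h => ?_⟩
  · simp only [Fintype.card_fun, Fintype.card_fin]
    ring
  have key : ∀ i s t, ((k x).1.map (D.σ i)) s t - ((k y).1.map (D.σ i)) s t ∈ r3B l (d + m + 1) :=
    fun i => r3_alg h2 (k3 x i) (k3 y i) (k4 x i) (k4 y i)
      (r3_prod (Finset.univ.erase i) fun j => k1 x j ▸ p3 j _)
      (r3_prod (Finset.univ.erase i) fun j => k1 y j ▸ p3 j _) fun s t => by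
        rw [← r3_kp (fun i => (k x).1.map (D.σ i)), ← r3_kp (fun i => (k y).1.map (D.σ i))]
        exact D.r3_cong h _ _
  have e1 : x 1 = y 1 := hd m _ _ fun i => by
    have := key i 1 0
    rw [k1, k1, add_sub_add_left_eq_sub, ← mul_sub] at this
    change ‖_‖ ≤ _ at this
    rw [norm_mul, r3_l, pow_succ'] at this
    rw [← p1, ← p1]
    exact le_of_mul_le_mul_left this (norm_pos_iff.2 (Nat.cast_ne_zero.2 l0.ne'))
  refine funext (Fin.forall_fin_succ.2 ⟨hd m _ _ fun i => ?_, Fin.forall_fin_two.2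
    ⟨e1, hd m _ _ fun i => ?_⟩⟩)
  · have := key i 0 0
    rw [k0, k0, e1, add_sub_add_left_eq_sub, ← sub_mul, mul_comm] at this
    rw [← p1, ← p1]
    exact p5 (r3_can (p4 _ _) this)
  · have := key i 1 1
    rw [k2, k2, e1, add_sub_add_left_eq_sub, ← mul_sub] at this
    rw [← p1, ← p1]
    exact p5 (r3_can (p4 _ _) this)

end Pool.Agent.MT
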