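import Pool.Agent.Lib.MP_d61fbb_ag.MN.R4a
import Pool.Agent.Lib.MP_d61fbb_ag.MN.G8
import Pool.Agent.Lib.MP_d61fbb_ag.MN.GCub

/-! The monodromy group of the limit set normalises the slots. -/

set_option autoImplicit false

noncomputable section

namespace Pool.Agent.MT.R

variable [Dim]

open Matrix Filter G Topology

section

variable {l : ℕ} [hl : Fact l.Prime]

/-- reduction of matrices -/
def red (l : ℕ) [Fact l.Prime] (e : ℕ) : M8 ℤ_[l] →+* M8 (ZMod (l ^ e)) :=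
  (PadicInt.toZModPow e).mapMatrix

/-- integral symplectic matrices as `l`-adic matrices -/
def zl (l : ℕ) [Fact l.Prime] : G.Sp gg ℤ →* M8 ℤ_[l] :=
  (Int.castRingHom ℤ_[l]).mapMatrix.toMonoidHom.comp (symplecticGroup (Fin gg) ℤ).subtype

theorem red_iff {e : ℕ} {A B : M8 ℤ_[l]} :
    red l e A = red l e B ↔ ∀ i j, (l : ℤ_[l]) ^ e ∣ (A - B) i j := by
  rw [← sub_eq_zero, ← map_sub, ← Matrix.ext_iff]
  refine forall₂_congr fun i j => ?_
  rw [← Ideal.mem_span_singleton, ← PadicInt.ker_toZModPow, RingHom.mem_ker]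
  rfl

theorem red_cong {e : ℕ} {γ δ : G.Sp gg ℤ} (h : Cong ((l ^ e) ^ 2) γ.1 δ.1) :
    red l (2 * e) (zl l γ) = red l (2 * e) (zl l δ) := red_iff.2 fun i j => by
  have := _root_.map_dvd (Int.castRingHom ℤ_[l]) (h i j)
  simpa [zl, ← pow_mul, mul_comm] using this

theorem exists_limit (𝒰 : Ultrafilter ℕ) {a : ℕ → M8 ℤ_[l]} (h : ∀ j, GS 1 (a j)) :
    ∃ s, GS 1 s ∧ ∀ e, ∀ᶠ j in 𝒰, red l e (a j) = red l e s := by
  have : CompactSpace (M8 ℤ_[l]) := inferInstanceAs (CompactSpace (I2 gg → I2 gg → ℤ_[l]))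
  obtain ⟨s, -, hs⟩ := isCompact_univ.ultrafilter_le_nhds (𝒰.map a) (by simp)
  have hs : Tendsto a 𝒰 (𝓝 s) := hs
  refine ⟨s, gs_iff.2 ((isClosed_eq (f := fun X : M8 ℤ_[l] => Xᵀ * J (Fin gg) ℤ_[l] * X)
    (by fun_prop) continuous_const).mem_of_tendsto hs (.of_forall fun j => gs_iff.1 (h j))),
    fun e => ?_⟩
  simp only [red_iff]
  refine eventually_all.2 fun i => eventually_all.2 fun j => ?_
  have l0 : (0 : ℝ) < l := by exact_mod_cast hl.out.pos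
  filter_upwards [(tendsto_iff_norm_sub_tendsto_zero.1 (tendsto_pi_nhds.1
    (tendsto_pi_nhds.1 hs i) j)).eventually_le_const (zpow_pos l0 (-e : ℤ))] with n hn
  rwa [← Ideal.mem_span_singleton, ← PadicInt.norm_le_pow_iff_mem_span_pow]

theorem exists_order (γ : G.Sp gg ℤ) : ∃ N ≠ 0, red l 1 (zl l (γ ^ N)) = 1 := by
  have : NeZero (l ^ 1) := ⟨pow_ne_zero _ hl.out.ne_zero⟩
  let f := ((red l 1).toMonoidHom.comp (zl l)).toHomUnits
  obtain ⟨N, h1, h2⟩ := isOfFinOrder_iff_pow_eq_one.1 (isOfFinOrder_of_finite (f γ))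
  exact ⟨N, h1.ne', congrArg Units.val ((map_pow f γ N).trans h2)⟩

theorem card_le {e : ℕ} {X : Type} [Fintype X] (γ : X → G.Sp gg ℤ)
    (h : ∀ x y, red l e (zl l (γ x)) = red l e (zl l (γ y)) → x = y) :
    Fintype.card X ≤ l ^ (e * (2 * gg * (2 * gg))) := by
  have : NeZero (l ^ e) := ⟨pow_ne_zero _ hl.out.ne_zero⟩
  refine (Fintype.card_le_of_injective _ h).trans_eq ?_
  rw [show Fintype.card (M8 (ZMod (l ^ e))) = Fintype.card (I2 gg → I2 gg → ZMod (l ^ e)) from rfl]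
  simp only [Fintype.card_fun, ZMod.card, card_sum, ← pow_mul, mul_assoc]

/-- `A` normalises the slots -/
def Nor (D : Cub l) (A : M8 ℤ_[l]) : Prop := ∀ (i : Fin nn) (x : M2 (PadicAlgCl l)),
  ∃ x' : M2 (PadicAlgCl l), A.map (algebraMap _ _) * (D.U * sl i x * D.U') =
    (D.U * sl i x' * D.U') * A.map (algebraMap _ _)

/-- the powers of `A` stay away from the tensor group -/
def Far (D : Cub l) (A : M8 ℤ_[l]) : Prop := ∃ d : ℕ, ∀ (u e : ℕ)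
  (g : SpecialLinearGroup (Fin 2) (AdjoinRoot D.c)),
    (∀ i j, (l : ℤ_[l]) ^ e ∣ (A ^ u - D.Nm g.1) i j) → l ^ (e - d) ∣ u

/-- many classes in the tensor group -/
def Many (D : Cub l) : Prop := ∃ c : ℕ, ∀ e : ℕ, ∃ (X : Type) (_ : Fintype X)
  (k : X → SpecialLinearGroup (Fin 2) (AdjoinRoot D.c)), (l ^ e) ^ (3 * nn) ≤ c * Fintype.card X ∧
    ∀ x y, (∀ i j, (l : ℤ_[l]) ^ e ∣ (D.Nm (k x).1 - D.Nm (k y).1) i j) → x = y

/-- many level structures -/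
theorem levels (h2 : l ≠ 2) {D : Cub l} (hm : Many D) {s : M8 ℤ_[l]} (hs : GS 1 s) {γ : G.Sp gg ℤ}
    (hf : Far D ((dl s)ᵀ * zl l γ * s)) : ∃ c : ℕ, ∀ e, ∃ (X : Type) (_ : Fintype X) (t : X → ℕ)
      (k : X → SpecialLinearGroup (Fin 2) (AdjoinRoot D.c)) (σ : X → G.Sp gg ℤ),
      (l ^ e) ^ (6 * nn + 2) ≤ c * Fintype.card X ∧ (∀ x, σ x ∈ G.Gam gg 32 ∧
        red l (2 * e) (zl l (σ x)) = red l (2 * e) (s * D.Nm (k x).1)) ∧
      ∀ x y, red l (2 * e) (zl l (γ ^ t x * σ x)) = red l (2 * e) (zl l (γ ^ t y * σ y)) → x = y := by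
  obtain ⟨c, hc⟩ := hm
  obtain ⟨d, hd⟩ := hf
  refine ⟨l ^ d * c, fun e => ?_⟩
  obtain ⟨X, _, k, h3, h4⟩ := hc (2 * e)
  have co : (32 : ℕ).Coprime l := ((Nat.coprime_primes Nat.prime_two hl.out).2 h2.symm).pow_left 5
  choose σ s1 s2 s3 using fun x => sp_dense_int co (k := s * D.Nm (k x).1)
    (by simpa using hs.mul (D.gs_Nm (k x).1)) (2 * e)
  have s4 : ∀ x, red l (2 * e) (zl l ⟨σ x, gs_one_iff.1 (s1 x)⟩) =
      red l (2 * e) (s * D.Nm (k x).1) := fun x => red_iff.2 (s3 x)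
  refine ⟨Fin (l ^ (2 * e - d)) × X, inferInstance, fun x => x.1, fun x => k x.2,
    fun x => ⟨σ x.2, gs_one_iff.1 (s1 x.2)⟩, ?_, fun x => ⟨s2 x.2, s4 x.2⟩, ?_⟩
  · rw [Fintype.card_prod, Fintype.card_fin, mul_mul_mul_comm, ← pow_add,
      show (l ^ e) ^ (6 * nn + 2) = l ^ (2 * e) * (l ^ (2 * e)) ^ (3 * nn) by ring]
    exact Nat.mul_le_mul (Nat.pow_le_pow_right hl.out.pos (by omega)) h3
  set s' := (dl s)ᵀ
  have n1 : ∀ a b : SpecialLinearGroup (Fin 2) (AdjoinRoot D.c),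
      D.Nm a.1 * D.Nm b.1 = D.Nm (a * b).1 := fun a b => (D.Nm_mul _ _).symm
  have n2 : D.Nm (1 : SpecialLinearGroup (Fin 2) (AdjoinRoot D.c)).1 = 1 := D.Nm_one
  have e1 : s * s' = 1 := hs.mul_dlT
  have e2 : s' * s = 1 := mul_eq_one_comm.1 e1
  have e3 : ∀ u : ℕ, (s' * zl l γ * s) ^ u = s' * zl l (γ ^ u) * s := fun u => by
    induction u with
    | zero => simp [e2]
    | succ u ih =>
      rw [pow_succ, ih, pow_succ, map_mul]
      simp only [Matrix.mul_assoc]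
      rw [← Matrix.mul_assoc s, e1, Matrix.one_mul]
  have key : ∀ (t u : ℕ) (x y : X), red l (2 * e) (zl l (γ ^ (t + u) * ⟨σ x, gs_one_iff.1 (s1 x)⟩)) =
      red l (2 * e) (zl l (γ ^ t * ⟨σ y, gs_one_iff.1 (s1 y)⟩)) →
      red l (2 * e) ((s' * zl l γ * s) ^ u) = red l (2 * e) (D.Nm (k y * (k x)⁻¹).1) :=
    fun t u x y h => by
      have := congrArg (fun Y => red l (2 * e) (s' * zl l (γ ^ t)⁻¹) * Y *
        red l (2 * e) (D.Nm (k x)⁻¹.1)) h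
      simp only [map_mul, s4, pow_add] at this
      simp only [← map_mul, Matrix.mul_assoc, n1, mul_inv_cancel, n2, Matrix.mul_one] at this
      simp only [← Matrix.mul_assoc (zl l _) (zl l _), ← map_mul, inv_mul_cancel_left,
        inv_mul_cancel, map_one, Matrix.one_mul, ← Matrix.mul_assoc s' s, e2] at this
      rw [e3, Matrix.mul_assoc, this]
  have k2 : ∀ x y : Fin (l ^ (2 * e - d)) × X, y.1 ≤ x.1 →
      red l (2 * e) (zl l (γ ^ (x.1 : ℕ) * ⟨σ x.2, gs_one_iff.1 (s1 x.2)⟩)) =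
        red l (2 * e) (zl l (γ ^ (y.1 : ℕ) * ⟨σ y.2, gs_one_iff.1 (s1 y.2)⟩)) → x = y := by
    rintro ⟨t, x⟩ ⟨t', y⟩ h0 h
    obtain ⟨u, hu⟩ := Nat.exists_eq_add_of_le (show (t' : ℕ) ≤ t from h0)
    rw [hu] at h
    have k3 := key _ _ _ _ h
    obtain rfl : u = 0 := Nat.eq_zero_of_dvd_of_lt (hd u _ _ (red_iff.1 k3)) (by have := t.2; omega)
    refine Prod.ext (Fin.ext hu) (h4 x y (red_iff.1 ?_))
    have := congrArg (· * red l (2 * e) (D.Nm (k x).1)) k3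
    simpa only [pow_zero, ← map_mul, Matrix.one_mul, n1, inv_mul_cancel_right] using this
  exact fun x y h => (le_total y.1 x.1).elim (k2 x y · h) fun h0 => (k2 y x h0 h.symm).symm

end

variable {τ : Matrix (Fin gg) (Fin gg) ℂ} {K : IntermediateField ℚ ℂ}

/-- a form that kills the orbit vanishes at the translates with the right level structure -/
theorem kill_pt (hτ : Sieg τ) (M : MumfordType τ K) {l : Pr} (h2 : (l : ℕ) ≠ 2) {e r D : ℕ}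
    {c : Fin r → ℤ} {ch : Fin r → Fin D → I2 gg → ℤ} (h : Kill M l e c ch) {β : G.Sp gg ℚ}
    (hβ : ∀ p : Pr, (p : ℕ) ≠ l → ∀ a b, ‖(((β.1 - 1) a b / 2 : ℚ) : ℚ_[p])‖ ≤ 1) {n : ℕ}
    {g : M2 (AdjoinRoot (M.D l).c)} {κ : M8 ℤ_[l]} (hg : g.det = ((l : ℕ) : AdjoinRoot _) ^ (2 * n))
    (hκ : β.1.map (Rat.cast : ℚ → ℚ_[l]) * ((M.D l).Nm g).map ((↑) : ℤ_[l] → ℚ_[l]) =
      ((l : ℕ) : ℚ_[l]) ^ (nn * n) • κ.map ((↑) : ℤ_[l] → ℚ_[l])) {δ : G.Sp gg ℤ} (hδ : δ ∈ G.Gam gg 32)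
    (k : SpecialLinearGroup (Fin 2) (AdjoinRoot (M.D l).c))
    (hk : red l (2 * e) (zl l δ * κ * (M.D l).Nm k.1) = 1) :
    qv c ch (Thm ((l : ℕ) ^ e) (G.mk (az δ (ac (qm β.1) (un τ))))) = 0 := by
  have m1 : un τ ∈ G.HH gg := by rwa [← mk_un hτ.symm] at hτ
  have l0 : (((l : ℕ) : ℚ_[l]) ^ (nn * n)) ≠ 0 := pow_ne_zero _ (by exact_mod_cast l.2.ne_zero)
  obtain ⟨H, F, f1, f2, f3, f4, f5⟩ := g8_transfer hτ h2 e (gs_one_iff.2 (zqsp δ * β).2)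
    ((((l : ℕ) : ℚ_[l]) ^ (nn * n))⁻¹ • ((M.D l).Nm (g * k.1)).map (↑)) (fun p hp => by
      let A := (PadicInt.subring p).comap (Rat.castHom ℚ_[p])
      exact (g8_two A).mul_mem (g8_two_int A fun i j => Dvd.dvd.trans (by norm_num) (hδ i j))
        (hβ p fun h => hp (Subtype.ext h))) fun a b => by
      have e1 : (zqsp δ * β).1.map (Rat.cast : ℚ → ℚ_[l]) *
          ((((l : ℕ) : ℚ_[l]) ^ (nn * n))⁻¹ • ((M.D l).Nm (g * k.1)).map (↑)) =
          (zl l δ * κ * (M.D l).Nm k.1).map PadicInt.Coe.ringHom := by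
        rw [Submonoid.coe_mul, show ((zqsp δ).1 * β.1).map (Rat.cast : ℚ → ℚ_[l]) = _ from
          Matrix.map_mul (f := Rat.castHom ℚ_[l]), Cub.Nm_mul,
          show ((M.D l).Nm g * (M.D l).Nm k.1).map ((↑) : ℤ_[l] → ℚ_[l]) = _ from
            Matrix.map_mul (f := PadicInt.Coe.ringHom),
          Matrix.mul_smul, Matrix.mul_assoc, ← Matrix.mul_assoc (β.1.map _)]
        erw [hκ]
        rw [Matrix.smul_mul, Matrix.mul_smul, inv_smul_smul₀ l0, Matrix.map_mul, Matrix.map_mul,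
          Matrix.mul_assoc]
        congr 1
      have := red_iff.1 (hk.trans (map_one _).symm) a b
      rw [← Ideal.mem_span_singleton, ← PadicInt.norm_le_pow_iff_mem_span_pow,
        _root_.zpow_neg, _root_.zpow_natCast, ← inv_pow] at this
      rw [e1]
      refine le_of_eq_of_le (congrArg norm ?_) (show ‖((_ : ℤ_[l]) : ℚ_[l])‖ ≤ _ from this)
      generalize zl l δ * κ * (M.D l).Nm k.1 = Y
      by_cases h : a = b <;> simp [one_apply, h]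
  have := h n (g * k.1) H F (by simp [hg]) f1 (by rw [f2, smul_inv_smul₀ l0]) f3 f4
  simp only [f5] at this
  have e2 : az δ (ac (qm β.1) (un τ)) = ac (qsp (zqsp δ * β)).1 (un τ) := by
    refine (ac_mul (zsp δ) (qsp β) m1).symm.trans (congrArg (ac · _) ?_)
    refine Eq.trans ?_ (Matrix.map_mul (f := Rat.castHom ℝ)).symm
    congr 1
  rw [e2, mk_ac, mk_un hτ.symm, ← this]
  congr 4

theorem normal_core (hτ : Sieg τ) (M : MumfordType τ K) {l : Pr} (h2 : (l : ℕ) ≠ 2)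
    (hz : ∀ F : Fam l, ∃ (e : ℕ) (z : Fin (F.r e) → ℤ), F.e0 ≤ e ∧ z ≠ 0 ∧ Kill M l e z (F.ch e))
    (hm : Many (M.D l)) {β : ℕ → G.Sp gg ℚ}
    (hβ : ∀ j, ∀ p : Pr, (p : ℕ) ≠ l → ∀ a b, ‖((((β j).1 - 1) a b / 2 : ℚ) : ℚ_[p])‖ ≤ 1)
    (hκ : ∀ j, ∃ (n : ℕ) (g : M2 (AdjoinRoot (M.D l).c)) (κ : M8 ℤ_[l]),
      g.det = ((l : ℕ) : AdjoinRoot _) ^ (2 * n) ∧ GS 1 κ ∧ (β j).1.map (Rat.cast : ℚ → ℚ_[l]) *
        ((M.D l).Nm g).map ((↑) : ℤ_[l] → ℚ_[l]) =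
          ((l : ℕ) : ℚ_[l]) ^ (nn * n) • κ.map ((↑) : ℤ_[l] → ℚ_[l]))
    {𝒰 : Ultrafilter ℕ} {c : ℕ → G.Sp gg ℤ} (hc : ∀ j, c j ∈ G.Gam gg 32) {G₀ : Subgroup (G.Sp gg ℤ)}
    (hG : G₀ ≤ G.Gam gg 32) {z₁ : EE gg} (hz₁ : z₁ ∈ G.HH gg)
    (acc : Acc (fun j => az (c j) (ac (qm (β j).1) (un τ))) 𝒰 G₀ z₁) :
    ∃ s : M8 ℤ_[l], GS 1 s ∧ ∀ γ ∈ G₀, ¬ Far (M.D l) ((dl s)ᵀ * zl l γ * s) := by
  have m1 : un τ ∈ G.HH gg := by rwa [← mk_un hτ.symm] at hτ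
  choose n g κ k1 k2 k3 using hκ
  obtain ⟨s, hs, lim⟩ := exists_limit 𝒰 (a := fun j => zl l (c j) * κ j) fun j => by
    have := ((gs_one_iff.2 (c j).2).map (Int.castRingHom ℤ_[l])).mul (k2 j)
    rwa [map_one, mul_one] at this
  refine ⟨s, hs, fun γ hγ hf => ?_⟩
  obtain ⟨c1, h1⟩ := levels h2 hm hs hf
  obtain ⟨C, m₀, h3⟩ := gram_th hz₁
  have l2 := l.2.two_le
  set q := 2 * (2 * gg * (2 * gg)) with hq
  have key : ∀ e, ∃ (D r : ℕ) (ch : Fin r → Fin D → I2 gg → ℤ), m₀ + 1 ≤ e →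
      D ≤ 512 * (l * q + 1) * e ∧ ((l : ℕ) ^ e) ^ (6 * nn + 2) ≤ c1 * C * r ∧
        r ≤ ((l : ℕ) ^ e) ^ q ∧ ∀ z, Kill M l e z ch → z = 0 := fun e => by
    by_cases he : m₀ + 1 ≤ e
    swap
    · exact ⟨0, 0, fun i => i.elim0, fun h => (he h).elim⟩
    obtain ⟨X, _, t, k, σ, a1, a2, a3⟩ := h1 e
    have a4 := card_le _ a3
    have a5 : ∀ x, γ ^ t x * σ x ∈ G.Gam gg 32 := fun x => mul_mem (pow_mem (hG hγ) _) (a2 x).1
    obtain ⟨r, ch, b1, b2, b3⟩ := h3 ((l : ℕ) ^ e)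
      (by have := Nat.lt_pow_self (n := e) (show 1 < (l : ℕ) from l2); omega) X
      (fun x => γ ^ t x * σ x) (fun x => Gam_mono (by norm_num) (a5 x))
      fun x y h => a3 x y (red_cong h)
    refine ⟨_, r, ch, fun _ => ⟨?_, a1.trans (by rw [mul_assoc]; exact Nat.mul_le_mul_left _ b1),
      b2.trans (a4.trans_eq (by rw [hq]; ring)), fun z hk => b3 z fun x => ?_⟩⟩
    · have : Nat.log 2 (Fintype.card X) ≤ l * q * e := by
        refine (Nat.log_mono_right (a4.trans ((Nat.pow_le_pow_left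
          (Nat.lt_two_pow_self (n := l)).le _).trans_eq (pow_mul _ _ _).symm))).trans_eq ?_
        rw [Nat.log_pow one_lt_two, hq]; ring
      rw [mul_assoc, add_mul]
      omega
    rw [_root_.mul_inv_rev, az_mul _ _ hz₁]
    refine acc _ _ _ z ch (by positivity) _ (inv_mem (a2 x).1) ?_ _ (inv_mem (pow_mem hγ _))
    filter_upwards [lim (2 * e)] with j hj
    rw [← az_mul _ _ (show ac (qm (β j).1) _ ∈ _ from ac_mem (qsp (β j)) m1)]
    refine kill_pt hτ M h2 hk (hβ j) (k1 j) (k3 j) (mul_mem (inv_mem (a2 x).1) (hc j)) (k x) ?_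
    rw [map_mul (zl l), Matrix.mul_assoc (zl l _), Matrix.mul_assoc, map_mul, map_mul, hj,
      ← map_mul _ s, ← (a2 x).2, ← map_mul, ← map_mul, inv_mul_cancel, map_one, map_one]
  choose D r ch key using key
  obtain ⟨e, z, e1, e2, e3⟩ := hz ⟨512 * (l * q + 1) + c1 * C + q, m₀ + 1, D, r, ch,
    fun e he => (key e he).1.trans (Nat.mul_le_mul_right _ (by omega)),
    fun e he => (key e he).2.1.trans (Nat.mul_le_mul_right _ (by omega)),
    fun e he => (key e he).2.2.1.trans (Nat.pow_le_pow_right (by positivity) (by omega))⟩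
  exact e2 ((key e e1).2.2.2 z e3)

end Pool.Agent.MT.R
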