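import Pool.Agent.Lib.MP_d61fbb_ag.MN.R1
import Pool.Agent.Lib.MP_d61fbb_ag.MN.FDefs
import Pool.Agent.Lib.MP_d61fbb_ag.MT.G0d

/-! Relations between theta constants pass to the limit set and to its monodromy group. -/

set_option autoImplicit false

noncomputable section

namespace Pool.Agent.MT.R

variable [Dim]

open Matrix Filter G

omit [Dim] in
theorem gam_two {g : ℕ} {γ : Sp g ℤ} (h : γ ∈ Gam g 2) : ∃ δ, γ.1 = 1 + (2 : ℤ) • δ := by
  choose δ hδ using h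
  exact ⟨of δ, Matrix.ext fun i j => by simpa [sub_eq_iff_eq_add'] using hδ i j⟩

omit [Dim] in
theorem th_two {g : ℕ} {γ : Sp g ℤ} (h : γ ∈ Gam g 2) {z : EE g} (hz : z ∈ HH g) :
    ∃ j : ℂ, j ≠ 0 ∧ ∀ x, Th (mk (az γ z)) (γ.1.map (↑) *ᵥ x) = j * Th (mk z) x := by
  obtain ⟨δ, hδ⟩ := gam_two h
  obtain ⟨j, -, hj⟩ := (gs_one_iff.2 γ.2).dl.trans_two (δ := dl δ)
    (by rw [hδ, dl_add, dl_smul, dl_one])
  have e : cm (zm γ.1) = γ.1.map (Int.castRingHom ℂ) := by ext; simp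
  refine ⟨j (mk z), (hj _ hz).1, fun x => ?_⟩
  have := (hj _ hz).2 x
  rw [show (dl γ.1).map (↑) = dl (cm (zm γ.1)) by rw [e, ← dl_map]; rfl, dl_dl] at this
  rw [show mk (az γ z) = _ from mk_ac (zsp γ) z]
  exact (congrArg (fun Y => Th _ (Y *ᵥ x)) e.symm).trans this

omit [Dim] in
theorem qp_th {g : ℕ} {τ : Matrix (Fin g) (Fin g) ℂ} (h : Sieg τ) :
    Qp (fun x => Th τ (rc x)) fun t => ee (Qf (zc t) / 2) where
  cont := h.diff_Th.continuous.comp (by fun_prop)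
  ne := by
    obtain ⟨η, hη⟩ := h.exists_ne 0
    exact ⟨fun i => vz η i / 2, by
      convert hη using 2; funext i; simp [hv, div_eq_inv_mul]⟩
  one t := by rw [Qf_zc]; exact_mod_cast norm_ee (Qf t) 2
  per x t := by
    rw [← Th_int]; congr 1; funext i; simp [rc]

omit [Dim] in
/-- many independent monomials at one point -/
theorem gram_th {g : ℕ} {z : EE g} (hz : z ∈ HH g) : ∃ C m₀ : ℕ, ∀ m, m₀ ≤ m →
    ∀ (X : Type) [Fintype X] (γ : X → Sp g ℤ), (∀ x, γ x ∈ Gam g 2) →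
      (∀ x y, Cong (m ^ 2) (γ x).1 (γ y).1 → x = y) →
      ∃ (r : ℕ) (ch : Fin r → Fin (512 * (Nat.log 2 (Fintype.card X) + 1)) → I2 g → ℤ),
        Fintype.card X ≤ C * r ∧ r ≤ Fintype.card X ∧ ∀ c : Fin r → ℤ,
          (∀ x, qv c ch (fun a => Th (mk (az (γ x)⁻¹ z)) fun j => (a j : ℂ) / m) = 0) → c = 0 := by
  obtain ⟨C, m₀, H⟩ := gram (qp_th hz)
    ((symplecticGroup (Fin g) ℤ).subtype.comp (Gam g 2).subtype)
    (fun γ x y => by simpa using gs_one_iff.2 γ.1.2 x y) fun γ t => by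
      obtain ⟨δ, hδ⟩ := gam_two γ.2
      obtain ⟨k, hk⟩ := even_of_two hδ t
      rw [Qf_zc, Qf_zc]
      refine ee_congr k ?_
      rw [Ef_zero_left, sub_zero, sub_eq_iff_eq_add] at hk
      rw [show Qf (((symplecticGroup (Fin g) ℤ).subtype.comp (Gam g 2).subtype) γ *ᵥ t) = _ from hk]
      push_cast; ring
  refine ⟨C, m₀, fun m hm X _ γ h2 hγ => ?_⟩
  obtain ⟨r, ch, h3, h4, h5⟩ := H m hm X (fun x => ⟨γ x, h2 x⟩) fun x y h =>
    hγ x y fun i j => by exact_mod_cast h i j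
  refine ⟨r, ch, h3, h4, fun c hc => funext fun i => Int.cast_eq_zero.1
    (congrFun (h5 (fun i => (c i : ℂ)) fun x => ?_) i)⟩
  obtain ⟨j, j0, hj⟩ := th_two (inv_mem (h2 x)) hz
  have e : ∀ a : I2 g → ℤ, Th (mk (az (γ x)⁻¹ z)) (fun j => (a j : ℂ) / m) =
      j * vm m (fun x => Th (mk z) (rc x)) ((γ x).1 *ᵥ a) := fun a => by
    rw [vm, ← hj]
    congr 1
    have e1 : ((γ x)⁻¹).1 *ᵥ (γ x).1 *ᵥ a = a := by
      rw [mulVec_mulVec, show ((γ x)⁻¹).1 * (γ x).1 = 1 from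
        congrArg Subtype.val (inv_mul_cancel (γ x)), one_mulVec]
    funext i
    conv_lhs => rw [← e1]
    generalize (γ x).1 *ᵥ a = b
    simp [mulVec, dotProduct, Finset.sum_div, mul_div_assoc, -Fintype.sum_sum_type]
  have := hc x
  simp only [qv, e, Finset.prod_mul_distrib, Finset.prod_const, mul_left_comm _ (j ^ _),
    ← Finset.mul_sum] at this
  exact (mul_eq_zero.1 this).resolve_left (pow_ne_zero _ j0)

/-- relations that hold for most translates of the points hold on the orbit of the base point -/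
def Acc (z : ℕ → EE gg) (𝒰 : Filter ℕ) (G₀ : Subgroup (Sp gg ℤ)) (z₁ : EE gg) : Prop :=
  ∀ (m D r : ℕ) (c : Fin r → ℤ) (ch : Fin r → Fin D → I2 gg → ℤ), 0 < m → ∀ δ ∈ Gam gg 32,
    (∀ᶠ j in 𝒰, qv c ch (Thm m (mk (az δ (z j)))) = 0) →
      ∀ γ ∈ G₀, qv c ch (Thm m (mk (az δ (az γ z₁)))) = 0

theorem acc_of {z : ℕ → EE gg} {𝒰 : Filter ℕ} {G₀ : Subgroup (Sp gg ℤ)} {z₁ : EE gg}
    (y₀ : LL gg 1) (Y : Set (EE gg)) (h1 : z₁ ∈ Y) (h2 : ∀ w ∈ Y, w ∈ HH gg ∧ th (ch 1 y₀) w ≠ 0)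
    (h3 : ∀ γ ∈ G₀, ∀ w ∈ Y, az γ w ∈ Y)
    (h4 : ∀ M, 0 < M → ∀ δ ∈ Gam gg 32, ∀ P : MvPolynomial (ChL gg M) ℂ,
      (∀ᶠ j in 𝒰, MvPolynomial.eval (fun x : ChL gg M =>
        th x (az δ (z j)) / th (ch 1 y₀) (az δ (z j))) P = 0) →
      ∀ w ∈ Y, MvPolynomial.eval (fun x : ChL gg M =>
        th x (az δ w) / th (ch 1 y₀) (az δ w)) P = 0) : Acc z 𝒰 G₀ z₁ := by
  intro m D r c ch' hm δ hδ h γ hγ
  have m0 : (m : ℚ) ≠ 0 := by exact_mod_cast hm.ne'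
  let x : (I2 gg → ℤ) → ChL gg m := fun a => ⟨fun j => (a j : ℚ) / m, fun i =>
    ⟨4 * a i, by push_cast; field_simp⟩⟩
  have e : ∀ w, MvPolynomial.eval (fun x : ChL gg m => th x w / th (ch 1 y₀) w)
      (∑ i, MvPolynomial.C (c i : ℂ) * ∏ k, MvPolynomial.X (x (ch' i k))) =
      qv c ch' (Thm m (mk w)) / th (ch 1 y₀) w ^ D := fun w => by
    have : ∀ a, th (x a) w = Thm m (mk w) a := fun a => by
      rw [th, Thm]; congr 1; funext j; simp [x]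
    simp [qv, this, Finset.sum_div, mul_div_assoc]
  have k := h4 m hm δ hδ _ (h.mono fun j hj => by rw [e, hj, zero_div]) _ (h3 γ hγ _ h1)
  obtain ⟨j, j0, hj⟩ := pull δ
  obtain ⟨k1, k2⟩ := h2 _ (h3 γ hγ _ h1)
  rw [e, (hj 1).2 (by simpa using hδ) 1 _ (th_mem (ch_mem y₀)) _ k1] at k
  exact (div_eq_zero_iff.1 k).resolve_right
    (pow_ne_zero _ (mul_ne_zero (pow_ne_zero _ (j0 _ k1)) k2))

end Pool.Agent.MT.R
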