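import Pool.Agent.Lib.MP_d61fbb_ag.MN.R5
import Pool.Agent.Lib.MP_d61fbb_ag.MN.UA
import Pool.Agent.Lib.MP_d61fbb_ag.MT.UT

/-! A monodromy group that normalises the slots up to powers has its annihilator in the slots. -/

set_option autoImplicit false

noncomputable section

namespace Pool.Agent.MT.U

variable [Dim]

open Matrix G

variable {F : Type} [Field F] [CharZero F] (φ : Fr3 F)

theorem Fr3.r5_trace (i : Fin nn) {x : M2 F} : (φ.s i x).trace = 0 ↔ x.trace = 0 := by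
  rw [φ.s_apply, trace_mul_cycle, φ.inv_mul, Matrix.one_mul, sl, kp_trace,
    ← Finset.prod_erase_mul _ _ (Finset.mem_univ i), Pi.mulSingle_eq_same, mul_eq_zero]
  refine or_iff_right (Finset.prod_ne_zero_iff.2 fun j hj => ?_)
  rw [Pi.mulSingle_eq_of_ne (Finset.ne_of_mem_erase hj)]
  simp

theorem Fr3.r5_om (f : F →+* ℂ) (i : Fin nn) : UM.Om (φ.map f).U (φ.map f).U' (J (Fin gg) ℂ) i =
    fun a => f (UM.Om φ.U φ.U' (J (Fin gg) F) i a) := by
  have ea : ∀ k, (UM.ba F k).map f = UM.ba ℂ k := fun k => by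
    ext a b
    fin_cases k <;> fin_cases a <;> fin_cases b <;> simp [UM.ba]
  have eb : ∀ k, (UM.bb F k).map f = UM.bb ℂ k := fun k => by
    ext a b
    fin_cases k <;> fin_cases a <;> fin_cases b <;> simp [UM.bb, map_ofNat]
  ext a
  simp only [UM.Om, Finset.sum_apply, UM.T4, map_sum, map_mul, ← Fr3.s_apply, ← ea, ← eb,
    ← φ.map_s, ← map_J _ f, ← Matrix.map_mul, map_apply]

/-- CAS -/
theorem Fr3.r5 (f : F →+* ℂ) {G₀ : Subgroup (Sp gg ℤ)} (hle : G₀ ≤ Gam gg 32)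
    (h : ∀ γ ∈ G₀, ∃ N : ℕ, N ≠ 0 ∧ ∀ (i : Fin nn) (x : M2 F), ∃ x' : M2 F,
      γ.1.map (Int.cast : ℤ → F) ^ N * φ.s i x = φ.s i x' * γ.1.map (Int.cast : ℤ → F) ^ N) :
    Ann G₀ (Fin 4) ≤ (φ.map f).hh := by
  intro X hX
  refine (φ.map f).mem_hh.2 (UM.om_ann_J (φ.map f).mul_inv (φ.map f).inv_mul hX.1 fun i =>
    hX.2 _ fun γ hγ => ?_)
  obtain ⟨N, hN, e⟩ := h γ hγ
  have m : γ.1.map (Int.cast : ℤ → F) ^ N ∈ symplecticGroup (Fin gg) F :=
    pow_mem (SymplecticGroup.map_mem γ.2 (Int.castRingHom F)) N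
  have k := UM.om_inv_J φ.inv_mul m (i := i) fun x hx => by
    obtain ⟨y, hy⟩ := e i x
    obtain ⟨u, hu⟩ := (⟨⟨_, m⟩⁻¹, congrArg Subtype.val (mul_inv_cancel (⟨_, m⟩ : Sp gg F))⟩ :
      ∃ u : Sp gg F, γ.1.map (Int.cast : ℤ → F) ^ N * u.1 = 1)
    refine ⟨y, (φ.r5_trace i).1 ?_, hy⟩
    rw [← mul_one (φ.s i y), ← hu, ← mul_assoc, ← hy, trace_mul_cycle, mul_eq_one_comm.1 hu,
      one_mul, φ.r5_trace, hx]
  choose Y hY using hle hγ
  obtain ⟨Y', hY'⟩ := tk_cong (Fin 4) (m := 4) (A := γ.1) (Y := (8 : ℤ) • of Y) (by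
    ext a b
    have := hY a b
    simp only [Matrix.add_apply, Matrix.smul_apply, of_apply, smul_eq_mul]
    push_cast at this
    linear_combination this)
  have k2 := neat hN hY' (v := UM.Om φ.U φ.U' (J (Fin gg) F) i) (by
    rw [show (tk (Fin 4) γ.1).map (Int.cast : ℤ → F) = _ from tk_map (Int.castRingHom F) γ.1, tk,
      ← kp_pow]
    exact k)
  rw [φ.r5_om]
  ext a
  have := congrArg f (congrFun k2 a)
  simpa [mulVec, dotProduct, tk_apply] using this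

end Pool.Agent.MT.U
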