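import Pool.Agent.Lib.MP_d61fbb_ag.MN.R4
import Pool.Agent.Lib.MP_d61fbb_ag.MN.R2
import Pool.Agent.Lib.MP_d61fbb_ag.MN.R3
import Pool.Agent.Lib.MP_d61fbb_ag.MN.R5b

/-! The annihilator of the invariant tensors of the limit set lies in the slots of a frame. -/

set_option autoImplicit false

noncomputable section

namespace Pool.Agent.MT.U

variable [Dim]

open Matrix G Cardinal

omit [Dim] in
theorem exists_emb (l : ℕ) [Fact l.Prime] : Nonempty (PadicAlgCl l →+* ℂ) := by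
  have h1 : Cardinal.mk ℚ_[l] ≤ 𝔠 := (mk_quotient_le (α := CauSeq ℚ (padicNorm l))).trans
    ((mk_subtype_le _).trans_eq (by simp))
  have h2 : 𝔠 ≤ Cardinal.mk (PadicAlgCl l) :=
    (continuum_le_cardinal_of_nontriviallyNormedField ℚ_[l]).trans
      (mk_le_of_injective (algebraMap ℚ_[l] (PadicAlgCl l)).injective)
  have h3 := (Algebra.IsAlgebraic.cardinalMk_le_max ℚ_[l] (PadicAlgCl l)).trans
    (max_le h1 aleph0_le_continuum)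
  exact (IsAlgClosed.ringEquiv_of_equiv_of_charZero (aleph0_lt_continuum.trans_le h2)
    (Cardinal.eq.1 ((h3.antisymm h2).trans mk_complex.symm))).map RingEquiv.toRingHom

/-- NORMAL -/
theorem Cmp.r4 {τ : Matrix (Fin gg) (Fin gg) ℂ} {K : IntermediateField ℚ ℂ} (hτ : Sieg τ)
    (M : MumfordType τ K) {l : Pr} (h2 : (l : ℕ) ≠ 2)
    (hz : ∀ F : Fam l, ∃ (e : ℕ) (z : Fin (F.r e) → ℤ), F.e0 ≤ e ∧ z ≠ 0 ∧ Kill M l e z (F.ch e))
    {β : ℕ → G.Sp gg ℚ}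
    (hβ : ∀ j, ∀ p : Pr, (p : ℕ) ≠ l → ∀ a b, ‖((((β j).1 - 1) a b / 2 : ℚ) : ℚ_[p])‖ ≤ 1)
    (hκ : ∀ j, ∃ (n : ℕ) (g : M2 (AdjoinRoot (M.D l).c)) (κ : M8 ℤ_[l]),
      g.det = ((l : ℕ) : AdjoinRoot _) ^ (2 * n) ∧ GS 1 κ ∧ (β j).1.map (Rat.cast : ℚ → ℚ_[l]) *
        ((M.D l).Nm g).map ((↑) : ℤ_[l] → ℚ_[l]) =
          ((l : ℕ) : ℚ_[l]) ^ (nn * n) • κ.map ((↑) : ℤ_[l] → ℚ_[l]))
    {𝒰 : Ultrafilter ℕ} (C : Cmp (fun j => ac (qm (β j).1) (un τ)) 𝒰) :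
    ∃ φ : Fr3 ℂ, Ann C.G₀ (Fin 4) ≤ φ.hh := by
  obtain ⟨s, hs, H⟩ := R.normal_core hτ M h2 hz ((M.D l).many h2) hβ hκ C.c_mem C.le
    (C.sub _ C.mem₁).1 (R.acc_of C.y₀ C.Y C.mem₁ C.sub C.stab C.dense)
  obtain ⟨f⟩ := exists_emb l
  let i := (algebraMap ℤ_[l] (PadicAlgCl l)).mapMatrix (m := I2 gg)
  let a : G.Sp gg (PadicAlgCl l) := ⟨i s, SymplecticGroup.map_mem (gs_one_iff.1 hs) _⟩
  have e1 : s * (dl s)ᵀ = 1 := hs.mul_dlT
  have e2 : (dl s)ᵀ * s = 1 := mul_eq_one_comm.1 e1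
  have e3 : (a⁻¹).1 = i (dl s)ᵀ := left_inv_eq_left_inv (congrArg Subtype.val (inv_mul_cancel a))
    (by rw [← map_mul, e2, map_one])
  refine ⟨_, ((cubFr (M.D l)).cj a).r5 f C.le fun γ hγ => ?_⟩
  obtain ⟨N, hN, h⟩ := R.exists_order (l := l) γ
  refine ⟨N, hN, fun k x => ?_⟩
  obtain ⟨x', e⟩ := (((M.D l).twist h2 fun u v => by
    simpa using R.red_iff.1 (show R.red l 1 ((dl s)ᵀ * R.zl l (γ ^ N) * s) = R.red l 1 1 by
      rw [map_mul, map_mul, h, mul_one, ← map_mul, e2]) u v).resolve_right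
        (H _ (pow_mem hγ N))) k x
  have e4 : γ.1.map (Int.cast : ℤ → PadicAlgCl l) ^ N = i (R.zl l (γ ^ N)) := by
    rw [map_pow, map_pow]
    congr 1
  have e5 : i s * i (dl s)ᵀ = 1 := by rw [← map_mul, e1, map_one]
  refine ⟨x', ?_⟩
  change i _ * (cubFr (M.D l)).s k x = (cubFr (M.D l)).s k x' * i _ at e
  have := congrArg (fun Y => i s * Y * i (dl s)ᵀ) e
  simp only [map_mul, mul_assoc, e5, mul_one, ← mul_assoc (i s) (i (dl s)ᵀ), one_mul] at this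
  simpa only [Fr3.cj_s, e3, e4, mul_assoc] using this

end Pool.Agent.MT.U
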