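import Pool.Agent.Lib.MP_d61fbb_ag.MN.R5a

/-! The Casimir tensors of the slots of a frame. -/

set_option autoImplicit false

open Matrix Function

namespace Pool.Agent.MT.UM

variable {ι κ n F : Type*} [Fintype ι] [DecidableEq ι] [Fintype κ] [Fintype n] [DecidableEq n]
  [Field F]

/-- the tensor product of two matrices as a tensor of degree four -/
def T4 (A B : Matrix n n F) : (Fin 4 → n) → F := fun a => A (a 0) (a 1) * B (a 2) (a 3)

omit [DecidableEq n] in
theorem sum_four (f : (Fin 4 → n) → F) : ∑ b, f b = ∑ p, ∑ q, ∑ r, ∑ s, f ![p, q, r, s] := by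
  let e : n × n × n × n ≃ (Fin 4 → n) :=
    ⟨fun p => ![p.1, p.2.1, p.2.2.1, p.2.2.2], fun b => (b 0, b 1, b 2, b 3), fun _ => rfl,
      fun b => by ext i; fin_cases i <;> rfl⟩
  rw [← e.sum_comp]
  simp only [Fintype.sum_prod_type]
  rfl

omit [DecidableEq n] in
theorem kp_T4 (g : Fin 4 → Matrix n n F) (A B : Matrix n n F) :
    kp g *ᵥ T4 A B = T4 (g 0 * A * (g 1)ᵀ) (g 2 * B * (g 3)ᵀ) := by
  ext a
  have e : ∀ (x y M : Matrix n n F) (s t : n),
      (x * M * yᵀ) s t = ∑ p, ∑ q, x s p * y t q * M p q := fun x y M s t => by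
    simp only [mul_apply, transpose_apply, Finset.sum_mul]
    rw [Finset.sum_comm]
    exact Finset.sum_congr rfl fun p _ => Finset.sum_congr rfl fun q _ => by ring
  simp only [mulVec, dotProduct, T4, kp_apply, e, sum_four, Fin.prod_univ_four, Finset.sum_mul]
  simp only [Finset.mul_sum]
  refine Finset.sum_congr rfl fun p _ => Finset.sum_congr rfl fun q _ =>
    Finset.sum_congr rfl fun r _ => Finset.sum_congr rfl fun s _ => ?_
  simp only [cons_val]
  ring

omit [Fintype n] [DecidableEq n] in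
theorem T4_add (A A' B : Matrix n n F) : T4 (A + A') B = T4 A B + T4 A' B := by
  ext a
  simp only [T4, Matrix.add_apply, Pi.add_apply, add_mul]

omit [Fintype n] [DecidableEq n] in
theorem T4_add' (A B B' : Matrix n n F) : T4 A (B + B') = T4 A B + T4 A B' := by
  ext a
  simp only [T4, Matrix.add_apply, Pi.add_apply, mul_add]

theorem dp_T4 (X A B : Matrix n n F) :
    dp (Fin 4) X *ᵥ T4 A B = T4 (X * A + A * Xᵀ) B + T4 A (X * B + B * Xᵀ) := by
  rw [dp, Fin.sum_univ_four, add_mulVec, add_mulVec, add_mulVec, T4_add, T4_add', add_assoc]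
  simp [sl, kp_T4]

/-- the contraction of the last two indices -/
def ct (Z : Matrix n n F) : ((Fin 4 → n) → F) →ₗ[F] Matrix n n F where
  toFun v := of fun p q => ∑ r, ∑ s, v ![p, q, r, s] * Z s r
  map_add' v w := by
    ext p q
    simp [add_mul, Finset.sum_add_distrib]
  map_smul' c v := by
    ext p q
    simp [Finset.mul_sum, mul_assoc]

omit [DecidableEq n] in
theorem ct_T4 (Z A B : Matrix n n F) : ct Z (T4 A B) = (B * Z).trace • A := by
  ext p q
  simp only [ct, T4, LinearMap.coe_mk, AddHom.coe_mk, of_apply, cons_val, Matrix.smul_apply,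
    trace, Matrix.diag_apply, mul_apply, smul_eq_mul, Finset.sum_mul]
  exact Finset.sum_congr rfl fun r _ => Finset.sum_congr rfl fun s _ => by ring

theorem ct_ext {v w : (Fin 4 → n) → F} (h : ∀ Z, ct Z v = ct Z w) : v = w := by
  ext a
  have e : ∀ u : (Fin 4 → n) → F, ct (single (a 3) (a 2) 1) u (a 0) (a 1) = u a := fun u => by
    simp only [ct, LinearMap.coe_mk, AddHom.coe_mk, of_apply]
    rw [Finset.sum_eq_single (a 2), Finset.sum_eq_single (a 3), single_apply_same, mul_one]
    · congr 1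
      ext i
      fin_cases i <;> rfl
    · intro s _ hs
      rw [single_apply_of_row_ne hs.symm, mul_zero]
    · simp
    · intro r _ hr
      exact Finset.sum_eq_zero fun s _ => by rw [single_apply_of_col_ne _ _ hr.symm, mul_zero]
    · simp
  rw [← e v, ← e w, h]

/-- A subspace with a pair of dual families for the trace form. -/
structure Cas (h : Submodule F (Matrix n n F)) (A B : κ → Matrix n n F) (c : F) : Prop where
  memA : ∀ k, A k ∈ h
  memB : ∀ k, B k ∈ h
  ne : c ≠ 0
  sym : ∀ Z Y : Matrix n n F, ∑ k, (B k * Z).trace * (A k * Y).trace =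
    ∑ k, (B k * Y).trace * (A k * Z).trace
  proj : ∀ Z ∈ h, ∑ k, (B k * Z).trace • A k = c • Z

namespace Cas

variable {h : Submodule F (Matrix n n F)} {A B : κ → Matrix n n F} {c : F} (C : Cas h A B c)
include C

theorem inv {γ γ' E : Matrix n n F} (h1 : γ * γ' = 1) (hE : γ * E * γᵀ = E)
    (hn : ∀ X ∈ h, γ * X * γ' ∈ h) :
    tk (Fin 4) γ *ᵥ ∑ k, T4 (A k * E) (B k * E) = ∑ k, T4 (A k * E) (B k * E) := by
  have h2 : γ' * γ = 1 := mul_eq_one_comm.1 h1
  have hn' : ∀ Y ∈ h, γ' * Y * γ ∈ h := fun Y hY => by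
    let f : h →ₗ[F] h :=
      (LinearMap.mulRight F γ' ∘ₗ LinearMap.mulLeft F γ).restrict fun X hX => hn X hX
    have back : ∀ X : Matrix n n F, γ' * (γ * X * γ') * γ = X := fun X => by
      rw [← mul_assoc, ← mul_assoc, h2, one_mul, mul_assoc, h2, mul_one]
    obtain ⟨X, hX⟩ := (LinearMap.injective_iff_surjective (f := f)).1 (fun X X' e => Subtype.ext (by
      rw [← back X, ← back X']
      exact congrArg (fun Z : h => γ' * Z.1 * γ) e)) ⟨Y, hY⟩
    rw [← show γ * X.1 * γ' = Y from congrArg Subtype.val hX, back]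
    exact X.2
  have e1 : ∀ X : Matrix n n F, γ * (X * E) * γᵀ = γ * X * γ' * E := fun X => by
    conv_rhs => rw [← hE]
    simp only [mul_assoc, ← mul_assoc γ' γ, h2, one_mul]
  have key : ∀ Z : Matrix n n F, ∑ k, (γ * B k * γ' * Z).trace • (γ * A k * γ') =
      ∑ k, (B k * Z).trace • A k := fun Z => by
    have hW : ∑ k, (γ * B k * γ' * Z).trace • (γ * A k * γ') ∈ h :=
      h.sum_mem fun k _ => h.smul_mem _ (hn _ (C.memA k))
    refine smul_right_injective _ C.ne ?_
    change c • _ = c • _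
    rw [← C.proj _ hW, Finset.smul_sum]
    refine Finset.sum_congr rfl fun k _ => ?_
    rw [smul_smul]
    congr 1
    have s1 := C.sym (γ' * Z * γ) (γ' * B k * γ)
    have s2 := congrArg (fun W => (W * (γ' * Z * γ)).trace) (C.proj _ (hn' _ (C.memB k)))
    simp only [Finset.sum_mul, smul_mul_assoc, trace_sum, trace_smul, smul_eq_mul] at s2
    rw [s2] at s1
    have t : ∀ X Y : Matrix n n F, (X * (γ' * Y * γ)).trace = (γ * X * γ' * Y).trace :=
      fun X Y => by rw [← mul_assoc, trace_mul_comm]; simp only [mul_assoc]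
    simp only [t] at s1
    rw [show γ * (γ' * B k * γ) * γ' = B k by
      rw [← mul_assoc, ← mul_assoc, h1, one_mul, mul_assoc, h1, mul_one]] at s1
    rw [← s1, Finset.mul_sum, trace_sum]
    exact Finset.sum_congr rfl fun j _ => by
      rw [mul_smul_comm, trace_smul, smul_eq_mul, trace_mul_comm (B k)]
  rw [mulVec_sum]
  refine ct_ext fun Z => ?_
  have := congrArg (· * E) (key (E * Z))
  simpa only [tk, kp_T4, e1, map_sum, ct_T4, smul_mul_assoc, Finset.sum_mul, mul_assoc _ E Z]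
    using this

theorem ann {X E E' : Matrix n n F} (hE : E * E' = 1) (hX : X * E + E * Xᵀ = 0)
    (h0 : dp (Fin 4) X *ᵥ ∑ k, T4 (A k * E) (B k * E) = 0) {Z : Matrix n n F} (hZ : Z ∈ h) :
    X * Z - Z * X ∈ h := by
  have e1 : ∀ Y : Matrix n n F, X * (Y * E) + Y * E * Xᵀ = (X * Y - Y * X) * E := fun Y => by
    rw [mul_assoc Y, eq_neg_of_add_eq_zero_right hX]
    noncomm_ring
  have e2 := congrArg (fun v => ct (E' * Z) v * E') h0
  simp only [mulVec_sum, dp_T4, e1] at e2
  simp only [map_sum, map_add, ct_T4, map_zero, zero_mul, Finset.sum_mul,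
    add_mul, smul_mul_assoc, mul_assoc _ E, ← mul_assoc E E', hE, mul_one, one_mul,
    Finset.sum_add_distrib] at e2
  have e3 : ∑ k, (B k * Z).trace • (X * A k - A k * X) = c • (X * Z - Z * X) := by
    rw [smul_sub, ← mul_smul_comm, ← smul_mul_assoc, ← C.proj _ hZ, Finset.mul_sum,
      Finset.sum_mul, ← Finset.sum_sub_distrib]
    simp only [smul_sub, mul_smul_comm, smul_mul_assoc]
  rw [← h.smul_mem_iff C.ne, ← e3, eq_neg_of_add_eq_zero_left e2]
  exact neg_mem (h.sum_mem fun k _ => h.smul_mem _ (C.memA k))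

end Cas

/-- a basis of the traceless matrices -/
def ba (F : Type*) [Field F] : Fin 3 → N2 F := ![!![0, 1; 0, 0], !![0, 0; 1, 0], !![1, 0; 0, -1]]

/-- the dual basis -/
def bb (F : Type*) [Field F] : Fin 3 → N2 F :=
  ![!![0, 0; 1, 0], !![0, 1; 0, 0], (2 : F)⁻¹ • !![1, 0; 0, -1]]

variable (V : Matrix n (ι → Fin 2) F) (V' : Matrix (ι → Fin 2) n F)

/-- one slot of a frame -/
def slot (i : ι) : Submodule F (Matrix n n F) where
  carrier := {X | ∃ x : N2 F, x.trace = 0 ∧ X = V * sl i x * V'}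
  zero_mem' := ⟨0, by simp, by simp [sl_zero]⟩
  add_mem' := by
    rintro _ _ ⟨x, h, rfl⟩ ⟨y, h', rfl⟩
    exact ⟨x + y, by simp [h, h'], by rw [sl_add, Matrix.mul_add, Matrix.add_mul]⟩
  smul_mem' := by
    rintro c _ ⟨x, h, rfl⟩
    exact ⟨c • x, by simp [h], by rw [sl_smul, Matrix.mul_smul, Matrix.smul_mul]⟩

/-- the Casimir tensor of a slot -/
def Om (E : Matrix n n F) (i : ι) : (Fin 4 → n) → F :=
  ∑ k, T4 (V * sl i (ba F k) * V' * E) (V * sl i (bb F k) * V' * E)

variable {V V'} [CharZero F]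

omit [DecidableEq n] in
theorem cas_slot (hV' : V' * V = 1) (i : ι) : Cas (slot V V' i) (fun k => V * sl i (ba F k) * V')
    (fun k => V * sl i (bb F k) * V') (∏ _j ∈ Finset.univ.erase i, (2 : F)) where
  memA k := ⟨_, by fin_cases k <;> simp [ba, trace_fin_two], rfl⟩
  memB k := ⟨_, by fin_cases k <;> simp [bb, trace_fin_two], rfl⟩
  ne := Finset.prod_ne_zero_iff.2 fun _ _ => two_ne_zero
  sym Z Y := by
    simp only [Fin.sum_univ_three, ba, bb, cons_val, sl_smul, Matrix.mul_smul, Matrix.smul_mul,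
      trace_smul, smul_eq_mul]
    ring
  proj := by
    rintro _ ⟨z, hz, rfl⟩
    have t : ∀ x : N2 F, (V * sl i x * V' * (V * sl i z * V')).trace =
        (∏ _j ∈ Finset.univ.erase i, (2 : F)) * (x * z).trace := fun x => by
      rw [Matrix.mul_assoc, ← Matrix.mul_assoc V', ← Matrix.mul_assoc V', hV', Matrix.one_mul,
        ← Matrix.mul_assoc, trace_mul_comm, ← Matrix.mul_assoc, ← Matrix.mul_assoc, hV',
        Matrix.one_mul, ← sl_mul, sl, kp_trace,
        ← Finset.prod_erase_mul _ _ (Finset.mem_univ i), Pi.mulSingle_eq_same]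
      congr 1
      exact Finset.prod_congr rfl fun j hj => by
        rw [Pi.mulSingle_eq_of_ne (Finset.ne_of_mem_erase hj)]
        simp
    have e : z = ∑ k, (bb F k * z).trace • ba F k := by
      have h' : z 1 1 = -z 0 0 := by
        rw [trace_fin_two] at hz
        linear_combination hz
      ext a b
      fin_cases a <;> fin_cases b <;>
        simp [Fin.sum_univ_three, ba, bb, trace_fin_two, h', vecMul, dotProduct] <;> ring
    simp only [t, mul_smul, ← Finset.smul_sum]
    congr 1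
    conv_rhs => rw [e]
    simp only [Fin.sum_univ_three, sl_add, sl_smul, Matrix.mul_add, Matrix.add_mul,
      Matrix.mul_smul, Matrix.smul_mul]

/-- a matrix that keeps the form and normalises a slot fixes its Casimir tensor -/
theorem om_inv (hV' : V' * V = 1) {γ γ' E : Matrix n n F} (h1 : γ * γ' = 1) (hE : γ * E * γᵀ = E)
    {i : ι} (hn : ∀ x : N2 F, x.trace = 0 → ∃ y : N2 F, y.trace = 0 ∧
      γ * (V * sl i x * V') = V * sl i y * V' * γ) : tk (Fin 4) γ *ᵥ Om V V' E i = Om V V' E i :=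
  (cas_slot hV' i).inv h1 hE <| by
    rintro _ ⟨x, hx, rfl⟩
    obtain ⟨y, hy, e⟩ := hn x hx
    exact ⟨y, hy, by rw [e, mul_assoc, h1, mul_one]⟩

/-- the annihilator of the Casimir tensors is the slot algebra -/
theorem om_ann (hV : V * V' = 1) (hV' : V' * V = 1) {X E E' : Matrix n n F} (hE : E * E' = 1)
    (hX : X * E + E * Xᵀ = 0) (h0 : ∀ i, dp (Fin 4) X *ᵥ Om V V' E i = 0) :
    ∃ x : ι → N2 F, (∀ i, (x i).trace = 0) ∧ X = ∑ i, V * sl i (x i) * V' := by
  refine norm_fr hV hV' ?_ fun i x hx => (cas_slot hV' i).ann hE hX (h0 i) ⟨x, hx, rfl⟩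
  have := congrArg (fun Y => (Y * E').trace) hX
  simp only [add_mul, mul_assoc X, hE, mul_one, trace_add, zero_mul, trace_zero] at this
  rw [trace_mul_cycle, mul_eq_one_comm.1 hE, one_mul, trace_transpose, ← two_mul] at this
  simpa using this

/-- the symplectic case -/
theorem om_inv_J {l : Type*} [Fintype l] [DecidableEq l] {V : Matrix (l ⊕ l) (ι → Fin 2) F}
    {V' : Matrix (ι → Fin 2) (l ⊕ l) F} (hV' : V' * V = 1) {γ : Matrix (l ⊕ l) (l ⊕ l) F}
    (hγ : γ ∈ symplecticGroup l F) {i : ι} (hn : ∀ x : N2 F, x.trace = 0 → ∃ y : N2 F,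
      y.trace = 0 ∧ γ * (V * sl i x * V') = V * sl i y * V' * γ) :
    tk (Fin 4) γ *ᵥ Om V V' (J l F) i = Om V V' (J l F) i :=
  om_inv hV' (congrArg Subtype.val (mul_inv_cancel (⟨γ, hγ⟩ : symplecticGroup l F)))
    (SymplecticGroup.mem_iff.1 hγ) hn

/-- the symplectic case -/
theorem om_ann_J {l : Type*} [Fintype l] [DecidableEq l] {V : Matrix (l ⊕ l) (ι → Fin 2) F}
    {V' : Matrix (ι → Fin 2) (l ⊕ l) F} (hV : V * V' = 1) (hV' : V' * V = 1)
    {X : Matrix (l ⊕ l) (l ⊕ l) F} (hX : Xᵀ * J l F + J l F * X = 0)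
    (h0 : ∀ i, dp (Fin 4) X *ᵥ Om V V' (J l F) i = 0) :
    ∃ x : ι → N2 F, (∀ i, (x i).trace = 0) ∧ X = ∑ i, V * sl i (x i) * V' := by
  refine om_ann hV hV' (E' := -J l F) (by rw [mul_neg, J_squared, neg_neg]) ?_ h0
  have := congrArg (fun Y => -(J l F * Y * J l F)) hX
  simpa only [mul_add, add_mul, mul_assoc, J_squared, ← mul_assoc (J l F) (J l F), mul_neg, neg_mul,
    mul_one, one_mul, neg_add, neg_neg, mul_zero, zero_mul, neg_zero, add_comm] using this

end Pool.Agent.MT.UM
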