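import Pool.Agent.Lib.MP_d61fbb_ag.MN.R6

/-! The normaliser of the slots of a frame. -/

set_option autoImplicit false

open Matrix Function

namespace Pool.Agent.MT.UM

variable {ι n F : Type*} [Fintype ι] [DecidableEq ι] [Fintype n] [DecidableEq n] [Field F]

theorem sl_sub (i : ι) (X Y : N2 F) : sl i (X - Y) = sl i X - sl i Y := by
  ext a b
  simp only [sl_apply, Matrix.sub_apply, sub_mul]

theorem sl_ne (i : ι) {w : N2 F} (hw : w ≠ 0) : sl i w ≠ 0 := fun h =>
  one_ne_zero (sl_kill (i := i) (Y := 1) (fun z => by simp) hw (by simpa using h))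

theorem sl_sl_ne {i j : ι} (h : i ≠ j) {w w' : N2 F} (hw : w ≠ 0) (hw' : w' ≠ 0) :
    sl i w * sl j w' ≠ 0 := fun k =>
  sl_ne j hw' (sl_kill (fun z => sl_comm h z w') hw k)

omit [DecidableEq ι] in
theorem kp_ne {g : ι → N2 F} (h : ∀ i, g i ≠ 0) : kp g ≠ 0 := by
  have : ∀ i, ∃ s t, g i s t ≠ 0 := fun i => by
    by_contra k
    push Not at k
    exact h i (Matrix.ext k)
  choose s t hst using this
  intro k
  have := congrFun (congrFun k s) t
  rw [kp_apply] at this
  exact Finset.prod_ne_zero_iff.2 (fun i _ => hst i) this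

omit [DecidableEq ι] in
theorem kp_zero {g : ι → N2 F} {i : ι} (h : g i = 0) : kp g = 0 := by
  ext a b
  rw [kp_apply]
  exact Finset.prod_eq_zero (Finset.mem_univ i) (by simp [h])

theorem e_ne : (!![0, 1; 0, 0] : N2 F) ≠ 0 := fun h => by simpa using congrFun (congrFun h 0) 1

theorem e_sq : (!![0, 1; 0, 0] : N2 F) * !![0, 1; 0, 0] = 0 := by
  ext a b
  fin_cases a <;> fin_cases b <;> simp

/-- nilpotent in the slots of `I` -/
def eI (F : Type*) [Field F] (I : Finset ι) : ι → N2 F := fun k => if k ∈ I then !![0, 1; 0, 0] else 1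

theorem eI_mem (I : Finset ι) : kp (eI F I) ∈ P F I := kp_mem_P fun k => by
  by_cases hk : k ∈ I <;> simp [eI, hk, trace_fin_two]

omit [Fintype ι] in
theorem eI_ne (I : Finset ι) (k : ι) : eI F I k ≠ 0 := by
  by_cases hk : k ∈ I <;> simp [eI, hk, e_ne]

theorem P_ad (i j : ι) {y : N2 F} {A : TM ι F} (hA : A ∈ P F {i}) :
    sl j y * A - A * sl j y ∈ P F {i} := by
  obtain ⟨x, t, rfl⟩ := mem_P_single.1 hA
  by_cases h : j = i
  · subst h
    rw [← sl_mul, ← sl_mul, ← sl_sub]
    exact sl_mem_P _ (by rw [trace_sub, trace_mul_comm, sub_self])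
  · rw [sl_comm h, sub_self]
    exact zero_mem _

/-- the traceless matrices that normalise every slot -/
def nT (ι F : Type*) [Fintype ι] [DecidableEq ι] [Field F] : Submodule F (TM ι F) where
  carrier := {X | X.trace = 0 ∧ ∀ i, ∀ A ∈ P F {i}, X * A - A * X ∈ P F {i}}
  zero_mem' := ⟨trace_zero _ _, fun i A _ => by simp⟩
  add_mem' {X Y} hX hY := ⟨by rw [trace_add, hX.1, hY.1, add_zero], fun i A hA => by
    convert add_mem (hX.2 i A hA) (hY.2 i A hA) using 1
    noncomm_ring⟩
  smul_mem' c X hX := ⟨by rw [trace_smul, hX.1, smul_zero], fun i A hA => by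
    convert Submodule.smul_mem _ c (hX.2 i A hA) using 1
    rw [smul_mul_assoc, mul_smul_comm, smul_sub]⟩

variable [CharZero F]

theorem nT_le : nT ι F ≤ hT ι F := by
  have hs : Stable (nT ι F) := fun j y _ X hX =>
    ⟨by rw [trace_sub, trace_mul_comm, sub_self], fun i A hA => by
      convert sub_mem (P_ad i j (y := y) (hX.2 i A hA)) (hX.2 i _ (P_ad i j (y := y) hA)) using 1
      noncomm_ring⟩
  refine hs.le_of fun I hI => ?_
  have hX := hI (eI_mem I)
  rcases I.eq_empty_or_nonempty with rfl | ⟨i, hi⟩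
  · have e : kp (eI F (∅ : Finset ι)) = 1 := by
      rw [← kp_one]
      rfl
    have := hX.1
    rw [e, trace_one] at this
    exact absurd this (Nat.cast_ne_zero.2 Fintype.card_ne_zero)
  by_cases k : I = {i}
  · exact k ▸ le_iSup (fun i => P F {i}) i
  obtain ⟨j, hj, hji⟩ : ∃ j ∈ I, j ≠ i := by
    by_contra k'
    push Not at k'
    exact k (Finset.eq_singleton_iff_unique_mem.2 ⟨hi, k'⟩)
  obtain ⟨w, -, e⟩ := mem_P_single.1
    (hX.2 i _ (sl_mem_P i (X := !![1, 0; 0, -1]) (by simp [trace_fin_two])))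
  have xj : sl j !![0, 1; 0, 0] * kp (eI F I) = 0 := by
    rw [sl_mul_kp]
    exact kp_zero (i := j) (by simp only [eI, hj, if_true, e_sq, update_self])
  have w0 : w = 0 := by
    by_contra k0
    refine sl_sl_ne hji (e_ne (F := F)) k0 ?_
    rw [← e, mul_sub, ← mul_assoc, xj, ← mul_assoc, sl_comm hji, mul_assoc, xj]
    simp
  have e1 : kp (eI F I) * sl i !![1, 0; 0, -1] = -kp (eI F I) := by
    rw [kp_mul_sl]
    ext a b
    rw [kp_update, Matrix.neg_apply, kp_apply, ← Finset.mul_prod_erase _ _ (Finset.mem_univ i),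
      ← neg_mul]
    congr 1
    generalize a i = s
    generalize b i = t
    fin_cases s <;> fin_cases t <;> simp [eI, hi]
  have e2 : sl i !![1, 0; 0, -1] * kp (eI F I) = kp (eI F I) := by
    rw [sl_mul_kp]
    congr 1
    rw [update_eq_self_iff]
    ext s t
    fin_cases s <;> fin_cases t <;> simp [eI, hi]
  rw [e1, e2, w0, sl_zero, ← neg_add', ← two_smul F, neg_eq_zero,
    smul_eq_zero_iff_right two_ne_zero] at e
  exact (kp_ne (eI_ne I) e).elim

/-- a traceless matrix that normalises every slot of a frame lies in the slot algebra -/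
theorem norm_fr {V : Matrix n (ι → Fin 2) F} {V' : Matrix (ι → Fin 2) n F} (hV : V * V' = 1)
    (hV' : V' * V = 1) {X : Matrix n n F} (ht : X.trace = 0)
    (h : ∀ (i : ι) (x : N2 F), x.trace = 0 → ∃ y : N2 F, y.trace = 0 ∧
      X * (V * sl i x * V') - V * sl i x * V' * X = V * sl i y * V') :
    ∃ x : ι → N2 F, (∀ i, (x i).trace = 0) ∧ X = ∑ i, V * sl i (x i) * V' := by
  obtain ⟨x, t, e⟩ := mem_hT.1 (nT_le (x := V' * X * V) ⟨by
    rw [trace_mul_cycle, hV, Matrix.one_mul, ht], fun i A hA => by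
    obtain ⟨x, t, rfl⟩ := mem_P_single.1 hA
    obtain ⟨y, t', e⟩ := h i x t
    refine mem_P_single.2 ⟨y, t', ?_⟩
    have := congrArg (fun Z => V' * Z * V) e
    simpa only [Matrix.mul_sub, Matrix.sub_mul, Matrix.mul_assoc, hV', Matrix.mul_one,
      ← Matrix.mul_assoc V' V, Matrix.one_mul] using this⟩)
  refine ⟨x, t, ?_⟩
  rw [← Matrix.sum_mul, ← Matrix.mul_sum, ← e]
  simp only [Matrix.mul_assoc, hV, Matrix.mul_one]
  rw [← Matrix.mul_assoc, hV, Matrix.one_mul]

end Pool.Agent.MT.UM
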