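import Pool.Agent.Lib.MP_d61fbb_ag.MT.UM2

/-! Two tensor structures: a stable subspace inside the sum of the slots of another structure. -/

set_option autoImplicit false

open Matrix Function

namespace Pool.Agent.MT.UM

variable {ι κ F : Type*} [Fintype ι] [DecidableEq ι] [Fintype κ] [DecidableEq κ] [Field F]

/-- the action in one slot as a linear map -/
def slL (i : ι) : N2 F →ₗ[F] TM ι F where
  toFun := sl i
  map_add' := sl_add i
  map_smul' := sl_smul i

theorem sl_one (i : ι) : sl i (1 : N2 F) = 1 := by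
  rw [sl, Pi.mulSingle_one]
  exact kp_one

theorem n2_sq {x : N2 F} (h : x.trace = 0) : x * x = (-x.det) • 1 := by
  have h' : x 1 1 = -x 0 0 := by
    rw [trace_fin_two] at h
    linear_combination h
  ext a b
  fin_cases a <;> fin_cases b <;> simp [mul_apply, Fin.sum_univ_two, det_fin_two, h'] <;> ring

theorem n2_anti {x y : N2 F} (h : x.trace = 0) (h' : y.trace = 0) :
    x * y + y * x = (x * y).trace • 1 := by
  have e : x 1 1 = -x 0 0 := by
    rw [trace_fin_two] at h
    linear_combination h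
  have e' : y 1 1 = -y 0 0 := by
    rw [trace_fin_two] at h'
    linear_combination h'
  ext a b
  fin_cases a <;> fin_cases b <;> simp [mul_apply, Fin.sum_univ_two, trace_fin_two, e, e'] <;> ring

theorem sl_kill {i : ι} {m : N2 F} {Y : TM ι F} (h : ∀ w, sl i w * Y = Y * sl i w) (m0 : m ≠ 0)
    (e : sl i m * Y = 0) : Y = 0 := by
  obtain ⟨a, b, k⟩ : ∃ a b, m a b ≠ 0 := by
    by_contra! k
    exact m0 (Matrix.ext k)
  have h1 : ∑ c : Fin 2, single c a (1 : F) * m * single b c (1 : F) = m a b • 1 := by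
    ext u v
    fin_cases u <;> fin_cases v <;> simp [single_mul_mul_single, Fin.sum_univ_two]
  have h2 : sl i (m a b • (1 : N2 F)) * Y = 0 := by
    rw [← h1, Fin.sum_univ_two, sl_add, add_mul]
    simp only [sl_mul, mul_assoc]
    simp only [h (single _ _ _), ← mul_assoc (sl i m), e, zero_mul, mul_zero, add_zero]
  rwa [sl_smul, sl_one, smul_mul_assoc, one_mul, smul_eq_zero, or_iff_right k] at h2

variable [CharZero F]

theorem n2_central {x : N2 F} (ht : x.trace = 0) (h : ∀ w : N2 F, w * x = x * w) : x = 0 := by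
  obtain ⟨c, rfl⟩ := mem_range_scalar_iff_commute_single'.2 fun i j => h (single i j 1)
  have : c = 0 := by simpa [trace_fin_two, ← two_mul] using ht
  rw [this, map_zero]

theorem n2_dual {x : N2 F} (h : x.trace = 0) (h0 : x ≠ 0) :
    ∃ y : N2 F, x * y + y * x = 1 := by
  have : ∃ y : N2 F, y.trace = 0 ∧ (x * y).trace ≠ 0 := by
    by_contra k
    push Not at k
    have h1 := k (pb F 1) (by simp [pb, trace_fin_two])
    have h2 := k (pb F 2) (by simp [pb, trace_fin_two])
    have h3 := k (pb F 3) (by simp [pb, trace_fin_two])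
    simp [pb, trace_fin_two, mul_apply, Fin.sum_univ_two] at h h1 h2 h3
    refine h0 ?_
    have : (2 : F) * x 0 0 = 0 := by linear_combination h + h3
    have h4 : x 0 0 = 0 := by simpa using this
    ext a b
    fin_cases a <;> fin_cases b <;> simp_all
  obtain ⟨y, h1, h2⟩ := this
  exact ⟨(x * y).trace⁻¹ • y, by rw [mul_smul_comm, smul_mul_assoc, ← smul_add, n2_anti h h1,
    smul_smul, inv_mul_cancel₀ h2, one_smul]⟩

/-- an element of the sum of the slots whose square is a scalar lies in one slot -/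
theorem sq_hT {X : TM ι F} (h : X ∈ hT ι F) (h0 : X ≠ 0) {c : F} (h2 : X * X = c • 1) :
    ∃ (i : ι) (x : N2 F), x.trace = 0 ∧ X = sl i x := by
  obtain ⟨x, h1, rfl⟩ := mem_hT.1 h
  obtain ⟨i, hi⟩ : ∃ i, x i ≠ 0 := by
    by_contra! k
    exact h0 (by simp [k, sl_zero])
  have hd : sl i (x i) * sl i (x i) = (-(x i).det) • 1 := by
    rw [← sl_mul, n2_sq (h1 i), sl_smul, sl_one]
  have k : ∀ w, sl i w * ∑ j ∈ Finset.univ.erase i, sl j (x j) =
      (∑ j ∈ Finset.univ.erase i, sl j (x j)) * sl i w := fun w => by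
    rw [Finset.mul_sum, Finset.sum_mul]
    exact Finset.sum_congr rfl fun j hj => sl_comm (Finset.ne_of_mem_erase hj).symm _ _
  rw [← Finset.add_sum_erase _ _ (Finset.mem_univ i)] at h2 ⊢
  generalize ∑ j ∈ Finset.univ.erase i, sl j (x j) = Y at *
  obtain ⟨w, hw⟩ := not_forall.1 (mt (n2_central (h1 i)) hi)
  have e : (2 : F) • (sl i (x i) * Y) = (c - -(x i).det) • 1 - Y * Y := by
    rw [sub_smul, ← h2, ← hd, mul_add, add_mul, add_mul, ← k, two_smul]
    abel
  have e2 : sl i w * ((2 : F) • (sl i (x i) * Y)) = ((2 : F) • (sl i (x i) * Y)) * sl i w := by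
    rw [e, mul_sub, sub_mul, ← mul_assoc, k, mul_assoc, k, mul_assoc]
    simp
  rw [mul_smul_comm, smul_mul_assoc, smul_right_inj two_ne_zero, mul_assoc, ← k] at e2
  rw [sl_kill k (sub_ne_zero.2 hw) (by
    rw [show sl i (w * x i - x i * w) = sl i (w * x i) - sl i (x i * w) from map_sub (slL i) _ _,
      sl_mul, sl_mul, sub_mul, mul_assoc, mul_assoc, e2, sub_self]), add_zero]
  exact ⟨i, _, h1 i, rfl⟩

theorem one_notMem_hT : (1 : TM ι F) ∉ hT ι F := fun h => by
  have : P F (∅ : Finset ι) ≤ spT ι F := by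
    rw [P, Submodule.span_le]
    rintro _ ⟨x, hx, rfl⟩
    rw [show x = fun _ => 1 from funext fun i => (hx i).2 (by simp), kp_one]
    exact hT_le_spT h
  simpa using odd_of_le this

/-- a part of one tensor structure inside the sum of the slots of another one is a slot -/
theorem card_eq_one (ψ : TM κ F →ₐ[F] TM ι F) {I : Finset κ}
    (h : ∀ X ∈ P F I, ψ X ∈ hT ι F) : I.card = 1 := by
  have inj : ∀ X, ψ X = 0 → X = 0 := fun X hX =>
    ψ.toRingHom.injective (hX.trans (map_zero ψ).symm)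
  let a : κ → Fin 4 := fun i => if i ∈ I then 1 else 0
  have ha : supp a = I := by
    ext i
    by_cases hi : i ∈ I <;> simp [supp, a, hi]
  have hy : Ty I fun i => pb F (a i) := ha ▸ ty_pb a
  have hm := h _ (kp_mem_P hy)
  have ee : pb F 1 * pb F 1 = 0 := by
    ext s t
    fin_cases s <;> fin_cases t <;> simp [pb, mul_apply, Fin.sum_univ_two]
  have z : ∀ (g : κ → N2 F) (i : κ), kp (update g i 0) = 0 := fun g i => by
    ext x y
    simp [kp_update]
  have l : ∀ i ∈ I, sl i (pb F 1) * (kp fun i => pb F (a i)) = 0 := fun i hi => by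
    rw [sl_mul_kp, show a i = 1 from if_pos hi, ee, z]
  have r : ∀ i ∈ I, (kp fun i => pb F (a i)) * sl i (pb F 1) = 0 := fun i hi => by
    rw [kp_mul_sl, show a i = 1 from if_pos hi, ee, z]
  rcases I.eq_empty_or_nonempty with rfl | ⟨i, hi⟩
  · simp only [a, Finset.notMem_empty, if_false, show pb F 0 = 1 from rfl, kp_one, map_one] at hm
    exact (one_notMem_hT hm).elim
  have n0 : ψ (kp fun i => pb F (a i)) ≠ 0 := fun k => by
    have := congrFun (congrFun (inj _ k) fun _ => 0) fun j => if j ∈ I then 1 else 0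
    refine Finset.prod_ne_zero_iff.2 (fun j _ => ?_) this
    by_cases hj : j ∈ I <;> simp [a, hj, pb]
  have s0 : ψ (kp fun i => pb F (a i)) * ψ (kp fun i => pb F (a i)) = (0 : F) • 1 := by
    rw [← map_mul, ← kp_mul, zero_smul, ← map_zero ψ, ← z (fun i => pb F (a i) * pb F (a i)) i]
    congr 2
    refine (update_eq_self_iff.2 ?_).symm
    rw [show a i = 1 from if_pos hi, ee]
  obtain ⟨k, x, h1, h2⟩ := sq_hT hm n0 s0
  obtain ⟨y, h3⟩ := n2_dual h1 (by rintro rfl; exact n0 (h2.trans (sl_zero k)))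
  have h4 : ψ (kp fun i => pb F (a i)) * sl k y + sl k y * ψ (kp fun i => pb F (a i)) = 1 := by
    rw [h2, ← sl_mul, ← sl_mul, ← sl_add, h3, sl_one]
  refine Finset.card_eq_one.2 ⟨i, Finset.eq_singleton_iff_unique_mem.2 ⟨hi, fun j hj => ?_⟩⟩
  by_contra hne
  have h5 : ψ (sl j (pb F 1) * sl i (pb F 1)) = 0 := by
    rw [map_mul, ← one_mul (ψ (sl i _)), ← h4, add_mul, mul_assoc (sl k y), ← map_mul, r i hi,
      map_zero, mul_zero, add_zero, ← mul_assoc, ← mul_assoc, ← map_mul, l j hj, map_zero,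
      zero_mul, zero_mul]
  have h6 := sl_kill (fun w => sl_comm hne w _) (m := pb F 1)
    (fun k => by simpa [pb] using congrFun (congrFun k 0) 1) (inj _ h5)
  have h7 := sl_kill (i := i) (Y := 1) (fun w => by simp) (m := pb F 1)
    (fun k => by simpa [pb] using congrFun (congrFun k 0) 1) (by rw [h6, zero_mul])
  exact one_ne_zero h7

theorem rank_T (ψ : TM κ F →ₐ[F] TM ι F) {N : Submodule F (TM κ F)} (hs : Stable N)
    (h : ∀ X ∈ N, ψ X ∈ hT ι F) : N = ⨆ (i : κ) (_ : P F {i} ≤ N), P F {i} := by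
  refine le_antisymm (hs.le_of fun I hI => ?_) (iSup₂_le fun _ h => h)
  obtain ⟨i, rfl⟩ := Finset.card_eq_one.1 (card_eq_one ψ fun X hX => h X (hI hX))
  exact le_iSup₂_of_le (f := fun i (_ : P F {i} ≤ N) => P F {i}) i hI le_rfl

variable {m : Type*} [Fintype m] [DecidableEq m]

/-- transport by a frame -/
def trA {U : Matrix m (ι → Fin 2) F} {U' : Matrix (ι → Fin 2) m F} (h : U * U' = 1)
    (h' : U' * U = 1) : TM ι F ≃ₐ[F] Matrix m m F where
  toFun A := U * A * U'
  invFun X := U' * X * U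
  left_inv A := by
    simp only [Matrix.mul_assoc]
    rw [h', Matrix.mul_one, ← Matrix.mul_assoc, h', Matrix.one_mul]
  right_inv A := by
    simp only [Matrix.mul_assoc]
    rw [h, Matrix.mul_one, ← Matrix.mul_assoc, h, Matrix.one_mul]
  map_mul' A B := by
    simp only [Matrix.mul_assoc]
    rw [← Matrix.mul_assoc U' U, h', Matrix.one_mul]
  map_add' A B := by rw [Matrix.mul_add, Matrix.add_mul]
  commutes' c := by
    simp only [Algebra.algebraMap_eq_smul_one, Matrix.mul_smul, Matrix.smul_mul, Matrix.mul_one, h]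

/-- The rank lemma for two frames. -/
theorem r6 {U : Matrix m (ι → Fin 2) F} {U' : Matrix (ι → Fin 2) m F} (hU : U * U' = 1)
    (hU' : U' * U = 1) {V : Matrix m (κ → Fin 2) F} {V' : Matrix (κ → Fin 2) m F}
    (hV : V * V' = 1) (hV' : V' * V = 1) {a : Submodule F (Matrix m m F)}
    (h1 : ∀ X ∈ a, ∃ x : ι → N2 F, (∀ i, (x i).trace = 0) ∧ X = ∑ i, U * sl i (x i) * U')
    (h2 : ∀ (i : κ) (x : N2 F), x.trace = 0 → ∀ X ∈ a,
      V * sl i x * V' * X - X * (V * sl i x * V') ∈ a) :
    ∃ T : Set κ, (∀ i ∈ T, ∀ x : N2 F, x.trace = 0 → V * sl i x * V' ∈ a) ∧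
      ∀ b : Submodule F (Matrix m m F),
        (∀ i ∈ T, ∀ x : N2 F, x.trace = 0 → V * sl i x * V' ∈ b) → a ≤ b := by
  let t := trA hU hU'
  let t' := trA hV hV'
  let N := a.comap t'.toLinearMap
  have hs : Stable N := fun i x hx A hA => by
    change t' _ ∈ a
    rw [map_sub, map_mul, map_mul]
    exact h2 i x hx _ hA
  have e := rank_T (t'.trans t.symm).toAlgHom hs fun X hX => by
    obtain ⟨x, k1, k2⟩ := h1 _ hX
    refine mem_hT.2 ⟨x, k1, t.injective ?_⟩
    rw [map_sum]
    exact (t.apply_symm_apply _).trans k2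
  refine ⟨{i | P F {i} ≤ N}, fun i hi x hx => hi (sl_mem_P i hx), fun b hb X hX => ?_⟩
  obtain ⟨A, rfl⟩ := t'.surjective X
  have : N ≤ b.comap t'.toLinearMap := e.le.trans (iSup₂_le fun i hi B hB => by
    obtain ⟨x, k1, rfl⟩ := mem_P_single.1 hB
    exact hb i hi x k1)
  exact this hX

end Pool.Agent.MT.UM
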