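import Pool.Agent.Lib.MP_d61fbb_ag.MN.R6

/-! An element whose square is a scalar and that normalises a sum of slots. -/

set_option autoImplicit false

open Matrix Function

namespace Pool.Agent.MT.UM

variable {ι κ F : Type*} [Fintype ι] [DecidableEq ι] [Fintype κ] [DecidableEq κ] [Field F]

/-- the matrices that commute with one slot -/
def r7c (F : Type*) [Field F] (i : ι) : Submodule F (TM ι F) where
  carrier := {Y | ∀ w, sl i w * Y = Y * sl i w}
  zero_mem' w := by simp
  add_mem' {A B} hA hB w := by rw [mul_add, add_mul, hA w, hB w]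
  smul_mem' c A hA w := by rw [mul_smul_comm, smul_mul_assoc, hA w]

theorem P_le_r7c {I : Finset ι} {i : ι} (h : i ∉ I) : P F I ≤ r7c F i := by
  rw [P, Submodule.span_le]
  rintro _ ⟨x, hx, rfl⟩ w
  rw [sl_mul_kp, kp_mul_sl, (hx i).2 h, mul_one, one_mul]

/-- the normaliser -/
def r7n {R : Type*} [Ring R] [Algebra F R] (N : Submodule F R) : Submodule F R where
  carrier := {Y | ∀ X ∈ N, Y * X - X * Y ∈ N}
  zero_mem' X _ := by simp
  add_mem' {A B} hA hB X hX := by
    rw [add_mul, mul_add, add_sub_add_comm]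
    exact N.add_mem (hA X hX) (hB X hX)
  smul_mem' c A hA X hX := by
    rw [mul_smul_comm, smul_mul_assoc, ← smul_sub]
    exact N.smul_mem c (hA X hX)

theorem Stable.r7n {N : Submodule F (TM ι F)} (hs : Stable N) : Stable (r7n N) :=
  fun i x hx A hA X hX => by
    have := N.sub_mem (hs i x hx _ (hA X hX)) (hA _ (hs i x hx X hX))
    convert this using 1
    noncomm_ring

variable [CharZero F]

theorem r7_sq {i : ι} {x : N2 F} {Y : TM ι F} {c : F} (ht : x.trace = 0) (hx : x ≠ 0)
    (k : Y ∈ r7c F i) (h2 : (sl i x + Y) * (sl i x + Y) = c • 1) : Y = 0 := by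
  replace k : ∀ w, sl i w * Y = Y * sl i w := k
  have hd : sl i x * sl i x = (-x.det) • 1 := by rw [← sl_mul, n2_sq ht, sl_smul, sl_one]
  obtain ⟨w, hw⟩ := not_forall.1 (mt (n2_central ht) hx)
  have e : (2 : F) • (sl i x * Y) = (c - -x.det) • 1 - Y * Y := by
    rw [sub_smul, ← h2, ← hd, mul_add, add_mul, add_mul, ← k, two_smul]
    abel
  have e2 : sl i w * ((2 : F) • (sl i x * Y)) = ((2 : F) • (sl i x * Y)) * sl i w := by
    rw [e, mul_sub, sub_mul, ← mul_assoc, k, mul_assoc, k, mul_assoc]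
    simp
  rw [mul_smul_comm, smul_mul_assoc, smul_right_inj two_ne_zero, mul_assoc, ← k] at e2
  exact sl_kill k (sub_ne_zero.2 hw) (by
    rw [show sl i (w * x - x * w) = sl i (w * x) - sl i (x * w) from map_sub (slL i) _ _,
      sl_mul, sl_mul, sub_mul, mul_assoc, mul_assoc, e2, sub_self])

theorem r7_T {N : Submodule F (TM ι F)} (hs : Stable N)
    (e : N ≤ ⨆ (i : ι) (_ : P F {i} ≤ N), P F {i}) {Z : TM ι F} {c : F} (hZ : Z * Z = c • 1)
    (hn : Z ∈ r7n N) : (∀ X ∈ N, Z * X = X * Z) ∨ Z ∈ N := by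
  have key : ∀ i, P F {i} ≤ N → r7n N ≤ P F {i} ⊔ r7c F i := fun i hi =>
    hs.r7n.le_of fun I hI => by
      by_cases h : i ∈ I
      · refine (hs.br (I := I) (J := {i}) (S := {i}) (fun A hA B hB => hI hA B (hi hB))
          (by simpa using h) le_rfl (by simp) fun j => ?_).trans (e.trans (iSup₂_le fun j _ => ?_))
        · by_cases hj : j = i <;> simp [hj, h]
        · by_cases hj : j = i
          · rw [hj]
            exact le_sup_left
          · exact le_sup_of_le_right (P_le_r7c (by simpa using Ne.symm hj))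
      · exact le_sup_of_le_right (P_le_r7c h)
  by_cases h : ∀ i, P F {i} ≤ N → Z ∈ r7c F i
  · left
    have : N ≤ LinearMap.ker (LinearMap.mulLeft F Z - LinearMap.mulRight F Z) :=
      e.trans (iSup₂_le fun i hi X hX => by
        obtain ⟨x, -, rfl⟩ := mem_P_single.1 hX
        exact sub_eq_zero.2 (h i hi x).symm)
    exact fun X hX => sub_eq_zero.1 (this hX)
  · push Not at h
    obtain ⟨i, hi, h⟩ := h
    obtain ⟨_, h1, Y, h2, rfl⟩ := Submodule.mem_sup.1 (key i hi hn)
    obtain ⟨x, h3, rfl⟩ := mem_P_single.1 h1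
    rw [r7_sq h3 (by rintro rfl; exact h (by rwa [sl_zero, zero_add])) h2 hZ, add_zero]
    exact .inr (hi h1)

variable {m : Type*} [Fintype m] [DecidableEq m]

/-- With the hypotheses of the rank lemma: every slot lies in `a` or commutes with `a`, and so does
every element that normalises `a` and has a scalar square. -/
theorem r7 {U : Matrix m (ι → Fin 2) F} {U' : Matrix (ι → Fin 2) m F} (hU : U * U' = 1)
    (hU' : U' * U = 1) {V : Matrix m (κ → Fin 2) F} {V' : Matrix (κ → Fin 2) m F}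
    (hV : V * V' = 1) (hV' : V' * V = 1) {a : Submodule F (Matrix m m F)}
    (h1 : ∀ X ∈ a, ∃ x : ι → N2 F, (∀ i, (x i).trace = 0) ∧ X = ∑ i, U * sl i (x i) * U')
    (h2 : ∀ (i : κ) (x : N2 F), x.trace = 0 → ∀ X ∈ a,
      V * sl i x * V' * X - X * (V * sl i x * V') ∈ a)
    {Z : Matrix m m F} {c : F} (hZ : Z * Z = c • 1) (hn : ∀ X ∈ a, Z * X - X * Z ∈ a) :
    (∀ X ∈ a, Z * X = X * Z) ∨ Z ∈ a := by
  let t := trA hU hU'
  let t' := trA hV hV'
  let N := a.comap t'.toLinearMap
  have hs : Stable N := fun i x hx A hA => by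
    change t' _ ∈ a
    rw [map_sub, map_mul, map_mul]
    exact h2 i x hx _ hA
  have e := rank_T (t'.trans t.symm).toAlgHom hs fun X hX => by
    obtain ⟨x, k1, k2⟩ := h1 _ hX
    refine mem_hT.2 ⟨x, k1, t.injective ?_⟩
    rw [map_sum]
    exact (t.apply_symm_apply _).trans k2
  obtain ⟨Z, rfl⟩ := t'.surjective Z
  refine (r7_T hs e.le (Z := Z) (c := c) (t'.injective (by rw [map_mul, hZ, map_smul, map_one]))
    fun X hX => ?_).imp_left fun h X hX => ?_
  · change t' _ ∈ a
    rw [map_sub, map_mul, map_mul]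
    exact hn _ hX
  · obtain ⟨X, rfl⟩ := t'.surjective X
    rw [← map_mul, h X hX, map_mul]

end Pool.Agent.MT.UM
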