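import Pool.Agent.Lib.MP_d61fbb_ag.MN.U0
import Pool.Agent.Lib.MP_0d42ed_ag.WT.D2

/-! Stage three: descent from the complex numbers. -/

set_option autoImplicit false

noncomputable section

namespace Pool.Agent.MT.U

variable [Dim]

open Matrix

theorem rat_of_fix {z : ℂ} (h : ∀ α : ℂ ≃+* ℂ, α z = z) : ∃ q : ℚ, z = q := by
  have : Countable (Polynomial ℚ) :=
    Cardinal.mk_le_aleph0_iff.1 (Polynomial.cardinalMk_le_max.trans (by simp))
  by_cases ha : IsAlgebraic ℚ z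
  · by_contra hn
    obtain ⟨y, h1, h2⟩ := (notMem_iff_exists_ne_and_isConjRoot (K := ℚ) (x := z)
      (minpoly.irreducible ha.isIntegral).separable (IsAlgClosed.splits _)).1 fun k => by
        obtain ⟨q, hq⟩ := Algebra.mem_bot.1 k
        exact hn ⟨q, hq.symm⟩
    obtain ⟨σ, hσ⟩ := WT.exists_aut (Polynomial.aeval z : Polynomial ℚ →ₐ[ℚ] ℂ).toRingHom
      (Polynomial.aeval y : Polynomial ℚ →ₐ[ℚ] ℂ).toRingHom fun r =>
        minpoly.dvd_iff.symm.trans (h2 ▸ minpoly.dvd_iff)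
    exact h1 ((h σ).symm.trans (by simpa using hσ Polynomial.X))
  · have hb : Transcendental ℚ (z + 1) := fun k => ha (by simpa using k.sub isAlgebraic_one)
    obtain ⟨σ, hσ, -⟩ := WT.d2_transc ha hb
    simp [h σ] at hσ

theorem desc_one {ι : Type} [Finite ι] {V : Submodule ℂ (ι → ℂ)}
    (h : ∀ α : ℂ ≃+* ℂ, ∀ v ∈ V, (fun i => α (v i)) ∈ V) {v : ι → ℂ} (hv : v ∈ V) (v0 : v ≠ 0) :
    ∃ w ∈ V, w ≠ 0 ∧ Function.support w ⊆ Function.support v ∧
      ∃ q : ι → ℚ, w = fun i => (q i : ℂ) := by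
  induction hs : Function.support v using WellFoundedLT.induction generalizing v with
  | _ S ih =>
  subst hs
  obtain ⟨i, hi⟩ := Function.ne_iff.1 v0
  have h1 : (v i)⁻¹ • v ∈ V := V.smul_mem _ hv
  have h2 : ((v i)⁻¹ • v) i = 1 := inv_mul_cancel₀ hi
  have h3 : ∀ j, v j = 0 → ((v i)⁻¹ • v) j = 0 := fun j e => by simp [e]
  by_cases k : ∀ α : ℂ ≃+* ℂ, (fun j => α (((v i)⁻¹ • v) j)) - (v i)⁻¹ • v = 0
  · choose q hq using fun j => rat_of_fix (z := ((v i)⁻¹ • v) j) fun α =>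
      sub_eq_zero.1 (congrFun (k α) j)
    exact ⟨_, h1, fun e => one_ne_zero (h2.symm.trans (congrFun e i)),
      fun j hj e => hj (h3 j e), q, funext hq⟩
  · obtain ⟨α, hα⟩ := not_forall.1 k
    have h4 : Function.support ((fun j => α (((v i)⁻¹ • v) j)) - (v i)⁻¹ • v) <
        Function.support v :=
      ⟨fun j hj e => hj (by rw [Pi.sub_apply, h3 j e, map_zero, sub_zero]), fun e =>
        e (a := i) hi (by rw [Pi.sub_apply, h2, map_one, sub_self])⟩
    obtain ⟨w, w1, w2, w3, w4⟩ := ih _ h4 (V.sub_mem (h α _ h1) h1) hα rfl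
    exact ⟨w, w1, w2, w3.trans h4.le, w4⟩

theorem desc {ι : Type} [Finite ι] {V : Submodule ℂ (ι → ℂ)}
    (h : ∀ α : ℂ ≃+* ℂ, ∀ v ∈ V, (fun i => α (v i)) ∈ V) {v : ι → ℂ} (hv : v ∈ V) :
    v ∈ Submodule.span ℂ {w | w ∈ V ∧ ∃ q : ι → ℚ, w = fun i => (q i : ℂ)} := by
  induction hs : Function.support v using WellFoundedLT.induction generalizing v with
  | _ S ih =>
  subst hs
  rcases eq_or_ne v 0 with rfl | v0
  · exact zero_mem _
  obtain ⟨w, w1, w2, w3, w4⟩ := desc_one h hv v0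
  obtain ⟨i, hi⟩ := Function.ne_iff.1 w2
  have h1 : Function.support (v - (v i / w i) • w) < Function.support v :=
    ⟨fun j hj e => hj (by
      rw [Pi.sub_apply, Pi.smul_apply, e, show w j = 0 from by_contra fun k => w3 k e]
      simp), fun e => e (w3 hi) (by
        rw [Pi.sub_apply, Pi.smul_apply, smul_eq_mul, div_mul_cancel₀ _ hi, sub_self])⟩
  rw [← sub_add_cancel v ((v i / w i) • w)]
  exact add_mem (ih _ h1 (V.sub_mem hv (V.smul_mem _ w1)) rfl)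
    (Submodule.smul_mem _ _ (Submodule.subset_span ⟨w1, w4⟩))

theorem Rat.span {V : Submodule ℂ (M8 ℂ)} (h : Rat V) {X : M8 ℂ} (hX : X ∈ V) :
    X ∈ Submodule.span ℂ {Y | Y ∈ V ∧ ∃ Q : M8 ℚ, Y = Q.map (↑)} := by
  let L : (I2 gg × I2 gg → ℂ) →ₗ[ℂ] M8 ℂ :=
    ⟨⟨fun v => of fun i j => v (i, j), fun _ _ => rfl⟩, fun _ _ => rfl⟩
  have h1 := Submodule.mem_map_of_mem (f := L)
    (desc (V := V.comap L) (v := fun ij => X ij.1 ij.2) (fun α v hv => h α _ hv) hX)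
  rw [Submodule.map_span] at h1
  refine Submodule.span_mono ?_ h1
  rintro _ ⟨_, ⟨h2, q, rfl⟩, rfl⟩
  exact ⟨h2, of fun i j => q (i, j), rfl⟩

theorem Rat.exists_ne {V : Submodule ℂ (M8 ℂ)} (h : Rat V) (h0 : V ≠ ⊥) :
    ∃ Q : M8 ℚ, Q ≠ 0 ∧ Q.map (↑) ∈ V := by
  obtain ⟨X, hX, x0⟩ := V.ne_bot_iff.1 h0
  by_contra k
  have h1 := h.span hX
  rw [Submodule.span_eq_bot.2] at h1
  · exact x0 h1
  rintro _ ⟨h1, Q, rfl⟩
  rw [show Q = 0 from by_contra fun e => k ⟨Q, e, h1⟩]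
  exact Matrix.map_zero _ Rat.cast_zero

theorem overQ_map {H : Subgroup (GL (I2 gg) ℂ)} (h : Sn.OverQ H) (α : ℂ ≃+* ℂ)
    {g g' : GL (I2 gg) ℂ} (hg : g ∈ H) (e : g'.val = g.val.map α) : g' ∈ H := by
  obtain ⟨s, hs⟩ := h
  refine (hs g').2 fun f hf => ?_
  have := congrArg α ((hs g).1 hg f hf)
  rw [map_zero] at this
  rw [← this, e]
  exact (MvPolynomial.comp_aeval_apply _ α.toRingHom.toRatAlgHom f).symm

/-- the span of the conjugates -/
def cjs (X : M8 ℂ) : Submodule ℂ (M8 ℂ) :=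
  Submodule.span ℂ (Set.range fun α : ℂ ≃+* ℂ => X.map α)

theorem rat_cjs (X : M8 ℂ) : Rat (cjs X) := by
  intro α Y hY
  induction hY using Submodule.span_induction with
  | mem _ k =>
    obtain ⟨β, rfl⟩ := k
    exact Submodule.subset_span ⟨β.trans α, rfl⟩
  | zero =>
    rw [Matrix.map_zero _ (map_zero α)]
    exact zero_mem _
  | add a b _ _ ha hb =>
    rw [Matrix.map_add _ (map_add α)]
    exact add_mem ha hb
  | smul c a _ ha =>
    rw [show (c • a).map α = α c • a.map α from Matrix.ext fun i j => map_mul α c (a i j)]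
    exact Submodule.smul_mem _ _ ha

theorem rat_map_cast (α : ℂ ≃+* ℂ) (Q : M8 ℚ) :
    (Q.map ((↑) : ℚ → ℂ)).map α = Q.map (↑) := by
  exact Matrix.ext fun i j => map_ratCast α (Q i j)

end Pool.Agent.MT.U
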