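import Pool.Agent.Lib.MP_d61fbb_ag.MN.UA2
import Pool.Agent.Lib.MP_d61fbb_ag.MN.UD

/-! Stage three: the conjugates of the complex structure. -/

set_option autoImplicit false

noncomputable section

namespace Pool.Agent.MT.U

variable [Dim]

open Matrix G

/-- an automorphism acting on matrices -/
abbrev upM (α : ℂ ≃+* ℂ) : M8 ℂ →+* M8 ℂ := (α : ℂ →+* ℂ).mapMatrix

theorem up_smul (α : ℂ ≃+* ℂ) (c : ℂ) (X : M8 ℂ) : (c • X).map α = α c • X.map α := by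
  ext; simp

theorem up_symm (α : ℂ ≃+* ℂ) (X : M8 ℂ) : (X.map α).map α.symm = X := by ext; simp

theorem up_br (α : ℂ ≃+* ℂ) (X Y : M8 ℂ) :
    (X * Y - Y * X).map α = X.map α * Y.map α - Y.map α * X.map α := by
  have := map_sub (upM α) (X * Y) (Y * X)
  rwa [map_mul, map_mul] at this

/-- the preimage of a subspace under an automorphism -/
def pull (α : ℂ ≃+* ℂ) (V : Submodule ℂ (M8 ℂ)) : Submodule ℂ (M8 ℂ) where
  carrier := {X | X.map α ∈ V}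
  add_mem' {X Y} hX hY := (map_add (upM α) X Y).symm ▸ add_mem hX hY |> id (α := upM α _ ∈ V)
  zero_mem' := (map_zero (upM α)).symm ▸ zero_mem V |> id (α := upM α _ ∈ V)
  smul_mem' c X hX := (up_smul α c X).symm ▸ V.smul_mem _ hX |> id (α := map _ α ∈ V)

theorem up_sq (φ : Fr3 ℂ) (h : Rat φ.hh) (α : ℂ ≃+* ℂ) {i : Fin nn} {X : M8 ℂ} (hX : X ∈ φ.h i) :
    ∃ j, X.map α ∈ φ.h j := by
  obtain ⟨c, hc⟩ := φ.h_sq hX
  refine φ.sq (h α X (φ.h_le i hX)) (c := α c) ?_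
  rw [← Matrix.map_mul, hc, up_smul, Matrix.map_one _ (map_zero α) (map_one α)]

theorem Fr3.perm (φ : Fr3 ℂ) (h : Rat φ.hh) (α : ℂ ≃+* ℂ) (i : Fin nn) :
    ∃ j, ∀ X ∈ φ.h i, X.map α ∈ φ.h j := by
  obtain ⟨j, hj⟩ := Subspace.exists_eq_top_of_iUnion_eq_univ (k := ℂ)
    (p := fun j => (pull α (φ.h j)).comap (φ.h i).subtype)
    (Set.eq_univ_of_forall fun X => Set.mem_iUnion.2 (up_sq φ h α X.2))
  exact ⟨j, fun X hX => Submodule.eq_top_iff'.1 hj ⟨X, hX⟩⟩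

theorem Fr3.perm_symm (φ : Fr3 ℂ) (h : Rat φ.hh) {α : ℂ ≃+* ℂ} {i j : Fin nn}
    (e : ∀ X ∈ φ.h i, X.map α ∈ φ.h j) : ∀ Y ∈ φ.h j, Y.map α.symm ∈ φ.h i := by
  obtain ⟨k, hk⟩ := φ.perm h α.symm j
  obtain ⟨X, hX, h0⟩ := (Submodule.ne_bot_iff _).1 (φ.h_ne i)
  have := hk _ (e X hX)
  rw [up_symm] at this
  obtain rfl : i = k := by_contra fun hn => h0 (φ.h_disj hn hX this)
  exact hk

/-- the matrices that commute with `Y` -/
def cen (Y : M8 ℂ) : Submodule ℂ (M8 ℂ) := (Subalgebra.centralizer ℂ {Y}).toSubmodule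

theorem mem_cen {X Y : M8 ℂ} : X ∈ cen Y ↔ Y * X = X * Y := by
  simp [cen, Subalgebra.mem_centralizer_iff]

theorem NoEnd.bot {J₀ : M8 ℝ} (h3 : NoEnd J₀) {V : Submodule ℂ (M8 ℂ)} (h : Rat V)
    (h1 : V ≤ spL ℂ) (h2 : V ≤ cen (cm J₀)) : V = ⊥ := by
  by_contra h0
  obtain ⟨Q, hQ, hV⟩ := h.exists_ne h0
  refine hQ (h3 Q ((sp_map (Rat.castHom ℂ)).1 (h1 hV)) ?_)
  have e : cm (qr Q) = Q.map (↑) := by ext; simp
  have m (A B : M8 ℝ) : cm (A * B) = cm A * cm B := Matrix.map_mul (f := Complex.ofRealHom)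
  refine Matrix.map_injective Complex.ofReal_injective ?_
  show cm _ = cm _
  rw [m, m, e, mem_cen.1 (h2 hV)]

theorem up_comm (φ : Fr3 ℂ) {i k : Fin nn} (h : i ≠ k) (j : M2 ℂ) : φ.h i ≤ cen (φ.s k j) :=
  fun X hX => by
    obtain ⟨x, -, rfl⟩ := φ.mem_h.1 hX
    exact mem_cen.2 (φ.s_comm h.symm _ _)

theorem up_neg (φ : Fr3 ℂ) {i : Fin nn} {x : M2 ℂ} (h : φ.s i x * φ.s i x = -1) : x * x = -1 :=
  φ.s_inj i (by rw [φ.s_mul, h, map_neg, φ.s_one])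

theorem s_off (φ : Fr3 ℂ) (i : Fin nn) (c : ℂ) (j x : M2 ℂ) :
    φ.s i (off c j x) = (1 - c • φ.s i j) * φ.s i x * (1 + c • φ.s i j) := by
  rw [off, φ.s_mul, φ.s_mul, map_sub, map_add, map_smul, φ.s_one]

theorem off_sub (c : ℂ) (j x : M2 ℂ) :
    off c j x - off (-c) j x = (2 * c) • (x * j - j * x) := by
  simp only [off, Matrix.mul_add, Matrix.sub_mul, Matrix.mul_one, Matrix.one_mul, Matrix.mul_smul,
    Matrix.smul_mul]
  module

theorem Fr3.pos (φ : Fr3 ℂ) (h : Rat φ.hh) {J₀ : M8 ℝ} (h1 : cm J₀ ∈ φ.hh) (h2 : J₀ * J₀ = -1)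
    (h3 : NoEnd J₀) : ∃ i₀ j j' j'', Pos φ J₀ i₀ j j' j'' := by
  have h4 : cm J₀ * cm J₀ = -1 := by
    have := congrArg Complex.ofRealHom.mapMatrix h2
    rwa [map_mul, map_neg, map_one] at this
  have h5 (α : ℂ ≃+* ℂ) : (cm J₀).map α * (cm J₀).map α = -1 := by
    have := congrArg (upM α) h4
    rwa [map_mul, map_neg, map_one] at this
  have h0 : cm J₀ ≠ 0 := fun e => by
    rw [e, zero_mul] at h4
    exact one_ne_zero (neg_eq_zero.1 h4.symm)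
  obtain ⟨i₀, hi⟩ := φ.sq h1 (c := -1) (by rw [h4, neg_smul, one_smul])
  obtain ⟨j, tj, ej⟩ := φ.mem_h.1 hi
  have tran (i) : ∃ α : ℂ ≃+* ℂ, ∀ X ∈ φ.h i, X.map α ∈ φ.h i₀ := by
    by_contra hn
    let p (i : Fin nn) : Prop := ¬ ∃ α : ℂ ≃+* ℂ, ∀ X ∈ φ.h i, X.map α ∈ φ.h i₀
    refine φ.h_ne i (le_bot_iff.1 ((le_iSup (fun i : Subtype p => φ.h i) ⟨i, hn⟩).trans_eq
      (h3.bot (fun α => (iSup_le fun i => ?_ : _ ≤ pull α (⨆ i : Subtype p, φ.h i)))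
        ((iSup_le fun i => φ.h_le _).trans φ.hh_le) (iSup_le fun i => ?_))))
    · obtain ⟨k, hk⟩ := φ.perm h α i
      exact fun X hX => le_iSup (fun i : Subtype p => φ.h i)
        ⟨k, fun ⟨β, hβ⟩ => i.2 ⟨α.trans β, fun Y hY => hβ _ (hk Y hY)⟩⟩ (hk X hX)
    · rw [ej]
      exact up_comm φ (fun e : i.1 = i₀ => i.2 ⟨RingEquiv.refl ℂ, fun X hX => e ▸ hX⟩) j
  let C (c : ℂ) : Prop := ∃ x : M2 ℂ, x.trace = 0 ∧
    (∃ α : ℂ ≃+* ℂ, (cm J₀).map α = φ.s i₀ x) ∧ off c j x ≠ 0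
  have sw (c) (hc : C c) : C (starRingAut c) := by
    obtain ⟨x, tx, ⟨α, ex⟩, ox⟩ := hc
    obtain ⟨k, hk⟩ := φ.perm h starRingAut i₀
    have e : (cm J₀).map (starRingAut : ℂ ≃+* ℂ) = cm J₀ := by ext; simp
    obtain rfl : i₀ = k := by_contra fun hn => h0 (φ.h_disj hn hi (e ▸ hk _ hi))
    obtain ⟨y, ty, ey⟩ := φ.mem_h.1 (hk _ (φ.mem_h.2 ⟨x, tx, rfl⟩))
    refine ⟨y, ty, ⟨α.trans starRingAut, by rw [← ey, ← ex]; rfl⟩, fun o => ox (φ.s_inj i₀ ?_)⟩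
    have := s_off φ i₀ (starRingAut c) j y
    rw [o, map_zero, ← ey, ← ej, ← e, ← up_smul] at this
    rw [map_zero, s_off, ← ej, ← up_symm starRingAut (_ * _)]
    have k2 := map_mul (upM starRingAut) ((1 - c • cm J₀) * φ.s i₀ x) (1 + c • cm J₀)
    rw [map_mul (upM starRingAut) (1 - _), map_sub, map_add, map_one] at k2
    exact (congrArg (upM starRingAut.symm) (k2.trans this.symm)).trans (map_zero _)
  have ex : C Complex.I ∨ C (-Complex.I) := by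
    by_contra hn
    refine h0 ((Submodule.eq_bot_iff _).1 (h3.bot (rat_cjs (cm J₀))
      (Submodule.span_le.2 ?_) (Submodule.span_le.2 ?_)) _
      (Submodule.subset_span ⟨RingEquiv.refl ℂ, rfl⟩))
    · rintro _ ⟨α, rfl⟩
      exact φ.hh_le (h α _ h1)
    rintro _ ⟨α, rfl⟩
    obtain ⟨k, hk⟩ := up_sq φ h α hi
    by_cases e : k = i₀
    · obtain ⟨x, tx, ex⟩ := φ.mem_h.1 (e ▸ hk)
      have := off_sub Complex.I j x
      rw [show off Complex.I j x = 0 from by_contra fun o => hn (.inl ⟨x, tx, ⟨α, ex⟩, o⟩),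
        show off (-Complex.I) j x = 0 from by_contra fun o => hn (.inr ⟨x, tx, ⟨α, ex⟩, o⟩),
        sub_zero, eq_comm, smul_eq_zero_iff_right (by simp), sub_eq_zero] at this
      refine mem_cen.2 ?_
      simp only [ex]
      rw [ej, ← φ.s_mul, ← φ.s_mul, this]
    · exact (ej ▸ up_comm φ e j : φ.h k ≤ cen (cm J₀)) hk
  obtain ⟨⟨x, tx, ⟨α, ex⟩, ox⟩, y, ty, ⟨β, ey⟩, oy⟩ : C Complex.I ∧ C (-Complex.I) :=
    ex.elim (fun a => ⟨a, by simpa using sw _ a⟩) fun a => ⟨by simpa using sw _ a, a⟩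
  exact ⟨i₀, j, x, y, ⟨tj, tx, ty⟩, ⟨up_neg φ (ej ▸ h4), up_neg φ (ex ▸ h5 α), up_neg φ (ey ▸ h5 β)⟩,
    ej, ⟨α, ex⟩, ⟨β, ey⟩, ox, oy, tran⟩

theorem off_eq {c : ℂ} (hc : c * c = -1) {j : M2 ℂ} (hj : j * j = -1) (x : M2 ℂ) :
    off c j x = (-c) • (j * x - x * j) -
      (1 / 2 : ℂ) • (j * (j * x - x * j) - (j * x - x * j) * j) := by
  simp only [off, Matrix.mul_add, Matrix.sub_mul, Matrix.mul_sub, Matrix.mul_one, Matrix.one_mul,
    Matrix.mul_smul, Matrix.smul_mul, ← Matrix.mul_assoc, hj, Matrix.mul_assoc x, smul_sub,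
    smul_smul, hc, Matrix.neg_mul, Matrix.mul_neg]
  module

theorem off_ad {c : ℂ} (hc : c * c = -1) {j : M2 ℂ} (hj : j * j = -1) (x : M2 ℂ) :
    j * off c j x - off c j x * j = (2 * c) • off c j x := by
  have a : j * (1 - c • j) = c • (1 - c • j) := by
    rw [Matrix.mul_sub, Matrix.mul_smul, hj, smul_sub, smul_smul, hc, Matrix.mul_one]; module
  have b : (1 + c • j) * j = (-c) • (1 + c • j) := by
    rw [Matrix.add_mul, Matrix.smul_mul, hj, smul_add, smul_smul, neg_mul, hc, Matrix.one_mul]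
    module
  rw [off, Matrix.mul_assoc _ _ j, b, ← Matrix.mul_assoc, ← Matrix.mul_assoc, a, Matrix.smul_mul,
    Matrix.smul_mul, Matrix.mul_smul]
  module

theorem up_sl2_gen {W : Submodule ℂ (M2 ℂ)} (hW : ∀ x ∈ W, ∀ y ∈ W, x * y - y * x ∈ W)
    {j x y : M2 ℂ} (tj : j.trace = 0) (hj : j * j = -1) (mj : j ∈ W) (mx : x ∈ W) (my : y ∈ W)
    (ox : off Complex.I j x ≠ 0) (oy : off (-Complex.I) j y ≠ 0) :
    LinearMap.ker (traceLinearMap (Fin 2) ℂ ℂ) ≤ W := by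
  let K := LinearMap.ker (traceLinearMap (Fin 2) ℂ ℂ)
  have m {c : ℂ} (hc : c * c = -1) {x} (mx : x ∈ W) : off c j x ∈ W ⊓ K := by
    have b (y) (my : y ∈ W) : j * y - y * j ∈ W ⊓ K :=
      ⟨hW _ mj _ my, by simp [K, trace_mul_comm j]⟩
    rw [off_eq hc hj]
    exact sub_mem (Submodule.smul_mem _ _ (b x mx)) (Submodule.smul_mem _ _ (b _ (b x mx).1))
  have c1 : Complex.I * Complex.I = -1 := Complex.I_mul_I
  have c2 : -Complex.I * -Complex.I = -1 := by simp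
  have li : LinearIndependent ℂ ![j, off Complex.I j x, off (-Complex.I) j y] := by
    refine Module.End.eigenvectors_linearIndependent'
      (LinearMap.mulLeft ℂ j - LinearMap.mulRight ℂ j) ![0, 2 * Complex.I, 2 * -Complex.I]
      (fun a b => ?_) _ fun i => ?_
    · fin_cases a <;> fin_cases b <;> simp [Complex.ext_iff] <;> norm_num
    · fin_cases i
      · refine ⟨Module.End.mem_eigenspace_iff.2 (by simp), fun e => ?_⟩
        rw [show j = 0 from e, zero_mul] at hj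
        exact one_ne_zero (neg_eq_zero.1 hj.symm)
      · exact ⟨Module.End.mem_eigenspace_iff.2 (off_ad c1 hj x), ox⟩
      · exact ⟨Module.End.mem_eigenspace_iff.2 (off_ad c2 hj y), oy⟩
  have le : Submodule.span ℂ (Set.range ![j, off Complex.I j x, off (-Complex.I) j y]) ≤ W ⊓ K :=
    Submodule.span_le.2 <| Set.range_subset_iff.2 fun i => by
      fin_cases i
      exacts [⟨mj, tj⟩, m c1 mx, m c2 my]
  have lt := Submodule.finrank_lt (s := K) fun e => by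
    simpa [K] using Submodule.eq_top_iff'.1 e 1
  refine (Submodule.eq_of_le_of_finrank_le (le.trans inf_le_right) ?_).ge.trans
    (le.trans inf_le_left)
  rw [finrank_span_eq_card li]
  simp only [Module.finrank_matrix, Fintype.card_fin, Module.finrank_self] at lt ⊢
  exact Nat.lt_succ_iff.1 lt

theorem Pos.lie {φ : Fr3 ℂ} {J₀ : M8 ℝ} {i₀ : Fin nn} {j j' j'' : M2 ℂ} (P : Pos φ J₀ i₀ j j' j'')
    {L : Submodule ℂ (M8 ℂ)} (hL : AdSt L L) (hJ : ∀ α : ℂ ≃+* ℂ, (cm J₀).map α ∈ L) :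
    φ.hh ≤ L := by
  let W := (⨅ α, pull α L).comap (φ.s i₀)
  have mW {x} : x ∈ W ↔ ∀ α : ℂ ≃+* ℂ, (φ.s i₀ x).map α ∈ L := Submodule.mem_iInf _
  have c {x} (e : ∃ α : ℂ ≃+* ℂ, (cm J₀).map α = φ.s i₀ x) : x ∈ W :=
    e.elim fun α e => mW.2 fun β => e ▸ hJ (α.trans β)
  have := up_sl2_gen (W := W) (fun x hx y hy => mW.2 fun α => by
    rw [map_sub, φ.s_mul, φ.s_mul, up_br]
    exact hL _ (mW.1 hx α) _ (mW.1 hy α)) P.tr.1 P.sq.1 (c ⟨RingEquiv.refl ℂ, P.eq⟩) (c P.eq')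
    (c P.eq'') P.up P.low
  refine iSup_le fun i X hX => ?_
  obtain ⟨α, hα⟩ := P.tran i
  obtain ⟨x, tx, ex⟩ := φ.mem_h.1 (hα X hX)
  rw [← up_symm α X, ex]
  exact mW.1 (this tx) _

end Pool.Agent.MT.U
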