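import Pool.Agent.Lib.MP_d61fbb_ag.MN.R7
import Pool.Agent.Lib.MP_d61fbb_ag.MN.UP
import Pool.Agent.Lib.MP_d61fbb_ag.MT.G0b

/-! The annihilator of the invariant tensors is the sum of all slots. -/

set_option autoImplicit false

noncomputable section

namespace Pool.Agent.MT.U

variable [Dim]

open Matrix G

/-- the centraliser in the symplectic Lie algebra -/
def r7z (a : Submodule ℂ (M8 ℂ)) : Submodule ℂ (M8 ℂ) where
  carrier := {Y | Y ∈ spL ℂ ∧ ∀ X ∈ a, X * Y = Y * X}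
  add_mem' hx hy := ⟨add_mem hx.1 hy.1, fun X h => by rw [mul_add, add_mul, hx.2 X h, hy.2 X h]⟩
  zero_mem' := ⟨zero_mem _, fun X _ => by simp⟩
  smul_mem' c _ hx := ⟨Submodule.smul_mem _ c hx.1, fun X h => by
    rw [mul_smul_comm, smul_mul_assoc, hx.2 X h]⟩

theorem Rat.r7z {a : Submodule ℂ (M8 ℂ)} (h : Rat a) : Rat (r7z a) := fun α Y hY =>
  ⟨(sp_map (α : ℂ →+* ℂ)).2 hY.1, fun X hX => by
    have := congrArg (upM α) (hY.2 _ (h α.symm X hX))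
    rw [map_mul, map_mul] at this
    have e : upM α (X.map α.symm) = X := up_symm α.symm X
    rwa [e] at this⟩

/-- A rational subspace inside the slots of one frame, stable under the slots of a second frame
and under the complex structure. -/
theorem Fr3.r7 (φ φ' : Fr3 ℂ) {a : Submodule ℂ (M8 ℂ)} (ha : Rat a) (h0 : a ≠ ⊥) (h1 : a ≤ φ.hh)
    (h2 : AdSt φ'.hh a) {J₀ : M8 ℝ} (hJ : J₀ * J₀ = -1) (h3 : NoEnd J₀)
    (h4 : ∀ X ∈ a, cm J₀ * X - X * cm J₀ ∈ a) : a = φ'.hh ∧ cm J₀ ∈ φ'.hh := by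
  have k1 : ∀ X ∈ a, ∃ x : Fin nn → M2 ℂ, (∀ i, (x i).trace = 0) ∧
      X = ∑ i, φ.U * sl i (x i) * φ.U' := fun X hX => φ.mem_hh.1 (h1 hX)
  have k2 : ∀ (i : Fin nn) (x : M2 ℂ), x.trace = 0 → ∀ X ∈ a,
      φ'.s i x * X - X * φ'.s i x ∈ a := fun i x hx =>
    h2 _ (φ'.h_le i (φ'.mem_h.2 ⟨x, hx, rfl⟩))
  have k3 : cm J₀ ∈ a := by
    refine (UM.r7 φ.mul_inv φ.inv_mul φ'.mul_inv φ'.inv_mul k1 k2 (c := -1) ?_ h4).resolve_left
      fun k => h0 (h3.bot ha (h1.trans φ.hh_le) fun X hX => mem_cen.2 (k X hX))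
    have := congrArg Complex.ofRealHom.mapMatrix hJ
    rw [map_mul, map_neg, map_one] at this
    rw [neg_smul, one_smul]
    exact this
  have k4 : r7z a = ⊥ := h3.bot ha.r7z (fun Y hY => hY.1) fun Y hY => mem_cen.2 (hY.2 _ k3)
  have k5 : φ'.hh ≤ a := iSup_le fun i X hX => by
    obtain ⟨c, hc⟩ := φ'.h_sq hX
    refine (UM.r7 φ.mul_inv φ.inv_mul φ'.mul_inv φ'.inv_mul k1 k2 hc
      (h2 _ (φ'.h_le i hX))).elim (fun k => ?_) id
    have : X ∈ r7z a := ⟨φ'.hh_le (φ'.h_le i hX), fun Y hY => (k Y hY).symm⟩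
    rw [k4, Submodule.mem_bot] at this
    exact this ▸ zero_mem _
  obtain ⟨T, -, hT⟩ := UM.r6 φ.mul_inv φ.inv_mul φ'.mul_inv φ'.inv_mul k1 k2
  have k6 : a ≤ φ'.hh := hT _ fun i _ x hx => φ'.h_le i (φ'.mem_h.2 ⟨x, hx, rfl⟩)
  exact ⟨le_antisymm k6 k5, k6 k3⟩

section inv

variable {g : ℕ} {G₀ : Subgroup (Sp g ℤ)} {κ : Type} [Fintype κ] [DecidableEq κ]

omit [Dim] in
theorem r7_inv_map {R R' : Type} [CommRing R] [CommRing R'] (f : R →+ R') {v : (κ → I2 g) → R}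
    (h : v ∈ Inv G₀ κ R) : (fun a => f (v a)) ∈ Inv G₀ κ R' := fun γ hγ => by
  funext a
  have e : ∀ (S : Type) [CommRing S] (w : (κ → I2 g) → S),
      (tk κ (γ.1.map (Int.cast : ℤ → S)) *ᵥ w) a = ∑ b, tk κ γ.1 a b • w b := fun S _ w => by
    simp [mulVec, dotProduct, tk_apply]
  rw [e, ← congrFun (h γ hγ) a, e, map_sum]
  simp only [map_zsmul]

omit [Dim] in
theorem r7_split (A : Matrix (κ → I2 g) (κ → I2 g) ℝ) (v : (κ → I2 g) → ℂ) :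
    cm A *ᵥ v = (fun a => ((A *ᵥ fun b => (v b).re) a : ℂ)) +
      Complex.I • fun a => ((A *ᵥ fun b => (v b).im) a : ℂ) := by
  funext a
  simp only [mulVec, dotProduct, map_apply, Pi.add_apply, Pi.smul_apply, smul_eq_mul,
    Complex.ofReal_sum, Complex.ofReal_mul, Finset.mul_sum, ← Finset.sum_add_distrib]
  refine Finset.sum_congr rfl fun b _ => ?_
  conv_lhs => rw [← Complex.re_add_im (v b)]
  ring

omit [Dim] in
theorem r7_dp (X : MM g ℝ) : dp κ (cm X) = cm (dp κ X) := (dp_map Complex.ofRealHom X).symm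

variable {z : ℕ → EE g} {𝒰 : Ultrafilter ℕ} (C : Cmp z 𝒰)

omit [Dim] in
/-- the complex structures on the set keep the invariant tensors -/
theorem Cmp.r7_keep {w : EE g} (hw : w ∈ C.Y) {v : (κ → I2 g) → ℂ} (hv : v ∈ Inv C.G₀ κ ℂ) :
    dp κ (cm (Jm w)) *ᵥ v ∈ Inv C.G₀ κ ℂ := by
  have key : ∀ u ∈ Inv C.G₀ κ ℝ, (fun a => ((dp κ (Jm w) *ᵥ u) a : ℂ)) ∈ Inv C.G₀ κ ℂ :=
    fun u hu => r7_inv_map Complex.ofRealHom.toAddMonoidHom (v := dp κ (Jm w) *ᵥ u) fun γ hγ => by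
      rw [mulVec_mulVec, tk_dp (g := γ.1.map Int.cast) (Jm_ac (zsp γ) (C.sub w hw).1).symm,
        ← mulVec_mulVec, hu γ hγ]
      exact (C.fixed κ u hu _ (C.stab γ hγ w hw)).trans (C.fixed κ u hu w hw).symm
  rw [r7_dp, r7_split]
  exact add_mem (key _ (r7_inv_map Complex.reLm.toAddMonoidHom hv))
    (Submodule.smul_mem _ _ (key _ (r7_inv_map Complex.imLm.toAddMonoidHom hv)))

omit [Dim] in
theorem Cmp.r7_fixed {w : EE g} (hw : w ∈ C.Y) {v : (κ → I2 g) → ℂ} (hv : v ∈ Inv C.G₀ κ ℂ) :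
    dp κ (cm (Jm w)) *ᵥ v = dp κ (cm (Jm C.z₁)) *ᵥ v := by
  rw [r7_dp, r7_dp, r7_split, r7_split,
    C.fixed κ (fun b => (v b).re) (r7_inv_map Complex.reLm.toAddMonoidHom hv) w hw,
    C.fixed κ (fun b => (v b).im) (r7_inv_map Complex.imLm.toAddMonoidHom hv) w hw]

end inv

variable {κ : Type} [Fintype κ] [DecidableEq κ]

theorem r7_rat (G₀ : Subgroup (Sp gg ℤ)) : Rat (Ann G₀ κ) := fun α X hX =>
  ⟨(sp_map (α : ℂ →+* ℂ)).2 hX.1, fun v hv => by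
    have := hX.2 _ (r7_inv_map α.symm.toAddEquiv.toAddMonoidHom hv)
    funext a
    have h := congrArg α (congrFun this a)
    rw [show dp κ (X.map α) = (dp κ X).map α from (dp_map (α : ℂ →+* ℂ) X).symm]
    simpa [mulVec, dotProduct] using h⟩

theorem r7_sp {w : EE gg} (hw : w ∈ HH gg) : cm (Jm w) ∈ spL ℂ := by
  refine (sp_map Complex.ofRealHom).2 ?_
  have := congrArg (· * Jm w) (SymplecticGroup.mem_iff'.1 (Jm_mem hw))
  simp only [Matrix.mul_assoc, Jm_sq hw, Matrix.mul_neg, Matrix.mul_one] at this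
  change _ + _ = 0
  rw [← this, add_neg_cancel]

variable {z : ℕ → EE gg} {𝒰 : Ultrafilter ℕ} (C : Cmp z 𝒰)

theorem Cmp.r7_norm {w : EE gg} (hw : w ∈ C.Y) {X : M8 ℂ} (hX : X ∈ Ann C.G₀ κ) :
    cm (Jm w) * X - X * cm (Jm w) ∈ Ann C.G₀ κ :=
  ⟨sp_ad _ (r7_sp (C.sub w hw).1) _ hX.1, fun v hv => by
    rw [dp_lie, sub_mulVec, ← mulVec_mulVec, ← mulVec_mulVec, hX.2 v hv,
      hX.2 _ (C.r7_keep hw hv), mulVec_zero, sub_zero]⟩

theorem Cmp.r7_ne : Ann C.G₀ κ ≠ ⊥ := by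
  obtain ⟨w, hw, h⟩ := C.ne
  refine (Submodule.ne_bot_iff _).2 ⟨cm (Jm w) - cm (Jm C.z₁),
    ⟨sub_mem (r7_sp (C.sub w hw).1) (r7_sp (C.sub _ C.mem₁).1), fun v hv => ?_⟩, fun e => h ?_⟩
  · rw [dp_sub, sub_mulVec, C.r7_fixed hw hv, sub_self]
  · exact Matrix.map_injective Complex.ofReal_injective (sub_eq_zero.1 e)

/-- The annihilator is the sum of all slots, it is rational and holds the complex structure. -/
theorem Cmp.r7 (φ φ' : Fr3 ℂ) (h1 : Ann C.G₀ κ ≤ φ.hh) (h2 : AdSt φ'.hh (Ann C.G₀ κ))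
    {w : EE gg} (hw : w ∈ C.Y) (h3 : NoEnd (Jm w)) :
    Ann C.G₀ κ = φ'.hh ∧ Rat φ'.hh ∧ cm (Jm w) ∈ φ'.hh := by
  obtain ⟨k1, k2⟩ := φ.r7 φ' (r7_rat C.G₀) C.r7_ne h1 h2 (Jm_sq (C.sub w hw).1) h3
    fun X hX => C.r7_norm hw hX
  exact ⟨k1, k1 ▸ r7_rat C.G₀, k2⟩

end Pool.Agent.MT.U
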