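import Pool.Agent.Lib.MP_d61fbb_ag.MN.Sn

/-! The Zariski closure of a local image. -/

set_option autoImplicit false

noncomputable section

namespace Pool.Agent.MT.Sn

/-- The complex points, through `i`, of the Zariski closure over `ℚ_l` of the set `G`. -/
def Closure {g l : ℕ} [Fact l.Prime] (i : ℚ_[l] →+* ℂ) (G : Set (GL (Ix g) ℤ_[l])) :
    Set (GL (Ix g) ℂ) :=
  {y | ∀ f : MvPolynomial (Ix g × Ix g) ℚ_[l],
    (∀ x ∈ G, MvPolynomial.eval (fun ij : Ix g × Ix g => (x.val ij.1 ij.2 : ℚ_[l])) f = 0) →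
      MvPolynomial.eval₂ i (fun ij : Ix g × Ix g => y.val ij.1 ij.2) f = 0}

end Pool.Agent.MT.Sn
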