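import Pool.Agent.Lib.MP_d61fbb_ag.MN.T2

/-! Abstract theta systems: generic points. -/

set_option autoImplicit false

noncomputable section

namespace Pool.Agent.MT

variable [Dim]

open Module Pointwise

/-- A divisible group is not a finite union of proper members of a family of subsets that is stable
under translations and intersections and has no infinite descending chain. -/
theorem not_cover {A : Type} [AddCommGroup A] (hd : ∀ n : ℕ, n ≠ 0 → ∀ x : A, ∃ y, n • y = x)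
    (Z : Set (Set A)) (h2 : ∀ Y ∈ Z, ∀ Y' ∈ Z, Y ∩ Y' ∈ Z) (h3 : ∀ Y ∈ Z, ∀ a : A, a +ᵥ Y ∈ Z)
    (r : Set A → ℕ) (hr : ∀ Y ∈ Z, ∀ Y' ∈ Z, Y ⊂ Y' → r Y < r Y') (s : Set (Set A))
    (hs : s.Finite) (hZ : s ⊆ Z) (hc : ⋃₀ s = Set.univ) : Set.univ ∈ s := by
  let Ir : Set A → Prop := fun Y => Y ∈ Z ∧
    ∀ t : Set (Set A), t.Finite → t ⊆ Z → Y ⊆ ⋃₀ t → ∃ Y' ∈ t, Y ⊆ Y'
  have dec : ∀ n, ∀ Y ∈ Z, r Y = n →
      ∃ t : Set (Set A), t.Finite ∧ (∀ X ∈ t, Ir X ∧ X ⊆ Y) ∧ Y ⊆ ⋃₀ t := by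
    intro n
    induction n using Nat.strong_induction_on with
    | _ n ih =>
    intro Y hY e
    by_cases h : Ir Y
    · exact ⟨{Y}, Set.finite_singleton _, by simpa using h, by simp⟩
    obtain ⟨t, t1, t2, t3, t4⟩ : ∃ t : Set (Set A), t.Finite ∧ t ⊆ Z ∧ Y ⊆ ⋃₀ t ∧
        ∀ Y' ∈ t, ¬ Y ⊆ Y' := by
      by_contra! h'
      exact h ⟨hY, h'⟩
    choose! u u1 u2 u3 using fun X (hX : X ∈ t) => ih _ (e ▸ hr _ (h2 Y hY X (t2 hX)) Y hY
      ⟨Set.inter_subset_left, fun h => t4 X hX fun y hy => (h hy).2⟩) _ (h2 Y hY X (t2 hX)) rfl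
    refine ⟨⋃ X ∈ t, u X, t1.biUnion u1, fun X hX => ?_, fun y hy => ?_⟩
    · obtain ⟨X', a, b⟩ := Set.mem_iUnion₂.1 hX
      exact ⟨(u2 X' a X b).1, (u2 X' a X b).2.trans Set.inter_subset_left⟩
    · obtain ⟨X, a, b⟩ := t3 hy
      obtain ⟨X', c, d⟩ := u3 X a ⟨hy, b⟩
      exact ⟨X', Set.mem_iUnion₂.2 ⟨X, a, c⟩, d⟩
  choose! u u1 u2 u3 using fun X (hX : X ∈ s) => dec _ X (hZ hX) rfl
  let T := ⋃ X ∈ s, u X
  have T1 : T.Finite := hs.biUnion u1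
  have T2 : ∀ X ∈ T, Ir X := fun X hX =>
    let ⟨X', a, b⟩ := Set.mem_iUnion₂.1 hX
    (u2 X' a X b).1
  have T3 : ∀ y, y ∈ ⋃₀ T := fun y => by
    obtain ⟨X, a, b⟩ : y ∈ ⋃₀ s := hc ▸ Set.mem_univ y
    obtain ⟨X', c, d⟩ := u3 X a b
    exact ⟨X', Set.mem_iUnion₂.2 ⟨X, a, c⟩, d⟩
  have tr : ∀ (a : A) Y, Ir Y → Ir (a +ᵥ Y) := fun a Y h => ⟨h3 Y h.1 a, fun t t1 t2 t3 => by
    obtain ⟨_, ⟨X, hX, rfl⟩, e⟩ := h.2 ((fun X => -a +ᵥ X) '' t) (t1.image _)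
      (by rintro _ ⟨X, hX, rfl⟩; exact h3 X (t2 hX) _) fun y hy => by
        obtain ⟨X, c, d⟩ := t3 (Set.vadd_mem_vadd_set hy)
        exact ⟨_, ⟨X, c, rfl⟩, by simpa [Set.mem_vadd_set_iff_neg_vadd_mem] using d⟩
    exact ⟨X, hX, Set.vadd_set_subset_iff_subset_neg_vadd_set.2 e⟩⟩
  obtain ⟨Y, hY, hm⟩ := T1.exists_maximal (let ⟨X, h, _⟩ := T3 0; ⟨X, h⟩)
  have orb : ∀ a : A, a +ᵥ Y ∈ T := fun a => by
    obtain ⟨X, c, d⟩ := (tr a Y (T2 Y hY)).2 T T1 (fun X h => (T2 X h).1) fun y _ => T3 y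
    obtain ⟨X', c', d'⟩ := (tr (-a) X (T2 X c)).2 T T1 (fun X h => (T2 X h).1) fun y _ => T3 y
    have e := Set.vadd_set_subset_iff_subset_neg_vadd_set.1 d
    have e' : -a +ᵥ X = Y := (d'.trans (hm c' (e.trans d'))).antisymm e
    rwa [← e', vadd_neg_vadd]
  have fin : Finite (AddAction.orbit A Y) := (T1.subset (by rintro _ ⟨a, rfl⟩; exact orb a)).to_subtype
  have fi : (AddAction.stabilizer A Y).index ≠ 0 := by
    rw [AddAction.index_stabilizer]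
    exact (Set.ncard_pos (Set.toFinite _)).2 ⟨Y, AddAction.mem_orbit_self Y⟩ |>.ne'
  have st : ∀ a : A, a +ᵥ Y = Y := fun a => by
    obtain ⟨b, rfl⟩ := hd _ fi a
    exact (AddAction.stabilizer A Y).nsmul_index_mem b
  obtain ⟨y, hy⟩ : Y.Nonempty := Set.nonempty_iff_ne_empty.2 fun e => by
    simpa using (T2 Y hY).2 ∅ Set.finite_empty (by simp) (by simp [e])
  obtain ⟨X, a, b⟩ := Set.mem_iUnion₂.1 hY
  rwa [← Set.eq_univ_of_forall fun x => (u2 X a Y b).2 (by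
    rw [← st (x - y)]
    exact ⟨y, hy, sub_add_cancel x y⟩)]

/-- the same for zero sets inside a space of finite dimension -/
theorem exists_generic {k A ι : Type} [Field k] [AddCommGroup A] [Finite ι]
    (hd : ∀ n : ℕ, n ≠ 0 → ∀ x : A, ∃ y, n • y = x) (Y : Submodule k (A → k))
    [FiniteDimensional k Y] (f : ι → A → k) (h0 : ∀ i, ∃ x, f i x ≠ 0)
    (h : ∀ i t x, f i (x + t) ≠ 0 → ∃ g ∈ Y, g x ≠ 0 ∧ ∀ y, f i (y + t) = 0 → g y = 0) :
    ∃ x, ∀ i, f i x ≠ 0 := by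
  by_contra! hc
  let V : Set A → Submodule k Y := fun S => ⨅ x ∈ S, LinearMap.ker (LinearMap.proj x ∘ₗ Y.subtype)
  have hV : ∀ S g, g ∈ V S ↔ ∀ x ∈ S, (g : A → k) x = 0 := fun S g => by simp [V]
  obtain ⟨i, hi⟩ := not_cover hd {S | ∃ B : Set (ι × A), S = {x | ∀ b ∈ B, f b.1 (x + b.2) = 0}}
    (by
      rintro _ ⟨B, rfl⟩ _ ⟨B', rfl⟩
      exact ⟨B ∪ B', by ext x; simp [or_imp, forall_and]⟩)
    (by
      rintro _ ⟨B, rfl⟩ a
      refine ⟨(fun b => (b.1, b.2 - a)) '' B, ?_⟩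
      ext x
      simp only [Set.mem_vadd_set_iff_neg_vadd_mem, Set.mem_ofPred_eq, Set.forall_mem_image,
        vadd_eq_add, show ∀ b, -a + x + b = x + (b - a) from fun b => by abel])
    (fun S => finrank k Y - finrank k (V S)) (by
      rintro _ ⟨B, rfl⟩ S' - ⟨h1, h2⟩
      obtain ⟨x, a, b⟩ := Set.not_subset.1 h2
      obtain ⟨c, d, e⟩ : ∃ c ∈ B, f c.1 (x + c.2) ≠ 0 := by simpa using b
      obtain ⟨g, g1, g2, g3⟩ := h _ _ _ e
      have h3 : V S' < V {x | ∀ b ∈ B, f b.1 (x + b.2) = 0} :=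
        SetLike.lt_iff_le_and_exists.2 ⟨fun g hg => (hV _ _).2 fun x hx => (hV _ _).1 hg x (h1 hx),
          ⟨g, g1⟩, (hV _ _).2 fun y hy => g3 y (hy c d), fun h => g2 ((hV _ _).1 h x a)⟩
      have h4 := Submodule.finrank_lt_finrank_of_lt h3
      have h5 := Submodule.finrank_le (V {x | ∀ b ∈ B, f b.1 (x + b.2) = 0})
      omega)
    (Set.range fun i => {x | f i x = 0}) (Set.finite_range _)
    (by rintro _ ⟨i, rfl⟩; exact ⟨{(i, 0)}, by simp⟩)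
    (Set.eq_univ_of_forall fun x => let ⟨i, hi⟩ := hc x; ⟨_, ⟨i, rfl⟩, hi⟩)
  obtain ⟨x, hx⟩ := h0 i
  exact hx (Set.eq_univ_iff_forall.1 hi x)

namespace TSys
variable {k : Type} [Field k] {q : ℕ} (S : TSys k q)

lemma ne_on_aux {m : ℕ} (hm : (m : k) ≠ 0) {f : W → k} (hf : f ∈ S.G m) (f0 : f ≠ 0) (z : W) :
    ∃ x ∈ Wp q, f (x + z) ≠ 0 := by
  by_contra! h
  obtain ⟨η, hη⟩ := S.exists_th z
  have h1 := S.Sp_le m (S.th_pow η m)
  rw [← S.G_span hm hf f0] at h1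
  refine pow_ne_zero m hη ((Submodule.span_le (p := LinearMap.ker (LinearMap.proj z))).2 ?_ h1)
  rintro _ ⟨t, ht, rfl⟩
  change Rt S.e m t f z = 0
  rw [Rt, add_comm, h t ht, mul_zero]

/-- theta functions do not vanish on a coset of the prime to `q` part -/
lemma ne_on {m : ℕ} {f : W → k} (hf : f ∈ S.G m) (f0 : f ≠ 0) (z : W) :
    ∃ x ∈ Wp q, f (x + z) ≠ 0 := by
  by_cases hm : (m : k) = 0
  · obtain ⟨y, hy⟩ := Function.ne_iff.1 f0
    obtain ⟨η, hη⟩ := S.exists_th y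
    obtain ⟨x, a, b⟩ := S.ne_on_aux (m := m + 1) (by simp [hm]) (Gs_mul hf (S.th_mem η))
      (Function.ne_iff.2 ⟨y, mul_ne_zero hy hη⟩) z
    exact ⟨x, a, left_ne_zero_of_mul b⟩
  · exact S.ne_on_aux hm hf f0 z

/-- all translates, completed to a fixed class, lie in one space of finite dimension -/
lemma fin_tr {m : ℕ} {f : W → k} (hf : f ∈ S.G m) : ∃ Y : Submodule k (W → k),
    FiniteDimensional k Y ∧ ∀ t η,
      Rt S.e m t f * Rt S.e 2 (-(((m : ℚ) / 2) • t)) (S.th η ^ 2) ∈ Y := by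
  have := S.fin_Sp (m := m + 2) (by simp)
  induction hf using Submodule.span_induction with
  | zero => exact ⟨⊥, inferInstance, fun t η => by simp [← RtL_apply]⟩
  | add f g _ _ a b =>
    obtain ⟨Y, _, a⟩ := a
    obtain ⟨Y', _, b⟩ := b
    refine ⟨Y ⊔ Y', inferInstance, fun t η => ?_⟩
    rw [← RtL_apply m, map_add, add_mul]
    exact Submodule.add_mem_sup (a t η) (b t η)
  | smul c f _ a =>
    obtain ⟨Y, _, a⟩ := a
    refine ⟨Y, inferInstance, fun t η => ?_⟩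
    rw [Rt_smul, smul_mul_assoc]
    exact Y.smul_mem _ (a t η)
  | mem f a =>
    obtain ⟨L, a, b, rfl⟩ := a
    refine ⟨(Sp S.e S.Θ (m + 2)).map (RtL S.e (m + 2) (((m + 2 : ℕ) : ℚ)⁻¹ • cl L)),
      inferInstance, fun t η => ⟨_, ?_, Rt_Rt_neg _ _ _⟩⟩
    have h1 : S.th η ^ 2 = gen S.e S.Θ {(1, hw η), (1, hw η)} := by
      funext x; simp [gen, th, sq]
    have h2 : wt {(1, hw η), (1, hw η)} = (2 : ℕ) := by simp [wt]
    have h3 := (wt_add _ _).trans (congrArg₂ (· + ·) ((wt_shf t L).trans a)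
      ((wt_shf (-(((m : ℚ) / 2) • t)) _).trans h2))
    rw [← Nat.cast_add] at h3
    rw [h1, Rt_gen a, Rt_gen h2, smul_mul_smul_comm, ← gen_add, Rt_smul, Rt_gen h3]
    refine Submodule.smul_mem _ _ (Submodule.smul_mem _ _ (Submodule.subset_span
      ⟨_, (wt_shf _ _).trans h3, zsmul_mem ?_ _, rfl⟩))
    rw [cl_shf, h3, cl_add, cl_shf, cl_shf, a, h2]
    convert hw_two η using 1
    simp only [cl, Multiset.insert_eq_cons, Multiset.map_cons, Multiset.map_singleton,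
      Multiset.sum_cons, Multiset.sum_singleton]
    have h4 : (m : ℚ) + 2 ≠ 0 := by positivity
    match_scalars <;> field_simp <;> ring

end TSys

theorem genp_of : GENP := by
  intro k _ q S n m f z hf f0
  choose Y Y1 Y2 using fun i => S.fin_tr (hf i)
  let r : Fin n → (W → k) →ₗ[k] Wp q → k := fun i => LinearMap.funLeft k k fun x => x.1 + z i
  obtain ⟨x, hx⟩ := exists_generic (A := Wp q) (fun N hN x => ⟨⟨_, Wp_qsmul (N : ℚ)⁻¹ x.2⟩,
    Subtype.ext (by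
      rw [AddSubmonoidClass.coe_nsmul, ← Nat.cast_smul_eq_nsmul ℚ,
        smul_inv_smul₀ (by exact_mod_cast hN)])⟩) (⨆ i, (Y i).map (r i))
    (fun i x => f i (x.1 + z i))
    (fun i => let ⟨x, a, b⟩ := S.ne_on (hf i) (f0 i) (z i); ⟨⟨x, a⟩, b⟩) fun i t x h => by
      obtain ⟨η, hη⟩ := S.exists_th (x.1 + z i + -(((m i : ℚ) / 2) • t.1))
      refine ⟨_, Submodule.mem_iSup_of_mem i ⟨_, Y2 i t.1 η, rfl⟩,
        mul_ne_zero (mul_ne_zero (e_ne _ _) ?_) (mul_ne_zero (e_ne _ _) (pow_ne_zero 2 hη)),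
        fun y hy => mul_eq_zero_of_left (mul_eq_zero_of_right _ ?_) _⟩
      · rwa [add_right_comm]
      · rwa [add_right_comm]
  exact ⟨x.1, x.2, hx⟩

end Pool.Agent.MT
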