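import Pool.Agent.Lib.MP_d61fbb_ag.MN.I1

/-! The theta coordinates separate points. -/

set_option autoImplicit false

noncomputable section

namespace Pool.Agent.MT

variable [Dim]

open Matrix Sum

theorem inj_char {V k : Type} [AddCommGroup V] [Field k] {Θ : V → k} {δ s : V} {c : k}
    (hc : c ≠ 0) (ev : ∀ x, Θ (-x) = Θ x)
    (gen : ∀ a b c d : V, ∃ u, Θ (u + a) ≠ 0 ∧ Θ (u + b) ≠ 0 ∧ Θ (u + c) ≠ 0 ∧ Θ (u + d) ≠ 0)
    (h : ∀ a b a' b', a + b + a' + b' = s →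
      Θ (a + δ) * Θ (b + δ) * Θ (a' + δ) * Θ (b' + δ) = c * (Θ a * Θ b * Θ a' * Θ b')) :
    ∃ (κ : k) (χ : V → k), κ ≠ 0 ∧ (∀ a, χ a ≠ 0) ∧ (∀ a b, χ (a + b) = χ a * χ b) ∧
      ∀ a, Θ (a + δ) = κ * χ a * Θ a := by
  have ev' : ∀ u v, Θ (v - u) = Θ (u + -v) := fun u v => by rw [← ev]; congr 1; abel
  have h1 : ∀ t, ∃ φ : k, φ ≠ 0 ∧ ∀ a b, a + b = t → Θ (a + δ) * Θ (b + δ) = φ * (Θ a * Θ b) := by
    intro t
    obtain ⟨u, p1, p2, p3, p4⟩ := gen 0 δ (-(s - t)) (-(s - t + δ))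
    rw [add_zero] at p1
    rw [← ev'] at p3 p4
    rw [show s - t + δ - u = s - t - u + δ by abel] at p4
    refine ⟨c * (Θ u * Θ (s - t - u)) / (Θ (u + δ) * Θ (s - t - u + δ)), by positivity,
      fun a b e => ?_⟩
    have := h a b u (s - t - u) (by rw [e]; abel)
    field_simp
    linear_combination this
  choose φ φ0 hφ using h1
  obtain ⟨a0, q1, q2, -⟩ := gen 0 δ 0 0
  rw [add_zero] at q1
  have h2 : ∀ a, Θ (a + δ) = φ (a + a0) * Θ a0 / Θ (a0 + δ) * Θ a := fun a => by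
    field_simp
    linear_combination hφ _ a a0 rfl
  have h4 : ∀ a b, φ (a + b) * φ 0 = φ a * φ b := fun a b => by
    obtain ⟨u, p1, p2, p3, -⟩ := gen 0 b (-a) 0
    rw [add_zero] at p1
    rw [← ev'] at p3
    have e1 := hφ (a + b) (u + b) (a - u) (by abel)
    have e2 := hφ 0 u (-u) (by abel)
    have e3 := hφ a u (a - u) (by abel)
    have e4 := hφ b (u + b) (-u) (by abel)
    rw [ev] at e2 e4
    refine mul_right_cancel₀ (b := Θ (u + b) * Θ (a - u) * (Θ u * Θ u)) (by positivity) ?_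
    calc _ = φ (a + b) * (Θ (u + b) * Θ (a - u)) * (φ 0 * (Θ u * Θ u)) := by ring
      _ = φ a * (Θ u * Θ (a - u)) * (φ b * (Θ (u + b) * Θ u)) := by
        rw [← e1, ← e2, ← e3, ← e4]; ring
      _ = _ := by ring
  have p0 := φ0 0
  refine ⟨φ a0 * Θ a0 / Θ (a0 + δ), fun a => φ a / φ 0, ?_, fun a => div_ne_zero (φ0 a) p0,
    fun a b => ?_, fun a => ?_⟩
  · have := φ0 a0
    positivity
  · field_simp
    linear_combination h4 a b
  · rw [h2]
    field_simp
    linear_combination Θ a * h4 a a0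

theorem inj_triv {V k : Type} [AddCommGroup V] [Field k] {Θ ω : V → k} {C : k} (hC : C ≠ 0)
    (gen : ∀ a b c d : V, ∃ u, Θ (u + a) ≠ 0 ∧ Θ (u + b) ≠ 0 ∧ Θ (u + c) ≠ 0 ∧ Θ (u + d) ≠ 0)
    (hω : ∀ a b, ω (a + b) = ω a * ω b) (h : ∀ a, Θ a ≠ 0 → ω a = C) (t : V) : ω t = 1 := by
  obtain ⟨u, p1, p2, -⟩ := gen 0 t 0 0
  rw [add_zero] at p1
  have := hω u t
  rw [h _ p1, h _ p2] at this
  exact mul_left_cancel₀ hC (by rw [← this, mul_one])

theorem inj_den (x : W) : ∃ n : ℕ, n ≠ 0 ∧ n • x ∈ L0 := by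
  choose N h0 hN using fun i => af_den (x i)
  refine ⟨∏ i, N i, Finset.prod_ne_zero_iff.2 fun i _ => h0 i, fun i _ => ?_⟩
  rw [← Finset.mul_prod_erase _ N (Finset.mem_univ i), mul_comm, Pi.smul_apply, mul_smul]
  refine nsmul_mem (S := Zh.toAddSubgroup) ?_ _
  rw [nsmul_eq_mul]
  exact hN i

namespace TSys
variable {k : Type} [Field k] {q : ℕ} (S : TSys k q)

theorem inj_e_ne (x : AF) : S.e x ≠ 0 := (S.e.val_isUnit x).ne_zero

theorem inj_gen (h : GENP) (a b c d : W) :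
    ∃ u, S.Θ (u + a) ≠ 0 ∧ S.Θ (u + b) ≠ 0 ∧ S.Θ (u + c) ≠ 0 ∧ S.Θ (u + d) ≠ 0 := by
  have hm : S.Θ ∈ S.G 1 := Submodule.subset_span ⟨{(1, 0)}, by simp [wt], by simp [cl], by
    funext x; simp [gen, Rt]⟩
  have h0 : S.Θ ≠ 0 := fun e => by
    obtain ⟨η, hη⟩ := S.bpf 0
    exact hη (by rw [e]; rfl)
  obtain ⟨u, -, hu⟩ := h k q S 4 (fun _ => 1) (fun _ => S.Θ) ![a, b, c, d] (fun _ => hm) fun _ => h0
  exact ⟨u, hu 0, hu 1, hu 2, hu 3⟩

/-- the half commutator -/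
def injE (t x : W) : k := S.e ((1 / 2 : ℚ) • Ef t x)

theorem injE_add_right (t x y : W) : S.injE t (x + y) = S.injE t x * S.injE t y := by
  rw [injE, Ef_add_right, smul_add, AddChar.map_add_eq_mul]; rfl

theorem injE_add_left (t x y : W) : S.injE (x + y) t = S.injE x t * S.injE y t := by
  rw [injE, Ef_add_left, smul_add, AddChar.map_add_eq_mul]; rfl

theorem injE_swap (t x : W) : S.injE t x * S.injE x t = 1 := by
  rw [injE, injE, ← AddChar.map_add_eq_mul, Ef_swap x t, smul_neg, add_neg_cancel,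
    AddChar.map_zero_eq_one]

theorem injE_self (t : W) : S.injE t t = 1 := by simp [injE]

theorem injE_nsmul (n : ℕ) (t x : W) : S.injE (n • t) x = S.injE t (n • x) := by
  rw [injE, injE, ← Nat.cast_smul_eq_nsmul AF, ← Nat.cast_smul_eq_nsmul AF, Ef_smul_left,
    Ef_smul_right]

theorem inj_per {t : W} (ht : t ∈ L0) (x : W) : S.injE t x * S.Θ (x + t) = sgn S.e t * S.Θ x := by
  have := congrFun (S.per t ht) x
  simpa [Rt, injE] using this

theorem inj_shift (h : GENP) {x y : W} {c : k} (hc : ∀ η, S.th η x = c * S.th η y) :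
    ∃ κ : k, (∀ t ∈ L0, S.e (Ef ((1 / 2 : ℚ) • (x - y)) t) = 1) ∧
      ∀ a, S.injE ((1 / 2 : ℚ) • (x - y)) a * S.Θ (a + (1 / 2 : ℚ) • (x - y)) = κ * S.Θ a := by
  obtain ⟨δ, hδ⟩ : ∃ δ : W, δ = (1 / 2 : ℚ) • (x - y) := ⟨_, rfl⟩
  rw [← hδ]
  have c0 : c ≠ 0 := by
    rintro rfl
    obtain ⟨η, hη⟩ := S.bpf x
    exact mul_ne_zero (S.inj_e_ne _) hη ((hc η).trans (zero_mul _))
  have h16 : (2 : k) ^ gg ≠ 0 := pow_ne_zero _ S.two
  obtain ⟨κ, χ, κ0, χ0, χa, hχ⟩ := inj_char (Θ := S.Θ) (δ := δ) (s := y + y) c0 S.ev (S.inj_gen h)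
    fun a b a' b' e => by
      refine mul_left_cancel₀ h16 ?_
      rw [S.ri, mul_left_comm, S.ri, Finset.mul_sum]
      refine Finset.sum_congr rfl fun η _ => ?_
      have e1 : (1 / 2 : ℚ) • (a + δ + (b + δ) + (a' + δ) + (b' + δ)) = x := by
        rw [show a + δ + (b + δ) + (a' + δ) + (b' + δ) = a + b + a' + b' + (4 : ℚ) • δ by module,
          e, hδ]
        module
      have e2 : (1 / 2 : ℚ) • (a + b + a' + b') = y := by rw [e]; module
      rw [e1, e2, show a + δ + (b + δ) - (a' + δ) - (b' + δ) = a + b - a' - b' by abel,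
        show a + δ - (b + δ) + (a' + δ) - (b' + δ) = a - b + a' - b' by abel,
        show a + δ - (b + δ) - (a' + δ) + (b' + δ) = a - b - a' + b' by abel]
      have := hc η
      rw [th] at this
      rw [this]
      ring
  have χ1 : χ 0 = 1 := mul_left_cancel₀ (χ0 0) (by rw [← χa, add_zero, mul_one])
  have χn : ∀ (n : ℕ) a, χ (n • a) = χ a ^ n := fun n a => by
    induction n with
    | zero => rw [zero_smul, pow_zero, χ1]
    | succ n ih => rw [succ_nsmul, χa, ih, pow_succ]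
  have hn : ∀ n : ℕ, ∃ C : k, C ≠ 0 ∧ ∀ a, S.Θ (a + n • δ) = C * χ (n • a) * S.Θ a := fun n => by
    induction n with
    | zero => exact ⟨1, one_ne_zero, fun a => by simp [χ1]⟩
    | succ n ih =>
      obtain ⟨C, C0, hC⟩ := ih
      refine ⟨κ * χ (n • δ) * C, mul_ne_zero (mul_ne_zero κ0 (χ0 _)) C0, fun a => ?_⟩
      rw [succ_nsmul, ← add_assoc, hχ, hC, succ_nsmul, χa, χa]
      ring
  obtain ⟨n, n0, hnδ⟩ := inj_den δ
  obtain ⟨C, C0, hC⟩ := hn n
  have h1 : ∀ a, χ (n • a) * S.injE δ (n • a) = 1 :=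
    inj_triv (Θ := S.Θ) (C := sgn S.e (n • δ) / C) (div_ne_zero (S.inj_e_ne _) C0) (S.inj_gen h)
      (fun a b => by rw [smul_add, χa, injE_add_right]; ring) fun a ha => by
        have := S.inj_per hnδ a
        rw [hC, injE_nsmul] at this
        rw [eq_div_iff C0]
        exact mul_right_cancel₀ ha (by linear_combination this)
  have h2 : ∀ a, χ a * S.injE δ a = 1 := fun a => by
    have := h1 ((n : ℚ)⁻¹ • a)
    rwa [← Nat.cast_smul_eq_nsmul ℚ, smul_inv_smul₀ (by exact_mod_cast n0)] at this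
  have h3 : ∀ a, S.injE δ a * S.Θ (a + δ) = κ * S.Θ a := fun a => by
    rw [hχ]
    linear_combination κ * S.Θ a * h2 a
  refine ⟨κ, fun t ht => ?_, h3⟩
  obtain ⟨u, p1, -⟩ := S.inj_gen h 0 0 0 0
  rw [add_zero] at p1
  have e1 := S.inj_per ht (u + δ)
  have e2 := S.inj_per ht u
  have e3 := h3 (u + t)
  have e4 := h3 u
  have e5 := S.injE_swap δ t
  rw [injE_add_right] at e1 e3
  rw [add_right_comm] at e3
  have e6 : S.e (Ef δ t) = S.injE δ t * S.injE δ t := by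
    rw [injE, ← AddChar.map_add_eq_mul]
    congr 1
    module
  rw [e6]
  refine mul_right_cancel₀ (b := sgn S.e t * κ * S.Θ u)
    (mul_ne_zero (mul_ne_zero (S.inj_e_ne _) κ0) p1) ?_
  have e7 : S.injE δ t * S.injE δ t * (sgn S.e t * (S.injE δ u * S.Θ (u + δ))) =
      S.injE t u * (S.injE δ u * S.injE δ t * S.Θ (u + δ + t)) := by
    linear_combination (-(S.injE δ t * S.injE δ t * S.injE δ u)) * e1 +
      S.injE δ t * S.injE δ u * S.injE t u * S.Θ (u + δ + t) * e5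
  rw [e4, e3] at e7
  linear_combination e7 + κ * e2

end TSys

theorem inj_of (h : GENP) : INJ := by
  intro k _ q S x y c hc
  obtain ⟨κ, h1, h2⟩ := S.inj_shift h hc
  obtain ⟨δ, hδ⟩ : ∃ δ : W, δ = (1 / 2 : ℚ) • (x - y) := ⟨_, rfl⟩
  rw [← hδ] at h1 h2
  have hb : ∀ j, (Pi.single j 1 : W) ∈ L0 := fun j i _ => by
    by_cases e : i = j
    · subst e; simp
    · simp [Pi.single_eq_of_ne e]
  have h3 : ∀ i (l : Pr), (l : ℕ) ≠ q → ‖cp l (δ i)‖ ≤ 1 := fun i l hl => by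
    rcases i with i | i
    · have := (S.ker _).1 (h1 _ (hb (inr i))) l hl
      simpa [Ef, dotProduct, Pi.single_apply] using this
    · have := (S.ker _).1 (h1 _ (hb (inl i))) l hl
      simpa [Ef, dotProduct, Pi.single_apply] using this
  refine ⟨fun i l hl => by simpa only [hδ, Pi.smul_apply] using h3 i l hl, fun l hl => ?_⟩
  obtain ⟨d, hd⟩ : ∃ d : W, d = sgv l (cpv l δ) := ⟨_, rfl⟩
  have d0 : ∀ i (l' : Pr), l' ≠ l → cp l' (d i) = 0 := fun i l' e => by
    rw [hd]; exact Pi.single_eq_of_ne e _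
  have d1 : ∀ i, cp l (d i) = cp l (δ i) := fun i => by
    rw [hd]; exact Pi.single_eq_same _ _
  have hm : d - δ ∈ L0 := mem_L0.2 fun i l' => by
    rw [Pi.sub_apply, map_sub]
    by_cases e : l' = l
    · subst e; simp [d1]
    · rw [d0 i l' e, zero_sub, norm_neg]
      exact h3 i l' fun e' => e (Subtype.ext (e'.trans hl.symm))
  have dE : ∀ a, S.injE d a = 1 := fun a => (S.ker _).2 fun l' hl' => by
    have e : l' ≠ l := fun e => hl' (e ▸ hl)
    rw [map_smul, Ef_map]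
    simp [show (fun i => cp l' (d i)) = 0 from funext fun i => d0 i l' e]
  have h4 : ∀ a, S.Θ (a + d) = sgn S.e (d - δ) * κ * S.Θ a := fun a => by
    have e1 := S.inj_per hm (a + δ)
    have e2 := h2 a
    have e3 := S.injE_add_left (a + δ) (d - δ) δ
    rw [sub_add_cancel, dE, S.injE_add_right δ, S.injE_self] at e3
    rw [show a + δ + (d - δ) = a + d by abel] at e1
    linear_combination S.injE δ a * e1 + sgn S.e (d - δ) * e2 + S.Θ (a + d) * e3
  have h5 : sgv l (cpv l (x - y)) = d + d := by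
    have : x - y = δ + δ := by rw [hδ]; module
    rw [this, hd]
    funext i
    simp only [sgv, cpv, Pi.add_apply, map_add]
  intro a
  have e1 := h4 (-(a + d + d))
  have e2 := h4 (-(a + d))
  rw [h5, ← add_assoc]
  rw [S.ev, show -(a + d + d) + d = -(a + d) by abel, S.ev] at e1
  rw [S.ev, show -(a + d) + d = -a by abel, S.ev] at e2
  rw [h4, e2]

end Pool.Agent.MT
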