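import Pool.Agent.Lib.MP_d61fbb_ag.MN.Sn
import Pool.Agent.Lib.MP_d61fbb_ag.MN.S1
import Pool.Agent.Lib.MP_d61fbb_ag.MT.GDefs

/-! Stage three: definitions. -/

set_option autoImplicit false
set_option linter.dupNamespace false

noncomputable section

namespace Pool.Agent.MT.U

variable [Dim]

open Matrix Filter

/-- the index set of the tensor model -/
abbrev T3 := Fin nn → Fin 2

/-- An identification of the symplectic space with a tensor product of three planes. -/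
structure Fr3 (F : Type) [Field F] where
  /-- the matrix -/
  U : Matrix (I2 gg) T3 F
  /-- the inverse matrix -/
  U' : Matrix T3 (I2 gg) F
  mul_inv : U * U' = 1
  inv_mul : U' * U = 1
  symp : ∃ u : F, Uᵀ * J (Fin gg) F * U = u • kp fun _ : Fin nn => J2 F

/-- the symplectic Lie algebra -/
abbrev spL (F : Type) [Field F] : Submodule F (M8 F) := lieSub (J (Fin gg) F)

namespace Fr3

variable {F F' : Type} [Field F] [Field F'] (φ : Fr3 F)

/-- the action in one slot -/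
def s (i : Fin nn) : M2 F →ₗ[F] M8 F where
  toFun x := φ.U * sl i x * φ.U'
  map_add' x y := by
    rw [← Matrix.add_mul, ← Matrix.mul_add]; congr 2; ext a b; simp [sl_apply, add_mul]
  map_smul' c x := by
    rw [RingHom.id_apply, ← Matrix.smul_mul, ← Matrix.mul_smul]; congr 2; ext a b
    simp [sl_apply, mul_assoc]

/-- the traceless matrices in one slot -/
def h (i : Fin nn) : Submodule F (M8 F) := (LinearMap.ker (traceLinearMap (Fin 2) F F)).map (φ.s i)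

/-- the Lie algebra `sl₂ × sl₂ × sl₂` -/
def hh : Submodule F (M8 F) := ⨆ i, φ.h i

/-- the image of `SL₂ × SL₂ × SL₂` -/
def H : Set (M8 F) := {X | ∃ g : Fin nn → M2 F, (∀ i, (g i).det = 1) ∧ X = φ.U * kp g * φ.U'}

/-- extension of scalars -/
def map (f : F →+* F') : Fr3 F' where
  U := φ.U.map f
  U' := φ.U'.map f
  mul_inv := by rw [← Matrix.map_mul, φ.mul_inv, Matrix.map_one _ f.map_zero f.map_one]
  inv_mul := by rw [← Matrix.map_mul, φ.inv_mul, Matrix.map_one _ f.map_zero f.map_one]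
  symp := by
    obtain ⟨u, hu⟩ := φ.symp
    refine ⟨f u, ?_⟩
    rw [← map_J _ f, ← transpose_map, ← Matrix.map_mul, ← Matrix.map_mul, hu,
      show (fun _ : Fin nn => J2 F') = fun _ => (J2 F).map f from funext fun _ => by
        ext a b; fin_cases a <;> fin_cases b <;> simp [J2], ← kp_map]
    ext a b
    simp

/-- translation by a symplectic matrix -/
def cj (a : symplecticGroup (Fin gg) F) : Fr3 F where
  U := a.1 * φ.U
  U' := φ.U' * (a⁻¹).1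
  mul_inv := by
    rw [Matrix.mul_assoc, ← Matrix.mul_assoc φ.U, φ.mul_inv, Matrix.one_mul]
    exact congrArg Subtype.val (mul_inv_cancel a)
  inv_mul := by
    rw [Matrix.mul_assoc, ← Matrix.mul_assoc _ a.1, show (a⁻¹).1 * a.1 = 1 from
      congrArg Subtype.val (inv_mul_cancel a), Matrix.one_mul, φ.inv_mul]
  symp := by
    obtain ⟨u, hu⟩ := φ.symp
    refine ⟨u, ?_⟩
    rw [← hu, transpose_mul, Matrix.mul_assoc φ.Uᵀ, Matrix.mul_assoc φ.Uᵀ, ← Matrix.mul_assoc _ a.1,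
      SymplecticGroup.mem_iff'.1 a.2, Matrix.mul_assoc]

end Fr3

/-- the frame of a cubic algebra -/
def cubFr {l : ℕ} [Fact l.Prime] (D : Cub l) : Fr3 (PadicAlgCl l) where
  U := D.U
  U' := D.U'
  mul_inv := D.mul_inv
  inv_mul := D.inv_mul
  symp := by
    obtain ⟨u, hu⟩ := D.symp
    refine ⟨-u, Matrix.ext fun a b => ?_⟩
    have := hu (Pi.single a 1) (Pi.single b 1)
    rw [Ef_eq, mulVec_mulVec, ← vecMul_transpose, ← dotProduct_mulVec, mulVec_mulVec,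
      ← Matrix.mul_assoc, neg_eq_iff_eq_neg] at this
    simpa using this

/-- subspaces that are stable under all automorphisms of the complex numbers -/
def Rat (V : Submodule ℂ (M8 ℂ)) : Prop := ∀ (α : ℂ ≃+* ℂ), ∀ X ∈ V, X.map α ∈ V

/-- `V` is stable under the bracket with elements of `A` -/
def AdSt {F : Type} [Field F] (A V : Submodule F (M8 F)) : Prop :=
  ∀ X ∈ A, ∀ Y ∈ V, X * Y - Y * X ∈ V

/-- the Zariski closure -/
def Zar (A : Set (M8 ℂ)) : Set (M8 ℂ) := {g | ∀ f : MvPolynomial (I2 gg × I2 gg) ℂ,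
  (∀ a ∈ A, MvPolynomial.eval (fun ij => a ij.1 ij.2) f = 0) →
    MvPolynomial.eval (fun ij => g ij.1 ij.2) f = 0}

/-- no rational element of the Lie algebra commutes with `J₀` -/
def NoEnd (J₀ : M8 ℝ) : Prop :=
  ∀ X : M8 ℚ, IsLie (J (Fin gg) ℚ) X → qr X * J₀ = J₀ * qr X → X = 0

/-- the part of `x` on which `j` acts by `c` from the left and by `-c` from the right -/
def off (c : ℂ) (j x : M2 ℂ) : M2 ℂ := (1 - c • j) * x * (1 + c • j)

/-- The position of the conjugates of the complex structure. -/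
structure Pos (φ : Fr3 ℂ) (J₀ : M8 ℝ) (i₀ : Fin nn) (j j' j'' : M2 ℂ) : Prop where
  tr : j.trace = 0 ∧ j'.trace = 0 ∧ j''.trace = 0
  sq : j * j = -1 ∧ j' * j' = -1 ∧ j'' * j'' = -1
  eq : G.cm J₀ = φ.s i₀ j
  eq' : ∃ α : ℂ ≃+* ℂ, (G.cm J₀).map α = φ.s i₀ j'
  eq'' : ∃ α : ℂ ≃+* ℂ, (G.cm J₀).map α = φ.s i₀ j''
  up : off Complex.I j j' ≠ 0
  low : off (-Complex.I) j j'' ≠ 0
  tran : ∀ i, ∃ α : ℂ ≃+* ℂ, ∀ X ∈ φ.h i, X.map α ∈ φ.h i₀

/-- invariant tensors -/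
def Inv {g : ℕ} (G₀ : Subgroup (G.Sp g ℤ)) (κ : Type) [Fintype κ] [DecidableEq κ] (R : Type)
    [CommRing R] : Submodule R ((κ → I2 g) → R) where
  carrier := {v | ∀ γ ∈ G₀, tk κ (γ.1.map (Int.cast : ℤ → R)) *ᵥ v = v}
  add_mem' hx hy γ h := by rw [mulVec_add, hx γ h, hy γ h]
  zero_mem' _ _ := mulVec_zero _
  smul_mem' c _ hx γ h := by rw [mulVec_smul, hx γ h]

/-- the annihilator of the invariant tensors -/
def Ann (G₀ : Subgroup (G.Sp gg ℤ)) (κ : Type) [Fintype κ] [DecidableEq κ] : Submodule ℂ (M8 ℂ) where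
  carrier := {X | X ∈ spL ℂ ∧ ∀ v ∈ Inv G₀ κ ℂ, dp κ X *ᵥ v = 0}
  add_mem' hx hy := ⟨add_mem hx.1 hy.1, fun v h => by
    rw [dp_add, add_mulVec, hx.2 v h, hy.2 v h, add_zero]⟩
  zero_mem' := ⟨zero_mem _, fun v _ => by rw [dp_zero, zero_mulVec]⟩
  smul_mem' c _ hx := ⟨Submodule.smul_mem _ c hx.1, fun v h => by
    rw [dp_smul, smul_mulVec, hx.2 v h, smul_zero]⟩

open G

/-- the affine coordinates of level `M` -/
def pM {g : ℕ} (y₀ : LL g 1) (M : ℕ) (z : EE g) : ChL g M → ℂ :=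
  fun x => th x z / th (ch 1 y₀) z

/-- An irreducible analytic set on which a sequence of points accumulates, with its monodromy
group. -/
structure Cmp {g : ℕ} (z : ℕ → EE g) (𝒰 : Ultrafilter ℕ) where
  /-- the chart -/
  y₀ : LL g 1
  /-- the set -/
  Y : Set (EE g)
  /-- the monodromy group -/
  G₀ : Subgroup (Sp g ℤ)
  /-- the translations -/
  c : ℕ → Sp g ℤ
  /-- the base point -/
  z₁ : EE g
  mem₁ : z₁ ∈ Y
  sub : ∀ w ∈ Y, w ∈ HH g ∧ th (ch 1 y₀) w ≠ 0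
  le : G₀ ≤ Gam g 32
  stab : ∀ γ ∈ G₀, ∀ w ∈ Y, az γ w ∈ Y
  c_mem : ∀ j, c j ∈ Gam g 32
  ev : ∀ᶠ j in 𝒰, az (c j) (z j) ∈ Y
  dense : ∀ M, 0 < M → ∀ δ ∈ Gam g 32, ∀ P : MvPolynomial (ChL g M) ℂ,
    (∀ᶠ j in 𝒰, MvPolynomial.eval (pM y₀ M (az δ (az (c j) (z j)))) P = 0) →
      ∀ w ∈ Y, MvPolynomial.eval (pM y₀ M (az δ w)) P = 0
  index : ∃ n : ℕ, ∀ M, 0 < M → ∀ δ : Fin (n + 1) → Sp g ℤ, (∀ a, δ a ∈ Gam g 32) →
    (∀ a (P : MvPolynomial (ChL g M) ℂ), (∀ w ∈ Y, MvPolynomial.eval (pM y₀ M w) P = 0) →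
      MvPolynomial.eval (pM y₀ M (az (δ a) z₁)) P = 0) →
    ∃ a a', a ≠ a' ∧ ∃ γ ∈ G₀, pM y₀ M (az (δ a') z₁) = pM y₀ M (az (γ * δ a) z₁)
  fixed : ∀ (κ : Type) [Fintype κ] [DecidableEq κ], ∀ v ∈ Inv G₀ κ ℝ, ∀ w ∈ Y,
    dp κ (Jm w) *ᵥ v = dp κ (Jm z₁) *ᵥ v
  ne : ∃ w ∈ Y, Jm w ≠ Jm z₁
  baire : ∀ f : ℕ → EE g → ℝ, (∀ n, AnalyticOnNhd ℝ (f n) (HH g)) → (∀ w ∈ Y, ∃ n, f n w = 0) →
    ∃ n, ∀ w ∈ Y, f n w = 0

/-- the Hodge group in terms of the cubic algebras -/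
def Stage3 : Prop := ∀ τ, Sieg τ → ∀ (K : IntermediateField ℚ ℂ), FiniteDimensional ℚ K →
  ee (1 / 8) ∈ K → ∀ (M : MumfordType τ K) (J₀ : M8 ℝ), IsCx τ J₀ → ∀ l ∉ M.S,
    ∀ (i : PadicAlgCl l →+* ℂ) (g : GL (I2 gg) ℂ),
      g ∈ Sn.Hodge J₀ ↔ g.val ∈ ((cubFr (M.D l)).map i).H

end Pool.Agent.MT.U
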