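import Pool.Agent.Lib.MP_d61fbb_ag.MN.UA

/-! Stage three: independence of the slots. -/

set_option autoImplicit false

noncomputable section

namespace Pool.Agent.MT.U

variable [Dim]

open Matrix

namespace Fr3

variable {F : Type} [Field F] [CharZero F] (φ : Fr3 F)

theorem m2_central {x : M2 F} (ht : x.trace = 0) (h : ∀ w : M2 F, w * x = x * w) : x = 0 := by
  obtain ⟨c, rfl⟩ := mem_range_scalar_iff_commute_single'.2 fun i j => h (single i j 1)
  have : c = 0 := by simpa [trace_fin_two, ← two_mul] using ht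
  rw [this, map_zero]

/-- commuting with one slot -/
def Cm (i : Fin nn) (Y : M8 F) : Prop := ∀ w, φ.s i w * Y = Y * φ.s i w

theorem cm_rest (i : Fin nn) (x : Fin nn → M2 F) :
    φ.Cm i (∑ j ∈ Finset.univ.erase i, φ.s j (x j)) := fun w => by
  rw [Finset.mul_sum, Finset.sum_mul]
  exact Finset.sum_congr rfl fun j hj => φ.s_comm (Finset.ne_of_mem_erase hj).symm _ _

theorem Cm.zero {φ : Fr3 F} {i : Fin nn} {x : M2 F} (h : φ.Cm i (φ.s i x)) (ht : x.trace = 0) :
    x = 0 := m2_central ht fun w => φ.s_inj i (by rw [s_mul, s_mul, h w])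

theorem Cm.kill {φ : Fr3 F} {i : Fin nn} {m : M2 F} {Y : M8 F} (h : φ.Cm i Y) (m0 : m ≠ 0)
    (e : φ.s i m * Y = 0) : Y = 0 := by
  obtain ⟨a, b, k⟩ : ∃ a b, m a b ≠ 0 := by
    by_contra! k
    exact m0 (Matrix.ext k)
  have h1 : ∑ c : Fin 2, single c a (1 : F) * m * single b c (1 : F) = m a b • 1 := by
    ext u v
    fin_cases u <;> fin_cases v <;> simp [single_mul_mul_single, Fin.sum_univ_two]
  have h2 : φ.s i (m a b • 1) * Y = 0 := by
    rw [← h1, map_sum, Finset.sum_mul]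
    refine Finset.sum_eq_zero fun c _ => ?_
    rw [s_mul, s_mul, mul_assoc, h, mul_assoc, ← mul_assoc (φ.s i m), e, zero_mul, mul_zero]
  rwa [map_smul, s_one, smul_mul_assoc, one_mul, smul_eq_zero, or_iff_right k] at h2

theorem indep {x : Fin nn → M2 F} (ht : ∀ i, (x i).trace = 0) (h : ∑ i, φ.s i (x i) = 0) :
    x = 0 := by
  funext i
  rw [← Finset.add_sum_erase _ _ (Finset.mem_univ i), add_eq_zero_iff_eq_neg] at h
  refine Cm.zero (φ := φ) (i := i) (fun w => ?_) (ht i)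
  rw [h, mul_neg, neg_mul, φ.cm_rest i x w]

theorem h_disj {i j : Fin nn} (h : i ≠ j) {X : M8 F} (hi : X ∈ φ.h i) (hj : X ∈ φ.h j) :
    X = 0 := by
  obtain ⟨x, h1, rfl⟩ := φ.mem_h.1 hi
  obtain ⟨y, -, h2⟩ := φ.mem_h.1 hj
  rw [Cm.zero (φ := φ) (i := i) (fun w => by rw [h2, φ.s_comm h]) h1, map_zero]

theorem sq {X : M8 F} (h : X ∈ φ.hh) {c : F} (h2 : X * X = c • 1) : ∃ i, X ∈ φ.h i := by
  obtain ⟨x, h1, rfl⟩ := φ.mem_hh.1 h
  by_cases x0 : x = 0
  · exact ⟨0, by simp [x0]⟩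
  obtain ⟨i, hi⟩ := Function.ne_iff.1 x0
  obtain ⟨d, hd⟩ := φ.h_sq (φ.mem_h.2 ⟨_, h1 i, rfl⟩ : φ.s i (x i) ∈ φ.h i)
  have k := φ.cm_rest i x
  rw [← Finset.add_sum_erase _ _ (Finset.mem_univ i)] at h2 ⊢
  generalize ∑ j ∈ Finset.univ.erase i, φ.s j (x j) = Y at *
  obtain ⟨w, hw⟩ := not_forall.1 (mt (m2_central (h1 i)) hi)
  have e : (2 : F) • (φ.s i (x i) * Y) = (c - d) • 1 - Y * Y := by
    rw [sub_smul, ← h2, ← hd, mul_add, add_mul, add_mul, ← k, two_smul]
    abel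
  have e2 : φ.s i w * ((2 : F) • (φ.s i (x i) * Y)) = ((2 : F) • (φ.s i (x i) * Y)) * φ.s i w := by
    rw [e, mul_sub, sub_mul, ← mul_assoc, k, mul_assoc, k, mul_assoc]
    simp
  rw [mul_smul_comm, smul_mul_assoc, smul_right_inj two_ne_zero, mul_assoc, ← k] at e2
  rw [k.kill (sub_ne_zero.2 hw) (by rw [map_sub, s_mul, s_mul, sub_mul, mul_assoc, mul_assoc, e2,
    sub_self]), add_zero]
  exact ⟨i, φ.mem_h.2 ⟨_, h1 i, rfl⟩⟩

/-- evaluation at a scalar -/
def evS (c : F) : Polynomial (M8 F) →+* M8 F :=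
  Polynomial.eval₂RingHom' (RingHom.id _) (c • 1) fun a => by simp [Commute, SemiconjBy]

theorem coeff_mem {V : Submodule F (M8 F)} {p : Polynomial (M8 F)}
    (h : ∀ c : ℤ, evS (c : F) p ∈ V) (k : ℕ) : p.coeff k ∈ V := by
  refine (Subspace.forall_mem_dualAnnihilator_apply_eq_zero_iff V _).1 fun f hf => ?_
  have h0 : (∑ j ∈ p.support, Polynomial.monomial j (f (p.coeff j))) = 0 := by
    refine Polynomial.eq_zero_of_infinite_isRoot _ ((Set.infinite_range_of_injective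
      (Int.cast_injective (α := F))).mono ?_)
    rintro _ ⟨c, rfl⟩
    have := (Submodule.mem_dualAnnihilator f).1 hf _ (h c)
    simp only [evS, Polynomial.eval₂RingHom'_apply, Polynomial.eval₂_eq_sum, Polynomial.sum,
      map_sum, RingHom.id_apply, smul_pow, one_pow, mul_smul_comm, mul_one, map_smul,
      smul_eq_mul] at this
    simpa only [Set.mem_ofPred_eq, Polynomial.IsRoot, Polynomial.eval_finsetSum,
      Polynomial.eval_monomial, mul_comm] using this
  have := congrArg (fun q => Polynomial.coeff q k) h0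
  simp only [Polynomial.finsetSum_coeff, Polynomial.coeff_monomial, Finset.sum_ite_eq',
    Polynomial.coeff_zero] at this
  by_cases h1 : p.coeff k = 0
  · rw [h1, map_zero]
  · rwa [if_pos (Polynomial.mem_support_iff.2 h1)] at this

omit [CharZero F] in
theorem kp_poly (a : Fin nn → M2 F) : ∃ p : Polynomial (M8 F), p.coeff 0 = 1 ∧
    p.coeff 1 = ∑ k, φ.s k (a k) ∧
      ∀ c : F, evS c p = φ.U * kp (fun k => 1 + c • a k) * φ.U' := by
  have key : ∀ s : Finset (Fin nn), ∃ p : Polynomial (M8 F), p.coeff 0 = 1 ∧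
      p.coeff 1 = ∑ k ∈ s, φ.s k (a k) ∧ ∀ c : F, evS c p =
        φ.U * kp (fun k => if k ∈ s then 1 + c • a k else 1) * φ.U' := fun s => by
    induction s using Finset.induction_on with
    | empty => exact ⟨1, by simp, by simp [Polynomial.coeff_one],
        fun c => by rw [kp_empty, map_one]⟩
    | insert k s hk ih =>
      obtain ⟨p, h0, h1, h2⟩ := ih
      refine ⟨(1 + Polynomial.C (φ.s k (a k)) * Polynomial.X) * p, by simp [h0], ?_, fun c => ?_⟩
      · rw [add_mul, one_mul, mul_assoc, Polynomial.coeff_add, Polynomial.coeff_C_mul,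
          Polynomial.coeff_X_mul, h0, h1, Finset.sum_insert hk, mul_one, add_comm]
      · rw [φ.kp_insert (fun k => 1 + c • a k) hk, map_mul, h2, map_add (φ.s k), s_one, map_smul]
        simp [evS]
  simpa using key Finset.univ

theorem ad_gen {A : AddSubgroup (Fin nn → F)} (hA : Submodule.span F (A : Set (Fin nn → F)) = ⊤)
    {V : Submodule F (M8 F)} {X : M8 F} (n : M2 F)
    (h : ∀ t ∈ A, φ.U * kp (fun k => 1 + t k • n) * φ.U' * X *
      (φ.U * kp (fun k => 1 + -t k • n) * φ.U') - X ∈ V) (k : Fin nn) :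
    φ.s k n * X - X * φ.s k n ∈ V := by
  have h1 : ∀ t ∈ Submodule.span F (A : Set (Fin nn → F)),
      ∑ k, t k • (φ.s k n * X - X * φ.s k n) ∈ V := fun t ht => by
    induction ht using Submodule.span_induction with
    | zero => simp
    | add x y _ _ hx hy =>
      simpa only [Pi.add_apply, add_smul, Finset.sum_add_distrib] using add_mem hx hy
    | smul c x _ hx =>
      simpa only [Pi.smul_apply, smul_eq_mul, mul_smul, ← Finset.smul_sum] using V.smul_mem c hx
    | mem t ht =>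
      obtain ⟨p, a0, a1, a2⟩ := φ.kp_poly fun k => t k • n
      obtain ⟨q, b0, b1, b2⟩ := φ.kp_poly fun k => -t k • n
      have h4 := coeff_mem (V := V) (p := p * Polynomial.C X * q - Polynomial.C X) (fun c => by
        have e : evS (c : F) (Polynomial.C X) = X := by simp [evS]
        rw [map_sub, map_mul, map_mul, a2, b2, e]
        simpa only [Pi.smul_apply, zsmul_eq_mul, smul_smul, mul_neg] using h _ (zsmul_mem ht c)) 1
      rw [Polynomial.coeff_sub, Polynomial.coeff_C_of_ne_zero one_ne_zero, sub_zero,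
        Polynomial.mul_coeff_one, Polynomial.coeff_mul_C, Polynomial.coeff_mul_C, a0, a1, b0, b1,
        one_mul, mul_one, Finset.mul_sum, Finset.sum_mul, ← Finset.sum_add_distrib] at h4
      convert h4 using 2 with k
      simp only [map_smul, smul_mul_assoc, mul_smul_comm]
      module
  simpa [Pi.single_apply] using h1 (Pi.single k 1) (hA ▸ trivial)

/-- unipotent elements give the brackets -/
theorem ad_up {A : AddSubgroup (Fin nn → F)} (hA : Submodule.span F (A : Set (Fin nn → F)) = ⊤)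
    {V : Submodule F (M8 F)} {X : M8 F}
    (h : ∀ t ∈ A, φ.U * kp (fun k => !![1, t k; 0, 1]) * φ.U' * X *
      (φ.U * kp (fun k => !![1, -t k; 0, 1]) * φ.U') - X ∈ V) (k : Fin nn) :
    φ.s k !![0, 1; 0, 0] * X - X * φ.s k !![0, 1; 0, 0] ∈ V := by
  have e : ∀ c : F, !![1, c; 0, 1] = 1 + c • (!![0, 1; 0, 0] : M2 F) := fun c => by
    ext a b
    fin_cases a <;> fin_cases b <;> simp
  exact φ.ad_gen hA _ (by simpa only [e] using h) k

theorem ad_low {A : AddSubgroup (Fin nn → F)} (hA : Submodule.span F (A : Set (Fin nn → F)) = ⊤)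
    {V : Submodule F (M8 F)} {X : M8 F}
    (h : ∀ t ∈ A, φ.U * kp (fun k => !![1, 0; t k, 1]) * φ.U' * X *
      (φ.U * kp (fun k => !![1, 0; -t k, 1]) * φ.U') - X ∈ V) (k : Fin nn) :
    φ.s k !![0, 0; 1, 0] * X - X * φ.s k !![0, 0; 1, 0] ∈ V := by
  have e : ∀ c : F, !![1, 0; c, 1] = 1 + c • (!![0, 0; 1, 0] : M2 F) := fun c => by
    ext a b
    fin_cases a <;> fin_cases b <;> simp
  exact φ.ad_gen hA _ (by simpa only [e] using h) k

theorem adSt_of {V : Submodule F (M8 F)}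
    (hu : ∀ k, ∀ X ∈ V, φ.s k !![0, 1; 0, 0] * X - X * φ.s k !![0, 1; 0, 0] ∈ V)
    (hl : ∀ k, ∀ X ∈ V, φ.s k !![0, 0; 1, 0] * X - X * φ.s k !![0, 0; 1, 0] ∈ V) :
    AdSt φ.hh V := by
  intro X hX Y hY
  obtain ⟨x, h1, rfl⟩ := φ.mem_hh.1 hX
  rw [Finset.sum_mul, Finset.mul_sum, ← Finset.sum_sub_distrib]
  refine sum_mem fun k _ => ?_
  have e : x k = x k 0 0 • (!![0, 1; 0, 0] * !![0, 0; 1, 0] - !![0, 0; 1, 0] * !![0, 1; 0, 0]) +
      x k 0 1 • !![0, 1; 0, 0] + x k 1 0 • !![0, 0; 1, 0] := by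
    have := h1 k
    rw [trace_fin_two] at this
    ext a b
    fin_cases a <;> fin_cases b <;> simp
    linear_combination this
  rw [e]
  convert add_mem (add_mem (V.smul_mem (x k 0 0) (sub_mem (hu k _ (hl k Y hY)) (hl k _ (hu k Y hY))))
    (V.smul_mem (x k 0 1) (hu k Y hY))) (V.smul_mem (x k 1 0) (hl k Y hY)) using 1
  simp only [map_add, map_smul, map_sub, s_mul, mul_add, add_mul, mul_sub, sub_mul, smul_mul_assoc,
    mul_smul_comm, mul_assoc]
  module

theorem scalar_of {X : M8 F} (hu : ∀ k, φ.s k !![0, 1; 0, 0] * X = X * φ.s k !![0, 1; 0, 0])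
    (hl : ∀ k, φ.s k !![0, 0; 1, 0] * X = X * φ.s k !![0, 0; 1, 0]) : ∃ c : F, X = c • 1 := by
  have h1 : ∀ k, φ.Cm k X := fun k w => by
    have e : w = w 0 0 • (!![0, 1; 0, 0] * !![0, 0; 1, 0]) + w 1 1 • (!![0, 0; 1, 0] * !![0, 1; 0, 0])
        + w 0 1 • !![0, 1; 0, 0] + w 1 0 • !![0, 0; 1, 0] := by
      ext a b
      fin_cases a <;> fin_cases b <;> simp
    rw [e]
    simp only [map_add, map_smul, s_mul, mul_add, add_mul, smul_mul_assoc, mul_smul_comm, mul_assoc,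
      hu k, hl k]
    rw [← mul_assoc, hu k, ← mul_assoc (φ.s k !![0, 0; 1, 0]), hl k, mul_assoc, mul_assoc]
  obtain ⟨c, hc⟩ := (mem_range_scalar_iff_commute_single' (M := φ.U' * X * φ.U)).2 fun a b => by
    have e : single a b (1 : F) = kp fun k => single (a k) (b k) 1 := by
      ext u v
      simp only [kp_apply, single_apply, Finset.prod_boole, Finset.mem_univ, forall_true_left,
        forall_and, funext_iff]
    have e2 : φ.U * single a b (1 : F) * φ.U' * X = X * (φ.U * single a b (1 : F) * φ.U') := by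
      rw [e]
      exact φ.kp_ind (fun Y => Y * X = X * Y) (by simp)
        (fun _ _ u v => by rw [mul_assoc, v, ← mul_assoc, u, mul_assoc]) _ fun k => h1 k _
    have e3 := congrArg (fun Z => φ.U' * Z * φ.U) e2
    simp only [Matrix.mul_assoc, φ.inv_mul, Matrix.mul_one] at e3
    rw [← Matrix.mul_assoc, φ.inv_mul, Matrix.one_mul] at e3
    simpa only [Commute, SemiconjBy, Matrix.mul_assoc] using e3
  refine ⟨c, ?_⟩
  have e := congrArg (fun Z => φ.U * Z * φ.U') hc
  simp only [Matrix.mul_assoc, φ.mul_inv, Matrix.mul_one] at e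
  rw [← Matrix.mul_assoc φ.U φ.U', φ.mul_inv, Matrix.one_mul] at e
  rw [← e, scalar_apply, ← smul_one_eq_diagonal, Matrix.smul_mul, Matrix.one_mul, Matrix.mul_smul,
    φ.mul_inv]

end Fr3

/-- Skolem and Noether for matrices of size two -/
theorem m2_sn {e f : M2 ℂ} (te : e.trace = 0) (tf : f.trace = 0) (h1 : e * e = 0) (h2 : f * f = 0)
    (h3 : e * f + f * e = 1) :
    ∃ p : M2 ℂ, p.det = 1 ∧ p * !![0, 1; 0, 0] = e * p ∧ p * !![0, 0; 1, 0] = f * p := by
  have key : ∀ v : Fin 2 → ℂ, ∃ p : M2 ℂ, p.det = (e *ᵥ f *ᵥ v) 0 * (f *ᵥ v) 1 -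
      (f *ᵥ v) 0 * (e *ᵥ f *ᵥ v) 1 ∧ p * !![0, 1; 0, 0] = e * p ∧ p * !![0, 0; 1, 0] = f * p :=
    fun v => by
      have k1 : e *ᵥ e *ᵥ f *ᵥ v = 0 := by rw [mulVec_mulVec, h1, zero_mulVec]
      have k2 : f *ᵥ f *ᵥ v = 0 := by rw [mulVec_mulVec, h2, zero_mulVec]
      have k3 : f *ᵥ e *ᵥ f *ᵥ v = f *ᵥ v := by
        rw [mulVec_mulVec, eq_sub_of_add_eq' h3, sub_mulVec, one_mulVec, ← mulVec_mulVec, k2,
          mulVec_zero, sub_zero]
      generalize f *ᵥ v = w at *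
      have k4 : ∀ a, e a 0 * w 0 + e a 1 * w 1 = (e *ᵥ w) a := fun a => by
        simp [mulVec, dotProduct]
      generalize e *ᵥ w = u at *
      refine ⟨!![u 0, w 0; u 1, w 1], det_fin_two_of _ _ _ _, ?_, ?_⟩
      · have := congrFun k1 0
        have := congrFun k1 1
        ext a b
        fin_cases a <;> fin_cases b <;> simp_all [mul_apply, mulVec, dotProduct]
      · have := congrFun k2 0
        have := congrFun k2 1
        have := congrFun k3 0
        have := congrFun k3 1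
        ext a b
        fin_cases a <;> fin_cases b <;> simp_all [mul_apply, mulVec, dotProduct]
  obtain ⟨p, p0, p1, p2⟩ : ∃ p : M2 ℂ, p.det ≠ 0 ∧ p * !![0, 1; 0, 0] = e * p ∧
      p * !![0, 0; 1, 0] = f * p := by
    have k2 := congrFun (congrFun h2 0) 0
    have k3 := congrFun (congrFun h3 0) 0
    simp only [trace_fin_two, add_eq_zero_iff_neg_eq] at te tf
    simp only [Matrix.add_apply, mul_apply, Fin.sum_univ_two, Matrix.zero_apply, one_apply_eq]
      at k2 k3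
    by_cases c0 : f 1 0 = 0
    · obtain ⟨p, p0, p1⟩ := key ![0, 1]
      refine ⟨p, fun z => ?_, p1⟩
      have a0 : f 0 0 = 0 := by simpa [c0] using k2
      have b0 : f 0 1 = 0 := by
        simp [z, mulVec, dotProduct, ← te, ← tf] at p0
        linear_combination p0 - f 0 1 * k3 + e 0 1 * k2
      simp [a0, b0, c0] at k3
    · obtain ⟨p, p0, p1⟩ := key ![1, 0]
      refine ⟨p, fun z => c0 ?_, p1⟩
      simp [z, mulVec, dotProduct, ← te, ← tf] at p0
      linear_combination -p0 - f 1 0 * k3 + e 1 0 * k2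
  obtain ⟨r, hr⟩ := IsAlgClosed.exists_pow_nat_eq p.det⁻¹ two_pos
  exact ⟨r • p, by rw [det_smul, Fintype.card_fin, hr, inv_mul_cancel₀ p0],
    by rw [smul_mul_assoc, p1, mul_smul_comm], by rw [smul_mul_assoc, p2, mul_smul_comm]⟩

/-- a symplectic matrix that normalises the three slots is a tensor product -/
theorem Fr3.mem_H (φ : Fr3 ℂ) {g : M8 ℂ} (h1 : GS 1 g)
    (h2 : ∀ i, ∀ X ∈ φ.h i, ∃ X' ∈ φ.h i, g * X = X' * g) : g ∈ φ.H := by
  have z1 : (!![0, 1; 0, 0] * !![0, 1; 0, 0] : M2 ℂ) = 0 := by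
    ext a b
    fin_cases a <;> fin_cases b <;> simp
  have z2 : (!![0, 0; 1, 0] * !![0, 0; 1, 0] : M2 ℂ) = 0 := by
    ext a b
    fin_cases a <;> fin_cases b <;> simp
  have g2 : IsUnit g := (isUnit_iff_isUnit_det g).2
    (SymplecticGroup.symplectic_det (gs_one_iff.1 h1))
  have ex : ∀ i, ∃ p : M2 ℂ, p.det = 1 ∧ ∀ x, x = !![0, 1; 0, 0] ∨ x = !![0, 0; 1, 0] →
      ∃ x', g * φ.s i x = φ.s i x' * g ∧ p * x = x' * p := fun i => by
    obtain ⟨_, k1, k2⟩ := h2 i _ (φ.mem_h.2 ⟨!![0, 1; 0, 0], by simp, rfl⟩)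
    obtain ⟨_, k3, k4⟩ := h2 i _ (φ.mem_h.2 ⟨!![0, 0; 1, 0], by simp, rfl⟩)
    obtain ⟨e, te, rfl⟩ := φ.mem_h.1 k1
    obtain ⟨f, tf, rfl⟩ := φ.mem_h.1 k3
    have m : ∀ {x y x' y'}, g * φ.s i x = φ.s i x' * g → g * φ.s i y = φ.s i y' * g →
        φ.s i (x' * y') * g = g * φ.s i (x * y) := fun a b => by
      rw [φ.s_mul, φ.s_mul, mul_assoc, ← b, ← mul_assoc, ← a, mul_assoc]
    obtain ⟨p, p0, p1, p2⟩ := m2_sn te tf
      (φ.s_inj i (g2.mul_right_cancel (by rw [m k2 k2, z1]; simp)))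
      (φ.s_inj i (g2.mul_right_cancel (by rw [m k4 k4, z2]; simp)))
      (φ.s_inj i (g2.mul_right_cancel (by
        rw [map_add, add_mul, m k2 k4, m k4 k2, ← mul_add, ← map_add, φ.s_one, one_mul]
        convert mul_one g
        convert φ.s_one i
        simp [one_fin_two])))
    exact ⟨p, p0, fun x hx => hx.elim (fun z => ⟨e, z ▸ k2, z ▸ p1⟩) fun z => ⟨f, z ▸ k4, z ▸ p2⟩⟩
  choose p p0 p1 using ex
  have G1 := φ.H_gs ⟨p, p0, rfl⟩
  obtain ⟨G, hG⟩ := (isUnit_iff_isUnit_det _).2 (SymplecticGroup.symplectic_det (gs_one_iff.1 G1))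
  have k : ∀ i x, x = !![0, 1; 0, 0] ∨ x = !![0, 0; 1, 0] →
      φ.s i x * (G⁻¹.1 * g) = G⁻¹.1 * g * φ.s i x := fun i x hx => by
    obtain ⟨x', a, b⟩ := p1 i x hx
    have e : G.1 * φ.s i x = φ.s i x' * G.1 := by
      rw [hG, φ.s_apply, φ.s_apply, sl, sl, φ.kp_mul_kp, φ.kp_mul_kp]
      congr 3
      funext j
      by_cases z : j = i
      · rw [z, Pi.mulSingle_eq_same, Pi.mulSingle_eq_same, b]
      · rw [Pi.mulSingle_eq_of_ne z, Pi.mulSingle_eq_of_ne z, mul_one, one_mul]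
    rw [mul_assoc, a, Units.eq_inv_mul_iff_mul_eq, ← mul_assoc, e, mul_assoc,
      Units.mul_inv_cancel_left]
  obtain ⟨c, hc⟩ := φ.scalar_of (fun i => k i _ (.inl rfl)) fun i => k i _ (.inr rfl)
  rw [Units.inv_mul_eq_iff_eq_mul, mul_smul_comm, mul_one, hG] at hc
  have c1 : c ^ 2 = 1 := by
    have := congrFun (congrFun ((gs_iff.1 (G1.smul c)).symm.trans (gs_iff.1 (hc ▸ h1))) (.inr 0))
      (.inl 0)
    simpa [J] using this
  refine ⟨fun i => (if i = 0 then c else 1) • p i, fun i => ?_, ?_⟩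
  · rw [det_smul, p0, Fintype.card_fin]
    split_ifs <;> simp [c1]
  · rw [kp_smul, hc]
    simp

end Pool.Agent.MT.U
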