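import Pool.Agent.Lib.MP_d61fbb_ag.MN.UO
import Pool.Agent.Lib.MP_d61fbb_ag.MT.UB0

/-! Stage three: the Galois group normalises the monodromy group. -/

set_option autoImplicit false

noncomputable section

namespace Pool.Agent.MT.U

variable [Dim]

open Matrix G Filter Topology

variable {τ : Matrix (Fin gg) (Fin gg) ℂ} {K : IntermediateField ℚ ℂ} {l₀ : Pr} (O : Orb τ l₀)
  {𝒰 : Ultrafilter ℕ} (C : Cmp (fun j => tr τ (O.γ j)) 𝒰)

/-- the matrices of the translated points -/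
def gt (j : ℕ) : G.Sp gg ℚ := zqsp (C.c j) * O.γ j

theorem gt_mem (hτ : Sieg τ) : ∀ᶠ j in 𝒰, tr τ (gt O C j) ∈ C.Y := by
  have h : un τ ∈ G.HH gg := by rwa [← mk_un hτ.symm] at hτ
  exact C.ev.mono fun j hj => by rwa [tr, gt, qac_mul _ _ h, ← az_eq_ac]

theorem exists_lim {l : Pr} (hl : l ≠ l₀) : ∃ k : G.Sp gg ℤ_[l],
    Tendsto (fun j => (gt O C j).1.map (Rat.cast : ℚ → ℚ_[l])) 𝒰 (𝓝 (k.1.map (↑))) := by
  have hn : ∀ j a b, ‖((gt O C j).1 a b : ℚ_[l])‖ ≤ 1 := fun j a b => by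
    have e : (gt O C j).1 a b = ∑ x, ((C.c j).1 a x : ℚ) * (O.γ j).1 x b := rfl
    rw [e]
    push_cast
    refine IsUltrametricDist.norm_sum_le_of_forall_le_of_nonneg zero_le_one fun x _ => ?_
    rw [norm_mul]
    exact mul_le_one₀ (Padic.norm_int_le_one _) (norm_nonneg _)
      (O.int j l (fun h => hl (Subtype.ext h)) x b)
  let A : ℕ → M8 ℤ_[l] := fun j => of fun a b => ⟨_, hn j a b⟩
  have : CompactSpace (M8 ℤ_[l]) := Pi.compactSpace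
  obtain ⟨k, h1⟩ : ∃ k, Tendsto A 𝒰 (𝓝 k) := ⟨_, (𝒰.map A).le_nhds_lim⟩
  have inj : Function.Injective fun X : M8 ℤ_[l] => X.map (PadicInt.Coe.ringHom (p := l)) :=
    Matrix.map_injective Subtype.val_injective
  have h2 : ∀ j, A j * J (Fin gg) ℤ_[l] * (A j)ᵀ = J (Fin gg) ℤ_[l] := fun j => inj (by
    simp only [Matrix.map_mul, transpose_map, map_J]
    exact SymplecticGroup.mem_iff.1
      (SymplecticGroup.map_mem (gt O C j).2 (Rat.castHom ℚ_[l])))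
  have h3 : Continuous fun X : M8 ℤ_[l] => X * J (Fin gg) ℤ_[l] * Xᵀ :=
    (continuous_id.matrix_mul continuous_const).matrix_mul continuous_id.matrix_transpose
  have h4 : Continuous fun X : M8 ℤ_[l] => X.map ((↑) : ℤ_[l] → ℚ_[l]) :=
    continuous_id.matrix_map continuous_subtype_val
  refine ⟨⟨k, SymplecticGroup.mem_iff.2 (tendsto_nhds_unique ((h3.tendsto _).comp h1)
    (tendsto_const_nhds.congr fun j => (h2 j).symm))⟩, ?_⟩
  exact ((h4.tendsto k).comp h1).congr fun j => Matrix.ext fun _ _ => rfl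

/-- the ideal of the component is stable under the conjugates of the monodromy group -/
theorem ideal_stab {N : ℕ} (hN : 0 < N) (σ : ℂ ≃+* ℂ) {r : G.Sp gg ℤ} (hr : r ∈ G.Gam gg 32)
    (h : ∀ δ ∈ G.Gam gg 32, ∀ᶠ j in 𝒰, ∀ x, σ (pM C.y₀ N (az δ (az (C.c j) (tr τ (O.γ j)))) x) =
      pM C.y₀ N (az (δ * r⁻¹) (az (C.c j) (tr τ (O.γ j)))) x)
    {γ : G.Sp gg ℤ} (hγ : γ ∈ C.G₀) (P : MvPolynomial (ChL gg N) ℂ)
    (hP : ∀ w ∈ C.Y, MvPolynomial.eval (pM C.y₀ N w) P = 0) :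
    MvPolynomial.eval (pM C.y₀ N (az (r * γ * r⁻¹) C.z₁)) P = 0 := by
  have hH := fun w hw => (C.sub w hw).1
  have key : ∀ δ ∈ G.Gam gg 32, ∀ᶠ j in 𝒰,
      MvPolynomial.eval (pM C.y₀ N (az (δ * r⁻¹) (az (C.c j) (tr τ (O.γ j))))) P =
        σ (MvPolynomial.eval (pM C.y₀ N (az δ (az (C.c j) (tr τ (O.γ j)))))
          (MvPolynomial.map σ.symm.toRingHom P)) := fun δ hδ => (h δ hδ).mono fun j hj => by
    rw [← funext hj]
    refine Eq.trans ?_ (MvPolynomial.map_eval σ.toRingHom _ _).symm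
    rw [MvPolynomial.map_map, RingEquiv.toRingHom_comp_symm_toRingHom, MvPolynomial.map_id]
    rfl
  have h1 := C.dense N hN r hr (MvPolynomial.map σ.symm.toRingHom P) (by
    filter_upwards [key r hr, C.ev] with j h1 h2
    rw [mul_inv_cancel, az_one, hP _ h2] at h1
    exact (map_eq_zero_iff σ σ.injective).1 h1.symm)
  have h2 := mul_mem hr (C.le hγ)
  refine C.dense N hN _ (mul_mem h2 (inv_mem hr)) P ?_ _ C.mem₁
  filter_upwards [key _ h2, C.ev] with j h3 h4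
  rw [h3, az_mul _ _ (hH _ h4), h1 _ (C.stab γ hγ _ h4), map_zero]

/-- from the ideal to the group -/
theorem cong_of : ∃ n : ℕ, n ≠ 0 ∧ ∀ N, 0 < N → ∀ r ∈ G.Gam gg 32,
    (∀ γ ∈ C.G₀, ∀ P : MvPolynomial (ChL gg N) ℂ,
      (∀ w ∈ C.Y, MvPolynomial.eval (pM C.y₀ N w) P = 0) →
      MvPolynomial.eval (pM C.y₀ N (az (r * γ * r⁻¹) C.z₁)) P = 0) →
    ∀ γ ∈ C.G₀, ∃ γ₁ ∈ C.G₀, r * γ ^ n * r⁻¹ * γ₁⁻¹ ∈ G.Gam gg N := by
  obtain ⟨n, hn⟩ := C.index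
  refine ⟨n.factorial, n.factorial_ne_zero, fun N hN r hr h γ hγ => ?_⟩
  have hG : ∀ a : ℕ, r * γ ^ a * r⁻¹ ∈ G.Gam gg 32 := fun a => Gam_conj (C.le (pow_mem hγ a)) r
  obtain ⟨a, a', haa, γ', h1, h2⟩ := hn N hN (fun a => r * γ ^ (a : ℕ) * r⁻¹) (fun a => hG a)
    fun a => h _ (pow_mem hγ _)
  have : (G.Gam gg N).Normal := ⟨fun _ h δ => Gam_conj h δ⟩
  have h3 := sep hN C.y₀ (C.sub _ C.mem₁).1 (C.sub _ C.mem₁).2 (hG a') (mul_mem (C.le h1) (hG a)) h2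
  have h4 : (r * γ * r⁻¹) ^ ((a : ℤ) - a') ∈ G.Gam gg N ⊔ C.G₀ := by
    have := mul_mem (inv_mem (Subgroup.mem_sup_right (S := G.Gam gg N) h1))
      (Subgroup.mem_sup_left (T := C.G₀) h3)
    convert this using 1
    rw [conj_zpow, ← zpow_natCast, ← zpow_natCast]
    group
  have h5 : ((a : ℤ) - a') ∣ (n.factorial : ℕ) := Int.natAbs_dvd.1 (Int.natCast_dvd_natCast.2
    (Nat.dvd_factorial (by have := Fin.val_ne_of_ne haa; omega) (by omega)))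
  obtain ⟨k, hk⟩ := h5
  have h6 := zpow_mem h4 k
  rw [← _root_.zpow_mul, ← hk, zpow_natCast, conj_pow, ← SetLike.mem_coe, Subgroup.normal_mul] at h6
  obtain ⟨x, hx, y, hy, e⟩ := h6
  exact ⟨y, hy, by rw [← e, mul_inv_cancel_right]; exact hx⟩

theorem cong (hτ : Sieg τ) (h8 : ee (1 / 8) ∈ K) (M : MumfordType τ K) {l : Pr} (hl : l ≠ l₀)
    (h2 : (l₀ : ℕ) ≠ 2) {k : G.Sp gg ℤ_[l]}
    (hk : Tendsto (fun j => (gt O C j).1.map (Rat.cast : ℚ → ℚ_[l])) 𝒰 (𝓝 (k.1.map (↑)))) :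
    ∃ n : ℕ, n ≠ 0 ∧ ∀ σ, GS 1 (M.ρ σ l).val → M.ρ σ l₀ = 1 →
      (∀ (p : Pr) a b, (32 : ℤ_[p]) ∣ ((M.ρ σ p).val - 1) a b) → ∀ γ ∈ C.G₀, ∀ m : ℕ, ∃ γ₁ ∈ C.G₀,
        ∀ a b, ((l : ℕ) : ℤ_[l]) ^ m ∣
          (k.1 * (M.ρ σ l).val * (k⁻¹).1 * (γ ^ n).1.map (Int.cast : ℤ → ℤ_[l]) -
            γ₁.1.map (Int.cast : ℤ → ℤ_[l]) * (k.1 * (M.ρ σ l).val * (k⁻¹).1)) a b := by
  obtain ⟨n, hn, H⟩ := cong_of O C
  refine ⟨n, hn, fun σ hs h0 h32 γ hγ m => ?_⟩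
  have hN : 0 < (l : ℕ) ^ m := pow_pos l.2.pos m
  obtain ⟨r, hr, hru⟩ := ub_lift (u := k.1 * (M.ρ σ l).val * (k⁻¹).1) (N := ((l : ℕ) ^ m) ^ 2)
    (by simpa using ((gs_one_iff.2 k.2).mul hs).mul (gs_one_iff.2 (k⁻¹).2)) (dv_conj (h32 l) k)
    (by positivity)
  have hi : ∀ j (p : Pr), p ≠ l₀ → ∀ a b, ‖((gt O C j).1 a b : ℚ_[p])‖ ≤ 1 := fun j p hp =>
    ub_zmul _ (O.int j p fun h => hp (Subtype.ext h))
  have h1 : ∀ (γ : G.Sp gg ℚ) (σ : ℂ ≃ₐ[K] ℂ), M.ρ σ l₀ = 1 → cjp l₀ γ (M.ρ σ l₀) = 1 :=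
    fun γ σ h => by
      rw [h, cjp, show (1 : GL (I2 gg) ℤ_[l₀]).val.map ((↑) : ℤ_[l₀] → ℚ_[l₀]) = 1 from
        map_one PadicInt.Coe.ringHom.mapMatrix, Matrix.mul_one, ub_cancel]
  refine (H _ hN r hr (fun γ hγ P hP => ideal_stab O C hN σ.toRingEquiv hr
    (fun δ hδ => ?_) hγ P hP) γ hγ).imp fun γ₁ h => ⟨h.1, fun a b => ?_⟩
  swap
  · exact_mod_cast dv_fin h.2 (fun a b =>
      (Nat.cast_dvd_cast (Dvd.intro (32 * l ^ m) (by ring))).trans (hru a b)) a b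
  refine (ub_lim hk (M.ρ σ l).val (ε := ‖((32 * ((l : ℕ) ^ m) ^ 2 : ℕ) : ℚ_[l])‖)
    (norm_pos_iff.2 (by exact_mod_cast (by positivity)))).mono fun j hj x => ?_
  have hw := tr_mem hτ (O.γ j)
  have e : tr τ (zqsp δ * gt O C j) = az δ (az (C.c j) (tr τ (O.γ j))) := by
    have hτ' : un τ ∈ G.HH gg := by rwa [← mk_un hτ.symm] at hτ
    rw [tr, gt, qac_mul _ _ hτ', qac_mul _ _ hτ', ← az_eq_ac, ← az_eq_ac, tr]
  rw [show δ * r⁻¹ = (δ * r * δ⁻¹)⁻¹ * δ by group, az_mul _ δ (az_mem _ hw), ← e]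
  refine gal_pt hτ h8 M σ (zqsp δ * gt O C j) hN (Gam_conj hr δ) (fun p a b => ?_)
    (fun p => ub_tr δ r (norm_nonneg _) fun a b => ?_) C.y₀ x
  · by_cases hp : p = l₀
    · subst hp
      rw [h1 _ _ (by rw [map_inv, Pi.inv_apply, h0, inv_one]), one_apply]
      split_ifs <;> simp
    · exact ub_cj (ub_zmul δ (hi j p hp)) zero_le_one (fun a b => ((M.ρ σ⁻¹ p).val a b).2) a b
  · by_cases hp : p = l
    · subst hp
      exact ub_tri (hj a b) (ub_dvd (hru a b))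
    · have h3 : ‖((32 * ((l : ℕ) ^ m) ^ 2 : ℕ) : ℚ_[p])‖ = ‖((32 : ℤ_[p]) : ℚ_[p])‖ := by
        have : ‖((l : ℕ) : ℚ_[p])‖ = 1 := Padic.norm_natCast_eq_one_iff.2
          ((Nat.coprime_primes p.2 l.2).2 fun h => hp (Subtype.ext h))
        push_cast
        rw [norm_mul, norm_pow, norm_pow, this, one_pow, one_pow, mul_one]
        rfl
      rw [h3]
      refine ub_tri (y := (1 : M8 ℚ_[p]) a b) ?_ ?_
      · by_cases h4 : p = l₀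
        · subst h4
          exact (congrArg (fun X : M8 ℚ_[p] => ‖X a b - (1 : M8 ℚ_[p]) a b‖) (h1 _ _ h0)).trans_le
            (by simp)
        · exact ub_cj_one (hi j p h4) (h32 p) a b
      · have := ub_dvd (map_dvd (Int.castRingHom ℤ_[p]) (hr a b))
        by_cases h4 : a = b <;> simpa [one_apply, h4] using this

end Pool.Agent.MT.U
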