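import Pool.Agent.Lib.MP_d61fbb_ag.MN.UZ
import Pool.Agent.Lib.MP_d61fbb_ag.MN.UH
import Pool.Agent.Lib.MP_d61fbb_ag.MT.G0b

/-! Stage three: the passage to the limit and the end of the proof. -/

set_option autoImplicit false

noncomputable section

namespace Pool.Agent.MT.U

open Matrix G Filter Topology

/-- symplectic matrices after a change of rings -/
def spm {g : ℕ} {R R' : Type} [CommRing R] [CommRing R'] (f : R →+* R') (a : Sp g R) : Sp g R' :=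
  ⟨a.1.map f, SymplecticGroup.map_mem a.2 f⟩

theorem spm_inv {g : ℕ} {R R' : Type} [CommRing R] [CommRing R'] (f : R →+* R') (a : Sp g R) :
    (spm f a)⁻¹ = spm f a⁻¹ :=
  inv_eq_of_mul_eq_one_right (Subtype.ext (by
    change a.1.map f * (a⁻¹).1.map f = 1
    rw [← Matrix.map_mul, show a.1 * (a⁻¹).1 = 1 from congrArg Subtype.val (mul_inv_cancel a),
      Matrix.map_one _ f.map_zero f.map_one]))

theorem sp_mul_inv {g : ℕ} {R : Type} [CommRing R] (a : Sp g R) : a.1 * (a⁻¹).1 = 1 :=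
  congrArg Subtype.val (mul_inv_cancel a)

theorem sp_inv_mul {g : ℕ} {R : Type} [CommRing R] (a : Sp g R) : (a⁻¹).1 * a.1 = 1 :=
  congrArg Subtype.val (inv_mul_cancel a)

variable [Dim]

theorem Fr3.hh_eq {F : Type} [Field F] {φ ψ : Fr3 F} (h : ψ.hh ≤ φ.hh) : ψ.hh = φ.hh := by
  let T : M8 F →ₗ[F] M8 F :=
    (LinearMap.mulLeft F (ψ.U * φ.U')).comp (LinearMap.mulRight F (φ.U * ψ.U'))
  have h1 : ∀ A : Matrix T3 T3 F, T (φ.U * A * φ.U') = ψ.U * A * ψ.U' := fun A => by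
    simp only [T, LinearMap.comp_apply, LinearMap.mulLeft_apply, LinearMap.mulRight_apply,
      Matrix.mul_assoc]
    rw [← Matrix.mul_assoc φ.U' φ.U, φ.inv_mul, Matrix.one_mul, ← Matrix.mul_assoc φ.U' φ.U,
      φ.inv_mul, Matrix.one_mul]
  have h2 : Function.Injective T := (injective_iff_map_eq_zero _).2 fun X e => by
    have e1 : X = φ.U * (φ.U' * X * φ.U) * φ.U' := by
      simp only [Matrix.mul_assoc, φ.mul_inv, Matrix.mul_one]
      rw [← Matrix.mul_assoc, φ.mul_inv, Matrix.one_mul]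
    rw [e1, h1] at e
    rw [e1, ψ.ua_inj (e.trans (by simp : (0 : M8 F) = ψ.U * (0 : Matrix T3 T3 F) * ψ.U'))]
    simp
  have h3 : φ.hh.map T ≤ ψ.hh := by
    rintro _ ⟨X, hX, rfl⟩
    obtain ⟨x, k, rfl⟩ := φ.mem_hh.1 hX
    exact ψ.mem_hh.2 ⟨x, k, by simp only [map_sum, Fr3.s_apply, h1]⟩
  exact Submodule.eq_of_le_of_finrank_le h
    ((Submodule.equivMapOfInjective T h2 _).finrank_eq.trans_le (Submodule.finrank_mono h3))

theorem NoEnd.ac {z : EE gg} (hz : z ∈ G.HH gg) (h : NoEnd (Jm z)) (γ : Sp gg ℚ) :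
    NoEnd (Jm (ac (qm γ.1) z)) := fun X h1 h2 => by
  have e := Jm_ac (qsp γ) hz
  have m : ∀ A B : M8 ℚ, qr (A * B) = qr A * qr B := fun A B =>
    Matrix.map_mul (f := Rat.castHom ℝ)
  have o : qr (1 : M8 ℚ) = 1 := Matrix.map_one _ Rat.cast_zero Rat.cast_one
  have k := h _ (sp_conj γ⁻¹ h1) (by
    change _ * qr γ.1 = qr γ.1 * _ at e
    have e' : qr (γ⁻¹).1 * Jm (G.ac (qm γ.1) z) = Jm z * qr (γ⁻¹).1 := by
      rw [← mul_one (_ * Jm _), ← o, ← sp_mul_inv γ, m, ← mul_assoc, mul_assoc _ _ (qr γ.1)]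
      erw [e]
      rw [← mul_assoc, ← m, sp_inv_mul, o, one_mul]
    rw [inv_inv, m, m, mul_assoc, ← e, ← mul_assoc, mul_assoc _ (qr X)]
    erw [h2]
    rw [← mul_assoc, e']
    simp only [mul_assoc])
  rw [inv_inv] at k
  rw [← one_mul X, ← mul_one (1 * X), ← sp_mul_inv γ, mul_assoc γ.1, ← mul_assoc _ γ.1,
    mul_assoc γ.1, k]
  simp

theorem uf_end (φ : Fr3 ℂ) (h : Rat φ.hh) {J₀ : M8 ℝ} (h1 : cm J₀ ∈ φ.hh) (h2 : J₀ * J₀ = -1)
    (h3 : NoEnd J₀) (g : GL (I2 gg) ℂ) : g ∈ Sn.Hodge J₀ ↔ g.val ∈ φ.H := by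
  obtain ⟨i, j, j', j'', P⟩ := φ.pos h h1 h2 h3
  exact ⟨φ.hodge_le h h1 h2, P.le_hodge⟩

/-- The passage to the limit. -/
theorem uf_lim {l : ℕ} [Fact l.Prime] (φ : Fr3 (PadicAlgCl l)) (i : PadicAlgCl l →+* ℂ)
    {k : Sp gg ℤ_[l]} {γ : ℕ → Sp gg ℚ} {𝒰 : Filter ℕ} [𝒰.NeBot]
    (hk : Tendsto (fun j => (γ j).1.map (Rat.cast : ℚ → ℚ_[l])) 𝒰 (𝓝 (k.1.map (↑))))
    {z : EE gg} (hz : z ∈ G.HH gg) (h3 : NoEnd (Jm z))
    (hR : Rat ((φ.cj (spm (algebraMap _ _) k)).map i).hh)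
    (hJ : ∀ᶠ j in 𝒰, cm (Jm (ac (qm (γ j).1) z)) ∈ ((φ.cj (spm (algebraMap _ _) k)).map i).hh) :
    Rat (φ.map i).hh ∧ cm (Jm z) ∈ (φ.map i).hh := by
  set κ := spm (algebraMap ℤ_[l] (PadicAlgCl l)) k with hκ
  let ψ : ℕ → Fr3 ℂ := fun j => ((φ.cj κ).map i).cj (spm (Rat.castHom ℂ) (γ j))⁻¹
  have h1 : ∀ j X, X ∈ (ψ j).hh ↔
      (γ j).1.map (↑) * X * ((γ j)⁻¹).1.map (↑) ∈ ((φ.cj κ).map i).hh := fun j X => by
    rw [Fr3.mem_hh_cj, inv_inv, spm_inv]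
    rfl
  have h2 : ∀ j, Rat (ψ j).hh := fun j α X hX => by
    have := hR α _ ((h1 j X).1 hX)
    rwa [Matrix.map_mul, Matrix.map_mul, rat_map_cast, rat_map_cast, ← h1] at this
  have h4 : ∀ᶠ j in 𝒰, cm (Jm z) ∈ (ψ j).hh := hJ.mono fun j e => (h1 j _).2 (by
    have e1 := congrArg cm (Jm_ac (qsp (γ j)) hz)
    have e2 : cm (qsp (γ j)).1 = (γ j).1.map (↑) := by
      ext a b
      simp [qsp]
    rw [cm_mul, cm_mul, e2] at e1
    rw [← e1, mul_assoc, show (γ j).1.map ((↑) : ℚ → ℂ) * ((γ j)⁻¹).1.map (↑) = 1 from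
      (Matrix.map_mul (f := Rat.castHom ℂ)).symm.trans (by rw [sp_mul_inv]; simp), mul_one]
    exact e)
  have h5 : cjs (cm (Jm z)) ≤ (φ.map i).hh := fun X hX => by
    refine Submodule.span_le.2 ?_ ((rat_cjs _).span hX)
    rintro _ ⟨hQ, Q, rfl⟩
    have c : ∀ A : M8 ℚ, (A.map ((↑) : ℚ → PadicAlgCl l)).map i = A.map (↑) := fun A => by
      ext a b
      simp
    let a := algebraMap ℚ_[l] (PadicAlgCl l)
    let Φ : M8 ℚ_[l] → M8 (PadicAlgCl l) := fun A =>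
      A.map a * Q.map (↑) * (-J (Fin gg) _ * (A.map a)ᵀ * J (Fin gg) _)
    have hc : Continuous fun A : M8 ℚ_[l] => A.map a :=
      continuous_id.matrix_map (continuous_algebraMap _ _)
    have hΦ : Continuous Φ := (hc.matrix_mul continuous_const).matrix_mul
      ((continuous_const.matrix_mul hc.matrix_transpose).matrix_mul continuous_const)
    have k1 := (closed_sub (φ.cj κ).hh).mem_of_tendsto ((hΦ.tendsto _).comp hk)
      (h4.mono fun j e => by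
        have e1 := (h1 j _).1 (Submodule.span_le.2 (by rintro _ ⟨α, rfl⟩; exact h2 j α _ e) hQ)
        rw [← c, ← c Q, ← c, ← Matrix.map_mul, ← Matrix.map_mul, Fr3.mem_hh_map] at e1
        have e2 : ((γ j).1.map (Rat.cast : ℚ → ℚ_[l])).map a =
            (spm (Rat.castHom (PadicAlgCl l)) (γ j)).1 := by
          ext s t
          simp [spm]
        simp only [Function.comp, Φ, e2, ← SymplecticGroup.coe_inv, spm_inv]
        exact e1)
    have e2 : (k.1.map ((↑) : ℤ_[l] → ℚ_[l])).map a = κ.1 := rfl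
    simp only [Φ, e2, ← SymplecticGroup.coe_inv, SetLike.mem_coe, Fr3.mem_hh_cj] at k1
    rw [← mul_assoc, ← mul_assoc, sp_inv_mul, one_mul, mul_assoc, sp_inv_mul, mul_one] at k1
    rw [SetLike.mem_coe, ← c, Fr3.mem_hh_map]
    exact k1
  obtain ⟨j, hj⟩ := h4.exists
  obtain ⟨i₀, a, b, c, P⟩ := (ψ j).pos (h2 j) hj (Jm_sq hz) h3
  rw [← Fr3.hh_eq (P.lie (φ.map i).hh_ad fun α => h5 (Submodule.subset_span ⟨α, rfl⟩))]
  exact ⟨h2 j, hj⟩

/-- Conjugation by powers of the tensor inductions gives the bracket. -/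
theorem uf_ad {l : ℕ} [Fact l.Prime] (D : Cub l) (i : PadicAlgCl l →+* ℂ) (k : Sp gg ℤ_[l])
    {V : Submodule ℂ (M8 ℂ)} {N : ℕ} (hN : N ≠ 0)
    (h : ∀ g : SpecialLinearGroup (Fin 2) (AdjoinRoot D.c), ∀ X ∈ V,
      (k.1 * D.Nm g.1 ^ N * (k⁻¹).1).map (zi i) * X *
        (k.1 * D.Nm (g⁻¹).1 ^ N * (k⁻¹).1).map (zi i) ∈ V) :
    AdSt (((cubFr D).cj (spm (algebraMap _ _) k)).map i).hh V := by
  set ψ := ((cubFr D).cj (spm (algebraMap _ _) k)).map i with hψ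
  have e : ∀ A : Matrix T3 T3 ℂ, k.1.map (zi i) * (((cubFr D).map i).U * A * ((cubFr D).map i).U') *
      (k⁻¹).1.map (zi i) = ψ.U * A * ψ.U' := fun A => by
    simp only [hψ, Fr3.map, Fr3.cj, spm_inv, Matrix.map_mul, Matrix.mul_assoc]
    rfl
  refine ψ.adSt_of (fun j X hX => ψ.ad_up (cub_span D i hN) ?_ j)
    fun j X hX => ψ.ad_low (cub_span D i hN) ?_ j
  · rintro _ ⟨x, rfl⟩
    have := h (uu x) X hX
    rw [show (uu x)⁻¹ = uu (-x) from inv_eq_of_mul_eq_one_right (by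
      ext a b; fin_cases a <;> fin_cases b <;> simp [uu])] at this
    simp only [Matrix.map_mul, cub_uu, e, mul_neg, map_neg] at this
    exact sub_mem this hX
  · rintro _ ⟨x, rfl⟩
    have := h (ll x) X hX
    rw [show (ll x)⁻¹ = ll (-x) from inv_eq_of_mul_eq_one_right (by
      ext a b; fin_cases a <;> fin_cases b <;> simp [ll])] at this
    simp only [Matrix.map_mul, cub_ll, e, mul_neg, map_neg] at this
    exact sub_mem this hX

end Pool.Agent.MT.U
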