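import Pool.Agent.Lib.MP_d61fbb_ag.MN.UB
import Pool.Agent.Lib.MP_d61fbb_ag.MN.UY4
import Pool.Agent.Lib.MP_d61fbb_ag.MN.UW
import Pool.Agent.Lib.MP_d61fbb_ag.MN.UF0
import Pool.Agent.Lib.MP_d61fbb_ag.MN.R4b
import Pool.Agent.Lib.MP_d61fbb_ag.MN.R7b

/-! Stage three: the assembly. -/

set_option autoImplicit false

noncomputable section

namespace Pool.Agent.MT.U

variable [Dim]

open Matrix G Filter Topology

theorem stage3 (zl : ZL2) : Stage3 := by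
  classical
  intro τ hτ K hK h8 M J₀ hJ l hl i g
  have m1 : un τ ∈ G.HH gg := by rwa [← mk_un hτ.symm] at hτ
  obtain rfl : J₀ = Jm (un τ) := g8_cx m1 (by rwa [mk_un hτ.symm])
  have h3 := noEnd hτ h8 M
  obtain ⟨l₀, h0, h2, hz⟩ := zl τ hτ K hK h8 (enl M l)
  obtain ⟨hl0, h0⟩ : l₀ ≠ l ∧ l₀ ∉ M.S := not_or.1 (mt Finset.mem_insert.2 h0)
  obtain ⟨O, o1, o2⟩ := exists_orb hτ (fun γ => end_sp hτ h8 M) h2 (M.D l₀)
  obtain ⟨C⟩ := exists_cmp (fun j => tr τ (O.γ j)) (fun j => tr_mem hτ _) O.inj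
  obtain ⟨φ, hφ⟩ := Cmp.r4 hτ M h2 hz o1 o2 C
  obtain ⟨k, hk⟩ := exists_lim O C hl0.symm
  obtain ⟨n, hn, hc⟩ := cong O C hτ h8 M hl0.symm h2 hk
  obtain ⟨N, hN, hp⟩ := exists_pow (D := 32) (by norm_num)
  have h5 := uf_ad (M.D l) i k (V := Ann C.G₀ (Fin 4)) hN fun a X hX => by
    obtain ⟨σ, hσ⟩ := M.big {l, l₀} (Pi.mulSingle l a)
    have s1 : (M.ρ (σ ^ N) l).val = (M.D l).Nm a.1 ^ N := by
      rw [map_pow, Pi.pow_apply, Units.val_pow_eq_pow_val, hσ l (by simp) hl, Pi.mulSingle_eq_same]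
    have s2 : M.ρ (σ ^ N) l₀ = 1 := by
      rw [map_pow, Pi.pow_apply, show M.ρ σ l₀ = 1 from Units.ext ((hσ l₀ (by simp) h0).trans (by
        rw [Pi.mulSingle_eq_of_ne hl0]
        exact (M.D l₀).Nm_one)), one_pow]
    have s3 : ∀ b : SpecialLinearGroup (Fin 2) (AdjoinRoot (M.D l).c),
        (M.D l).Nm b.1 ^ N = (M.D l).Nm (b ^ N).1 := fun b => (map_pow (M.D l).NmH b.1 N).symm
    have s4 : GS 1 ((M.D l).Nm a.1 ^ N) := by
      rw [s3]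
      simpa using (M.D l).gs_Nm (a ^ N).1
    have s5 := hc (σ ^ N) (by rwa [s1]) s2 fun p a b => by
      rw [map_pow, Pi.pow_apply]
      exact_mod_cast hp p _ a b
    rw [s1] at s5
    refine ann_conj _ C.le (zi i) ?_
      (by simpa using ((gs_one_iff.2 k.2).mul s4).mul (gs_one_iff.2 (k⁻¹).2)) hn s5 hX
    rw [s3, s3, mul_assoc, ← mul_assoc (k⁻¹).1, ← mul_assoc (k⁻¹).1, sp_inv_mul, one_mul,
      mul_assoc, ← mul_assoc ((M.D l).Nm _), ← Cub.Nm_mul, ← Matrix.SpecialLinearGroup.coe_mul,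
      inv_pow, mul_inv_cancel, Matrix.SpecialLinearGroup.coe_one, Cub.Nm_one, one_mul, sp_mul_inv]
  have h6 := (gt_mem O C hτ).mono fun j hj => C.r7 _ _ hφ h5 hj (h3.ac m1 _)
  obtain ⟨h7, h9⟩ := uf_lim _ i hk m1 h3 h6.exists.choose_spec.2.1 (h6.mono fun j hj => hj.2.2)
  exact uf_end _ h7 h9 (Jm_sq m1) h3 g

end Pool.Agent.MT.U
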