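import Pool.Agent.Lib.MP_d61fbb_ag.MN.UE
import Pool.Agent.Lib.MP_d61fbb_ag.MN.G8

/-! Stage three: the orbit. -/

set_option autoImplicit false

noncomputable section

namespace Pool.Agent.MT.U

open Matrix G Filter Topology

theorem pt_inj' {g l : ℕ} {e : Fin g → ℕ} {k : ℕ → G.Sp g ℤ} {z : EE g} (hg : 0 < g) (hl : 2 ≤ l)
    (hz : z ∈ G.HH g) (h : ∀ γ : G.Sp g ℚ, ac (qm γ.1) z = z → ∃ c : ℚ, γ.1 = c • 1)
    (hk : Cau l k) (he : ∀ i, 0 < e i) {j j' : ℤ} {m m' : ℕ} {γ : G.Sp g ℤ}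
    (h' : G.pt l e k z j m = az γ (G.pt l e k z j' m')) : j = j' := by
  have hl0 : 0 < l := by omega
  have hq : (l : ℚ) ≠ 0 := by exact_mod_cast hl0.ne'
  rw [pt_eq hl0 hz, pt_eq hl0 hz, az_eq_ac, ← qac_mul _ _ hz] at h'
  set a := dsp hl0 e j * zqsp (k m) with ha
  set b := zqsp γ * (dsp hl0 e j' * zqsp (k m')) with hb
  have h1 : ac (qm (a⁻¹ * b).1) z = z := by
    rw [qac_mul _ _ hz, ← h', ← qac_mul _ _ hz, inv_mul_cancel, qac_one]
  obtain ⟨c, hc⟩ := h _ h1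
  have i : Fin g := ⟨0, hg⟩
  have hc2 : c * c = 1 := by
    have h2 := (a⁻¹ * b).2
    rw [hc, SymplecticGroup.mem_iff] at h2
    have := congrFun (congrFun h2 (Sum.inr i)) (Sum.inl i)
    simpa [J] using this
  obtain ⟨κ, hκ⟩ : ∃ κ, κ = k m * (k m')⁻¹ := ⟨_, rfl⟩
  have hκ1 : κ ∈ Gam g (32 * l ^ (0 + 1)) := hκ ▸ hk.two (Nat.zero_le _) (Nat.zero_le _)
  have h3 : zq γ.1 * dgm l e j' = c • (dgm l e j * zq κ.1) := by
    have h4 : zqsp γ * dsp hl0 e j' = a * (a⁻¹ * b) * (zqsp (k m'))⁻¹ := by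
      rw [hb]; group
    have h5 : dsp hl0 e j * zqsp κ = a * (zqsp (k m'))⁻¹ := by
      have : zqsp (k m) = zqsp κ * zqsp (k m') := by
        rw [← zqsp_mul, hκ]; congr 1; group
      rw [ha, this]; group
    have h6 := congrArg Subtype.val h4
    have h7 := congrArg Subtype.val h5
    change zq γ.1 * dgm l e j' = a.1 * (a⁻¹ * b).1 * ((zqsp (k m'))⁻¹).1 at h6
    change dgm l e j * zq κ.1 = a.1 * ((zqsp (k m'))⁻¹).1 at h7
    rw [h6, h7, hc, Matrix.mul_smul, Matrix.mul_one, Matrix.smul_mul]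
  have key : ∀ x : I2 g, j * dwt e x - j' * dwt e x < 0 → False := fun x hx => by
    have h4 := congrFun (congrFun h3 x) x
    rw [dgm_eq, dgm_eq, Matrix.smul_apply, mul_diagonal, diagonal_mul, smul_eq_mul] at h4
    change ((γ.1 x x : ℤ) : ℚ) * _ = _ * (_ * ((κ.1 x x : ℤ) : ℚ)) at h4
    obtain ⟨n, hn⟩ : ∃ n : ℕ, j' * dwt e x = j * dwt e x + (n + 1 : ℕ) :=
      ⟨(j' * dwt e x - j * dwt e x - 1).toNat, by push_cast; omega⟩
    rw [hn, zpow_add₀ hq, zpow_natCast] at h4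
    have h5 : (γ.1 x x : ℚ) * l ^ (n + 1) = c * κ.1 x x := by
      have := zpow_ne_zero (j * dwt e x) hq
      refine mul_left_cancel₀ this ?_
      linear_combination h4
    have h6 : (l : ℤ) ∣ κ.1 x x := by
      rcases mul_self_eq_one_iff.1 hc2 with rfl | rfl
      · have : γ.1 x x * l ^ (n + 1) = κ.1 x x := by exact_mod_cast (h5.trans (one_mul _))
        exact ⟨γ.1 x x * l ^ n, by rw [← this]; ring⟩
      · have : γ.1 x x * l ^ (n + 1) = -κ.1 x x := by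
          exact_mod_cast (h5.trans (neg_one_mul _))
        exact ⟨-(γ.1 x x * l ^ n), by linear_combination this⟩
    have h7 : (l : ℤ) ∣ κ.1 x x - 1 := by
      have := hκ1 x x
      rw [one_apply_eq] at this
      exact Dvd.dvd.trans ⟨32, by push_cast; ring⟩ this
    have h8 : (l : ℤ) ∣ 1 := by simpa using dvd_sub h6 h7
    have := Int.le_of_dvd one_pos h8
    omega
  have hi : (0 : ℤ) < e i := by exact_mod_cast he i
  by_contra hne
  rcases lt_or_gt_of_ne hne with hlt | hlt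
  · exact key (Sum.inr i) (by simp only [dwt, Sum.elim_inr]; nlinarith)
  · exact key (Sum.inl i) (by simp only [dwt, Sum.elim_inl]; nlinarith)

variable [Dim]

variable {τ : Matrix (Fin gg) (Fin gg) ℂ} {K : IntermediateField ℚ ℂ}

/-- A sequence of inequivalent rational translates of the point. -/
structure Orb (τ : Matrix (Fin gg) (Fin gg) ℂ) (l : ℕ) where
  /-- the matrices -/
  γ : ℕ → G.Sp gg ℚ
  int : ∀ j, ∀ p : Pr, (p : ℕ) ≠ l → ∀ a b, ‖((γ j).1 a b : ℚ_[p])‖ ≤ 1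
  inj : ∀ j j' (δ : G.Sp gg ℤ), tr τ (γ j) = az δ (tr τ (γ j')) → j = j'

/-- the points lie in the orbit of the group of the algebra -/
def Orb.Lev {l : ℕ} [Fact l.Prime] (O : Orb τ l) (D : Cub l) : Prop :=
  (∀ j, ∀ p : Pr, (p : ℕ) ≠ l → ∀ a b, ‖((((O.γ j).1 - 1) a b / 2 : ℚ) : ℚ_[p])‖ ≤ 1) ∧
    ∀ j, ∃ (n : ℕ) (g : M2 (AdjoinRoot D.c)) (κ : M8 ℤ_[l]),
      g.det = (l : AdjoinRoot D.c) ^ (2 * n) ∧ GS 1 κ ∧
        (O.γ j).1.map (Rat.cast : ℚ → ℚ_[l]) * (D.Nm g).map ((↑) : ℤ_[l] → ℚ_[l]) =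
          (l : ℚ_[l]) ^ (nn * n) • κ.map ((↑) : ℤ_[l] → ℚ_[l])

/-- one more excluded prime -/
def enl (M : MumfordType τ K) (l : Pr) : MumfordType τ K :=
  { M with
    S := insert l M.S
    sub := fun σ l' h => M.sub σ l' fun h' => h (Finset.mem_insert_of_mem h')
    big := fun T g => (M.big T g).imp fun _ h l' h1 h2 =>
      h l' h1 fun h' => h2 (Finset.mem_insert_of_mem h') }

theorem exists_orb (hτ : Sieg τ) (h : ∀ γ : G.Sp gg ℚ, tr τ γ = un τ → ∃ c : ℚ, γ.1 = c • 1)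
    {l : ℕ} [hl : Fact l.Prime] (h2 : l ≠ 2) (D : Cub l) : ∃ O : Orb τ l, O.Lev D := by
  have m1 : un τ ∈ G.HH gg := by rwa [← mk_un hτ.symm] at hτ
  obtain ⟨k, e, hk, he, car⟩ := g8_cartan D
  obtain ⟨γ, c1, c2, c3⟩ := g8_seq h2 hk.dl.transpose_one
  have l0 : 0 < l := hl.out.pos
  let φ : ℤ_[l] →+* ℚ_[l] := PadicInt.Coe.ringHom
  let c : ℚ →+* ℚ_[l] := Rat.castHom _
  set K : M8 ℚ_[l] := k.map (↑)
  set K' : M8 ℚ_[l] := (dl k)ᵀ.map (↑)
  have kk : K * K' = 1 := (Matrix.map_mul (f := φ)).symm.trans (by simp [hk.mul_dlT])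
  have dd : ∀ j, (dgm l e j).map c * (dgm l e (-j)).map c = 1 := fun j => by
    rw [← Matrix.map_mul, ← dgm_add l0]; simp [dgm]
  let X : ℕ → ℕ → M8 ℚ_[l] := fun j m => (dgm l e j).map c *
    ((γ m).1.map (Int.cast : ℤ → ℚ_[l]) - K') * (K * (dgm l e (-j)).map c * K')
  have near : ∀ j : ℕ, ∃ m, ∀ a b, ‖X j m a b‖ ≤ 1 := fun j => by
    have t : Tendsto (X j) atTop (𝓝 0) := by
      simpa using ((c3.sub_const K').const_mul ((dgm l e j).map c)).mul_const
        (K * (dgm l e (-j)).map c * K')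
    exact (eventually_all.2 fun a => eventually_all.2 fun b =>
      (tendsto_pi_nhds.1 (tendsto_pi_nhds.1 t a) b).norm.eventually_le_const
        (show ‖(0 : ℚ_[l])‖ < 1 by simp)).exists
  choose m hm using near
  have two : ∀ (j : ℕ) (p : Pr), (p : ℕ) ≠ l → ∀ a b,
      ‖((((dsp l0 e j * zqsp (γ (m j))).1 - 1) a b / 2 : ℚ) : ℚ_[p])‖ ≤ 1 := fun j p hp => by
    let A := (PadicInt.subring p).comap (Rat.castHom ℚ_[p])
    have hp' : ‖((l : ℕ) : ℚ_[p])‖ = 1 :=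
      Padic.norm_natCast_eq_one_iff.2 ((Nat.coprime_primes p.2 hl.out).2 hp)
    exact (g8_two A).mul_mem (g8_two_dgm (hl.out.odd_of_ne_two h2) (show ‖_‖ ≤ 1 by simp [hp']) e j)
      (g8_two_int A (c2 (m j)))
  refine ⟨⟨fun j => dsp l0 e j * zqsp (γ (m j)), fun j p hp a b => ?_, fun j j' δ H => ?_⟩, two,
    fun j => ?_⟩
  · let A := (PadicInt.subring p).comap (Rat.castHom ℚ_[p])
    have h1 : ((dsp l0 e j * zqsp (γ (m j))).1 - 1) a b / 2 ∈ A := two j p hp a b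
    have h3 : (1 : M8 ℚ) a b ∈ A := by
      rw [one_apply]
      split_ifs
      exacts [A.one_mem, A.zero_mem]
    have := A.add_mem (A.mul_mem (ofNat_mem A 2) h1) h3
    rwa [mul_div_cancel₀ _ two_ne_zero, Matrix.sub_apply, sub_add_cancel] at this
  · rw [tr, tr, ← pt_eq l0 m1, ← pt_eq l0 m1] at H
    exact_mod_cast pt_inj' (NeZero.pos gg) hl.out.two_le m1 h c1 he H
  · obtain ⟨n, g, g1, g2⟩ := car j
    have e1 : (dsp l0 e j * zqsp (γ (m j))).1.map (Rat.cast : ℚ → ℚ_[l]) =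
        (dgm l e j).map c * (γ (m j)).1.map (Int.cast : ℤ → ℚ_[l]) := by
      refine (Matrix.map_mul (f := c)).trans ?_
      congr 1
    have e2 : (dgm l e j).map c * (γ (m j)).1.map (Int.cast : ℤ → ℚ_[l]) * (K * (dgm l e (-j)).map c * K') =
        (dgm l e j).map c * ((γ (m j)).1.map (Int.cast : ℤ → ℚ_[l]) - K') * (K * (dgm l e (-j)).map c * K') + K' := by
      have := g8_ring (a := 1) (x := (γ (m j)).1.map (Int.cast : ℤ → ℚ_[l])) (mul_eq_one_comm.1 kk) (dd j)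
      rw [one_mul, one_mul, add_sub, sub_left_inj] at this
      exact this
    let κ : M8 ℤ_[l] := (of fun a b => ⟨_, hm j a b⟩) + (dl k)ᵀ
    have e3 : κ.map φ =
        (dgm l e j).map c * (γ (m j)).1.map (Int.cast : ℤ → ℚ_[l]) * (K * (dgm l e (-j)).map c * K') := by
      rw [e2, Matrix.map_add _ (map_add φ)]
      rfl
    have s1 : ∀ i, GS 1 ((dgm l e i).map c) := fun i => by
      simpa using (gs_one_iff.2 (dgm_mem l0 e i)).map c
    have s2 : GS 1 (κ.map φ) := by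
      have := ((s1 j).mul ((gs_one_iff.2 (γ (m j)).2).map (Int.castRingHom ℚ_[l]))).mul
        (((hk.map φ).mul (s1 (-j))).mul (hk.dl.transpose_one.map φ))
      simp only [map_one, mul_one] at this
      rw [e3]
      exact this
    refine ⟨n, g, κ, g1, gs_iff.2 (Matrix.map_injective (f := φ) Subtype.val_injective ?_), ?_⟩
    · have := gs_iff.1 s2
      rw [← map_J _ φ, one_smul] at this
      simp only [Matrix.map_mul, transpose_map, one_smul]
      exact this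
    · change (dsp l0 e j * zqsp (γ (m j))).1.map _ * _ = _ • κ.map φ
      rw [e1, ← g2, e3, mul_smul_comm]
      rfl

end Pool.Agent.MT.U
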