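import Pool.Agent.Lib.MP_d61fbb_ag.MN.GCub
import Pool.Agent.Lib.MP_d61fbb_ag.MT.ZC0

/-! The Cartan decomposition with respect to the torus at a prime that splits completely. -/

set_option autoImplicit false

noncomputable section

open Matrix Polynomial NumberField

namespace Pool.Agent.MT

variable [Dim]

section two
variable {O : Type} [CommRing O]

theorem diag_unit_aux {A : M2 O} {x y : O} (ht : A.trace = x + y) (hd : A.det = x * y)
    (hu : IsUnit (x - y)) (h : IsUnit (A 0 0 - y)) :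
    ∃ c : M2 O, IsUnit c.det ∧ A * c = c * diagonal ![x, y] := by
  rw [trace_fin_two] at ht
  rw [det_fin_two] at hd
  refine ⟨!![A 0 0 - y, A 0 1; A 1 0, y - A 0 0], ?_, ?_⟩
  · convert (h.mul hu).neg using 1
    rw [det_fin_two_of]
    linear_combination hd - A 0 0 * ht
  · ext i j
    fin_cases i <;> fin_cases j <;> simp [mul_apply, Fin.sum_univ_two, diagonal]
    · linear_combination A 0 0 * ht - hd
    · ring
    · linear_combination A 1 0 * ht
    · linear_combination y * ht - hd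

/-- Matrices of size two over a local ring whose eigenvalues differ by a unit. -/
theorem diag_unit [IsLocalRing O] {A : M2 O} {x y : O} (ht : A.trace = x + y)
    (hd : A.det = x * y) (hu : IsUnit (x - y)) :
    ∃ c c' : M2 O, c.det = 1 ∧ c * c' = 1 ∧ c' * c = 1 ∧ A = c * diagonal ![x, y] * c' := by
  obtain ⟨c, hc, e⟩ : ∃ c : M2 O, IsUnit c.det ∧ A * c = c * diagonal ![x, y] := by
    rcases IsLocalRing.isUnit_or_isUnit_of_isUnit_add
      (show IsUnit (A 0 0 - y + -(A 0 0 - x)) by convert hu using 1; ring) with h | h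
    · exact diag_unit_aux ht hd hu h
    · obtain ⟨c, hc, e⟩ := diag_unit_aux (ht.trans (add_comm _ _)) (hd.trans (mul_comm _ _))
        (by simpa using hu.neg) (by simpa using h.neg)
      refine ⟨c * !![0, 1; -1, 0], by simpa using hc, ?_⟩
      rw [← Matrix.mul_assoc, e, Matrix.mul_assoc, Matrix.mul_assoc]
      congr 1
      ext i j
      fin_cases i <;> fin_cases j <;> simp [mul_apply, diagonal]
  obtain ⟨u, hu⟩ := hc.exists_right_inv
  have h1 : (c * diagonal ![u, 1]).det = 1 := by simp [hu]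
  have h2 : IsUnit (c * diagonal ![u, 1]).det := by rw [h1]; exact isUnit_one
  refine ⟨_, _, h1, mul_nonsing_inv _ h2, nonsing_inv_mul _ h2, ?_⟩
  rw [Matrix.mul_assoc c, (commute_diagonal _ _).eq, ← Matrix.mul_assoc c, ← e,
    Matrix.mul_assoc A, Matrix.mul_assoc A, mul_nonsing_inv _ h2, Matrix.mul_one]

theorem smith_aux {g : M2 O} (h : ∀ i j, g 0 0 ∣ g i j) :
    ∃ (k k' : M2 O) (d d' : O), k.det = 1 ∧ k'.det = 1 ∧ g = k * diagonal ![d, d'] * k' := by
  obtain ⟨b, hb⟩ := h 0 1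
  obtain ⟨c, hc⟩ := h 1 0
  refine ⟨!![1, 0; c, 1], !![1, b; 0, 1], g 0 0, g 1 1 - g 0 0 * b * c, by simp, by simp, ?_⟩
  ext i j
  fin_cases i <;> fin_cases j <;>
    simp [mul_apply, Fin.sum_univ_two, vecMul_diagonal, hb, hc] <;> ring

/-- The normal form of Smith over a discrete valuation ring. -/
theorem smith_two [IsDomain O] [IsDiscreteValuationRing O] (g : M2 O) :
    ∃ (k k' : M2 O) (d d' : O), k.det = 1 ∧ k'.det = 1 ∧ g = k * diagonal ![d, d'] * k' := by
  obtain ⟨⟨a, b⟩, -, h⟩ := Finset.exists_min_image (Finset.univ : Finset (Fin 2 × Fin 2))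
    (fun x => IsDiscreteValuationRing.addVal O (g x.1 x.2)) Finset.univ_nonempty
  have h1 : ∀ i j, g a b ∣ g i j := fun i j =>
    IsDiscreteValuationRing.addVal_le_iff_dvd.1 (h (i, j) (Finset.mem_univ _))
  obtain ⟨s, s', t, t', k1, k2, k3, k4, k5⟩ : ∃ s s' t t' : M2 O, s'.det = 1 ∧ t'.det = 1 ∧
      s' * s = 1 ∧ t * t' = 1 ∧ ∀ i j, (s * g * t) 0 0 ∣ (s * g * t) i j := by
    have e : ∀ a : Fin 2, ∃ s s' : M2 O, s'.det = 1 ∧ s' * s = 1 ∧ s 0 = Pi.single a 1 := fun a => by
      fin_cases a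
      · exact ⟨1, 1, by simp, by simp, by ext j; fin_cases j <;> rfl⟩
      · exact ⟨!![0, 1; -1, 0], !![0, -1; 1, 0], by simp, by simp [← one_fin_two],
          by ext j; fin_cases j <;> simp⟩
    obtain ⟨s, s', k1, k2, k3⟩ := e a
    obtain ⟨t, t', k4, k5, k6⟩ := e b
    refine ⟨s, s', tᵀ, t'ᵀ, k1, by simpa using k4, k2, by rw [← transpose_mul, k5, transpose_one],
      fun i j => ?_⟩
    have : (s * g * tᵀ) 0 0 = g a b := by
      simp [mul_apply, k3, k6, Pi.single_apply]
    rw [this]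
    simp only [mul_apply, Finset.sum_mul]
    exact Finset.dvd_sum fun _ _ => Finset.dvd_sum fun _ _ => ((h1 _ _).mul_left _).mul_right _
  obtain ⟨k, k', d, d', h2, h3, e⟩ := smith_aux k5
  refine ⟨s' * k, k' * t', d, d', by simp [k1, h2], by simp [k2, h3], ?_⟩
  calc g = (s' * s) * g * (t * t') := by rw [k3, k4]; simp
    _ = s' * (s * g * t) * t' := by simp only [Matrix.mul_assoc]
    _ = _ := by rw [e]; simp only [Matrix.mul_assoc]

end two

variable {l : ℕ} [Fact l.Prime]

/-- An integer polynomial with prescribed valuations at points that are distinct modulo `l`. -/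
theorem exists_poly_assoc {ι : Type} [Fintype ι] [DecidableEq ι] (z d : ι → ℤ_[l])
    (hz : ∀ s t, s ≠ t → IsUnit (z s - z t)) (hd : ∀ s, d s ≠ 0) :
    ∃ Q : ℤ[X], ∀ s, Associated (aeval (z s) Q) (d s) := by
  have hl : ¬ IsUnit (l : ℤ_[l]) := PadicInt.irreducible_p.not_isUnit
  have h1 : ∀ s, ∃ n : ℤ, Associated (z s - n) l := fun s => by
    obtain ⟨w, hw⟩ := Ideal.mem_span_singleton.1 (PadicInt.appr_spec 2 (z s - (l : ℤ_[l])))
    refine ⟨(z s - l).appr 2, ?_⟩
    have hu : IsUnit (1 + (l : ℤ_[l]) * w) :=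
      (IsLocalRing.isUnit_or_isUnit_of_isUnit_add (show IsUnit (1 + (l : ℤ_[l]) * w + -(l * w)) by
        simp)).resolve_right fun h => hl (isUnit_of_mul_isUnit_left (by simpa using h.neg))
    rw [show z s - (((z s - l).appr 2 : ℤ) : ℤ_[l]) = l * (1 + l * w) by
      push_cast; linear_combination hw]
    exact associated_mul_unit_left _ _ hu
  choose n hn using h1
  choose m hm using fun s => IsDiscreteValuationRing.associated_pow_irreducible (hd s)
    PadicInt.irreducible_p
  refine ⟨∏ t, (X - C (n t)) ^ m t, fun s => ?_⟩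
  simp only [map_prod, map_pow, map_sub, aeval_X, eq_intCast, map_intCast]
  rw [← Finset.mul_prod_erase _ _ (Finset.mem_univ s)]
  refine (associated_mul_unit_left _ _ (IsUnit.prod_iff.2 fun t ht => IsUnit.pow _ ?_)).trans
    ((hn s).pow_pow.trans (hm s).symm)
  exact (IsLocalRing.isUnit_or_isUnit_of_isUnit_add (show IsUnit (z s - n t + -(z t - n t)) by
    convert hz s t (Finset.ne_of_mem_erase ht).symm using 1; ring)).resolve_right fun h =>
      hl ((hn t).isUnit (by simpa using h.neg))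

namespace Cub

variable (D : Cub l)

/-- The cubic algebra is split when a matrix has six rational eigenvalues. -/
theorem split {ι : Type} [Fintype ι] {r : ι → ℤ_[l]} (hr : ∀ s t, s ≠ t → IsUnit (r s - r t))
    {A : M2 (AdjoinRoot D.c)}
    (hA : ∀ n : ℤ, Algebra.norm ℤ_[l] ((n : M2 (AdjoinRoot D.c)) - A).det = ∏ s, (n - r s)) :
    ∃ (π : Fin nn → AdjoinRoot D.c →+* ℤ_[l]) (z : Fin nn × Fin 2 → ℤ_[l]),
      (∀ x, (∀ i, π i x = 0) → x = 0) ∧ (∀ c : Fin nn → ℤ_[l], ∃ x, ∀ i, π i x = c i) ∧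
      (∀ s t, s ≠ t → IsUnit (z s - z t)) ∧
      ∀ i, π i A.trace = z (i, 0) + z (i, 1) ∧ π i A.det = z (i, 0) * z (i, 1) := by
  classical
  have hi := zp_alg_inj l
  set a := algebraMap ℤ_[l] (PadicAlgCl l) with ha
  choose x y ht hx using fun i => eig_two (D.σ i A.trace) (D.σ i A.det)
  have h0 : ∀ (c : ℤ_[l]) i, D.σ i (algebraMap ℤ_[l] _ c - A).det = (a c - x i) * (a c - y i) :=
    fun c i => by
      have e : (algebraMap ℤ_[l] _ c - A).det = algebraMap ℤ_[l] _ c ^ 2 -
          algebraMap ℤ_[l] _ c * A.trace + A.det := by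
        simp [det_fin_two, trace_fin_two, algebraMap_matrix_apply]; ring
      rw [e, map_add, map_sub, map_mul, map_pow, AlgHom.commutes, ht, hx]; ring
  let w : Fin nn × Fin 2 → PadicAlgCl l := fun s => ![x s.1, y s.1] s.2
  have h1 : ∏ s, (X - C (w s)) = ∏ s, (X - C (a (r s))) := by
    refine eq_of_infinite_eval_eq _ _ ((Set.infinite_range_of_injective
      (Int.cast_injective (α := PadicAlgCl l))).mono ?_)
    rintro _ ⟨n, rfl⟩
    have := congrArg a (hA n)
    rw [D.alg_norm, ← map_intCast (algebraMap ℤ_[l] (M2 (AdjoinRoot D.c)))] at this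
    simp only [h0] at this
    simp only [map_intCast, map_prod, map_sub] at this
    simp [eval_prod, Fintype.prod_prod_type, w, this]
  have h2 : Function.Injective w := by
    rw [← separable_prod_X_sub_C_iff, h1, separable_prod_X_sub_C_iff]
    exact fun s t e => by_contra fun h => (hr s t h).ne_zero (sub_eq_zero.2 (hi e))
  have h3 : ∀ s, ∃ t, a (r t) = w s := fun s => by
    have := congrArg (eval (w s)) h1
    simp only [eval_prod, eval_sub, eval_X, eval_C] at this
    rw [Finset.prod_eq_zero (Finset.mem_univ s) (sub_self _), eq_comm,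
      Finset.prod_eq_zero_iff] at this
    obtain ⟨t, -, e⟩ := this
    exact ⟨t, (sub_eq_zero.1 e).symm⟩
  choose t hw using h3
  have hz : ∀ s s', s ≠ s' → IsUnit (r (t s) - r (t s')) := fun s s' h =>
    hr _ _ fun e => h (h2 (by rw [← hw, ← hw, e]))
  have hx' : ∀ i, x i = a (r (t (i, 0))) := fun i => (hw (i, 0)).symm
  have hy' : ∀ i, y i = a (r (t (i, 1))) := fun i => (hw (i, 1)).symm
  have h4 : ∀ i, ∃ e : AdjoinRoot D.c, ∀ k, D.σ k e = if k = i then 1 else 0 := fun i => by
    obtain ⟨u, hu⟩ := (IsUnit.prod_iff.2 fun k (hk : k ∈ Finset.univ.erase i) =>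
      (hz (k, 0) (i, 0) (by simpa using hk)).mul (hz (k, 0) (i, 1) (by simp))).exists_left_inv
    refine ⟨u • ∏ k ∈ Finset.univ.erase i, (algebraMap ℤ_[l] _ (r (t (k, 0))) - A).det,
      fun k => ?_⟩
    rw [map_smul, map_prod, Algebra.smul_def]
    simp only [h0]
    split_ifs with h
    · subst h
      simpa [hx', hy'] using congrArg a hu
    · rw [Finset.prod_eq_zero (i := k) (by simpa using h) (by simp [hx']), mul_zero]
  choose e he using h4
  have h5 : ∀ i v, a (Algebra.norm ℤ_[l] (v * e i + (1 - e i))) = D.σ i v := fun i v => by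
    rw [D.alg_norm, Finset.prod_eq_single i (fun k _ h => by simp [he, h]) (by simp)]
    simp [he]
  let π : Fin nn → AdjoinRoot D.c →+* ℤ_[l] := fun i =>
    { toFun := fun v => Algebra.norm ℤ_[l] (v * e i + (1 - e i))
      map_one' := hi (by rw [h5, map_one, map_one])
      map_mul' := fun u v => hi (by rw [map_mul a, h5, h5, h5, map_mul])
      map_zero' := hi (by rw [h5, map_zero, map_zero])
      map_add' := fun u v => hi (by rw [map_add a, h5, h5, h5, map_add]) }
  have h6 : ∀ i v, a (π i v) = D.σ i v := h5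
  refine ⟨π, fun s => r (t s), fun v hv => sig_inj D.bas D.inj hi fun i => by
    rw [← h6, hv, map_zero], fun c => ⟨∑ k, c k • e k, fun i => hi ?_⟩, hz, fun i =>
      ⟨hi (by rw [h6, ht, map_add, hx', hy']), hi (by rw [h6, hx, map_mul, hx', hy'])⟩⟩
  rw [h6]
  simp [he, Algebra.smul_def, ha, -AdjoinRoot.algebraMap_eq]

/-- The Cartan decomposition. -/
theorem cartan {E : Type} [Field E] [NumberField E] {ι : Type} [Fintype ι] {θ : 𝓞 E}
    {φ : ι → 𝓞 E →+* ℤ_[l]} (hφ : ∀ a, ((Algebra.norm ℤ a : ℤ) : ℤ_[l]) = ∏ s, φ s a)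
    (hθ : ∀ s s', s ≠ s' → IsUnit (φ s θ - φ s' θ)) (j : 𝓞 E →+* M2 (AdjoinRoot D.c))
    (hj : ∀ a, Algebra.norm ℤ_[l] (j a).det = (Algebra.norm ℤ a : ℤ))
    {g : M2 (AdjoinRoot D.c)} {m : ℕ} (hg : g.det = (l : AdjoinRoot D.c) ^ m) :
    ∃ (a : 𝓞 E) (k k' : M2 (AdjoinRoot D.c)), a ≠ 0 ∧ k.det = 1 ∧ IsUnit k' ∧
      g = k * j a * k' := by
  obtain ⟨π, z, h1, h2, h3, h4⟩ := D.split hθ (A := j θ) fun n => by
    rw [← map_intCast j, ← map_sub, hj, hφ]; simp
  have hd : ∀ (x : M2 (AdjoinRoot D.c)) i, (x.map (π i)).det = π i x.det := fun x i =>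
    ((π i).map_det x).symm
  have hg0 : ∀ i, (g.map (π i)).det ≠ 0 := fun i => by
    rw [hd, hg, map_pow, map_natCast]
    exact pow_ne_zero _ PadicInt.irreducible_p.ne_zero
  choose c c' k1 k2 k3 k4 using fun i => diag_unit (A := (j θ).map (π i))
    (by rw [← (h4 i).1]; simp [trace_fin_two]) (by rw [hd, (h4 i).2]) (h3 (i, 0) (i, 1) (by simp))
  choose k k' d d' k5 k6 k7 using fun i => smith_two (g.map (π i))
  obtain ⟨Q, hQ⟩ := exists_poly_assoc z (fun s => ![d s.1, d' s.1] s.2) h3 (by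
    rintro ⟨i, b⟩
    have := hg0 i
    rw [k7] at this
    fin_cases b <;> simp_all)
  choose u hu using hQ
  have h5 : ∀ i, (j (aeval θ Q)).map (π i) =
      c i * diagonal (fun b => aeval (z (i, b)) Q) * c' i := fun i => by
    rw [hom_aeval j, ← RingHom.mapMatrix_apply, hom_aeval, RingHom.mapMatrix_apply, k4]
    refine (hom_aeval (cjHom (k2 i) (k3 i)).toRingHom _ Q).symm.trans ?_
    show c i * _ * c' i = _
    congr 2
    refine (hom_aeval (diagonalRingHom (Fin 2) ℤ_[l]) _ Q).symm.trans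
      (congrArg diagonal (_root_.funext fun b => ?_))
    refine (hom_aeval (Pi.evalRingHom (fun _ : Fin 2 => ℤ_[l]) b) _ Q).trans ?_
    fin_cases b <;> rfl
  have h6 : ∀ x : Fin nn → M2 ℤ_[l], ∃ y : M2 (AdjoinRoot D.c), ∀ i, y.map (π i) = x i := fun x => by
    choose y hy using fun a b => h2 fun i => x i a b
    exact ⟨of y, fun i => Matrix.ext fun a b => hy a b i⟩
  have h7 : ∀ x y : AdjoinRoot D.c, (∀ i, π i x = π i y) → x = y := fun x y h =>
    sub_eq_zero.1 (h1 _ fun i => by rw [map_sub, h, sub_self])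
  have k8 : ∀ i, (c' i).det = 1 := fun i => by simpa [k1] using congrArg det (k2 i)
  obtain ⟨s, hs⟩ := h6 fun i => k i * c' i
  obtain ⟨s', hs'⟩ := h6 fun i => c i * diagonal (fun b => (u (i, b) : ℤ_[l])) * k' i
  have e : g = s * j (aeval θ Q) * s' := Matrix.ext fun a b => h7 _ _ fun i => by
    have : g.map (π i) = (s * j (aeval θ Q) * s').map (π i) := by
      rw [Matrix.map_mul, Matrix.map_mul, hs, hs', h5, k7]
      simp only [Matrix.mul_assoc]
      rw [← Matrix.mul_assoc (c' i), k3, Matrix.one_mul, ← Matrix.mul_assoc (c' i), k3,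
        Matrix.one_mul, ← Matrix.mul_assoc (diagonal _) (diagonal _), diagonal_mul_diagonal]
      simp only [hu]
    exact congrFun (congrFun this a) b
  refine ⟨_, s, s', fun h => hg0 0 (by rw [e, h]; simp), h7 _ _ fun i => by
    rw [← hd, hs]; simp [k5, k8], ?_, e⟩
  obtain ⟨v, hv⟩ := h2 fun i => ∏ b, ((u (i, b))⁻¹ : ℤ_[l]ˣ)
  refine (isUnit_iff_isUnit_det _).2 (.of_mul_eq_one v (h7 _ _ fun i => ?_))
  rw [map_mul, ← hd, hs', hv]
  simp [k1, k6, mul_mul_mul_comm]

end Cub

end Pool.Agent.MT
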