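import Pool.Agent.Lib.MP_d61fbb_ag.MN.GB1
import Pool.Agent.Lib.MP_d61fbb_ag.MN.GN2
import Pool.Agent.Lib.MP_d61fbb_ag.MN.GX4

/-! Uniqueness, invariance and equivariance of the theta constants. -/

set_option autoImplicit false

noncomputable section

namespace Pool.Agent.MT

variable [Dim]

open Matrix Polynomial Sum NumberField
open Pool.Agent.Lib.MP_696deb_nt.B2 (Qbar Gam Plc Dec Ine IsFrob Op jC)

theorem zt3_single (i : I2 gg) : (Pi.single i 1 : W) ∈ L0 := gx_L0.2 fun j => by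
  by_cases h : j = i
  · subst h; rw [Pi.single_eq_same]; exact Zh.one_mem
  · rw [Pi.single_eq_of_ne h]; exact Zh.zero_mem

/-- the standard lattice is self dual -/
theorem zt3_dual {y : W} (h : ∀ t ∈ L0, Ef t y ∈ Zh) : y ∈ L0 := gx_L0.2 fun
  | inl i => by
    have := Zh.neg_mem (h _ (zt3_single (inr i)))
    simpa [Ef, dotProduct, Pi.single_apply] using this
  | inr i => by
    have := h _ (zt3_single (inl i))
    simpa [Ef, dotProduct, Pi.single_apply] using this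

/-- multiplicity one for a polarised lattice -/
theorem Pt.uniq (hU : UNIQ) (S : TSys Qbar 0) {N : ℕ} {h : M8 AF} (P : Pt N h) {F F' : W → Qbar}
    (hF : S.IsVec N h F) (hF' : S.IsVec N h F') (h0 : F' ≠ 0) : ∃ c : Qbar, F = c • F' := by
  obtain ⟨u, hu⟩ := P.sim
  obtain ⟨w, rfl⟩ := P.unit
  refine hU Qbar 0 S N (Nat.cast_ne_zero.2 P.ne) (L0.map w.val.mulVecLin.toAddMonoidHom)
    (fun t _ => gn_Wp0 t) (fun x _ hx => ?_) (sgn S.e) F' F hF'.mem hF.mem h0 ?_ ?_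
  · have e : w.val *ᵥ w⁻¹.val *ᵥ x = x := by rw [mulVec_mulVec, Units.mul_inv, one_mulVec]
    refine ⟨w⁻¹.val *ᵥ x, zt3_dual fun t ht l => ?_, e⟩
    have h1 : S.e ((N : ℚ) • Ef (w.val *ᵥ t) x) = 1 := hx _ ⟨t, ht, rfl⟩
    rw [Nat.cast_smul_eq_nsmul, nsmul_eq_mul, ← e, hu] at h1
    have h2 := (S.ker _).1 h1 l l.2.ne_zero
    rwa [map_mul, norm_mul, gn_norm_unit, one_mul] at h2
  · rintro _ ⟨t, ht, rfl⟩
    exact hF'.inv t ht (gn_Wp0 _)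
  · rintro _ ⟨t, ht, rfl⟩
    exact hF.inv t ht (gn_Wp0 _)

/-- the values at the points of level `l ^ e` only depend on the class of the basis -/
theorem TSys.IsVec.io_eq {k : Type} [Field k] {S : TSys k 0} {N : ℕ} {h : M8 AF} {F : W → k}
    (H : S.IsVec N h F) (P : Pt N h) {l : Pr} (hl : (l : ℕ) ≠ 2) {e : ℕ} {g : GG}
    (hg : g ∈ KnG l e) (a : I2 gg → ℤ) : F ((h * gm g) *ᵥ io l e a) = F (h *ᵥ io l e a) := by
  obtain ⟨u, ⟨c, y, hy⟩, hu⟩ := mem_KnG.1 hg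
  have h0 : ((l : ℕ) : ℚ_[l]) ^ e ≠ 0 := pow_ne_zero _ (Nat.cast_ne_zero.2 l.2.ne_zero)
  let b : Vl l := fun n => (a n : ℚ_[l])
  have hb : ∀ i, b i ∈ PadicInt.subring l := fun i => Padic.norm_int_le_one _
  have hs : ∀ i, (upM l y *ᵥ b) i ∈ PadicInt.subring l :=
    gx_mulVec_mem _ (fun i j => (y i j).2) hb
  have e1 : (fun n => (a n : ℚ_[l]) / ((l : ℕ) : ℚ_[l]) ^ e) = (((l : ℕ) : ℚ_[l]) ^ e)⁻¹ • b :=
    funext fun n => by rw [Pi.smul_apply, smul_eq_mul, div_eq_inv_mul]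
  have e0 : ∀ (t : ℤ_[l]) (x : M8 ℤ_[l]), upM l (t • x) = (t : ℚ_[l]) • upM l x := fun t x =>
    gn_map_smul _ _ _
  have e2 : upM l u.val = 1 + ((l : ℕ) : ℚ_[l]) ^ e •
      ((c : ℚ_[l]) • 1 + ((l : ℕ) : ℚ_[l]) ^ e • upM l y) := by
    rw [hy, map_add, map_one, e0, map_add, e0, e0, map_one, PadicInt.coe_pow, PadicInt.coe_natCast]
  rw [← mulVec_mulVec, io, gn_mulVec_sgv l (gm g), ← cpG_eq, hu, e1, e2, add_mulVec, one_mulVec,
    smul_mulVec, mulVec_smul, smul_inv_smul₀ h0, add_mulVec, smul_mulVec, smul_mulVec, one_mulVec]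
  refine H.shift P (fun h => hl (congrArg Subtype.val h)) (fun i => ?_) ?_
  · exact (PadicInt.subring l).add_mem ((PadicInt.subring l).mul_mem c.2 (hb i))
      ((PadicInt.subring l).mul_mem (pow_mem (natCast_mem _ _) _) (hs i))
  · rw [Ef_add_left, Ef_smul_left, Ef_smul_left, Ef_smul_right, Ef_smul_right, Ef_self, mul_zero,
      mul_zero, zero_add, mul_inv_cancel_left₀ h0]
    exact gx_Ef_mem _ hs hb

variable {τ : Matrix (Fin gg) (Fin gg) ℂ} {K : IntermediateField ℚ ℂ} {M : MumfordType τ K}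
  {A : AR M} {v : Frb A} {P : ℤ[X]} {E : Type} [Field E] [NumberField E] {d : DF P v.p E}
  {H : FrD v.p (M.ρ v.φ) P} {f : ℕ} {l₀ : Pr} {D : Loc E f l₀ (ℂ ≃ₐ[K] ℂ) GG}

theorem zt_uniq (hU : UNIQ) {p l : Pr} {e : ℕ} {g : GG} {θ θ' : (I2 gg → ℤ) → ℂ}
    (h : ThN A.S p l e g θ) (h' : ThN A.S p l e g θ') : ∃ u : ℂ, ∀ a, θ a = u * θ' a := by
  obtain ⟨N, F, H, -, hθ⟩ := h
  obtain ⟨N', F', H', -, hθ'⟩ := h'
  obtain rfl : N = N' := Pt.level H.pt H'.pt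
  obtain ⟨c, rfl⟩ := H.pt.uniq hU A.S H.vec H'.vec H'.ne
  exact ⟨jC c, fun a => by rw [hθ, hθ', Pi.smul_apply, smul_eq_mul, map_mul, mul_left_comm]⟩

theorem zt_inv {p l : Pr} (hl : (l : ℕ) ≠ 2) {e : ℕ} {g g' : GG} {θ : (I2 gg → ℤ) → ℂ}
    (h1 : ∀ l' : Pr, g⁻¹ * g' ∈ KG l') (h2 : g⁻¹ * g' ∈ KnG l e)
    (h : ThN A.S p l e g θ) : ThN A.S p l e g' θ := by
  obtain ⟨N, F, H, hp, hθ⟩ := h
  have e1 : sc N g' = sc N g * gm (g⁻¹ * g') := by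
    rw [sc, sc, smul_mul_assoc, ← map_mul, mul_inv_cancel_left]
  have hk : ∀ l', StdAt l' (gm (g⁻¹ * g')) := fun l' =>
    let ⟨u, hu⟩ := mem_KG.1 (h1 l')
    stdAt_of_eq u hu
  refine ⟨N, F, ?_, ?_, fun a => ?_⟩ <;> rw [e1]
  · exact ⟨H.pt.mul_right hk, H.vec.mul_right fun t ht => (gn_lat hk).2 ht, H.ne, H.int⟩
  · exact hp.mul (hk p)
  · rw [H.vec.io_eq H.pt hl h2, hθ]

theorem zt_gal {p l : Pr} {e : ℕ} {g : GG} {θ : (I2 gg → ℤ) → ℂ} (σ : ℂ ≃ₐ[K] ℂ)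
    (h : ThN A.S p l e g θ) : ThN A.S p l e (rhoG A σ * g) fun a => σ (θ a) := by
  obtain ⟨N, F, H, hp, hθ⟩ := h
  have e1 : sc N (rhoG A σ * g) = mA (M.ρ σ) * sc N g := by
    rw [sc, sc, map_mul, gm_rhoG, mul_smul_comm]
  refine ⟨N, A.cj σ F, ?_, ?_, fun a => ?_⟩ <;> rw [e1]
  · exact H.gal A σ
  · exact (stdAt_mA p _).mul hp
  · obtain ⟨s, -, hs⟩ := gx_sign a
    beta_reduce
    rw [← mulVec_mulVec, A.cj_apply, A.res_spec, hθ, hs, map_mul, map_intCast]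

end Pool.Agent.MT
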