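import Pool.Agent.Lib.MP_d61fbb_ag.MN.GB1
import Pool.Agent.Lib.MP_d61fbb_ag.MN.GLo2

/-! The local data. -/

set_option autoImplicit false

noncomputable section

namespace Pool.Agent.MT

variable [Dim]

open Matrix Polynomial Sum NumberField
open Pool.Agent.Lib.MP_696deb_nt.B2 (Qbar Gam Plc Dec Ine IsFrob Op jC)

variable {τ : Matrix (Fin gg) (Fin gg) ℂ} {K : IntermediateField ℚ ℂ} {M : MumfordType τ K}
  {A : AR M} {v : Frb A} {P : ℤ[X]} {E : Type} [Field E] [NumberField E] {d : DF P v.p E}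
  {H : FrD v.p (M.ρ v.φ) P} {f : ℕ} {l₀ : Pr} {D : Loc E f l₀ (ℂ ≃ₐ[K] ℂ) GG}

theorem zt_loc (v : Frb A) (d : DF P v.p E) (H : FrD v.p (M.ρ v.φ) P) :
    ∃ f₁ : ℕ, f₁ ≠ 0 ∧ ∀ (f : ℕ) (l₀ : Pr), f₁ ∣ f → ¬ (l₀ : ℕ) ∣ f →
      ∃ D : Loc E f l₀ (ℂ ≃ₐ[K] ℂ) GG, LocSpec v d H D := by
  obtain ⟨f₀, h0, hf⟩ := exists_bad M d
  refine ⟨6 * f₀, mul_ne_zero (by norm_num) h0, fun f l₀ h hl => ?_⟩
  have hb := hf f ((dvd_mul_left _ _).trans h)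
  have h5 : ∀ l : Pr, ¬ (l : ℕ) ∣ f → 5 ≤ (l : ℕ) := fun l hl =>
    l.2.five_le_of_ne_two_of_ne_three
      (fun e => hl (e ▸ (Dvd.dvd.mul_right (by norm_num : 2 ∣ 6) _).trans h))
      fun e => hl (e ▸ (Dvd.dvd.mul_right (by norm_num : 3 ∣ 6) _).trans h)
  exact ⟨locGG A d H l₀ hb, rfl, rfl, rfl, rfl, rfl, fun l hl =>
    ⟨fun e => hl (hb.S l e), fun e => hl (e ▸ hb.p), h5 l hl, fun e => hl (e.trans hb.den)⟩, hl⟩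

end Pool.Agent.MT
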